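import Pool.Agent.H34.Gam.EDefs2

/-!
Adjunction `HH U (L Y A) ≃ HH (U ⊗ Y) A` (job GAM-ADJ).
-/

set_option autoImplicit false
set_option linter.unusedSectionVars false

noncomputable section

namespace Pool.Agent.H34.Gam

open Module

open scoped TensorProduct

variable {K G : Type} [Field K] [Group G] [Fintype G]

/-- post-composition with an equivariant map on `L Y` -/
def Lm (Y : FRep K G) {A B : FRep K G} (f : EHom A B) : EHom (FRep.L Y A) (FRep.L Y B) :=
  ⟨LinearMap.llcomp K Y.V A.V B.V f.1, by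
    intro g φ
    refine LinearMap.ext fun y => ?_
    show f.1 (A.ρ g (φ (Y.ρ g⁻¹ y))) = B.ρ g (f.1 (φ (Y.ρ g⁻¹ y)))
    rw [EHom.map]⟩

lemma Lm_apply (Y : FRep K G) {A B : FRep K G} (f : EHom A B) (φ : Y.V →ₗ[K] A.V) (y : Y.V) :
    ((Lm Y f).1 φ : Y.V →ₗ[K] B.V) y = f.1 (φ y) := rfl

/-- `L Y` is compatible with short exact sequences -/
def SES.L (Y : FRep K G) {A B C : FRep K G} (S : SES A B C) :
    SES (FRep.L Y A) (FRep.L Y B) (FRep.L Y C) where
  i := ⟨LinearMap.llcomp K Y.V A.V B.V S.i.1, (Lm Y S.i).2⟩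
  p := ⟨LinearMap.llcomp K Y.V B.V C.V S.p.1, (Lm Y S.p).2⟩
  s := LinearMap.llcomp K Y.V C.V B.V S.s
  r := LinearMap.llcomp K Y.V B.V A.V S.r
  ri := fun a => LinearMap.ext fun y => S.ri (a y)
  ps := fun c => LinearMap.ext fun y => S.ps (c y)
  pi := fun a => LinearMap.ext fun y => S.pi (a y)
  sum := fun b => LinearMap.ext fun y => S.sum (b y)

/-- pre-composition with an equivariant map -/
def Lpre (W : FRep K G) {A B : FRep K G} (f : EHom A B) : EHom (FRep.L B W) (FRep.L A W) :=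
  ⟨LinearMap.lcomp K W.V f.1, by
    intro g φ
    refine LinearMap.ext fun y => ?_
    show W.ρ g (φ (B.ρ g⁻¹ (f.1 y))) = W.ρ g (φ (f.1 (A.ρ g⁻¹ y)))
    rw [EHom.map]⟩

/-- contravariant version -/
theorem SES_Lop (W : FRep K G) {A B C : FRep K G} (S : SES A B C) :
    Nonempty (SES (FRep.L C W) (FRep.L B W) (FRep.L A W)) := by
  refine ⟨{ i := Lpre W S.p, p := Lpre W S.i, s := LinearMap.lcomp K W.V S.r,
            r := LinearMap.lcomp K W.V S.s, ri := ?_, ps := ?_, pi := ?_, sum := ?_ }⟩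
  · intro a
    refine LinearMap.ext fun y => ?_
    show a (S.p.1 (S.s y)) = a y
    rw [S.ps]
  · intro c
    refine LinearMap.ext fun y => ?_
    show c (S.r (S.i.1 y)) = c y
    rw [S.ri]
  · intro a
    refine LinearMap.ext fun y => ?_
    show a (S.p.1 (S.i.1 y)) = 0
    rw [S.pi, map_zero]
  · intro b
    refine LinearMap.ext fun y => ?_
    show b (S.s (S.p.1 y)) + b (S.i.1 (S.r y)) = b y
    rw [← map_add, add_comm, S.sum]

/-! ### isomorphisms -/

private theorem iso_inv {U W : FRep K G} (h : Iso U W) :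
    ∃ (f : EHom U W) (g : EHom W U), (ecomp g f) = EHom.id U ∧ (ecomp f g) = EHom.id W := by
  obtain ⟨f, hf⟩ := h
  set e := LinearEquiv.ofBijective f.1 hf with he
  have h1 : ∀ x, e.symm (f.1 x) = x := fun x => e.symm_apply_apply x
  have h2 : ∀ y, f.1 (e.symm y) = y := fun y => e.apply_symm_apply y
  refine ⟨f, ⟨e.symm.toLinearMap, ?_⟩, ?_, ?_⟩
  · intro g y
    apply hf.1
    show f.1 (e.symm (W.ρ g y)) = f.1 (U.ρ g (e.symm y))
    rw [EHom.map, h2, h2]
  · apply Subtype.ext; ext x; exact h1 x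
  · apply Subtype.ext; ext x; exact h2 x

private theorem iso_of_inv {U W : FRep K G} (f : EHom U W) (g : EHom W U)
    (h1 : (ecomp g f) = EHom.id U) (h2 : (ecomp f g) = EHom.id W) : Iso U W := by
  refine ⟨f, ⟨fun x y hxy => ?_, fun y => ⟨g.1 y, ?_⟩⟩⟩
  · have e1 := LinearMap.congr_fun (congrArg Subtype.val h1) x
    have e2 := LinearMap.congr_fun (congrArg Subtype.val h1) y
    have e1' : g.1 (f.1 x) = x := e1
    have e2' : g.1 (f.1 y) = y := e2
    rw [← e1', ← e2', hxy]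
  · exact LinearMap.congr_fun (congrArg Subtype.val h2) y

private theorem Hs_mapR_id (U : FRep K G) {W : FRep K G} (x : Hs U W) :
    Hs.mapR U (EHom.id W) x = x := by
  obtain ⟨f, rfl⟩ := cl_surjective x
  rfl

private theorem Hs_mapL_id {U : FRep K G} (W : FRep K G) (x : Hs U W) :
    Hs.mapL (EHom.id U) W x = x := by
  obtain ⟨f, rfl⟩ := cl_surjective x
  rfl

private theorem Hs_mapL_comp {U U' U'' : FRep K G} (e : EHom U' U'') (e' : EHom U U')
    (W : FRep K G) (x : Hs U'' W) :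
    Hs.mapL ((ecomp e e')) W x = Hs.mapL e' W (Hs.mapL e W x) := by
  obtain ⟨f, rfl⟩ := cl_surjective x
  rfl

private theorem Hs_mapR_comp' (U : FRep K G) {W W' W'' : FRep K G} (f : EHom W' W'')
    (e : EHom W W') (x : Hs U W) :
    Hs.mapR U f (Hs.mapR U e x) = Hs.mapR U ((ecomp f e)) x := by
  obtain ⟨f, rfl⟩ := cl_surjective x
  rfl

/-- post-composition with an isomorphism, as a linear equivalence -/
private def mapREquiv (U : FRep K G) {W W' : FRep K G} (f : EHom W W') (g : EHom W' W)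
    (h1 : (ecomp g f) = EHom.id W) (h2 : (ecomp f g) = EHom.id W') : Hs U W ≃ₗ[K] Hs U W' :=
  LinearEquiv.ofLinearMap (Hs.mapR U f) (Hs.mapR U g)
    (LinearMap.ext fun x => by
      show Hs.mapR U f (Hs.mapR U g x) = x
      rw [Hs_mapR_comp', h2, Hs_mapR_id])
    (LinearMap.ext fun x => by
      show Hs.mapR U g (Hs.mapR U f x) = x
      rw [Hs_mapR_comp', h1, Hs_mapR_id])

/-- isomorphic first or second arguments -/
theorem hh_iso_left {U U' : FRep K G} (h : Iso U U') (W : FRep K G) (a : ℕ) :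
    hh a U W = hh a U' W := by
  obtain ⟨f, g, h1, h2⟩ := iso_inv h
  let e : Hs U (FRep.ShN a W) ≃ₗ[K] Hs U' (FRep.ShN a W) :=
    LinearEquiv.ofLinearMap (Hs.mapL g _) (Hs.mapL f _)
      (LinearMap.ext fun x => by
        show Hs.mapL g _ (Hs.mapL f _ x) = x
        rw [← Hs_mapL_comp, h2, Hs_mapL_id])
      (LinearMap.ext fun x => by
        show Hs.mapL f _ (Hs.mapL g _ x) = x
        rw [← Hs_mapL_comp, h1, Hs_mapL_id])
  exact e.finrank_eq

theorem hh_iso_right (U : FRep K G) {W W' : FRep K G} (h : Iso W W') (a : ℕ) :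
    hh a U W = hh a U W' := by
  obtain ⟨f, g, h1, h2⟩ := iso_inv h
  exact (mapREquiv U (ShNm a f) (ShNm a g) (by rw [← ShNm_comp, h1, ShNm_id])
    (by rw [← ShNm_comp, h2, ShNm_id])).finrank_eq

/-! ### the natural isomorphism `Sh (L Y B) ≅ L Y (Sh B)` -/

/-- `θ : Sh (L Y B) → L Y (Sh B)` as a linear map -/
private def thl (Y B : FRep K G) :
    (G → (Y.V →ₗ[K] B.V)) →ₗ[K] (Y.V →ₗ[K] (FRep.Sh B).V) where
  toFun F := shq B ∘ₗ LinearMap.pi F
  map_add' F F' := by
    refine LinearMap.ext fun y => ?_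
    show shq B (fun g => F g y + F' g y) = shq B (fun g => F g y) + shq B (fun g => F' g y)
    rw [← map_add]; rfl
  map_smul' c F := by
    refine LinearMap.ext fun y => ?_
    show shq B (fun g => c • F g y) = c • shq B (fun g => F g y)
    rw [← map_smul]; rfl

private theorem thl_apply (Y B : FRep K G) (F : G → (Y.V →ₗ[K] B.V)) (y : Y.V) :
    thl Y B F y = shq B (fun g => F g y) := rfl

/-- `θ : Sh (L Y B) → L Y (Sh B)` -/
private def th (Y B : FRep K G) : EHom (FRep.Sh (FRep.L Y B)) (FRep.L Y (FRep.Sh B)) :=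
  ⟨Sh.lift (FRep.L Y B) (thl Y B) (by
      intro w
      refine LinearMap.ext fun y => ?_
      show shq B (fun _ => w y) = 0
      exact (shq_eq_zero B _).2 ⟨w y, fun _ => rfl⟩), by
    intro k x
    obtain ⟨F, rfl⟩ := shq_surjective (FRep.L Y B) x
    rw [shq_ρ, Sh.lift_shq, Sh.lift_shq]
    refine LinearMap.ext fun y => ?_
    rw [thl_apply]
    show _ = (FRep.Sh B).ρ k (thl Y B F (Y.ρ k⁻¹ y))
    rw [thl_apply, shq_ρ]
    rfl⟩

private theorem th_shq (Y B : FRep K G) (F : G → (Y.V →ₗ[K] B.V)) (y : Y.V) :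
    ((th Y B).1 (shq (FRep.L Y B) F) : Y.V →ₗ[K] (FRep.Sh B).V) y = shq B (fun g => F g y) := rfl

private theorem th_bij (Y B : FRep K G) : Iso (FRep.Sh (FRep.L Y B)) (FRep.L Y (FRep.Sh B)) ∧
    Function.Bijective (th Y B).1 := by
  have hb : Function.Bijective (th Y B).1 := by
    constructor
    · rw [injective_iff_map_eq_zero]
      intro x hx
      obtain ⟨F, rfl⟩ := shq_surjective (FRep.L Y B) x
      rw [shq_eq_zero]
      refine ⟨F 1, fun g => LinearMap.ext fun y => ?_⟩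
      have h1 : shq B (fun g => F g y) = 0 := by
        rw [← th_shq, hx]; rfl
      obtain ⟨w, hw⟩ := (shq_eq_zero B _).1 h1
      exact (hw g).trans (hw 1).symm
    · intro ψ
      obtain ⟨σ, hσ⟩ := (shq B).exists_rightInverse_of_surjective
        (LinearMap.range_eq_top.mpr (shq_surjective B))
      refine ⟨shq (FRep.L Y B) (fun g => (LinearMap.proj g) ∘ₗ σ ∘ₗ ψ), ?_⟩
      refine LinearMap.ext fun y => ?_
      rw [th_shq]
      exact LinearMap.congr_fun hσ (ψ y)
  exact ⟨⟨th Y B, hb⟩, hb⟩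

private theorem th_nat (Y : FRep K G) {B B' : FRep K G} (f : EHom B B') :
    (ecomp (th Y B') (Sh.map (Lm Y f))) = (ecomp (Lm Y (Sh.map f)) (th Y B)) := by
  apply Subtype.ext
  apply Sh_hom_ext
  intro F
  refine LinearMap.ext fun y => ?_
  rfl

private theorem th_bmap (Y B : FRep K G) (b : BF K G) :
    (ecomp (th Y (FRep.Sh B)) ((ecomp (Sh.map (th Y B)) (bmap (FRep.L Y B) b)))) = Lm Y (bmap B b) := by
  apply Subtype.ext
  refine LinearMap.ext fun φ => LinearMap.ext fun y => ?_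
  rfl

/-- iterated version -/
private def thN (Y : FRep K G) : (a : ℕ) → (B : FRep K G) →
    EHom (FRep.ShN a (FRep.L Y B)) (FRep.L Y (FRep.ShN a B))
  | 0, B => EHom.id (FRep.L Y B)
  | a + 1, B => (ecomp (thN Y a (FRep.Sh B)) (ShNm a (th Y B)))

private theorem thN_succ (Y : FRep K G) (a : ℕ) (B : FRep K G) :
    thN Y (a + 1) B = (ecomp (thN Y a (FRep.Sh B)) (ShNm a (th Y B))) := rfl

private theorem Lm_comp (Y : FRep K G) {A B C : FRep K G} (f : EHom B C) (e : EHom A B) :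
    Lm Y ((ecomp f e)) = (ecomp (Lm Y f) (Lm Y e)) := rfl

private theorem thN_nat (Y : FRep K G) (a : ℕ) {B B' : FRep K G} (f : EHom B B') :
    (ecomp (thN Y a B') (ShNm a (Lm Y f))) = (ecomp (Lm Y (ShNm a f)) (thN Y a B)) := by
  induction a generalizing B B' with
  | zero => rfl
  | succ a ih =>
    rw [thN_succ, thN_succ, ShNm_succ, ShNm_succ]
    have h1 := ih (Sh.map f)
    calc (ecomp ((ecomp (thN Y a (FRep.Sh B')) (ShNm a (th Y B')))) (ShNm a (Sh.map (Lm Y f))))
        = (ecomp (thN Y a (FRep.Sh B')) (ShNm a ((ecomp (th Y B') (Sh.map (Lm Y f)))))) := by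
          rw [ShNm_comp]; rfl
      _ = (ecomp (thN Y a (FRep.Sh B')) (ShNm a ((ecomp (Lm Y (Sh.map f)) (th Y B))))) := by rw [th_nat]
      _ = (ecomp ((ecomp (thN Y a (FRep.Sh B')) (ShNm a (Lm Y (Sh.map f))))) (ShNm a (th Y B))) := by
          rw [ShNm_comp]; rfl
      _ = (ecomp ((ecomp (Lm Y (ShNm a (Sh.map f))) (thN Y a (FRep.Sh B)))) (ShNm a (th Y B))) := by rw [h1]
      _ = _ := rfl

private theorem thN_inv (Y : FRep K G) (a : ℕ) (B : FRep K G) :
    ∃ g : EHom (FRep.L Y (FRep.ShN a B)) (FRep.ShN a (FRep.L Y B)),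
      (ecomp g (thN Y a B)) = EHom.id _ ∧ (ecomp (thN Y a B) g) = EHom.id _ := by
  induction a generalizing B with
  | zero => exact ⟨EHom.id _, rfl, rfl⟩
  | succ a ih =>
    obtain ⟨g, h1, h2⟩ := ih (FRep.Sh B)
    have hb := (th_bij Y B).2
    -- the inverse of `θ`
    set e := LinearEquiv.ofBijective (th Y B).1 hb with he
    have k1 : ∀ x, e.symm ((th Y B).1 x) = x := fun x => e.symm_apply_apply x
    have k2 : ∀ y, (th Y B).1 (e.symm y) = y := fun y => e.apply_symm_apply y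
    let t : EHom (FRep.L Y (FRep.Sh B)) (FRep.Sh (FRep.L Y B)) := ⟨e.symm.toLinearMap, by
      intro g y
      apply hb.1
      show (th Y B).1 (e.symm ((FRep.L Y (FRep.Sh B)).ρ g y)) =
        (th Y B).1 ((FRep.Sh (FRep.L Y B)).ρ g (e.symm y))
      rw [EHom.map, k2, k2]⟩
    have t1 : (ecomp t (th Y B)) = EHom.id _ := by apply Subtype.ext; exact LinearMap.ext k1
    have t2 : (ecomp (th Y B) t) = EHom.id _ := by apply Subtype.ext; exact LinearMap.ext k2
    refine ⟨(ecomp (ShNm a t) g), ?_, ?_⟩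
    · calc (ecomp ((ecomp (ShNm a t) g)) (thN Y (a + 1) B))
          = (ecomp (ShNm a t) ((ecomp ((ecomp g (thN Y a (FRep.Sh B)))) (ShNm a (th Y B))))) := rfl
        _ = (ecomp (ShNm a t) (ShNm a (th Y B))) := by rw [h1]; rfl
        _ = EHom.id _ := by rw [← ShNm_comp, t1, ShNm_id]
    · calc (ecomp (thN Y (a + 1) B) ((ecomp (ShNm a t) g)))
          = (ecomp (thN Y a (FRep.Sh B)) ((ecomp ((ecomp (ShNm a (th Y B)) (ShNm a t))) g))) := rfl
        _ = (ecomp (thN Y a (FRep.Sh B)) g) := by rw [← ShNm_comp, t2, ShNm_id]; rfl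
        _ = EHom.id _ := h2

/-! ### currying -/

/-- currying on equivariant maps -/
private def cur (U Y B : FRep K G) : EHom U (FRep.L Y B) ≃ₗ[K] EHom (FRep.T U Y) B where
  toFun e := ⟨TensorProduct.lift e.1, by
    intro g x
    have h : TensorProduct.lift e.1 ∘ₗ (FRep.T U Y).ρ g =
        B.ρ g ∘ₗ TensorProduct.lift e.1 := by
      apply TensorProduct.ext'
      intro u y
      show TensorProduct.lift e.1 ((U.ρ g u) ⊗ₜ[K] (Y.ρ g y)) =
        B.ρ g (TensorProduct.lift e.1 (u ⊗ₜ[K] y))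
      rw [TensorProduct.lift.tmul, TensorProduct.lift.tmul, EHom.map e]
      show B.ρ g ((e.1 u : Y.V →ₗ[K] B.V) (Y.ρ g⁻¹ (Y.ρ g y))) = _
      rw [FRep.inv_self]
    exact LinearMap.congr_fun h x⟩
  invFun f := ⟨TensorProduct.curry f.1, by
    intro g u
    refine LinearMap.ext fun y => ?_
    show f.1 ((U.ρ g u) ⊗ₜ[K] y) = B.ρ g (f.1 (u ⊗ₜ[K] (Y.ρ g⁻¹ y)))
    rw [← EHom.map]
    show _ = f.1 ((U.ρ g u) ⊗ₜ[K] (Y.ρ g (Y.ρ g⁻¹ y)))
    rw [FRep.self_inv]⟩
  map_add' e e' := by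
    apply Subtype.ext
    apply TensorProduct.ext'
    intro u y
    rfl
  map_smul' c e := by
    apply Subtype.ext
    apply TensorProduct.ext'
    intro u y
    rfl
  left_inv e := by
    apply Subtype.ext
    refine LinearMap.ext fun u => LinearMap.ext fun y => ?_
    rfl
  right_inv f := by
    apply Subtype.ext
    apply TensorProduct.ext'
    intro u y
    rfl

private theorem cur_tmul {U Y B : FRep K G} (e : EHom U (FRep.L Y B)) (u : U.V) (y : Y.V) :
    (cur U Y B e).1 (u ⊗ₜ[K] y) = (e.1 u : Y.V →ₗ[K] B.V) y := rfl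

private theorem Tr_lift (U Y B : FRep K G) (φ : U.V →ₗ[K] (Y.V →ₗ[K] B.V)) :
    Tr (FRep.T U Y) B (TensorProduct.lift φ) = TensorProduct.lift (Tr U (FRep.L Y B) φ) := by
  apply TensorProduct.ext'
  intro u y
  rw [Tr_apply, TensorProduct.lift.tmul, Tr_apply, LinearMap.sum_apply]
  rfl

private theorem cur_null (U Y B : FRep K G) :
    (Null U (FRep.L Y B)).map (cur U Y B).toLinearMap = Null (FRep.T U Y) B := by
  ext f
  rw [Submodule.mem_map]
  constructor
  · rintro ⟨e, ⟨φ, hφ⟩, rfl⟩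
    refine mem_Null.2 ⟨TensorProduct.lift φ, ?_⟩
    rw [Tr_lift, hφ]; rfl
  · rintro ⟨ψ, hψ⟩
    refine ⟨(cur U Y B).symm f, ⟨TensorProduct.curry ψ, ?_⟩, (cur U Y B).apply_symm_apply f⟩
    refine LinearMap.ext fun u => LinearMap.ext fun y => ?_
    have h1 := LinearMap.congr_fun hψ (u ⊗ₜ[K] y)
    have h2 := LinearMap.congr_fun (Tr_lift U Y B (TensorProduct.curry ψ)) (u ⊗ₜ[K] y)
    rw [TensorProduct.lift.tmul] at h2
    have h3 : TensorProduct.lift (TensorProduct.curry ψ) = ψ := by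
      apply TensorProduct.ext'
      intro u y
      rfl
    rw [h3] at h2
    exact h2.symm.trans h1

/-- currying on stable Hom spaces -/
private def curH (U Y B : FRep K G) : Hs U (FRep.L Y B) ≃ₗ[K] Hs (FRep.T U Y) B :=
  Submodule.Quotient.equiv (Null U (FRep.L Y B)) (Null (FRep.T U Y) B) (cur U Y B)
    (cur_null U Y B)

private theorem curH_cl {U Y B : FRep K G} (e : EHom U (FRep.L Y B)) :
    curH U Y B (cl e) = cl (cur U Y B e) := rfl

private theorem curH_nat {U Y B B' : FRep K G} (f : EHom B B') (x : Hs U (FRep.L Y B)) :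
    curH U Y B' (Hs.mapR U (Lm Y f) x) = Hs.mapR (FRep.T U Y) f (curH U Y B x) := by
  obtain ⟨e, rfl⟩ := cl_surjective x
  rw [Hs.mapR_cl, curH_cl, curH_cl, Hs.mapR_cl]
  congr 1
  apply Subtype.ext
  apply TensorProduct.ext'
  intro u y
  rfl

/-- the degree `a` part of the adjunction -/
private theorem adjN (U Y A : FRep K G) (a : ℕ) :
    ∃ Φ : Hs U (FRep.ShN a (FRep.L Y A)) ≃ₗ[K] Hs (FRep.T U Y) (FRep.ShN a A),
      ∀ x, Φ x = curH U Y (FRep.ShN a A) (Hs.mapR U (thN Y a A) x) := by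
  obtain ⟨g, h1, h2⟩ := thN_inv Y a A
  exact ⟨(mapREquiv U (thN Y a A) g h1 h2).trans (curH U Y (FRep.ShN a A)), fun x => rfl⟩

private theorem bop_zero' (b : BF K G) (U W : FRep K G) (x : HH U W) : bop b U W x 0 = 0 := rfl

private theorem bop_one' (b : BF K G) (U W : FRep K G) (x : HH U W) : bop b U W x 1 = 0 := rfl

private theorem bop_two' (b : BF K G) (U W : FRep K G) (x : HH U W) (a : ℕ) :
    bop b U W x (a + 2) = Hs.mapR U (ShNm a (bmap W b)) (x a) := rfl

/-- The adjunction, compatible with the operators and the grading. -/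
theorem adj (U Y A : FRep K G) : ∃ Φ : HH U (FRep.L Y A) ≃ₗ[K] HH (FRep.T U Y) A,
    (∀ (b : BF K G) (x : HH U (FRep.L Y A)), Φ (bop b U _ x) = bop b _ A (Φ x)) ∧
    (∀ (n : ℕ) (x : HH U (FRep.L Y A)), x ∈ deg n U _ ↔ Φ x ∈ deg n _ A) := by
  choose Φ hΦ using adjN U Y A
  refine ⟨LinearEquiv.piCongrRight Φ, ?_, ?_⟩
  · intro b x
    funext a
    match a with
    | 0 =>
      show Φ 0 (bop b U _ x 0) = bop b _ A _ 0
      rw [bop_zero', bop_zero', map_zero]
    | 1 =>
      show Φ 1 (bop b U _ x 1) = bop b _ A _ 1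
      rw [bop_one', bop_one', map_zero]
    | a + 2 =>
      show Φ (a + 2) (bop b U _ x (a + 2)) = bop b _ A _ (a + 2)
      rw [bop_two', bop_two', hΦ]
      show _ = Hs.mapR (FRep.T U Y) (ShNm a (bmap A b)) (Φ a (x a))
      rw [hΦ, ← curH_nat]
      congr 1
      have key : (ecomp (thN Y (a + 2) A) (ShNm a (bmap (FRep.L Y A) b))) =
          (ecomp (Lm Y (ShNm a (bmap A b))) (thN Y a A)) := by
        rw [← thN_nat, ← th_bmap, ShNm_comp, ShNm_comp]
        rfl
      have k1 := Hs_mapR_comp' U (thN Y (a + 2) A) (ShNm a (bmap (FRep.L Y A) b)) (x a)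
      have k2 := Hs_mapR_comp' U (Lm Y (ShNm a (bmap A b))) (thN Y a A) (x a)
      rw [key] at k1
      exact k1.trans k2.symm
  · intro n x
    rw [mem_deg, mem_deg]
    constructor
    · intro h m hm
      show Φ m (x m) = 0
      rw [h m hm, map_zero]
    · intro h m hm
      have h1 : Φ m (x m) = 0 := h m hm
      exact (LinearEquiv.map_eq_zero_iff (Φ m)).1 h1

theorem hh_adj (a : ℕ) (U Y A : FRep K G) : hh a U (FRep.L Y A) = hh a (FRep.T U Y) A := by
  obtain ⟨Φ, _⟩ := adjN U Y A a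
  exact Φ.finrank_eq

theorem Iso_L_T_assoc (U Y Z : FRep K G) : Iso (FRep.T (FRep.T U Y) Z) (FRep.T U (FRep.T Y Z)) := by
  refine ⟨⟨(TensorProduct.assoc K U.V Y.V Z.V).toLinearMap, ?_⟩,
    (TensorProduct.assoc K U.V Y.V Z.V).bijective⟩
  intro g x
  have h : (TensorProduct.assoc K U.V Y.V Z.V).toLinearMap ∘ₗ (FRep.T (FRep.T U Y) Z).ρ g =
      (FRep.T U (FRep.T Y Z)).ρ g ∘ₗ (TensorProduct.assoc K U.V Y.V Z.V).toLinearMap := by
    apply TensorProduct.ext_threefold
    intro u y z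
    rfl
  exact LinearMap.congr_fun h x

private theorem Iso_trans {A B C : FRep K G} (h : Iso A B) (h' : Iso B C) : Iso A C := by
  obtain ⟨f, hf⟩ := h
  obtain ⟨g, hg⟩ := h'
  exact ⟨(ecomp g f), hg.comp hf⟩

private theorem Iso_symm {A B : FRep K G} (h : Iso A B) : Iso B A := by
  obtain ⟨f, g, h1, h2⟩ := iso_inv h
  exact iso_of_inv g f h2 h1

private theorem Iso_T_right {A B : FRep K G} (h : Iso A B) (C : FRep K G) :
    Iso (FRep.T A C) (FRep.T B C) := by
  obtain ⟨f, hf⟩ := h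
  set e := LinearEquiv.ofBijective f.1 hf with he
  refine ⟨⟨TensorProduct.map f.1 LinearMap.id, ?_⟩, ?_⟩
  · intro g x
    have h : TensorProduct.map f.1 LinearMap.id ∘ₗ (FRep.T A C).ρ g =
        (FRep.T B C).ρ g ∘ₗ TensorProduct.map f.1 LinearMap.id := by
      apply TensorProduct.ext'
      intro u y
      show (f.1 (A.ρ g u)) ⊗ₜ[K] (C.ρ g y) = (B.ρ g (f.1 u)) ⊗ₜ[K] (C.ρ g y)
      rw [EHom.map]
    exact LinearMap.congr_fun h x
  · exact (TensorProduct.congr e (LinearEquiv.refl K C.V)).bijective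

/-- `M^{⊗k} ⊗ M^{⊗m} ≅ M^{⊗(k+m)}` -/
theorem Iso_pow_add (M : FRep K G) (k m : ℕ) :
    Iso (FRep.T (FRep.pow M k) (FRep.pow M m)) (FRep.pow M (k + m)) := by
  induction m with
  | zero =>
    refine ⟨⟨(TensorProduct.rid K (FRep.pow M k).V).toLinearMap, ?_⟩,
      (TensorProduct.rid K (FRep.pow M k).V).bijective⟩
    intro g x
    have h : (TensorProduct.rid K (FRep.pow M k).V).toLinearMap ∘ₗ
        (FRep.T (FRep.pow M k) (FRep.pow M 0)).ρ g =
        (FRep.pow M k).ρ g ∘ₗ (TensorProduct.rid K (FRep.pow M k).V).toLinearMap := by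
      apply TensorProduct.ext'
      intro u y
      show TensorProduct.rid K (FRep.pow M k).V (((FRep.pow M k).ρ g u) ⊗ₜ[K] y) =
        (FRep.pow M k).ρ g (TensorProduct.rid K (FRep.pow M k).V (u ⊗ₜ[K] y))
      rw [TensorProduct.rid_tmul, TensorProduct.rid_tmul]
      exact (map_smul _ _ _).symm
    exact LinearMap.congr_fun h x
  | succ m ih =>
    have h1 : Iso (FRep.T (FRep.pow M k) (FRep.pow M (m + 1)))
        (FRep.T (FRep.T (FRep.pow M k) (FRep.pow M m)) M) :=
      Iso_symm (Iso_L_T_assoc (FRep.pow M k) (FRep.pow M m) M)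
    exact Iso_trans h1 (Iso_T_right ih M)

section
variable {p r : ℕ} [Fact p.Prime]

theorem Ann_L (Y A : FRep K (Er p r)) : Ann A ≤ Ann (FRep.L Y A) := by
  intro q hq
  rw [mem_Ann] at hq ⊢
  intro U x
  obtain ⟨Φ, h1, _⟩ := adj U Y A
  apply Φ.injective
  rw [map_zero, ← hq (FRep.T U Y) (Φ x)]
  exact cact_comm _ (bop_comm' bE U (FRep.L Y A)) _ (bop_comm' bE (FRep.T U Y) A) Φ.toLinearMap
    (fun i x => h1 (bE i) x) q x

end

end Pool.Agent.H34.Gam

end
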