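import Pool.Agent.H34.Gam.EDefs

/-!
Dimension function for `p`-groups (job GAM-PG).
-/

set_option autoImplicit false
set_option linter.unusedSectionVars false

noncomputable section

namespace Pool.Agent.H34.Gam

open Module

variable {K G : Type} [Field K] [Group G] [Fintype G] {p : ℕ} [Fact p.Prime] [CharP K p]

/-- invariants -/
def invs (W : FRep K G) : Submodule K W.V where
  carrier := {x | ∀ g, W.ρ g x = x}
  add_mem' := by intro a b ha hb g; rw [map_add, ha g, hb g]
  zero_mem' := by intro g; simp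
  smul_mem' := by intro c x hx g; rw [map_smul, hx g]

theorem exists_invariant_aux (hG : IsPGroup p G) (V : Type) [AddCommGroup V] [Module (ZMod p) V]
    (ρ : G → V →+ V) (h1 : ∀ x, ρ 1 x = x) (hmul : ∀ g h x, ρ (g * h) x = ρ g (ρ h x))
    (v : V) (hv : v ≠ 0) : ∃ x : V, x ≠ 0 ∧ ∀ g, ρ g x = x := by
  classical
  let S : Submodule (ZMod p) V := Submodule.span (ZMod p) (Set.range fun g : G => ρ g v)
  have hS : ∀ (g : G) (x : V), x ∈ S → ρ g x ∈ S := by
    intro g x hx
    induction hx using Submodule.span_induction with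
    | mem x hx =>
      obtain ⟨h, rfl⟩ := hx
      apply Submodule.subset_span
      exact ⟨g * h, hmul g h v⟩
    | zero => rw [map_zero]; exact S.zero_mem
    | add x y _ _ hx hy => rw [map_add]; exact S.add_mem hx hy
    | smul a x _ hx =>
      have : ρ g (a • x) = a • ρ g x := by
        have h1 : ∀ y : V, a • y = a.val • y := fun y => by
          conv_lhs => rw [← ZMod.natCast_zmod_val a]
          rw [Nat.cast_smul_eq_nsmul]
        rw [h1, h1, map_nsmul]
      rw [this]
      exact S.smul_mem a hx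
  have hfin : Finite S := by
    have : Module.Finite (ZMod p) S := Module.Finite.span_of_finite _ (Set.finite_range _)
    exact Module.finite_of_finite (ZMod p)
  let act : MulAction G S :=
    { smul := fun g x => ⟨ρ g x.1, hS g _ x.2⟩
      one_smul := fun x => Subtype.ext (h1 x.1)
      mul_smul := fun g h x => Subtype.ext (hmul g h x.1) }
  have hdvd : p ∣ Nat.card S := by
    have : Module.Finite (ZMod p) S := Module.Finite.span_of_finite _ (Set.finite_range _)
    have : Nontrivial S := ⟨⟨⟨v, Submodule.subset_span ⟨1, h1 v⟩⟩, 0, fun h =>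
      hv (congrArg Subtype.val h)⟩⟩
    rw [Module.natCard_eq_pow_finrank (K := ZMod p), Nat.card_zmod]
    exact dvd_pow_self p (Module.finrank_pos).ne'
  have h0 : (0 : S) ∈ MulAction.fixedPoints G S := by
    intro g
    exact Subtype.ext (map_zero (ρ g))
  obtain ⟨b, hb, hb0⟩ := hG.exists_fixed_point_of_prime_dvd_card_of_fixed_point S hdvd h0
  refine ⟨b.1, fun h => hb0 (Subtype.ext h.symm), fun g => ?_⟩
  exact congrArg Subtype.val (hb g)

/-- a nonzero representation of a `p`-group in characteristic `p` has nonzero invariants -/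
theorem exists_invariant (hG : IsPGroup p G) (W : FRep K G) [Nontrivial W.V] :
    ∃ x : W.V, x ≠ 0 ∧ ∀ g, W.ρ g x = x := by
  obtain ⟨v, hv⟩ := exists_ne (0 : W.V)
  let inst : Module (ZMod p) W.V := AddCommGroup.zmodModule (n := p) (fun x => by
    rw [← Nat.cast_smul_eq_nsmul K, CharP.cast_eq_zero, zero_smul])
  exact exists_invariant_aux hG W.V (fun g => (W.ρ g).toAddMonoidHom) (FRep.one_apply W)
    (fun g h x => FRep.mul_apply W g h x) v hv

/-- a stable submodule of a representation of a `p`-group without nonzero invariants is zero -/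
theorem eq_bot_of_no_invariant (hG : IsPGroup p G) (W : FRep K G) (N : Submodule K W.V)
    (hN : ∀ g, ∀ x ∈ N, W.ρ g x ∈ N) (h : ∀ x ∈ N, (∀ g, W.ρ g x = x) → x = 0) : N = ⊥ := by
  by_contra hne
  have : Nontrivial (FRep.sub W N hN).V := (Submodule.nontrivial_iff_ne_bot).2 hne
  obtain ⟨x, hx, hx2⟩ := exists_invariant hG (FRep.sub W N hN)
  apply hx
  apply Subtype.ext
  exact h x.1 x.2 fun g => congrArg Subtype.val (hx2 g)

theorem finrank_le_card_mul_invs (hG : IsPGroup p G) (W : FRep K G) :
    finrank K W.V ≤ Fintype.card G * finrank K (invs W) := by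
  obtain ⟨r, hr⟩ := (invs W).subtype.exists_leftInverse_of_injective
    (LinearMap.ker_eq_bot.2 (Submodule.injective_subtype _))
  let Φ : W.V →ₗ[K] (G → invs W) := LinearMap.pi fun g => r ∘ₗ W.ρ g⁻¹
  have hker : LinearMap.ker Φ = ⊥ := by
    apply eq_bot_of_no_invariant hG
    · intro g x hx
      rw [LinearMap.mem_ker] at hx ⊢
      funext h
      have := congrFun hx (g⁻¹ * h)
      simp only [Φ, LinearMap.pi_apply, LinearMap.comp_apply] at this ⊢
      rw [← FRep.mul_apply]
      rw [mul_inv_rev, inv_inv] at this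
      exact this
    · intro x hx hinv
      rw [LinearMap.mem_ker] at hx
      have h1 := congrFun hx 1
      simp only [Φ, LinearMap.pi_apply, LinearMap.comp_apply] at h1
      have h2 : r x = ⟨x, hinv⟩ := LinearMap.congr_fun hr ⟨x, hinv⟩
      rw [hinv, h2] at h1
      exact congrArg Subtype.val h1
  have := LinearMap.finrank_le_finrank_of_injective (LinearMap.ker_eq_bot.1 hker)
  rwa [Module.finrank_pi_fintype, Finset.sum_const, Finset.card_univ, smul_eq_mul] at this

/-- lifts of a basis of `N W` generate a free submodule: -/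
theorem exists_free_sub (hG : IsPGroup p G) (W : FRep K G) {n : ℕ} (v : Fin n → W.V)
    (hv : LinearIndependent K (fun i => nrm W (v i))) :
    LinearIndependent K (fun ig : Fin n × G => W.ρ ig.2 (v ig.1)) := by
  classical
  let T : FRep K G := ⟨(Fin n → K), Representation.trivial K G (Fin n → K)⟩
  let Φ : (FRep.Fn T).V →ₗ[K] W.V :=
    ∑ ig : Fin n × G, ((LinearMap.toSpanSingleton K W.V (W.ρ ig.2 (v ig.1))) ∘ₗ
      (LinearMap.proj ig.1 : (Fin n → K) →ₗ[K] K) ∘ₗ
      (LinearMap.proj ig.2 : (G → (Fin n → K)) →ₗ[K] (Fin n → K)))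
  have hΦ : ∀ a : G → Fin n → K, Φ a = ∑ ig : Fin n × G, a ig.2 ig.1 • W.ρ ig.2 (v ig.1) := by
    intro a
    simp only [Φ, LinearMap.sum_apply]
    rfl
  have hker : LinearMap.ker Φ = ⊥ := by
    apply eq_bot_of_no_invariant hG
    · intro h a ha
      rw [LinearMap.mem_ker] at ha ⊢
      have h1 : W.ρ h (Φ a) = 0 := by rw [ha, map_zero]
      rw [hΦ] at h1 ⊢
      rw [← h1, map_sum, ← Equiv.sum_comp ((Equiv.refl (Fin n)).prodCongr (Equiv.mulLeft h))]
      refine Finset.sum_congr rfl fun ig _ => ?_
      rw [map_smul, ← FRep.mul_apply]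
      show a (h⁻¹ * (h * ig.2)) ig.1 • W.ρ (h * ig.2) (v ig.1) = _
      rw [inv_mul_cancel_left]
    · intro a ha hinv
      rw [LinearMap.mem_ker, hΦ] at ha
      have hc : ∀ g, a g = a 1 := by
        intro g
        have := congrFun (hinv g) g
        rw [FRep.Fn_apply] at this
        rw [inv_mul_cancel] at this
        exact this.symm
      have h2 : ∑ i, a 1 i • nrm W (v i) = 0 := by
        rw [← ha, Fintype.sum_prod_type]
        refine Finset.sum_congr rfl fun i _ => ?_
        rw [nrm_apply, Finset.smul_sum]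
        exact Finset.sum_congr rfl fun g _ => by rw [hc g]
      have h3 := Fintype.linearIndependent_iff.1 hv (a 1) h2
      funext g i
      rw [hc g, h3 i]; rfl
  rw [Fintype.linearIndependent_iff]
  intro a ha ig
  have h1 : (fun g i => a (i, g) : G → Fin n → K) ∈ LinearMap.ker Φ := by
    rw [LinearMap.mem_ker, hΦ, ← ha]
  rw [hker, Submodule.mem_bot] at h1
  exact congrFun (congrFun h1 ig.2) ig.1

/-- a choice of lifts of a basis of the image of the norm -/
theorem exists_lifts (W : FRep K G) : ∃ v : Fin (finrank K (LinearMap.range (nrm W))) → W.V,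
    LinearIndependent K (fun i => nrm W (v i)) := by
  let b := Module.finBasis K (LinearMap.range (nrm W))
  choose v hv using fun i => (b i).2
  refine ⟨v, ?_⟩
  have h1 : (fun i => nrm W (v i)) = (LinearMap.range (nrm W)).subtype ∘ b := by
    funext i
    rw [hv i]; rfl
  rw [h1]
  exact b.linearIndependent.map' _ (Submodule.ker_subtype _)

theorem card_mul_rank_le (hG : IsPGroup p G) (W : FRep K G) :
    Fintype.card G * finrank K (LinearMap.range (nrm W)) ≤ finrank K W.V := by
  obtain ⟨v, hv⟩ := exists_lifts W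
  have := (exists_free_sub hG W v hv).fintype_card_le_finrank
  rwa [Fintype.card_prod, Fintype.card_fin, mul_comm] at this

/-- the exact form of `cc` -/
theorem cc_add (hG : IsPGroup p G) (W : FRep K G) :
    cc W + Fintype.card G * finrank K (LinearMap.range (nrm W)) = finrank K W.V :=
  Nat.sub_add_cancel (card_mul_rank_le hG W)

omit [Fact p.Prime] [CharP K p] in
theorem range_nrm_le_invs (W : FRep K G) : LinearMap.range (nrm W) ≤ invs W := by
  rintro _ ⟨x, rfl⟩ g
  rw [nrm_apply, map_sum]
  refine Eq.trans ?_ (Equiv.sum_comp (Equiv.mulLeft g) fun h => W.ρ h x)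
  exact Finset.sum_congr rfl fun h _ => (FRep.mul_apply W g h x).symm

/-- `dim W^G + |G| rank N ≤ dim W + rank N` -/
theorem invs_add_le (hG : IsPGroup p G) (W : FRep K G) :
    finrank K (invs W) + Fintype.card G * finrank K (LinearMap.range (nrm W)) ≤
      finrank K W.V + finrank K (LinearMap.range (nrm W)) := by
  classical
  obtain ⟨v, hv⟩ := exists_lifts W
  have hli := exists_free_sub hG W v hv
  let F : Submodule K W.V := Submodule.span K (Set.range
    (fun ig : Fin (finrank K (LinearMap.range (nrm W))) × G => W.ρ ig.2 (v ig.1)))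
  have hF : finrank K F = Fintype.card G * finrank K (LinearMap.range (nrm W)) := by
    rw [finrank_span_eq_card hli, Fintype.card_prod, Fintype.card_fin, mul_comm]
  have hinf : F ⊓ invs W ≤ LinearMap.range (nrm W) := by
    rintro x ⟨hx, hinv⟩
    obtain ⟨a, rfl⟩ := (Submodule.mem_span_range_iff_exists_fun K).1 hx
    have hc : ∀ i g, a (i, g) = a (i, 1) := by
      intro i g
      have h1 : ∑ ig : Fin (finrank K (LinearMap.range (nrm W))) × G,
          (a (ig.1, g⁻¹ * ig.2) - a ig) • W.ρ ig.2 (v ig.1) = 0 := by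
        have h2 := hinv g
        rw [map_sum] at h2
        have h3 : ∑ ig : Fin (finrank K (LinearMap.range (nrm W))) × G,
            a (ig.1, g⁻¹ * ig.2) • W.ρ ig.2 (v ig.1) =
            ∑ ig : Fin (finrank K (LinearMap.range (nrm W))) × G,
              W.ρ g (a ig • W.ρ ig.2 (v ig.1)) := by
          rw [← Equiv.sum_comp ((Equiv.refl (Fin (finrank K (LinearMap.range (nrm W))))).prodCongr
            (Equiv.mulLeft g))]
          refine Finset.sum_congr rfl fun ig _ => ?_
          rw [map_smul, ← FRep.mul_apply]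
          show a (ig.1, g⁻¹ * (g * ig.2)) • W.ρ (g * ig.2) (v ig.1) = _
          rw [inv_mul_cancel_left]
        simp only [sub_smul, Finset.sum_sub_distrib]
        rw [h3, h2, sub_self]
      have h4 := Fintype.linearIndependent_iff.1 hli _ h1 (i, g)
      simp only [inv_mul_cancel] at h4
      exact (sub_eq_zero.1 h4).symm
    refine ⟨∑ i, a (i, 1) • v i, ?_⟩
    rw [map_sum, Fintype.sum_prod_type]
    refine Finset.sum_congr rfl fun i _ => ?_
    rw [map_smul, nrm_apply, Finset.smul_sum]
    exact Finset.sum_congr rfl fun g _ => by rw [hc i g]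
  have h1 := Submodule.finrank_sup_add_finrank_inf_eq F (invs W)
  have h2 := Submodule.finrank_mono hinf
  have h3 := Submodule.finrank_le (F ⊔ invs W)
  omega

omit [Fact p.Prime] [CharP K p] in
theorem nrm_L_eq (U W : FRep K G) (φ : U.V →ₗ[K] W.V) : nrm (FRep.L U W) φ = Tr U W φ := rfl

theorem invs_L_eq (U W : FRep K G) : invs (FRep.L U W) = EHom U W := by
  ext φ
  constructor
  · intro h g x
    have h1 := LinearMap.congr_fun (h g) (U.ρ g x)
    rw [FRep.L_apply, FRep.inv_self] at h1
    exact h1.symm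
  · intro h g
    refine LinearMap.ext fun x => ?_
    rw [FRep.L_apply]
    have h1 : φ (U.ρ g (U.ρ g⁻¹ x)) = W.ρ g (φ (U.ρ g⁻¹ x)) := h g _
    rw [← h1, FRep.self_inv]

theorem hh0_add (U W : FRep K G) :
    hh 0 U W + finrank K (LinearMap.range (nrm (FRep.L U W))) = finrank K (invs (FRep.L U W)) := by
  have h1 : hh 0 U W = finrank K ((EHom U W) ⧸ (Null U W)) := rfl
  have h2 : finrank K (Null U W) = finrank K (LinearMap.range (nrm (FRep.L U W))) := by
    have h3 : LinearMap.range (Tr U W) ≤ EHom U W := by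
      rintro _ ⟨φ, rfl⟩
      exact Tr_mem U W φ
    exact (Submodule.comapSubtypeEquivOfLe h3).finrank_eq
  rw [h1, ← h2, invs_L_eq]
  exact Submodule.finrank_quotient_add_finrank (Null U W)

theorem hh0_le_cc (hG : IsPGroup p G) (U W : FRep K G) : hh 0 U W ≤ cc (FRep.L U W) := by
  have h1 := hh0_add U W
  have h2 := invs_add_le hG (FRep.L U W)
  have h3 := cc_add hG (FRep.L U W)
  omega

theorem cc_le_hh0 (hG : IsPGroup p G) (U W : FRep K G) :
    cc (FRep.L U W) ≤ Fintype.card G * hh 0 U W := by
  have h1 := hh0_add U W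
  have h2 := finrank_le_card_mul_invs hG (FRep.L U W)
  have h3 := cc_add hG (FRep.L U W)
  rw [← h1, mul_add, ← h3] at h2
  exact Nat.le_of_add_le_add_right h2

theorem cc_iso {U W : FRep K G} (h : Iso U W) : cc U = cc W := by
  obtain ⟨f, hf⟩ := h
  have hN : ∀ x, f.1 (nrm U x) = nrm W (f.1 x) := by
    intro x
    rw [nrm_apply, nrm_apply, map_sum]
    exact Finset.sum_congr rfl fun g _ => EHom.map f g x
  have h1 : finrank K U.V = finrank K W.V := (LinearEquiv.ofBijective f.1 hf).finrank_eq
  have h2 : LinearMap.range (nrm W) = (LinearMap.range (nrm U)).map f.1 := by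
    ext y
    constructor
    · rintro ⟨x, rfl⟩
      obtain ⟨z, rfl⟩ := hf.2 x
      exact ⟨nrm U z, ⟨z, rfl⟩, hN z⟩
    · rintro ⟨_, ⟨z, rfl⟩, rfl⟩
      exact ⟨f.1 z, (hN z).symm⟩
  have h3 : finrank K (LinearMap.range (nrm U)) = finrank K (LinearMap.range (nrm W)) := by
    rw [h2]
    exact (Submodule.equivMapOfInjective f.1 hf.1 (LinearMap.range (nrm U))).finrank_eq
  unfold cc
  rw [h1, h3]

theorem EHom_nrm {U W : FRep K G} (f : EHom U W) (x : U.V) : f.1 (nrm U x) = nrm W (f.1 x) := by
  rw [nrm_apply, nrm_apply, map_sum]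
  exact Finset.sum_congr rfl fun g _ => EHom.map f g x

theorem SES.finrank_eq {A B C : FRep K G} (S : SES A B C) :
    finrank K B.V = finrank K A.V + finrank K C.V := by
  have h1 := LinearMap.finrank_range_add_finrank_ker S.p.1
  have h2 : LinearMap.ker S.p.1 = LinearMap.range S.i.1 := by
    ext b
    constructor
    · intro hb; exact ⟨S.r b, S.exact_mem hb⟩
    · rintro ⟨a, rfl⟩; exact S.pi a
  rw [LinearMap.range_eq_top.2 S.p_surjective, finrank_top, h2,
    LinearMap.finrank_range_of_inj S.i_injective] at h1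
  omega

/-- the rank of the norm on the middle term -/
theorem SES.rank_eq {A B C : FRep K G} (S : SES A B C) :
    finrank K (LinearMap.range (nrm B)) = finrank K (LinearMap.range (nrm C)) +
      finrank K (LinearMap.range (nrm B) ⊓ LinearMap.range S.i.1 : Submodule K B.V) := by
  have h1 := LinearMap.finrank_range_add_finrank_ker (S.p.1.domRestrict (LinearMap.range (nrm B)))
  have h2 : LinearMap.range (S.p.1.domRestrict (LinearMap.range (nrm B))) =
      LinearMap.range (nrm C) := by
    ext y
    constructor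
    · rintro ⟨⟨_, ⟨b, rfl⟩⟩, rfl⟩
      exact ⟨S.p.1 b, (EHom_nrm S.p b).symm⟩
    · rintro ⟨c, rfl⟩
      exact ⟨⟨nrm B (S.s c), ⟨_, rfl⟩⟩, by
        rw [LinearMap.domRestrict_apply]
        rw [EHom_nrm, S.ps]⟩
  have h3 : finrank K (LinearMap.ker (S.p.1.domRestrict (LinearMap.range (nrm B)))) =
      finrank K (LinearMap.range (nrm B) ⊓ LinearMap.range S.i.1 : Submodule K B.V) := by
    have h4 : LinearMap.ker S.p.1 = LinearMap.range S.i.1 := by
      ext b
      constructor
      · intro hb; exact ⟨S.r b, S.exact_mem hb⟩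
      · rintro ⟨a, rfl⟩; exact S.pi a
    rw [← h4, LinearMap.ker_domRestrict]
    have h5 : (LinearMap.ker S.p.1).comap (LinearMap.range (nrm B)).subtype =
      (LinearMap.range (nrm B) ⊓ LinearMap.ker S.p.1).comap (LinearMap.range (nrm B)).subtype := by
      ext x
      simp
    rw [h5]
    exact (Submodule.comapSubtypeEquivOfLe inf_le_left).finrank_eq
  rw [h2, h3] at h1
  exact h1.symm

theorem cc_ses (hG : IsPGroup p G) {A B C : FRep K G} (S : SES A B C) :
    cc B ≤ cc A + cc C := by
  have h1 := S.finrank_eq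
  have h2 := S.rank_eq
  have h3 : finrank K (LinearMap.range (nrm A)) ≤
      finrank K (LinearMap.range (nrm B) ⊓ LinearMap.range S.i.1 : Submodule K B.V) := by
    have h4 : (LinearMap.range (nrm A)).map S.i.1 ≤ LinearMap.range (nrm B) ⊓ LinearMap.range S.i.1 := by
      rintro _ ⟨_, ⟨a, rfl⟩, rfl⟩
      exact ⟨⟨S.i.1 a, (EHom_nrm S.i a).symm⟩, ⟨_, rfl⟩⟩
    have h5 := Submodule.finrank_mono h4
    rwa [← (Submodule.equivMapOfInjective S.i.1 S.i_injective
      (LinearMap.range (nrm A))).finrank_eq] at h5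
  have hA := cc_add hG A
  have hB := cc_add hG B
  have hC := cc_add hG C
  have h6 := Nat.mul_le_mul_left (Fintype.card G) h3
  rw [h2, mul_add] at hB
  omega

theorem cc_quo (hG : IsPGroup p G) {A B C : FRep K G} (S : SES A B C) :
    cc C ≤ cc B + Fintype.card G * cc A := by
  have h1 := S.finrank_eq
  have h2 := S.rank_eq
  have h3 : finrank K (LinearMap.range (nrm B) ⊓ LinearMap.range S.i.1 : Submodule K B.V) ≤
      finrank K (invs A) := by
    have h4 : LinearMap.range (nrm B) ⊓ LinearMap.range S.i.1 ≤ (invs A).map S.i.1 := by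
      rintro _ ⟨hb, ⟨a, rfl⟩⟩
      refine ⟨a, fun g => S.i_injective ?_, rfl⟩
      rw [EHom.map]
      exact range_nrm_le_invs B hb g
    have h5 := Submodule.finrank_mono h4
    rwa [← (Submodule.equivMapOfInjective S.i.1 S.i_injective (invs A)).finrank_eq] at h5
  have h7 := invs_add_le hG A
  have hA := cc_add hG A
  have hB := cc_add hG B
  have hC := cc_add hG C
  have h8 : finrank K (invs A) ≤ cc A + finrank K (LinearMap.range (nrm A)) := by omega
  have h6 := Nat.mul_le_mul_left (Fintype.card G) (h3.trans h8)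
  rw [h2, mul_add] at hB
  rw [mul_add] at h6
  omega

/-- the norm on the dual -/
theorem nrm_dual (U : FRep K G) (φ : U.V →ₗ[K] K) :
    nrm (FRep.L U (FRep.triv K G)) φ = φ ∘ₗ nrm U := by
  refine LinearMap.ext fun x => ?_
  rw [nrm_L_eq, Tr_apply, LinearMap.comp_apply, nrm_apply, map_sum, ← Equiv.sum_comp (Equiv.inv G)]
  refine Finset.sum_congr rfl fun g _ => ?_
  simp only [Equiv.inv_apply, inv_inv]
  rfl

theorem rank_dual (U : FRep K G) :
    finrank K (LinearMap.range (nrm (FRep.L U (FRep.triv K G)))) =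
      finrank K (LinearMap.range (nrm U)) := by
  have h1 : nrm (FRep.L U (FRep.triv K G)) = (nrm U).dualMap :=
    LinearMap.ext fun φ => nrm_dual U φ
  rw [h1]
  exact LinearMap.finrank_range_dualMap_eq_finrank_range _

theorem finrank_dual (U : FRep K G) :
    finrank K (FRep.L U (FRep.triv K G)).V = finrank K U.V :=
  Subspace.dual_finrank_eq

theorem cc_dual' (U : FRep K G) : cc (FRep.L U (FRep.triv K G)) = cc U := by
  unfold cc
  rw [rank_dual, finrank_dual]

/-- the dual sequence -/
def SES.dual {A B C : FRep K G} (S : SES A B C) : SES (FRep.L C (FRep.triv K G))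
    (FRep.L B (FRep.triv K G)) (FRep.L A (FRep.triv K G)) where
  i := ⟨LinearMap.lcomp K K S.p.1, fun g φ => LinearMap.ext fun x => by
    show φ (C.ρ g⁻¹ (S.p.1 x)) = φ (S.p.1 (B.ρ g⁻¹ x))
    rw [EHom.map]⟩
  p := ⟨LinearMap.lcomp K K S.i.1, fun g φ => LinearMap.ext fun x => by
    show φ (B.ρ g⁻¹ (S.i.1 x)) = φ (S.i.1 (A.ρ g⁻¹ x))
    rw [EHom.map]⟩
  s := LinearMap.lcomp K K S.r
  r := LinearMap.lcomp K K S.s
  ri φ := LinearMap.ext fun x => by
    show φ (S.p.1 (S.s x)) = φ x
    rw [S.ps]
  ps φ := LinearMap.ext fun x => by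
    show φ (S.r (S.i.1 x)) = φ x
    rw [S.ri]
  pi φ := LinearMap.ext fun x => by
    show φ (S.p.1 (S.i.1 x)) = 0
    rw [S.pi, map_zero]
  sum φ := LinearMap.ext fun x => by
    show φ (S.s (S.p.1 x)) + φ (S.i.1 (S.r x)) = φ x
    rw [← map_add, add_comm, S.sum]

theorem cc_sub (hG : IsPGroup p G) {A B C : FRep K G} (S : SES A B C) :
    cc A ≤ cc B + Fintype.card G * cc C := by
  have := cc_quo hG S.dual
  rwa [cc_dual', cc_dual', cc_dual'] at this

theorem cc_dual (hG : IsPGroup p G) (U : FRep K G) : cc (FRep.L U (FRep.triv K G)) = cc U :=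
  cc_dual' U

/-- dual functionals of a linearly independent family -/
theorem exists_functional {ι V : Type} [AddCommGroup V] [Module K V] {e : ι → V}
    (he : LinearIndependent K e) (i : ι) : ∃ f : V →ₗ[K] K, f (e i) = 1 ∧ ∀ j, j ≠ i → f (e j) = 0 := by
  classical
  obtain ⟨g, hg⟩ := (Finsupp.linearCombination K e).exists_leftInverse_of_injective
    (LinearMap.ker_eq_bot.2 he)
  have h1 : ∀ j, g (e j) = Finsupp.single j 1 := by
    intro j
    have := LinearMap.congr_fun hg (Finsupp.single j 1)
    rwa [LinearMap.comp_apply, Finsupp.linearCombination_single, one_smul] at this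
  refine ⟨Finsupp.lapply i ∘ₗ g, ?_, fun j hj => ?_⟩
  · rw [LinearMap.comp_apply, h1]; simp
  · rw [LinearMap.comp_apply, h1]; simp [hj]

/-- the main lemma on the rank of the norm for tensor-like products -/
theorem rank_bilin (hG : IsPGroup p G) (U W X : FRep K G) (β : U.V →ₗ[K] W.V →ₗ[K] X.V)
    (hβ : ∀ g u w, X.ρ g (β u w) = β (U.ρ g u) (W.ρ g w))
    (hF : ∀ f : W.V →ₗ[K] K, ∃ F : X.V →ₗ[K] U.V, ∀ u w, F (β u w) = f w • u) :
    finrank K U.V * finrank K (LinearMap.range (nrm W)) ≤ finrank K (LinearMap.range (nrm X)) := by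
  classical
  obtain ⟨v, hv⟩ := exists_lifts W
  have hli := exists_free_sub hG W v hv
  let b := Module.finBasis K U.V
  let y : Fin (finrank K U.V) × Fin (finrank K (LinearMap.range (nrm W))) → X.V :=
    fun ki => nrm X (β (b ki.1) (v ki.2))
  have hy : LinearIndependent K y := by
    rw [Fintype.linearIndependent_iff]
    intro c hc ki
    obtain ⟨f, hf1, hf2⟩ := exists_functional hli (ki.2, 1)
    obtain ⟨F, hF⟩ := hF f
    have h1 : ∀ k i, F (y (k, i)) = if i = ki.2 then b k else 0 := by
      intro k i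
      simp only [y]
      rw [nrm_apply, map_sum]
      have : ∀ g : G, F (X.ρ g (β (b k) (v i))) = f (W.ρ g (v i)) • U.ρ g (b k) := by
        intro g
        rw [hβ, hF]
      rw [Finset.sum_congr rfl fun g _ => this g, Finset.sum_eq_single 1]
      · by_cases h : i = ki.2
        · subst h
          have hf1' : f (W.ρ 1 (v ki.2)) = 1 := hf1
          rw [hf1', one_smul, if_pos rfl, FRep.one_apply]
        · have hf2' : f (W.ρ 1 (v i)) = 0 := hf2 (i, 1) (fun h' => h (congrArg Prod.fst h'))
          rw [hf2', zero_smul, if_neg h]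
      · intro g _ hg
        have hf2' : f (W.ρ g (v i)) = 0 := hf2 (i, g) (fun h' => hg (congrArg Prod.snd h'))
        rw [hf2', zero_smul]
      · intro h; exact absurd (Finset.mem_univ _) h
    have h2 := congrArg F hc
    rw [map_zero, map_sum, Fintype.sum_prod_type] at h2
    have h3 : ∀ k, ∑ i, F (c (k, i) • y (k, i)) = c (k, ki.2) • b k := by
      intro k
      rw [Finset.sum_eq_single ki.2]
      · rw [map_smul, h1, if_pos rfl]
      · intro i _ hi
        rw [map_smul, h1, if_neg hi, smul_zero]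
      · intro h; exact absurd (Finset.mem_univ _) h
    rw [Finset.sum_congr rfl fun k _ => h3 k] at h2
    exact Fintype.linearIndependent_iff.1 b.linearIndependent _ h2 ki.1
  have h4 := finrank_span_eq_card hy
  rw [Fintype.card_prod, Fintype.card_fin, Fintype.card_fin] at h4
  rw [← h4]
  apply Submodule.finrank_mono
  rw [Submodule.span_le]
  rintro _ ⟨ki, rfl⟩
  exact ⟨_, rfl⟩

theorem cc_bilin (hG : IsPGroup p G) (U W X : FRep K G) (β : U.V →ₗ[K] W.V →ₗ[K] X.V)
    (hβ : ∀ g u w, X.ρ g (β u w) = β (U.ρ g u) (W.ρ g w))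
    (hF : ∀ f : W.V →ₗ[K] K, ∃ F : X.V →ₗ[K] U.V, ∀ u w, F (β u w) = f w • u)
    (hd : finrank K X.V = finrank K U.V * finrank K W.V) :
    cc X ≤ finrank K U.V * cc W := by
  have h1 := rank_bilin hG U W X β hβ hF
  have h2 := Nat.mul_le_mul_left (Fintype.card G) h1
  have hX := cc_add hG X
  have hW := cc_add hG W
  rw [hd, ← hW, mul_add] at hX
  have h3 : Fintype.card G * (finrank K U.V * finrank K (LinearMap.range (nrm W))) =
      finrank K U.V * (Fintype.card G * finrank K (LinearMap.range (nrm W))) := by ring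
  rw [h3] at h2
  omega

theorem cc_T_le (hG : IsPGroup p G) (U W : FRep K G) :
    cc (FRep.T U W) ≤ finrank K U.V * cc W := by
  refine cc_bilin hG U W (FRep.T U W) (TensorProduct.mk K U.V W.V) (fun g u w => rfl)
    (fun f => ⟨(TensorProduct.rid K U.V).toLinearMap ∘ₗ f.lTensor U.V, fun u w => ?_⟩) ?_
  · simp
  · exact Module.finrank_tensorProduct

theorem cc_T_le' (hG : IsPGroup p G) (U W : FRep K G) :
    cc (FRep.T U W) ≤ finrank K W.V * cc U := by
  refine cc_bilin hG W U (FRep.T U W) (TensorProduct.mk K U.V W.V).flip (fun g u w => rfl)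
    (fun f => ⟨(TensorProduct.lid K W.V).toLinearMap ∘ₗ f.rTensor W.V, fun u w => ?_⟩) ?_
  · simp
  · rw [mul_comm]; exact Module.finrank_tensorProduct

theorem cc_L_le (hG : IsPGroup p G) (U W : FRep K G) :
    cc (FRep.L U W) ≤ finrank K U.V * cc W := by
  have := cc_bilin hG (FRep.L U (FRep.triv K G)) W (FRep.L U W)
    (LinearMap.smulRightₗ) ?_ ?_ ?_
  · rwa [finrank_dual] at this
  · intro g φ w
    refine LinearMap.ext fun x => ?_
    rw [FRep.L_apply]
    show W.ρ g (φ (U.ρ g⁻¹ x) • w) = φ (U.ρ g⁻¹ x) • W.ρ g w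
    rw [map_smul]
  · intro f
    refine ⟨LinearMap.compRight K f, fun φ w => ?_⟩
    refine LinearMap.ext fun x => ?_
    show f (φ x • w) = f w • φ x
    rw [map_smul, smul_eq_mul, smul_eq_mul, mul_comm]
  · rw [finrank_dual]
    exact Module.finrank_linearMap K K U.V W.V

theorem cc_L_le' (hG : IsPGroup p G) (U W : FRep K G) :
    cc (FRep.L U W) ≤ finrank K W.V * cc U := by
  have := cc_bilin hG W (FRep.L U (FRep.triv K G)) (FRep.L U W)
    (LinearMap.smulRightₗ.flip) ?_ ?_ ?_
  · rwa [cc_dual'] at this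
  · intro g w φ
    refine LinearMap.ext fun x => ?_
    rw [FRep.L_apply]
    show W.ρ g (φ (U.ρ g⁻¹ x) • w) = φ (U.ρ g⁻¹ x) • W.ρ g w
    rw [map_smul]
  · intro f
    refine ⟨LinearMap.applyₗ ((Module.evalEquiv K U.V).symm f), fun w φ => ?_⟩
    show φ ((Module.evalEquiv K U.V).symm f) • w = f φ • w
    congr 1
    exact LinearMap.congr_fun ((Module.evalEquiv K U.V).apply_symm_apply f) φ
  · rw [finrank_dual, mul_comm]
    exact Module.finrank_linearMap K K U.V W.V

theorem cc_Fn (hG : IsPGroup p G) (W : FRep K G) : cc (FRep.Fn W) = 0 := by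
  classical
  have h1 : finrank K (FRep.Fn W).V = Fintype.card G * finrank K W.V := by
    show finrank K (G → W.V) = _
    rw [Module.finrank_pi_fintype, Finset.sum_const, Finset.card_univ, smul_eq_mul]
  have h2 : finrank K W.V ≤ finrank K (LinearMap.range (nrm (FRep.Fn W))) := by
    let Ψ : W.V →ₗ[K] LinearMap.range (nrm (FRep.Fn W)) :=
      (nrm (FRep.Fn W)).rangeRestrict ∘ₗ (LinearMap.single K (fun _ : G => W.V) 1)
    apply LinearMap.finrank_le_finrank_of_injective (f := Ψ)
    intro x y hxy
    have h3 : (nrm (FRep.Fn W) (Pi.single (1 : G) x) : G → W.V) 1 =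
      (nrm (FRep.Fn W) (Pi.single (1 : G) y) : G → W.V) 1 :=
      congrFun (congrArg Subtype.val hxy) 1
    have h4 : ∀ z : W.V, (nrm (FRep.Fn W) (Pi.single (1 : G) z) : G → W.V) 1 = z := by
      intro z
      rw [nrm_apply]
      show (∑ g : G, ((FRep.Fn W).ρ g (Pi.single (1 : G) z) : G → W.V)) 1 = z
      rw [Finset.sum_apply, Finset.sum_eq_single 1]
      · rw [FRep.Fn_apply]
        simp
      · intro g _ hg
        rw [FRep.Fn_apply, mul_one, Pi.single_eq_of_ne (by simpa using hg), map_zero]
      · intro h; exact absurd (Finset.mem_univ _) h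
    rwa [h4, h4] at h3
  unfold cc
  rw [h1]
  exact Nat.sub_eq_zero_of_le (Nat.mul_le_mul_left _ h2)

/-- the sequence `W → Fn W → Sh W` -/
def sesSh (W : FRep K G) : SES W (FRep.Fn W) (FRep.Sh W) :=
  SES.mk' ⟨cst G W, fun g x => rfl⟩ ⟨shq W, fun g x => rfl⟩
    (fun x y h => congrFun h 1) (shq_surjective W)
    (fun b => by
      show shq W b = 0 ↔ _
      rw [shq_eq_zero]
      constructor
      · rintro ⟨w, hw⟩; exact ⟨w, funext fun g => (hw g).symm⟩
      · rintro ⟨w, hw⟩; exact ⟨w, fun g => (congrFun hw g).symm⟩)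

theorem cc_Sh_le (hG : IsPGroup p G) (W : FRep K G) :
    cc (FRep.Sh W) ≤ Fintype.card G * cc W := by
  have := cc_quo hG (sesSh W)
  rwa [cc_Fn hG, zero_add] at this

theorem cc_ShN_zero (hG : IsPGroup p G) (a : ℕ) : ∀ W : FRep K G, cc W = 0 →
    cc (FRep.ShN a W) = 0 := by
  induction a with
  | zero => intro W h; exact h
  | succ a ih =>
    intro W h
    refine ih (FRep.Sh W) ?_
    have := cc_Sh_le hG W
    rw [h, mul_zero] at this
    exact Nat.le_zero.1 this

/-- `cc W = 0` means that every map to or from `W` is null -/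
theorem hh_zero_of_cc (hG : IsPGroup p G) (W : FRep K G) (h : cc W = 0) (U : FRep K G) (a : ℕ) :
    hh a U W = 0 := by
  have h1 : hh a U W = hh 0 U (FRep.ShN a W) := rfl
  have h2 := hh0_le_cc hG U (FRep.ShN a W)
  have h3 := cc_L_le hG U (FRep.ShN a W)
  rw [cc_ShN_zero hG a W h, mul_zero] at h3
  omega

theorem hh_zero_of_cc' (hG : IsPGroup p G) (U : FRep K G) (h : cc U = 0) (W : FRep K G) (a : ℕ) :
    hh a U W = 0 := by
  have h1 : hh a U W = hh 0 U (FRep.ShN a W) := rfl
  have h2 := hh0_le_cc hG U (FRep.ShN a W)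
  have h3 := cc_L_le' hG U (FRep.ShN a W)
  rw [h, mul_zero] at h3
  omega

/-- restriction to subgroups of a `p`-group only decreases `cc` -/
theorem cc_res_le (hG : IsPGroup p G) (H : Subgroup G) [Fintype H] (W : FRep K G) :
    cc (FRep.res H W) ≤ cc W := by
  classical
  obtain ⟨v, hv⟩ := exists_lifts W
  have hli := exists_free_sub hG W v hv
  let y : Fin (finrank K (LinearMap.range (nrm W))) × (G ⧸ H) → W.V :=
    fun ic => nrm (FRep.res H W) (W.ρ (ic.2.out)⁻¹ (v ic.1))
  have hyv : ∀ ic, y ic = ∑ h : H, W.ρ (h.1 * (ic.2.out)⁻¹) (v ic.1) := by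
    intro ic
    simp only [y]
    rw [nrm_apply]
    exact Finset.sum_congr rfl fun h _ => (FRep.mul_apply W _ _ _).symm
  have hy : LinearIndependent K y := by
    rw [Fintype.linearIndependent_iff]
    intro c hc ic
    obtain ⟨f, hf1, hf2⟩ := exists_functional hli (ic.1, (ic.2.out)⁻¹)
    have h1 : ∀ jd, f (y jd) = if jd = ic then 1 else 0 := by
      intro jd
      rw [hyv, map_sum]
      by_cases h : jd = ic
      · subst h
        rw [if_pos rfl, Finset.sum_eq_single 1]
        · have : f (W.ρ (jd.2.out)⁻¹ (v jd.1)) = 1 := hf1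
          rw [Subgroup.coe_one, one_mul]; exact this
        · intro h _ hh
          refine hf2 (jd.1, h.1 * (jd.2.out)⁻¹) fun h' => hh ?_
          have h2 : h.1 * (jd.2.out)⁻¹ = (jd.2.out)⁻¹ := congrArg Prod.snd h'
          exact Subtype.ext (by simpa using h2)
        · intro h; exact absurd (Finset.mem_univ _) h
      · rw [if_neg h]
        refine Finset.sum_eq_zero fun x _ => ?_
        refine hf2 (jd.1, x.1 * (jd.2.out)⁻¹) fun h' => h ?_
        have h2 : x.1 * (jd.2.out)⁻¹ = (ic.2.out)⁻¹ := congrArg Prod.snd h'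
        have h3 : jd.1 = ic.1 := (Prod.ext_iff.1 h').1
        have h4 : jd.2 = ic.2 := by
          rw [← QuotientGroup.out_eq' jd.2, ← QuotientGroup.out_eq' ic.2, QuotientGroup.eq]
          have h5 : (jd.2.out)⁻¹ * ic.2.out = x.1⁻¹ := by
            have h6 := congrArg (fun z => x.1⁻¹ * z * ic.2.out) h2
            simp only [inv_mul_cancel_left, inv_mul_cancel_right] at h6
            rw [h6]
          rw [h5]
          exact H.inv_mem x.2
        exact Prod.ext h3 h4
    have h2 := congrArg f hc
    rw [map_zero, map_sum, Finset.sum_eq_single ic] at h2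
    · rw [map_smul, h1, if_pos rfl, smul_eq_mul, mul_one] at h2
      exact h2
    · intro j _ hj
      rw [map_smul, h1, if_neg hj, smul_zero]
    · intro h; exact absurd (Finset.mem_univ _) h
  have h4 := finrank_span_eq_card hy
  rw [Fintype.card_prod, Fintype.card_fin] at h4
  have h5 : finrank K (LinearMap.range (nrm W)) * Fintype.card (G ⧸ H) ≤
      finrank K (LinearMap.range (nrm (FRep.res H W))) := by
    rw [← h4]
    apply Submodule.finrank_mono
    rw [Submodule.span_le]
    rintro _ ⟨ki, rfl⟩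
    exact ⟨_, rfl⟩
  have h6 : Fintype.card G = Fintype.card (G ⧸ H) * Fintype.card H := by
    have := Subgroup.card_eq_card_quotient_mul_card_subgroup H
    simpa [Nat.card_eq_fintype_card] using this
  unfold cc
  show finrank K W.V - _ ≤ _
  apply Nat.sub_le_sub_left
  rw [h6]
  calc Fintype.card (G ⧸ H) * Fintype.card H * finrank K (LinearMap.range (nrm W))
      = Fintype.card H * (finrank K (LinearMap.range (nrm W)) * Fintype.card (G ⧸ H)) := by ring
    _ ≤ _ := Nat.mul_le_mul_left _ h5

end Pool.Agent.H34.Gam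

end
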