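import Pool.Agent.H34.Gam.IsoL
import Pool.Agent.H34.Gam.PG

/-!
Base change of representations along a field extension `k → K` (job GAM-BC).
-/

set_option autoImplicit false
set_option linter.unusedSectionVars false

noncomputable section

namespace Pool.Agent.H34.Gam

open Module

open scoped TensorProduct

variable (K : Type) [Field K] {k G : Type} [Field k] [Group G] [Algebra k K]

/-- base change -/
abbrev FRep.bc (W : FRep k G) : FRep K G where
  V := K ⊗[k] W.V
  ρ :=
    { toFun := fun g => (W.ρ g).baseChange K
      map_one' := by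
        refine LinearMap.ext fun x => ?_
        rw [map_one]
        exact LinearMap.congr_fun (LinearMap.baseChange_id (R := k) (A := K) (M := W.V)) x
      map_mul' := by
        intro g h
        rw [map_mul]
        exact LinearMap.baseChange_comp (A := K) (W.ρ h) (W.ρ g) }

lemma bc_apply (W : FRep k G) (g : G) (a : K) (w : W.V) :
    (FRep.bc K W).ρ g (a ⊗ₜ[k] w) = a ⊗ₜ[k] (W.ρ g w) := rfl

lemma nrm_bc [Fintype G] (W : FRep k G) : nrm (FRep.bc K W) = (nrm W).baseChange K := by
  have h : (nrm W).baseChange K = ∑ g : G, (W.ρ g).baseChange K :=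
    map_sum (LinearMap.baseChangeHom k K W.V W.V) (fun g => W.ρ g) Finset.univ
  rw [h]
  rfl

lemma finrank_range_bc {V W : Type} [AddCommGroup V] [Module k V] [FiniteDimensional k V]
    [AddCommGroup W] [Module k W] [FiniteDimensional k W] (f : V →ₗ[k] W) :
    finrank K (LinearMap.range (f.baseChange K)) = finrank k (LinearMap.range f) := by
  have h1 : f = (LinearMap.range f).subtype ∘ₗ f.rangeRestrict := rfl
  have h2 : f.baseChange K =
      ((LinearMap.range f).subtype.baseChange K) ∘ₗ (f.rangeRestrict.baseChange K) := by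
    conv_lhs => rw [h1]
    exact LinearMap.baseChange_comp (A := K) f.rangeRestrict (LinearMap.range f).subtype
  have h3 : Function.Surjective (f.rangeRestrict.baseChange K) :=
    LinearMap.lTensor_surjective K f.surjective_rangeRestrict
  have h4 : Function.Injective ((LinearMap.range f).subtype.baseChange K) :=
    Module.Flat.lTensor_preserves_injective_linearMap (M := K) _
      (Submodule.subtype_injective (LinearMap.range f))
  rw [h2, LinearMap.range_comp, LinearMap.range_eq_top.2 h3, Submodule.map_top,
    LinearMap.finrank_range_of_inj h4, Module.finrank_baseChange]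

theorem cc_bc [Fintype G] (W : FRep k G) : cc (FRep.bc K W) = cc W := by
  unfold cc
  rw [nrm_bc, finrank_range_bc]
  show finrank K (K ⊗[k] W.V) - _ = _
  rw [Module.finrank_baseChange]

theorem Iso_bc {U W : FRep k G} (h : Iso U W) : Iso (FRep.bc K U) (FRep.bc K W) := by
  obtain ⟨e, he, _⟩ := h.exists_equiv
  refine Iso.ofEquiv (e.baseChange k K U.V W.V) ?_
  intro g x
  induction x using TensorProduct.induction_on with
  | zero => simp only [map_zero]
  | add x y hx hy => rw [map_add, map_add, map_add, map_add, hx, hy]
  | tmul a u =>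
    rw [bc_apply, LinearEquiv.baseChange_tmul, LinearEquiv.baseChange_tmul, bc_apply, he]

theorem bc_T (U W : FRep k G) :
    Iso (FRep.bc K (FRep.T U W)) (FRep.T (FRep.bc K U) (FRep.bc K W)) := by
  refine Iso.ofEquiv (TensorProduct.AlgebraTensorModule.distribBaseChange k K U.V W.V) ?_
  intro g x
  induction x using TensorProduct.induction_on with
  | zero => simp only [map_zero]
  | add x y hx hy => rw [map_add, map_add, map_add, map_add, hx, hy]
  | tmul a u =>
    induction u using TensorProduct.induction_on with
    | zero => simp only [TensorProduct.tmul_zero, map_zero]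
    | add x y hx hy => rw [TensorProduct.tmul_add, map_add, map_add, map_add, map_add, hx, hy]
    | tmul u w => rfl

theorem bc_triv : Iso (FRep.bc K (FRep.triv k G)) (FRep.triv K G) := by
  refine Iso.ofEquiv (TensorProduct.AlgebraTensorModule.rid k K K) ?_
  intro g x
  induction x using TensorProduct.induction_on with
  | zero => simp only [map_zero]
  | add x y hx hy => rw [map_add, map_add, map_add, map_add, hx, hy]
  | tmul a u => rfl

/-- base change of functionals -/
def bcd (U : Type) [AddCommGroup U] [Module k U] :
    K ⊗[k] (U →ₗ[k] k) →ₗ[K] ((K ⊗[k] U) →ₗ[K] K) :=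
  LinearMap.liftBaseChange K (Module.Dual.baseChange (R := k) (V := U) K)

lemma bcd_tmul (U : Type) [AddCommGroup U] [Module k U] (a b : K) (l : U →ₗ[k] k) (u : U) :
    bcd K U (a ⊗ₜ[k] l) (b ⊗ₜ[k] u) = a * (l u • b) := rfl

lemma bcd_surjective (U : Type) [AddCommGroup U] [Module k U] [FiniteDimensional k U] :
    Function.Surjective (bcd (k := k) K U) := by
  intro F
  let b := Module.finBasis k U
  refine ⟨∑ i, F (1 ⊗ₜ[k] b i) ⊗ₜ[k] (b.coord i), ?_⟩
  refine LinearMap.ext fun x => ?_
  induction x using TensorProduct.induction_on with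
  | zero => simp only [map_zero]
  | add x y hx hy => rw [map_add, map_add, hx, hy]
  | tmul a u =>
    rw [map_sum, LinearMap.sum_apply]
    have h1 : a ⊗ₜ[k] u = ∑ i, (b.coord i u • a) • ((1 : K) ⊗ₜ[k] b i) := by
      conv_lhs => rw [← b.sum_repr u, TensorProduct.tmul_sum]
      refine Finset.sum_congr rfl fun i _ => ?_
      rw [TensorProduct.smul_tmul', smul_eq_mul, mul_one, TensorProduct.tmul_smul]
      exact TensorProduct.smul_tmul' _ _ _
    rw [h1, map_sum]
    refine Finset.sum_congr rfl fun i _ => ?_
    rw [map_smul, ← h1, bcd_tmul, smul_eq_mul, mul_comm]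

lemma bcd_bijective (U : Type) [AddCommGroup U] [Module k U] [FiniteDimensional k U] :
    Function.Bijective (bcd (k := k) K U) := by
  have hd : finrank k (U →ₗ[k] k) = finrank k U := by
    rw [Module.finrank_linearMap, Module.finrank_self, mul_one]
  have hdim : finrank K (K ⊗[k] (U →ₗ[k] k)) = finrank K ((K ⊗[k] U) →ₗ[K] K) := by
    rw [Module.finrank_baseChange, hd, Module.finrank_linearMap, Module.finrank_self, mul_one,
      Module.finrank_baseChange]
  exact ⟨(LinearMap.injective_iff_surjective_of_finrank_eq_finrank (V := K ⊗[k] (U →ₗ[k] k))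
    (V₂ := ((K ⊗[k] U) →ₗ[K] K)) (f := bcd (k := k) K U) hdim).2 (bcd_surjective K U),
    bcd_surjective K U⟩

theorem bc_dual (U : FRep k G) :
    Iso (FRep.bc K (FRep.L U (FRep.triv k G))) (FRep.L (FRep.bc K U) (FRep.triv K G)) := by
  refine ⟨⟨bcd K U.V, ?_⟩, bcd_bijective K U.V⟩
  intro g x
  induction x using TensorProduct.induction_on with
  | zero => simp only [map_zero]
  | add x y hx hy => rw [map_add, map_add, map_add, map_add, hx, hy]
  | tmul a l =>
    refine LinearMap.ext fun y => ?_
    induction y using TensorProduct.induction_on with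
    | zero => simp only [map_zero]
    | add x y hx hy => rw [map_add, map_add, hx, hy]
    | tmul b u => rfl

theorem bc_pow (M : FRep k G) (n : ℕ) :
    Iso (FRep.bc K (FRep.pow M n)) (FRep.pow (FRep.bc K M) n) := by
  induction n with
  | zero => exact bc_triv K
  | succ n ih => exact (bc_T K (FRep.pow M n) M).trans' (Iso_T ih (Iso.rfl' _))

theorem bc_powD (M : FRep k G) (n : ℕ) :
    Iso (FRep.bc K (FRep.pow (FRep.T M (FRep.L M (FRep.triv k G))) n))
      (FRep.pow (FRep.T (FRep.bc K M) (FRep.L (FRep.bc K M) (FRep.triv K G))) n) :=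
  (bc_pow K (FRep.T M (FRep.L M (FRep.triv k G))) n).trans'
    (Iso_pow ((bc_T K M (FRep.L M (FRep.triv k G))).trans' (Iso_T (Iso.rfl' _) (bc_dual K M))) n)

end Pool.Agent.H34.Gam

end
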