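import Pool.Agent.H34.Gam.Tot

/-!
Operators of degree 2 on `HH U W` attached to 2-cochains `b : G → G → K`, and the action of
polynomial rings.
-/

set_option autoImplicit false
set_option linter.unusedSectionVars false

noncomputable section

namespace Pool.Agent.H34.Gam

variable {K G : Type} [Field K] [Group G] [Fintype G]

/-- cochains `b(g,h)` which are invariant modulo functions of one variable -/
def BF (K G : Type) [Field K] [Group G] : Submodule K (G → G → K) where
  carrier := {b | ∀ k : G, ∃ α γ : G → K, ∀ g h, b (k⁻¹ * g) (k⁻¹ * h) = b g h + α g + γ h}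
  add_mem' := by
    intro b b' hb hb' k
    obtain ⟨α, γ, h⟩ := hb k
    obtain ⟨α', γ', h'⟩ := hb' k
    exact ⟨α + α', γ + γ', fun g x => by simp only [Pi.add_apply, h, h']; ring⟩
  zero_mem' := fun k => ⟨0, 0, fun g x => by simp⟩
  smul_mem' := by
    intro c b hb k
    obtain ⟨α, γ, h⟩ := hb k
    exact ⟨c • α, c • γ, fun g x => by simp only [Pi.smul_apply, smul_eq_mul, h]; ring⟩

/-- the natural map `W → Sh (Sh W)`, `w ↦ [b(g,h) w]` -/
def bmap (W : FRep K G) : BF K G →ₗ[K] EHom W (FRep.Sh (FRep.Sh W)) where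
  toFun b := ⟨(q2 W) ∘ₗ (LinearMap.pi fun g => LinearMap.pi fun h => b.1 g h • LinearMap.id), by
    intro k w
    rw [LinearMap.comp_apply, LinearMap.comp_apply, q2_ρ, ← sub_eq_zero, ← map_sub, q2_eq_zero]
    obtain ⟨α, γ, h⟩ := b.2 k
    refine ⟨fun g => - α g • W.ρ k w, fun g => - γ g • W.ρ k w, fun g x => ?_⟩
    show b.1 g x • W.ρ k w - W.ρ k (b.1 (k⁻¹ * g) (k⁻¹ * x) • w) =
      - α g • W.ρ k w + - γ x • W.ρ k w
    rw [map_smul, h, add_smul, add_smul, neg_smul, neg_smul]
    abel⟩
  map_add' b b' := by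
    apply Subtype.ext; ext w
    show q2 W _ = q2 W _ + q2 W _
    rw [← map_add]; congr 1; funext g h
    exact add_smul _ _ _
  map_smul' c b := by
    apply Subtype.ext; ext w
    show q2 W _ = c • q2 W _
    rw [← map_smul]; congr 1; funext g h
    exact mul_smul _ _ _

lemma bmap_apply (W : FRep K G) (b : BF K G) (w : W.V) :
    (bmap W b).1 w = q2 W (fun g h => b.1 g h • w) := rfl

lemma bmap_nat {W W' : FRep K G} (b : BF K G) (f : EHom W W') :
    (ecomp (Sh.map (Sh.map f)) (bmap W b)) = (ecomp (bmap W' b) f) := by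
  apply Subtype.ext; ext w
  show q2 W' (fun g h => f.1 (b.1 g h • w)) = q2 W' (fun g h => b.1 g h • f.1 w)
  simp only [map_smul]

lemma bmap_sh (b : BF K G) (W : FRep K G) :
    bmap (FRep.Sh W) b = (ecomp (Sh.map (swp W)) ((ecomp (swp (FRep.Sh W)) (Sh.map (bmap W b))))) := by
  apply Subtype.ext
  apply Sh_hom_ext
  intro f
  rw [bmap_apply, ecomp_val, LinearMap.comp_apply, ecomp_val, LinearMap.comp_apply]
  have h1 : (Sh.map (bmap W b)).1 (shq W f) =
      q2 (FRep.Sh W) (fun y g => shq W (fun h => b.1 g h • f y)) := rfl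
  rw [h1, swp_q2]
  have h2 : q2 (FRep.Sh W) (fun g y => shq W (fun h => b.1 g h • f y)) =
      shq (FRep.Sh (FRep.Sh W)) (fun g => q2 W (fun y h => b.1 g h • f y)) := rfl
  rw [h2]
  have h3 : (Sh.map (swp W)).1 (shq (FRep.Sh (FRep.Sh W))
      (fun g => q2 W (fun y h => b.1 g h • f y))) =
      shq (FRep.Sh (FRep.Sh W)) (fun g => (swp W).1 (q2 W (fun y h => b.1 g h • f y))) := rfl
  rw [h3]
  simp only [swp_q2]
  rw [q2_apply]
  congr 1

lemma cl_bmap_sh (b : BF K G) (W : FRep K G) :
    cl (bmap (FRep.Sh W) b) = cl (Sh.map (bmap W b)) := by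
  rw [bmap_sh]
  have h1 : cl (Sh.map (swp W)) = cl (-(EHom.id (FRep.Sh (FRep.Sh (FRep.Sh W))))) := by
    have := Sh.map_cl (f := swp W) (f' := -(EHom.id _)) (by rw [cl_swp, map_neg])
    rwa [map_neg, Sh.map_id] at this
  have h2 : cl (swp (FRep.Sh W)) = cl (-(EHom.id (FRep.Sh (FRep.Sh (FRep.Sh W))))) := by
    rw [cl_swp, map_neg]
  have h3 := Hs.mapR_congr (FRep.Sh W) h1
  have h4 := Hs.mapR_congr (FRep.Sh W) h2
  have h5 := LinearMap.congr_fun h4 (cl (Sh.map (bmap W b)))
  rw [Hs.mapR_cl, Hs.mapR_cl] at h5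
  have h6 := LinearMap.congr_fun h3 (cl ((ecomp (swp (FRep.Sh W)) (Sh.map (bmap W b)))))
  rw [Hs.mapR_cl] at h6
  rw [h6, h5, Hs.mapR_cl]
  congr 1
  apply Subtype.ext; ext x
  show - - _ = _
  rw [neg_neg]; rfl

/-- the operator attached to `b` -/
def bop (b : BF K G) (U W : FRep K G) : Module.End K (HH U W) :=
  sg U W ∘ₗ sg U (FRep.Sh W) ∘ₗ push U (bmap W b)

lemma bop_apply (b : BF K G) (U W : FRep K G) (x : HH U W) :
    bop b U W x = sg U W (sg U (FRep.Sh W) (push U (bmap W b) x)) := rfl

lemma bop_push (b : BF K G) (U : FRep K G) {W W' : FRep K G} (f : EHom W W') (x : HH U W) :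
    push U f (bop b U W x) = bop b U W' (push U f x) := by
  rw [bop_apply, push_sg, push_sg, ← push_comp, bmap_nat, push_comp]; rfl

lemma bop_pull (b : BF K G) {U' U : FRep K G} (e : EHom U' U) (W : FRep K G) (x : HH U W) :
    pull e W (bop b U W x) = bop b U' W (pull e W x) := by
  rw [bop_apply, pull_sg, pull_sg, pull_push]; rfl

lemma bop_sg (b : BF K G) (U W : FRep K G) (x : HH U (FRep.Sh W)) :
    bop b U W (sg U W x) = sg U W (bop b U (FRep.Sh W) x) := by
  rw [bop_apply, bop_apply, push_sg, push_congr U (cl_bmap_sh b W)]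

lemma bop_comm (b b' : BF K G) (U W : FRep K G) (x : HH U W) :
    bop b U W (bop b' U W x) = bop b' U W (bop b U W x) := by
  rw [bop_apply b', bop_sg, bop_sg, ← bop_push]; rfl

lemma bop_deg (b : BF K G) (U W : FRep K G) {n : ℕ} {x : HH U W} (hx : x ∈ deg n U W) :
    bop b U W x ∈ deg (n + 2) U W :=
  sg_deg U W (sg_deg U _ (push_deg U _ hx))

lemma bop_add (b b' : BF K G) (U W : FRep K G) : bop (b + b') U W = bop b U W + bop b' U W := by
  refine LinearMap.ext fun x => ?_
  rw [bop_apply, map_add, push_add, map_add, map_add]; rfl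

lemma bop_smul (c : K) (b : BF K G) (U W : FRep K G) : bop (c • b) U W = c • bop b U W := by
  refine LinearMap.ext fun x => ?_
  rw [bop_apply, map_smul, push_smul, map_smul, map_smul]; rfl

lemma bop_comm' {ι : Type} (b : ι → BF K G) (U W : FRep K G) (i j : ι) :
    bop (b i) U W * bop (b j) U W = bop (b j) U W * bop (b i) U W :=
  LinearMap.ext fun x => bop_comm (b i) (b j) U W x

/-- polynomial action -/
def act {ι : Type} (b : ι → BF K G) (U W : FRep K G) :
    MvPolynomial ι K →ₐ[K] Module.End K (HH U W) :=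
  cact (fun i => bop (b i) U W) (bop_comm' b U W)

variable {ι : Type} (b : ι → BF K G)

@[simp] lemma act_X (U W : FRep K G) (i : ι) : act b U W (MvPolynomial.X i) = bop (b i) U W :=
  cact_X _ _ _

lemma act_push (U : FRep K G) {W W' : FRep K G} (f : EHom W W') (q : MvPolynomial ι K)
    (x : HH U W) : push U f (act b U W q x) = act b U W' q (push U f x) :=
  cact_comm _ _ _ _ _ (fun i x => bop_push (b i) U f x) q x

lemma act_pull {U' U : FRep K G} (e : EHom U' U) (W : FRep K G) (q : MvPolynomial ι K)
    (x : HH U W) : pull e W (act b U W q x) = act b U' W q (pull e W x) :=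
  cact_comm _ _ _ _ _ (fun i x => bop_pull (b i) e W x) q x

lemma act_sg (U W : FRep K G) (q : MvPolynomial ι K) (x : HH U (FRep.Sh W)) :
    sg U W (act b U (FRep.Sh W) q x) = act b U W q (sg U W x) :=
  cact_comm _ _ _ _ _ (fun i x => (bop_sg (b i) U W x).symm) q x

lemma act_sgN (t : ℕ) (U W : FRep K G) (q : MvPolynomial ι K) (x : HH U (FRep.ShN t W)) :
    sgN t U W (act b U (FRep.ShN t W) q x) = act b U W q (sgN t U W x) := by
  induction t generalizing W with
  | zero => rfl
  | succ t ih => exact (congrArg (sg U W) (ih (FRep.Sh W) x)).trans (act_sg b U W q _)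

lemma act_mul (U W : FRep K G) (q q' : MvPolynomial ι K) (x : HH U W) :
    act b U W (q * q') x = act b U W q (act b U W q' x) := by
  rw [map_mul]; rfl

lemma act_add (U W : FRep K G) (q q' : MvPolynomial ι K) (x : HH U W) :
    act b U W (q + q') x = act b U W q x + act b U W q' x := by
  rw [map_add]; rfl

lemma act_deg (U W : FRep K G) {d : ℕ} {q : MvPolynomial ι K} (hq : q.IsHomogeneous d) {n : ℕ}
    {x : HH U W} (hx : x ∈ deg n U W) : act b U W q x ∈ deg (n + 2 * d) U W := by
  classical
  -- monomials first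
  have key : ∀ (s : ι →₀ ℕ) (a : K) (n : ℕ) (x : HH U W), x ∈ deg n U W →
      act b U W (MvPolynomial.monomial s a) x ∈ deg (n + 2 * s.degree) U W := by
    intro s a
    induction s using Finsupp.induction_linear generalizing a with
    | zero =>
      intro n x hx
      rw [← MvPolynomial.C_apply]
      have : act b U W (MvPolynomial.C a) = a • 1 := cact_C _ _ _
      rw [this]
      simpa using (deg n U W).smul_mem a hx
    | add s t hs ht =>
      intro n x hx
      have : MvPolynomial.monomial (s + t) a =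
          MvPolynomial.monomial s a * MvPolynomial.monomial t (1 : K) := by
        rw [MvPolynomial.monomial_mul, mul_one]
      rw [this, act_mul]
      have h1 := hs a _ _ (ht 1 n x hx)
      have h2 : n + 2 * t.degree + 2 * s.degree = n + 2 * (s + t).degree := by
        rw [map_add]; ring
      rwa [h2] at h1
    | single i k =>
      intro n x hx
      have : MvPolynomial.monomial (Finsupp.single i k) a =
          MvPolynomial.C a * (MvPolynomial.X i : MvPolynomial ι K) ^ k := by
        rw [MvPolynomial.C_mul_X_pow_eq_monomial]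
      rw [this, act_mul]
      have hC : act b U W (MvPolynomial.C a) = a • 1 := cact_C _ _ _
      rw [hC]
      have h3 : act b U W ((MvPolynomial.X i : MvPolynomial ι K) ^ k) x ∈ deg (n + 2 * k) U W := by
        clear this
        induction k with
        | zero => simpa using hx
        | succ k ih =>
          rw [pow_succ', act_mul, act_X]
          have := bop_deg (b i) U W ih
          have h2 : n + 2 * k + 2 = n + 2 * (k + 1) := by ring
          rwa [h2] at this
      simpa using (deg (n + 2 * k) U W).smul_mem a h3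
  rw [q.as_sum, map_sum, LinearMap.sum_apply]
  apply Submodule.sum_mem
  intro s hs
  have h1 := key s (q.coeff s) n x hx
  have h2 : s.degree = d := by
    have := hq (MvPolynomial.mem_support_iff.mp hs)
    rw [← this, Finsupp.degree_eq_weight_one]; rfl
  rwa [h2] at h1

/-! ### splitting of iterated shifts -/

/-- `ShN (s+t) V → ShN s (ShN t V)` -/
def spl : (s t : ℕ) → (V : FRep K G) → EHom (FRep.ShN (s + t) V) (FRep.ShN s (FRep.ShN t V))
  | _, 0, _ => EHom.id _
  | s, t + 1, V => spl s t (FRep.Sh V)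

lemma sgN_spl (s t : ℕ) (U V : FRep K G) (x : HH U (FRep.ShN (s + t) V)) :
    sgN t U V (sgN s U (FRep.ShN t V) (push U (spl s t V) x)) = sgN (s + t) U V x := by
  induction t generalizing V with
  | zero =>
    show sgN s U V (push U (EHom.id _) x) = sgN s U V x
    rw [push_id]
  | succ t ih => exact congrArg (sg U V) (ih (FRep.Sh V) x)

/-- homogeneous polynomials act through maps `V → ShN n V`. -/
theorem act_repr {d : ℕ} {q : MvPolynomial ι K} (hq : q.IsHomogeneous d) (n : ℕ) (hn : n = 2 * d)
    (V : FRep K G) : ∃ η : EHom V (FRep.ShN n V), ∀ (U : FRep K G) (x : HH U V),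
      act b U V q x = sgN n U V (push U η x) := by
  classical
  subst hn
  let P : ℕ → MvPolynomial ι K → Prop := fun d q => ∀ V : FRep K G,
    ∃ η : EHom V (FRep.ShN (2 * d) V), ∀ (U : FRep K G) (x : HH U V),
      act b U V q x = sgN (2 * d) U V (push U η x)
  have P0 : ∀ d, P d 0 := fun d V => ⟨0, fun U x => by
    rw [push_null U (Submodule.zero_mem _) x, map_zero, map_zero]; rfl⟩
  have Padd : ∀ d q q', P d q → P d q' → P d (q + q') := by
    intro d q q' h h' V
    obtain ⟨η, hη⟩ := h V
    obtain ⟨η', hη'⟩ := h' V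
    exact ⟨η + η', fun U x => by rw [act_add, hη, hη', push_add, map_add]⟩
  have PC : ∀ a : K, P 0 (MvPolynomial.C a) := by
    intro a V
    refine ⟨a • EHom.id V, fun U x => ?_⟩
    have hC : act b U V (MvPolynomial.C a) = a • 1 := cact_C _ _ _
    rw [hC]
    show a • x = push U (a • EHom.id V) x
    rw [push_smul, push_id]
  have Pmul : ∀ d q i, P d q → P (d + 1) (q * MvPolynomial.X i) := by
    intro d q i h V
    obtain ⟨η, hη⟩ := h (FRep.Sh (FRep.Sh V))
    refine ⟨(ecomp η (bmap V (b i))), fun U x => ?_⟩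
    rw [act_mul, act_X, bop_apply, ← act_sg, ← act_sg, hη U]
    have := push_comp U η (bmap V (b i)) x
    exact (congrArg (fun z => sg U V (sg U (FRep.Sh V)
      (sgN (2 * d) U (FRep.Sh (FRep.Sh V)) z))) this).symm
  have key : ∀ (s : ι →₀ ℕ) (a : K), ∃ d, (MvPolynomial.monomial s a).IsHomogeneous d ∧
      P d (MvPolynomial.monomial s a) := by
    intro s a
    apply MvPolynomial.induction_on_monomial (motive := fun q => ∃ d, q.IsHomogeneous d ∧ P d q)
    · intro a
      exact ⟨0, MvPolynomial.isHomogeneous_C _ _, PC a⟩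
    · rintro q i ⟨d, h1, h2⟩
      exact ⟨d + 1, h1.mul (MvPolynomial.isHomogeneous_X _ _), Pmul d q i h2⟩
  have hsum : ∀ (S : Finset (ι →₀ ℕ)) (f : (ι →₀ ℕ) → MvPolynomial ι K),
      (∀ s ∈ S, P d (f s)) → P d (∑ s ∈ S, f s) := by
    intro S f
    induction S using Finset.induction_on with
    | empty => intro _; simpa using P0 d
    | insert s S hs ih =>
      intro h
      rw [Finset.sum_insert hs]
      exact Padd d _ _ (h s (Finset.mem_insert_self _ _))
        (ih fun t ht => h t (Finset.mem_insert_of_mem ht))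
  have : P d q := by
    rw [q.as_sum]
    apply hsum
    intro s hs
    obtain ⟨d', h1, h2⟩ := key s (q.coeff s)
    have hne : q.coeff s ≠ 0 := MvPolynomial.mem_support_iff.mp hs
    have h3 : d' = d := by
      have e1 := h1 (d := s) (by simpa using hne)
      have e2 := hq hne
      rw [← e1, ← e2]
    rw [h3] at h2
    exact h2
  exact this V

end Pool.Agent.H34.Gam

end
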