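import Pool.Agent.H34.Gam.EDefs2
import Pool.Agent.H34.Gam.PG

/-!
Change of basis in `K[x_1..x_r]/(x_i^p)`, traces in terms of `uop`, ranks on `I_w` (job GAM-CB).
-/

set_option autoImplicit false
set_option linter.unusedSectionVars false

noncomputable section

namespace Pool.Agent.H34.Gam

open Module

variable {K : Type} [Field K] {p r : ℕ} [Fact p.Prime] [CharP K p]

/-! ### binomial identities in characteristic `p` -/

private lemma cb_choose (k : ℕ) (hk : k < p) :
    ((-1 : K)) ^ k * ((p - 1).choose k : K) = 1 := by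
  have hp : p.Prime := Fact.out
  induction k with
  | zero => simp
  | succ k ih =>
    have h1 := ih (by omega)
    have h2 : ((p.choose (k + 1) : ℕ) : K) = 0 :=
      (CharP.cast_eq_zero_iff K p _).2 (hp.dvd_choose_self (by omega) hk)
    have h3 : p.choose (k + 1) = (p - 1).choose k + (p - 1).choose (k + 1) := by
      conv_lhs => rw [← Nat.sub_add_cancel hp.one_lt.le]
      rw [Nat.choose_succ_succ']
    rw [h3, Nat.cast_add] at h2
    rw [pow_succ]
    linear_combination h1 - (-1) ^ k * h2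

/-- `(x - y)^(p-1) = ∑ x^i y^(p-1-i)` in characteristic `p` for commuting elements -/
private lemma cb_sub_pow {R : Type} [Ring R] [Algebra K R] {x y : R} (h : Commute x y) :
    (x - y) ^ (p - 1) = ∑ i ∈ Finset.range p, x ^ i * y ^ (p - 1 - i) := by
  have hp : p.Prime := Fact.out
  have h1 : Commute x (-y) := h.neg_right
  rw [sub_eq_add_neg, h1.add_pow, Nat.sub_add_cancel hp.one_lt.le]
  refine Finset.sum_congr rfl fun m hm => ?_
  have hm' : m < p := Finset.mem_range.1 hm
  set k := p - 1 - m with hk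
  have hc : (p - 1).choose m = (p - 1).choose k := by
    rw [hk, Nat.choose_symm (by omega)]
  have h2 : ((-1 : R)) ^ k * ((p - 1).choose k : R) = 1 := by
    have := congrArg (algebraMap K R) (cb_choose (K := K) (p := p) k (by omega))
    simpa using this
  rw [neg_pow y k, hc]
  calc x ^ m * ((-1) ^ k * y ^ k) * ((p - 1).choose k : R)
      = x ^ m * (y ^ k * (-1) ^ k) * ((p - 1).choose k : R) := by
        rw [((Commute.neg_one_left (y ^ k)).pow_left k).eq]
    _ = x ^ m * y ^ k * ((-1) ^ k * ((p - 1).choose k : R)) := by simp only [mul_assoc]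
    _ = x ^ m * y ^ k := by rw [h2, mul_one]

private lemma cb_smul_sum_pow {R : Type} [CommRing R] [Algebra K R] {n : ℕ} (z : Fin n → R)
    (hz : ∀ j, z j ^ p = 0) (c : Fin n → K) : (∑ j, c j • z j) ^ p = 0 := by
  rcases subsingleton_or_nontrivial R with hs | hs
  · exact Subsingleton.elim _ _
  · have : CharP R p := charP_of_injective_algebraMap (algebraMap K R).injective p
    rw [sum_pow_char]
    refine Finset.sum_eq_zero fun j _ => ?_
    rw [smul_pow, hz, smul_zero]

/-- change of basis for top products -/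
theorem cb_prod {R : Type} [CommRing R] [Algebra K R] (z : Fin r → R) (hz : ∀ j, z j ^ p = 0)
    (A : Matrix (Fin r) (Fin r) K) :
    ∏ i, (∑ j, A i j • z j) ^ (p - 1) = algebraMap K R (A.det ^ (p - 1)) * ∏ j, z j ^ (p - 1) := by
  have hp : p.Prime := Fact.out
  revert z
  refine Matrix.diagonal_transvection_induction (fun A => ∀ z : Fin r → R, (∀ j, z j ^ p = 0) →
    ∏ i, (∑ j, A i j • z j) ^ (p - 1) =
      algebraMap K R (A.det ^ (p - 1)) * ∏ j, z j ^ (p - 1)) A ?_ ?_ ?_
  · intro D _ z hz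
    have h1 : ∀ i, ∑ j, Matrix.diagonal D i j • z j = D i • z i := by
      intro i
      rw [Finset.sum_eq_single i]
      · rw [Matrix.diagonal_apply_eq]
      · intro j _ hj
        rw [Matrix.diagonal_apply_ne _ hj.symm, zero_smul]
      · intro h; exact absurd (Finset.mem_univ _) h
    simp_rw [h1, Algebra.smul_def, mul_pow]
    rw [Finset.prod_mul_distrib, Matrix.det_diagonal, ← Finset.prod_pow, map_prod]
    simp only [map_pow]
  · intro t z hz
    rw [Matrix.TransvectionStruct.det, one_pow, map_one, one_mul]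
    have hij : t.i ≠ t.j := t.hij
    have h1 : ∀ k, ∑ j, t.toMatrix k j • z j = if k = t.i then z t.i + t.c • z t.j else z k := by
      intro k
      have e : ∀ j, t.toMatrix k j • z j =
          (if k = j then z j else 0) + (if k = t.i ∧ j = t.j then t.c • z j else 0) := by
        intro j
        rw [Matrix.TransvectionStruct.toMatrix, Matrix.transvection, Matrix.add_apply,
          Matrix.one_apply, Matrix.single_apply, add_smul]
        congr 1
        · split_ifs <;> simp
        · by_cases h : t.i = k ∧ t.j = j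
          · rw [if_pos h, if_pos ⟨h.1.symm, h.2.symm⟩]
          · rw [if_neg h, if_neg (fun h' => h ⟨h'.1.symm, h'.2.symm⟩), zero_smul]
      rw [Finset.sum_congr rfl fun j _ => e j, Finset.sum_add_distrib, Finset.sum_ite_eq,
        if_pos (Finset.mem_univ _)]
      by_cases hk : k = t.i
      · rw [if_pos hk, Finset.sum_eq_single t.j]
        · rw [if_pos ⟨hk, rfl⟩, hk]
        · intro j _ hj
          rw [if_neg (fun h => hj h.2)]
        · intro h; exact absurd (Finset.mem_univ _) h
      · rw [if_neg hk, Finset.sum_eq_zero, add_zero]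
        intro j _
        rw [if_neg (fun h => hk h.1)]
    simp_rw [h1]
    -- split off the factors `i` and `j`
    have hmem : t.j ∈ Finset.univ.erase t.i := Finset.mem_erase.2 ⟨hij.symm, Finset.mem_univ _⟩
    rw [← Finset.mul_prod_erase Finset.univ _ (Finset.mem_univ t.i),
      ← Finset.mul_prod_erase (Finset.univ.erase t.i) _ hmem,
      ← Finset.mul_prod_erase Finset.univ (fun j => z j ^ (p - 1)) (Finset.mem_univ t.i),
      ← Finset.mul_prod_erase (Finset.univ.erase t.i) (fun j => z j ^ (p - 1)) hmem]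
    rw [if_pos rfl, if_neg hij.symm, ← mul_assoc, ← mul_assoc]
    congr 1
    · -- the key cancellation
      have hdiv : z t.j ∣ (z t.i + t.c • z t.j) ^ (p - 1) - z t.i ^ (p - 1) := by
        refine dvd_trans ?_ (sub_dvd_pow_sub_pow (z t.i + t.c • z t.j) (z t.i) (p - 1))
        rw [add_sub_cancel_left, Algebra.smul_def]
        exact Dvd.intro_left _ rfl
      obtain ⟨q, hq⟩ := hdiv
      have hq' : (z t.i + t.c • z t.j) ^ (p - 1) = z t.i ^ (p - 1) + z t.j * q := by
        rw [← hq]; ring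
      rw [hq', add_mul]
      have : z t.j * q * z t.j ^ (p - 1) = 0 := by
        calc z t.j * q * z t.j ^ (p - 1) = q * (z t.j ^ (p - 1) * z t.j) := by ring
          _ = q * z t.j ^ p := by rw [← pow_succ, Nat.sub_add_cancel hp.one_lt.le]
          _ = 0 := by rw [hz, mul_zero]
      rw [this, add_zero]
    · refine Finset.prod_congr rfl fun k hk => ?_
      have hki : k ≠ t.i := (Finset.mem_erase.1 (Finset.mem_erase.1 hk).2).1
      rw [if_neg hki]
  · intro A B hA hB z hz
    have h1 : ∀ i, ∑ j, (A * B) i j • z j = ∑ k, A i k • ∑ j, B k j • z j := by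
      intro i
      simp_rw [Matrix.mul_apply, Finset.smul_sum, Finset.sum_smul, smul_smul]
      rw [Finset.sum_comm]
    simp_rw [h1]
    rw [hA (fun k => ∑ j, B k j • z j) (fun k => cb_smul_sum_pow z hz (B k)), hB z hz,
      Matrix.det_mul, mul_pow, map_mul, mul_assoc]


/-! ### the group algebra -/

private lemma cb_zmod_sum {R : Type} [CommRing R] (x : R) :
    ∑ a : ZMod p, x ^ a.val = ∑ i ∈ Finset.range p, x ^ i := by
  refine Finset.sum_nbij' (fun a => a.val) (fun n => (n : ZMod p)) ?_ ?_ ?_ ?_ ?_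
  · intro a _; exact Finset.mem_range.2 (ZMod.val_lt a)
  · intro n _; exact Finset.mem_univ _
  · intro a _; exact ZMod.natCast_zmod_val a
  · intro n hn; exact ZMod.val_cast_of_lt (Finset.mem_range.1 hn)
  · intro a _; rfl

/-- the norm element of the image of `Er` in a commutative algebra -/
private lemma cb_sum_hom {R : Type} [CommRing R] [Algebra K R] (φ : Er p r →* R) :
    ∑ g, φ g = ∏ j, (φ (eg p j) - 1) ^ (p - 1) := by
  have h1 : ∀ g : Er p r, φ g = ∏ j, φ (eg p j) ^ (Multiplicative.toAdd g j).val := by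
    intro g
    conv_lhs => rw [eg_gen g]
    rw [map_prod]
    refine Finset.prod_congr rfl fun j _ => ?_
    rw [map_pow]; rfl
  rw [Finset.sum_congr rfl fun g _ => h1 g]
  have h2 : ∑ g : Er p r, ∏ j, φ (eg p j) ^ (Multiplicative.toAdd g j).val =
      ∑ x : Fin r → ZMod p, ∏ j, φ (eg p j) ^ (x j).val :=
    Fintype.sum_equiv Multiplicative.toAdd _ _ fun g => rfl
  rw [h2]
  have h3 := Finset.prod_univ_sum (fun _ : Fin r => (Finset.univ : Finset (ZMod p)))
    (fun j a => φ (eg p j) ^ a.val)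
  rw [Fintype.piFinset_univ] at h3
  rw [← h3]
  refine Finset.prod_congr rfl fun j _ => ?_
  rw [cb_zmod_sum, cb_sub_pow (K := K) (Commute.one_right _)]
  refine Finset.sum_congr rfl fun i _ => ?_
  rw [one_pow, mul_one]

/-- the action of the group algebra -/
private def acS (Z : FRep K (Er p r)) : MonoidAlgebra K (Er p r) →ₐ[K] Module.End K Z.V :=
  Z.ρ.asAlgebraHom

private def xg (K : Type) [Field K] (p : ℕ) {r : ℕ} (j : Fin r) : MonoidAlgebra K (Er p r) :=
  MonoidAlgebra.of K (Er p r) (eg p j) - 1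

private def Ux (p : ℕ) (c : Fin r → K) : MonoidAlgebra K (Er p r) := ∑ j, c j • xg K p j

private lemma acS_xg (Z : FRep K (Er p r)) (j : Fin r) :
    acS Z (xg K p j) = Z.ρ (eg p j) - 1 := by
  rw [acS, xg, map_sub, map_one, Representation.asAlgebraHom_of]

private lemma acS_Ux (Z : FRep K (Er p r)) (c : Fin r → K) : acS Z (Ux p c) = uop c Z := by
  rw [Ux, map_sum, uop]
  refine Finset.sum_congr rfl fun j _ => ?_
  rw [map_smul, acS_xg]

private lemma xg_pow (j : Fin r) : xg K p j ^ p = 0 := by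
  have h : CharP (MonoidAlgebra K (Er p r)) p :=
    charP_of_injective_algebraMap (algebraMap K _).injective p
  rw [xg, sub_pow_char, one_pow, ← map_pow, eg_pow, map_one, sub_self]

private lemma Ux_pow (c : Fin r → K) : Ux p c ^ p = 0 :=
  cb_smul_sum_pow _ (fun j => xg_pow j) c

lemma uop_pow (c : Fin r → K) (Z : FRep K (Er p r)) : uop c Z ^ p = 0 := by
  rw [← acS_Ux, ← map_pow, Ux_pow, map_zero]

lemma uop_comm (c c' : Fin r → K) (Z : FRep K (Er p r)) : Commute (uop c Z) (uop c' Z) := by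
  rw [← acS_Ux, ← acS_Ux]
  exact (Commute.all _ _).map _

/-- equivariant maps commute with `uop` -/
lemma EHom.map_uop {U W : FRep K (Er p r)} (f : EHom U W) (c : Fin r → K) (x : U.V) :
    f.1 (uop c U x) = uop c W (f.1 x) := by
  simp only [uop, LinearMap.sum_apply, LinearMap.smul_apply, LinearMap.sub_apply, map_sum,
    map_smul, map_sub, EHom.map, Module.End.one_apply]

private lemma EHom.map_uop_pow {U W : FRep K (Er p r)} (f : EHom U W) (c : Fin r → K) (n : ℕ)
    (x : U.V) : f.1 ((uop c U ^ n) x) = (uop c W ^ n) (f.1 x) := by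
  induction n generalizing x with
  | zero => rfl
  | succ n ih => rw [pow_succ, pow_succ, Module.End.mul_apply, Module.End.mul_apply, ih,
      EHom.map_uop]

private lemma nrm_acS (Z : FRep K (Er p r)) :
    nrm Z = acS Z (∏ j, xg K p j ^ (p - 1)) := by
  have h := cb_sum_hom (K := K) (MonoidAlgebra.of K (Er p r))
  have h2 : ∏ j, xg K p j ^ (p - 1) = ∑ g, MonoidAlgebra.of K (Er p r) g := h.symm
  rw [h2, map_sum, nrm]
  refine Finset.sum_congr rfl fun g _ => ?_
  rw [acS, Representation.asAlgebraHom_of]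

/-- version of `nrm_eq_prod` in the group algebra -/
private lemma nrm_eq_acS (c : Fin r → Fin r → K) (hc : LinearIndependent K c) :
    ∃ a : K, a ≠ 0 ∧ ∀ Z : FRep K (Er p r), nrm Z = a • acS Z (∏ i, Ux p (c i) ^ (p - 1)) := by
  have hdet : (Matrix.of c).det ≠ 0 := by
    have h1 : IsUnit (Matrix.of c) := by
      rw [← Matrix.linearIndependent_rows_iff_isUnit]
      exact hc
    exact ((Matrix.isUnit_iff_isUnit_det _).1 h1).ne_zero
  refine ⟨((Matrix.of c).det ^ (p - 1))⁻¹, inv_ne_zero (pow_ne_zero _ hdet), fun Z => ?_⟩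
  have h := cb_prod (K := K) (fun j => xg K p j) (fun j => xg_pow j) (Matrix.of c)
  have h2 : ∏ i, Ux p (c i) ^ (p - 1) =
      algebraMap K _ ((Matrix.of c).det ^ (p - 1)) * ∏ j, xg K p j ^ (p - 1) := h
  rw [h2, ← Algebra.smul_def, map_smul, smul_smul, inv_mul_cancel₀ (pow_ne_zero _ hdet),
    one_smul, nrm_acS]

/-- The norm is, up to a nonzero scalar, the product of the `(p-1)`-st powers of any basis of
linear forms. -/
theorem nrm_eq_prod (c : Fin r → Fin r → K) (hc : LinearIndependent K c) :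
    ∃ a : K, a ≠ 0 ∧ ∀ Z : FRep K (Er p r),
      nrm Z = a • Finset.univ.noncommProd (fun i => uop (c i) Z ^ (p - 1))
        (fun i _ j _ _ => ((uop_comm (c i) (c j) Z).pow_left _).pow_right _) := by
  obtain ⟨a, ha, h⟩ := nrm_eq_acS (p := p) c hc
  refine ⟨a, ha, fun Z => ?_⟩
  rw [h Z, ← Finset.noncommProd_eq_prod, Finset.map_noncommProd]
  congr 1
  refine Finset.noncommProd_congr rfl (fun i _ => ?_) _
  rw [map_pow, acS_Ux]

/-! ### traces -/

/-- left and right multiplication -/
private def rho2 (U W : FRep K (Er p r)) :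
    Representation K (Er p r × Er p r) (U.V →ₗ[K] W.V) where
  toFun g :=
    { toFun := fun ψ => W.ρ g.1 ∘ₗ ψ ∘ₗ U.ρ g.2
      map_add' := by intro a b; ext x; simp
      map_smul' := by intro a b; ext x; simp }
  map_one' := by ext ψ x; simp
  map_mul' := by
    intro g h
    refine LinearMap.ext fun ψ => LinearMap.ext fun x => ?_
    show W.ρ (g.1 * h.1) (ψ (U.ρ (g.2 * h.2) x)) = W.ρ g.1 (W.ρ h.1 (ψ (U.ρ h.2 (U.ρ g.2 x))))
    rw [FRep.mul_apply, mul_comm g.2 h.2, FRep.mul_apply]

private def ac2 (U W : FRep K (Er p r)) :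
    MonoidAlgebra K (Er p r × Er p r) →ₐ[K] Module.End K (U.V →ₗ[K] W.V) :=
  (rho2 U W).asAlgebraHom

private def xl (K : Type) [Field K] (p : ℕ) {r : ℕ} (j : Fin r) :
    MonoidAlgebra K (Er p r × Er p r) := MonoidAlgebra.of K (Er p r × Er p r) (eg p j, 1)

private def xr (K : Type) [Field K] (p : ℕ) {r : ℕ} (j : Fin r) :
    MonoidAlgebra K (Er p r × Er p r) := MonoidAlgebra.of K (Er p r × Er p r) (1, eg p j)

private lemma ac2_left (U W : FRep K (Er p r)) (c : Fin r → K) (ψ : U.V →ₗ[K] W.V) :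
    ac2 U W (∑ j, c j • (xl K p j - 1)) ψ = uop c W ∘ₗ ψ := by
  refine LinearMap.ext fun x => ?_
  rw [map_sum, LinearMap.sum_apply, LinearMap.sum_apply, LinearMap.comp_apply, uop,
    LinearMap.sum_apply]
  refine Finset.sum_congr rfl fun j _ => ?_
  rw [map_smul, map_sub, map_one, xl, ac2, Representation.asAlgebraHom_of]
  show c j • (W.ρ (eg p j) (ψ (U.ρ 1 x)) - ψ x) = c j • (W.ρ (eg p j) (ψ x) - ψ x)
  rw [FRep.one_apply]

private lemma ac2_right (U W : FRep K (Er p r)) (c : Fin r → K) (ψ : U.V →ₗ[K] W.V) :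
    ac2 U W (∑ j, c j • (xr K p j - 1)) ψ = ψ ∘ₗ uop c U := by
  refine LinearMap.ext fun x => ?_
  rw [map_sum, LinearMap.sum_apply, LinearMap.sum_apply, LinearMap.comp_apply, uop,
    LinearMap.sum_apply, map_sum]
  refine Finset.sum_congr rfl fun j _ => ?_
  rw [map_smul, map_sub, map_one, xr, ac2, Representation.asAlgebraHom_of]
  show c j • (W.ρ 1 (ψ (U.ρ (eg p j) x)) - ψ x) = ψ (c j • (U.ρ (eg p j) x - x))
  rw [map_smul, map_sub, FRep.one_apply]

private lemma ac2_left_pow (U W : FRep K (Er p r)) (c : Fin r → K) (ψ : U.V →ₗ[K] W.V) (n : ℕ) :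
    ac2 U W ((∑ j, c j • (xl K p j - 1)) ^ n) ψ = (uop c W ^ n) ∘ₗ ψ := by
  induction n generalizing ψ with
  | zero => rw [pow_zero, map_one, pow_zero]; rfl
  | succ n ih =>
    rw [pow_succ, map_mul, Module.End.mul_apply, ac2_left, ih, pow_succ]; rfl

private lemma ac2_right_pow (U W : FRep K (Er p r)) (c : Fin r → K) (ψ : U.V →ₗ[K] W.V) (n : ℕ) :
    ac2 U W ((∑ j, c j • (xr K p j - 1)) ^ n) ψ = ψ ∘ₗ (uop c U ^ n) := by
  induction n generalizing ψ with
  | zero => rw [pow_zero, map_one, pow_zero]; rfl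
  | succ n ih =>
    rw [pow_succ, map_mul, Module.End.mul_apply, ac2_right, ih, pow_succ']; rfl

/-- traces are `u`-traces -/
theorem Tr_eq_uop (c : Fin r → K) (hc : c ≠ 0) (U W : FRep K (Er p r)) (ψ : U.V →ₗ[K] W.V) :
    ∃ ψ' : U.V →ₗ[K] W.V, Tr U W ψ =
      ∑ i ∈ Finset.range p, (uop c W ^ i) ∘ₗ ψ' ∘ₗ (uop c U ^ (p - 1 - i)) := by
  classical
  have hp : p.Prime := Fact.out
  obtain ⟨i₀, hi₀⟩ := Function.ne_iff.1 hc
  have hi₀' : c i₀ ≠ 0 := hi₀
  set R := MonoidAlgebra K (Er p r × Er p r) with hR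
  have hch : CharP R p := charP_of_injective_algebraMap (algebraMap K _).injective p
  -- the element of the group algebra
  let φ : Er p r →* R := (MonoidAlgebra.of K (Er p r × Er p r)).comp
    ((MonoidHom.id (Er p r)).prod (invMonoidHom))
  have h1 := cb_sum_hom (K := K) φ
  let z : Fin r → R := fun j => xl K p j - xr K p j
  let b' : Fin r → R := fun j => MonoidAlgebra.of K (Er p r × Er p r) (1, (eg p j)⁻¹)
  have hbb : ∀ j, b' j * xr K p j = 1 := by
    intro j
    show MonoidAlgebra.of K (Er p r × Er p r) (1, (eg p j)⁻¹) *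
      MonoidAlgebra.of K (Er p r × Er p r) (1, eg p j) = 1
    rw [← map_mul, Prod.mk_mul_mk, one_mul, inv_mul_cancel]
    exact map_one _
  have hφ : ∀ j, φ (eg p j) - 1 = b' j * z j := by
    intro j
    have e1 : φ (eg p j) = b' j * xl K p j := by
      show MonoidAlgebra.of K (Er p r × Er p r) (eg p j, (eg p j)⁻¹) =
        MonoidAlgebra.of K (Er p r × Er p r) (1, (eg p j)⁻¹) *
          MonoidAlgebra.of K (Er p r × Er p r) (eg p j, 1)
      rw [← map_mul, Prod.mk_mul_mk, one_mul, mul_one]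
    show φ (eg p j) - 1 = b' j * (xl K p j - xr K p j)
    rw [mul_sub, hbb, e1]
  have hz : ∀ j, z j ^ p = 0 := by
    intro j
    show (xl K p j - xr K p j) ^ p = 0
    rw [sub_pow_char, xl, xr, ← map_pow, ← map_pow, Prod.pow_mk, Prod.pow_mk, eg_pow, one_pow,
      sub_self]
  -- a basis with first vector `c`
  set A : Matrix (Fin r) (Fin r) K := (1 : Matrix (Fin r) (Fin r) K).updateRow i₀ c with hA
  have hdet : A.det = c i₀ := by
    have := Matrix.cramer_transpose_apply (1 : Matrix (Fin r) (Fin r) K) c i₀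
    rw [Matrix.transpose_one, Matrix.cramer_one] at this
    rw [hA, ← this]; rfl
  have h2 := cb_prod (K := K) z hz A
  rw [hdet, ← Finset.mul_prod_erase Finset.univ _ (Finset.mem_univ i₀)] at h2
  have h3 : ∑ j, A i₀ j • z j =
      (∑ j, c j • (xl K p j - 1)) - ∑ j, c j • (xr K p j - 1) := by
    rw [← Finset.sum_sub_distrib]
    refine Finset.sum_congr rfl fun j _ => ?_
    rw [hA, Matrix.updateRow_self, ← smul_sub]
    congr 1
    show xl K p j - xr K p j = _
    ring
  rw [h3] at h2
  set rest := ∏ i ∈ Finset.univ.erase i₀, (∑ j, A i j • z j) ^ (p - 1) with hrest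
  set x := ∑ j, c j • (xl K p j - 1) with hx
  set y := ∑ j, c j • (xr K p j - 1) with hy
  have h4 : ∏ j, z j ^ (p - 1) = (x - y) ^ (p - 1) *
      (algebraMap K R ((c i₀ ^ (p - 1))⁻¹) * rest) := by
    have e : algebraMap K R ((c i₀ ^ (p - 1))⁻¹) * algebraMap K R (c i₀ ^ (p - 1)) = 1 := by
      rw [← map_mul, inv_mul_cancel₀ (pow_ne_zero _ hi₀'), map_one]
    calc ∏ j, z j ^ (p - 1) = (algebraMap K R ((c i₀ ^ (p - 1))⁻¹) *
          algebraMap K R (c i₀ ^ (p - 1))) * ∏ j, z j ^ (p - 1) := by rw [e, one_mul]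
      _ = algebraMap K R ((c i₀ ^ (p - 1))⁻¹) * ((x - y) ^ (p - 1) * rest) := by
          rw [mul_assoc, ← h2]
      _ = _ := by ring
  have h5 : ∑ g, φ g = (x - y) ^ (p - 1) *
      (algebraMap K R ((c i₀ ^ (p - 1))⁻¹) * rest * ∏ j, b' j ^ (p - 1)) := by
    rw [h1]
    simp_rw [hφ, mul_pow]
    rw [Finset.prod_mul_distrib, h4]
    ring
  set s := algebraMap K R ((c i₀ ^ (p - 1))⁻¹) * rest * ∏ j, b' j ^ (p - 1) with hs
  refine ⟨ac2 U W s ψ, ?_⟩
  have h6 : Tr U W ψ = ac2 U W (∑ g, φ g) ψ := by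
    refine LinearMap.ext fun v => ?_
    rw [Tr_apply, map_sum, LinearMap.sum_apply, LinearMap.sum_apply]
    refine Finset.sum_congr rfl fun g _ => ?_
    show _ = ac2 U W (MonoidAlgebra.of K (Er p r × Er p r) (g, g⁻¹)) ψ v
    rw [ac2, Representation.asAlgebraHom_of]
    rfl
  rw [h6, h5, map_mul, Module.End.mul_apply, cb_sub_pow (K := K) (Commute.all x y), map_sum,
    LinearMap.sum_apply]
  refine Finset.sum_congr rfl fun i _ => ?_
  rw [map_mul, Module.End.mul_apply, ac2_right_pow, ac2_left_pow]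


/-! ### the representations `I_w` -/

private lemma cb_iw_sum (m : ℕ) (c w : Fin r → K) (Z : FRep K (Er p r)) :
    ∑ j, c j • ((iwOp m w Z j : Module.End K (Fin m → Z.V)) - 1) =
      cw m (uop c Z) + (∑ j, c j * w j) • tmul m Z.V := by
  refine LinearMap.ext fun y => funext fun n => ?_
  rw [LinearMap.sum_apply, Finset.sum_apply, LinearMap.add_apply, Pi.add_apply, cw_apply, uop,
    LinearMap.sum_apply, Finset.sum_smul, LinearMap.sum_apply, Finset.sum_apply,
    ← Finset.sum_add_distrib]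
  refine Finset.sum_congr rfl fun j _ => ?_
  show c j • (Z.ρ (eg p j) (y n) + w j • tmul (K := K) m Z.V y n - y n) =
    c j • (Z.ρ (eg p j) (y n) - y n) + (c j * w j) • tmul (K := K) m Z.V y n
  rw [mul_smul, ← smul_add]
  congr 1
  abel

/-- `uop c` on `I_w Z` is `uop c + (c·w) t` -/
lemma uop_Iw (m : ℕ) (hm : m ≤ p) (c w : Fin r → K) (Z : FRep K (Er p r)) :
    uop c (Iw m hm w Z) = cw m (uop c Z) + (∑ j, c j * w j) • tmul m Z.V := by
  have h1 : uop c (Iw m hm w Z) = ∑ j, c j • ((iwOp m w Z j : Module.End K (Fin m → Z.V)) - 1) := by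
    unfold uop
    refine Finset.sum_congr rfl fun j _ => ?_
    rw [Iw_eg]
    rfl
  exact h1.trans (cb_iw_sum m c w Z)

private lemma cb_finrank_fun (n : ℕ) (V : Type) [AddCommGroup V] [Module K V]
    [FiniteDimensional K V] : finrank K (Fin n → V) = n * finrank K V := by
  rw [Module.finrank_pi_fintype]
  simp

theorem finrank_Iws (l : List (Fin r → K)) (Z : FRep K (Er p r)) :
    finrank K (Iws l Z).V = p ^ l.length * finrank K Z.V := by
  induction l with
  | nil =>
    show finrank K Z.V = p ^ 0 * finrank K Z.V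
    rw [pow_zero, one_mul]
  | cons w l ih =>
    have h : finrank K (Iws (w :: l) Z).V = p * finrank K (Iws l Z).V :=
      cb_finrank_fun p (Iws l Z).V
    rw [h, ih, List.length_cons, pow_succ]
    ring

private lemma cw_pow (m : ℕ) {V : Type} [AddCommGroup V] [Module K V] (f : Module.End K V)
    (k : ℕ) : (cw m f : Module.End K (Fin m → V)) ^ k = cw m (f ^ k) := by
  induction k with
  | zero => rw [pow_zero, pow_zero]; rfl
  | succ k ih => rw [pow_succ, ih, pow_succ]; rfl

/-- explicit form of `(x + t)^(p-1)` -/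
private lemma cb_Tpow {V : Type} [AddCommGroup V] [Module K V] (x : Module.End K V)
    (hx : x ^ p = 0) (y : Fin p → V) (n : Fin p) :
    ((cw p x + tmul p V : Module.End K (Fin p → V)) ^ (p - 1)) y n =
      ((-x) ^ (p - 1 - n.1)) (∑ a : Fin p, ((-x) ^ a.1) (y a)) := by
  have hn := n.2
  have hxz : ∀ k, p ≤ k → (-x) ^ k = 0 := by
    intro k hk
    rw [neg_pow, show k = p + (k - p) by omega, pow_add x, hx, zero_mul, mul_zero]
  have hcomm : Commute (tmul p V : Module.End K (Fin p → V)) (cw p (-x)) :=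
    (LinearMap.ext fun y => cw_tmul p (-x) y : cw p (-x) * tmul p V = tmul p V * cw p (-x)).symm
  have e1 : (cw p x + tmul p V : Module.End K (Fin p → V)) = tmul p V - cw p (-x) := by
    refine LinearMap.ext fun y => funext fun n => ?_
    show x (y n) + tmul (K := K) p V y n = tmul (K := K) p V y n - (-x) (y n)
    rw [LinearMap.neg_apply]; abel
  let y' : ℕ → V := fun a => if h : a < p then y ⟨a, h⟩ else 0
  have hy' : ∀ a : Fin p, y' a.1 = y a := fun a => by
    simp only [y', a.2, dif_pos]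
  rw [e1, cb_sub_pow (K := K) hcomm, LinearMap.sum_apply, Finset.sum_apply, map_sum]
  -- left side
  have hL : ∀ i ∈ Finset.range p, (((tmul p V ^ i * (cw p (-x)) ^ (p - 1 - i) :
      Module.End K (Fin p → V))) y) n = if n.1 < i then 0 else
        ((-x) ^ (p - 1 - i)) (y' (n.1 - i)) := by
    intro i _
    rw [Module.End.mul_apply, tmul_pow_apply, cw_pow]
    by_cases h : n.1 < i
    · rw [dif_pos h, if_pos h]
    · rw [dif_neg h, if_neg h, cw_apply]
      congr 1
      have : n.1 - i < p := by omega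
      simp only [y', this, dif_pos]
  rw [Finset.sum_congr rfl hL]
  have hR : ∑ a : Fin p, ((-x) ^ (p - 1 - n.1)) (((-x) ^ a.1) (y a)) =
      ∑ a ∈ Finset.range p, ((-x) ^ (p - 1 - n.1 + a)) (y' a) := by
    rw [← Fin.sum_univ_eq_sum_range (fun a => ((-x) ^ (p - 1 - n.1 + a)) (y' a)) p]
    refine Finset.sum_congr rfl fun a _ => ?_
    rw [hy', pow_add]; rfl
  rw [hR]
  have hsub : Finset.range (n.1 + 1) ⊆ Finset.range p := Finset.range_subset_range.2 (by omega)
  rw [← Finset.sum_subset hsub, ← Finset.sum_subset hsub]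
  · rw [← Finset.sum_range_reflect]
    refine Finset.sum_congr rfl fun i hi => ?_
    have hi' : i < n.1 + 1 := Finset.mem_range.1 hi
    rw [if_neg (by omega)]
    have e2 : p - 1 - (n.1 + 1 - 1 - i) = p - 1 - n.1 + i := by omega
    have e3 : n.1 - (n.1 + 1 - 1 - i) = i := by omega
    rw [e2, e3]
  · intro a _ ha
    have ha' : ¬ a < n.1 + 1 := fun h => ha (Finset.mem_range.2 h)
    rw [hxz _ (by omega)]; rfl
  · intro i _ hi
    have hi' : ¬ i < n.1 + 1 := fun h => hi (Finset.mem_range.2 h)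
    rw [if_pos (by omega)]

/-- the rank of `(x+t)^(p-1) Q` on `V[t]/(t^p)` is the rank of `Q` -/
private lemma cb_rank {V : Type} [AddCommGroup V] [Module K V] [FiniteDimensional K V]
    (x Q : Module.End K V) (hx : x ^ p = 0) (hxQ : Commute x Q) :
    finrank K (LinearMap.range ((cw p x + tmul p V : Module.End K (Fin p → V)) ^ (p - 1) *
      cw p Q)) = finrank K (LinearMap.range Q) := by
  have hp : p.Prime := Fact.out
  let J : V →ₗ[K] (Fin p → V) := LinearMap.pi fun n : Fin p => (-x) ^ (p - 1 - n.1)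
  let D : (Fin p → V) →ₗ[K] V := ∑ a : Fin p, ((-x) ^ a.1) ∘ₗ LinearMap.proj a
  have hD : ∀ y, D y = ∑ a : Fin p, ((-x) ^ a.1) (y a) := by
    intro y
    simp only [D, LinearMap.sum_apply, LinearMap.comp_apply, LinearMap.proj_apply]
  have h1 : ((cw p x + tmul p V : Module.End K (Fin p → V)) ^ (p - 1) * cw p Q) =
      J ∘ₗ (Q ∘ₗ D) := by
    refine LinearMap.ext fun y => funext fun n => ?_
    rw [Module.End.mul_apply, cb_Tpow x hx]
    show _ = ((-x) ^ (p - 1 - n.1)) (Q (D y))
    congr 1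
    rw [hD, map_sum]
    refine Finset.sum_congr rfl fun a _ => ?_
    have hc : Commute ((-x) ^ a.1) Q := (hxQ.neg_left).pow_left _
    exact LinearMap.congr_fun hc.eq (y a)
  have hJ : Function.Injective J := by
    intro z z' h
    have h2 := congrFun h ⟨p - 1, by have := hp.one_lt; omega⟩
    have h3 : ∀ z, J z ⟨p - 1, by have := hp.one_lt; omega⟩ = z := by
      intro z
      show ((-x) ^ (p - 1 - (p - 1))) z = z
      rw [Nat.sub_self, pow_zero]; rfl
    rwa [h3, h3] at h2
  have hDs : LinearMap.range D = ⊤ := by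
    rw [LinearMap.range_eq_top]
    intro z
    refine ⟨Pi.single ⟨0, hp.pos⟩ z, ?_⟩
    rw [hD, Finset.sum_eq_single ⟨0, hp.pos⟩]
    · rw [Pi.single_eq_same, pow_zero]; rfl
    · intro a _ ha
      rw [Pi.single_eq_of_ne ha, map_zero]
    · intro h; exact absurd (Finset.mem_univ _) h
  rw [h1, LinearMap.range_comp, LinearMap.range_comp_of_range_eq_top _ hDs]
  exact (Submodule.equivMapOfInjective J hJ (LinearMap.range Q)).finrank_eq.symm

private lemma rank_Iws {m : ℕ} (v cs : Fin m → Fin r → K)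
    (hvc : ∀ i k, ∑ j, cs i j * v k j = if i = k then 1 else 0)
    (e : Fin r → K) (he : ∀ k, ∑ j, e j * v k j = 0) (n : ℕ) (Z : FRep K (Er p r)) :
    finrank K (LinearMap.range (acS (Iws (List.ofFn v) Z)
      ((∏ i, Ux p (cs i) ^ (p - 1)) * Ux p e ^ n))) =
      finrank K (LinearMap.range (uop e Z ^ n)) := by
  induction m with
  | zero =>
    have h1 : (∏ i : Fin 0, Ux p (cs i) ^ (p - 1)) * Ux p e ^ n = Ux p e ^ n := by simp
    have h2 : List.ofFn v = [] := by simp
    rw [h1, map_pow, acS_Ux, h2]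
    rfl
  | succ m ih =>
    have hl : List.ofFn v = v 0 :: List.ofFn (fun i : Fin m => v i.succ) := List.ofFn_succ
    set Y : FRep K (Er p r) := Iws (List.ofFn (fun i : Fin m => v i.succ)) Z with hY
    set q' : MonoidAlgebra K (Er p r) := (∏ i : Fin m, Ux p (cs i.succ) ^ (p - 1)) * Ux p e ^ n
      with hq'
    have hIH := ih (fun i => v i.succ) (fun i => cs i.succ)
      (fun i k => by rw [hvc]; simp) (fun k => he k.succ)
    have hIw : Iws (List.ofFn v) Z = Iw p le_rfl (v 0) Y := by rw [hl]; rfl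
    rw [hIw]
    have hprod : (∏ i, Ux p (cs i) ^ (p - 1)) * Ux p e ^ n = Ux p (cs 0) ^ (p - 1) * q' := by
      rw [Fin.prod_univ_succ, hq', mul_assoc]
    rw [hprod, map_mul, map_pow, acS_Ux]
    -- the action of `Ux c`
    have hcw : ∀ c : Fin r → K, ∑ j, c j * v 0 j = 0 →
        acS (Iw p le_rfl (v 0) Y) (Ux p c) = cw p (acS Y (Ux p c)) := by
      intro c hc
      have h : (cw p (uop c Y) + (∑ j, c j * v 0 j) • tmul p Y.V :
          Module.End K (Fin p → Y.V)) = cw p (uop c Y) := by rw [hc, zero_smul, add_zero]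
      rw [acS_Ux, acS_Ux]
      exact (uop_Iw p le_rfl c (v 0) Y).trans h
    let S : Submonoid (MonoidAlgebra K (Er p r)) :=
      { carrier := {s | acS (Iw p le_rfl (v 0) Y) s = cw p (acS Y s)}
        mul_mem' := by
          intro a b ha hb
          show acS (Iw p le_rfl (v 0) Y) (a * b) = cw p (acS Y (a * b))
          rw [map_mul, map_mul, ha, hb]
          rfl
        one_mem' := by
          show acS (Iw p le_rfl (v 0) Y) 1 = cw p (acS Y 1)
          rw [map_one, map_one]
          rfl }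
    have hq'S : q' ∈ S := by
      refine S.mul_mem (S.prod_mem fun i _ => S.pow_mem (hcw _ ?_) _) (S.pow_mem (hcw _ (he 0)) _)
      rw [hvc, if_neg (Fin.succ_ne_zero i)]
    have hq'' : acS (Iw p le_rfl (v 0) Y) q' = cw p (acS Y q') := hq'S
    have h0 : uop (cs 0) (Iw p le_rfl (v 0) Y) = cw p (uop (cs 0) Y) + tmul p Y.V := by
      rw [uop_Iw, hvc, if_pos rfl, one_smul]
    rw [hq'', h0]
    have hcomm : Commute (uop (cs 0) Y) (acS Y q') := by
      rw [← acS_Ux]
      exact (Commute.all _ _).map _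
    exact (cb_rank (uop (cs 0) Y) (acS Y q') (uop_pow _ _) hcomm).trans hIH

private lemma card_Er : Fintype.card (Er p r) = p ^ r := by
  rw [Fintype.card_multiplicative, Fintype.card_pi_const, ZMod.card]

/-- dual families -/
private lemma cb_dual {n : ℕ} (v : Fin n → Fin n → K) (hv : LinearIndependent K v) :
    ∃ cs : Fin n → Fin n → K, LinearIndependent K cs ∧
      ∀ i k, ∑ j, cs i j * v k j = if i = k then 1 else 0 := by
  have h1 : IsUnit (Matrix.of v) := by
    rw [← Matrix.linearIndependent_rows_iff_isUnit]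
    exact hv
  have hdet : IsUnit (Matrix.of v).det := (Matrix.isUnit_iff_isUnit_det _).1 h1
  refine ⟨fun i j => (Matrix.of v)⁻¹ j i, ?_, ?_⟩
  · have h2 : IsUnit ((Matrix.of v)⁻¹).transpose := by
      rw [Matrix.isUnit_transpose]
      exact (Matrix.isUnit_nonsing_inv_iff).2 h1
    rw [← Matrix.linearIndependent_rows_iff_isUnit] at h2
    exact h2
  · intro i k
    have h3 : (Matrix.of v * (Matrix.of v)⁻¹) k i = (1 : Matrix (Fin n) (Fin n) K) k i := by
      rw [Matrix.mul_nonsing_inv _ hdet]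
    rw [Matrix.mul_apply, Matrix.one_apply] at h3
    have h4 : ∑ j, (Matrix.of v)⁻¹ j i * v k j = ∑ j, (Matrix.of v) k j * (Matrix.of v)⁻¹ j i :=
      Finset.sum_congr rfl fun j _ => mul_comm _ _
    rw [h4, h3]
    by_cases h : i = k
    · rw [if_pos h, if_pos h.symm]
    · rw [if_neg h, if_neg (fun h' => h h'.symm)]

/-- `I_{v_0} … I_{v_{r-1}} Z` is free for a basis -/
theorem cc_Iws_basis (v : Fin r → Fin r → K) (hv : LinearIndependent K v) (Z : FRep K (Er p r)) :
    cc (Iws (List.ofFn v) Z) = 0 := by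
  obtain ⟨cs, hcs, hvc⟩ := cb_dual v hv
  obtain ⟨a, ha, hnrm⟩ := nrm_eq_acS (p := p) cs hcs
  have h1 := rank_Iws (p := p) v cs hvc 0 (fun k => by simp) 0 Z
  rw [pow_zero, mul_one, pow_zero] at h1
  have h2 : finrank K (LinearMap.range (1 : Module.End K Z.V)) = finrank K Z.V := by
    have : LinearMap.range (1 : Module.End K Z.V) = ⊤ := LinearMap.range_id
    rw [this, finrank_top]
  rw [cc, hnrm, LinearMap.range_smul _ _ ha, h1, h2, finrank_Iws, List.length_ofFn, card_Er,
    Nat.sub_self]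

/-- one vector less than a basis -/
theorem cc_Iws_corank1 {r' : ℕ} (v : Fin r' → Fin (r' + 1) → K) (hv : LinearIndependent K v) :
    ∃ c : Fin (r' + 1) → K, c ≠ 0 ∧ (∀ i, ∑ j, c j * v i j = 0) ∧
      ∀ Z : FRep K (Er p (r' + 1)), cc (Iws (List.ofFn v) Z) ≤ p ^ r' * kap c Z := by
  have hex : ∃ x : Fin (r' + 1) → K, x ∉ Submodule.span K (Set.range v) := by
    by_contra hcon
    push Not at hcon
    have h1 : Submodule.span K (Set.range v) = ⊤ := by
      rw [Submodule.eq_top_iff']
      exact hcon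
    have h2 : finrank K (Submodule.span K (Set.range v)) = r' := by
      rw [finrank_span_eq_card hv, Fintype.card_fin]
    rw [h1, finrank_top, Module.finrank_fin_fun] at h2
    omega
  obtain ⟨x, hx⟩ := hex
  have hv' : LinearIndependent K (Fin.cons x v : Fin (r' + 1) → Fin (r' + 1) → K) :=
    linearIndependent_finCons.2 ⟨hv, hx⟩
  obtain ⟨cs, hcs, hvc⟩ := cb_dual _ hv'
  obtain ⟨a, ha, hnrm⟩ := nrm_eq_acS (p := p) cs hcs
  have hc0 : ∀ i, ∑ j, cs 0 j * v i j = 0 := by
    intro i
    have := hvc 0 i.succ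
    rw [Fin.cons_succ, if_neg (Fin.succ_ne_zero i).symm] at this
    exact this
  refine ⟨cs 0, hcs.ne_zero 0, hc0, fun Z => ?_⟩
  have h1 := rank_Iws (p := p) v (fun i => cs i.succ) (fun i k => by
    have := hvc i.succ k.succ
    rw [Fin.cons_succ] at this
    rw [this]
    simp) (cs 0) hc0 (p - 1) Z
  have h2 : ∏ i, Ux p (cs i) ^ (p - 1) =
      (∏ i : Fin r', Ux p (cs i.succ) ^ (p - 1)) * Ux p (cs 0) ^ (p - 1) := by
    rw [Fin.prod_univ_succ, mul_comm]
  rw [cc, hnrm, LinearMap.range_smul _ _ ha, h2, h1, finrank_Iws, List.length_ofFn, card_Er, kap,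
    Nat.mul_sub, pow_succ, mul_assoc]

/-! ### `kap` -/

/-- `kap` is subadditive -/
theorem kap_ses (c : Fin r → K) {A B C : FRep K (Er p r)} (S : SES A B C) :
    kap c B ≤ kap c A + kap c C := by
  set N := p - 1 with hN
  -- the dimension of the middle term
  have hexact : LinearMap.ker S.p.1 = LinearMap.range S.i.1 := by
    ext b
    constructor
    · intro hb
      exact ⟨S.r b, S.exact_mem hb⟩
    · rintro ⟨a, rfl⟩
      exact S.pi a
  have hdim : finrank K B.V = finrank K A.V + finrank K C.V := by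
    have h1 := LinearMap.finrank_range_add_finrank_ker S.p.1
    rw [hexact, LinearMap.finrank_range_of_inj S.i_injective,
      LinearMap.range_eq_top.2 S.p_surjective, finrank_top] at h1
    omega
  -- ranks
  set RB := LinearMap.range (uop c B ^ N) with hRB
  set f : RB →ₗ[K] C.V := S.p.1.domRestrict RB with hf
  have hrange : LinearMap.range f = LinearMap.range (uop c C ^ N) := by
    ext z
    constructor
    · rintro ⟨⟨b, ⟨b', rfl⟩⟩, rfl⟩
      refine ⟨S.p.1 b', ?_⟩
      show (uop c C ^ N) (S.p.1 b') = S.p.1 ((uop c B ^ N) b')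
      rw [EHom.map_uop_pow]
    · rintro ⟨z', rfl⟩
      obtain ⟨b', rfl⟩ := S.p_surjective z'
      refine ⟨⟨(uop c B ^ N) b', ⟨b', rfl⟩⟩, ?_⟩
      show S.p.1 ((uop c B ^ N) b') = (uop c C ^ N) (S.p.1 b')
      rw [EHom.map_uop_pow]
  have hker : finrank K (LinearMap.range (uop c A ^ N)) ≤ finrank K (LinearMap.ker f) := by
    have hmem : ∀ a : LinearMap.range (uop c A ^ N), S.i.1 a.1 ∈ RB := by
      rintro ⟨_, ⟨a', rfl⟩⟩
      exact ⟨S.i.1 a', (EHom.map_uop_pow S.i c N a').symm⟩
    let g : LinearMap.range (uop c A ^ N) →ₗ[K] RB :=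
      (S.i.1.domRestrict (LinearMap.range (uop c A ^ N))).codRestrict RB hmem
    have hg : ∀ a, g a ∈ LinearMap.ker f := by
      intro a
      show S.p.1 (S.i.1 a.1) = 0
      exact S.pi _
    let g' : LinearMap.range (uop c A ^ N) →ₗ[K] LinearMap.ker f := g.codRestrict _ hg
    refine LinearMap.finrank_le_finrank_of_injective (f := g') ?_
    intro a a' h
    have h2 : S.i.1 a.1 = S.i.1 a'.1 := congrArg (fun z => ((z : LinearMap.ker f) : RB).1) h
    exact Subtype.ext (S.i_injective h2)
  have hrank := LinearMap.finrank_range_add_finrank_ker f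
  rw [hrange] at hrank
  unfold kap
  rw [← hN, ← hRB, hdim]
  have h3 : finrank K (LinearMap.range (uop c A ^ N)) + finrank K (LinearMap.range (uop c C ^ N)) ≤
      finrank K RB := by omega
  have h4 := Nat.mul_le_mul_left p h3
  rw [mul_add] at h4
  omega

theorem kap_iso (c : Fin r → K) {A B : FRep K (Er p r)} (h : Iso A B) : kap c A = kap c B := by
  obtain ⟨f, hf⟩ := h
  let e : A.V ≃ₗ[K] B.V := LinearEquiv.ofBijective f.1 hf
  have h1 : finrank K A.V = finrank K B.V := e.finrank_eq
  have h2 : LinearMap.range (uop c B ^ (p - 1)) =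
      (LinearMap.range (uop c A ^ (p - 1))).map (e : A.V →ₗ[K] B.V) := by
    ext z
    constructor
    · rintro ⟨b, rfl⟩
      obtain ⟨a, rfl⟩ := hf.2 b
      exact ⟨(uop c A ^ (p - 1)) a, ⟨a, rfl⟩, EHom.map_uop_pow f c _ a⟩
    · rintro ⟨_, ⟨a, rfl⟩, rfl⟩
      exact ⟨f.1 a, (EHom.map_uop_pow f c _ a).symm⟩
  unfold kap
  rw [h1, h2]
  congr 2
  exact (LinearEquiv.finrank_map_eq e _).symm

end Pool.Agent.H34.Gam

end
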