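import Mathlib

/-!
Action of a polynomial ring through a commuting family of endomorphisms.
-/

set_option autoImplicit false

noncomputable section

namespace Pool.Agent.H34.Gam

variable {K : Type} [Field K]

/-- Action of `MvPolynomial ι K` through a commuting family of endomorphisms. -/
def cact {ι M : Type} [AddCommGroup M] [Module K M] (B : ι → Module.End K M)
    (hB : ∀ i j, B i * B j = B j * B i) : MvPolynomial ι K →ₐ[K] Module.End K M :=
  letI : CommRing (Algebra.adjoin K (Set.range B)) :=
    Algebra.adjoinCommRingOfComm K (by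
      rintro _ ⟨i, rfl⟩ _ ⟨j, rfl⟩
      exact hB i j)
  (Algebra.adjoin K (Set.range B)).val.comp
    (MvPolynomial.aeval (fun i => (⟨B i, Algebra.subset_adjoin ⟨i, rfl⟩⟩ :
      Algebra.adjoin K (Set.range B))))

@[simp] lemma cact_X {ι M : Type} [AddCommGroup M] [Module K M] (B : ι → Module.End K M)
    (hB : ∀ i j, B i * B j = B j * B i) (i : ι) : cact B hB (MvPolynomial.X i) = B i := by
  simp [cact]

@[simp] lemma cact_C {ι M : Type} [AddCommGroup M] [Module K M] (B : ι → Module.End K M)
    (hB : ∀ i j, B i * B j = B j * B i) (c : K) : cact B hB (MvPolynomial.C c) = c • 1 := by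
  rw [← MvPolynomial.algebraMap_eq, AlgHom.commutes, Algebra.algebraMap_eq_smul_one]

/-- intertwining maps commute with the action -/
lemma cact_comm {ι M M' : Type} [AddCommGroup M] [Module K M] [AddCommGroup M'] [Module K M']
    (B : ι → Module.End K M) (hB : ∀ i j, B i * B j = B j * B i)
    (B' : ι → Module.End K M') (hB' : ∀ i j, B' i * B' j = B' j * B' i)
    (Φ : M →ₗ[K] M') (hΦ : ∀ i x, Φ (B i x) = B' i (Φ x)) (q : MvPolynomial ι K) (x : M) :
    Φ (cact B hB q x) = cact B' hB' q (Φ x) := by
  induction q using MvPolynomial.induction_on generalizing x with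
  | C a => rw [cact_C, cact_C]; simp
  | add p q hp hq => rw [map_add, map_add, LinearMap.add_apply, LinearMap.add_apply, map_add, hp, hq]
  | mul_X p i hp =>
    rw [map_mul, map_mul, cact_X, cact_X, Module.End.mul_apply, Module.End.mul_apply, hp, hΦ]

/-- the action restricted along an algebra map given by linear combinations -/
lemma cact_unique {ι M : Type} [AddCommGroup M] [Module K M]
    (B : ι → Module.End K M) (hB : ∀ i j, B i * B j = B j * B i)
    (φ : MvPolynomial ι K →ₐ[K] Module.End K M) (h : ∀ i, φ (MvPolynomial.X i) = B i) :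
    φ = cact B hB := by
  apply MvPolynomial.algHom_ext
  intro i
  rw [h, cact_X]

end Pool.Agent.H34.Gam

end
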