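import Mathlib

/-!
Numerical growth lemmas.  (job GAM-NUM)
-/

set_option autoImplicit false

namespace Pool.Agent.H34.Gam

/-- `f` grows at most like `B * a^z` (up to ε, eventually) -/
def GrowthLE (f : ℕ → ℕ) (B : ℝ) (z : ℕ) : Prop :=
  ∀ ε : ℝ, 0 < ε → ∃ a₀ : ℕ, ∀ a : ℕ, a₀ ≤ a → (f a : ℝ) ≤ (B + ε) * ((a : ℝ) + 1) ^ z

theorem GrowthLE.mono {f g : ℕ → ℕ} {B C : ℝ} {z : ℕ} (h : GrowthLE g B z) (hBC : B ≤ C)
    (hfg : ∀ a, f a ≤ g a) : GrowthLE f C z := by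
  intro ε hε
  obtain ⟨a₀, ha₀⟩ := h ε hε
  refine ⟨a₀, fun a ha => ?_⟩
  calc (f a : ℝ) ≤ g a := by exact_mod_cast hfg a
    _ ≤ (B + ε) * ((a : ℝ) + 1) ^ z := ha₀ a ha
    _ ≤ (C + ε) * ((a : ℝ) + 1) ^ z := by gcongr

theorem GrowthLE.shift {f : ℕ → ℕ} {B : ℝ} {z : ℕ} (hB : 0 ≤ B) (h : GrowthLE f B z) (n : ℕ) :
    GrowthLE (fun a => f (a + n)) B z := by
  intro ε hε
  obtain ⟨a₀, ha₀⟩ := h (ε / 2) (half_pos hε)
  have hlim : Filter.Tendsto (fun a : ℕ => (1 : ℝ) + (n : ℝ) * (1 / ((a : ℝ) + 1)))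
      Filter.atTop (nhds (1 + (n : ℝ) * 0)) :=
    (tendsto_const_nhds).add (tendsto_one_div_add_atTop_nhds_zero_nat.const_mul _)
  have hlim2 : Filter.Tendsto
      (fun a : ℕ => (B + ε / 2) * ((1 : ℝ) + (n : ℝ) * (1 / ((a : ℝ) + 1))) ^ z)
      Filter.atTop (nhds ((B + ε / 2) * (1 + (n : ℝ) * 0) ^ z)) :=
    (hlim.pow z).const_mul _
  have hlt : (B + ε / 2) * (1 + (n : ℝ) * 0) ^ z < B + ε := by
    simp only [mul_zero, add_zero, one_pow, mul_one]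
    linarith
  obtain ⟨a₁, ha₁⟩ := Filter.eventually_atTop.1 (hlim2.eventually (gt_mem_nhds hlt))
  refine ⟨max a₀ a₁, fun a ha => ?_⟩
  have h0 : a₀ ≤ a := le_trans (le_max_left _ _) ha
  have h1 : a₁ ≤ a := le_trans (le_max_right _ _) ha
  have h2 := ha₀ (a + n) (le_trans h0 (Nat.le_add_right a n))
  have h3 := ha₁ a h1
  have hpos : (0 : ℝ) < (a : ℝ) + 1 := by positivity
  have heq : (((a + n : ℕ) : ℝ) + 1) = ((1 : ℝ) + (n : ℝ) * (1 / ((a : ℝ) + 1))) * ((a : ℝ) + 1) := by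
    push_cast
    field_simp
    ring
  calc (f (a + n) : ℝ) ≤ (B + ε / 2) * (((a + n : ℕ) : ℝ) + 1) ^ z := h2
    _ = ((B + ε / 2) * ((1 : ℝ) + (n : ℝ) * (1 / ((a : ℝ) + 1))) ^ z) * ((a : ℝ) + 1) ^ z := by
        rw [heq, mul_pow]; ring
    _ ≤ (B + ε) * ((a : ℝ) + 1) ^ z :=
        mul_le_mul_of_nonneg_right h3.le (by positivity)

theorem GrowthLE.add {f g : ℕ → ℕ} {B C : ℝ} {z : ℕ} (h : GrowthLE f B z) (h' : GrowthLE g C z) :
    GrowthLE (fun a => f a + g a) (B + C) z := by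
  intro ε hε
  obtain ⟨a₀, ha₀⟩ := h (ε / 2) (half_pos hε)
  obtain ⟨a₁, ha₁⟩ := h' (ε / 2) (half_pos hε)
  refine ⟨max a₀ a₁, fun a ha => ?_⟩
  have h0 := ha₀ a (le_trans (le_max_left _ _) ha)
  have h1 := ha₁ a (le_trans (le_max_right _ _) ha)
  push_cast
  calc (f a : ℝ) + g a ≤ (B + ε / 2) * ((a : ℝ) + 1) ^ z + (C + ε / 2) * ((a : ℝ) + 1) ^ z :=
        add_le_add h0 h1
    _ = (B + C + ε) * ((a : ℝ) + 1) ^ z := by ring

theorem GrowthLE.nsmul {f : ℕ → ℕ} {B : ℝ} {z : ℕ} (h : GrowthLE f B z) (c : ℕ) :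
    GrowthLE (fun a => c * f a) (c * B) z := by
  intro ε hε
  have hc : (0 : ℝ) < (c : ℝ) + 1 := by positivity
  obtain ⟨a₀, ha₀⟩ := h (ε / ((c : ℝ) + 1)) (div_pos hε hc)
  refine ⟨a₀, fun a ha => ?_⟩
  have h0 := ha₀ a ha
  have h1 : (c : ℝ) * (ε / ((c : ℝ) + 1)) ≤ ε := by
    rw [mul_div_assoc', div_le_iff₀ hc]
    nlinarith
  push_cast
  calc (c : ℝ) * f a ≤ c * ((B + ε / ((c : ℝ) + 1)) * ((a : ℝ) + 1) ^ z) := by gcongr
    _ = (c * B + c * (ε / ((c : ℝ) + 1))) * ((a : ℝ) + 1) ^ z := by ring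
    _ ≤ (c * B + ε) * ((a : ℝ) + 1) ^ z := by gcongr

/-- bounded functions -/
theorem GrowthLE.of_le {f : ℕ → ℕ} {B : ℕ} (h : ∀ a, f a ≤ B) : GrowthLE f B 0 := by
  intro ε hε
  refine ⟨0, fun a _ => ?_⟩
  have : (f a : ℝ) ≤ B := by exact_mod_cast h a
  simp only [pow_zero, mul_one]
  linarith

/-- one more degree of growth -/
theorem GrowthLE.step {f e : ℕ → ℕ} {B : ℝ} {z : ℕ} (hB : 0 ≤ B)
    (hf : ∀ a, f (a + 2) ≤ f a + e (a + 1) + e (a + 2)) (h : GrowthLE e B z) :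
    GrowthLE f B (z + 1) := by
  intro ε hε
  obtain ⟨a₀, ha₀⟩ := h (ε / 2) (half_pos hε)
  set K : ℝ := (f a₀ : ℝ) + f (a₀ + 1) with hK
  have hK0 : 0 ≤ K := by positivity
  have hBe : 0 ≤ B + ε / 2 := by positivity
  have key : ∀ j : ℕ, (f (a₀ + j) : ℝ) ≤ K + (B + ε / 2) * (((a₀ + j : ℕ) : ℝ) + 1) ^ (z + 1) ∧
      (f (a₀ + j + 1) : ℝ) ≤ K + (B + ε / 2) * (((a₀ + j + 1 : ℕ) : ℝ) + 1) ^ (z + 1) := by
    intro j
    induction j with
    | zero =>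
      have h1 : 0 ≤ (B + ε / 2) * (((a₀ + 0 : ℕ) : ℝ) + 1) ^ (z + 1) := by positivity
      have h2 : 0 ≤ (B + ε / 2) * (((a₀ + 0 + 1 : ℕ) : ℝ) + 1) ^ (z + 1) := by positivity
      have h3 : (0 : ℝ) ≤ f a₀ := by positivity
      have h4 : (0 : ℝ) ≤ f (a₀ + 1) := by positivity
      constructor
      · have : (f (a₀ + 0) : ℝ) = f a₀ := by simp
        rw [this]
        linarith
      · have : (f (a₀ + 0 + 1) : ℝ) = f (a₀ + 1) := by simp
        rw [this]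
        linarith
    | succ j ih =>
      refine ⟨ih.2, ?_⟩
      have e1 := ha₀ (a₀ + j + 1) (by omega)
      have e2 := ha₀ (a₀ + j + 2) (by omega)
      have hfj : (f (a₀ + j + 2) : ℝ) ≤ f (a₀ + j) + e (a₀ + j + 1) + e (a₀ + j + 2) := by
        exact_mod_cast hf (a₀ + j)
      have hshape : a₀ + (j + 1) + 1 = a₀ + j + 2 := by ring
      rw [hshape]
      set x : ℝ := ((a₀ + j : ℕ) : ℝ) with hx
      have hx0 : 0 ≤ x := by positivity
      have hx1 : ((a₀ + j + 1 : ℕ) : ℝ) = x + 1 := by push_cast [hx]; ring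
      have hx2 : ((a₀ + j + 2 : ℕ) : ℝ) = x + 2 := by push_cast [hx]; ring
      rw [hx1] at e1
      rw [hx2] at e2
      rw [hx2]
      have p1 : (x + 1) ^ z ≤ (x + 2 + 1) ^ z := by
        apply pow_le_pow_left₀ (by positivity); linarith
      have p2 : (x + 1 + 1) ^ z ≤ (x + 2 + 1) ^ z := by
        apply pow_le_pow_left₀ (by positivity); linarith
      have p3 : (x + 1) ^ (z + 1) + (x + 1 + 1) ^ z + (x + 2 + 1) ^ z ≤ (x + 2 + 1) ^ (z + 1) := by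
        have q1 : (x + 1) ^ (z + 1) ≤ (x + 2 + 1) ^ z * (x + 1) := by
          rw [pow_succ]; gcongr
        have q2 : (x + 2 + 1) ^ (z + 1) = (x + 2 + 1) ^ z * (x + 1) + (x + 2 + 1) ^ z
            + (x + 2 + 1) ^ z := by
          rw [pow_succ]; ring
        rw [q2]
        linarith
      calc (f (a₀ + j + 2) : ℝ) ≤ f (a₀ + j) + e (a₀ + j + 1) + e (a₀ + j + 2) := hfj
        _ ≤ (K + (B + ε / 2) * (x + 1) ^ (z + 1)) + (B + ε / 2) * (x + 1 + 1) ^ z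
            + (B + ε / 2) * (x + 2 + 1) ^ z := add_le_add (add_le_add ih.1 e1) e2
        _ = K + (B + ε / 2) * ((x + 1) ^ (z + 1) + (x + 1 + 1) ^ z + (x + 2 + 1) ^ z) := by ring
        _ ≤ K + (B + ε / 2) * (x + 2 + 1) ^ (z + 1) := by gcongr
  obtain ⟨a₁, ha₁⟩ := exists_nat_ge (K / (ε / 2))
  refine ⟨max a₀ a₁, fun a ha => ?_⟩
  have h0 : a₀ ≤ a := le_trans (le_max_left _ _) ha
  have h1 : a₁ ≤ a := le_trans (le_max_right _ _) ha
  obtain ⟨j, rfl⟩ := Nat.exists_eq_add_of_le h0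
  have hk := (key j).1
  have hKa : K ≤ (ε / 2) * (((a₀ + j : ℕ) : ℝ) + 1) ^ (z + 1) := by
    have s1 : K ≤ (ε / 2) * (a₁ : ℝ) := by
      rw [div_le_iff₀ (half_pos hε)] at ha₁
      linarith
    have s2 : (a₁ : ℝ) ≤ ((a₀ + j : ℕ) : ℝ) := by exact_mod_cast h1
    have s3 : (((a₀ + j : ℕ) : ℝ) + 1) ≤ (((a₀ + j : ℕ) : ℝ) + 1) ^ (z + 1) := by
      apply le_self_pow₀
      · have : (0 : ℝ) ≤ ((a₀ + j : ℕ) : ℝ) := by positivity
        linarith
      · omega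
    calc K ≤ (ε / 2) * (a₁ : ℝ) := s1
      _ ≤ (ε / 2) * (((a₀ + j : ℕ) : ℝ) + 1) ^ (z + 1) := by
        gcongr
        linarith
  calc (f (a₀ + j) : ℝ) ≤ K + (B + ε / 2) * (((a₀ + j : ℕ) : ℝ) + 1) ^ (z + 1) := hk
    _ ≤ (ε / 2) * (((a₀ + j : ℕ) : ℝ) + 1) ^ (z + 1)
        + (B + ε / 2) * (((a₀ + j : ℕ) : ℝ) + 1) ^ (z + 1) := by gcongr
    _ = (B + ε) * (((a₀ + j : ℕ) : ℝ) + 1) ^ (z + 1) := by ring

theorem GrowthLE.bounded {f : ℕ → ℕ} {B : ℝ} {z : ℕ} (h : GrowthLE f B z) :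
    ∃ D : ℕ, ∀ a, f a ≤ D * (a + 1) ^ z := by
  obtain ⟨a₀, ha₀⟩ := h 1 one_pos
  refine ⟨⌈B + 1⌉₊ + ∑ i ∈ Finset.range a₀, f i, fun a => ?_⟩
  have hp : 1 ≤ (a + 1) ^ z := Nat.one_le_pow _ _ (Nat.succ_pos a)
  rcases Nat.lt_or_ge a a₀ with hlt | hge
  · have h1 : f a ≤ ∑ i ∈ Finset.range a₀, f i :=
      Finset.single_le_sum (f := f) (fun i _ => Nat.zero_le _) (Finset.mem_range.2 hlt)
    calc f a ≤ ∑ i ∈ Finset.range a₀, f i := h1
      _ ≤ ⌈B + 1⌉₊ + ∑ i ∈ Finset.range a₀, f i := Nat.le_add_left _ _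
      _ ≤ (⌈B + 1⌉₊ + ∑ i ∈ Finset.range a₀, f i) * (a + 1) ^ z := Nat.le_mul_of_pos_right _ hp
  · have h1 := ha₀ a hge
    have h2 : (f a : ℝ) ≤ ((⌈B + 1⌉₊ * (a + 1) ^ z : ℕ) : ℝ) := by
      push_cast
      refine h1.trans ?_
      gcongr
      exact Nat.le_ceil _
    have h3 : f a ≤ ⌈B + 1⌉₊ * (a + 1) ^ z := by exact_mod_cast h2
    refine h3.trans ?_
    gcongr
    exact Nat.le_add_right _ _

/-- polynomials are dominated by exponentials -/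
lemma num_poly_le_exp (D s : ℕ) (δ : ℝ) (hδ : 0 < δ) :
    ∃ D' : ℝ, 0 ≤ D' ∧ ∀ a : ℕ, (D : ℝ) * ((a : ℝ) + 1) ^ s ≤ D' * (1 + δ) ^ a := by
  have hr : (1 : ℝ) < 1 + δ := by linarith
  have hlim := tendsto_pow_const_div_const_pow_of_one_lt s hr
  obtain ⟨M, hM⟩ := hlim.bddAbove_range
  have hM' : ∀ a : ℕ, ((a : ℝ) ^ s) ≤ M * (1 + δ) ^ a := by
    intro a
    have h1 : ((a : ℝ) ^ s) / (1 + δ) ^ a ≤ M := hM ⟨a, rfl⟩
    rwa [div_le_iff₀ (by positivity)] at h1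
  have hM0 : 0 ≤ M := by
    have h1 := hM' 1
    have h2 : (0 : ℝ) ≤ M * (1 + δ) ^ 1 := le_trans (by positivity) h1
    exact nonneg_of_mul_nonneg_left h2 (by positivity)
  refine ⟨(D : ℝ) * (M * (1 + δ)), by positivity, fun a => ?_⟩
  have h1 := hM' (a + 1)
  push_cast at h1
  calc (D : ℝ) * ((a : ℝ) + 1) ^ s ≤ (D : ℝ) * (M * (1 + δ) ^ (a + 1)) := by gcongr
    _ = (D : ℝ) * (M * (1 + δ)) * (1 + δ) ^ a := by rw [pow_succ]; ring

/-- The final recursion. `f k a` plays the role of `h^a(M^{⊗k}, A)`, `t k a` of `h^a(M^{⊗k}, T')`.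
For every `m ≥ 1` there are finitely many shifts `e` (at most `C g^m` of them) and a function `t`
with growth rate `g` such that `f (k+m) a ≤ t k a + ∑ i, f k (a + e i)`.
Then `f` has growth rate `g`. -/
theorem recursion (f : ℕ → ℕ → ℕ) (g C : ℝ) (hg : 0 ≤ g) (hC : 0 ≤ C)
    (hpoly : ∀ k, ∃ D s : ℕ, ∀ a, f k a ≤ D * (a + 1) ^ s)
    (hrec : ∀ m : ℕ, 1 ≤ m → ∃ (N : ℕ) (e : Fin N → ℕ) (t : ℕ → ℕ → ℕ), (N : ℝ) ≤ C * g ^ m ∧
      (∀ ε : ℝ, 0 < ε → ∃ C' : ℝ, ∀ k a : ℕ, (t k a : ℝ) ≤ C' * (g + ε) ^ k * (1 + ε) ^ a) ∧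
      ∀ k a : ℕ, f (k + m) a ≤ t k a + ∑ i, f k (a + e i)) :
    ∀ ε : ℝ, 0 < ε → ∃ C' : ℝ, ∀ k a : ℕ, (f k a : ℝ) ≤ C' * (g + ε) ^ k * (1 + ε) ^ a := by
  intro ε hε
  set q : ℝ := g + ε / 2 with hq
  have hq0 : 0 < q := by positivity
  set r : ℝ := g + ε with hr
  have hr0 : 0 < r := by positivity
  have hqr : q < r := by rw [hq, hr]; linarith
  have hgq : g < q := by rw [hq]; linarith
  -- choose m
  obtain ⟨m, hm1, hm⟩ : ∃ m : ℕ, 1 ≤ m ∧ 2 * (C * g ^ m) ≤ q ^ m := by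
    rcases hg.eq_or_lt with h0 | hgpos
    · refine ⟨1, le_rfl, ?_⟩
      rw [← h0]
      simp only [pow_one, mul_zero]
      exact hq0.le
    · have h1 : 1 < q / g := (one_lt_div hgpos).2 hgq
      obtain ⟨m, hm⟩ := pow_unbounded_of_one_lt (2 * C) h1
      refine ⟨m + 1, by omega, ?_⟩
      have h2 : 2 * C ≤ (q / g) ^ (m + 1) := by
        refine hm.le.trans ?_
        exact pow_le_pow_right₀ h1.le (Nat.le_succ m)
      rw [div_pow, le_div_iff₀ (by positivity)] at h2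
      linarith
  obtain ⟨N, e, t, hN, ht, hf⟩ := hrec m hm1
  set E : ℕ := ∑ i, e i with hE
  have heE : ∀ i, e i ≤ E := fun i =>
    Finset.single_le_sum (f := e) (fun i _ => Nat.zero_le _) (Finset.mem_univ i)
  set δ : ℝ := min (ε / 2) (Real.log 2 / ((E : ℝ) + 1)) with hδdef
  have hδ : 0 < δ := by
    apply lt_min (half_pos hε)
    exact div_pos (Real.log_pos one_lt_two) (by positivity)
  have hδε : δ ≤ ε / 2 := min_le_left _ _
  have hδE : (1 + δ) ^ E ≤ 2 := by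
    have h1 : 1 + δ ≤ Real.exp δ := by
      have := Real.add_one_le_exp δ
      linarith
    have h2 : (E : ℝ) * δ ≤ Real.log 2 := by
      have h3 : δ ≤ Real.log 2 / ((E : ℝ) + 1) := min_le_right _ _
      rw [le_div_iff₀ (by positivity)] at h3
      nlinarith
    calc (1 + δ) ^ E ≤ (Real.exp δ) ^ E := by gcongr
      _ = Real.exp ((E : ℝ) * δ) := by rw [← Real.exp_nat_mul]
      _ ≤ Real.exp (Real.log 2) := Real.exp_le_exp.2 h2
      _ = 2 := Real.exp_log two_pos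
  obtain ⟨C1, hC1⟩ := ht δ hδ
  -- the base constants
  have hbase : ∀ k : ℕ, ∃ D' : ℝ, 0 ≤ D' ∧ ∀ a : ℕ, (f k a : ℝ) ≤ D' * (1 + δ) ^ a := by
    intro k
    obtain ⟨D, s, hD⟩ := hpoly k
    obtain ⟨D', hD'0, hD'⟩ := num_poly_le_exp D s δ hδ
    refine ⟨D', hD'0, fun a => ?_⟩
    refine le_trans ?_ (hD' a)
    exact_mod_cast hD a
  choose D' hD'0 hD' using hbase
  have hrm : q ^ m < r ^ m := pow_lt_pow_left₀ hqr hq0.le (by omega)
  have hrm0 : 0 < r ^ m - q ^ m := by linarith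
  set K : ℝ := |C1| / (r ^ m - q ^ m) + ∑ k ∈ Finset.range m, D' k / r ^ k with hK
  have hsum0 : 0 ≤ ∑ k ∈ Finset.range m, D' k / r ^ k :=
    Finset.sum_nonneg fun k _ => div_nonneg (hD'0 k) (by positivity)
  have hK0 : 0 ≤ K := by
    have : 0 ≤ |C1| / (r ^ m - q ^ m) := div_nonneg (abs_nonneg _) hrm0.le
    rw [hK]; linarith
  have hKC : |C1| ≤ K * (r ^ m - q ^ m) := by
    have h1 : |C1| / (r ^ m - q ^ m) ≤ K := by rw [hK]; linarith
    rwa [div_le_iff₀ hrm0] at h1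
  have hKD : ∀ k, k < m → D' k ≤ K * r ^ k := by
    intro k hk
    have h1 : D' k / r ^ k ≤ ∑ k ∈ Finset.range m, D' k / r ^ k :=
      Finset.single_le_sum (f := fun k => D' k / r ^ k)
        (fun k _ => div_nonneg (hD'0 k) (by positivity)) (Finset.mem_range.2 hk)
    have h2 : 0 ≤ |C1| / (r ^ m - q ^ m) := div_nonneg (abs_nonneg _) hrm0.le
    have h3 : D' k / r ^ k ≤ K := by rw [hK]; linarith
    rwa [div_le_iff₀ (by positivity)] at h3
  have main : ∀ k : ℕ, ∀ a : ℕ, (f k a : ℝ) ≤ K * r ^ k * (1 + δ) ^ a := by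
    intro k
    induction k using Nat.strong_induction_on with
    | _ k ih =>
      intro a
      rcases Nat.lt_or_ge k m with hlt | hge
      · refine (hD' k a).trans ?_
        gcongr
        exact hKD k hlt
      · obtain ⟨j, rfl⟩ := Nat.exists_eq_add_of_le' hge
        have hj : j < j + m := by omega
        have h1 : (f (j + m) a : ℝ) ≤ t j a + ∑ i, (f j (a + e i) : ℝ) := by
          exact_mod_cast hf j a
        have h2 : (t j a : ℝ) ≤ |C1| * q ^ j * (1 + δ) ^ a := by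
          refine (hC1 j a).trans ?_
          have h3 : g + δ ≤ q := by rw [hq]; linarith
          have h4 : C1 ≤ |C1| := le_abs_self C1
          have h5 : 0 ≤ g + δ := by positivity
          calc C1 * (g + δ) ^ j * (1 + δ) ^ a ≤ |C1| * (g + δ) ^ j * (1 + δ) ^ a := by gcongr
            _ ≤ |C1| * q ^ j * (1 + δ) ^ a := by gcongr
        have h3 : ∑ i, (f j (a + e i) : ℝ) ≤ ∑ _i : Fin N, K * r ^ j * (2 * (1 + δ) ^ a) := by
          apply Finset.sum_le_sum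
          intro i _
          refine (ih j hj (a + e i)).trans ?_
          have h4 : (1 + δ) ^ (a + e i) ≤ 2 * (1 + δ) ^ a := by
            have h5 : (1 + δ) ^ (e i) ≤ (1 + δ) ^ E :=
              pow_le_pow_right₀ (by linarith) (heE i)
            calc (1 + δ) ^ (a + e i) = (1 + δ) ^ (e i) * (1 + δ) ^ a := by rw [pow_add]; ring
              _ ≤ 2 * (1 + δ) ^ a := by
                gcongr
                exact h5.trans hδE
          gcongr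
        have h4 : ∑ _i : Fin N, K * r ^ j * (2 * (1 + δ) ^ a)
            = (2 * (N : ℝ)) * (K * r ^ j * (1 + δ) ^ a) := by
          rw [Finset.sum_const, Finset.card_univ, Fintype.card_fin, nsmul_eq_mul]
          ring
        have h5 : 2 * (N : ℝ) ≤ q ^ m := by linarith
        have h6 : |C1| * q ^ j ≤ (K * (r ^ m - q ^ m)) * r ^ j := by
          have h7 : q ^ j ≤ r ^ j := pow_le_pow_left₀ hq0.le hqr.le j
          calc |C1| * q ^ j ≤ |C1| * r ^ j := by gcongr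
            _ ≤ (K * (r ^ m - q ^ m)) * r ^ j := by gcongr
        calc (f (j + m) a : ℝ) ≤ t j a + ∑ i, (f j (a + e i) : ℝ) := h1
          _ ≤ |C1| * q ^ j * (1 + δ) ^ a + (2 * (N : ℝ)) * (K * r ^ j * (1 + δ) ^ a) :=
              add_le_add h2 (h3.trans h4.le)
          _ ≤ (K * (r ^ m - q ^ m)) * r ^ j * (1 + δ) ^ a + q ^ m * (K * r ^ j * (1 + δ) ^ a) := by
              gcongr
          _ = K * r ^ (j + m) * (1 + δ) ^ a := by rw [pow_add]; ring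
  refine ⟨K, fun k a => (main k a).trans ?_⟩
  have h1 : (1 + δ) ^ a ≤ (1 + ε) ^ a := by
    apply pow_le_pow_left₀ (by positivity)
    linarith
  gcongr

end Pool.Agent.H34.Gam
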