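import Pool.Agent.H34.Gam.IwSeq
import Pool.Agent.H34.Gam.Num

/-!
Growth bounds (job GAM-GB).
-/

set_option autoImplicit false
set_option linter.unusedSectionVars false

noncomputable section

namespace Pool.Agent.H34.Gam

open Module

variable {K : Type} [Field K] {p r : ℕ} [Fact p.Prime] [CharP K p]

omit [CharP K p] in
theorem isPGroup_Er : IsPGroup p (Er p r) := by
  intro g
  refine ⟨1, ?_⟩
  rw [pow_one]
  apply Multiplicative.toAdd.injective
  rw [toAdd_pow]
  funext i
  simp

/-! ### growth for iterated `I_w` -/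

theorem growth_of_Iws (U W : FRep K (Er p r)) (l : List (Fin r → K)) {B : ℝ} (hB : 0 ≤ B) :
    ∀ z : ℕ, GrowthLE (fun a => hh a U (Iws l W)) B z → GrowthLE (fun a => hh a U W) B (z + l.length) := by
  induction l with
  | nil => intro z h; exact h
  | cons w l ih =>
    intro z h
    have h1 : GrowthLE (fun a => hh a U (Iws l W)) B (z + 1) := by
      refine GrowthLE.step hB (e := fun a => hh a U (Iws (w :: l) W)) ?_ h
      intro a
      exact G1_coker w a U (Iws l W)
    have h2 := ih (z + 1) h1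
    have h3 : z + 1 + l.length = z + (w :: l).length := by rw [List.length_cons]; ring
    rwa [h3] at h2

/-- the standard basis -/
theorem hh_Iws_std (U W : FRep K (Er p r)) (a : ℕ) :
    hh a U (Iws (List.ofFn (fun i : Fin r => (Pi.single i 1 : Fin r → K))) W) = 0 := by
  refine hh_zero_of_cc isPGroup_Er _ ?_ U a
  refine cc_Iws_basis (fun i : Fin r => (Pi.single i 1 : Fin r → K)) ?_ W
  exact Pi.linearIndependent_single_one (Fin r) K

theorem poly_growth (U W : FRep K (Er p r)) : ∃ D s : ℕ, ∀ a, hh a U W ≤ D * (a + 1) ^ s := by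
  have h1 : GrowthLE (fun a => hh a U
      (Iws (List.ofFn (fun i : Fin r => (Pi.single i 1 : Fin r → K))) W)) ((0 : ℕ) : ℝ) 0 :=
    GrowthLE.of_le fun a => (hh_Iws_std U W a).le
  have h2 := growth_of_Iws U W _ (by simp) 0 h1
  obtain ⟨D, hD⟩ := h2.bounded
  exact ⟨D, _, hD⟩

/-! ### kernels of the operators -/

theorem push_eq_zero_iff {G : Type} [Group G] [Fintype G] (U : FRep K G) {W W' : FRep K G}
    (f : EHom W W') (x : HH U W) : push U f x = 0 ↔ ∀ a, Hs.mapR U (ShNm a f) (x a) = 0 := by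
  constructor
  · intro h a; exact congrFun h a
  · intro h; funext a; exact h a

theorem bop_eq_zero_iff {G : Type} [Group G] [Fintype G] (b : BF K G) (U W : FRep K G)
    (x : HH U W) : bop b U W x = 0 ↔ ∀ a, Hs.mapR U (ShNm a (bmap W b)) (x a) = 0 := by
  rw [← push_eq_zero_iff]
  constructor
  · intro h
    rw [bop_apply] at h
    have h1 := sg_injective U W (h.trans (map_zero _).symm)
    exact sg_injective U _ (h1.trans (map_zero _).symm)
  · intro h
    rw [bop_apply, h, map_zero, map_zero]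

instance degFD {G : Type} [Group G] [Fintype G] (n : ℕ) (U W : FRep K G) :
    FiniteDimensional K (deg n U W) :=
  (degEquiv n U W).finiteDimensional

theorem fd_inf_deg {G : Type} [Group G] [Fintype G] (n : ℕ) (U W : FRep K G)
    (N : Submodule K (HH U W)) : FiniteDimensional K (N ⊓ deg n U W : Submodule K (HH U W)) :=
  Submodule.finiteDimensional_of_le (inf_le_right : N ⊓ deg n U W ≤ deg n U W)

theorem ker_bop_deg (v : Fin r → K) (U Z : FRep K (Er p r)) (a : ℕ) :
    finrank K (LinearMap.ker (bop (bw v) U Z) ⊓ deg a U Z : Submodule K (HH U Z)) ≤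
      hh a U (Iw p le_rfl v Z) + hh (a + 1) U (Iw p le_rfl v Z) := by
  refine le_trans ?_ (G1_ker v a U Z)
  let φ : (LinearMap.ker (bop (bw v) U Z) ⊓ deg a U Z : Submodule K (HH U Z)) →ₗ[K]
      LinearMap.ker (Hs.mapR U (ShNm a (bmap Z (bw v)))) :=
    { toFun := fun x => ⟨x.1 a, (bop_eq_zero_iff (bw v) U Z x.1).1 x.2.1 a⟩
      map_add' := fun x y => rfl
      map_smul' := fun c x => rfl }
  apply LinearMap.finrank_le_finrank_of_injective (f := φ)
  intro x y hxy
  apply Subtype.ext
  have h1 : x.1 a = y.1 a := congrArg Subtype.val hxy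
  funext m
  by_cases hm : m = a
  · subst hm; exact h1
  · rw [x.2.2 m hm, y.2.2 m hm]

/-- products of operators -/
def bprod (l : List (Fin r → K)) (U Z : FRep K (Er p r)) : Module.End K (HH U Z) :=
  (l.map fun v => bop (bw v) U Z).prod

theorem bprod_nil (U Z : FRep K (Er p r)) : bprod [] U Z = 1 := rfl

theorem bprod_cons (v : Fin r → K) (l : List (Fin r → K)) (U Z : FRep K (Er p r)) :
    bprod (v :: l) U Z = bop (bw v) U Z * bprod l U Z := by
  rw [bprod, List.map_cons, List.prod_cons]; rfl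

theorem bprod_deg (l : List (Fin r → K)) (U Z : FRep K (Er p r)) {a : ℕ} {x : HH U Z}
    (hx : x ∈ deg a U Z) : bprod l U Z x ∈ deg (a + 2 * l.length) U Z := by
  induction l with
  | nil => exact hx
  | cons v l ih =>
    rw [bprod_cons, Module.End.mul_apply]
    exact bop_deg (bw v) U Z ih

theorem bprod_eq (l : List (Fin r → K)) (U Z : FRep K (Er p r)) :
    bprod l U Z = actE U Z (l.map (bl p)).prod := by
  induction l with
  | nil => rw [List.map_nil, List.prod_nil, map_one]; rfl
  | cons v l ih => rw [List.map_cons, List.prod_cons, map_mul, bprod_cons, ih, bop_bw]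

theorem ker_bprod_deg (l : List (Fin r → K)) (U Z : FRep K (Er p r)) (B : ℕ)
    (hB : ∀ v ∈ l, ∀ a, hh a U (Iw p le_rfl v Z) ≤ B) (a : ℕ) :
    finrank K (LinearMap.ker (bprod l U Z) ⊓ deg a U Z : Submodule K (HH U Z)) ≤
      2 * l.length * B := by
  induction l with
  | nil =>
    have : (LinearMap.ker (bprod [] U Z) ⊓ deg a U Z : Submodule K (HH U Z)) = ⊥ := by
      rw [bprod_nil, eq_bot_iff]
      rintro x ⟨hx, -⟩
      exact hx
    rw [this, finrank_bot]
    exact Nat.zero_le _
  | cons v l ih =>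
    have ih' := ih fun v hv => hB v (List.mem_cons_of_mem _ hv)
    have hfd1 := fd_inf_deg a U Z (LinearMap.ker (bprod (v :: l) U Z))
    have hfd2 := fd_inf_deg (a + 2 * l.length) U Z (LinearMap.ker (bop (bw v) U Z))
    have hfd3 := fd_inf_deg a U Z (LinearMap.ker (bprod l U Z))
    let φ : (LinearMap.ker (bprod (v :: l) U Z) ⊓ deg a U Z : Submodule K (HH U Z)) →ₗ[K]
        (LinearMap.ker (bop (bw v) U Z) ⊓ deg (a + 2 * l.length) U Z : Submodule K (HH U Z)) :=
      { toFun := fun x => ⟨bprod l U Z x.1, by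
          refine ⟨?_, bprod_deg l U Z x.2.2⟩
          have h1 : bprod (v :: l) U Z x.1 = 0 := x.2.1
          have h2 := LinearMap.congr_fun (bprod_cons v l U Z) x.1
          exact h2.symm.trans h1⟩
        map_add' := fun x y => Subtype.ext (map_add _ _ _)
        map_smul' := fun c x => Subtype.ext (map_smul _ _ _) }
    have h1 := LinearMap.finrank_range_add_finrank_ker φ
    have h2 : finrank K (LinearMap.range φ) ≤ 2 * B := by
      refine (Submodule.finrank_le _).trans ?_
      have h3 := ker_bop_deg v U Z (a + 2 * l.length)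
      have h4 := hB v (List.mem_cons_self) (a + 2 * l.length)
      have h5 := hB v (List.mem_cons_self) (a + 2 * l.length + 1)
      omega
    have h3 : finrank K (LinearMap.ker φ) ≤ 2 * l.length * B := by
      refine le_trans ?_ ih'
      let ψ : LinearMap.ker φ →ₗ[K]
          (LinearMap.ker (bprod l U Z) ⊓ deg a U Z : Submodule K (HH U Z)) :=
        { toFun := fun x => ⟨x.1.1, ⟨congrArg Subtype.val x.2, x.1.2.2⟩⟩
          map_add' := fun x y => rfl
          map_smul' := fun c x => rfl }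
      apply LinearMap.finrank_le_finrank_of_injective (f := ψ)
      intro x y hxy
      have hval := congrArg Subtype.val hxy
      exact Subtype.ext (Subtype.ext hval)
    rw [List.length_cons]
    have h4 : 2 * (l.length + 1) * B = 2 * l.length * B + 2 * B := by ring
    omega

theorem hh_le_of_list (Z : FRep K (Er p r)) (l : List (Fin r → K))
    (h : (l.map (bl p)).prod ∈ Ann Z) (U : FRep K (Er p r)) (B : ℕ)
    (hB : ∀ v ∈ l, ∀ a, hh a U (Iw p le_rfl v Z) ≤ B) (a : ℕ) : hh a U Z ≤ 2 * l.length * B := by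
  have h1 := ker_bprod_deg l U Z B hB a
  have h2 : LinearMap.ker (bprod l U Z) = ⊤ := by
    rw [LinearMap.ker_eq_top, bprod_eq]
    exact LinearMap.ext fun x => h U x
  rw [h2, top_inf_eq, finrank_deg] at h1
  exact h1

/-- If a product of linear forms kills `Z`, the dimensions for `Z` are bounded by those for the
`I_v Z`. -/
theorem hh_le_of_prod (Z : FRep K (Er p r)) {n : ℕ} (v : Fin n → Fin r → K)
    (h : ∏ k, bl p (v k) ∈ Ann Z) (U : FRep K (Er p r)) (B : ℕ)
    (hB : ∀ k a, hh a U (Iw p le_rfl (v k) Z) ≤ B) (a : ℕ) : hh a U Z ≤ 2 * n * B := by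
  have h1 := hh_le_of_list Z (List.ofFn v) (by
    rw [List.map_ofFn, List.prod_ofFn]; exact h) U B (by
    intro x hx a
    obtain ⟨k, rfl⟩ := (List.mem_ofFn' v x).1 hx
    exact hB k a) a
  rwa [List.length_ofFn] at h1

theorem hh_eq_zero_of_HH (U Z : FRep K (Er p r)) (h : ∀ x : HH U Z, x = 0) (a : ℕ) :
    hh a U Z = 0 := by
  have : Subsingleton (Hs U (FRep.ShN a Z)) := by
    refine ⟨fun x y => ?_⟩
    have h1 := congrFun (h (sgl a U Z x)) a
    have h2 := congrFun (h (sgl a U Z y)) a
    rw [sgl_same] at h1 h2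
    rw [h1, h2]
  exact Module.finrank_zero_of_subsingleton

theorem Ann_Iws_pow (l : List (Fin r → K)) (Z : FRep K (Er p r)) :
    Ann Z ^ (p ^ l.length) ≤ Ann (Iws l Z) := by
  induction l with
  | nil => rw [List.length_nil, pow_zero, pow_one]; exact le_rfl
  | cons w l ih =>
    rw [List.length_cons, pow_succ, pow_mul]
    exact (Ideal.pow_right_mono ih p).trans (Ann_Iw w (Iws l Z))

/-- If all linear forms are nilpotent on `A`, then `A` is projective. -/
theorem proj_of_int0 (A : FRep K (Er p r)) (w : Fin 0 → Fin r → K)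
    (h : IntMod p (Ann A) w) (U : FRep K (Er p r)) (a : ℕ) : hh a U A = 0 := by
  have key : ∀ l : List (Fin r → K), (∀ (U : FRep K (Er p r)) (a : ℕ), hh a U (Iws l A) = 0) →
      ∀ (U : FRep K (Er p r)) (a : ℕ), hh a U A = 0 := by
    intro l
    induction l with
    | nil => intro h; exact h
    | cons v l ih =>
      intro h0
      apply ih
      intro U a
      obtain ⟨m, hm⟩ := intMod_zero p (Ann A) (Ann_hom A) w h v
      have hm' : (bl p v ^ m) ^ (p ^ l.length) ∈ Ann (Iws l A) :=
        Ann_Iws_pow l A (Ideal.pow_mem_pow hm _)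
      rw [← pow_mul] at hm'
      set N := m * p ^ l.length
      have h1 := hh_le_of_list (Iws l A) (List.replicate N v) (by
        rw [List.map_replicate, List.prod_replicate]; exact hm') U 0 (by
        intro x hx a
        rw [List.eq_of_mem_replicate hx]
        exact (h0 U a).le) a
      rw [mul_zero] at h1
      exact Nat.le_zero.1 h1
  refine key (List.ofFn (fun i : Fin r => (Pi.single i 1 : Fin r → K))) ?_ U a
  intro U a
  exact hh_Iws_std U A a

/-! ### the main growth bound -/

theorem sup_pow_le {R : Type} [CommRing R] (I J : Ideal R) (n : ℕ) :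
    (I ⊔ J) ^ n ≤ I ^ n ⊔ J := by
  induction n with
  | zero => simp
  | succ n ih =>
    have h1 : (I ⊔ J) ^ (n + 1) ≤ (I ^ n ⊔ J) * (I ⊔ J) := by
      rw [pow_succ]
      exact Ideal.mul_mono_left ih
    have h2 : (I ^ n ⊔ J) * (I ⊔ J) = I ^ n * I ⊔ I ^ n * J ⊔ J * (I ⊔ J) := by
      rw [Ideal.sup_mul, Ideal.mul_sup]
    have h3 : I ^ n * J ≤ J := Ideal.mul_le_right
    have h4 : J * (I ⊔ J) ≤ J := Ideal.mul_le_left
    rw [h2] at h1
    refine h1.trans (sup_le (sup_le ?_ ?_) ?_)
    · rw [pow_succ]; exact le_sup_left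
    · exact h3.trans le_sup_right
    · exact h4.trans le_sup_right

theorem ideal_pow_le (s : ℕ) (u : Fin s → Fin r → K) (I : Ideal (MvPolynomial (Fin r) K))
    (W : FRep K (Er p r)) (h : I ≤ Ann W) :
    (I ⊔ Ideal.span (Set.range (fun i => bl p (u i)))) ^ (p ^ s) ≤ Ann (Iws (List.ofFn u) W) := by
  induction s with
  | zero =>
    have : Set.range (fun i : Fin 0 => bl p (u i)) = ∅ := Set.range_eq_empty _
    rw [this, Ideal.span_empty, sup_bot_eq, pow_zero, pow_one, List.ofFn_zero]
    exact h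
  | succ s ih =>
    have ih' := ih (fun i => u i.succ)
    have h1 : Set.range (fun i => bl p (u i)) =
        Set.range (fun i : Fin s => bl p (u i.succ)) ∪ {bl p (u 0)} := by
      ext x
      simp only [Set.mem_range, Set.mem_union, Set.mem_singleton_iff]
      constructor
      · rintro ⟨i, rfl⟩
        refine Fin.cases (Or.inr rfl) (fun j => Or.inl ⟨j, rfl⟩) i
      · rintro (⟨i, rfl⟩ | rfl)
        · exact ⟨i.succ, rfl⟩
        · exact ⟨0, rfl⟩
    rw [h1, Ideal.span_union, ← sup_assoc, pow_succ, List.ofFn_succ]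
    refine (sup_pow_le _ _ _).trans (sup_le ?_ ?_)
    · rw [pow_mul]
      exact (Ideal.pow_right_mono ih' p).trans (Ann_Iw (u 0) _)
    · rw [Ideal.span_singleton_le_iff_mem]
      exact bl_mem_Ann_Iw (u 0) _

theorem hh_iter (𝔟 : Ideal (MvPolynomial (Fin r) K)) (s : ℕ) :
    ∀ (Ls : Fin s → List (Fin r → K)), (∀ i, ((Ls i).map (bl p)).prod ∈ 𝔟) → ∀ m : ℕ,
      ∃ C : ℕ, ∀ Z : FRep K (Er p r), 𝔟 ^ m ≤ Ann Z → ∀ (U : FRep K (Er p r)) (B : ℕ),
        (∀ v : Fin s → Fin r → K, (∀ i, v i ∈ Ls i) → ∀ a, hh a U (Iws (List.ofFn v) Z) ≤ B) →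
        ∀ a, hh a U Z ≤ C * B := by
  induction s with
  | zero =>
    intro Ls _ m
    refine ⟨1, fun Z _ U B hB a => ?_⟩
    have := hB Fin.elim0 (fun i => i.elim0) a
    rw [List.ofFn_zero] at this
    rw [one_mul]
    exact this
  | succ s ih =>
    intro Ls hLs m
    obtain ⟨C, hC⟩ := ih (fun i => Ls i.succ) (fun i => hLs i.succ) m
    refine ⟨C * (2 * (m * p ^ s * (Ls 0).length)), fun Z hZ U B hB a => ?_⟩
    have h1 := hC Z hZ U (2 * (m * p ^ s * (Ls 0).length) * B) ?_ a
    · calc hh a U Z ≤ C * (2 * (m * p ^ s * (Ls 0).length) * B) := h1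
        _ = _ := by ring
    · intro v hv a
      have h2 := hh_le_of_list (Iws (List.ofFn v) Z)
        (List.replicate (m * p ^ s) (Ls 0)).flatten ?_ U B ?_ a
      · refine h2.trans (le_of_eq ?_)
        rw [List.length_flatten, List.map_replicate, List.sum_replicate, smul_eq_mul]
      · rw [List.map_flatten, List.map_replicate, List.prod_flatten, List.map_replicate,
          List.prod_replicate, pow_mul]
        have h3 := Ann_Iws_pow (List.ofFn v) Z
        rw [List.length_ofFn] at h3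
        apply h3
        apply Ideal.pow_mem_pow
        exact hZ (Ideal.pow_mem_pow (hLs 0) m)
      · intro x hx a
        obtain ⟨L, hL, hxL⟩ := List.mem_flatten.1 hx
        rw [List.eq_of_mem_replicate hL] at hxL
        have h3 := hB (Fin.cons x v) (fun i => by
          refine Fin.cases ?_ (fun j => ?_) i
          · exact hxL
          · exact hv j) a
        rw [List.ofFn_succ] at h3
        exact h3

theorem li_cons {r' : ℕ} (w0 : Fin (r' + 1) → K) (j0 : Fin (r' + 1)) (hj : w0 j0 ≠ 0)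
    (v : Fin r' → Fin (r' + 1) → K)
    (hv : ∀ i, ∃ a : K, v i = Pi.single (j0.succAbove i) 1 - a • w0) :
    LinearIndependent K (Fin.cons w0 v : Fin (r' + 1) → Fin (r' + 1) → K) := by
  classical
  choose a ha using hv
  rw [Fintype.linearIndependent_iff]
  intro c hc
  rw [Fin.sum_univ_succ] at hc
  simp only [Fin.cons_zero, Fin.cons_succ] at hc
  have h1 : (c 0 - ∑ i : Fin r', c i.succ * a i) = 0 := by
    have h2 := congrFun hc j0
    simp only [Pi.add_apply, Pi.smul_apply, Finset.sum_apply, ha, Pi.sub_apply, smul_eq_mul,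
      Pi.zero_apply] at h2
    have h3 : ∀ i : Fin r', (Pi.single (j0.succAbove i) (1 : K) : Fin (r' + 1) → K) j0 = 0 :=
      fun i => Pi.single_eq_of_ne (Fin.succAbove_ne j0 i).symm _
    simp only [h3, zero_sub, mul_neg, Finset.sum_neg_distrib] at h2
    have h4 : (c 0 - ∑ i : Fin r', c i.succ * a i) * w0 j0 = 0 := by
      rw [sub_mul, Finset.sum_mul]
      rw [← h2]
      rw [sub_eq_add_neg]
      congr 2
      exact Finset.sum_congr rfl fun i _ => by ring
    exact (mul_eq_zero.1 h4).resolve_right hj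
  have h5 : ∀ i : Fin r', c i.succ = 0 := by
    intro i
    have h2 := congrFun hc (j0.succAbove i)
    simp only [Pi.add_apply, Pi.smul_apply, Finset.sum_apply, ha, Pi.sub_apply, smul_eq_mul,
      Pi.zero_apply] at h2
    have h3 : ∀ j : Fin r', (Pi.single (j0.succAbove j) (1 : K) : Fin (r' + 1) → K)
        (j0.succAbove i) = if j = i then 1 else 0 := by
      intro j
      by_cases h : j = i
      · subst h; simp
      · rw [if_neg h, Pi.single_eq_of_ne]
        intro h'
        exact h (Fin.succAbove_right_injective h').symm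
    simp only [h3, mul_sub, Finset.sum_sub_distrib, mul_ite, mul_one, mul_zero,
      Finset.sum_ite_eq', Finset.mem_univ, if_true] at h2
    have h4 : c 0 * w0 (j0.succAbove i) - ∑ x, c (Fin.succ x) * (a x * w0 (j0.succAbove i)) =
        (c 0 - ∑ i : Fin r', c i.succ * a i) * w0 (j0.succAbove i) := by
      rw [sub_mul, Finset.sum_mul]
      congr 1
      exact Finset.sum_congr rfl fun i _ => by ring
    rw [h1, zero_mul] at h4
    have h6 : c i.succ = c 0 * w0 (j0.succAbove i) +
        (c i.succ - ∑ x, c (Fin.succ x) * (a x * w0 (j0.succAbove i))) -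
        (c 0 * w0 (j0.succAbove i) - ∑ x, c (Fin.succ x) * (a x * w0 (j0.succAbove i))) := by ring
    rw [h6, h2, h4, sub_zero]
  have h0 : c 0 = 0 := by
    simpa [h5] using h1
  intro i
  exact Fin.cases h0 h5 i

theorem hh_bound_Z' {r' : ℕ} (w0 : Fin (r' + 1) → K) (v : Fin r' → Fin (r' + 1) → K)
    (hli : LinearIndependent K (Fin.cons w0 v : Fin (r' + 1) → Fin (r' + 1) → K))
    (Z U : FRep K (Er p (r' + 1))) (k : ℕ) (hk : ∀ c : Fin (r' + 1) → K, c ≠ 0 → kap c Z ≤ k)
    (a : ℕ) : hh a U (Iws (List.ofFn v) Z) ≤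
      (1 + Fintype.card (Er p (r' + 1))) * (finrank K U.V * (p ^ r' * k)) := by
  set Z' := Iws (List.ofFn v) Z with hZ'
  have hv : LinearIndependent K v := by
    have := hli.comp Fin.succ (Fin.succ_injective _)
    exact this
  have h0 : ∀ a, hh a U (Iw p le_rfl w0 Z') = 0 := by
    intro a
    refine hh_zero_of_cc isPGroup_Er _ ?_ U a
    have h1 := cc_Iws_basis (Fin.cons w0 v : Fin (r' + 1) → Fin (r' + 1) → K) hli Z
    rw [List.ofFn_succ] at h1
    exact h1
  have hstep : ∀ a, hh (a + 2) U Z' ≤ hh a U Z' := by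
    intro a
    have h1 := G1_coker w0 a U Z'
    rw [h0, h0] at h1
    exact h1
  have hall : ∀ a, hh a U Z' ≤ hh 0 U Z' + hh 1 U Z' ∧ hh (a + 1) U Z' ≤ hh 0 U Z' + hh 1 U Z' := by
    intro a
    induction a with
    | zero => exact ⟨by omega, by
        show hh 1 U Z' ≤ _
        omega⟩
    | succ a ih => exact ⟨ih.2, (hstep a).trans ih.1⟩
  obtain ⟨c, hc0, -, hc⟩ := cc_Iws_corank1 v hv
  have h2 : cc Z' ≤ p ^ r' * k := (hc Z).trans (Nat.mul_le_mul_left _ (hk c hc0))
  have h3 : hh 0 U Z' ≤ finrank K U.V * (p ^ r' * k) :=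
    (hh0_le_cc isPGroup_Er U Z').trans ((cc_L_le isPGroup_Er U Z').trans
      (Nat.mul_le_mul_left _ h2))
  have h4 : hh 1 U Z' ≤ Fintype.card (Er p (r' + 1)) * (finrank K U.V * (p ^ r' * k)) := by
    have h5 : hh 1 U Z' = hh 0 U (FRep.Sh Z') := rfl
    rw [h5]
    refine (hh0_le_cc isPGroup_Er U _).trans ((cc_L_le isPGroup_Er U _).trans ?_)
    calc finrank K U.V * cc (FRep.Sh Z')
        ≤ finrank K U.V * (Fintype.card (Er p (r' + 1)) * (p ^ r' * k)) :=
          Nat.mul_le_mul_left _ ((cc_Sh_le isPGroup_Er Z').trans (Nat.mul_le_mul_left _ h2))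
      _ = _ := by ring
  have h6 := (hall a).1
  rw [add_mul, one_mul]
  omega

theorem growth_bound [IsAlgClosed K] {z : ℕ} (A : FRep K (Er p r)) (w : Fin (z + 1) → Fin r → K)
    (hw : LinearIndependent K w) (hA : IntMod p (Ann A) w) :
    ∃ C : ℕ, ∀ W : FRep K (Er p r), Ann A ≤ Ann W → ∀ k : ℕ,
      (∀ c : Fin r → K, c ≠ 0 → kap c W ≤ k) → ∀ U : FRep K (Er p r),
      GrowthLE (fun a => hh a U W) ((C : ℝ) * finrank K U.V * k) z := by
  classical
  -- `r = r' + 1`
  have hw0 : w 0 ≠ 0 := hw.ne_zero 0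
  obtain ⟨j, hj⟩ : ∃ j, w 0 j ≠ 0 := by
    by_contra hcon
    push Not at hcon
    exact hw0 (funext hcon)
  obtain ⟨r', rfl⟩ : ∃ r', r = r' + 1 := ⟨r - 1, by have := j.2; omega⟩
  set 𝔟 : Ideal (MvPolynomial (Fin (r' + 1)) K) :=
    Ann A ⊔ Ideal.span (Set.range (fun i : Fin z => bl p (w i.succ))) with h𝔟
  have hforms := fun i : Fin r' => intMod_forms p (Ann A) (Ann_hom A) w hA
    (Pi.single (j.succAbove i) 1)
  choose n α hα using hforms
  let Ls : Fin r' → List (Fin (r' + 1) → K) := fun i =>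
    List.ofFn (fun k : Fin (n i) => (Pi.single (j.succAbove i) 1 : Fin (r' + 1) → K) - α i k • w 0)
  have hLs : ∀ i, ((Ls i).map (bl p)).prod ∈ 𝔟 := by
    intro i
    simp only [Ls]
    rw [List.map_ofFn, List.prod_ofFn]
    exact hα i
  obtain ⟨C, hC⟩ := hh_iter 𝔟 r' Ls hLs (p ^ z)
  refine ⟨C * ((1 + Fintype.card (Er p (r' + 1))) * (p ^ r' * p ^ z)), ?_⟩
  intro W hAW k hk U
  set l := List.ofFn (fun i : Fin z => w i.succ) with hl
  have hZ0 : 𝔟 ^ (p ^ z) ≤ Ann (Iws l W) := ideal_pow_le z (fun i => w i.succ) (Ann A) W hAW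
  have hkap : ∀ c : Fin (r' + 1) → K, c ≠ 0 → kap c (Iws l W) ≤ p ^ z * k := by
    intro c hc
    have h1 := kap_Iws_le c l W
    rw [hl, List.length_ofFn] at h1
    exact h1.trans (Nat.mul_le_mul_left _ (hk c hc))
  have hb : ∀ a, hh a U (Iws l W) ≤ C *
      ((1 + Fintype.card (Er p (r' + 1))) * (finrank K U.V * (p ^ r' * (p ^ z * k)))) := by
    refine hC (Iws l W) hZ0 U _ ?_
    intro v hv a
    refine hh_bound_Z' (w 0) v ?_ (Iws l W) U (p ^ z * k) hkap a
    refine li_cons (w 0) j hj v fun i => ?_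
    obtain ⟨k, hk⟩ := (List.mem_ofFn' _ _).1 (hv i)
    exact ⟨α i k, hk.symm⟩
  have h1 := growth_of_Iws U W l (Nat.cast_nonneg _) 0 (GrowthLE.of_le hb)
  rw [hl, List.length_ofFn, zero_add] at h1
  refine h1.mono (le_of_eq ?_) fun a => le_rfl
  push_cast
  ring

end Pool.Agent.H34.Gam

end
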