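import Pool.Agent.H34.Gam.Ghost
import Pool.Agent.H34.Gam.GB
import Pool.Agent.H34.Gam.Adj

/-!
The cell inequality (job GAM-CELL).
-/

set_option autoImplicit false
set_option linter.unusedSectionVars false

noncomputable section

namespace Pool.Agent.H34.Gam

open Module

variable {K : Type} [Field K] {p r : ℕ} [Fact p.Prime] [CharP K p]

/-! ### the radical filtration -/

section Lay

variable {G : Type} [Group G] [Fintype G]

private theorem asAlg_map {U W : FRep K G} (f : EHom U W) (a : MonoidAlgebra K G) (x : U.V) :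
    f.1 (U.ρ.asAlgebraHom a x) = W.ρ.asAlgebraHom a (f.1 x) := by
  induction a using MonoidAlgebra.induction_linear with
  | zero => simp
  | add a b ha hb => simp only [map_add, LinearMap.add_apply, ha, hb]
  | single g c =>
    rw [Representation.asAlgebraHom_single, Representation.asAlgebraHom_single,
      LinearMap.smul_apply, LinearMap.smul_apply, map_smul, EHom.map]

/-- the span of all `g y - y` -/
private def radS (Y : FRep K G) : Submodule K Y.V :=
  Submodule.span K {x | ∃ (g : G) (y : Y.V), x = Y.ρ g y - y}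

private theorem radS_stable (Y : FRep K G) (h : G) (x : Y.V) (hx : x ∈ radS Y) :
    Y.ρ h x ∈ radS Y := by
  have hle : radS Y ≤ (radS Y).comap (Y.ρ h) := by
    unfold radS
    rw [Submodule.span_le]
    rintro _ ⟨g, y, rfl⟩
    show Y.ρ h (Y.ρ g y - y) ∈ Submodule.span K _
    apply Submodule.subset_span
    refine ⟨h * g * h⁻¹, Y.ρ h y, ?_⟩
    rw [map_sub, FRep.mul_apply, FRep.inv_self, FRep.mul_apply]
  exact hle hx

/-- the radical -/
private def radR (Y : FRep K G) : FRep K G := FRep.sub Y (radS Y) (radS_stable Y)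

private def radI (Y : FRep K G) : EHom (radR Y) Y := ⟨(radS Y).subtype, fun _ _ => rfl⟩

private theorem mk_rho (Y : FRep K G) (g : G) (y : Y.V) :
    (radS Y).mkQ (Y.ρ g y) = (radS Y).mkQ y := by
  rw [← sub_eq_zero, ← map_sub]
  exact (Submodule.Quotient.mk_eq_zero _).2 (Submodule.subset_span ⟨g, y, rfl⟩)

private theorem exists_ses_rad (A Y : FRep K G) :
    ∃ s : ℕ, Nonempty (SES (FRep.dp s A) (FRep.L Y A) (FRep.L (radR Y) A)) := by
  classical
  let e := (Module.finBasis K (Y.V ⧸ radS Y)).equivFun
  set s := Module.finrank K (Y.V ⧸ radS Y) with hs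
  refine ⟨s, ⟨SES.mk' (i := ?_) (p := Lpre A (radI Y)) ?_ ?_ ?_⟩⟩
  · refine ⟨
      { toFun := fun a =>
          { toFun := fun y => ∑ k, e ((radS Y).mkQ y) k • (a k : A.V)
            map_add' := by
              intro y y'
              rw [map_add, map_add, ← Finset.sum_add_distrib]
              exact Finset.sum_congr rfl fun k _ => by rw [Pi.add_apply, add_smul]
            map_smul' := by
              intro c y
              rw [map_smul, map_smul, RingHom.id_apply, Finset.smul_sum]
              exact Finset.sum_congr rfl fun k _ => by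
                rw [Pi.smul_apply, smul_eq_mul, mul_smul] }
        map_add' := by
          intro a a'
          refine LinearMap.ext fun y => ?_
          show ∑ k, e ((radS Y).mkQ y) k • ((a k : A.V) + a' k) =
            ∑ k, e ((radS Y).mkQ y) k • (a k : A.V) + ∑ k, e ((radS Y).mkQ y) k • (a' k : A.V)
          rw [← Finset.sum_add_distrib]
          exact Finset.sum_congr rfl fun k _ => smul_add _ _ _
        map_smul' := by
          intro c a
          refine LinearMap.ext fun y => ?_
          show ∑ k, e ((radS Y).mkQ y) k • (c • (a k : A.V)) =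
            c • ∑ k, e ((radS Y).mkQ y) k • (a k : A.V)
          rw [Finset.smul_sum]
          exact Finset.sum_congr rfl fun k _ => smul_comm _ _ _ }, ?_⟩
    intro g a
    refine LinearMap.ext fun y => ?_
    show ∑ k, e ((radS Y).mkQ y) k • (A.ρ g (a k)) =
      A.ρ g (∑ k, e ((radS Y).mkQ (Y.ρ g⁻¹ y)) k • (a k : A.V))
    rw [map_sum, mk_rho]
    exact Finset.sum_congr rfl fun k _ => (map_smul _ _ _).symm
  · -- injective
    rw [injective_iff_map_eq_zero]
    intro a ha
    funext k
    obtain ⟨y, hy⟩ := (radS Y).mkQ_surjective (e.symm (Pi.single k 1))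
    have h1 := LinearMap.congr_fun ha y
    have h2 : ∑ k', e ((radS Y).mkQ y) k' • (a k' : A.V) = 0 := h1
    rw [hy, LinearEquiv.apply_symm_apply, Finset.sum_eq_single k] at h2
    · rwa [Pi.single_eq_same, one_smul] at h2
    · intro k' _ hk'
      rw [Pi.single_eq_of_ne hk', zero_smul]
    · intro h; exact absurd (Finset.mem_univ _) h
  · -- surjective
    intro φ
    obtain ⟨ψ, hψ⟩ := LinearMap.exists_extend (p := radS Y) φ
    exact ⟨ψ, hψ⟩
  · -- exact
    intro φ
    constructor
    · intro h
      have hker : radS Y ≤ LinearMap.ker φ := fun x hx => LinearMap.congr_fun h ⟨x, hx⟩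
      refine ⟨fun k => (radS Y).liftQ φ hker (e.symm (Pi.single k 1)), ?_⟩
      refine LinearMap.ext fun y => ?_
      show ∑ k, e ((radS Y).mkQ y) k • ((radS Y).liftQ φ hker (e.symm (Pi.single k 1))) = φ y
      have h1 : φ y = (radS Y).liftQ φ hker ((radS Y).mkQ y) := rfl
      have h2 : (radS Y).mkQ y = ∑ k, e ((radS Y).mkQ y) k • e.symm (Pi.single k 1) := by
        apply e.injective
        rw [map_sum]
        funext k'
        rw [Finset.sum_apply, Finset.sum_eq_single k']
        · rw [map_smul, Pi.smul_apply, LinearEquiv.apply_symm_apply, Pi.single_eq_same,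
            smul_eq_mul, mul_one]
        · intro k _ hk
          rw [map_smul, Pi.smul_apply, LinearEquiv.apply_symm_apply,
            Pi.single_eq_of_ne (Ne.symm hk), smul_zero]
        · intro h; exact absurd (Finset.mem_univ _) h
      rw [h1]
      conv_rhs => rw [h2]
      rw [map_sum]
      exact Finset.sum_congr rfl fun k _ => (map_smul _ _ _).symm
    · rintro ⟨a, rfl⟩
      refine LinearMap.ext fun x => ?_
      show ∑ k, e ((radS Y).mkQ x.1) k • (a k : A.V) = 0
      have h1 : (radS Y).mkQ x.1 = 0 := (Submodule.Quotient.mk_eq_zero _).2 x.2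
      rw [h1, map_zero]
      exact Finset.sum_eq_zero fun k _ => zero_smul _ _

end Lay

/-- the augmentation ideal -/
private def augI (K : Type) [Field K] (p r : ℕ) : Ideal (MonoidAlgebra K (Er p r)) :=
  Ideal.span (Set.range fun g : Er p r => MonoidAlgebra.single g (1 : K) - 1)

private theorem aug_nilp (K : Type) [Field K] (p r : ℕ) [Fact p.Prime] [CharP K p] :
    ∃ l : ℕ, augI K p r ^ l = ⊥ := by
  have hp : 0 < p := (Fact.out : p.Prime).pos
  have : NeZero p := ⟨hp.ne'⟩
  have : Finite (Er p r) := inferInstance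
  have hfg : (augI K p r).FG := Submodule.fg_span (Set.finite_range _)
  have hle : augI K p r ≤ nilradical (MonoidAlgebra K (Er p r)) := by
    unfold augI
    rw [Ideal.span_le]
    rintro _ ⟨g, rfl⟩
    show _ ∈ nilradical _
    rw [mem_nilradical]
    have : CharP (MonoidAlgebra K (Er p r)) p :=
      charP_of_injective_algebraMap (algebraMap K _).injective p
    refine ⟨p, ?_⟩
    rw [sub_pow_char, one_pow, MonoidAlgebra.single_pow, one_pow]
    have h1 : g ^ p = 1 := by
      apply Multiplicative.toAdd.injective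
      rw [toAdd_pow]
      funext i
      simp
    rw [h1]
    exact sub_self _
  obtain ⟨l, hl⟩ := hfg.isNilpotent_iff_le_nilradical.2 hle
  exact ⟨l, hl⟩

private theorem lay_of_nil (A : FRep K (Er p r)) (k : ℕ) : ∀ Y : FRep K (Er p r),
    (∀ a ∈ augI K p r ^ k, ∀ y : Y.V, Y.ρ.asAlgebraHom a y = 0) → Lay A k (FRep.L Y A) := by
  induction k with
  | zero =>
    intro Y hY
    have h1 : ∀ y : Y.V, y = 0 := by
      intro y
      have := hY 1 (by rw [pow_zero, Ideal.one_eq_top]; trivial) y
      simpa using this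
    refine Lay.zero _ ⟨fun φ ψ => LinearMap.ext fun y => ?_⟩
    rw [h1 y, map_zero, map_zero]
  | succ k ih =>
    intro Y hY
    obtain ⟨s, ⟨S⟩⟩ := exists_ses_rad A Y
    refine Lay.succ k s _ _ S (ih (radR Y) ?_)
    intro a ha y
    -- the elements of the radical
    have h1 : ∀ x ∈ radS Y, Y.ρ.asAlgebraHom a x = 0 := by
      have hle : radS Y ≤ LinearMap.ker (Y.ρ.asAlgebraHom a) := by
        unfold radS
        rw [Submodule.span_le]
        rintro _ ⟨g, x, rfl⟩
        show Y.ρ.asAlgebraHom a (Y.ρ g x - x) = 0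
        have h2 : Y.ρ g x - x =
            Y.ρ.asAlgebraHom (MonoidAlgebra.single g (1 : K) - 1) x := by
          rw [map_sub, Representation.asAlgebraHom_single_one, map_one]; rfl
        rw [h2, ← Module.End.mul_apply, ← map_mul]
        refine hY _ ?_ x
        rw [pow_succ]
        exact Ideal.mul_mem_mul ha (Ideal.subset_span ⟨g, rfl⟩)
      exact fun x hx => hle hx
    have h2 := asAlg_map (radI Y) a y
    have h3 : (radI Y).1 ((radR Y).ρ.asAlgebraHom a y) = 0 := by
      rw [h2]
      exact h1 _ y.2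
    exact Subtype.ext h3

/-- `L Y A` is filtered by powers of `A`, with a number of layers independent of `Y`. -/
theorem exists_lay (A : FRep K (Er p r)) : ∃ l : ℕ, ∀ Y : FRep K (Er p r),
    Lay A l (FRep.L Y A) := by
  obtain ⟨l, hl⟩ := aug_nilp K p r
  refine ⟨l, fun Y => lay_of_nil A l Y ?_⟩
  intro a ha y
  rw [hl, Ideal.mem_bot] at ha
  rw [ha, map_zero]; rfl

/-- If the homogeneous form `h` (degree `d ≥ 1`) in the `b_{w_i}` is given, there is a module `T`
with `h² , Ann(W)²` in its annihilator such that the kernel of `h` on `HH U W` is bounded by `T`. -/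
theorem exists_T {z : ℕ} (W : FRep K (Er p r)) (w : Fin (z + 1) → Fin r → K)
    (h : MvPolynomial (Fin (z + 1)) K) (d : ℕ) (hd : 1 ≤ d) (hh' : h.IsHomogeneous d) :
    ∃ T : FRep K (Er p r), (lin p w h) ^ 2 ∈ Ann T ∧ Ann W * Ann W ≤ Ann T ∧
      ∀ (U : FRep K (Er p r)) (a : ℕ),
        hh a U W ≤ hh a U T +
          finrank K ((deg a U W).map (act (fun i => bw (w i)) U W h)) := by
  set b : Fin (z + 1) → BF K (Er p r) := fun i => bw (w i) with hb
  obtain ⟨t, ht⟩ : ∃ t, 1 + t = 2 * d := ⟨2 * d - 1, by omega⟩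
  obtain ⟨η, hη⟩ := act_repr b hh' (1 + t) ht W
  obtain ⟨T, S, hS⟩ := exists_ext (K := K) (G := Er p r) (Q := W) (V := FRep.ShN t W)
    ((ecomp (spl 1 t W) η))
  -- the action of `h` through `δ`
  have key : ∀ (U : FRep K (Er p r)) (x : HH U W),
      act b U W h x = sgN t U W (sg U (FRep.ShN t W) (push U S.δ x)) := by
    intro U x
    rw [hη U x, ← sgN_spl 1 t U W, hS, push_comp]
    rfl
  have hpδ : ∀ (U : FRep K (Er p r)) (x : HH U T), push U S.δ (push U S.p x) = 0 :=
    fun U x => S.push_δ_p U x
  refine ⟨T, ?_, ?_, ?_⟩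
  · -- `h²` kills `T`
    have hlin : (lin p w h).IsHomogeneous d := lin_homogeneous p w hh'
    have hlin2 : ((lin p w h) ^ 2).IsHomogeneous (d * 2) := hlin.pow 2
    refine mem_Ann_of_deg hlin2 fun U n x hx => ?_
    have e1 : ∀ y : HH U T, actE U T (lin p w h) y = act b U T h y := fun y => by
      rw [← act_bw]
    rw [pow_two, map_mul, Module.End.mul_apply, e1, e1]
    have h1 : push U S.p (act b U T h x) = 0 := by
      rw [act_push, key, hpδ, map_zero, map_zero]
    obtain ⟨y, _, hy⟩ := S.push_exact_mid U (act_deg b U T hh' hx) h1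
    rw [← hy, ← act_push]
    have h2 : act b U (FRep.ShN t W) h y =
        sg U (FRep.ShN t W) (push U S.δ (sgN t U W y)) := by
      apply sgN_injective t U W
      rw [act_sgN, key]
    rw [h2, push_sg, S.push_i_δ, map_zero]
  · calc Ann W * Ann W ≤ Ann (FRep.ShN t W) * Ann W := Ideal.mul_mono_left (Ann_ShN t W)
      _ ≤ Ann T := Ann_ses S
  · intro U a
    set g : deg a U W →ₗ[K] HH U W := (act b U W h).domRestrict (deg a U W) with hg
    have h1 := LinearMap.finrank_range_add_finrank_ker g
    rw [finrank_deg] at h1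
    have h2 : LinearMap.range g = (deg a U W).map (act b U W h) :=
      LinearMap.range_domRestrict _ _
    have h3 : finrank K (LinearMap.ker g) ≤ hh a U T := by
      rw [← finrank_deg a U T]
      have h4 : (LinearMap.ker g).map (deg a U W).subtype ≤ (deg a U T).map (push U S.p) := by
        rintro _ ⟨⟨x, hx⟩, hx0, rfl⟩
        have h5 : act b U W h x = 0 := hx0
        rw [key] at h5
        have h6 : push U S.δ x = 0 := by
          apply sg_injective U (FRep.ShN t W)
          apply sgN_injective t U W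
          rw [h5, map_zero, map_zero]
        obtain ⟨y, hy, hyx⟩ := S.push_exact_right U hx h6
        exact ⟨y, hy, hyx⟩
      have : FiniteDimensional K ((deg a U T).map (push U S.p)) := inferInstance
      calc finrank K (LinearMap.ker g)
          = finrank K ((LinearMap.ker g).map (deg a U W).subtype) :=
            (Submodule.finrank_map_subtype_eq _ _).symm
        _ ≤ finrank K ((deg a U T).map (push U S.p)) := Submodule.finrank_mono h4
        _ ≤ finrank K (deg a U T) := Submodule.finrank_map_le _ _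
    rw [h2] at h1
    omega

theorem cell [IsAlgClosed K] {z : ℕ} (A : FRep K (Er p r)) (w : Fin (z + 1) → Fin r → K)
    (hw : LinearIndependent K w) (hA : IntMod p (Ann A) w) :
    ∃ C : ℝ, 0 ≤ C ∧ ∀ (Y : FRep K (Er p r)) (k : ℕ),
      (∀ c : Fin r → K, c ≠ 0 → kap c (FRep.L Y A) ≤ k) →
      ∃ (T : FRep K (Er p r)) (w' : Fin z → Fin r → K), LinearIndependent K w' ∧
        IntMod p (Ann T) w' ∧ ∃ (N : ℕ) (e : Fin N → ℕ), (N : ℝ) ≤ C * k ∧
        ∀ (U : FRep K (Er p r)) (a : ℕ),
          hh a (FRep.T U Y) A ≤ hh a U T + ∑ i, hh (a + e i) U A := by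
  obtain ⟨C1, hC1⟩ := growth_bound A w hw hA
  have hAA : GrowthLE (fun a => hh a A A)
      ((C1 : ℝ) * finrank K A.V * (finrank K A.V : ℕ)) z :=
    hC1 A le_rfl (finrank K A.V) (fun c _ => Nat.sub_le _ _) A
  obtain ⟨l, hl⟩ := exists_lay A
  obtain ⟨C2, hC2, hghost⟩ := ghost (fun i => bw (w i)) A _ (by positivity) hAA l
  refine ⟨C2 * ((C1 : ℝ) * finrank K A.V), by positivity, fun Y k hk => ?_⟩
  have hgr := hC1 (FRep.L Y A) (Ann_L Y A) k hk A
  obtain ⟨d, h, h0, hhom, N, e, hN, hrank⟩ := hghost (FRep.L Y A) (hl Y) (FRep.L Y A) _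
    (by positivity) hgr (EHom.id _)
  -- make the degree positive
  set h' : MvPolynomial (Fin (z + 1)) K := MvPolynomial.X 0 * h with hh'
  have h0' : h' ≠ 0 := mul_ne_zero (MvPolynomial.X_ne_zero _) h0
  have hhom' : h'.IsHomogeneous (1 + d) := (MvPolynomial.isHomogeneous_X _ _).mul hhom
  obtain ⟨T, hT1, hT2, hT3⟩ := exists_T (FRep.L Y A) w h' (1 + d) (by omega) hhom'
  have hJ2 : Ann A * Ann A ≤ Ann T :=
    (Ideal.mul_mono (Ann_L Y A) (Ann_L Y A)).trans hT2
  obtain ⟨w', hw', hI'⟩ := intMod_step p (Ann A) (Ann T) w hw hA h' h0' (1 + d) hhom' hT1 hJ2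
  refine ⟨T, w', hw', hI', N, e, ?_, ?_⟩
  · calc (N : ℝ) ≤ C2 * ((C1 : ℝ) * finrank K A.V * k) := hN
      _ = C2 * ((C1 : ℝ) * finrank K A.V) * k := by ring
  · intro U a
    rw [← hh_adj]
    refine (hT3 U a).trans (Nat.add_le_add_left ?_ _)
    refine le_trans ?_ (hrank U a)
    set f1 : HH U (FRep.L Y A) →ₗ[K] HH U (FRep.L Y A) :=
      (act (fun i => bw (w i)) U (FRep.L Y A) h) ∘ₗ push U (EHom.id (FRep.L Y A)) with hf1
    have h1 : act (fun i => bw (w i)) U (FRep.L Y A) h' =
        (act (fun i => bw (w i)) U (FRep.L Y A) (MvPolynomial.X 0)) ∘ₗ f1 := by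
      refine LinearMap.ext fun x => ?_
      rw [hh', act_mul, LinearMap.comp_apply, hf1, LinearMap.comp_apply, push_id]
    rw [h1, Submodule.map_comp]
    exact Submodule.finrank_map_le _ _

end Pool.Agent.H34.Gam

end
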