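import Pool.Agent.H34.Gam.ChML
import Pool.Agent.H34.Gam.Bop

/-!
Calculus of almost isomorphisms (job GAM-CHAI).
-/

set_option autoImplicit false
set_option linter.unusedSectionVars false

noncomputable section

namespace Pool.Agent.H34.Gam

open Module

variable {K P : Type} [Field K] [Group P] [Fintype P] {p : ℕ} [Fact p.Prime] [CharP K p]
variable (A : Subgroup P) [Fintype A]

theorem Neg_sub (hP : IsPGroup p P) {R Y Y'' : FRep K A} (S : SES R Y Y'') (hY : Neg A Y)
    (hY'' : Neg A Y'') : Neg A R := by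
  obtain ⟨C, hC⟩ := ML_ses A hP S
  obtain ⟨C1, hC1⟩ := hY
  obtain ⟨C2, hC2⟩ := hY''
  refine ⟨C1 + Fintype.card P * (C + C2), fun W => ?_⟩
  obtain ⟨-, Q', T, -, hQ⟩ := hC W
  have h1 := cc_quo hP T
  have h2 := hC1 W
  have h3 := hC2 W
  have h4 : cc Q' ≤ (C + C2) * del W := by
    rw [add_mul]; omega
  have h5 := Nat.mul_le_mul_left (Fintype.card P) h4
  calc cc (FRep.ML A R W) ≤ cc (FRep.ML A Y W) + Fintype.card P * cc Q' := h1
    _ ≤ C1 * del W + Fintype.card P * ((C + C2) * del W) := by omega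
    _ = _ := by ring

theorem Neg_ext (hP : IsPGroup p P) {R Y Y'' : FRep K A} (S : SES R Y Y'') (hR : Neg A R)
    (hY'' : Neg A Y'') : Neg A Y := by
  obtain ⟨C, hC⟩ := ML_ses A hP S
  obtain ⟨C1, hC1⟩ := hR
  obtain ⟨C2, hC2⟩ := hY''
  refine ⟨C + C2 + C1, fun W => ?_⟩
  obtain ⟨-, Q', T, -, hQ⟩ := hC W
  have h1 := cc_ses hP T
  have h2 := hC1 W
  have h3 := hC2 W
  calc cc (FRep.ML A Y W) ≤ cc Q' + cc (FRep.ML A R W) := h1
    _ ≤ (C * del W + C2 * del W) + C1 * del W := by omega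
    _ = _ := by ring

theorem Neg_quo (hP : IsPGroup p P) {R Y Y'' : FRep K A} (S : SES R Y Y'') (hR : Neg A R)
    (hY : Neg A Y) : Neg A Y'' := by
  obtain ⟨C, hC⟩ := ML_ses A hP S
  obtain ⟨C1, hC1⟩ := hR
  obtain ⟨C2, hC2⟩ := hY
  refine ⟨C2 + Fintype.card P * (C + C1), fun W => ?_⟩
  obtain ⟨⟨Q, T, -, hQ⟩, -⟩ := hC W
  have h1 := cc_sub hP T
  have h2 := hC1 W
  have h3 := hC2 W
  have h4 : cc Q ≤ (C + C1) * del W := by
    rw [add_mul]; omega
  have h5 := Nat.mul_le_mul_left (Fintype.card P) h4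
  calc cc (FRep.ML A Y'' W) ≤ cc (FRep.ML A Y W) + Fintype.card P * cc Q := h1
    _ ≤ C2 * del W + Fintype.card P * ((C + C1) * del W) := by omega
    _ = _ := by ring

theorem AI_comp {Y Y' Y'' : FRep K A} (f : EHom Y' Y'') (e : EHom Y Y') (hf : AI A f)
    (he : AI A e) : AI A ((ecomp f e)) := by
  obtain ⟨C, hC⟩ := hf
  obtain ⟨C', hC'⟩ := he
  refine ⟨C + C', fun W => ?_⟩
  obtain ⟨h1, h2⟩ := hC W
  obtain ⟨h3, h4⟩ := hC' W
  have h5 := Fr_comp_ge (MLm A e W) (MLm A f W)
  rw [MLm_comp, add_mul]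
  omega

theorem AI_of_comp_left {Y Y' Y'' : FRep K A} (f : EHom Y' Y'') (e : EHom Y Y')
    (he : AI A e) (hfe : AI A ((ecomp f e))) : AI A f := by
  obtain ⟨C, hC⟩ := he
  obtain ⟨C', hC'⟩ := hfe
  refine ⟨C + C', fun W => ?_⟩
  obtain ⟨h1, h2⟩ := hC W
  obtain ⟨h3, h4⟩ := hC' W
  rw [MLm_comp] at h3 h4
  have h5 := Fr_comp_right (MLm A e W) (MLm A f W)
  have h6 := Fr_le_right (MLm A e W)
  rw [add_mul]
  omega

theorem AI_of_comp_right {Y Y' Y'' : FRep K A} (f : EHom Y' Y'') (e : EHom Y Y')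
    (hf : AI A f) (hfe : AI A ((ecomp f e))) : AI A e := by
  obtain ⟨C, hC⟩ := hf
  obtain ⟨C', hC'⟩ := hfe
  refine ⟨C + C', fun W => ?_⟩
  obtain ⟨h1, h2⟩ := hC W
  obtain ⟨h3, h4⟩ := hC' W
  rw [MLm_comp] at h3 h4
  have h5 := Fr_comp_left (MLm A e W) (MLm A f W)
  have h6 := Fr_le_left (MLm A f W)
  rw [add_mul]
  omega

theorem AI_of_bijective {Y Y' : FRep K A} (f : EHom Y Y') (hf : Function.Bijective f.1) :
    AI A f := by
  let ef := LinearEquiv.ofBijective f.1 hf
  have hef : ∀ x, ef x = f.1 x := fun x => rfl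
  let g : EHom Y' Y := ⟨ef.symm.toLinearMap, by
    intro a y
    show ef.symm (Y'.ρ a y) = Y.ρ a (ef.symm y)
    rw [LinearEquiv.symm_apply_eq, hef, EHom.map, ← hef, LinearEquiv.apply_symm_apply]⟩
  have hgf : (ecomp g f) = EHom.id Y := by
    apply EHom.ext'
    intro x
    show ef.symm (f.1 x) = x
    rw [← hef, LinearEquiv.symm_apply_apply]
  have hfg : (ecomp f g) = EHom.id Y' := by
    apply EHom.ext'
    intro x
    show f.1 (ef.symm x) = x
    rw [← hef, LinearEquiv.apply_symm_apply]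
  refine ⟨0, fun W => ?_⟩
  have h1 : Fd (FRep.ML A Y W) ≤ Fr (MLm A f W) := by
    rw [← Fr_id, ← MLm_id, ← hgf, MLm_comp]
    exact Fr_comp_left _ _
  have h2 : Fd (FRep.ML A Y' W) ≤ Fr (MLm A f W) := by
    rw [← Fr_id, ← MLm_id, ← hfg, MLm_comp]
    exact Fr_comp_right _ _
  omega

/-- null maps are small -/
theorem SmallMap_null (hP : IsPGroup p P) (hA : ∃ a : A, a ≠ 1) {Y Y' : FRep K A}
    {f : EHom Y Y'} (hf : f ∈ Null Y Y') : SmallMap A f := by
  obtain ⟨φ, hφ⟩ := hf
  obtain ⟨C, hC⟩ := Neg_Fn A hP hA Y'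
  let F : EHom Y (FRep.Fn Y') := ⟨LinearMap.pi fun g => Y'.ρ g ∘ₗ φ ∘ₗ Y.ρ g⁻¹, by
    intro h u
    funext g
    rw [FRep.Fn_apply]
    simp only [LinearMap.pi_apply, LinearMap.comp_apply]
    rw [← FRep.mul_apply, ← FRep.mul_apply]
    have e1 : h * (h⁻¹ * g) = g := by group
    have e2 : (h⁻¹ * g)⁻¹ = g⁻¹ * h := by group
    rw [e1, e2]⟩
  let Sg : EHom (FRep.Fn Y') Y' := ⟨∑ g : A, LinearMap.proj g, by
    intro h u
    simp only [LinearMap.sum_apply, LinearMap.proj_apply, map_sum]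
    rw [← Equiv.sum_comp (Equiv.mulLeft h)]
    refine Finset.sum_congr rfl fun g _ => ?_
    rw [FRep.Fn_apply]
    simp⟩
  have hf2 : f = (ecomp Sg F) := by
    apply EHom.ext'
    intro x
    have h1 : f.1 x = Tr Y Y' φ x := by rw [hφ]; rfl
    rw [h1, Tr_apply]
    show _ = (∑ g : A, LinearMap.proj g : (A → Y'.V) →ₗ[K] Y'.V) (F.1 x)
    rw [LinearMap.sum_apply]
    rfl
  refine ⟨C, fun W => ?_⟩
  rw [hf2, MLm_comp]
  calc Fr ((ecomp (MLm A F W) (MLm A Sg W))) ≤ Fr (MLm A F W) := Fr_comp_left _ _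
    _ ≤ Fd (FRep.ML A (FRep.Fn Y') W) := Fr_le_left _
    _ ≤ cc (FRep.ML A (FRep.Fn Y') W) := Fd_le_cc hP _
    _ ≤ _ := hC W

/-- `f^*` only depends on the stable class of `f`, up to small maps -/
theorem MLm_congr (hP : IsPGroup p P) (hA : ∃ a : A, a ≠ 1) {Y Y' : FRep K A}
    {f f' : EHom Y Y'} (h : cl f = cl f') :
    ∃ C : ℕ, ∀ W : FRep K P, Fr (MLm A f W - MLm A f' W) ≤ C * del W := by
  have h1 := cl_eq.1 h
  obtain ⟨C, hC⟩ := SmallMap_null A hP hA h1
  obtain ⟨C', hC'⟩ := MLm_add A hP f' (f - f')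
  refine ⟨C + C', fun W => ?_⟩
  have h2 := hC' W
  rw [add_sub_cancel] at h2
  have h3 := Fr_sub_le (MLm A f W - MLm A f' W) (MLm A (f - f') W)
  have h4 := hC W
  rw [add_mul]
  omega

theorem AI_congr (hP : IsPGroup p P) (hA : ∃ a : A, a ≠ 1) {Y Y' : FRep K A}
    {f f' : EHom Y Y'} (h : cl f = cl f') (hf : AI A f) : AI A f' := by
  obtain ⟨C, hC⟩ := hf
  obtain ⟨C', hC'⟩ := MLm_congr A hP hA h
  refine ⟨C + C', fun W => ?_⟩
  obtain ⟨h1, h2⟩ := hC W
  have h3 := hC' W
  have h4 := Fr_sub_le (MLm A f W) (MLm A f' W)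
  rw [add_mul]
  omega

theorem AI_p (hP : IsPGroup p P) {R Y Y'' : FRep K A} (S : SES R Y Y'') (hR : Neg A R) :
    AI A S.p := by
  obtain ⟨C, hC⟩ := ML_ses A hP S
  obtain ⟨C', hC'⟩ := hR
  refine ⟨(Fintype.card P + 1) * (C + C'), fun W => ?_⟩
  obtain ⟨⟨Q, T, hT, hQ⟩, -⟩ := hC W
  obtain ⟨h1, h2⟩ := Fr_ses_i hP T
  rw [hT] at h1 h2
  have h3 := hC' W
  have h4 : cc Q ≤ (C + C') * del W := by
    rw [add_mul]; omega
  have h5 := Nat.mul_le_mul_left (Fintype.card P) h4
  have h6 : (Fintype.card P + 1) * (C + C') * del W =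
      Fintype.card P * ((C + C') * del W) + (C + C') * del W := by ring
  rw [h6]
  omega

theorem AI_i (hP : IsPGroup p P) {R Y Y'' : FRep K A} (S : SES R Y Y'') (hY'' : Neg A Y'') :
    AI A S.i := by
  obtain ⟨C, hC⟩ := ML_ses A hP S
  obtain ⟨C', hC'⟩ := hY''
  refine ⟨(Fintype.card P + 1) * (C + C'), fun W => ?_⟩
  obtain ⟨-, Q, T, hT, hQ⟩ := hC W
  obtain ⟨h1, h2⟩ := Fr_ses_p hP T
  rw [hT] at h1 h2
  have h3 := hC' W
  have h4 : cc Q ≤ (C + C') * del W := by
    rw [add_mul]; omega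
  have h5 := Nat.mul_le_mul_left (Fintype.card P) h4
  have h6 : (Fintype.card P + 1) * (C + C') * del W =
      Fintype.card P * ((C + C') * del W) + (C + C') * del W := by ring
  rw [h6]
  omega

/-- direct sum -/
abbrev FRep.D {G : Type} [Group G] (U W : FRep K G) : FRep K G where
  V := U.V × W.V
  ρ :=
    { toFun := fun g => (U.ρ g).prodMap (W.ρ g)
      map_one' := by
        refine LinearMap.ext fun x => ?_
        show (U.ρ 1 x.1, W.ρ 1 x.2) = x
        rw [FRep.one_apply, FRep.one_apply]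
      map_mul' := by
        intro g h
        refine LinearMap.ext fun x => ?_
        show (U.ρ (g * h) x.1, W.ρ (g * h) x.2) = (U.ρ g (U.ρ h x.1), W.ρ g (W.ρ h x.2))
        rw [FRep.mul_apply, FRep.mul_apply] }

lemma FRep.D_apply {G : Type} [Group G] (U W : FRep K G) (g : G) (x : U.V × W.V) :
    (FRep.D U W).ρ g x = (U.ρ g x.1, W.ρ g x.2) := rfl

/-- the sequence `Y'' → Y'' ⊕ Z → Z` -/
def sesD {G : Type} [Group G] [Fintype G] (U Z : FRep K G) : SES U (FRep.D U Z) Z where
  i := ⟨LinearMap.inl K U.V Z.V, fun g x => by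
    show (U.ρ g x, (0 : Z.V)) = (U.ρ g x, Z.ρ g 0)
    rw [map_zero]⟩
  p := ⟨LinearMap.snd K U.V Z.V, fun g x => rfl⟩
  s := LinearMap.inr K U.V Z.V
  r := LinearMap.fst K U.V Z.V
  ri := fun a => rfl
  ps := fun c => rfl
  pi := fun a => rfl
  sum := fun b => by
    show (b.1, (0 : Z.V)) + ((0 : U.V), b.2) = b
    rw [Prod.mk_add_mk, add_zero, zero_add]

/-- the sequence `Y → Y'' ⊕ Fn R → Sh R` -/
def sesδ {G : Type} [Group G] [Fintype G] {R Y Y'' : FRep K G} (S : SES R Y Y'') :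
    SES Y (FRep.D Y'' (FRep.Fn R)) (FRep.Sh R) :=
  have key : ∀ (y : Y.V) (g : G),
      S.i.1 (R.ρ g (S.r (Y.ρ g⁻¹ y))) = y - Y.ρ g (S.s (Y''.ρ g⁻¹ (S.p.1 y))) := by
    intro y g
    have h := S.sum (Y.ρ g⁻¹ y)
    have h2 := congrArg (Y.ρ g) h
    rw [map_add, FRep.self_inv, EHom.map] at h2
    rw [EHom.map, eq_sub_iff_add_eq]
    exact h2
  SES.mk'
    ⟨(S.p.1).prod (LinearMap.pi fun g => R.ρ g ∘ₗ S.r ∘ₗ Y.ρ g⁻¹), by
      intro h y
      refine Prod.ext (EHom.map S.p h y) ?_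
      funext g
      show R.ρ g (S.r (Y.ρ g⁻¹ (Y.ρ h y))) =
        R.ρ h (R.ρ (h⁻¹ * g) (S.r (Y.ρ (h⁻¹ * g)⁻¹ y)))
      rw [← FRep.mul_apply, ← FRep.mul_apply]
      have e1 : h * (h⁻¹ * g) = g := by group
      have e2 : (h⁻¹ * g)⁻¹ = g⁻¹ * h := by group
      rw [e1, e2]⟩
    ⟨(S.δ.1).coprod (shq R), by
      intro h x
      show S.δ.1 (Y''.ρ h x.1) + shq R ((FRep.Fn R).ρ h x.2) = _
      rw [EHom.map]
      show _ = (FRep.Sh R).ρ h (S.δ.1 x.1 + shq R x.2)
      rw [map_add]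
      rfl⟩
    (by
      intro y y' h
      rw [← sub_eq_zero]
      have h0 : ∀ z : Y.V, S.p.1 z = 0 → S.r z = 0 → z = 0 := by
        intro z h1 h2
        have h3 := S.sum z
        rw [h1, h2, map_zero, map_zero, add_zero] at h3
        exact h3.symm
      have h1 : S.p.1 y = S.p.1 y' := congrArg Prod.fst h
      have h2 := congrFun (congrArg Prod.snd h) 1
      have h3 : R.ρ 1 (S.r (Y.ρ 1⁻¹ y)) = R.ρ 1 (S.r (Y.ρ 1⁻¹ y')) := h2
      rw [inv_one, FRep.one_apply, FRep.one_apply, FRep.one_apply, FRep.one_apply] at h3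
      apply h0
      · rw [map_sub, h1, sub_self]
      · rw [map_sub, h3, sub_self])
    (by
      intro x
      obtain ⟨f, rfl⟩ := shq_surjective R x
      refine ⟨((0 : Y''.V), f), ?_⟩
      show S.δ.1 0 + shq R f = shq R f
      rw [map_zero, zero_add])
    (by
      rintro ⟨c, f⟩
      show S.δ.1 c + shq R f = 0 ↔ ∃ y, ((S.p.1 y, fun g => R.ρ g (S.r (Y.ρ g⁻¹ y))) :
        Y''.V × (G → R.V)) = (c, f)
      rw [SES.δ_apply, ← map_add, shq_eq_zero]
      constructor
      · rintro ⟨w, hw⟩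
        refine ⟨S.s c + S.i.1 w, ?_⟩
        have hp : S.p.1 (S.s c + S.i.1 w) = c := by
          rw [map_add, S.ps, S.pi, add_zero]
        refine Prod.ext hp ?_
        funext g
        apply S.i_injective
        show S.i.1 (R.ρ g (S.r (Y.ρ g⁻¹ (S.s c + S.i.1 w)))) = S.i.1 (f g)
        rw [key, hp]
        have h1 := congrArg S.i.1 (hw g)
        rw [Pi.add_apply, map_add, S.i_dfun] at h1
        rw [← h1]
        abel
      · rintro ⟨y, hy⟩
        have h1 : S.p.1 y = c := congrArg Prod.fst hy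
        have h2 : ∀ g, R.ρ g (S.r (Y.ρ g⁻¹ y)) = f g := fun g =>
          congrFun (congrArg Prod.snd hy) g
        refine ⟨S.r y, fun g => ?_⟩
        apply S.i_injective
        rw [Pi.add_apply, map_add, S.i_dfun, ← h2, key, h1]
        have h3 := S.sum y
        rw [h1] at h3
        rw [eq_sub_of_add_eq h3]
        abel)

lemma sesδ_p {G : Type} [Group G] [Fintype G] {R Y Y'' : FRep K G} (S : SES R Y Y'') :
    (ecomp ((sesδ S).p) ((sesD Y'' (FRep.Fn R)).i)) = S.δ := by
  apply EHom.ext'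
  intro x
  show S.δ.1 x + shq R 0 = S.δ.1 x
  rw [map_zero, add_zero]

/-- the connecting map is an almost isomorphism if the middle term is negligible -/
theorem AI_δ (hP : IsPGroup p P) (hA : ∃ a : A, a ≠ 1) {R Y Y'' : FRep K A} (S : SES R Y Y'')
    (hY : Neg A Y) : AI A S.δ := by
  rw [← sesδ_p]
  exact AI_comp A _ _ (AI_p A hP (sesδ S) hY) (AI_i A hP _ (Neg_Fn A hP hA R))

theorem Neg_Sh (hP : IsPGroup p P) (hA : ∃ a : A, a ≠ 1) {Y : FRep K A} (hY : Neg A Y) :
    Neg A (FRep.Sh Y) :=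
  Neg_quo A hP (sesSh Y) hY (Neg_Fn A hP hA Y)

/-- the number attached to a group element -/
def nchi {G : Type} [Group G] (χ : G →* Multiplicative (ZMod p)) (g : G) : ℕ :=
  (Multiplicative.toAdd (χ g)).val

lemma nchi_lt {G : Type} [Group G] (χ : G →* Multiplicative (ZMod p)) (g : G) : nchi χ g < p :=
  ZMod.val_lt _

lemma nchi_key {G : Type} [Group G] (χ : G →* Multiplicative (ZMod p)) (k x : G) :
    nchi χ (k⁻¹ * x) + nchi χ k = nchi χ x + (if nchi χ x < nchi χ k then p else 0) := by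
  have hx := nchi_lt χ x
  have hk := nchi_lt χ k
  have hy := nchi_lt χ (k⁻¹ * x)
  have h1 : (nchi χ (k⁻¹ * x) + nchi χ k) % p = nchi χ x := by
    have h0 : χ x = χ (k⁻¹ * x) * χ k := by
      rw [map_mul, map_inv, mul_comm (χ k)⁻¹, mul_assoc, inv_mul_cancel, mul_one]
    have : Multiplicative.toAdd (χ x) =
        Multiplicative.toAdd (χ (k⁻¹ * x)) + Multiplicative.toAdd (χ k) :=
      congrArg Multiplicative.toAdd h0
    unfold nchi
    conv_rhs => rw [this]
    rw [ZMod.val_add]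
  by_cases hlt : nchi χ x < nchi χ k
  · rw [if_pos hlt]
    have : ¬ nchi χ (k⁻¹ * x) + nchi χ k < p := by
      intro h2
      rw [Nat.mod_eq_of_lt h2] at h1
      omega
    have h3 : nchi χ (k⁻¹ * x) + nchi χ k - p < p := by omega
    have h4 : (nchi χ (k⁻¹ * x) + nchi χ k) % p = nchi χ (k⁻¹ * x) + nchi χ k - p := by
      rw [Nat.mod_eq_sub_mod (by omega), Nat.mod_eq_of_lt h3]
    omega
  · rw [if_neg hlt]
    by_cases h2 : nchi χ (k⁻¹ * x) + nchi χ k < p
    · rw [Nat.mod_eq_of_lt h2] at h1; omega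
    · have h3 : nchi χ (k⁻¹ * x) + nchi χ k - p < p := by omega
      have h4 : (nchi χ (k⁻¹ * x) + nchi χ k) % p = nchi χ (k⁻¹ * x) + nchi χ k - p := by
        rw [Nat.mod_eq_sub_mod (by omega), Nat.mod_eq_of_lt h3]
      omega

lemma bchi_inv {G : Type} [Group G] (χ : G →* Multiplicative (ZMod p)) (k g h : G) :
    (if nchi χ (k⁻¹ * g) < nchi χ (k⁻¹ * h) then (1 : K) else 0) =
      (if nchi χ g < nchi χ h then 1 else 0) + (-(if nchi χ g < nchi χ k then 1 else 0)) +
        (if nchi χ h < nchi χ k then 1 else 0) := by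
  have kg := nchi_key χ k g
  have kh := nchi_key χ k h
  have hg := nchi_lt χ g
  have hh := nchi_lt χ h
  by_cases a1 : nchi χ g < nchi χ k <;> by_cases a2 : nchi χ h < nchi χ k <;>
    by_cases a3 : nchi χ g < nchi χ h <;>
    by_cases a4 : nchi χ (k⁻¹ * g) < nchi χ (k⁻¹ * h) <;>
    simp only [a1, a2, a3, a4, if_true, if_false] at kg kh ⊢ <;>
    first
      | (exfalso; omega)
      | simp

/-- the carry cochain of a homomorphism to `ℤ/p` -/
def bchi {G : Type} [Group G] (χ : G →* Multiplicative (ZMod p)) : BF K G :=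
  ⟨fun g h => if (Multiplicative.toAdd (χ g)).val < (Multiplicative.toAdd (χ h)).val then 1 else 0,
    fun k => ⟨fun g => -(if nchi χ g < nchi χ k then 1 else 0),
      fun h => if nchi χ h < nchi χ k then 1 else 0, fun g h => bchi_inv χ k g h⟩⟩

/-! ### the carry class is an almost isomorphism -/

section Bchi

variable {G : Type} [Group G] (χ : G →* Multiplicative (ZMod p))

/-- functions on `ℤ/p`, with `g` acting by translation by `χ g` -/
abbrev FRep.Iz (K : Type) [Field K] : FRep K G where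
  V := ZMod p → K
  ρ :=
    { toFun := fun g => LinearMap.funLeft K K (fun i => i - Multiplicative.toAdd (χ g))
      map_one' := by
        refine LinearMap.ext fun f => funext fun i => ?_
        show f (i - Multiplicative.toAdd (χ 1)) = f i
        rw [map_one, toAdd_one, sub_zero]
      map_mul' := by
        intro g h
        refine LinearMap.ext fun f => funext fun i => ?_
        show f (i - Multiplicative.toAdd (χ (g * h))) =
          f (i - Multiplicative.toAdd (χ g) - Multiplicative.toAdd (χ h))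
        rw [map_mul, toAdd_mul, sub_add_eq_sub_sub] }

omit [CharP K p] in
lemma FRep.Iz_apply (g : G) (f : ZMod p → K) (i : ZMod p) :
    ((FRep.Iz χ K).ρ g f : ZMod p → K) i = f (i - Multiplicative.toAdd (χ g)) := rfl

/-- the sum of a function on `ℤ/p` -/
def sumZ (K : Type) [Field K] (p : ℕ) [Fact p.Prime] : (ZMod p → K) →ₗ[K] K :=
  ∑ i : ZMod p, LinearMap.proj i

omit [CharP K p] in
lemma sumZ_apply (f : ZMod p → K) : sumZ K p f = ∑ i, f i := by
  unfold sumZ
  rw [LinearMap.sum_apply]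
  rfl

omit [CharP K p] in
lemma sumZ_shift (f : ZMod p → K) (c : ZMod p) : sumZ K p (fun i => f (i - c)) = sumZ K p f := by
  rw [sumZ_apply, sumZ_apply]
  exact Equiv.sum_comp (Equiv.subRight c) f

omit [CharP K p] in
lemma sumZ_range (f : ZMod p → K) : sumZ K p f = ∑ j ∈ Finset.range p, f (j : ZMod p) := by
  rw [sumZ_apply]
  refine Finset.sum_bij' (fun i _ => i.val) (fun j _ => (j : ZMod p)) ?_ ?_ ?_ ?_ ?_
  · intro i _
    exact Finset.mem_range.2 (ZMod.val_lt i)
  · intro j _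
    exact Finset.mem_univ _
  · intro i _
    exact ZMod.natCast_zmod_val i
  · intro j hj
    exact ZMod.val_cast_of_lt (Finset.mem_range.1 hj)
  · intro i _
    show f i = f ((i.val : ℕ) : ZMod p)
    rw [ZMod.natCast_zmod_val]

/-- functions of sum zero -/
abbrev FRep.Cz (K : Type) [Field K] : FRep K G :=
  FRep.sub (FRep.Iz χ K) (LinearMap.ker (sumZ K p)) (by
    intro g f hf
    rw [LinearMap.mem_ker] at hf ⊢
    exact (sumZ_shift f _).trans hf)

omit [CharP K p] in
lemma FRep.Cz_apply (g : G) (c : (FRep.Cz χ K).V) (i : ZMod p) :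
    ((FRep.Cz χ K).ρ g c).1 i = c.1 (i - Multiplicative.toAdd (χ g)) := rfl

/-- the difference operator -/
def dz (K : Type) [Field K] (p : ℕ) [Fact p.Prime] :
    (ZMod p → K) →ₗ[K] LinearMap.ker (sumZ K p) :=
  LinearMap.codRestrict _
    { toFun := fun f i => f (i + 1) - f i
      map_add' := by
        intro f f'
        funext i
        simp only [Pi.add_apply]
        abel
      map_smul' := by
        intro c f
        funext i
        simp only [Pi.smul_apply, smul_eq_mul, RingHom.id_apply]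
        ring }
    (by
      intro f
      rw [LinearMap.mem_ker, sumZ_apply]
      show ∑ i, (f (i + 1) - f i) = 0
      rw [Finset.sum_sub_distrib, sub_eq_zero]
      exact Equiv.sum_comp (Equiv.addRight (1 : ZMod p)) f)

omit [CharP K p] in
lemma dz_apply (f : ZMod p → K) (i : ZMod p) : (dz K p f).1 i = f (i + 1) - f i := rfl

/-- summation -/
def s0z (K : Type) [Field K] (p : ℕ) [Fact p.Prime] :
    LinearMap.ker (sumZ K p) →ₗ[K] (ZMod p → K) where
  toFun c i := ∑ j ∈ Finset.range i.val, c.1 (j : ZMod p)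
  map_add' := by
    intro c c'
    funext i
    exact Finset.sum_add_distrib
  map_smul' := by
    intro a c
    funext i
    exact (Finset.mul_sum _ _ _).symm

omit [CharP K p] in
lemma s0z_apply (c : LinearMap.ker (sumZ K p)) (i : ZMod p) :
    s0z K p c i = ∑ j ∈ Finset.range i.val, c.1 (j : ZMod p) := rfl

/-- `K → I → C` -/
def S0z : SES (FRep.triv K G) (FRep.Iz χ K) (FRep.Cz χ K) where
  i := ⟨LinearMap.pi fun _ => LinearMap.id, fun g x => rfl⟩
  p := ⟨dz K p, by
    intro g f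
    apply Subtype.ext
    funext i
    show f (i + 1 - Multiplicative.toAdd (χ g)) - f (i - Multiplicative.toAdd (χ g)) =
      f (i - Multiplicative.toAdd (χ g) + 1) - f (i - Multiplicative.toAdd (χ g))
    congr 2
    ring⟩
  s := s0z K p
  r := LinearMap.proj 0
  ri := fun a => rfl
  ps := by
    intro c
    apply Subtype.ext
    funext i
    show s0z K p c (i + 1) - s0z K p c i = c.1 i
    rw [s0z_apply, s0z_apply]
    have hi := ZMod.val_lt i
    by_cases h : i.val + 1 < p
    · have h1 : (i + 1).val = i.val + 1 := by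
        have h2 : ((i.val + 1 : ℕ) : ZMod p) = i + 1 := by
          rw [Nat.cast_add, ZMod.natCast_zmod_val, Nat.cast_one]
        rw [← h2, ZMod.val_cast_of_lt h]
      rw [h1, Finset.sum_range_succ, ZMod.natCast_zmod_val]
      ring
    · have h0 : i.val + 1 = p := by omega
      have h1 : (i + 1).val = 0 := by
        have h2 : ((i.val + 1 : ℕ) : ZMod p) = i + 1 := by
          rw [Nat.cast_add, ZMod.natCast_zmod_val, Nat.cast_one]
        rw [← h2, h0, ZMod.natCast_self, ZMod.val_zero]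
      have h3 : ∑ j ∈ Finset.range p, c.1 (j : ZMod p) = 0 := by
        rw [← sumZ_range]
        exact c.2
      have h4 : ∑ j ∈ Finset.range (i.val + 1), c.1 (j : ZMod p) = 0 := by
        rw [h0]; exact h3
      rw [Finset.sum_range_succ, ZMod.natCast_zmod_val] at h4
      rw [h1, Finset.range_zero, Finset.sum_empty, zero_sub]
      exact (eq_neg_of_add_eq_zero_right h4).symm
  pi := by
    intro a
    apply Subtype.ext
    funext i
    show a - a = 0
    rw [sub_self]
  sum := by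
    intro f
    funext i
    show f 0 + s0z K p (dz K p f) i = f i
    rw [s0z_apply]
    have h1 : ∑ j ∈ Finset.range i.val, (dz K p f).1 (j : ZMod p) =
        ∑ j ∈ Finset.range i.val, (f (((j + 1 : ℕ)) : ZMod p) - f (j : ZMod p)) := by
      refine Finset.sum_congr rfl fun j _ => ?_
      rw [dz_apply, Nat.cast_add, Nat.cast_one]
    rw [h1, Finset.sum_range_sub (fun j : ℕ => f (j : ZMod p)), ZMod.natCast_zmod_val,
      Nat.cast_zero]
    ring

/-- `C → I → K` -/
def S1z : SES (FRep.Cz χ K) (FRep.Iz χ K) (FRep.triv K G) where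
  i := ⟨(LinearMap.ker (sumZ K p)).subtype, fun g x => rfl⟩
  p := ⟨sumZ K p, fun g f => sumZ_shift f _⟩
  s := LinearMap.single K (fun _ : ZMod p => K) 0
  r := LinearMap.codRestrict _
    (LinearMap.id - LinearMap.single K (fun _ : ZMod p => K) 0 ∘ₗ sumZ K p) (by
      intro f
      rw [LinearMap.mem_ker]
      show sumZ K p (f - Pi.single 0 (sumZ K p f)) = 0
      rw [map_sub, sumZ_apply (Pi.single 0 _), Finset.sum_pi_single', if_pos (Finset.mem_univ _),
        sub_self])
  ri := by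
    intro a
    apply Subtype.ext
    show a.1 - Pi.single 0 (sumZ K p a.1) = a.1
    have h : sumZ K p a.1 = 0 := a.2
    rw [h, Pi.single_zero, sub_zero]
  ps := by
    intro c
    show sumZ K p (Pi.single 0 c) = c
    rw [sumZ_apply, Finset.sum_pi_single', if_pos (Finset.mem_univ _)]
  pi := fun a => a.2
  sum := by
    intro f
    show (f - Pi.single 0 (sumZ K p f)) + Pi.single 0 (sumZ K p f) = f
    rw [sub_add_cancel]

omit [CharP K p] in
lemma sum_range_ite (m : ℕ) (hm : m ≤ p) (x : ZMod p) :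
    (∑ j ∈ Finset.range m, if (j : ZMod p) = x then (1 : K) else 0) =
      if x.val < m then 1 else 0 := by
  have h : ∀ j ∈ Finset.range m, (if (j : ZMod p) = x then (1 : K) else 0) =
      if j = x.val then 1 else 0 := by
    intro j hj
    have hj' := Finset.mem_range.1 hj
    have h1 : (j : ZMod p) = x ↔ j = x.val := by
      constructor
      · rintro rfl
        exact (ZMod.val_cast_of_lt (by omega)).symm
      · rintro rfl
        exact ZMod.natCast_zmod_val x
    simp only [h1]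
  rw [Finset.sum_congr rfl h, Finset.sum_ite_eq']
  simp only [Finset.mem_range]

variable [Fintype G]

lemma S1z_dfun (k : K) (g : G) (i : ZMod p) :
    ((S1z χ).dfun k g).1 i =
      k * ((if i - Multiplicative.toAdd (χ g) = 0 then 1 else 0) - (if i = 0 then 1 else 0)) := by
  have h1 : ((S1z χ).dfun k g).1 i = (Pi.single 0 k : ZMod p → K) (i - Multiplicative.toAdd (χ g)) -
      (Pi.single 0 (sumZ K p (fun i => (Pi.single 0 k : ZMod p → K)
        (i - Multiplicative.toAdd (χ g)))) : ZMod p → K) i := rfl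
  rw [h1, sumZ_shift, sumZ_apply, Finset.sum_pi_single', if_pos (Finset.mem_univ _),
    Pi.single_apply, Pi.single_apply]
  split_ifs <;> ring

lemma S0z_dfun (c : (FRep.Cz χ K).V) (h : G) :
    (S0z χ).dfun c h = ∑ j ∈ Finset.range (0 - Multiplicative.toAdd (χ h)).val,
      c.1 ((j : ZMod p) - Multiplicative.toAdd (χ h⁻¹)) := rfl

lemma nchi_one : nchi χ 1 = 0 := by
  unfold nchi
  rw [map_one, toAdd_one, ZMod.val_zero]

lemma comp_value (k : K) (g h : G) : (S0z χ).dfun ((S1z χ).dfun k g) h =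
    - ((if nchi χ g < nchi χ h then 1 else 0) * k) + (if nchi χ h = 0 then 0 else 1) * k := by
  rw [S0z_dfun]
  have e1 : (0 - Multiplicative.toAdd (χ h)).val = nchi χ (h⁻¹ * 1) := by
    unfold nchi
    rw [mul_one, map_inv, toAdd_inv, zero_sub]
  have hneg : Multiplicative.toAdd (χ h⁻¹) = - Multiplicative.toAdd (χ h) := by
    rw [map_inv, toAdd_inv]
  have e2 : ∀ j ∈ Finset.range (nchi χ (h⁻¹ * 1)),
      ((S1z χ).dfun k g).1 ((j : ZMod p) - Multiplicative.toAdd (χ h⁻¹)) =
      k * (if (j : ZMod p) = Multiplicative.toAdd (χ g) - Multiplicative.toAdd (χ h) then 1 else 0)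
      - k * (if (j : ZMod p) = 0 - Multiplicative.toAdd (χ h) then 1 else 0) := by
    intro j _
    rw [S1z_dfun, hneg]
    have a1 : ((j : ZMod p) - -Multiplicative.toAdd (χ h) - Multiplicative.toAdd (χ g) = 0) ↔
        (j : ZMod p) = Multiplicative.toAdd (χ g) - Multiplicative.toAdd (χ h) := by
      rw [sub_eq_zero, sub_neg_eq_add, eq_sub_iff_add_eq]
    have a2 : ((j : ZMod p) - -Multiplicative.toAdd (χ h) = 0) ↔
        (j : ZMod p) = 0 - Multiplicative.toAdd (χ h) := by
      rw [sub_neg_eq_add, eq_sub_iff_add_eq]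
    simp only [a1, a2]
    ring
  have hle : nchi χ (h⁻¹ * 1) ≤ p := (nchi_lt χ _).le
  rw [e1, Finset.sum_congr rfl e2, Finset.sum_sub_distrib, ← Finset.mul_sum, ← Finset.mul_sum,
    sum_range_ite _ hle, sum_range_ite _ hle, e1]
  have e3 : (Multiplicative.toAdd (χ g) - Multiplicative.toAdd (χ h)).val = nchi χ (h⁻¹ * g) := by
    unfold nchi
    rw [map_mul, toAdd_mul, map_inv, toAdd_inv]
    congr 1
    ring
  rw [e3]
  have k1 := nchi_key χ h g
  have k2 := nchi_key χ h 1
  rw [nchi_one] at k2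
  have hg := nchi_lt χ g
  have hh := nchi_lt χ h
  have hp : 0 < p := (Fact.out : p.Prime).pos
  rw [if_neg (lt_irrefl _)]
  by_cases a1 : nchi χ g < nchi χ h <;> by_cases a2 : nchi χ h = 0 <;>
    by_cases a3 : nchi χ (h⁻¹ * g) < nchi χ (h⁻¹ * 1) <;>
    by_cases a4 : 0 < nchi χ h <;>
    simp only [a1, a2, a3, a4, if_true, if_false, Nat.not_lt_zero] at k1 k2 ⊢ <;>
    first
      | (exfalso; omega)
      | ring

lemma comp_eq : (ecomp (Sh.map (S0z (K := K) χ).δ) ((S1z χ).δ)) = - bmap (FRep.triv K G) (bchi χ) := by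
  apply EHom.ext'
  intro k
  have h1 : ((ecomp (Sh.map (S0z (K := K) χ).δ) ((S1z χ).δ))).1 k =
      q2 (FRep.triv K G) (fun g h => (S0z χ).dfun ((S1z χ).dfun k g) h) := rfl
  have h2 : (- bmap (FRep.triv K G) (bchi χ)).1 k =
      - (bmap (FRep.triv K G) (bchi χ)).1 k := rfl
  rw [h1, h2, bmap_apply, eq_neg_iff_add_eq_zero, ← map_add, q2_eq_zero]
  refine ⟨fun _ => 0, fun h => (if nchi χ h = 0 then 0 else 1) * k, fun g h => ?_⟩
  show (S0z χ).dfun ((S1z χ).dfun k g) h +
    (if nchi χ g < nchi χ h then 1 else 0) * k = 0 + (if nchi χ h = 0 then 0 else 1) * k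
  rw [comp_value]
  ring

end Bchi

theorem Neg_Iz (hP : IsPGroup p P) (χ : A →* Multiplicative (ZMod p)) (hχ : ∃ a, χ a ≠ 1) :
    Neg A (FRep.Iz χ K) := by
  classical
  let act : MulAction A (ZMod p) :=
    { smul := fun a i => i + Multiplicative.toAdd (χ a)
      one_smul := fun i => by
        show i + Multiplicative.toAdd (χ 1) = i
        rw [map_one, toAdd_one, add_zero]
      mul_smul := fun a b i => by
        show i + Multiplicative.toAdd (χ (a * b)) =
          i + Multiplicative.toAdd (χ b) + Multiplicative.toAdd (χ a)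
        rw [map_mul, toAdd_mul]
        ring }
  refine Neg_perm A hP (FRep.Iz χ K) (I := ZMod p)
    (fun i => LinearMap.single K (fun _ : ZMod p => K) i ∘ₗ LinearMap.proj i) ?_ ?_ ?_
  · intro a i y
    funext j
    show (Pi.single (i + Multiplicative.toAdd (χ a))
      (y (i + Multiplicative.toAdd (χ a) - Multiplicative.toAdd (χ a))) : ZMod p → K) j =
      (Pi.single i (y i) : ZMod p → K) (j - Multiplicative.toAdd (χ a))
    rw [add_sub_cancel_right, Pi.single_apply, Pi.single_apply]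
    simp only [sub_eq_iff_eq_add]
  · intro y
    funext j
    have h1 : (∑ i, (LinearMap.single K (fun _ : ZMod p => K) i ∘ₗ LinearMap.proj i) y) j =
        ∑ i, (Pi.single i (y i) : ZMod p → K) j := by
      rw [Finset.sum_apply]
      rfl
    refine h1.trans ?_
    rw [Finset.sum_pi_single, if_pos (Finset.mem_univ _)]
  · intro i
    obtain ⟨a, ha⟩ := hχ
    refine ⟨a, fun h => ha ?_⟩
    have h2 : i + Multiplicative.toAdd (χ a) = i := h
    have h3 : Multiplicative.toAdd (χ a) = 0 := by simpa using h2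
    exact Multiplicative.toAdd.injective h3

theorem AI_bchi (hP : IsPGroup p P) (χ : A →* Multiplicative (ZMod p)) (hχ : ∃ a, χ a ≠ 1) :
    AI A (bmap (FRep.triv K A) (bchi χ)) := by
  have hA : ∃ a : A, a ≠ 1 := by
    obtain ⟨a, ha⟩ := hχ
    refine ⟨a, ?_⟩
    rintro rfl
    exact ha (map_one χ)
  have hI : Neg A (FRep.Iz χ K) := Neg_Iz A hP χ hχ
  have h1 : AI A (S1z (K := K) χ).δ := AI_δ A hP hA _ hI
  have h2 : AI A (S0z (K := K) χ).sh.δ := AI_δ A hP hA _ (Neg_Sh A hP hA hI)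
  rw [SES.δ_sh] at h2
  have h3 : AI A (swp (FRep.triv K A)) := by
    apply AI_of_bijective
    have h4 : ∀ x, (swp (FRep.triv K A)).1 ((swp (FRep.triv K A)).1 x) = x := fun x => by
      have := congrArg (fun f => f.1 x) (swp_swp (FRep.triv K A))
      exact this
    exact Function.bijective_iff_has_inverse.2 ⟨_, h4, h4⟩
  have h5 : AI A (Sh.map (S0z (K := K) χ).δ) := AI_of_comp_right A _ _ h3 h2
  have h6 := AI_comp A _ _ h5 h1
  rw [comp_eq] at h6
  have h7 : AI A (-(EHom.id (FRep.Sh (FRep.Sh (FRep.triv K A))))) := by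
    apply AI_of_bijective
    have h4 : ∀ x, (-(EHom.id (FRep.Sh (FRep.Sh (FRep.triv K A))))).1
        ((-(EHom.id (FRep.Sh (FRep.Sh (FRep.triv K A))))).1 x) = x := fun x => by
      show - - x = x
      exact neg_neg x
    exact Function.bijective_iff_has_inverse.2 ⟨_, h4, h4⟩
  have h8 := AI_comp A _ _ h7 h6
  have h9 : (ecomp (-(EHom.id (FRep.Sh (FRep.Sh (FRep.triv K A))))) (-bmap (FRep.triv K A) (bchi χ))) = bmap (FRep.triv K A) (bchi χ) := by
    apply EHom.ext'
    intro x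
    show - - (bmap (FRep.triv K A) (bchi χ)).1 x = _
    exact neg_neg _
  rwa [h9] at h8

end Pool.Agent.H34.Gam

end
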