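import Pool.Agent.H34.Gam.ChAI

/-!
The two cases of the Chouinard bound (job GAM-CHCASE).
-/

set_option autoImplicit false
set_option linter.unusedSectionVars false

noncomputable section

namespace Pool.Agent.H34.Gam

open Module

variable {K P : Type} [Field K] [Group P] [Fintype P] {p : ℕ} [Fact p.Prime] [CharP K p]

/-- an almost isomorphism `K → Sh (Sh K)` which is small gives the bound -/
lemma chou_of_small (hP : IsPGroup p P) (A : Subgroup P) [Fintype A] {Y' : FRep K A}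
    (β : EHom (FRep.triv K A) Y') (hAI : AI A β) (hS : SmallMap A β) :
    ∃ C : ℕ, ∀ W : FRep K P, cc W ≤ C * del W := by
  obtain ⟨C, hC⟩ := hAI
  obtain ⟨C', hC'⟩ := hS
  refine ⟨Fintype.card P * (C' + C), fun W => ?_⟩
  have h1 := (hC W).2
  have h2 := hC' W
  have h3 := Fd_iso (ML_triv A W)
  have h4 := cc_le_Fd hP W
  rw [h3] at h1
  calc cc W ≤ Fintype.card P * Fd W := h4
    _ ≤ Fintype.card P * ((C' + C) * del W) := by
      apply Nat.mul_le_mul_left
      rw [add_mul]; omega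
    _ = _ := by ring

lemma nchi_mul {G : Type} [Group G] (χ : G →* Multiplicative (ZMod p)) (g h : G) :
    nchi χ (g * h) = (nchi χ g + nchi χ h) % p := by
  unfold nchi
  rw [map_mul, toAdd_mul, ZMod.val_add]

lemma nchi_key2 {G : Type} [Group G] (χ : G →* Multiplicative (ZMod p)) (g h : G) :
    nchi χ (h⁻¹ * g) + nchi χ h = nchi χ g + (if nchi χ g < nchi χ h then p else 0) := by
  have h1 := nchi_mul χ h (h⁻¹ * g)
  rw [mul_inv_cancel_left] at h1
  have a1 := nchi_lt χ g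
  have a2 := nchi_lt χ h
  have a3 := nchi_lt χ (h⁻¹ * g)
  by_cases h2 : nchi χ h + nchi χ (h⁻¹ * g) < p
  · rw [Nat.mod_eq_of_lt h2] at h1
    rw [if_neg (by omega)]
    omega
  · have h4 : (nchi χ h + nchi χ (h⁻¹ * g)) % p = nchi χ h + nchi χ (h⁻¹ * g) - p := by
      rw [Nat.mod_eq_sub_mod (by omega), Nat.mod_eq_of_lt (by omega)]
    rw [h4] at h1
    rw [if_pos (by omega)]
    omega

lemma bchi_val {G : Type} [Group G] (χ : G →* Multiplicative (ZMod p)) (g h : G) :
    (bchi (K := K) χ).1 g h = if nchi χ g < nchi χ h then 1 else 0 := rfl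

/-- cochains of the form `c(h⁻¹ g)` give null maps -/
lemma null_of_c {G : Type} [Group G] [Fintype G] (W : FRep K G) (c : G → K)
    (f : EHom W (FRep.Sh (FRep.Sh W)))
    (hf : ∀ w, ∃ α γ : G → W.V, f.1 w = q2 W (fun g h => c (h⁻¹ * g) • w + α g + γ h)) :
    f ∈ Null W (FRep.Sh (FRep.Sh W)) := by
  let F0 : W.V →ₗ[K] (G → (FRep.Sh W).V) :=
    LinearMap.pi fun g => shq W ∘ₗ (LinearMap.pi fun h => c (h⁻¹ * g) • LinearMap.id)
  have hF0 : ∀ w g, F0 w g = shq W (fun h => c (h⁻¹ * g) • w) := fun w g => rfl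
  refine null_of_lift f ⟨F0, ?_⟩ ?_
  · intro k w
    funext g
    rw [FRep.Fn_apply, hF0, hF0, shq_ρ]
    congr 1
    funext h
    rw [map_smul]
    congr 2
    group
  · intro w
    obtain ⟨α, γ, h⟩ := hf w
    rw [h]
    show _ = shq (FRep.Sh W) (fun g => shq W (fun h => c (h⁻¹ * g) • w))
    have h2 : shq (FRep.Sh W) (fun g => shq W (fun h => c (h⁻¹ * g) • w)) =
      q2 W (fun g h => c (h⁻¹ * g) • w) := rfl
    rw [h2, ← sub_eq_zero, ← map_sub, q2_eq_zero]
    refine ⟨α, γ, fun g h => ?_⟩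
    show c (h⁻¹ * g) • w + α g + γ h - c (h⁻¹ * g) • w = _
    abel

/-- Case 1: there is an element of order `p²`. -/
theorem chou_case1 (hP : IsPGroup p P) (g : P) (hg : g ^ (p ^ 2) = 1) (hg' : g ^ p ≠ 1) :
    ∃ C : ℕ, ∀ W : FRep K P, cc W ≤ C * del W := by
  have hp : p.Prime := Fact.out
  have hord : orderOf g = p ^ 2 := by
    have := orderOf_eq_prime_pow (x := g) (n := 1) (p := p) (by simpa using hg') hg
    simpa using this
  let A : Subgroup P := Subgroup.zpowers g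
  letI : Fintype A := Fintype.ofFinite A
  haveI : NeZero (p ^ 2) := ⟨pow_ne_zero 2 hp.ne_zero⟩
  haveI : NeZero p := ⟨hp.ne_zero⟩
  have hmod : ∀ n : ℕ, g ^ (n % p ^ 2) = g ^ n := fun n => by
    rw [← hord, pow_mod_orderOf]
  have hex : ∀ a : A, ∃ k : ZMod (p ^ 2), g ^ k.val = (a : P) := by
    intro a
    obtain ⟨n, hn⟩ := (mem_powers_iff_mem_zpowers.2 a.2)
    refine ⟨(n : ZMod (p ^ 2)), ?_⟩
    rw [ZMod.val_natCast, hmod]
    exact hn
  choose L hL using hex
  have huniq : ∀ k k' : ZMod (p ^ 2), g ^ k.val = g ^ k'.val → k = k' := by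
    intro k k' h
    rw [pow_inj_mod, hord, Nat.mod_eq_of_lt (ZMod.val_lt k), Nat.mod_eq_of_lt (ZMod.val_lt k')] at h
    exact ZMod.val_injective _ h
  have hLmul : ∀ a b : A, L (a * b) = L a + L b := by
    intro a b
    apply huniq
    rw [hL, ZMod.val_add, hmod, pow_add, hL, hL]
    rfl
  have hL1 : L 1 = 0 := by
    have := hLmul 1 1
    rw [mul_one] at this
    exact (left_eq_add.mp this)
  let χ : A →* Multiplicative (ZMod p) :=
    { toFun := fun a => Multiplicative.ofAdd (ZMod.castHom (dvd_pow_self p two_ne_zero) (ZMod p) (L a))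
      map_one' := by rw [hL1, map_zero]; rfl
      map_mul' := fun a b => by rw [hLmul, map_add]; rfl }
  have hχn : ∀ a : A, nchi χ a = (L a).val % p := by
    intro a
    show (ZMod.castHom (dvd_pow_self p two_ne_zero) (ZMod p) (L a)).val = _
    rw [ZMod.castHom_apply, ZMod.cast_eq_val, ZMod.val_natCast]
  let g0 : A := ⟨g, Subgroup.mem_zpowers g⟩
  have hg0 : L g0 = 1 := by
    apply huniq
    rw [hL, ZMod.val_one'' (by
      intro h
      have := Nat.pow_eq_one.1 h
      have := hp.one_lt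
      omega), pow_one]
  have hχ : ∃ a, χ a ≠ 1 := by
    refine ⟨g0, ?_⟩
    show Multiplicative.ofAdd (ZMod.castHom (dvd_pow_self p two_ne_zero) (ZMod p) (L g0)) ≠ 1
    rw [hg0, map_one]
    intro h
    haveI : Fact (1 < p) := ⟨hp.one_lt⟩
    exact one_ne_zero (Multiplicative.ofAdd.injective h)
  have hA : ∃ a : A, a ≠ 1 := by
    obtain ⟨a, ha⟩ := hχ
    exact ⟨a, fun h => ha (by rw [h, map_one])⟩
  refine chou_of_small hP A (bmap (FRep.triv K A) (bchi χ)) (AI_bchi A hP χ hχ) ?_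
  apply SmallMap_null A hP hA
  refine null_of_c _ (fun a => - (((L a).val / p : ℕ) : K)) _ fun w => ?_
  refine ⟨fun a => (((L a).val / p : ℕ) : K) • w, fun a => -(((L a).val / p : ℕ) : K) • w, ?_⟩
  rw [bmap_apply]
  congr 1
  funext a b
  rw [bchi_val, ← add_smul, ← add_smul]
  congr 1
  -- the arithmetic identity
  have k1 := nchi_key2 χ a b
  have k2 : ((L b).val + (L (b⁻¹ * a)).val) % (p ^ 2) = (L a).val := by
    rw [← ZMod.val_add, ← hLmul, mul_inv_cancel_left]
  have b1 := ZMod.val_lt (L a)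
  have b2 := ZMod.val_lt (L b)
  have b3 := ZMod.val_lt (L (b⁻¹ * a))
  have d1 := Nat.div_add_mod (L a).val p
  have d2 := Nat.div_add_mod (L b).val p
  have d3 := Nat.div_add_mod (L (b⁻¹ * a)).val p
  rw [hχn, hχn, hχn] at k1
  rw [hχn, hχn]
  have k3 : ∃ ε : ℕ, (L b).val + (L (b⁻¹ * a)).val = (L a).val + p ^ 2 * ε := by
    refine ⟨((L b).val + (L (b⁻¹ * a)).val) / p ^ 2, ?_⟩
    rw [← k2]
    exact (Nat.mod_add_div _ _).symm
  obtain ⟨ε, hε⟩ := k3
  have k4 : p * ((L b).val / p + (L (b⁻¹ * a)).val / p +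
      (if (L a).val % p < (L b).val % p then 1 else 0)) = p * ((L a).val / p + p * ε) := by
    have : p * (if (L a).val % p < (L b).val % p then 1 else 0) =
      (if (L a).val % p < (L b).val % p then p else 0) := by split_ifs <;> simp
    rw [mul_add, mul_add, this]
    rw [← d1, ← d2, ← d3] at hε
    nlinarith [hε, k1]
  have k5 := Nat.eq_of_mul_eq_mul_left hp.pos k4
  have k6 := congrArg (fun n : ℕ => (n : K)) k5
  simp only [Nat.cast_add, Nat.cast_mul, CharP.cast_eq_zero, zero_mul, add_zero, Nat.cast_ite,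
    Nat.cast_one, Nat.cast_zero] at k6
  linear_combination k6

/-! ### Case 2 -/

section case2
variable (A : Subgroup P)

lemma hat_mem (x : P) : x⁻¹ * Quotient.out (x : P ⧸ A) ∈ A := by
  have h1 : (QuotientGroup.mk (Quotient.out (x : P ⧸ A)) : P ⧸ A) = x := Quotient.out_eq' _
  exact QuotientGroup.eq.1 h1.symm

/-- the function on `P` attached to a family -/
def hat (Y : FRep K A) (v : P ⧸ A → Y.V) (x : P) : Y.V :=
  Y.ρ ⟨x⁻¹ * Quotient.out (x : P ⧸ A), hat_mem A x⟩ (v (x : P ⧸ A))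

lemma hat_out (Y : FRep K A) (v : P ⧸ A → Y.V) (c : P ⧸ A) :
    hat A Y v (Quotient.out c) = v c := by
  have h1 : ((Quotient.out c : P) : P ⧸ A) = c := Quotient.out_eq' c
  unfold hat
  have h2 : (⟨(Quotient.out c)⁻¹ * Quotient.out ((Quotient.out c : P) : P ⧸ A),
      hat_mem A _⟩ : A) = 1 := by
    apply Subtype.ext
    show (Quotient.out c)⁻¹ * Quotient.out ((Quotient.out c : P) : P ⧸ A) = 1
    rw [h1, inv_mul_cancel]
  rw [h2, FRep.one_apply, h1]

lemma hat_mul (Y : FRep K A) (v : P ⧸ A → Y.V) (x : P) (a : A) :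
    hat A Y v (x * a) = Y.ρ a⁻¹ (hat A Y v x) := by
  unfold hat
  rw [← FRep.mul_apply]
  have h1 : ((x * a : P) : P ⧸ A) = (x : P ⧸ A) := by
    rw [QuotientGroup.eq]
    rw [mul_inv_rev, mul_assoc, inv_mul_cancel, mul_one]
    exact A.inv_mem a.2
  have h2 : (⟨(x * a)⁻¹ * Quotient.out ((x * a : P) : P ⧸ A), hat_mem A _⟩ : A) =
      a⁻¹ * ⟨x⁻¹ * Quotient.out (x : P ⧸ A), hat_mem A x⟩ := by
    apply Subtype.ext
    show (x * a)⁻¹ * Quotient.out ((x * a : P) : P ⧸ A) = (a : P)⁻¹ * (x⁻¹ * Quotient.out (x : P ⧸ A))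
    rw [h1, mul_inv_rev, mul_assoc]
  rw [h2, h1]

lemma hat_fam (Y : FRep K A) (v : P ⧸ A → Y.V) (g x : P) :
    hat A Y (fam A Y g v) x = hat A Y v (g⁻¹ * x) := by
  unfold hat fam
  rw [← FRep.mul_apply]
  have h1 : g⁻¹ • (x : P ⧸ A) = ((g⁻¹ * x : P) : P ⧸ A) := rfl
  rw [h1]
  congr 2
  apply Subtype.ext
  rw [Subgroup.coe_mul, tw_val, h1]
  show (x⁻¹ * Quotient.out (x : P ⧸ A)) * ((Quotient.out (x : P ⧸ A))⁻¹ * g * _) = (g⁻¹ * x)⁻¹ * _
  group

/-- two families with the same function are equal -/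
lemma hat_ext (Y : FRep K A) {v v' : P ⧸ A → Y.V} (h : ∀ x, hat A Y v x = hat A Y v' x) :
    v = v' := by
  funext c
  rw [← hat_out A Y v c, h, hat_out]

/-- `κ` intertwines conjugation -/
def IsTwist (Y : FRep K A) (y : P) (κ : Y.V →ₗ[K] Y.V) : Prop :=
  ∀ (a a' : A), (a' : P) = y⁻¹ * a * y → ∀ v, κ (Y.ρ a v) = Y.ρ a' (κ v)

variable (Y : FRep K A) (y : P) (hy1 : ∀ a ∈ A, y * a * y⁻¹ ∈ A) (hy2 : ∀ a ∈ A, y⁻¹ * a * y ∈ A)

/-- right multiplication by `y⁻¹` on `P/A` -/
def rperm (hy1 : ∀ a ∈ A, y * a * y⁻¹ ∈ A) (hy2 : ∀ a ∈ A, y⁻¹ * a * y ∈ A) :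
    Equiv.Perm (P ⧸ A) where
  toFun c := ((Quotient.out c * y⁻¹ : P) : P ⧸ A)
  invFun c := ((Quotient.out c * y : P) : P ⧸ A)
  left_inv c := by
    show ((Quotient.out ((Quotient.out c * y⁻¹ : P) : P ⧸ A) * y : P) : P ⧸ A) = c
    conv_rhs => rw [← Quotient.out_eq' c]
    show _ = ((Quotient.out c : P) : P ⧸ A)
    rw [eq_comm, QuotientGroup.eq]
    have h := hy2 _ (hat_mem A (Quotient.out c * y⁻¹))
    convert h using 1
    group
  right_inv c := by
    show ((Quotient.out ((Quotient.out c * y : P) : P ⧸ A) * y⁻¹ : P) : P ⧸ A) = c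
    conv_rhs => rw [← Quotient.out_eq' c]
    show _ = ((Quotient.out c : P) : P ⧸ A)
    rw [eq_comm, QuotientGroup.eq]
    have h := hy1 _ (hat_mem A (Quotient.out c * y))
    convert h using 1
    group

/-- the operator on families -/
def Sfam (κ : Y.V →ₗ[K] Y.V) (v : P ⧸ A → Y.V) : P ⧸ A → Y.V :=
  fun c => κ (hat A Y v (Quotient.out c * y⁻¹))

lemma hat_Sfam (hy1 : ∀ a ∈ A, y * a * y⁻¹ ∈ A) {κ : Y.V →ₗ[K] Y.V} (hκ : IsTwist A Y y κ)
    (v : P ⧸ A → Y.V) (x : P) :
    hat A Y (Sfam A Y y κ v) x = κ (hat A Y v (x * y⁻¹)) := by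
  have h0 := hat_mem A x
  set a : A := ⟨x⁻¹ * Quotient.out (x : P ⧸ A), h0⟩ with ha
  have hx : x = Quotient.out (x : P ⧸ A) * (a⁻¹ : A) := by
    show x = Quotient.out (x : P ⧸ A) * (x⁻¹ * Quotient.out (x : P ⧸ A))⁻¹
    group
  set b : A := ⟨y * (a⁻¹ : A) * y⁻¹, hy1 _ (a⁻¹).2⟩ with hb
  have hx2 : x * y⁻¹ = Quotient.out (x : P ⧸ A) * y⁻¹ * b := by
    conv_lhs => rw [hx]
    show _ = Quotient.out (x : P ⧸ A) * y⁻¹ * (y * (a⁻¹ : A) * y⁻¹)
    group
  rw [hx2, hat_mul, hκ b⁻¹ a]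
  · show Y.ρ a (Sfam A Y y κ v (x : P ⧸ A)) = _
    rfl
  · show (a : P) = y⁻¹ * (y * ((a : A) : P)⁻¹ * y⁻¹)⁻¹ * y
    group

lemma Sfam_fam (hy1 : ∀ a ∈ A, y * a * y⁻¹ ∈ A) {κ : Y.V →ₗ[K] Y.V} (hκ : IsTwist A Y y κ)
    (g : P) (v : P ⧸ A → Y.V) :
    Sfam A Y y κ (fam A Y g v) = fam A Y g (Sfam A Y y κ v) := by
  apply hat_ext
  intro x
  rw [hat_Sfam A Y y hy1 hκ, hat_fam, hat_fam, hat_Sfam A Y y hy1 hκ, mul_assoc]

lemma hat_Sfam_iter (hy1 : ∀ a ∈ A, y * a * y⁻¹ ∈ A) {κ : Y.V →ₗ[K] Y.V} (hκ : IsTwist A Y y κ)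
    (n : ℕ) (v : P ⧸ A → Y.V) (x : P) :
    hat A Y ((Sfam A Y y κ)^[n] v) x = (κ ^ n) (hat A Y v (x * (y ^ n)⁻¹)) := by
  induction n generalizing v x with
  | zero => simp
  | succ n ih =>
    rw [Function.iterate_succ_apply', hat_Sfam A Y y hy1 hκ, ih, pow_succ' κ, pow_succ y]
    rw [mul_inv_rev, mul_assoc]
    rfl

/-- the operator on `ML A Y W` -/
def Sml (κ : Y.V →ₗ[K] Y.V) (W : FRep K P) : (FRep.ML A Y W).V →ₗ[K] (FRep.ML A Y W).V where
  toFun φ := ((φ : MultilinearMap K (fun _ : P ⧸ A => Y.V) W.V).compLinearMap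
    (fun c => κ ∘ₗ Y.ρ ⟨(Quotient.out c * y⁻¹)⁻¹ *
      Quotient.out ((Quotient.out c * y⁻¹ : P) : P ⧸ A), hat_mem A _⟩)).domDomCongr
      (rperm A y hy1 hy2)
  map_add' φ ψ := by
    apply MultilinearMap.ext; intro v
    rfl
  map_smul' c φ := by
    apply MultilinearMap.ext; intro v
    rfl

lemma Sml_apply (κ : Y.V →ₗ[K] Y.V) (W : FRep K P)
    (φ : MultilinearMap K (fun _ : P ⧸ A => Y.V) W.V) (v : P ⧸ A → Y.V) :
    (Sml A Y y hy1 hy2 κ W φ : MultilinearMap K (fun _ : P ⧸ A => Y.V) W.V) v =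
      φ (Sfam A Y y κ v) := rfl

/-- the equivariant operator -/
def SmlE {κ : Y.V →ₗ[K] Y.V} (hκ : IsTwist A Y y κ) (W : FRep K P) :
    EHom (FRep.ML A Y W) (FRep.ML A Y W) :=
  ⟨Sml A Y y hy1 hy2 κ W, by
    intro g φ
    refine MultilinearMap.ext fun v => ?_
    have h1 := Sml_apply A Y y hy1 hy2 κ W ((FRep.ML A Y W).ρ g φ) v
    have h2 := FRep.ML_apply A Y W g φ (Sfam A Y y κ v)
    have h3 := FRep.ML_apply A Y W g (Sml A Y y hy1 hy2 κ W φ) v
    have h4 := Sml_apply A Y y hy1 hy2 κ W φ (fam A Y g⁻¹ v)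
    refine h1.trans (h2.trans ?_)
    refine Eq.trans ?_ h3.symm
    rw [h4, Sfam_fam A Y y hy1 hκ]⟩

lemma SmlE_iter {κ : Y.V →ₗ[K] Y.V} (hκ : IsTwist A Y y κ) (W : FRep K P) (n : ℕ)
    (φ : MultilinearMap K (fun _ : P ⧸ A => Y.V) W.V) (v : P ⧸ A → Y.V) :
    ((((SmlE A Y y hy1 hy2 hκ W).1 ^ n) φ : (FRep.ML A Y W).V) :
      MultilinearMap K (fun _ : P ⧸ A => Y.V) W.V) v = φ ((Sfam A Y y κ)^[n] v) := by
  induction n generalizing v with
  | zero => rfl
  | succ n ih =>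
    rw [pow_succ', Function.iterate_succ_apply]
    exact (Sml_apply A Y y hy1 hy2 κ W _ v).trans (ih _)

lemma SmlE_pow {κ : Y.V →ₗ[K] Y.V} (hκ : IsTwist A Y y κ) (W : FRep K P) (hyp : y ^ p = 1)
    (hκp : κ ^ p = 1) (φ : (FRep.ML A Y W).V) :
    ((SmlE A Y y hy1 hy2 hκ W).1 ^ p) φ = φ := by
  refine MultilinearMap.ext fun v => ?_
  rw [SmlE_iter]
  congr 1
  apply hat_ext
  intro x
  rw [hat_Sfam_iter A Y y hy1 hκ, hκp, hyp, inv_one, mul_one]
  rfl

/-- invariants are moved to invariants -/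
lemma MLm_SmlE {κ : Y.V →ₗ[K] Y.V} (hκ : IsTwist A Y y κ) (W : FRep K P)
    (m m' : EHom (FRep.triv K A) Y) (hm : ∀ c, m'.1 c = κ (m.1 c)) :
    (ecomp (MLm A m W) (SmlE A Y y hy1 hy2 hκ W)) = MLm A m' W := by
  letI : Fintype (P ⧸ A) := Fintype.ofFinite _
  apply EHom.ext'
  intro φ
  refine MultilinearMap.ext fun l => ?_
  have hl : ∀ (l : P ⧸ A → K) (m : EHom (FRep.triv K A) Y),
      (fun c => m.1 (l c)) = fun c => l c • m.1 (1 : K) := by
    intro l m
    funext c
    have h1 : l c = l c • (1 : K) := by rw [smul_eq_mul, mul_one]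
    conv_lhs => rw [h1]
    exact map_smul m.1 (l c) (1 : K)
  have h1 : (((ecomp (MLm A m W) (SmlE A Y y hy1 hy2 hκ W))).1 φ :
      MultilinearMap K (fun _ : P ⧸ A => K) W.V) l =
      (φ : MultilinearMap K (fun _ : P ⧸ A => Y.V) W.V) (Sfam A Y y κ (fun c => m.1 (l c))) := rfl
  have h2 : ((MLm A m' W).1 φ : MultilinearMap K (fun _ : P ⧸ A => K) W.V) l =
      (φ : MultilinearMap K (fun _ : P ⧸ A => Y.V) W.V) (fun c => m'.1 (l c)) := rfl
  refine h1.trans (Eq.trans ?_ h2.symm)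
  have h3 : Sfam A Y y κ (fun c => m.1 (l c)) =
      fun c => l (rperm A y hy1 hy2 c) • m'.1 (1 : K) := by
    funext c
    unfold Sfam hat
    rw [← EHom.map]
    have h4 : ∀ (a : A) (z : K), (FRep.triv K A).ρ a z = z := fun a z => rfl
    rw [h4, ← hm]
    exact congrFun (hl (fun c => l (rperm A y hy1 hy2 c)) m') c
  rw [h3, hl l m', MultilinearMap.map_smul_univ, MultilinearMap.map_smul_univ]
  congr 1
  exact Equiv.prod_comp (rperm A y hy1 hy2) l

end case2

/-- the abstract bound: `κ`, `m`, `t` with `κ m = m + t` stably and `t` an almost isomorphism -/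
lemma chou_twist (hP : IsPGroup p P) (A : Subgroup P) [Fintype A] (hA : ∃ a : A, a ≠ 1)
    (Y : FRep K A) (y : P)
    (hy : y ^ p = 1) (hy1 : ∀ a ∈ A, y * a * y⁻¹ ∈ A) (hy2 : ∀ a ∈ A, y⁻¹ * a * y ∈ A)
    {κ : Y.V →ₗ[K] Y.V} (hκ : IsTwist A Y y κ) (hκp : κ ^ p = 1)
    (m m' t : EHom (FRep.triv K A) Y) (hm : ∀ c, m'.1 c = κ (m.1 c))
    (hcl : cl m' = cl (m + t)) (ht : AI A t) :
    ∃ C : ℕ, ∀ W : FRep K P, cc W ≤ C * del W := by
  have hp : p.Prime := Fact.out
  obtain ⟨C1, h1⟩ := MLm_congr A hP hA hcl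
  obtain ⟨C2, h2⟩ := MLm_add A hP m t
  obtain ⟨C3, h3⟩ := ht
  refine ⟨Fintype.card P * (p * (C1 + C2 + C3) + C3), fun W => ?_⟩
  have a1 := h1 W
  have a2 := h2 W
  obtain ⟨a3, a4⟩ := h3 W
  set S := SmlE A Y y hy1 hy2 hκ W with hS
  have hu := Fr_unipotent (p := p) S (SmlE_pow A Y y hy1 hy2 hκ W hy hκp)
  have e1 : (ecomp (MLm A m W) (S - EHom.id _)) = MLm A m' W - MLm A m W := by
    have := MLm_SmlE A Y y hy1 hy2 hκ W m m' hm
    rw [← this]
    apply EHom.ext'
    intro φ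
    show (MLm A m W).1 ((S - EHom.id _).1 φ) = _
    show (MLm A m W).1 (S.1 φ - φ) = _
    rw [map_sub]
    rfl
  have b1 := Fr_comp_right (MLm A m W) (S - EHom.id _)
  rw [e1] at b1
  have b2 := Fr_sub_le (MLm A t W) (MLm A m' W - MLm A m W)
  have e2 : MLm A t W - (MLm A m' W - MLm A m W) =
      -(MLm A (m + t) W - MLm A m W - MLm A t W) - (MLm A m' W - MLm A (m + t) W) := by abel
  have b3 : Fr (MLm A t W - (MLm A m' W - MLm A m W)) ≤ C2 * del W + C1 * del W := by
    rw [e2]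
    have c1 := Fr_add_le (-(MLm A (m + t) W - MLm A m W - MLm A t W))
      (-(MLm A m' W - MLm A (m + t) W))
    rw [Fr_neg, Fr_neg, ← sub_eq_add_neg] at c1
    omega
  have b4 : Fr (MLm A t W) ≤ Fr (S - EHom.id _) + (C2 * del W + C1 * del W) := by omega
  have b5 : p * Fd (FRep.ML A Y W) ≤ (p - 1) * Fd (FRep.ML A Y W) +
      p * (C1 + C2 + C3) * del W := by
    calc p * Fd (FRep.ML A Y W) ≤ p * (Fr (MLm A t W) + C3 * del W) := Nat.mul_le_mul_left _ a3
      _ ≤ p * (Fr (S - EHom.id _) + (C2 * del W + C1 * del W) + C3 * del W) := by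
        apply Nat.mul_le_mul_left; omega
      _ = p * Fr (S - EHom.id _) + p * (C1 + C2 + C3) * del W := by ring
      _ ≤ _ := Nat.add_le_add_right hu _
  have b6 : Fd (FRep.ML A Y W) ≤ p * (C1 + C2 + C3) * del W := by
    have hpp : p = (p - 1) + 1 := by have := hp.pos; omega
    have : p * Fd (FRep.ML A Y W) = (p - 1) * Fd (FRep.ML A Y W) + Fd (FRep.ML A Y W) := by
      conv_lhs => rw [hpp]
      ring
    omega
  have b7 := Fr_le_left (MLm A t W)
  have h5 := Fd_iso (ML_triv A W)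
  have h6 := cc_le_Fd hP W
  rw [h5] at a4
  calc cc W ≤ Fintype.card P * Fd W := h6
    _ ≤ Fintype.card P * (p * (C1 + C2 + C3) * del W + C3 * del W) := by
      apply Nat.mul_le_mul_left; omega
    _ = _ := by ring

/-- Case 2: a subgroup `A` normalised by `y` with `y^p = 1` and characters `χ ≠ 0`, `μ` of `A` with
`μ(y a y⁻¹) = μ(a) + χ(a)`. -/
theorem chou_case2' (hP : IsPGroup p P) (A : Subgroup P) (y : P) (hy : y ^ p = 1)
    (hyA : ∀ a ∈ A, y * a * y⁻¹ ∈ A) (χ μ : A →* Multiplicative (ZMod p)) (hχ : ∃ a, χ a ≠ 1)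
    (hμ : ∀ a : A, μ ⟨y * a * y⁻¹, hyA a a.2⟩ = μ a * χ a) :
    ∃ C : ℕ, ∀ W : FRep K P, cc W ≤ C * del W := by
  have hp : p.Prime := Fact.out
  letI : Fintype A := Fintype.ofFinite A
  have hA : ∃ a : A, a ≠ 1 := by
    obtain ⟨a, ha⟩ := hχ
    exact ⟨a, fun h => ha (by rw [h, map_one])⟩
  have hyk : ∀ (k : ℕ), ∀ a ∈ A, y ^ k * a * (y ^ k)⁻¹ ∈ A := by
    intro k
    induction k with
    | zero => intro a ha; simpa using ha
    | succ k ih =>
      intro a ha
      have := hyA _ (ih a ha)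
      convert this using 1
      rw [pow_succ' y k]
      group
  have hy2 : ∀ a ∈ A, y⁻¹ * a * y ∈ A := by
    intro a ha
    have h1 : y⁻¹ = y ^ (p - 1) := by
      rw [eq_comm, ← mul_eq_one_iff_eq_inv, ← pow_succ, Nat.sub_add_cancel hp.one_le, hy]
    have h2 := hyk (p - 1) a ha
    rw [← h1, inv_inv] at h2
    exact h2
  -- conjugation by `y`
  let σ : A → A := fun a => ⟨y * a * y⁻¹, hyA a a.2⟩
  have hσ : ∀ a, ((σ a : A) : P) = y * a * y⁻¹ := fun a => rfl
  have hσp : ∀ (k : ℕ) (a : A), ((σ^[k] a : A) : P) = y ^ k * a * (y ^ k)⁻¹ := by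
    intro k
    induction k with
    | zero => intro a; simp
    | succ k ih =>
      intro a
      rw [Function.iterate_succ_apply', hσ, ih, pow_succ' y k]
      group
  let T := FRep.triv K A
  let Y : FRep K A := FRep.Sh (FRep.Sh T)
  let κ0 : (A → A → T.V) →ₗ[K] Y.V :=
    q2 T ∘ₗ { toFun := fun F g h => F (σ g) (σ h)
              map_add' := fun _ _ => rfl
              map_smul' := fun _ _ => rfl }
  have hκ1 : ∀ α : A → T.V, κ0 (fun g _ => α g) = 0 := by
    intro α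
    exact (q2_eq_zero T _).2 ⟨fun g => α (σ g), 0, fun g h => by
      show α (σ g) = α (σ g) + 0
      rw [add_zero]⟩
  have hκ2 : ∀ γ : A → T.V, κ0 (fun _ h => γ h) = 0 := by
    intro γ
    exact (q2_eq_zero T _).2 ⟨0, fun g => γ (σ g), fun g h => by
      show γ (σ h) = 0 + γ (σ h)
      rw [zero_add]⟩
  let κ : Y.V →ₗ[K] Y.V := q2lift T κ0 hκ1 hκ2
  have hκq : ∀ F : A → A → T.V, κ (q2 T F) = q2 T (fun g h => F (σ g) (σ h)) :=
    fun F => q2lift_q2 T κ0 hκ1 hκ2 F
  have hκ : IsTwist A Y y κ := by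
    intro a a' haa v
    obtain ⟨F, rfl⟩ := q2_surjective T v
    rw [q2_ρ, hκq, hκq, q2_ρ]
    congr 1
    funext g h
    have e : ∀ z : A, a⁻¹ * σ z = σ (a'⁻¹ * z) := by
      intro z
      apply Subtype.ext
      rw [hσ, Subgroup.coe_mul, hσ, Subgroup.coe_mul, Subgroup.coe_inv, Subgroup.coe_inv, haa]
      group
    rw [e, e]
    rfl
  have hκp : κ ^ p = 1 := by
    have h1 : ∀ (k : ℕ) (F : A → A → T.V),
        (κ ^ k) (q2 T F) = q2 T (fun g h => F (σ^[k] g) (σ^[k] h)) := by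
      intro k
      induction k with
      | zero => intro F; rfl
      | succ k ih =>
        intro F
        rw [pow_succ, Module.End.mul_apply, hκq, ih]
        congr 1
        funext g h
        rw [Function.iterate_succ_apply', Function.iterate_succ_apply']
    apply q2_hom_ext
    intro F
    rw [h1]
    have h2 : ∀ a : A, σ^[p] a = a := by
      intro a
      apply Subtype.ext
      rw [hσp, hy]
      simp
    simp only [h2]
    rfl
  let m : EHom T Y := bmap T (bchi μ)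
  let t : EHom T Y := bmap T (bchi χ)
  let μχ : A →* Multiplicative (ZMod p) :=
    { toFun := fun a => μ a * χ a
      map_one' := by rw [map_one, map_one, one_mul]
      map_mul' := fun a b => by rw [map_mul, map_mul]; exact mul_mul_mul_comm _ _ _ _ }
  let m' : EHom T Y := bmap T (bchi μχ)
  have hm : ∀ c, m'.1 c = κ (m.1 c) := by
    intro c
    show (bmap T (bchi μχ)).1 c = κ ((bmap T (bchi μ)).1 c)
    rw [bmap_apply, bmap_apply, hκq]
    congr 1
    funext g h
    rw [bchi_val, bchi_val]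
    have e : ∀ a : A, nchi μ (σ a) = nchi μχ a := by
      intro a
      show (Multiplicative.toAdd (μ (σ a))).val = (Multiplicative.toAdd (μ a * χ a)).val
      rw [← hμ a]
    rw [e, e]
  refine chou_twist hP A hA Y y hy hyA hy2 hκ hκp m m' t hm ?_ (AI_bchi A hP χ hχ)
  rw [cl_eq]
  -- the difference comes from a cochain `c(h⁻¹ g)`
  let e : A → ℤ := fun a => if nchi μ a + nchi χ a < p then 0 else 1
  have he : ∀ a, (nchi μχ a : ℤ) = nchi μ a + nchi χ a - p * e a := by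
    intro a
    have h1 : nchi μχ a = (nchi μ a + nchi χ a) % p := by
      show (Multiplicative.toAdd (μ a * χ a)).val = _
      rw [toAdd_mul, ZMod.val_add]
      rfl
    have a1 := nchi_lt μ a
    have a2 := nchi_lt χ a
    by_cases h2 : nchi μ a + nchi χ a < p
    · show (nchi μχ a : ℤ) = nchi μ a + nchi χ a - p * (if nchi μ a + nchi χ a < p then 0 else 1)
      rw [h1, if_pos h2, Nat.mod_eq_of_lt h2]
      push_cast; ring
    · show (nchi μχ a : ℤ) = nchi μ a + nchi χ a - p * (if nchi μ a + nchi χ a < p then 0 else 1)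
      have h4 : (nchi μ a + nchi χ a) % p = nchi μ a + nchi χ a - p := by
        rw [Nat.mod_eq_sub_mod (by omega), Nat.mod_eq_of_lt (by omega)]
      rw [h1, if_neg h2, h4]
      push_cast [Nat.cast_sub (not_lt.mp h2)]
      ring
  refine null_of_c T (fun a => ((- e a : ℤ) : K)) _ fun w => ?_
  refine ⟨fun a => ((e a : ℤ) : K) • w, fun a => ((- e a : ℤ) : K) • w, ?_⟩
  show (bmap T (bchi μχ)).1 w - ((bmap T (bchi μ)).1 w + (bmap T (bchi χ)).1 w) = _
  rw [bmap_apply, bmap_apply, bmap_apply, ← map_add, ← map_sub]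
  congr 1
  funext g h
  show (bchi (K := K) μχ).1 g h • w - ((bchi (K := K) μ).1 g h • w + (bchi (K := K) χ).1 g h • w) =
    ((- e (h⁻¹ * g) : ℤ) : K) • w + ((e g : ℤ) : K) • w + ((- e h : ℤ) : K) • w
  rw [← add_smul, ← sub_smul, ← add_smul, ← add_smul, bchi_val, bchi_val, bchi_val]
  congr 1
  have c1 := nchi_key2 μχ g h
  have c2 := nchi_key2 μ g h
  have c3 := nchi_key2 χ g h
  have key : ((if nchi μχ g < nchi μχ h then 1 else 0 : ℤ) - ((if nchi μ g < nchi μ h then 1 else 0)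
      + (if nchi χ g < nchi χ h then 1 else 0))) = - e (h⁻¹ * g) + e g + - e h := by
    have hp0 : (p : ℤ) ≠ 0 := by exact_mod_cast hp.ne_zero
    apply mul_left_cancel₀ hp0
    have ite1 : ∀ (Q : Prop) [Decidable Q], ((if Q then p else 0 : ℕ) : ℤ) =
        (p : ℤ) * (if Q then 1 else 0) := by
      intro Q _
      split_ifs <;> simp
    have c1' := congrArg (fun n : ℕ => (n : ℤ)) c1
    have c2' := congrArg (fun n : ℕ => (n : ℤ)) c2
    have c3' := congrArg (fun n : ℕ => (n : ℤ)) c3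
    simp only [Nat.cast_add, ite1] at c1' c2' c3'
    rw [he, he, he] at c1'
    linear_combination c2' + c3' - c1'
  have key2 := congrArg (fun n : ℤ => (n : K)) key
  simp only [Int.cast_sub, Int.cast_add, Int.cast_neg, Int.cast_ite, Int.cast_one,
    Int.cast_zero] at key2 ⊢
  exact key2

/-- Case 2: exponent `p`, not commutative. -/
theorem chou_case2 (hP : IsPGroup p P) (hexp : ∀ g : P, g ^ p = 1) (x y : P)
    (hxy : x * y ≠ y * x) : ∃ C : ℕ, ∀ W : FRep K P, cc W ≤ C * del W := by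
  have hp : p.Prime := Fact.out
  haveI : NeZero p := ⟨hp.ne_zero⟩
  haveI : Fact (1 < p) := ⟨hp.one_lt⟩
  -- an element of the second center which is not central
  obtain ⟨z, hz1, hz2⟩ : ∃ z : P, z ∉ Subgroup.center P ∧
      ∀ u : P, u * z * u⁻¹ * z⁻¹ ∈ Subgroup.center P := by
    have hq : IsPGroup p (P ⧸ Subgroup.center P) := hP.to_quotient _
    haveI : Nontrivial (P ⧸ Subgroup.center P) := by
      by_contra hnt
      rw [not_nontrivial_iff_subsingleton, QuotientGroup.subsingleton_iff] at hnt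
      apply hxy
      have : x ∈ Subgroup.center P := by rw [hnt]; trivial
      exact (Subgroup.mem_center_iff.1 this y).symm
    haveI := hq.center_nontrivial
    obtain ⟨q, hq⟩ := exists_ne (1 : Subgroup.center (P ⧸ Subgroup.center P))
    obtain ⟨z, hz⟩ := QuotientGroup.mk_surjective (q : P ⧸ Subgroup.center P)
    refine ⟨z, ?_, fun u => ?_⟩
    · intro h
      apply hq
      apply Subtype.ext
      rw [← hz]
      exact (QuotientGroup.eq_one_iff z).2 h
    · rw [← QuotientGroup.eq_one_iff]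
      have h1 := Subgroup.mem_center_iff.1 q.2 (u : P ⧸ Subgroup.center P)
      rw [← hz] at h1
      show (u : P ⧸ Subgroup.center P) * z * (u : P ⧸ Subgroup.center P)⁻¹ *
        (z : P ⧸ Subgroup.center P)⁻¹ = 1
      rw [h1]
      group
  obtain ⟨u, hu⟩ : ∃ u : P, u * z ≠ z * u := by
    by_contra h
    push Not at h
    exact hz1 (Subgroup.mem_center_iff.2 h)
  set w : P := u * z * u⁻¹ * z⁻¹ with hw
  have hwc : ∀ g, g * w = w * g := Subgroup.mem_center_iff.1 (hz2 u)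
  have hw1 : w ≠ 1 := by
    intro h
    apply hu
    rw [hw, mul_inv_eq_one, mul_inv_eq_iff_eq_mul] at h
    exact h
  have hcom : Commute z w := hwc z
  let ψ : Multiplicative (ZMod p) × Multiplicative (ZMod p) →* P :=
    { toFun := fun ab => z ^ (Multiplicative.toAdd ab.1).val * w ^ (Multiplicative.toAdd ab.2).val
      map_one' := by simp
      map_mul' := by
        intro a b
        show z ^ (Multiplicative.toAdd (a.1 * b.1)).val * w ^ (Multiplicative.toAdd (a.2 * b.2)).val =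
          z ^ (Multiplicative.toAdd a.1).val * w ^ (Multiplicative.toAdd a.2).val *
          (z ^ (Multiplicative.toAdd b.1).val * w ^ (Multiplicative.toAdd b.2).val)
        rw [toAdd_mul, toAdd_mul, ZMod.val_add, ZMod.val_add, ← pow_eq_pow_mod _ (hexp z),
          ← pow_eq_pow_mod _ (hexp w), pow_add, pow_add]
        have := (hcom.pow_pow (Multiplicative.toAdd b.1).val (Multiplicative.toAdd a.2).val).eq
        rw [mul_assoc, mul_assoc, ← mul_assoc (z ^ (Multiplicative.toAdd b.1).val), this]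
        rw [mul_assoc] }
  have hψ : ∀ a b, ψ (a, b) = z ^ (Multiplicative.toAdd a).val * w ^ (Multiplicative.toAdd b).val :=
    fun a b => rfl
  have hwn : ∀ n : ℕ, n < p → w ^ n = 1 → n = 0 := by
    intro n hn h
    have h1 : orderOf w = p := orderOf_eq_prime (hexp w) hw1
    have h2 := orderOf_dvd_of_pow_eq_one h
    rw [h1] at h2
    exact Nat.eq_zero_of_dvd_of_lt h2 hn
  have hinj : Function.Injective ψ := by
    rw [injective_iff_map_eq_one]
    rintro ⟨a, b⟩ hab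
    rw [hψ] at hab
    have ha : (Multiplicative.toAdd a).val = 0 := by
      by_contra hne
      -- z is a power of z^n which is central
      set n := (Multiplicative.toAdd a).val with hn
      have hnp : n < p := ZMod.val_lt _
      have hcop : Nat.Coprime n p := by
        rw [Nat.coprime_comm, hp.coprime_iff_not_dvd]
        intro h
        exact hne (Nat.eq_zero_of_dvd_of_lt h hnp)
      have hzn : z ^ n ∈ Subgroup.center P := by
        rw [eq_inv_of_mul_eq_one_left hab]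
        exact Subgroup.inv_mem _ (Subgroup.pow_mem _ (hz2 u) _)
      apply hz1
      have hordz : orderOf z ∣ p := orderOf_dvd_of_pow_eq_one (hexp z)
      have hcop2 : Nat.Coprime n (orderOf z) := Nat.Coprime.coprime_dvd_right hordz hcop
      obtain ⟨k, hk⟩ := exists_pow_eq_self_of_coprime hcop2
      rw [← hk]
      exact Subgroup.pow_mem _ hzn _
    rw [ha, pow_zero, one_mul] at hab
    have hb := hwn _ (ZMod.val_lt _) hab
    rw [ZMod.val_eq_zero] at ha hb
    exact Prod.ext ha hb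
  let A : Subgroup P := ψ.range
  let E : Multiplicative (ZMod p) × Multiplicative (ZMod p) ≃* A := MonoidHom.ofInjective hinj
  have hE : ∀ q, ((E q : A) : P) = ψ q := fun q => rfl
  let χ : A →* Multiplicative (ZMod p) := (MonoidHom.fst _ _).comp E.symm.toMonoidHom
  let μ : A →* Multiplicative (ZMod p) := (MonoidHom.snd _ _).comp E.symm.toMonoidHom
  have hconj : ∀ a b, u * ψ (a, b) * u⁻¹ = ψ (a, b * a) := by
    intro a b
    rw [hψ, hψ, toAdd_mul, ZMod.val_add, ← pow_eq_pow_mod _ (hexp w), pow_add]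
    have h1 : u * z * u⁻¹ = w * z := by
      rw [hw]; group
    have h2 : u * w * u⁻¹ = w := by
      rw [hwc u]; group
    have h3 : u * (z ^ (Multiplicative.toAdd a).val * w ^ (Multiplicative.toAdd b).val) * u⁻¹ =
        (u * z * u⁻¹) ^ (Multiplicative.toAdd a).val *
        (u * w * u⁻¹) ^ (Multiplicative.toAdd b).val := by
      rw [conj_pow, conj_pow]
      group
    rw [h3, h1, h2, (hcom.symm).mul_pow]
    have h4 := (hcom.pow_pow (Multiplicative.toAdd a).val
      ((Multiplicative.toAdd b).val + (Multiplicative.toAdd a).val)).eq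
    rw [← pow_add, h4, pow_add]
    have h5 := (hcom.pow_pow (Multiplicative.toAdd a).val (Multiplicative.toAdd b).val).eq
    rw [mul_assoc, h5, ← mul_assoc, ← pow_add, add_comm, pow_add]
  have huA : ∀ a ∈ A, u * a * u⁻¹ ∈ A := by
    rintro _ ⟨⟨a, b⟩, rfl⟩
    rw [hconj]
    exact ⟨_, rfl⟩
  refine chou_case2' hP A u (hexp u) huA χ μ ?_ ?_
  · refine ⟨E (Multiplicative.ofAdd 1, 1), ?_⟩
    show (E.symm (E (Multiplicative.ofAdd 1, 1))).1 ≠ 1
    rw [MulEquiv.symm_apply_apply]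
    intro h
    exact one_ne_zero (Multiplicative.ofAdd.injective h)
  · intro a
    obtain ⟨⟨b, c⟩, rfl⟩ := E.surjective a
    have h1 : (⟨u * (E (b, c) : A) * u⁻¹, huA _ (E (b, c)).2⟩ : A) = E (b, c * b) := by
      apply Subtype.ext
      show u * ψ (b, c) * u⁻¹ = ψ (b, c * b)
      exact hconj b c
    rw [h1]
    show (E.symm (E (b, c * b))).2 = (E.symm (E (b, c))).2 * (E.symm (E (b, c))).1
    rw [MulEquiv.symm_apply_apply, MulEquiv.symm_apply_apply]

end Pool.Agent.H34.Gam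

end
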