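import Pool.Agent.H34.Gam.PG

/-!
Definitions for the Chouinard part: multilinear coinduction `ML A Y W`.
-/

set_option autoImplicit false
set_option linter.unusedSectionVars false

noncomputable section

namespace Pool.Agent.H34.Gam

open Module

variable {K P : Type} [Field K] [Group P] [Fintype P]

/-- `cc` of the restriction to a subgroup -/
def ccS (H : Subgroup P) (W : FRep K P) : ℕ :=
  letI : Fintype H := Fintype.ofFinite H
  cc (FRep.res H W)

/-- sum of `ccS H W` over the proper subgroups -/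
def del (W : FRep K P) : ℕ := ∑ H ∈ (Set.toFinite {H : Subgroup P | H ≠ ⊤}).toFinset, ccS H W

/-- rank of the map induced on `Ĥ⁰(P, -) = [triv, -]` -/
def Fr {W W' : FRep K P} (f : EHom W W') : ℕ :=
  finrank K (LinearMap.range (Hs.mapR (FRep.triv K P) f))

/-- `dim Ĥ⁰(P, W)` -/
def Fd (W : FRep K P) : ℕ := hh 0 (FRep.triv K P) W

/-- the twisting element `out(c)⁻¹ g out(g⁻¹ c)` -/
def tw (A : Subgroup P) (g : P) (c : P ⧸ A) : A :=
  ⟨(Quotient.out c)⁻¹ * g * Quotient.out (g⁻¹ • c), by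
    have h1 : (QuotientGroup.mk (Quotient.out c) : P ⧸ A) = c := Quotient.out_eq' c
    have h2 : (QuotientGroup.mk (Quotient.out (g⁻¹ • c)) : P ⧸ A) = g⁻¹ • c :=
      Quotient.out_eq' _
    have h3 : (QuotientGroup.mk (g * Quotient.out (g⁻¹ • c)) : P ⧸ A) =
        QuotientGroup.mk (Quotient.out c) := by
      have h5 : (QuotientGroup.mk (g * Quotient.out (g⁻¹ • c)) : P ⧸ A) =
          g • (QuotientGroup.mk (Quotient.out (g⁻¹ • c)) : P ⧸ A) := rfl
      rw [h5, h2, smul_inv_smul, h1]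
    rw [QuotientGroup.eq] at h3
    have h4 := A.inv_mem h3
    convert h4 using 1
    group⟩

lemma tw_val (A : Subgroup P) (g : P) (c : P ⧸ A) :
    ((tw A g c : A) : P) = (Quotient.out c)⁻¹ * g * Quotient.out (g⁻¹ • c) := rfl

lemma tw_mul (A : Subgroup P) (g h : P) (c : P ⧸ A) :
    tw A (g * h) c = tw A g c * tw A h (g⁻¹ • c) := by
  apply Subtype.ext
  rw [Subgroup.coe_mul, tw_val, tw_val, tw_val, mul_inv_rev, mul_smul]
  group

lemma tw_one (A : Subgroup P) (c : P ⧸ A) : tw A 1 c = 1 := by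
  apply Subtype.ext
  rw [tw_val, inv_one, one_smul]
  simp

variable (A : Subgroup P)

/-- the twisted action on families `P/A → Y`: `(g v)(c) = tw g c • v (g⁻¹ c)` -/
def fam (Y : FRep K A) (g : P) (v : P ⧸ A → Y.V) : P ⧸ A → Y.V :=
  fun c => Y.ρ (tw A g c) (v (g⁻¹ • c))

lemma fam_mul (Y : FRep K A) (g h : P) (v : P ⧸ A → Y.V) :
    fam A Y (g * h) v = fam A Y g (fam A Y h v) := by
  funext c
  unfold fam
  rw [tw_mul, FRep.mul_apply, mul_inv_rev, mul_smul]

lemma fam_one (Y : FRep K A) (v : P ⧸ A → Y.V) : fam A Y 1 v = v := by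
  funext c
  unfold fam
  rw [tw_one, FRep.one_apply, inv_one, one_smul]

/-- `g`-conjugate of a multilinear map -/
def mlact (Y : FRep K A) (W : FRep K P) (g : P) :
    MultilinearMap K (fun _ : P ⧸ A => Y.V) W.V →ₗ[K]
      MultilinearMap K (fun _ : P ⧸ A => Y.V) W.V where
  toFun φ := (W.ρ g).compMultilinearMap
    (((φ.domDomCongr (MulAction.toPerm g : Equiv.Perm (P ⧸ A))).compLinearMap
      (fun c => Y.ρ (tw A g⁻¹ (g⁻¹ • c)))))
  map_add' φ ψ := by
    apply MultilinearMap.ext; intro v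
    simp
  map_smul' c φ := by
    apply MultilinearMap.ext; intro v
    simp

lemma mlact_apply (Y : FRep K A) (W : FRep K P) (g : P)
    (φ : MultilinearMap K (fun _ : P ⧸ A => Y.V) W.V) (v : P ⧸ A → Y.V) :
    mlact A Y W g φ v = W.ρ g (φ (fam A Y g⁻¹ v)) := by
  show W.ρ g (φ (fun i => Y.ρ (tw A g⁻¹ (g⁻¹ • (g • i))) (v (g • i)))) = _
  congr 2
  funext i
  unfold fam
  rw [inv_smul_smul, inv_inv]

/-- `ML A Y W`: multilinear maps `Y^{P/A} → W` with the conjugation action; this is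
`Hom_K (tensor induction of Y, W)`. -/
abbrev FRep.ML (Y : FRep K A) (W : FRep K P) : FRep K P where
  V := MultilinearMap K (fun _ : P ⧸ A => Y.V) W.V
  ρ :=
    { toFun := fun g => mlact A Y W g
      map_one' := by
        refine LinearMap.ext fun φ => MultilinearMap.ext fun v => ?_
        rw [mlact_apply, FRep.one_apply, inv_one, fam_one]; rfl
      map_mul' := by
        intro g h
        refine LinearMap.ext fun φ => MultilinearMap.ext fun v => ?_
        rw [mlact_apply, Module.End.mul_apply, mlact_apply, mlact_apply, FRep.mul_apply,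
          mul_inv_rev, fam_mul] }

lemma FRep.ML_apply (Y : FRep K A) (W : FRep K P) (g : P)
    (φ : MultilinearMap K (fun _ : P ⧸ A => Y.V) W.V) (v : P ⧸ A → Y.V) :
    (((FRep.ML A Y W).ρ g φ : (FRep.ML A Y W).V) :
      MultilinearMap K (fun _ : P ⧸ A => Y.V) W.V) v = W.ρ g (φ (fam A Y g⁻¹ v)) :=
  mlact_apply A Y W g φ v

/-- pull-back along a family of linear maps -/
def MLl {Y Y' : FRep K A} (f : P ⧸ A → (Y.V →ₗ[K] Y'.V)) (W : FRep K P) :
    (FRep.ML A Y' W).V →ₗ[K] (FRep.ML A Y W).V :=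
  MultilinearMap.compLinearMapₗ f

lemma MLl_apply {Y Y' : FRep K A} (f : P ⧸ A → (Y.V →ₗ[K] Y'.V)) (W : FRep K P)
    (φ : MultilinearMap K (fun _ : P ⧸ A => Y'.V) W.V) (v : P ⧸ A → Y.V) :
    (MLl A f W φ : MultilinearMap K (fun _ : P ⧸ A => Y.V) W.V) v = φ (fun c => f c (v c)) := rfl

/-- contravariant functoriality -/
def MLm {Y Y' : FRep K A} (f : EHom Y Y') (W : FRep K P) :
    EHom (FRep.ML A Y' W) (FRep.ML A Y W) :=
  ⟨MLl A (fun _ => f.1) W, by
    intro g φ
    refine MultilinearMap.ext fun v => ?_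
    have h1 : (fun c => f.1 (fam A Y g⁻¹ v c)) = fam A Y' g⁻¹ (fun c => f.1 (v c)) := by
      funext c
      unfold fam
      exact EHom.map f _ _
    have h2 := FRep.ML_apply A Y' W g φ (fun c => f.1 (v c))
    have h3 := FRep.ML_apply A Y W g (MLl A (fun _ => f.1) W φ) v
    rw [← h1] at h2
    exact h2.trans h3.symm⟩

lemma MLm_apply {Y Y' : FRep K A} (f : EHom Y Y') (W : FRep K P)
    (φ : MultilinearMap K (fun _ : P ⧸ A => Y'.V) W.V) (v : P ⧸ A → Y.V) :
    ((MLm A f W).1 φ : MultilinearMap K (fun _ : P ⧸ A => Y.V) W.V) v =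
      φ (fun c => f.1 (v c)) := rfl

/-- negligible modules -/
def Neg (Y : FRep K A) : Prop := ∃ C : ℕ, ∀ W : FRep K P, cc (FRep.ML A Y W) ≤ C * del W

/-- maps inducing small maps on `Ĥ⁰(P, ML A - W)` -/
def SmallMap {Y Y' : FRep K A} (f : EHom Y Y') : Prop :=
  ∃ C : ℕ, ∀ W : FRep K P, Fr (MLm A f W) ≤ C * del W

/-- maps inducing almost isomorphisms on `Ĥ⁰(P, ML A - W)` -/
def AI {Y Y' : FRep K A} (f : EHom Y Y') : Prop :=
  ∃ C : ℕ, ∀ W : FRep K P, Fd (FRep.ML A Y' W) ≤ Fr (MLm A f W) + C * del W ∧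
    Fd (FRep.ML A Y W) ≤ Fr (MLm A f W) + C * del W

end Pool.Agent.H34.Gam

end
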