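import Pool.Agent.H34.Gam.ChMLses

/-!
Properties of `ML A Y W` (job GAM-CHML).
-/

set_option autoImplicit false
set_option linter.unusedSectionVars false

noncomputable section

namespace Pool.Agent.H34.Gam

open Module

variable {K P : Type} [Field K] [Group P] [Fintype P] {p : ℕ} [Fact p.Prime] [CharP K p]
variable (A : Subgroup P)

theorem MLm_comp {Y Y' Y'' : FRep K A} (f : EHom Y' Y'') (e : EHom Y Y') (W : FRep K P) :
    MLm A ((ecomp f e)) W = (ecomp (MLm A e W) (MLm A f W)) := by
  rfl

theorem MLm_id (Y : FRep K A) (W : FRep K P) : MLm A (EHom.id Y) W = EHom.id _ := by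
  rfl

/-- `ML A triv W ≅ W` -/
theorem ML_triv (W : FRep K P) : Iso (FRep.ML A (FRep.triv K A) W) W := by
  classical
  letI : Fintype (P ⧸ A) := Fintype.ofFinite _
  refine ⟨⟨{ toFun := fun φ => φ (fun _ => (1 : K))
             map_add' := fun _ _ => rfl
             map_smul' := fun _ _ => rfl }, fun g φ => ?_⟩, ?_, ?_⟩
  · exact FRep.ML_apply A (FRep.triv K A) W g φ (fun _ => (1 : K))
  · intro φ ψ h
    have h' : φ (fun _ => (1 : K)) = ψ (fun _ => (1 : K)) := h
    refine MultilinearMap.ext fun v => ?_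
    have h1 : ∀ θ : MultilinearMap K (fun _ : P ⧸ A => K) W.V,
        θ v = (∏ c, v c) • θ (fun _ => (1 : K)) := by
      intro θ
      rw [← MultilinearMap.map_smul_univ]
      congr 1
      funext c
      simp
    exact (h1 φ).trans ((congrArg _ h').trans (h1 ψ).symm)
  · intro w
    refine ⟨MultilinearMap.mkPiRing K (P ⧸ A) w, ?_⟩
    show MultilinearMap.mkPiRing K (P ⧸ A) w (fun _ => (1 : K)) = w
    simp

lemma finrank_ML (Y : FRep K A) (W : FRep K P) :
    finrank K (FRep.ML A Y W).V = finrank K (FRep.ML A Y (FRep.triv K P)).V * finrank K W.V := by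
  classical
  let b := Module.finBasis K W.V
  let e : (FRep.ML A Y W).V ≃ₗ[K] (Fin (finrank K W.V) → (FRep.ML A Y (FRep.triv K P)).V) :=
    { toFun := fun φ i => (b.coord i).compMultilinearMap φ
      map_add' := fun φ ψ => by
        funext i
        refine MultilinearMap.ext fun v => ?_
        exact map_add (b.coord i) (φ v) (ψ v)
      map_smul' := fun c φ => by
        funext i
        refine MultilinearMap.ext fun v => ?_
        exact map_smul (b.coord i) c (φ v)
      invFun := fun ψ => ∑ i, MultilinearMap.smulRight (ψ i) (b i)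
      left_inv := fun φ => by
        refine MultilinearMap.ext fun v => ?_
        rw [sum_apply]
        exact b.sum_repr (φ v)
      right_inv := fun ψ => by
        funext i
        refine MultilinearMap.ext fun v => ?_
        show b.coord i ((∑ j, MultilinearMap.smulRight (ψ j) (b j)) v) = ψ i v
        rw [sum_apply, map_sum, Finset.sum_eq_single i]
        · show b.coord i ((ψ i v : K) • b i) = ψ i v
          rw [map_smul, Basis.coord_apply, Basis.repr_self, Finsupp.single_eq_same, smul_eq_mul,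
            mul_one]
        · intro j _ hj
          show b.coord i ((ψ j v : K) • b j) = 0
          rw [map_smul, Basis.coord_apply, Basis.repr_self, Finsupp.single_eq_of_ne (Ne.symm hj),
            smul_zero]
        · intro h; exact absurd (Finset.mem_univ _) h }
  rw [e.finrank_eq, Module.finrank_pi_fintype, Finset.sum_const, Finset.card_univ,
    Fintype.card_fin, smul_eq_mul, mul_comm]

/-- restrictions to subgroups -/
theorem ccS_ML_le (hP : IsPGroup p P) (Y : FRep K A) : ∃ C : ℕ, ∀ (W : FRep K P) (H : Subgroup P),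
    ccS H (FRep.ML A Y W) ≤ C * ccS H W := by
  refine ⟨finrank K (FRep.ML A Y (FRep.triv K P)).V, fun W H => ?_⟩
  letI : Fintype H := Fintype.ofFinite H
  have hH : IsPGroup p H := hP.to_subgroup H
  refine cc_bilin hH (FRep.res H (FRep.ML A Y (FRep.triv K P))) (FRep.res H W)
    (FRep.res H (FRep.ML A Y W))
    (LinearMap.mk₂ K (fun φ w => MultilinearMap.smulRight φ w) ?_ ?_ ?_ ?_) ?_ ?_ ?_
  · intro φ φ' w
    exact MultilinearMap.ext fun v => add_smul (φ v : K) (φ' v) w
  · intro c φ w
    exact MultilinearMap.ext fun v => mul_smul c (φ v : K) w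
  · intro φ w w'
    exact MultilinearMap.ext fun v => smul_add (φ v : K) w w'
  · intro c φ w
    exact MultilinearMap.ext fun v => smul_comm (φ v : K) c w
  · intro g φ w
    refine MultilinearMap.ext fun v => ?_
    have h1 := FRep.ML_apply A Y W g.1 (MultilinearMap.smulRight φ w) v
    have h2 := FRep.ML_apply A Y (FRep.triv K P) g.1 φ v
    refine h1.trans ?_
    show W.ρ g.1 ((φ (fam A Y g.1⁻¹ v) : K) • w) =
      (((FRep.ML A Y (FRep.triv K P)).ρ g.1 φ : (FRep.ML A Y (FRep.triv K P)).V) v : K) • W.ρ g.1 w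
    rw [map_smul, h2]
    rfl
  · intro f
    refine ⟨{ toFun := fun φ => f.compMultilinearMap φ
              map_add' := fun φ ψ => MultilinearMap.ext fun v => map_add f (φ v) (ψ v)
              map_smul' := fun c φ => MultilinearMap.ext fun v => map_smul f c (φ v) },
      fun φ w => ?_⟩
    refine MultilinearMap.ext fun v => ?_
    show f ((φ v : K) • w) = f w • (φ v : K)
    rw [map_smul, smul_eq_mul, smul_eq_mul, mul_comm]
  · exact finrank_ML A Y W

theorem del_ML_le (hP : IsPGroup p P) (Y : FRep K A) : ∃ C : ℕ, ∀ W : FRep K P,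
    del (FRep.ML A Y W) ≤ C * del W := by
  obtain ⟨C, hC⟩ := ccS_ML_le A hP Y
  refine ⟨C, fun W => ?_⟩
  unfold del
  rw [Finset.mul_sum]
  exact Finset.sum_le_sum fun H _ => hC W H

lemma MLm_bijective {Y Y' : FRep K A} (f : EHom Y Y') (hf : Function.Bijective f.1)
    (W : FRep K P) : Function.Bijective (MLm A f W).1 := by
  let e := LinearEquiv.ofBijective f.1 hf
  constructor
  · intro φ ψ h
    refine MultilinearMap.ext fun v => ?_
    have h1 := DFunLike.congr_fun h (fun c => e.symm (v c))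
    have h2 : (fun c => f.1 (e.symm (v c))) = v := funext fun c => e.apply_symm_apply (v c)
    have h3 : φ (fun c => f.1 (e.symm (v c))) = ψ (fun c => f.1 (e.symm (v c))) := h1
    rwa [h2] at h3
  · intro ψ
    refine ⟨MultilinearMap.compLinearMap ψ (fun _ => e.symm.toLinearMap), ?_⟩
    refine MultilinearMap.ext fun v => ?_
    have h2 : (fun c => e.symm (f.1 (v c))) = v := funext fun c => e.symm_apply_apply (v c)
    show ψ (fun c => e.symm (f.1 (v c))) = ψ v
    rw [h2]

theorem Neg_iso {Y Y' : FRep K A} (h : Iso Y Y') (hY : Neg A Y) : Neg A Y' := by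
  obtain ⟨f, hf⟩ := h
  obtain ⟨C, hC⟩ := hY
  refine ⟨C, fun W => ?_⟩
  rw [cc_iso ⟨MLm A f W, MLm_bijective A f hf W⟩]
  exact hC W

lemma fam_inv_apply (Y : FRep K A) (g : P) (v : P ⧸ A → Y.V) (c : P ⧸ A) :
    fam A Y g⁻¹ v c = Y.ρ (tw A g⁻¹ c) (v (g • c)) := by
  unfold fam
  rw [inv_inv]

lemma tw_cancel (g : P) (c : P ⧸ A) : tw A g⁻¹ c * tw A g (g • c) = 1 := by
  have := tw_mul A g⁻¹ g c
  rw [inv_inv, inv_mul_cancel, tw_one] at this
  exact this.symm

/-- modules with a decomposition permuted by `A` without fixed points are negligible -/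
theorem Neg_perm (hP : IsPGroup p P) (Y : FRep K A) {I : Type} [Fintype I] [MulAction A I]
    (π : I → (Y.V →ₗ[K] Y.V)) (hπ : ∀ (a : A) (i : I) (y : Y.V),
      π (a • i) (Y.ρ a y) = Y.ρ a (π i y)) (hsum : ∀ y, ∑ i, π i y = y)
    (hfix : ∀ i : I, ∃ a : A, a • i ≠ i) : Neg A Y := by
  classical
  letI : Fintype (P ⧸ A) := Fintype.ofFinite _
  letI act : MulAction P (P ⧸ A → I) :=
    { smul := fun g ι c => tw A g c • ι (g⁻¹ • c)
      one_smul := fun ι => by
        funext c
        show tw A 1 c • ι ((1 : P)⁻¹ • c) = ι c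
        rw [tw_one, inv_one, one_smul, one_smul]
      mul_smul := fun g h ι => by
        funext c
        show tw A (g * h) c • ι ((g * h)⁻¹ • c) =
          tw A g c • (tw A h (g⁻¹ • c) • ι (h⁻¹ • g⁻¹ • c))
        rw [tw_mul, mul_smul, mul_inv_rev, mul_smul] }
  have hact : ∀ (g : P) (ι : P ⧸ A → I) (c : P ⧸ A), (g • ι) c = tw A g c • ι (g⁻¹ • c) :=
    fun _ _ _ => rfl
  obtain ⟨C, hC⟩ := del_ML_le A hP Y
  refine ⟨Fintype.card P * (Fintype.card (P ⧸ A → I) * C), fun W => ?_⟩
  have h1 := orbit_sum hP (FRep.ML A Y W) (FRep.ML A Y W)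
    (fun ι : P ⧸ A → I => MLl A (fun c => π (ι c)) W) ?_ ?_ (EHom.id _) ?_
  · rw [Fr_id] at h1
    calc cc (FRep.ML A Y W) ≤ Fintype.card P * Fd (FRep.ML A Y W) := cc_le_Fd hP _
      _ ≤ Fintype.card P * (Fintype.card (P ⧸ A → I) * del (FRep.ML A Y W)) :=
          Nat.mul_le_mul_left _ h1
      _ ≤ Fintype.card P * (Fintype.card (P ⧸ A → I) * (C * del W)) :=
          Nat.mul_le_mul_left _ (Nat.mul_le_mul_left _ (hC W))
      _ = _ := by ring
  · intro g ι φ
    refine MultilinearMap.ext fun v => ?_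
    rw [MLl_apply]
    refine (FRep.ML_apply A Y W g φ _).trans ?_
    refine Eq.trans ?_ (FRep.ML_apply A Y W g (MLl A (fun c => π (ι c)) W φ) v).symm
    rw [MLl_apply]
    congr 2
    funext c
    rw [fam_inv_apply, fam_inv_apply, ← hπ, hact, smul_smul, inv_smul_smul, tw_cancel, one_smul]
  · intro ι
    by_contra hcon
    push Not at hcon
    let c0 : P ⧸ A := QuotientGroup.mk 1
    have hout : Quotient.out c0 ∈ A := by
      have h1 : (QuotientGroup.mk (Quotient.out c0) : P ⧸ A) = QuotientGroup.mk 1 :=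
        Quotient.out_eq' c0
      rw [QuotientGroup.eq, mul_one] at h1
      exact (A.inv_mem_iff).1 h1
    obtain ⟨a, ha⟩ := hfix (ι c0)
    apply ha
    let g : P := Quotient.out c0 * a.1 * (Quotient.out c0)⁻¹
    have hg : g ∈ A := A.mul_mem (A.mul_mem hout a.2) (A.inv_mem hout)
    have hc0 : g⁻¹ • c0 = c0 := by
      show (QuotientGroup.mk (g⁻¹ * 1) : P ⧸ A) = QuotientGroup.mk 1
      rw [QuotientGroup.eq]
      simpa using hg
    have htw : tw A g c0 = a := by
      apply Subtype.ext
      rw [tw_val, hc0]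
      simp only [g]
      group
    have h2 := congrFun (hcon g) c0
    rw [hact, hc0, htw] at h2
    exact h2
  · intro φ
    refine MultilinearMap.ext fun v => ?_
    have h2 : (fun c => ∑ i, π i (v c)) = v := funext fun c => hsum (v c)
    have h3 := MultilinearMap.map_sum (f := φ) (fun (c : P ⧸ A) (i : I) => π i (v c))
    rw [h2] at h3
    have h6 : ((∑ ι : P ⧸ A → I, MLl A (fun c => π (ι c)) W φ : (FRep.ML A Y W).V) :
        MultilinearMap K (fun _ : P ⧸ A => Y.V) W.V) v =
        ∑ ι : P ⧸ A → I, φ (fun c => π (ι c) (v c)) := sum_apply _ _ _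
    exact h3.trans h6.symm

theorem Neg_Fn (hP : IsPGroup p P) (hA : ∃ a : A, a ≠ 1) (Y : FRep K A) :
    Neg A (FRep.Fn Y) := by
  classical
  letI : Fintype A := Fintype.ofFinite _
  refine Neg_perm A hP (FRep.Fn Y) (I := A)
    (fun i => (LinearMap.single K (fun _ : A => Y.V) i) ∘ₗ
      (LinearMap.proj i : (A → Y.V) →ₗ[K] Y.V)) ?_ ?_ ?_
  · intro a i f
    funext x
    rw [FRep.Fn_apply]
    show (Pi.single (a • i) (((FRep.Fn Y).ρ a f : A → Y.V) (a • i)) : A → Y.V) x =
      Y.ρ a ((Pi.single i (f i) : A → Y.V) (a⁻¹ * x))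
    rw [FRep.Fn_apply, smul_eq_mul, inv_mul_cancel_left]
    by_cases h : x = a * i
    · subst h
      rw [inv_mul_cancel_left, Pi.single_eq_same, Pi.single_eq_same]
    · rw [Pi.single_eq_of_ne h, Pi.single_eq_of_ne, map_zero]
      intro h'
      apply h
      rw [← h', mul_inv_cancel_left]
  · intro f
    exact Finset.univ_sum_single f
  · intro i
    obtain ⟨a, ha⟩ := hA
    refine ⟨a, fun h => ha ?_⟩
    rw [smul_eq_mul] at h
    exact mul_eq_right.1 h

/-- additivity up to small maps -/
theorem MLm_add (hP : IsPGroup p P) {Y Y' : FRep K A} (f f' : EHom Y Y') :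
    ∃ C : ℕ, ∀ W : FRep K P,
      Fr (MLm A (f + f') W - MLm A f W - MLm A f' W) ≤ C * del W := by
  classical
  letI : Fintype (P ⧸ A) := Fintype.ofFinite _
  let ct : P ⧸ A → Bool := fun _ => true
  let cf : P ⧸ A → Bool := fun _ => false
  let S : Type := {r : P ⧸ A → Bool // r ≠ ct ∧ r ≠ cf}
  have hcc : ∀ (g : P) (b : Bool) (r : P ⧸ A → Bool),
      (fun c => r (g⁻¹ • c)) = (fun _ => b) → r = (fun _ => b) := by
    intro g b r h
    funext c
    have := congrFun h (g • c)
    simpa using this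
  letI act : MulAction P S :=
    { smul := fun g r => ⟨fun c => r.1 (g⁻¹ • c), fun h => r.2.1 (hcc g true r.1 h),
        fun h => r.2.2 (hcc g false r.1 h)⟩
      one_smul := fun r => by
        apply Subtype.ext
        funext c
        show r.1 ((1 : P)⁻¹ • c) = r.1 c
        rw [inv_one, one_smul]
      mul_smul := fun g h r => by
        apply Subtype.ext
        funext c
        show r.1 ((g * h)⁻¹ • c) = r.1 (h⁻¹ • g⁻¹ • c)
        rw [mul_inv_rev, mul_smul] }
  have hact : ∀ (g : P) (r : S) (c : P ⧸ A), (g • r).1 c = r.1 (g⁻¹ • c) :=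
    fun _ _ _ => rfl
  let hh : Bool → EHom Y Y' := fun b => if b then f else f'
  obtain ⟨C, hC⟩ := del_ML_le A hP Y'
  refine ⟨Fintype.card S * C, fun W => ?_⟩
  have h1 := orbit_sum hP (FRep.ML A Y' W) (FRep.ML A Y W)
    (fun r : S => MLl A (fun c => (hh (r.1 c)).1) W) ?_ ?_
    (MLm A (f + f') W - MLm A f W - MLm A f' W) ?_
  · calc _ ≤ Fintype.card S * del (FRep.ML A Y' W) := h1
      _ ≤ Fintype.card S * (C * del W) := Nat.mul_le_mul_left _ (hC W)
      _ = _ := by ring
  · intro g r φ
    refine MultilinearMap.ext fun v => ?_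
    rw [MLl_apply]
    refine (FRep.ML_apply A Y' W g φ _).trans ?_
    refine Eq.trans ?_ (FRep.ML_apply A Y W g (MLl A (fun c => (hh (r.1 c)).1) W φ) v).symm
    rw [MLl_apply]
    congr 2
    funext c
    rw [fam_inv_apply, fam_inv_apply, hact, inv_smul_smul, EHom.map]
  · intro r
    by_contra hcon
    push Not at hcon
    have hconst : ∀ c, r.1 c = r.1 (QuotientGroup.mk 1) := by
      intro c
      obtain ⟨g, hg⟩ := MulAction.exists_smul_eq P c (QuotientGroup.mk 1 : P ⧸ A)
      have h2 := congrFun (congrArg Subtype.val (hcon g⁻¹)) c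
      rw [hact, inv_inv, hg] at h2
      exact h2.symm
    rcases Bool.eq_false_or_eq_true (r.1 (QuotientGroup.mk 1)) with h | h
    · exact r.2.1 (funext fun c => (hconst c).trans h)
    · exact r.2.2 (funext fun c => (hconst c).trans h)
  · intro φ
    refine MultilinearMap.ext fun v => ?_
    have h3 := MultilinearMap.map_sum (f := φ) (fun (c : P ⧸ A) (b : Bool) => (hh b).1 (v c))
    have h4 : (fun c => ∑ b, (hh b).1 (v c)) = (fun c => (f + f').1 (v c)) := by
      funext c
      rw [Fintype.sum_bool]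
      rfl
    rw [h4] at h3
    have hne : cf ≠ ct := fun h => by
      have := congrFun h (QuotientGroup.mk 1)
      exact Bool.noConfusion this
    rw [← Finset.add_sum_erase _ _ (Finset.mem_univ ct),
      ← Finset.add_sum_erase _ _ (Finset.mem_erase.2 ⟨hne, Finset.mem_univ cf⟩),
      Finset.sum_subtype (p := fun r => r ≠ ct ∧ r ≠ cf) _ (fun r => by
        rw [Finset.mem_erase, Finset.mem_erase]
        constructor
        · rintro ⟨h1, h2, _⟩; exact ⟨h2, h1⟩
        · rintro ⟨h1, h2⟩; exact ⟨h2, h1, Finset.mem_univ _⟩)] at h3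
    have h5 : (((MLm A (f + f') W - MLm A f W - MLm A f' W).1 φ : (FRep.ML A Y W).V) :
        MultilinearMap K (fun _ : P ⧸ A => Y.V) W.V) v =
        φ (fun c => (f + f').1 (v c)) - φ (fun c => f.1 (v c)) - φ (fun c => f'.1 (v c)) := rfl
    refine h5.trans ?_
    rw [h3]
    have h6 : ((∑ s : S, MLl A (fun c => (hh (s.1 c)).1) W φ : (FRep.ML A Y W).V) :
        MultilinearMap K (fun _ : P ⧸ A => Y.V) W.V) v =
        ∑ s : S, φ (fun c => (hh (s.1 c)).1 (v c)) := sum_apply _ _ _
    refine Eq.trans ?_ h6.symm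
    have h7 : (fun c => (hh (ct c)).1 (v c)) = (fun c => f.1 (v c)) := rfl
    have h8 : (fun c => (hh (cf c)).1 (v c)) = (fun c => f'.1 (v c)) := rfl
    rw [h7, h8]
    abel

end Pool.Agent.H34.Gam

end
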