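import Pool.Agent.H34.Gam.ChOS

/-!
Filtration of `ML A Y W` for a short exact sequence (job GAM-CHMLb, helper13).
-/

set_option autoImplicit false
set_option linter.unusedSectionVars false

noncomputable section

namespace Pool.Agent.H34.Gam

open Module

namespace MLs

variable {K P : Type} [Field K] [Group P] [Fintype P] {p : ℕ} [Fact p.Prime] [CharP K p]

/-! ### Subquotients -/

section Subquot

/-- stable subspaces -/
abbrev Stab (X : FRep K P) (N : Submodule K X.V) : Prop := ∀ g, ∀ x ∈ N, X.ρ g x ∈ N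

/-- the subquotient `N' / (N ∩ N')` -/
abbrev qt (X : FRep K P) (N' N : Submodule K X.V) (h' : Stab X N') (h : Stab X N) : FRep K P :=
  FRep.quot (FRep.sub X N' h') (N.comap N'.subtype) (fun g x hx => h g x.1 hx)

/-- the projection onto a quotient -/
def qmk (X : FRep K P) (N : Submodule K X.V) (h : Stab X N) : EHom X (FRep.quot X N h) :=
  ⟨N.mkQ, fun _ _ => rfl⟩

lemma qmk_surj (X : FRep K P) (N : Submodule K X.V) (h : Stab X N) :
    Function.Surjective (qmk X N h).1 := N.mkQ_surjective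

lemma qmk_eq_zero (X : FRep K P) (N : Submodule K X.V) (h : Stab X N) (x : X.V) :
    (qmk X N h).1 x = 0 ↔ x ∈ N := Submodule.Quotient.mk_eq_zero N

/-- maps out of a quotient -/
def qlift (X : FRep K P) (N : Submodule K X.V) (h : Stab X N) {Z : FRep K P} (f : EHom X Z)
    (hf : ∀ x ∈ N, f.1 x = 0) : EHom (FRep.quot X N h) Z :=
  ⟨N.liftQ f.1 hf, fun g x => by
    obtain ⟨y, rfl⟩ := N.mkQ_surjective x
    exact f.2 g y⟩

lemma qlift_mk (X : FRep K P) (N : Submodule K X.V) (h : Stab X N) {Z : FRep K P} (f : EHom X Z)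
    (hf : ∀ x ∈ N, f.1 x = 0) (x : X.V) : (qlift X N h f hf).1 ((qmk X N h).1 x) = f.1 x := rfl

/-- inclusion of stable subspaces -/
def sincl (X : FRep K P) {N N' : Submodule K X.V} (h : Stab X N) (h' : Stab X N') (hl : N ≤ N') :
    EHom (FRep.sub X N h) (FRep.sub X N' h') :=
  ⟨Submodule.inclusion hl, fun _ _ => rfl⟩

/-- inclusion -/
def sinc (X : FRep K P) {N : Submodule K X.V} (h : Stab X N) : EHom (FRep.sub X N h) X :=
  ⟨N.subtype, fun _ _ => rfl⟩

theorem cc_qt (hP : IsPGroup p P) (X : FRep K P) {N1 N2 N3 : Submodule K X.V} (h1 : Stab X N1)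
    (h2 : Stab X N2) (h3 : Stab X N3) (h12 : N1 ≤ N2) (h23 : N2 ≤ N3) :
    cc (qt X N3 N1 h3 h1) ≤ cc (qt X N2 N1 h2 h1) + cc (qt X N3 N2 h3 h2) := by
  have s12 : Stab (FRep.sub X N2 h2) (N1.comap N2.subtype) := fun g x hx => h1 g x.1 hx
  have s13 : Stab (FRep.sub X N3 h3) (N1.comap N3.subtype) := fun g x hx => h1 g x.1 hx
  have s23 : Stab (FRep.sub X N3 h3) (N2.comap N3.subtype) := fun g x hx => h2 g x.1 hx
  have hi0 : ∀ x ∈ N1.comap N2.subtype,
      ((ecomp (qmk (FRep.sub X N3 h3) (N1.comap N3.subtype) s13) (sincl X h2 h3 h23))).1 x = 0 := by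
    intro x hx
    exact (qmk_eq_zero _ _ s13 _).2 hx
  have hp0 : ∀ x ∈ N1.comap N3.subtype,
      (qmk (FRep.sub X N3 h3) (N2.comap N3.subtype) s23).1 x = 0 := by
    intro x hx
    exact (qmk_eq_zero _ _ s23 _).2 (h12 hx)
  refine cc_ses hP (SES.mk' (A := qt X N2 N1 h2 h1) (B := qt X N3 N1 h3 h1)
    (C := qt X N3 N2 h3 h2) (qlift _ _ s12 _ hi0) (qlift _ _ s13 _ hp0) ?_ ?_ ?_)
  · rw [injective_iff_map_eq_zero]
    intro x hx
    obtain ⟨y, rfl⟩ := qmk_surj _ _ s12 x
    have hx' : (qmk (FRep.sub X N3 h3) (N1.comap N3.subtype) s13).1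
      ((sincl X h2 h3 h23).1 y) = 0 := hx
    exact (qmk_eq_zero _ _ s12 _).2 ((qmk_eq_zero _ _ s13 _).1 hx')
  · intro y
    obtain ⟨x, rfl⟩ := qmk_surj _ _ s23 y
    exact ⟨(qmk _ _ s13).1 x, rfl⟩
  · intro b
    obtain ⟨x, rfl⟩ := qmk_surj _ _ s13 b
    constructor
    · intro h
      have h0 : (qmk (FRep.sub X N3 h3) (N2.comap N3.subtype) s23).1 x = 0 := h
      have h' : x.1 ∈ N2 := (qmk_eq_zero _ _ s23 _).1 h0
      exact ⟨(qmk _ _ s12).1 ⟨x.1, h'⟩, rfl⟩
    · rintro ⟨a, ha⟩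
      obtain ⟨y, rfl⟩ := qmk_surj _ _ s12 a
      have ha' : (qmk (FRep.sub X N3 h3) (N1.comap N3.subtype) s13).1
        ((sincl X h2 h3 h23).1 y) = (qmk (FRep.sub X N3 h3) (N1.comap N3.subtype) s13).1 x := ha
      have h4 : (qmk (FRep.sub X N3 h3) (N1.comap N3.subtype) s13).1
          (x - (sincl X h2 h3 h23).1 y) = 0 := by
        rw [map_sub, sub_eq_zero]
        exact ha'.symm
      have h5 : x.1 - y.1 ∈ N1 := (qmk_eq_zero _ _ s13 _).1 h4
      refine (qmk_eq_zero _ _ s23 _).2 ?_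
      have h6 : x.1 = (x.1 - y.1) + y.1 := by abel
      show x.1 ∈ N2
      rw [h6]
      exact N2.add_mem (h12 h5) y.2

theorem cc_qt_self (X : FRep K P) {N : Submodule K X.V} (h : Stab X N) :
    cc (qt X N N h h) = 0 := by
  have h0 : finrank K (qt X N N h h).V = 0 := by
    have : Subsingleton (qt X N N h h).V := by
      refine ⟨fun a b => ?_⟩
      obtain ⟨x, rfl⟩ := qmk_surj _ _ _ a
      obtain ⟨y, rfl⟩ := qmk_surj _ _ _ b
      have hx : (qmk (FRep.sub X N h) (N.comap N.subtype) (fun g x hx => h g x.1 hx)).1 x = 0 :=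
        (qmk_eq_zero _ _ _ _).2 x.2
      have hy : (qmk (FRep.sub X N h) (N.comap N.subtype) (fun g x hx => h g x.1 hx)).1 y = 0 :=
        (qmk_eq_zero _ _ _ _).2 y.2
      rw [hx, hy]
    exact Module.finrank_zero_of_subsingleton
  unfold cc
  rw [h0, Nat.zero_sub]

end Subquot

/-! ### The filtration -/

section Filt

variable (A : Subgroup P) {R Y Y'' : FRep K A} (S : SES R Y Y'')

/-- `φ` vanishes when more than `j` arguments lie in `R` -/
def Nf (j : ℕ) (W : FRep K P) : Submodule K (FRep.ML A Y W).V where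
  carrier := {φ | ∀ (v : P ⧸ A → Y.V) (J : Finset (P ⧸ A)), j < J.card →
    (∀ c ∈ J, S.p.1 (v c) = 0) → φ v = 0}
  add_mem' := by
    intro φ ψ hφ hψ v J hJ hv
    show φ v + ψ v = 0
    rw [hφ v J hJ hv, hψ v J hJ hv, add_zero]
  zero_mem' := by
    intro v J hJ hv
    rfl
  smul_mem' := by
    intro a φ hφ v J hJ hv
    show a • φ v = 0
    rw [hφ v J hJ hv, smul_zero]

lemma mem_Nf {j : ℕ} {W : FRep K P} {φ : (FRep.ML A Y W).V} : φ ∈ Nf A S j W ↔
    ∀ (v : P ⧸ A → Y.V) (J : Finset (P ⧸ A)), j < J.card →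
    (∀ c ∈ J, S.p.1 (v c) = 0) → φ v = 0 := Iff.rfl

lemma Nf_mono {j k : ℕ} (h : j ≤ k) (W : FRep K P) : Nf A S j W ≤ Nf A S k W := by
  intro φ hφ v J hJ hv
  exact hφ v J (lt_of_le_of_lt h hJ) hv

/-- the action of `P` on finite subsets of `P/A` -/
def sh (g : P) (J : Finset (P ⧸ A)) : Finset (P ⧸ A) :=
  J.map (MulAction.toPerm g : Equiv.Perm (P ⧸ A)).toEmbedding

omit [Fintype P] in
lemma mem_sh (g : P) (J : Finset (P ⧸ A)) (c : P ⧸ A) : c ∈ sh A g J ↔ g⁻¹ • c ∈ J := by
  unfold sh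
  rw [Finset.mem_map]
  constructor
  · rintro ⟨d, hd, rfl⟩
    show g⁻¹ • (g • d) ∈ J
    rwa [inv_smul_smul]
  · intro h
    exact ⟨g⁻¹ • c, h, smul_inv_smul g c⟩

omit [Fintype P] in
lemma sh_smul_mem (g : P) (J : Finset (P ⧸ A)) (c : P ⧸ A) : g • c ∈ sh A g J ↔ c ∈ J := by
  rw [mem_sh, inv_smul_smul]

omit [Fintype P] in
lemma card_sh (g : P) (J : Finset (P ⧸ A)) : (sh A g J).card = J.card := Finset.card_map _

lemma fam_ker (g : P) (v : P ⧸ A → Y.V) (c : P ⧸ A) (h : S.p.1 (v (g⁻¹ • c)) = 0) :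
    S.p.1 (fam A Y g v c) = 0 := by
  unfold fam
  rw [EHom.map, h, map_zero]

lemma Nf_stab (j : ℕ) (W : FRep K P) : Stab (FRep.ML A Y W) (Nf A S j W) := by
  intro g φ hφ v J hJ hv
  have h1 := FRep.ML_apply A Y W g φ v
  refine h1.trans ?_
  rw [hφ (fam A Y g⁻¹ v) (sh A g⁻¹ J) (by rw [card_sh]; exact hJ) ?_, map_zero]
  intro c hc
  apply fam_ker
  apply hv
  rw [mem_sh] at hc
  exact hc

open scoped Classical in
/-- project the arguments in `J` to `R` and the others to the complement -/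
def Ej (J : Finset (P ⧸ A)) (W : FRep K P) : (FRep.ML A Y W).V →ₗ[K] (FRep.ML A Y W).V :=
  MLl A (fun c => if c ∈ J then S.i.1 ∘ₗ S.r else S.s ∘ₗ S.p.1) W

open scoped Classical in
lemma Ej_apply (J : Finset (P ⧸ A)) (W : FRep K P)
    (φ : MultilinearMap K (fun _ : P ⧸ A => Y.V) W.V) (v : P ⧸ A → Y.V) :
    (Ej A S J W φ : MultilinearMap K (fun _ : P ⧸ A => Y.V) W.V) v =
      φ (fun c => if c ∈ J then S.i.1 (S.r (v c)) else S.s (S.p.1 (v c))) := by
  refine (MLl_apply A _ W φ v).trans ?_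
  congr 1
  funext c
  by_cases h : c ∈ J
  · rw [if_pos h, if_pos h]; rfl
  · rw [if_neg h, if_neg h]; rfl

/-- changing the arguments outside of `J` modulo `R` -/
lemma Nf_congr {j : ℕ} {W : FRep K P} {φ : (FRep.ML A Y W).V} (hφ : φ ∈ Nf A S j W)
    {J : Finset (P ⧸ A)} (hJ : j ≤ J.card) {v v' : P ⧸ A → Y.V}
    (h1 : ∀ c ∈ J, S.p.1 (v c) = 0) (h2 : ∀ c ∈ J, v c = v' c)
    (h3 : ∀ c, S.p.1 (v c) = S.p.1 (v' c)) : φ v = φ v' := by
  classical
  let _ : Fintype (P ⧸ A) := Fintype.ofFinite _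
  have h4 : v = v' + (v - v') := by abel
  have h5 : φ v = ∑ s : Finset (P ⧸ A), φ (s.piecewise v' (v - v')) := by
    conv_lhs => rw [h4]
    exact MultilinearMap.map_add_univ (φ : MultilinearMap K (fun _ : P ⧸ A => Y.V) W.V) _ _
  rw [h5, Finset.sum_eq_single Finset.univ]
  · congr 1
    funext c
    simp
  · intro s _ hs
    by_cases hJs : J ⊆ s
    · obtain ⟨c, hc⟩ : ∃ c, c ∉ s := by
        by_contra hcon
        push Not at hcon
        exact hs (Finset.eq_univ_iff_forall.2 hcon)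
      refine hφ _ (insert c J) ?_ ?_
      · rw [Finset.card_insert_of_notMem (fun h => hc (hJs h))]
        omega
      · intro d hd
        rw [Finset.mem_insert] at hd
        rcases hd with rfl | hd
        · rw [Finset.piecewise_eq_of_notMem _ _ _ hc]
          show S.p.1 (v d - v' d) = 0
          rw [map_sub, h3, sub_self]
        · rw [Finset.piecewise_eq_of_mem _ _ _ (hJs hd), ← h2 d hd]
          exact h1 d hd
    · obtain ⟨c, hc, hcs⟩ := Finset.not_subset.1 hJs
      refine MultilinearMap.map_coord_zero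
        (φ : MultilinearMap K (fun _ : P ⧸ A => Y.V) W.V) c ?_
      rw [Finset.piecewise_eq_of_notMem _ _ _ hcs]
      show v c - v' c = 0
      rw [h2 c hc, sub_self]
  · intro h; exact absurd (Finset.mem_univ _) h

lemma Ej_mem (J : Finset (P ⧸ A)) (W : FRep K P) (φ : (FRep.ML A Y W).V) :
    Ej A S J W φ ∈ Nf A S J.card W := by
  classical
  intro v T hT hv
  rw [Ej_apply]
  obtain ⟨c, hc, hcJ⟩ : ∃ c ∈ T, c ∉ J := by
    by_contra hcon
    push Not at hcon
    have := Finset.card_le_card (show T ⊆ J from hcon)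
    omega
  refine MultilinearMap.map_coord_zero
    (φ : MultilinearMap K (fun _ : P ⧸ A => Y.V) W.V) c ?_
  rw [if_neg hcJ, hv c hc, map_zero]

lemma Ej_zero {j : ℕ} (J : Finset (P ⧸ A)) (W : FRep K P) {φ : (FRep.ML A Y W).V}
    (hφ : φ ∈ Nf A S j W) (hJ : j < J.card) : Ej A S J W φ = 0 := by
  classical
  refine MultilinearMap.ext fun v => ?_
  refine (Ej_apply A S J W φ v).trans ?_
  refine hφ _ J hJ fun c hc => ?_
  rw [if_pos hc, S.pi]

lemma Ej_sum [Fintype (P ⧸ A)] (W : FRep K P) (φ : (FRep.ML A Y W).V) :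
    ∑ J : Finset (P ⧸ A), Ej A S J W φ = φ := by
  classical
  refine MultilinearMap.ext fun v => ?_
  have h4 : v = (fun c => S.i.1 (S.r (v c))) + (fun c => S.s (S.p.1 (v c))) := by
    funext c
    exact (S.sum (v c)).symm
  have h5 := MultilinearMap.map_add_univ
    (φ : MultilinearMap K (fun _ : P ⧸ A => Y.V) W.V)
    (fun c => S.i.1 (S.r (v c))) (fun c => S.s (S.p.1 (v c)))
  rw [← h4] at h5
  rw [h5]
  have h6 : ((∑ J : Finset (P ⧸ A), Ej A S J W φ : (FRep.ML A Y W).V) :
      MultilinearMap K (fun _ : P ⧸ A => Y.V) W.V) v =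
      ∑ J : Finset (P ⧸ A), (Ej A S J W φ : MultilinearMap K (fun _ : P ⧸ A => Y.V) W.V) v :=
    sum_apply _ _ _
  refine h6.trans ?_
  refine Finset.sum_congr rfl fun J _ => ?_
  rw [Ej_apply]
  rfl

/-- equivariance modulo the next step of the filtration -/
lemma Ej_equiv {j : ℕ} (J : Finset (P ⧸ A)) (hJ : J.card = j + 1) (W : FRep K P) (g : P)
    {φ : (FRep.ML A Y W).V} (hφ : φ ∈ Nf A S (j + 1) W) :
    Ej A S (sh A g J) W ((FRep.ML A Y W).ρ g φ) - (FRep.ML A Y W).ρ g (Ej A S J W φ) ∈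
      Nf A S j W := by
  classical
  intro v T hT hv
  have h1 : (Ej A S (sh A g J) W ((FRep.ML A Y W).ρ g φ) :
      MultilinearMap K (fun _ : P ⧸ A => Y.V) W.V) v = W.ρ g (φ (fam A Y g⁻¹
        (fun c => if c ∈ sh A g J then S.i.1 (S.r (v c)) else S.s (S.p.1 (v c))))) :=
    (Ej_apply A S _ W _ v).trans (FRep.ML_apply A Y W g φ _)
  have h2 : ((FRep.ML A Y W).ρ g (Ej A S J W φ) :
      MultilinearMap K (fun _ : P ⧸ A => Y.V) W.V) v = W.ρ g (φ
        (fun c => if c ∈ J then S.i.1 (S.r (fam A Y g⁻¹ v c))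
          else S.s (S.p.1 (fam A Y g⁻¹ v c)))) :=
    (FRep.ML_apply A Y W g _ v).trans (congrArg _ (Ej_apply A S _ W _ _))
  have h3 : (Ej A S (sh A g J) W ((FRep.ML A Y W).ρ g φ) :
      MultilinearMap K (fun _ : P ⧸ A => Y.V) W.V) v -
      ((FRep.ML A Y W).ρ g (Ej A S J W φ) :
      MultilinearMap K (fun _ : P ⧸ A => Y.V) W.V) v = 0 := by
    rw [h1, h2, ← map_sub]
    have key : φ (fam A Y g⁻¹
        (fun c => if c ∈ sh A g J then S.i.1 (S.r (v c)) else S.s (S.p.1 (v c)))) =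
        φ (fun c => if c ∈ J then S.i.1 (S.r (fam A Y g⁻¹ v c))
          else S.s (S.p.1 (fam A Y g⁻¹ v c))) := by
      by_cases hTJ : T ⊆ sh A g J
      · have hTe : T = sh A g J := Finset.eq_of_subset_of_card_le hTJ (by rw [card_sh]; omega)
        have hvJ : ∀ c ∈ J, S.p.1 (v (g • c)) = 0 := by
          intro c hc
          apply hv
          rw [hTe, sh_smul_mem]
          exact hc
        have hsec : ∀ c ∈ J, fam A Y g⁻¹
            (fun c => if c ∈ sh A g J then S.i.1 (S.r (v c)) else S.s (S.p.1 (v c))) c =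
            fam A Y g⁻¹ v c := by
          intro c hc
          unfold fam
          rw [inv_inv]
          beta_reduce
          rw [if_pos ((sh_smul_mem A g J c).2 hc), S.exact_mem (hvJ c hc)]
        have hker : ∀ c ∈ J, S.p.1 (fam A Y g⁻¹ v c) = 0 := by
          intro c hc
          apply fam_ker
          rw [inv_inv]
          exact hvJ c hc
        refine Nf_congr A S hφ (J := J) (le_of_eq hJ.symm) ?_ ?_ ?_
        · intro c hc
          rw [hsec c hc]
          exact hker c hc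
        · intro c hc
          rw [hsec c hc, if_pos hc, S.exact_mem (hker c hc)]
        · intro c
          by_cases hc : c ∈ J
          · rw [hsec c hc, if_pos hc, hker c hc, S.pi]
          · rw [if_neg hc, S.ps]
            unfold fam
            rw [EHom.map, EHom.map, inv_inv]
            beta_reduce
            rw [if_neg (fun h => hc ((sh_smul_mem A g J c).1 h)), S.ps]
      · obtain ⟨c, hc, hcs⟩ := Finset.not_subset.1 hTJ
        have hc' : g⁻¹ • c ∉ J := fun h => hcs ((mem_sh A g J c).2 h)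
        have e1 : φ (fam A Y g⁻¹
            (fun c => if c ∈ sh A g J then S.i.1 (S.r (v c)) else S.s (S.p.1 (v c)))) = 0 := by
          refine MultilinearMap.map_coord_zero
            (φ : MultilinearMap K (fun _ : P ⧸ A => Y.V) W.V) (g⁻¹ • c) ?_
          unfold fam
          rw [inv_inv, smul_inv_smul]
          beta_reduce
          rw [if_neg hcs, hv c hc, map_zero, map_zero]
        have e2 : φ (fun c => if c ∈ J then S.i.1 (S.r (fam A Y g⁻¹ v c))
            else S.s (S.p.1 (fam A Y g⁻¹ v c))) = 0 := by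
          refine MultilinearMap.map_coord_zero
            (φ : MultilinearMap K (fun _ : P ⧸ A => Y.V) W.V) (g⁻¹ • c) ?_
          rw [if_neg hc', fam_ker A S g⁻¹ v (g⁻¹ • c) (by rw [inv_inv, smul_inv_smul]; exact hv c hc),
            map_zero]
        rw [e1, e2]
    rw [key, sub_self, map_zero]
  exact h3

lemma finrank_Nf (j : ℕ) (W : FRep K P) : finrank K (Nf A S j W) =
    finrank K (Nf A S j (FRep.triv K P)) * finrank K W.V := by
  classical
  let b := Module.finBasis K W.V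
  let f : Nf A S j W →ₗ[K] (Fin (finrank K W.V) → Nf A S j (FRep.triv K P)) :=
    { toFun := fun φ i => ⟨(b.coord i).compMultilinearMap
          (φ.1 : MultilinearMap K (fun _ : P ⧸ A => Y.V) W.V), by
        intro v J hJ hv
        show b.coord i (φ.1 v) = 0
        rw [φ.2 v J hJ hv, map_zero]⟩
      map_add' := by
        intro φ ψ
        funext i
        apply Subtype.ext
        refine MultilinearMap.ext fun v => ?_
        exact map_add (b.coord i) (φ.1 v) (ψ.1 v)
      map_smul' := by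
        intro a φ
        funext i
        apply Subtype.ext
        refine MultilinearMap.ext fun v => ?_
        exact map_smul (b.coord i) a (φ.1 v) }
  have hf : ∀ φ i v, ((f φ i).1 : MultilinearMap K (fun _ : P ⧸ A => Y.V) K) v =
      b.coord i (φ.1 v) := fun _ _ _ => rfl
  have hbij : Function.Bijective f := by
    constructor
    · rw [injective_iff_map_eq_zero]
      intro φ hφ
      apply Subtype.ext
      refine MultilinearMap.ext fun v => ?_
      refine (b.ext_elem_iff).2 fun i => ?_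
      have h1 := hf φ i v
      rw [hφ] at h1
      rw [← Basis.coord_apply, ← Basis.coord_apply, ← h1]
      show (0 : K) = b.coord i (0 : W.V)
      rw [map_zero]
    · intro ψ
      have hmem : ∑ i, (MultilinearMap.smulRight
          ((ψ i).1 : MultilinearMap K (fun _ : P ⧸ A => Y.V) K) (b i)) ∈ Nf A S j W := by
        refine Submodule.sum_mem _ fun i _ => ?_
        intro v J hJ hv
        show ((ψ i).1 v) • b i = 0
        rw [(ψ i).2 v J hJ hv, zero_smul]
      refine ⟨⟨_, hmem⟩, ?_⟩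
      funext i
      apply Subtype.ext
      refine MultilinearMap.ext fun v => ?_
      rw [hf]
      have h2 : ((∑ i, (MultilinearMap.smulRight
          ((ψ i).1 : MultilinearMap K (fun _ : P ⧸ A => Y.V) K) (b i)) :
          MultilinearMap K (fun _ : P ⧸ A => Y.V) W.V)) v = ∑ i, ((ψ i).1 v) • b i :=
        sum_apply _ _ _
      refine (congrArg (b.coord i) h2).trans ?_
      rw [map_sum, Finset.sum_eq_single i]
      · rw [map_smul, Basis.coord_apply, Basis.repr_self, Finsupp.single_eq_same, smul_eq_mul,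
          mul_one]
      · intro k _ hk
        rw [map_smul, Basis.coord_apply, Basis.repr_self, Finsupp.single_eq_of_ne hk.symm,
          smul_zero]
      · intro h; exact absurd (Finset.mem_univ _) h
  rw [(LinearEquiv.ofBijective f hbij).finrank_eq, Module.finrank_pi_fintype]
  simp [mul_comm]

/-- multiplication by a vector -/
def bN (j : ℕ) (W : FRep K P) :
    Nf A S j (FRep.triv K P) →ₗ[K] W.V →ₗ[K] Nf A S j W :=
  LinearMap.mk₂ K (fun φ w => ⟨MultilinearMap.smulRight
      (φ.1 : MultilinearMap K (fun _ : P ⧸ A => Y.V) K) w, by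
        intro v J hJ hv
        show (φ.1 v) • w = 0
        rw [φ.2 v J hJ hv, zero_smul]⟩)
    (fun φ φ' w => by
      apply Subtype.ext
      refine MultilinearMap.ext fun v => ?_
      exact add_smul (φ.1 v) (φ'.1 v) w)
    (fun a φ w => by
      apply Subtype.ext
      refine MultilinearMap.ext fun v => ?_
      exact smul_assoc a (φ.1 v) w)
    (fun φ w w' => by
      apply Subtype.ext
      refine MultilinearMap.ext fun v => ?_
      exact smul_add (φ.1 v) w w')
    (fun a φ w => by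
      apply Subtype.ext
      refine MultilinearMap.ext fun v => ?_
      exact smul_comm (φ.1 v) a w)

lemma bN_apply (j : ℕ) (W : FRep K P) (φ : Nf A S j (FRep.triv K P)) (w : W.V)
    (v : P ⧸ A → Y.V) : ((bN A S j W φ w).1 : MultilinearMap K (fun _ : P ⧸ A => Y.V) W.V) v =
      (φ.1 v) • w := rfl

/-- post-composition with a functional -/
def cN (j : ℕ) (W : FRep K P) (f : W.V →ₗ[K] K) :
    Nf A S j W →ₗ[K] Nf A S j (FRep.triv K P) where
  toFun φ := ⟨f.compMultilinearMap (φ.1 : MultilinearMap K (fun _ : P ⧸ A => Y.V) W.V), by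
    intro v J hJ hv
    show f (φ.1 v) = 0
    rw [φ.2 v J hJ hv, map_zero]⟩
  map_add' φ ψ := by
    apply Subtype.ext
    refine MultilinearMap.ext fun v => ?_
    exact map_add f (φ.1 v) (ψ.1 v)
  map_smul' a φ := by
    apply Subtype.ext
    refine MultilinearMap.ext fun v => ?_
    exact map_smul f a (φ.1 v)

/-- the graded pieces -/
abbrev gr (j : ℕ) (W : FRep K P) : FRep K P :=
  qt (FRep.ML A Y W) (Nf A S (j + 1) W) (Nf A S j W) (Nf_stab A S (j + 1) W) (Nf_stab A S j W)

lemma finrank_gr (j : ℕ) (W : FRep K P) : finrank K (gr A S j W).V + finrank K (Nf A S j W) =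
    finrank K (Nf A S (j + 1) W) := by
  have h1 := Submodule.finrank_quotient_add_finrank
    ((Nf A S j W).comap (Nf A S (j + 1) W).subtype)
  have h2 := (Submodule.comapSubtypeEquivOfLe (Nf_mono A S (Nat.le_succ j) W)).finrank_eq
  rw [h2] at h1
  exact h1

lemma finrank_gr' (j : ℕ) (W : FRep K P) : finrank K (gr A S j W).V =
    finrank K (gr A S j (FRep.triv K P)).V * finrank K W.V := by
  have h1 := finrank_gr A S j W
  have h2 := finrank_gr A S j (FRep.triv K P)
  rw [finrank_Nf A S j W, finrank_Nf A S (j + 1) W, ← h2, add_mul] at h1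
  omega

/-- the bilinear map on graded pieces -/
def bG (j : ℕ) (W : FRep K P) :
    (gr A S j (FRep.triv K P)).V →ₗ[K] W.V →ₗ[K] (gr A S j W).V :=
  ((Nf A S j (FRep.triv K P)).comap (Nf A S (j + 1) (FRep.triv K P)).subtype).liftQ
    ((bN A S (j + 1) W).compr₂ ((Nf A S j W).comap (Nf A S (j + 1) W).subtype).mkQ) (by
      intro φ hφ
      rw [LinearMap.mem_ker]
      refine LinearMap.ext fun w => ?_
      refine (Submodule.Quotient.mk_eq_zero _).2 ?_
      intro v J hJ hv
      have h0 : φ.1 v = 0 := hφ v J hJ hv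
      show (φ.1 v) • w = 0
      rw [h0, zero_smul])

lemma bG_mk (j : ℕ) (W : FRep K P) (φ : Nf A S (j + 1) (FRep.triv K P)) (w : W.V) :
    bG A S j W (Submodule.Quotient.mk φ) w = Submodule.Quotient.mk (bN A S (j + 1) W φ w) := rfl

/-- post-composition on graded pieces -/
def cG (j : ℕ) (W : FRep K P) (f : W.V →ₗ[K] K) :
    (gr A S j W).V →ₗ[K] (gr A S j (FRep.triv K P)).V :=
  ((Nf A S j W).comap (Nf A S (j + 1) W).subtype).mapQ
    ((Nf A S j (FRep.triv K P)).comap (Nf A S (j + 1) (FRep.triv K P)).subtype)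
    (cN A S (j + 1) W f) (by
      intro φ hφ v J hJ hv
      have h0 : φ.1 v = 0 := hφ v J hJ hv
      show f (φ.1 v) = 0
      rw [h0, map_zero])

lemma ccS_gr_le (hP : IsPGroup p P) (j : ℕ) (W : FRep K P) (H : Subgroup P) :
    ccS H (gr A S j W) ≤ finrank K (gr A S j (FRep.triv K P)).V * ccS H W := by
  unfold ccS
  let _ : Fintype H := Fintype.ofFinite H
  refine cc_bilin (hP.to_subgroup H) (FRep.res H (gr A S j (FRep.triv K P))) (FRep.res H W)
    (FRep.res H (gr A S j W)) (bG A S j W) ?_ ?_ (finrank_gr' A S j W)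
  · intro g u w
    obtain ⟨φ, rfl⟩ := Submodule.Quotient.mk_surjective _ u
    show (gr A S j W).ρ g.1 (Submodule.Quotient.mk (bN A S (j + 1) W φ w)) =
      Submodule.Quotient.mk (bN A S (j + 1) W _ (W.ρ g.1 w))
    refine congrArg Submodule.Quotient.mk ?_
    apply Subtype.ext
    refine MultilinearMap.ext fun v => ?_
    refine (FRep.ML_apply A Y W g.1 _ v).trans ?_
    have h1 : ((FRep.ML A Y (FRep.triv K P)).ρ g.1 φ.1 :
        MultilinearMap K (fun _ : P ⧸ A => Y.V) K) v = φ.1 (fam A Y g.1⁻¹ v) :=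
      FRep.ML_apply A Y (FRep.triv K P) g.1 φ.1 v
    have h2 := map_smul (W.ρ g.1) (φ.1 (fam A Y g.1⁻¹ v)) w
    exact h2.trans (congrArg (fun a : K => a • W.ρ g.1 w) h1.symm)
  · intro f
    refine ⟨cG A S j W f, fun u w => ?_⟩
    obtain ⟨φ, rfl⟩ := Submodule.Quotient.mk_surjective _ u
    refine congrArg Submodule.Quotient.mk ?_
    apply Subtype.ext
    refine MultilinearMap.ext fun v => ?_
    show f ((φ.1 v) • w) = f w • (φ.1 v)
    rw [map_smul, smul_eq_mul, smul_eq_mul, mul_comm]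

lemma del_gr_le (hP : IsPGroup p P) (j : ℕ) (W : FRep K P) :
    del (gr A S j W) ≤ finrank K (gr A S j (FRep.triv K P)).V * del W := by
  unfold del
  rw [Finset.mul_sum]
  exact Finset.sum_le_sum fun H _ => ccS_gr_le A S hP j W H

/-- the index set of `k`-subsets -/
def PSub (k : ℕ) : Type := {J : Finset (P ⧸ A) // J.card = k}

instance (k : ℕ) : Finite (PSub A k) := by
  unfold PSub; infer_instance

noncomputable instance (k : ℕ) : Fintype (PSub A k) := Fintype.ofFinite _

instance (k : ℕ) : MulAction P (PSub A k) where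
  smul g J := ⟨sh A g J.1, (card_sh A g J.1).trans J.2⟩
  one_smul J := by
    apply Subtype.ext
    refine Finset.ext fun c => ?_
    refine (mem_sh A 1 J.1 c).trans ?_
    rw [inv_one, one_smul]
  mul_smul g h J := by
    apply Subtype.ext
    refine Finset.ext fun c => ?_
    refine (mem_sh A (g * h) J.1 c).trans (Iff.trans ?_ (mem_sh A g (sh A h J.1) c).symm)
    rw [mem_sh, mul_inv_rev, mul_smul]

lemma PSub_smul (k : ℕ) (g : P) (J : PSub A k) : (g • J).1 = sh A g J.1 := rfl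

lemma PSub_nofix {k : ℕ} (h0 : 0 < k) (h1 : k < Nat.card (P ⧸ A)) (J : PSub A k) :
    ∃ g : P, g • J ≠ J := by
  classical
  let _ : Fintype (P ⧸ A) := Fintype.ofFinite _
  obtain ⟨c, hc⟩ : ∃ c, c ∈ J.1 := by
    have : J.1.Nonempty := by
      rw [← Finset.card_pos, J.2]; exact h0
    exact this
  obtain ⟨d, hd⟩ : ∃ d, d ∉ J.1 := by
    by_contra hcon
    push Not at hcon
    have h2 : J.1 = Finset.univ := Finset.eq_univ_iff_forall.2 hcon
    have h3 := J.2
    rw [h2, Finset.card_univ, ← Nat.card_eq_fintype_card] at h3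
    omega
  obtain ⟨g, hg⟩ := MulAction.exists_smul_eq P c d
  refine ⟨g, fun h => hd ?_⟩
  rw [← h, PSub_smul, ← hg, sh_smul_mem]
  exact hc

/-- the operators on the graded pieces -/
def PhiG (j : ℕ) (W : FRep K P) (J : PSub A (j + 1)) :
    (gr A S j W).V →ₗ[K] (gr A S j W).V :=
  ((Nf A S j W).comap (Nf A S (j + 1) W).subtype).mapQ
    ((Nf A S j W).comap (Nf A S (j + 1) W).subtype)
    ((Ej A S J.1 W).restrict (p := Nf A S (j + 1) W) (q := Nf A S (j + 1) W)
      (fun φ _ => by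
        have h := Ej_mem A S J.1 W φ
        rwa [J.2] at h)) (by
      intro φ hφ
      have h0 : Ej A S J.1 W φ.1 = 0 :=
        Ej_zero A S J.1 W (j := j) hφ (by rw [J.2]; exact Nat.lt_succ_self j)
      show Ej A S J.1 W φ.1 ∈ Nf A S j W
      rw [h0]
      exact Submodule.zero_mem _)

lemma gr_mk_eq (j : ℕ) (W : FRep K P) (φ ψ : Nf A S (j + 1) W)
    (h : φ.1 - ψ.1 ∈ Nf A S j W) :
    (Submodule.Quotient.mk φ : (gr A S j W).V) = Submodule.Quotient.mk ψ :=
  (Submodule.Quotient.eq _).2 h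

lemma cc_gr_le (hP : IsPGroup p P) (j : ℕ) (hj : j + 1 < Nat.card (P ⧸ A)) (W : FRep K P) :
    cc (gr A S j W) ≤ Fintype.card P * (Fintype.card (PSub A (j + 1)) *
      (finrank K (gr A S j (FRep.triv K P)).V * del W)) := by
  classical
  let _ : Fintype (P ⧸ A) := Fintype.ofFinite _
  have h1 := orbit_sum hP (S := PSub A (j + 1)) (gr A S j W) (gr A S j W) (PhiG A S j W) ?_
    (PSub_nofix A (Nat.succ_pos j) hj) (EHom.id _) ?_
  · rw [Fr_id] at h1
    refine (cc_le_Fd hP _).trans (Nat.mul_le_mul_left _ (h1.trans (Nat.mul_le_mul_left _ ?_)))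
    exact del_gr_le A S hP j W
  · intro g J x
    obtain ⟨φ, rfl⟩ := Submodule.Quotient.mk_surjective _ x
    refine gr_mk_eq A S j W _ _ ?_
    exact Ej_equiv A S J.1 J.2 W g φ.2
  · intro x
    obtain ⟨φ, rfl⟩ := Submodule.Quotient.mk_surjective _ x
    have h2 : ∑ J : PSub A (j + 1), PhiG A S j W J (Submodule.Quotient.mk φ) =
        Submodule.Quotient.mk (∑ J : PSub A (j + 1), ⟨Ej A S J.1 W φ.1, by
          have h := Ej_mem A S J.1 W φ.1
          rwa [J.2] at h⟩ : Nf A S (j + 1) W) := by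
      refine Eq.symm ?_
      exact map_sum ((Nf A S j W).comap (Nf A S (j + 1) W).subtype).mkQ _ _
    rw [h2]
    refine gr_mk_eq A S j W _ _ ?_
    rw [Submodule.coe_sum]
    have h3 := Ej_sum A S W φ.1
    have h4 : ∑ J : PSub A (j + 1), Ej A S J.1 W φ.1 =
        ∑ J ∈ (Finset.univ : Finset (Finset (P ⧸ A))).filter (fun J => J.card = j + 1),
          Ej A S J W φ.1 := by
      refine Finset.sum_bij' (fun J _ => J.1) (fun J hJ => ⟨J, (Finset.mem_filter.1 hJ).2⟩)
        ?_ ?_ ?_ ?_ ?_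
      · intro J _
        exact Finset.mem_filter.2 ⟨Finset.mem_univ _, J.2⟩
      · intro J _
        exact Finset.mem_univ _
      · intro J _; rfl
      · intro J _; rfl
      · intro J _; rfl
    have h5 := Finset.sum_filter_add_sum_filter_not (Finset.univ : Finset (Finset (P ⧸ A)))
      (fun J => J.card = j + 1) (fun J => Ej A S J W φ.1)
    rw [h3] at h5
    have h6 : φ.1 - ∑ J : PSub A (j + 1), Ej A S J.1 W φ.1 =
        ∑ J ∈ (Finset.univ : Finset (Finset (P ⧸ A))).filter (fun J => ¬ J.card = j + 1),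
          Ej A S J W φ.1 := by
      rw [h4]
      exact sub_eq_of_eq_add' h5.symm
    have h7 : φ.1 - ∑ J : PSub A (j + 1), Ej A S J.1 W φ.1 ∈ Nf A S j W := by
      rw [h6]
      refine Submodule.sum_mem _ fun J hJ => ?_
      have hJ' : ¬ J.card = j + 1 := (Finset.mem_filter.1 hJ).2
      rcases Nat.lt_or_gt_of_ne hJ' with h | h
      · exact Nf_mono A S (Nat.le_of_lt_succ h) W (Ej_mem A S J W φ.1)
      · rw [Ej_zero A S J W φ.2 h]
        exact Submodule.zero_mem _
    exact h7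

/-- the middle part of the filtration is small -/
lemma cc_mid_le (hP : IsPGroup p P) (j : ℕ) (hj : j < Nat.card (P ⧸ A)) : ∃ C : ℕ,
    ∀ W : FRep K P, cc (qt (FRep.ML A Y W) (Nf A S j W) (Nf A S 0 W) (Nf_stab A S j W)
      (Nf_stab A S 0 W)) ≤ C * del W := by
  induction j with
  | zero => exact ⟨0, fun W => by rw [cc_qt_self, Nat.zero_mul]⟩
  | succ j ih =>
    obtain ⟨C, hC⟩ := ih (Nat.lt_of_succ_lt hj)
    refine ⟨C + Fintype.card P * (Fintype.card (PSub A (j + 1)) *
      (finrank K (gr A S j (FRep.triv K P)).V)), fun W => ?_⟩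
    have h1 := cc_qt hP (FRep.ML A Y W) (Nf_stab A S 0 W) (Nf_stab A S j W)
      (Nf_stab A S (j + 1) W) (Nf_mono A S (Nat.zero_le j) W) (Nf_mono A S (Nat.le_succ j) W)
    have h2 := hC W
    have h3 := cc_gr_le A S hP j hj W
    have h4 : (C + Fintype.card P * (Fintype.card (PSub A (j + 1)) *
      (finrank K (gr A S j (FRep.triv K P)).V))) * del W = C * del W +
      Fintype.card P * (Fintype.card (PSub A (j + 1)) *
      (finrank K (gr A S j (FRep.triv K P)).V * del W)) := by ring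
    rw [h4]
    exact h1.trans (Nat.add_le_add h2 h3)

/-- the kernel of restriction to `R` -/
lemma MLm_i_eq_zero (m : ℕ) (hm : Nat.card (P ⧸ A) = m + 1) (W : FRep K P)
    (φ : (FRep.ML A Y W).V) : (MLm A S.i W).1 φ = 0 ↔ φ ∈ Nf A S m W := by
  classical
  let _ : Fintype (P ⧸ A) := Fintype.ofFinite _
  constructor
  · intro h v J hJ hv
    have hJu : J = Finset.univ := by
      apply Finset.eq_univ_of_card
      have h1 := Finset.card_le_univ J
      rw [← Nat.card_eq_fintype_card] at h1 ⊢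
      omega
    have h2 : v = fun c => S.i.1 (S.r (v c)) := by
      funext c
      exact (S.exact_mem (hv c (by rw [hJu]; exact Finset.mem_univ _))).symm
    have h3 := MLm_apply A S.i W φ (fun c => S.r (v c))
    rw [h] at h3
    rw [h2]
    exact h3.symm
  · intro h
    refine MultilinearMap.ext fun v => ?_
    refine (MLm_apply A S.i W φ v).trans ?_
    refine h _ Finset.univ ?_ (fun c _ => S.pi _)
    rw [Finset.card_univ, ← Nat.card_eq_fintype_card]
    omega

lemma MLm_i_surj (W : FRep K P) : Function.Surjective (MLm A S.i W).1 := by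
  intro ψ
  refine ⟨MLl A (fun _ => S.r) W ψ, ?_⟩
  refine MultilinearMap.ext fun v => ?_
  refine (MLm_apply A S.i W _ v).trans ?_
  refine (MLl_apply A _ W ψ _).trans ?_
  congr 1
  funext c
  exact S.ri _

lemma MLm_p_inj (W : FRep K P) : Function.Injective (MLm A S.p W).1 := by
  rw [injective_iff_map_eq_zero]
  intro φ hφ
  refine MultilinearMap.ext fun v => ?_
  have h1 := MLm_apply A S.p W φ (fun c => S.s (v c))
  rw [hφ] at h1
  have h2 : (fun c => S.p.1 (S.s (v c))) = v := funext fun c => S.ps _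
  rw [h2] at h1
  exact h1.symm

lemma MLm_p_mem (W : FRep K P) (ψ : (FRep.ML A Y'' W).V) :
    (MLm A S.p W).1 ψ ∈ Nf A S 0 W := by
  intro v J hJ hv
  obtain ⟨c, hc⟩ : J.Nonempty := Finset.card_pos.1 hJ
  refine (MLm_apply A S.p W ψ v).trans ?_
  refine MultilinearMap.map_coord_zero
    (ψ : MultilinearMap K (fun _ : P ⧸ A => Y''.V) W.V) c ?_
  exact hv c hc

lemma MLm_p_exact (W : FRep K P) (φ : (FRep.ML A Y W).V) (hφ : φ ∈ Nf A S 0 W) :
    ∃ ψ, (MLm A S.p W).1 ψ = φ := by
  refine ⟨MLl A (fun _ => S.s) W φ, ?_⟩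
  refine MultilinearMap.ext fun v => ?_
  refine (MLm_apply A S.p W _ v).trans ?_
  refine (MLl_apply A _ W φ _).trans ?_
  refine Nf_congr A S hφ (J := ∅) (Nat.zero_le _) ?_ ?_ ?_
  · intro c hc; exact absurd hc (Finset.notMem_empty c)
  · intro c hc; exact absurd hc (Finset.notMem_empty c)
  · intro c
    exact S.ps _

end Filt

end MLs

open MLs

variable {K P : Type} [Field K] [Group P] [Fintype P] {p : ℕ} [Fact p.Prime] [CharP K p]

/-- Filtration of `ML A Y W` for a short exact sequence `R → Y → Y''` -/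
theorem ML_ses (A : Subgroup P) (hP : IsPGroup p P) {R Y Y'' : FRep K A} (S : SES R Y Y'') :
    ∃ C : ℕ, ∀ W : FRep K P,
      (∃ (Q : FRep K P) (T : SES (FRep.ML A Y'' W) (FRep.ML A Y W) Q),
        T.i = MLm A S.p W ∧ cc Q ≤ C * del W + cc (FRep.ML A R W)) ∧
      (∃ (Q' : FRep K P) (T : SES Q' (FRep.ML A Y W) (FRep.ML A R W)),
        T.p = MLm A S.i W ∧ cc Q' ≤ C * del W + cc (FRep.ML A Y'' W)) := by
  classical
  obtain ⟨m, hm⟩ : ∃ m, Nat.card (P ⧸ A) = m + 1 :=
    ⟨Nat.card (P ⧸ A) - 1, by have := Nat.card_pos (α := P ⧸ A); omega⟩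
  obtain ⟨C, hC⟩ := cc_mid_le A S hP m (by omega)
  refine ⟨C, fun W => ⟨⟨FRep.quot (FRep.ML A Y W) (Nf A S 0 W) (Nf_stab A S 0 W),
    SES.mk' (MLm A S.p W) (qmk _ _ (Nf_stab A S 0 W)) (MLm_p_inj A S W) (qmk_surj _ _ _) ?_,
    rfl, ?_⟩, ⟨FRep.sub (FRep.ML A Y W) (Nf A S m W) (Nf_stab A S m W),
    SES.mk' (sinc _ (Nf_stab A S m W)) (MLm A S.i W) Subtype.val_injective (MLm_i_surj A S W) ?_,
    rfl, ?_⟩⟩⟩
  · intro b
    rw [qmk_eq_zero]
    constructor
    · exact MLm_p_exact A S W b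
    · rintro ⟨ψ, rfl⟩
      exact MLm_p_mem A S W ψ
  · -- the cokernel
    have hf0 : ∀ x ∈ Nf A S 0 W, (MLm A S.i W).1 x = 0 := fun x hx =>
      (MLm_i_eq_zero A S m hm W x).2 (Nf_mono A S (Nat.zero_le m) W hx)
    have hg0 : ∀ x ∈ (Nf A S 0 W).comap (Nf A S m W).subtype,
        ((ecomp (qmk _ _ (Nf_stab A S 0 W)) (sinc _ (Nf_stab A S m W)))).1 x = 0 := fun x hx =>
      (qmk_eq_zero _ _ (Nf_stab A S 0 W) _).2 hx
    have s0 : Stab (FRep.sub (FRep.ML A Y W) (Nf A S m W) (Nf_stab A S m W))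
        ((Nf A S 0 W).comap (Nf A S m W).subtype) := fun g x hx => Nf_stab A S 0 W g x.1 hx
    have h1 := cc_ses hP (SES.mk' (qlift _ _ s0 _ hg0) (qlift _ _ (Nf_stab A S 0 W) _ hf0)
      ?_ ?_ ?_)
    · exact h1.trans (Nat.add_le_add_right (hC W) _)
    · rw [injective_iff_map_eq_zero]
      intro x hx
      obtain ⟨y, rfl⟩ := qmk_surj _ _ s0 x
      have hx' : (qmk _ _ (Nf_stab A S 0 W)).1 y.1 = 0 := hx
      exact (qmk_eq_zero _ _ s0 _).2 ((qmk_eq_zero _ _ (Nf_stab A S 0 W) _).1 hx')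
    · intro ψ
      obtain ⟨φ, hφ⟩ := MLm_i_surj A S W ψ
      exact ⟨(qmk _ _ (Nf_stab A S 0 W)).1 φ, hφ⟩
    · intro b
      obtain ⟨φ, rfl⟩ := qmk_surj _ _ (Nf_stab A S 0 W) b
      constructor
      · intro h
        have h0 : (MLm A S.i W).1 φ = 0 := h
        exact ⟨(qmk _ _ s0).1 ⟨φ, (MLm_i_eq_zero A S m hm W φ).1 h0⟩, rfl⟩
      · rintro ⟨a, ha⟩
        obtain ⟨y, rfl⟩ := qmk_surj _ _ s0 a
        have ha' : (qmk _ _ (Nf_stab A S 0 W)).1 y.1 = (qmk _ _ (Nf_stab A S 0 W)).1 φ := ha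
        have h2 : (MLm A S.i W).1 y.1 = 0 := (MLm_i_eq_zero A S m hm W y.1).2 y.2
        have h3 := congrArg (qlift _ _ (Nf_stab A S 0 W) _ hf0).1 ha'
        rw [← h3]
        exact h2
  · intro φ
    rw [MLm_i_eq_zero A S m hm W φ]
    constructor
    · intro h; exact ⟨⟨φ, h⟩, rfl⟩
    · rintro ⟨a, rfl⟩; exact a.2
  · -- the kernel
    have s0 : Stab (FRep.sub (FRep.ML A Y W) (Nf A S m W) (Nf_stab A S m W))
        ((Nf A S 0 W).comap (Nf A S m W).subtype) := fun g x hx => Nf_stab A S 0 W g x.1 hx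
    let i0 : EHom (FRep.ML A Y'' W) (FRep.sub (FRep.ML A Y W) (Nf A S m W) (Nf_stab A S m W)) :=
      ⟨(MLm A S.p W).1.codRestrict (Nf A S m W) (fun ψ =>
        Nf_mono A S (Nat.zero_le m) W (MLm_p_mem A S W ψ)), fun g x =>
          Subtype.ext ((MLm A S.p W).2 g x)⟩
    have h1 := cc_ses hP (SES.mk' i0 (qmk _ _ s0) ?_ (qmk_surj _ _ s0) ?_)
    · rw [Nat.add_comm]
      exact h1.trans (Nat.add_le_add_left (hC W) _)
    · intro x y hxy
      exact MLm_p_inj A S W (congrArg Subtype.val hxy)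
    · intro b
      rw [qmk_eq_zero]
      constructor
      · intro h
        obtain ⟨ψ, hψ⟩ := MLm_p_exact A S W b.1 h
        exact ⟨ψ, Subtype.ext hψ⟩
      · rintro ⟨ψ, rfl⟩
        exact MLm_p_mem A S W ψ

end Pool.Agent.H34.Gam

end
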