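import Pool.Agent.H34.Gam.ChDefs

/-!
Orbit sums and elementary properties of `Fr`, `Fd`, `del` (job GAM-CHOS).
-/

set_option autoImplicit false
set_option linter.unusedSectionVars false

noncomputable section

namespace Pool.Agent.H34.Gam

open Module

variable {K P : Type} [Field K] [Group P] [Fintype P] {p : ℕ} [Fact p.Prime] [CharP K p]

/-! ### isomorphisms -/

theorem rank_nrm_iso {U W : FRep K P} (h : Iso U W) :
    finrank K (LinearMap.range (nrm U)) = finrank K (LinearMap.range (nrm W)) := by
  obtain ⟨f, hf⟩ := h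
  have h2 : LinearMap.range (nrm W) = (LinearMap.range (nrm U)).map f.1 := by
    ext y
    constructor
    · rintro ⟨x, rfl⟩
      obtain ⟨z, rfl⟩ := hf.2 x
      exact ⟨nrm U z, ⟨z, rfl⟩, EHom_nrm f z⟩
    · rintro ⟨_, ⟨z, rfl⟩, rfl⟩
      exact ⟨f.1 z, (EHom_nrm f z).symm⟩
  rw [h2]
  exact (Submodule.equivMapOfInjective f.1 hf.1 (LinearMap.range (nrm U))).finrank_eq

theorem finrank_invs_iso {U W : FRep K P} (h : Iso U W) :
    finrank K (invs U) = finrank K (invs W) := by
  obtain ⟨f, hf⟩ := h
  have h2 : invs W = (invs U).map f.1 := by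
    ext y
    constructor
    · intro hy
      obtain ⟨z, rfl⟩ := hf.2 y
      refine ⟨z, fun g => hf.1 ?_, rfl⟩
      rw [EHom.map]
      exact hy g
    · rintro ⟨z, hz, rfl⟩ g
      rw [← EHom.map, hz g]
  rw [h2]
  exact (Submodule.equivMapOfInjective f.1 hf.1 (invs U)).finrank_eq

/-- evaluation at `1` -/
theorem iso_L_triv (W : FRep K P) : Iso (FRep.L (FRep.triv K P) W) W := by
  refine ⟨⟨(LinearMap.ringLmapEquivSelf K K W.V).toLinearMap, ?_⟩,
    (LinearMap.ringLmapEquivSelf K K W.V).bijective⟩
  intro g φ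
  rfl

/-! ### the presentation of `Ĥ⁰` -/

/-- the class of an invariant element -/
def piT (W : FRep K P) : invs W →ₗ[K] Hs (FRep.triv K P) W :=
  cl ∘ₗ
    { toFun := fun x => (⟨LinearMap.toSpanSingleton K W.V x.1, by
        intro g c
        show c • x.1 = W.ρ g (c • x.1)
        rw [map_smul, x.2 g]⟩ : EHom (FRep.triv K P) W)
      map_add' := fun x y => by
        apply Subtype.ext
        refine LinearMap.ext fun c => ?_
        exact smul_add c x.1 y.1
      map_smul' := fun a x => by
        apply Subtype.ext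
        refine LinearMap.ext fun c => ?_
        exact smul_comm c a x.1 }

theorem piT_surjective (W : FRep K P) : Function.Surjective (piT W) := by
  intro y
  obtain ⟨f, rfl⟩ := cl_surjective y
  have h1 : f.1 (1 : K) ∈ invs W := fun g => (EHom.map f g (1 : K)).symm
  refine ⟨⟨f.1 (1 : K), h1⟩, ?_⟩
  show cl _ = cl f
  congr 1
  apply Subtype.ext
  refine LinearMap.ext fun c => ?_
  show c • f.1 (1 : K) = f.1 c
  rw [← map_smul, smul_eq_mul, mul_one]

theorem piT_eq_zero (W : FRep K P) (x : invs W) : piT W x = 0 ↔ x.1 ∈ LinearMap.range (nrm W) := by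
  have h1 : piT W x = 0 ↔ (⟨LinearMap.toSpanSingleton K W.V x.1, by
        intro g c
        show c • x.1 = W.ρ g (c • x.1)
        rw [map_smul, x.2 g]⟩ : EHom (FRep.triv K P) W) ∈ Null (FRep.triv K P) W := cl_eq_zero
  rw [h1, mem_Null]
  constructor
  · rintro ⟨φ, hφ⟩
    refine ⟨φ (1 : K), ?_⟩
    have h2 := LinearMap.congr_fun hφ (1 : K)
    rw [Tr_apply] at h2
    rw [nrm_apply]
    refine h2.trans ?_
    show (1 : K) • x.1 = x.1
    rw [one_smul]
  · rintro ⟨u, hu⟩
    refine ⟨LinearMap.toSpanSingleton K W.V u, ?_⟩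
    refine LinearMap.ext fun c => ?_
    rw [Tr_apply]
    show ∑ g : P, W.ρ g (c • u) = c • x.1
    rw [← hu, nrm_apply, Finset.smul_sum]
    exact Finset.sum_congr rfl fun g _ => map_smul _ _ _

/-- invariants are mapped to invariants -/
def invsMap {W W' : FRep K P} (f : EHom W W') : invs W →ₗ[K] invs W' :=
  f.1.restrict (fun x hx g => by rw [← EHom.map, hx g])

theorem mapR_piT {W W' : FRep K P} (f : EHom W W') (x : invs W) :
    Hs.mapR (FRep.triv K P) f (piT W x) = piT W' (invsMap f x) := by
  show cl _ = cl _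
  congr 1
  apply Subtype.ext
  refine LinearMap.ext fun c => ?_
  show f.1 (c • x.1) = c • f.1 x.1
  rw [map_smul]

/-- `Ĥ⁰` in terms of invariants and norms -/
theorem Fd_add (W : FRep K P) :
    Fd W + finrank K (LinearMap.range (nrm W)) = finrank K (invs W) := by
  have h1 := hh0_add (FRep.triv K P) W
  rw [rank_nrm_iso (iso_L_triv W), finrank_invs_iso (iso_L_triv W)] at h1
  exact h1

theorem Fd_le_cc (hP : IsPGroup p P) (W : FRep K P) : Fd W ≤ cc W := by
  have h1 := hh0_le_cc hP (FRep.triv K P) W
  rw [cc_iso (iso_L_triv W)] at h1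
  exact h1

theorem cc_le_Fd (hP : IsPGroup p P) (W : FRep K P) : cc W ≤ Fintype.card P * Fd W := by
  have h1 := cc_le_hh0 hP (FRep.triv K P) W
  rw [cc_iso (iso_L_triv W)] at h1
  exact h1

theorem Fd_iso {W W' : FRep K P} (h : Iso W W') : Fd W = Fd W' := by
  have h1 := Fd_add W
  have h2 := Fd_add W'
  rw [rank_nrm_iso h, finrank_invs_iso h] at h1
  omega

theorem del_iso {W W' : FRep K P} (h : Iso W W') : del W = del W' := by
  obtain ⟨f, hf⟩ := h
  refine Finset.sum_congr rfl fun H _ => ?_
  unfold ccS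
  exact @cc_iso K H _ _ (Fintype.ofFinite H) (FRep.res H W) (FRep.res H W')
    ⟨⟨f.1, fun g x => f.2 g.1 x⟩, hf⟩

theorem ccS_le_del (H : Subgroup P) (hH : H ≠ ⊤) (W : FRep K P) : ccS H W ≤ del W := by
  have hmem : H ∈ (Set.toFinite {H : Subgroup P | H ≠ ⊤}).toFinset :=
    (Set.Finite.mem_toFinset _).2 hH
  exact Finset.single_le_sum (f := fun H : Subgroup P => ccS H W) (fun _ _ => Nat.zero_le _) hmem

/-- restriction of an exact sequence -/
def SES.res {A B C : FRep K P} (S : SES A B C) (H : Subgroup P) [Fintype H] :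
    SES (FRep.res H A) (FRep.res H B) (FRep.res H C) where
  i := ⟨S.i.1, fun g x => S.i.2 g.1 x⟩
  p := ⟨S.p.1, fun g x => S.p.2 g.1 x⟩
  s := S.s
  r := S.r
  ri := S.ri
  ps := S.ps
  pi := S.pi
  sum := S.sum

theorem del_ses (hP : IsPGroup p P) {A B C : FRep K P} (S : SES A B C) :
    del B ≤ del A + del C := by
  unfold del
  rw [← Finset.sum_add_distrib]
  refine Finset.sum_le_sum fun H _ => ?_
  unfold ccS
  letI : Fintype H := Fintype.ofFinite H
  exact cc_ses (hP.to_subgroup H) (S.res H)

/-! ### ranks on `Ĥ⁰` -/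

theorem Fr_le_left {W W' : FRep K P} (f : EHom W W') : Fr f ≤ Fd W :=
  LinearMap.finrank_range_le _

theorem Fr_le_right {W W' : FRep K P} (f : EHom W W') : Fr f ≤ Fd W' :=
  Submodule.finrank_le _

theorem Fr_comp_left {W W' W'' : FRep K P} (f : EHom W' W'') (e : EHom W W') :
    Fr ((ecomp f e)) ≤ Fr f := by
  unfold Fr
  rw [Hs.mapR_comp]
  exact Submodule.finrank_mono (LinearMap.range_comp_le_range _ _)

theorem Fr_comp_right {W W' W'' : FRep K P} (f : EHom W' W'') (e : EHom W W') :
    Fr ((ecomp f e)) ≤ Fr e := by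
  unfold Fr
  rw [Hs.mapR_comp, LinearMap.range_comp]
  exact Submodule.finrank_map_le _ _

/-- Sylvester: `rank f + rank e ≤ rank (f e) + dim` -/
theorem Fr_comp_ge {W W' W'' : FRep K P} (f : EHom W' W'') (e : EHom W W') :
    Fr f + Fr e ≤ Fr ((ecomp f e)) + Fd W' := by
  unfold Fr
  rw [Hs.mapR_comp]
  set F := Hs.mapR (FRep.triv K P) f
  set E := Hs.mapR (FRep.triv K P) e
  have h1 := LinearMap.finrank_range_add_finrank_ker (F.domRestrict (LinearMap.range E))
  have h2 : LinearMap.range (F.domRestrict (LinearMap.range E)) = LinearMap.range (F ∘ₗ E) := by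
    ext y
    constructor
    · rintro ⟨⟨_, ⟨x, rfl⟩⟩, rfl⟩
      exact ⟨x, rfl⟩
    · rintro ⟨x, rfl⟩
      exact ⟨⟨E x, ⟨x, rfl⟩⟩, rfl⟩
  have h3 : finrank K (LinearMap.ker (F.domRestrict (LinearMap.range E))) ≤
      finrank K (LinearMap.ker F) := by
    let ψ : LinearMap.ker (F.domRestrict (LinearMap.range E)) →ₗ[K] LinearMap.ker F :=
      { toFun := fun x => ⟨x.1.1, x.2⟩
        map_add' := fun x y => rfl
        map_smul' := fun c x => rfl }
    apply LinearMap.finrank_le_finrank_of_injective (f := ψ)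
    intro x y hxy
    have := congrArg Subtype.val hxy
    exact Subtype.ext (Subtype.ext this)
  have h4 : finrank K (LinearMap.range F) + finrank K (LinearMap.ker F) = Fd W' :=
    LinearMap.finrank_range_add_finrank_ker F
  rw [h2] at h1
  omega

theorem mapR_add {W W' : FRep K P} (U : FRep K P) (f f' : EHom W W') :
    Hs.mapR U (f + f') = Hs.mapR U f + Hs.mapR U f' := by
  refine LinearMap.ext fun x => ?_
  obtain ⟨e, rfl⟩ := cl_surjective x
  rw [LinearMap.add_apply, Hs.mapR_cl, Hs.mapR_cl, Hs.mapR_cl, ← map_add]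
  rfl

theorem mapR_zero {W W' : FRep K P} (U : FRep K P) :
    Hs.mapR U (0 : EHom W W') = 0 := by
  refine LinearMap.ext fun x => ?_
  obtain ⟨e, rfl⟩ := cl_surjective x
  rw [Hs.mapR_cl]
  have : (ecomp (0 : EHom W W') e) = 0 := rfl
  rw [this, map_zero]; rfl

theorem mapR_id {W : FRep K P} (U : FRep K P) :
    Hs.mapR U (EHom.id W) = LinearMap.id := by
  refine LinearMap.ext fun x => ?_
  obtain ⟨e, rfl⟩ := cl_surjective x
  rfl

theorem mapR_neg {W W' : FRep K P} (U : FRep K P) (f : EHom W W') :
    Hs.mapR U (-f) = - Hs.mapR U f := by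
  have h := mapR_add U f (-f)
  rw [add_neg_cancel, mapR_zero] at h
  exact (neg_eq_of_add_eq_zero_right h.symm).symm

theorem mapR_sub {W W' : FRep K P} (U : FRep K P) (f f' : EHom W W') :
    Hs.mapR U (f - f') = Hs.mapR U f - Hs.mapR U f' := by
  rw [sub_eq_add_neg, mapR_add, mapR_neg, sub_eq_add_neg]

theorem Fr_add_le {W W' : FRep K P} (f f' : EHom W W') : Fr (f + f') ≤ Fr f + Fr f' := by
  unfold Fr
  rw [mapR_add]
  refine (Submodule.finrank_mono (LinearMap.range_add_le _ _)).trans ?_
  exact Submodule.finrank_add_le_finrank_add_finrank _ _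

theorem Fr_sub_le {W W' : FRep K P} (f f' : EHom W W') : Fr f ≤ Fr f' + Fr (f - f') := by
  have := Fr_add_le f' (f - f')
  rwa [add_sub_cancel] at this

theorem Fr_neg {W W' : FRep K P} (f : EHom W W') : Fr (-f) = Fr f := by
  unfold Fr
  rw [mapR_neg, LinearMap.range_neg]

theorem Fr_congr {W W' : FRep K P} {f f' : EHom W W'} (h : cl f = cl f') : Fr f = Fr f' := by
  unfold Fr
  rw [Hs.mapR_congr _ h]

theorem Fr_null {W W' : FRep K P} {f : EHom W W'} (h : f ∈ Null W W') : Fr f = 0 := by
  have h1 : cl f = cl (0 : EHom W W') := by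
    rw [map_zero]; exact cl_eq_zero.2 h
  rw [Fr_congr h1]
  unfold Fr
  rw [mapR_zero, LinearMap.range_zero, finrank_bot]

theorem Fr_id (W : FRep K P) : Fr (EHom.id W) = Fd W := by
  unfold Fr
  rw [mapR_id, LinearMap.range_id, finrank_top]
  rfl

theorem finrank_le_mul_ker {V : Type} [AddCommGroup V] [Module K V] [FiniteDimensional K V]
    (T : Module.End K V) (n : ℕ) : finrank K (LinearMap.ker (T ^ n)) ≤ n * finrank K (LinearMap.ker T) := by
  induction n with
  | zero =>
    have : LinearMap.ker (T ^ 0) = ⊥ := by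
      rw [pow_zero]; exact LinearMap.ker_id
    rw [this, finrank_bot]
    exact Nat.zero_le _
  | succ n ih =>
    let φ : LinearMap.ker (T ^ (n + 1)) →ₗ[K] LinearMap.ker T :=
      { toFun := fun x => ⟨(T ^ n) x.1, by
          have h1 : (T ^ (n + 1)) x.1 = 0 := x.2
          have h2 := LinearMap.congr_fun (pow_succ' T n) x.1
          exact h2.symm.trans h1⟩
        map_add' := fun x y => Subtype.ext (map_add _ _ _)
        map_smul' := fun c x => Subtype.ext (map_smul _ _ _) }
    have h1 := LinearMap.finrank_range_add_finrank_ker φ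
    have h2 : finrank K (LinearMap.range φ) ≤ finrank K (LinearMap.ker T) := Submodule.finrank_le _
    have h3 : finrank K (LinearMap.ker φ) ≤ finrank K (LinearMap.ker (T ^ n)) := by
      let ψ : LinearMap.ker φ →ₗ[K] LinearMap.ker (T ^ n) :=
        { toFun := fun x => ⟨x.1.1, congrArg Subtype.val x.2⟩
          map_add' := fun x y => rfl
          map_smul' := fun c x => rfl }
      apply LinearMap.finrank_le_finrank_of_injective (f := ψ)
      intro x y hxy
      have := congrArg Subtype.val hxy
      exact Subtype.ext (Subtype.ext this)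
    rw [add_mul, one_mul]
    omega

/-- if `S^p = 1` then `rank (S - 1) ≤ (1 - 1/p) dim` -/
theorem Fr_unipotent {W : FRep K P} (S : EHom W W) (hS : ∀ x, (S.1 ^ p) x = x) :
    p * Fr (S - EHom.id W) ≤ (p - 1) * Fd W := by
  have hFd : Fd W = finrank K (Hs (FRep.triv K P) W) := rfl
  have hFr : Fr (S - EHom.id W) =
    finrank K (LinearMap.range (Hs.mapR (FRep.triv K P) (S - EHom.id W))) := rfl
  set E : Module.End K (Hs (FRep.triv K P) W) := Hs.mapR (FRep.triv K P) S with hE
  set T : Module.End K (Hs (FRep.triv K P) W) := Hs.mapR (FRep.triv K P) (S - EHom.id W) with hT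
  have hTE : T = E - 1 := by
    rw [hT, mapR_sub, mapR_id]; rfl
  have hpow : ∀ (n : ℕ) (e : EHom (FRep.triv K P) W), ∃ e' : EHom (FRep.triv K P) W,
      (E ^ n) (cl e) = cl e' ∧ e'.1 = (S.1 ^ n) ∘ₗ e.1 := by
    intro n
    induction n with
    | zero => intro e; exact ⟨e, rfl, rfl⟩
    | succ n ih =>
      intro e
      obtain ⟨e', h1, h2⟩ := ih ((ecomp S e))
      refine ⟨e', ?_, ?_⟩
      · rw [pow_succ, Module.End.mul_apply]
        exact h1
      · rw [h2, pow_succ]; rfl
  have hEp : E ^ p = 1 := by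
    refine LinearMap.ext fun x => ?_
    obtain ⟨e, rfl⟩ := cl_surjective x
    obtain ⟨e', h1, h2⟩ := hpow p e
    rw [h1]
    have : e' = e := by
      apply Subtype.ext
      rw [h2]
      exact LinearMap.ext fun c => hS _
    rw [this]; rfl
  have hTp : T ^ p = 0 := by
    rcases subsingleton_or_nontrivial (Module.End K (Hs (FRep.triv K P) W)) with hs | hs
    · exact Subsingleton.elim _ _
    · have : CharP (Module.End K (Hs (FRep.triv K P) W)) p :=
        charP_of_injective_algebraMap (algebraMap K _).injective p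
      rw [hTE, sub_pow_char_of_commute _ (Commute.one_right E), hEp, one_pow, sub_self]
  have h1 := finrank_le_mul_ker T p
  rw [hTp, LinearMap.ker_zero, finrank_top] at h1
  have h2 := LinearMap.finrank_range_add_finrank_ker T
  rw [hFd, hFr]
  have hp : 0 < p := (Fact.out : p.Prime).pos
  obtain ⟨q, rfl⟩ : ∃ q, p = q + 1 := ⟨p - 1, by omega⟩
  rw [Nat.add_sub_cancel]
  have h3 : (q + 1) * finrank K (LinearMap.range T) + (q + 1) * finrank K (LinearMap.ker T) =
      q * finrank K (Hs (FRep.triv K P) W) + finrank K (Hs (FRep.triv K P) W) := by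
    rw [← mul_add, h2]; ring
  omega

/-- kernels and cokernels in short exact sequences -/
theorem Fr_ses_i (hP : IsPGroup p P) {A B C : FRep K P} (S : SES A B C) :
    Fd A ≤ Fr S.i + Fintype.card P * cc C ∧ Fd B ≤ Fr S.i + cc C := by
  constructor
  · -- the kernel of `F A → F B`
    let X : Submodule K A.V := (LinearMap.range (nrm B)).comap S.i.1
    have hXinv : X ≤ invs A := by
      intro x hx g
      apply S.i_injective
      rw [EHom.map]
      exact range_nrm_le_invs B hx g
    have hXdim : finrank K X =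
        finrank K (LinearMap.range (nrm B) ⊓ LinearMap.range S.i.1 : Submodule K B.V) := by
      have h1 : X.map S.i.1 = LinearMap.range (nrm B) ⊓ LinearMap.range S.i.1 := by
        rw [Submodule.map_comap_eq, inf_comm]
      rw [← h1]
      exact (Submodule.equivMapOfInjective S.i.1 S.i_injective X).finrank_eq
    have hNX : LinearMap.range (nrm A) ≤ X := by
      rintro _ ⟨a, rfl⟩
      exact ⟨S.i.1 a, (EHom_nrm S.i a).symm⟩
    let ψ : X →ₗ[K] Hs (FRep.triv K P) A := piT A ∘ₗ Submodule.inclusion hXinv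
    have hker : LinearMap.ker (Hs.mapR (FRep.triv K P) S.i) ≤ LinearMap.range ψ := by
      intro y hy
      obtain ⟨x, rfl⟩ := piT_surjective A y
      have h1 : Hs.mapR (FRep.triv K P) S.i (piT A x) = 0 := hy
      rw [mapR_piT, piT_eq_zero] at h1
      exact ⟨⟨x.1, h1⟩, rfl⟩
    have hψker : finrank K (LinearMap.range (nrm A)) ≤ finrank K (LinearMap.ker ψ) := by
      let θ : LinearMap.range (nrm A) →ₗ[K] LinearMap.ker ψ :=
        { toFun := fun x => ⟨⟨x.1, hNX x.2⟩, by
            show piT A ⟨x.1, _⟩ = 0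
            rw [piT_eq_zero]
            exact x.2⟩
          map_add' := fun x y => rfl
          map_smul' := fun c x => rfl }
      apply LinearMap.finrank_le_finrank_of_injective (f := θ)
      intro x y hxy
      have := congrArg (fun t => t.1.1) hxy
      exact Subtype.ext this
    have h1 := LinearMap.finrank_range_add_finrank_ker ψ
    have h2 := Submodule.finrank_mono hker
    have h3 : finrank K (LinearMap.range (Hs.mapR (FRep.triv K P) S.i)) +
        finrank K (LinearMap.ker (Hs.mapR (FRep.triv K P) S.i)) = Fd A :=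
      LinearMap.finrank_range_add_finrank_ker _
    have hFr : Fr S.i = finrank K (LinearMap.range (Hs.mapR (FRep.triv K P) S.i)) := rfl
    have h4 := S.rank_eq
    have hA := cc_add hP A
    have hB := cc_add hP B
    have hC := cc_add hP C
    have hd := S.finrank_eq
    have hsub := cc_sub hP S
    set k := finrank K (LinearMap.ker (Hs.mapR (FRep.triv K P) S.i))
    set rA := finrank K (LinearMap.range (nrm A))
    set rB := finrank K (LinearMap.range (nrm B))
    set rC := finrank K (LinearMap.range (nrm C))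
    have hk : k + rA + rC ≤ rB := by
      rw [hXdim] at h1
      omega
    rcases Nat.lt_or_ge (Fintype.card P) 2 with hc | hc
    · -- trivial group
      have hc1 : Fintype.card P = 1 := by
        have := Fintype.card_pos (α := P)
        omega
      have hFA := Fd_le_cc hP A
      have hnrm : ∀ x : A.V, nrm A x = x := by
        intro x
        have hsub := Fintype.card_le_one_iff_subsingleton.1 hc1.le
        rw [nrm_apply, Fintype.sum_eq_single (1 : P) (fun g hg => absurd (Subsingleton.elim g 1) hg),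
          FRep.one_apply]
      have htop : LinearMap.range (nrm A) = ⊤ := by
        rw [LinearMap.range_eq_top]
        intro x
        exact ⟨x, hnrm x⟩
      have hrA : rA = finrank K A.V := by
        show finrank K (LinearMap.range (nrm A)) = _
        rw [htop, finrank_top]
      rw [hc1, one_mul, hrA] at hA
      have : cc A = 0 := by omega
      omega
    · have h5 := Nat.mul_le_mul_left (Fintype.card P) hk
      rw [mul_add, mul_add] at h5
      -- |P| k ≤ cc A + cc C - cc B ≤ (|P| + 1) cc C
      have h6 : Fintype.card P * k ≤ (Fintype.card P + 1) * cc C := by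
        rw [add_mul, one_mul]
        omega
      have h7 : (Fintype.card P + 1) * cc C ≤ Fintype.card P * (Fintype.card P * cc C) := by
        rw [← mul_assoc]
        apply Nat.mul_le_mul_right
        nlinarith
      have h8 : k ≤ Fintype.card P * cc C := by
        have hpos : 0 < Fintype.card P := by omega
        exact Nat.le_of_mul_le_mul_left (h6.trans h7) hpos
      omega
  · have h1 : finrank K (LinearMap.range (Hs.mapR (FRep.triv K P) S.p)) +
        finrank K (LinearMap.ker (Hs.mapR (FRep.triv K P) S.p)) = Fd B :=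
      LinearMap.finrank_range_add_finrank_ker _
    have h2 : LinearMap.ker (Hs.mapR (FRep.triv K P) S.p) ≤
        LinearMap.range (Hs.mapR (FRep.triv K P) S.i) := by
      intro x hx
      exact S.exact_mid _ x hx
    have h3 := Submodule.finrank_mono h2
    have h4 := Fr_le_right S.p
    have h5 := Fd_le_cc hP C
    unfold Fr at h4 ⊢
    omega

theorem Fr_ses_p (hP : IsPGroup p P) {A B C : FRep K P} (S : SES A B C) :
    Fd B ≤ Fr S.p + cc A ∧ Fd C ≤ Fr S.p + Fintype.card P * cc A := by
  constructor
  · have h1 : finrank K (LinearMap.range (Hs.mapR (FRep.triv K P) S.p)) +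
        finrank K (LinearMap.ker (Hs.mapR (FRep.triv K P) S.p)) = Fd B :=
      LinearMap.finrank_range_add_finrank_ker _
    have h2 : LinearMap.ker (Hs.mapR (FRep.triv K P) S.p) ≤
        LinearMap.range (Hs.mapR (FRep.triv K P) S.i) := by
      intro x hx
      exact S.exact_mid _ x hx
    have h3 := Submodule.finrank_mono h2
    have h4 := Fr_le_left S.i
    have h5 := Fd_le_cc hP A
    unfold Fr at h4 ⊢
    omega
  · have h1 : finrank K (LinearMap.range (Hs.mapR (FRep.triv K P) S.δ)) +
        finrank K (LinearMap.ker (Hs.mapR (FRep.triv K P) S.δ)) = Fd C :=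
      LinearMap.finrank_range_add_finrank_ker _
    have h2 : LinearMap.ker (Hs.mapR (FRep.triv K P) S.δ) ≤
        LinearMap.range (Hs.mapR (FRep.triv K P) S.p) := by
      intro x hx
      exact S.exact_right _ x hx
    have h3 := Submodule.finrank_mono h2
    have h4 : finrank K (LinearMap.range (Hs.mapR (FRep.triv K P) S.δ)) ≤ Fd (FRep.Sh A) :=
      Submodule.finrank_le _
    have h5 := Fd_le_cc hP (FRep.Sh A)
    have h6 := cc_Sh_le hP A
    unfold Fr
    omega

/-! ### orbit sums -/

theorem finrank_range_le_of_ker_le {V V' V'' : Type} [AddCommGroup V] [Module K V]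
    [FiniteDimensional K V] [AddCommGroup V'] [Module K V'] [AddCommGroup V''] [Module K V'']
    (f : V →ₗ[K] V') (g : V →ₗ[K] V'') (h : LinearMap.ker f ≤ LinearMap.ker g) :
    finrank K (LinearMap.range g) ≤ finrank K (LinearMap.range f) := by
  have h1 := LinearMap.finrank_range_add_finrank_ker f
  have h2 := LinearMap.finrank_range_add_finrank_ker g
  have h3 := Submodule.finrank_mono h
  omega

open Classical in
/-- the sum over an orbit -/
theorem orbit_norm {S : Type} [Fintype S] [MulAction P S] (X X' : FRep K P)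
    (Φ : S → (X.V →ₗ[K] X'.V)) (hΦ : ∀ (g : P) (s : S) (x : X.V),
      Φ (g • s) (X.ρ g x) = X'.ρ g (Φ s x)) (x : X.V) (hx : ∀ g, X.ρ g x = x) (s : S) (u : X.V)
    (hu : ∑ h ∈ Finset.univ.filter (fun h : P => h • s = s), X.ρ h u = x) :
    nrm X' (Φ s u) = ∑ s' : S, if s' ∈ MulAction.orbit P s then Φ s' x else 0 := by
  rw [nrm_apply]
  have h1 : ∑ g : P, X'.ρ g (Φ s u) = ∑ g : P, Φ (g • s) (X.ρ g u) :=
    Finset.sum_congr rfl fun g _ => (hΦ g s u).symm
  rw [h1, ← Finset.sum_fiberwise Finset.univ (fun g : P => g • s)]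
  refine Finset.sum_congr rfl fun s' _ => ?_
  by_cases hs' : s' ∈ MulAction.orbit P s
  · rw [if_pos hs']
    obtain ⟨g, hg⟩ := hs'
    have hg' : g • s = s' := hg
    have h2 : ∑ k ∈ Finset.univ.filter (fun k : P => k • s = s'), Φ (k • s) (X.ρ k u) =
        Φ s' (∑ k ∈ Finset.univ.filter (fun k : P => k • s = s'), X.ρ k u) := by
      rw [map_sum]
      refine Finset.sum_congr rfl fun k hk => ?_
      rw [(Finset.mem_filter.1 hk).2]
    rw [h2]
    congr 1
    have h3 : ∑ k ∈ Finset.univ.filter (fun k : P => k • s = s'), X.ρ k u =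
        ∑ h ∈ Finset.univ.filter (fun h : P => h • s = s), X.ρ (g * h) u := by
      symm
      refine Finset.sum_nbij' (fun h => g * h) (fun k => g⁻¹ * k) ?_ ?_ ?_ ?_ ?_
      · intro h hh
        rw [Finset.mem_filter] at hh ⊢
        exact ⟨Finset.mem_univ _, by rw [mul_smul, hh.2, hg']⟩
      · intro k hk
        rw [Finset.mem_filter] at hk ⊢
        exact ⟨Finset.mem_univ _, by rw [mul_smul, hk.2, ← hg', inv_smul_smul]⟩
      · intro h _; simp
      · intro k _; simp
      · intro h _; rfl
    rw [h3]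
    have h4 : ∑ h ∈ Finset.univ.filter (fun h : P => h • s = s), X.ρ (g * h) u =
        X.ρ g (∑ h ∈ Finset.univ.filter (fun h : P => h • s = s), X.ρ h u) := by
      rw [map_sum]
      exact Finset.sum_congr rfl fun h _ => FRep.mul_apply X g h u
    rw [h4, hu, hx]
  · rw [if_neg hs']
    apply Finset.sum_eq_zero
    intro k hk
    exact absurd ⟨k, (Finset.mem_filter.1 hk).2⟩ hs'

/-- The orbit sum lemma: a sum of linear maps permuted without fixed points has small rank on
`Ĥ⁰`. -/
theorem orbit_sum (hP : IsPGroup p P) {S : Type} [Fintype S] [MulAction P S] (X X' : FRep K P)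
    (Φ : S → (X.V →ₗ[K] X'.V)) (hΦ : ∀ (g : P) (s : S) (x : X.V),
      Φ (g • s) (X.ρ g x) = X'.ρ g (Φ s x))
    (hS : ∀ s : S, ∃ g : P, g • s ≠ s) (f : EHom X X') (hf : ∀ x, f.1 x = ∑ s, Φ s x) :
    Fr f ≤ Fintype.card S * del X := by
  classical
  letI inst : ∀ s : S, Fintype (MulAction.stabilizer P s) := fun s => Fintype.ofFinite _
  have hinv : ∀ s : S, ∀ x ∈ invs X, x ∈ invs (FRep.res (MulAction.stabilizer P s) X) :=
    fun s x hx g => hx g.1
  let ψ : (s : S) → invs X →ₗ[K] Hs (FRep.triv K (MulAction.stabilizer P s))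
      (FRep.res (MulAction.stabilizer P s) X) := fun s =>
    piT (FRep.res (MulAction.stabilizer P s) X) ∘ₗ
      { toFun := fun x => (⟨x.1, hinv s x.1 x.2⟩ : invs (FRep.res (MulAction.stabilizer P s) X))
        map_add' := fun x y => rfl
        map_smul' := fun c x => rfl }
  let Ψ : invs X →ₗ[K] ((s : S) → Hs (FRep.triv K (MulAction.stabilizer P s))
      (FRep.res (MulAction.stabilizer P s) X)) := LinearMap.pi ψ
  have hker : LinearMap.ker Ψ ≤ LinearMap.ker (Hs.mapR (FRep.triv K P) f ∘ₗ piT X) := by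
    intro x hx
    have hx' : ∀ s : S, ∃ u : X.V, ∑ h ∈ Finset.univ.filter (fun h : P => h • s = s), X.ρ h u = x.1 := by
      intro s
      have h1 : ψ s x = 0 := congrFun hx s
      have h2 := (piT_eq_zero (FRep.res (MulAction.stabilizer P s) X) ⟨x.1, hinv s x.1 x.2⟩).1 h1
      obtain ⟨u, hu⟩ := h2
      refine ⟨u, ?_⟩
      rw [nrm_apply] at hu
      have h3 : ∀ h : P, h ∈ Finset.univ.filter (fun h : P => h • s = s) ↔
          h ∈ MulAction.stabilizer P s := fun h => by
        rw [Finset.mem_filter, MulAction.mem_stabilizer_iff]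
        exact ⟨fun h => h.2, fun h => ⟨Finset.mem_univ _, h⟩⟩
      rw [Finset.sum_subtype (Finset.univ.filter (fun h : P => h • s = s)) h3
        (fun h : P => X.ρ h u)]
      exact hu
    choose u hu using hx'
    rw [LinearMap.mem_ker, LinearMap.comp_apply, mapR_piT, piT_eq_zero]
    show f.1 x.1 ∈ LinearMap.range (nrm X')
    let Ω := Quotient (MulAction.orbitRel P S)
    refine ⟨∑ ω : Ω, Φ ω.out (u ω.out), ?_⟩
    rw [map_sum, hf]
    have h1 : ∀ ω : Ω, nrm X' (Φ ω.out (u ω.out)) =
        ∑ s' : S, if s' ∈ MulAction.orbit P ω.out then Φ s' x.1 else 0 := fun ω =>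
      orbit_norm X X' Φ hΦ x.1 x.2 ω.out (u ω.out) (hu ω.out)
    rw [Finset.sum_congr rfl fun ω _ => h1 ω, Finset.sum_comm]
    refine Finset.sum_congr rfl fun s' _ => ?_
    rw [Finset.sum_eq_single (Quotient.mk (MulAction.orbitRel P S) s')]
    · rw [if_pos]
      have h2 : (Quotient.mk (MulAction.orbitRel P S) s').out ∈ MulAction.orbit P s' :=
        Quotient.exact (Quotient.out_eq (Quotient.mk (MulAction.orbitRel P S) s'))
      exact MulAction.orbitRel_apply.1 ((MulAction.orbitRel P S).symm (MulAction.orbitRel_apply.2 h2))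
    · intro ω _ hω
      rw [if_neg]
      intro h2
      apply hω
      rw [← Quotient.out_eq ω]
      exact Quotient.sound ((MulAction.orbitRel P S).symm (MulAction.orbitRel_apply.2 h2))
    · intro h; exact absurd (Finset.mem_univ _) h
  have h1 := finrank_range_le_of_ker_le Ψ (Hs.mapR (FRep.triv K P) f ∘ₗ piT X) hker
  have h2 : LinearMap.range (Hs.mapR (FRep.triv K P) f ∘ₗ piT X) =
      LinearMap.range (Hs.mapR (FRep.triv K P) f) := by
    rw [LinearMap.range_comp, LinearMap.range_eq_top.2 (piT_surjective X), Submodule.map_top]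
  rw [h2] at h1
  have h3 : finrank K (LinearMap.range Ψ) ≤ ∑ s : S, finrank K (Hs (FRep.triv K
      (MulAction.stabilizer P s)) (FRep.res (MulAction.stabilizer P s) X)) := by
    refine (Submodule.finrank_le _).trans ?_
    rw [Module.finrank_pi_fintype]
  have h4 : ∀ s : S, finrank K (Hs (FRep.triv K
      (MulAction.stabilizer P s)) (FRep.res (MulAction.stabilizer P s) X)) ≤ del X := by
    intro s
    have h5 := Fd_le_cc (hP.to_subgroup (MulAction.stabilizer P s))
      (FRep.res (MulAction.stabilizer P s) X)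
    refine h5.trans ?_
    have h6 : MulAction.stabilizer P s ≠ ⊤ := by
      intro htop
      obtain ⟨g, hg⟩ := hS s
      apply hg
      have : g ∈ MulAction.stabilizer P s := by rw [htop]; exact Subgroup.mem_top g
      exact this
    exact ccS_le_del (MulAction.stabilizer P s) h6 X
  calc Fr f ≤ ∑ s : S, finrank K (Hs (FRep.triv K
      (MulAction.stabilizer P s)) (FRep.res (MulAction.stabilizer P s) X)) := h1.trans h3
    _ ≤ ∑ s : S, del X := Finset.sum_le_sum fun s _ => h4 s
    _ = Fintype.card S * del X := by rw [Finset.sum_const, Finset.card_univ, smul_eq_mul]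

end Pool.Agent.H34.Gam

end
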