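import Pool.Agent.H34.Gam.ChCase

/-!
The Chouinard bound (job GAM-CHOU): `cc W ≤ C * ∑_E cc (res E W)`, `E` elementary abelian.
-/

set_option autoImplicit false
set_option linter.unusedSectionVars false

noncomputable section

namespace Pool.Agent.H34.Gam

open Module

/-- elementary abelian subgroups (including the trivial one) -/
def IsElem {G : Type} [Group G] (p : ℕ) (E : Subgroup G) : Prop :=
  (∀ x ∈ E, x ^ p = 1) ∧ ∀ x ∈ E, ∀ y ∈ E, x * y = y * x

theorem chou_step {K P : Type} [Field K] [Group P] [Fintype P] {p : ℕ} [Fact p.Prime] [CharP K p]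
    (hP : IsPGroup p P) (h : ¬ IsElem p (⊤ : Subgroup P)) :
    ∃ C : ℕ, ∀ W : FRep K P, cc W ≤ C * del W := by
  have hp : 1 < p := (Fact.out : p.Prime).one_lt
  by_cases hexp : ∀ g : P, g ^ p = 1
  · have hcomm : ¬ ∀ x y : P, x * y = y * x := by
      intro hc
      exact h ⟨fun x _ => hexp x, fun x _ y _ => hc x y⟩
    push Not at hcomm
    obtain ⟨x, y, hxy⟩ := hcomm
    exact chou_case2 hP hexp x y hxy
  · push Not at hexp
    obtain ⟨g, hg⟩ := hexp
    obtain ⟨k, hk⟩ := (IsPGroup.iff_orderOf.1 hP) g
    have hk2 : 2 ≤ k := by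
      by_contra hlt
      have hk1 : k ≤ 1 := by omega
      apply hg
      rw [← orderOf_dvd_iff_pow_eq_one, hk]
      calc p ^ k ∣ p ^ 1 := pow_dvd_pow p hk1
        _ = p := pow_one p
    refine chou_case1 hP (g ^ (p ^ (k - 2))) ?_ ?_
    · rw [← pow_mul, ← pow_add, Nat.sub_add_cancel hk2, ← hk, pow_orderOf_eq_one]
    · rw [← pow_mul, ← pow_succ]
      apply pow_ne_one_of_lt_orderOf
      · positivity
      · rw [hk]
        exact Nat.pow_lt_pow_right hp (by omega)

/-- `cc` of a restriction only depends on the subgroup: pull-back along group isomorphisms -/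
theorem cc_pullback {K G G' : Type} [Field K] [Group G] [Group G'] [Fintype G] [Fintype G']
    (e : G ≃* G') (W : FRep K G') :
    cc ({ V := W.V, ρ := W.ρ.comp e.toMonoidHom } : FRep K G) = cc W := by
  have h1 : nrm ({ V := W.V, ρ := W.ρ.comp e.toMonoidHom } : FRep K G) = nrm W :=
    Equiv.sum_comp e.toEquiv (fun g => W.ρ g)
  have h2 : Fintype.card G = Fintype.card G' := Fintype.card_congr e.toEquiv
  show finrank K W.V - Fintype.card G * finrank K (LinearMap.range
    (nrm ({ V := W.V, ρ := W.ρ.comp e.toMonoidHom } : FRep K G))) = _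
  rw [h2]
  exact congrArg (fun f : W.V →ₗ[K] W.V =>
    finrank K W.V - Fintype.card G' * finrank K (LinearMap.range f)) h1

lemma chou_ccS_map {K P : Type} [Field K] [Group P] [Fintype P] (H : Subgroup P)
    [Fintype H] (E : Subgroup H) (W : FRep K P) :
    ccS E (FRep.res H W) = ccS (E.map H.subtype) W := by
  let _ : Fintype E := Fintype.ofFinite E
  let _ : Fintype (E.map H.subtype) := Fintype.ofFinite _
  show cc (FRep.res E (FRep.res H W)) = cc (FRep.res (E.map H.subtype) W)
  rw [← cc_pullback (E.equivMapOfInjective H.subtype H.subtype_injective)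
    (FRep.res (E.map H.subtype) W)]
  have h1 : (W.ρ.comp H.subtype).comp E.subtype = (W.ρ.comp (E.map H.subtype).subtype).comp
      (E.equivMapOfInjective H.subtype H.subtype_injective).toMonoidHom := by
    refine MonoidHom.ext fun x => ?_
    show W.ρ _ = W.ρ _
    rfl
  exact congrArg (fun ρ : Representation K E W.V => cc ({ V := W.V, ρ := ρ } : FRep K E)) h1

lemma chou_ccS_top {K P : Type} [Field K] [Group P] [Fintype P] (W : FRep K P) :
    ccS ⊤ W = cc W := by
  let _ : Fintype (⊤ : Subgroup P) := Fintype.ofFinite _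
  exact cc_pullback Subgroup.topEquiv W

lemma chou_map_isElem {P : Type} [Group P] {p : ℕ} (H : Subgroup P) (E : Subgroup H)
    (hE : IsElem p E) : IsElem p (E.map H.subtype) := by
  constructor
  · rintro _ ⟨x, hx, rfl⟩
    rw [← map_pow, hE.1 x hx, map_one]
  · rintro _ ⟨x, hx, rfl⟩ _ ⟨y, hy, rfl⟩
    rw [← map_mul, hE.2 x hx y hy, map_mul]

theorem chouinard {K P : Type} [Field K] [Group P] [Fintype P] {p : ℕ} [Fact p.Prime] [CharP K p]
    (hP : IsPGroup p P) :
    ∃ C : ℕ, ∀ W : FRep K P,
      cc W ≤ C * ∑ E ∈ (Set.toFinite {E : Subgroup P | IsElem p E}).toFinset, ccS E W := by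
  have key : ∀ n : ℕ, ∀ (P : Type) [Group P] [Fintype P], Nat.card P = n → IsPGroup p P →
      ∃ C : ℕ, ∀ W : FRep K P,
      cc W ≤ C * ∑ E ∈ (Set.toFinite {E : Subgroup P | IsElem p E}).toFinset, ccS E W := by
    intro n
    induction n using Nat.strong_induction_on with
    | _ n ih =>
      intro P _ _ hn hP
      by_cases hel : IsElem p (⊤ : Subgroup P)
      · refine ⟨1, fun W => ?_⟩
        rw [one_mul, ← chou_ccS_top W]
        exact Finset.single_le_sum (f := fun E => ccS E W) (fun i _ => Nat.zero_le _)
          ((Set.Finite.mem_toFinset _).2 hel)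
      · obtain ⟨C1, hC1⟩ := chou_step (K := K) hP hel
        have hH : ∀ H : Subgroup P, ∃ D : ℕ, H ≠ ⊤ → ∀ W : FRep K P, ccS H W ≤
            D * ∑ E ∈ (Set.toFinite {E : Subgroup P | IsElem p E}).toFinset, ccS E W := by
          intro H
          by_cases hne : H = ⊤
          · exact ⟨0, fun h => absurd hne h⟩
          · let _ : Fintype H := Fintype.ofFinite H
            have hlt : Nat.card H < n := by
              rw [← hn]
              refine lt_of_le_of_ne (Subgroup.card_le_card_group H) fun hcard => ?_
              exact hne (Subgroup.eq_top_of_card_eq H hcard)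
            obtain ⟨C, hC⟩ := ih (Nat.card H) hlt H rfl (hP.to_subgroup H)
            refine ⟨C * (Set.toFinite {E : Subgroup H | IsElem p E}).toFinset.card,
              fun _ W => ?_⟩
            have h1 : ccS H W ≤ C * ∑ E ∈ (Set.toFinite {E : Subgroup H | IsElem p E}).toFinset,
                ccS E (FRep.res H W) := hC (FRep.res H W)
            have h2 : ∑ E ∈ (Set.toFinite {E : Subgroup H | IsElem p E}).toFinset,
                ccS E (FRep.res H W) ≤
                (Set.toFinite {E : Subgroup H | IsElem p E}).toFinset.card •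
                ∑ E ∈ (Set.toFinite {E : Subgroup P | IsElem p E}).toFinset, ccS E W := by
              refine Finset.sum_le_card_nsmul _ _ _ fun E hE => ?_
              rw [chou_ccS_map]
              refine Finset.single_le_sum (f := fun E => ccS E W) (fun i _ => Nat.zero_le _)
                ((Set.Finite.mem_toFinset _).2 ?_)
              have hE' : IsElem p E :=
                (Set.Finite.mem_toFinset (Set.toFinite {E : Subgroup H | IsElem p E})).1 hE
              exact chou_map_isElem H E hE'
            calc ccS H W ≤ _ := h1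
              _ ≤ C * ((Set.toFinite {E : Subgroup H | IsElem p E}).toFinset.card •
                ∑ E ∈ (Set.toFinite {E : Subgroup P | IsElem p E}).toFinset, ccS E W) :=
                  Nat.mul_le_mul_left _ h2
              _ = _ := by rw [smul_eq_mul, mul_assoc]
        choose D hD using hH
        refine ⟨C1 * ∑ H ∈ (Set.toFinite {H : Subgroup P | H ≠ ⊤}).toFinset, D H, fun W => ?_⟩
        calc cc W ≤ C1 * del W := hC1 W
          _ ≤ C1 * ∑ H ∈ (Set.toFinite {H : Subgroup P | H ≠ ⊤}).toFinset, D H *
              ∑ E ∈ (Set.toFinite {E : Subgroup P | IsElem p E}).toFinset, ccS E W := by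
            refine Nat.mul_le_mul_left _ ?_
            unfold del
            exact Finset.sum_le_sum fun H hH =>
              hD H ((Set.Finite.mem_toFinset _).1 hH) W
          _ = _ := by rw [← Finset.sum_mul, mul_assoc]
  exact key _ P rfl hP

end Pool.Agent.H34.Gam

end
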