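import Mathlib

/-!
Core: bundled finite-dimensional representations, equivariant maps, null maps (traces),
stable Hom spaces, the cosyzygy functor `Sh`, short exact sequences and the long exact sequence.
-/

set_option autoImplicit false

noncomputable section

namespace Pool.Agent.H34.Gam

open scoped TensorProduct

/-- A finite-dimensional representation, bundled. -/
structure FRep (K G : Type) [Field K] [Group G] where
  V : Type
  [acg : AddCommGroup V]
  [mod : Module K V]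
  [fd : FiniteDimensional K V]
  ρ : Representation K G V

attribute [instance] FRep.acg FRep.mod FRep.fd

variable {K G : Type} [Field K] [Group G]

@[simp] lemma FRep.inv_self (W : FRep K G) (g : G) (x : W.V) : W.ρ g⁻¹ (W.ρ g x) = x :=
  Representation.inv_self_apply _ _ _

@[simp] lemma FRep.self_inv (W : FRep K G) (g : G) (x : W.V) : W.ρ g (W.ρ g⁻¹ x) = x :=
  Representation.self_inv_apply _ _ _

lemma FRep.mul_apply (W : FRep K G) (g h : G) (x : W.V) : W.ρ (g * h) x = W.ρ g (W.ρ h x) := by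
  rw [map_mul]; rfl

@[simp] lemma FRep.one_apply (W : FRep K G) (x : W.V) : W.ρ 1 x = x := by
  rw [map_one]; rfl

/-- The space of equivariant maps, as a subspace of all linear maps. -/
def EHom (U W : FRep K G) : Submodule K (U.V →ₗ[K] W.V) where
  carrier := {f | ∀ g x, f (U.ρ g x) = W.ρ g (f x)}
  add_mem' := by
    intro a b ha hb g x
    simp only [LinearMap.add_apply, ha g x, hb g x, map_add]
  zero_mem' := by intro g x; simp
  smul_mem' := by
    intro c f hf g x
    simp only [LinearMap.smul_apply, hf g x, map_smul]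

lemma mem_EHom {U W : FRep K G} {f : U.V →ₗ[K] W.V} :
    f ∈ EHom U W ↔ ∀ g x, f (U.ρ g x) = W.ρ g (f x) := Iff.rfl

lemma EHom.map {U W : FRep K G} (f : EHom U W) (g : G) (x : U.V) :
    f.1 (U.ρ g x) = W.ρ g (f.1 x) := f.2 g x

/-- composition of equivariant maps -/
def ecomp {U W Z : FRep K G} (f : EHom W Z) (e : EHom U W) : EHom U Z :=
  ⟨f.1 ∘ₗ e.1, fun g x => by
    simp only [LinearMap.comp_apply, EHom.map]⟩


@[simp] lemma ecomp_val {U W Z : FRep K G} (f : EHom W Z) (e : EHom U W) :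
    ((ecomp f e)).1 = f.1 ∘ₗ e.1 := rfl

namespace EHom

/-- identity -/
def id (U : FRep K G) : EHom U U := ⟨LinearMap.id, fun _ _ => rfl⟩

@[simp] lemma id_val (U : FRep K G) : (EHom.id U).1 = LinearMap.id := rfl

@[simp] lemma comp_id {U W : FRep K G} (f : EHom U W) : (ecomp f (EHom.id U)) = f := rfl

@[simp] lemma id_comp {U W : FRep K G} (f : EHom U W) : (ecomp (EHom.id W) f) = f := rfl

lemma comp_assoc {A B C D : FRep K G} (f : EHom C D) (g : EHom B C) (h : EHom A B) :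
    (ecomp ((ecomp f g)) h) = (ecomp f ((ecomp g h))) := rfl

lemma add_comp {U W Z : FRep K G} (f f' : EHom W Z) (e : EHom U W) :
    (ecomp (f + f') e) = (ecomp f e) + (ecomp f' e) := rfl

lemma comp_add {U W Z : FRep K G} (f : EHom W Z) (e e' : EHom U W) :
    (ecomp f (e + e')) = (ecomp f e) + (ecomp f e') := by
  apply Subtype.ext; ext x; simp

lemma smul_comp {U W Z : FRep K G} (c : K) (f : EHom W Z) (e : EHom U W) :
    (ecomp (c • f) e) = c • ((ecomp f e)) := rfl

lemma comp_smul {U W Z : FRep K G} (c : K) (f : EHom W Z) (e : EHom U W) :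
    (ecomp f (c • e)) = c • ((ecomp f e)) := by
  apply Subtype.ext; ext x; simp

@[ext] lemma ext' {U W : FRep K G} {f f' : EHom U W} (h : ∀ x, f.1 x = f'.1 x) : f = f' :=
  Subtype.ext (LinearMap.ext h)

end EHom

/-- `L U W`: the representation on linear maps `U → W`, `g • φ = g φ g⁻¹`. -/
abbrev FRep.L (U W : FRep K G) : FRep K G where
  V := U.V →ₗ[K] W.V
  ρ := Representation.linHom U.ρ W.ρ

lemma FRep.L_apply (U W : FRep K G) (g : G) (φ : U.V →ₗ[K] W.V) (x : U.V) :
    ((FRep.L U W).ρ g φ : U.V →ₗ[K] W.V) x = W.ρ g (φ (U.ρ g⁻¹ x)) := rfl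

/-- tensor product with diagonal action -/
abbrev FRep.T (U W : FRep K G) : FRep K G where
  V := U.V ⊗[K] W.V
  ρ := Representation.tprod U.ρ W.ρ

lemma FRep.T_apply (U W : FRep K G) (g : G) (x : U.V) (y : W.V) :
    (FRep.T U W).ρ g (x ⊗ₜ[K] y) = (U.ρ g x) ⊗ₜ[K] (W.ρ g y) := rfl

/-- trivial representation on `K` -/
abbrev FRep.triv (K G : Type) [Field K] [Group G] : FRep K G where
  V := K
  ρ := Representation.trivial K G K

/-- tensor powers: `pow M 0 = K`, `pow M (n+1) = pow M n ⊗ M` -/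
def FRep.pow (M : FRep K G) : ℕ → FRep K G
  | 0 => FRep.triv K G
  | n + 1 => FRep.T (FRep.pow M n) M

/-- functions `G → W`, `(g • f)(x) = g f(g⁻¹ x)` -/
abbrev FRep.Fn [Finite G] (W : FRep K G) : FRep K G where
  V := G → W.V
  ρ :=
    { toFun := fun g =>
        { toFun := fun f x => W.ρ g (f (g⁻¹ * x))
          map_add' := by intro f f'; funext x; simp
          map_smul' := by intro c f; funext x; simp }
      map_one' := by ext f x; simp
      map_mul' := by
        intro g h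
        refine LinearMap.ext fun f => funext fun x => ?_
        show W.ρ (g * h) (f ((g * h)⁻¹ * x)) = W.ρ g (W.ρ h (f (h⁻¹ * (g⁻¹ * x))))
        rw [FRep.mul_apply, mul_inv_rev, mul_assoc] }

lemma FRep.Fn_apply [Finite G] (W : FRep K G) (g : G) (f : G → W.V) (x : G) :
    ((FRep.Fn W).ρ g f : G → W.V) x = W.ρ g (f (g⁻¹ * x)) := rfl

/-- quotient representation -/
abbrev FRep.quot (W : FRep K G) (N : Submodule K W.V) (hN : ∀ g, ∀ x ∈ N, W.ρ g x ∈ N) :
    FRep K G where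
  V := W.V ⧸ N
  ρ :=
    { toFun := fun g => N.mapQ N (W.ρ g) (fun x hx => hN g x hx)
      map_one' := by
        refine LinearMap.ext fun x => ?_
        obtain ⟨y, rfl⟩ := N.mkQ_surjective x
        simp
      map_mul' := by
        intro g h
        refine LinearMap.ext fun x => ?_
        obtain ⟨y, rfl⟩ := N.mkQ_surjective x
        simp }

/-- subrepresentation -/
abbrev FRep.sub (W : FRep K G) (N : Submodule K W.V) (hN : ∀ g, ∀ x ∈ N, W.ρ g x ∈ N) :
    FRep K G where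
  V := N
  ρ :=
    { toFun := fun g => (W.ρ g).restrict (fun x hx => hN g x hx)
      map_one' := by ext x; simp
      map_mul' := by
        intro g h
        ext x
        simp }

/-- the constants in `G → W` -/
def cst (G : Type) [Group G] [Finite G] {K : Type} [Field K] (W : FRep K G) :
    W.V →ₗ[K] (G → W.V) := LinearMap.pi fun _ => LinearMap.id

lemma cst_range_stable [Finite G] (W : FRep K G) (g : G) (x : (FRep.Fn W).V)
    (hx : x ∈ LinearMap.range (cst G W)) : (FRep.Fn W).ρ g x ∈ LinearMap.range (cst G W) := by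
  obtain ⟨w, rfl⟩ := hx
  exact ⟨W.ρ g w, rfl⟩

/-- The cosyzygy `Sh W = Fun(G,W)/constants`. -/
def FRep.Sh [Finite G] (W : FRep K G) : FRep K G :=
  FRep.quot (FRep.Fn W) (LinearMap.range (cst G W)) (cst_range_stable W)

/-- the class of a function in `Sh W` -/
def shq [Finite G] (W : FRep K G) : (G → W.V) →ₗ[K] (FRep.Sh W).V :=
  (LinearMap.range (cst G W)).mkQ

lemma shq_surjective [Finite G] (W : FRep K G) : Function.Surjective (shq W) :=
  Submodule.mkQ_surjective _

lemma shq_eq_zero [Finite G] (W : FRep K G) (f : G → W.V) :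
    shq W f = 0 ↔ ∃ w, ∀ g, f g = w := by
  have h : shq W f = 0 ↔ f ∈ LinearMap.range (cst G W) :=
    Submodule.Quotient.mk_eq_zero (LinearMap.range (cst G W))
  rw [h]
  constructor
  · rintro ⟨w, rfl⟩
    exact ⟨w, fun g => rfl⟩
  · rintro ⟨w, hw⟩
    exact ⟨w, funext fun g => (hw g).symm⟩

lemma shq_eq [Finite G] (W : FRep K G) (f f' : G → W.V) :
    shq W f = shq W f' ↔ ∃ w, ∀ g, f g = f' g + w := by
  rw [← sub_eq_zero, ← map_sub, shq_eq_zero]
  constructor
  · rintro ⟨w, hw⟩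
    exact ⟨w, fun g => by rw [← hw g]; simp⟩
  · rintro ⟨w, hw⟩
    exact ⟨w, fun g => by simp [hw g]⟩

lemma shq_ρ [Finite G] (W : FRep K G) (g : G) (f : G → W.V) :
    (FRep.Sh W).ρ g (shq W f) = shq W (fun x => W.ρ g (f (g⁻¹ * x))) := rfl

/-- two linear maps out of `Sh W` agreeing on classes of functions are equal -/
lemma Sh_hom_ext [Finite G] {W : FRep K G} {Z : Type} [AddCommGroup Z] [Module K Z]
    {f f' : (FRep.Sh W).V →ₗ[K] Z} (h : ∀ F : G → W.V, f (shq W F) = f' (shq W F)) : f = f' := by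
  refine LinearMap.ext fun x => ?_
  obtain ⟨F, rfl⟩ := shq_surjective W x
  exact h F

/-- descend a linear map which kills the constants -/
def Sh.lift [Finite G] (W : FRep K G) {Z : Type} [AddCommGroup Z] [Module K Z]
    (T : (G → W.V) →ₗ[K] Z) (hT : ∀ w : W.V, T (fun _ => w) = 0) : (FRep.Sh W).V →ₗ[K] Z :=
  (LinearMap.range (cst G W)).liftQ T (by
    rintro _ ⟨w, rfl⟩
    exact hT w)

@[simp] lemma Sh.lift_shq [Finite G] (W : FRep K G) {Z : Type} [AddCommGroup Z] [Module K Z]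
    (T : (G → W.V) →ₗ[K] Z) (hT : ∀ w : W.V, T (fun _ => w) = 0) (F : G → W.V) :
    Sh.lift W T hT (shq W F) = T F := rfl

/-- `Sh` on arbitrary linear maps (post-composition) -/
def Sh.lmap [Finite G] {W W' : FRep K G} (φ : W.V →ₗ[K] W'.V) :
    (FRep.Sh W).V →ₗ[K] (FRep.Sh W').V :=
  Sh.lift W (shq W' ∘ₗ (φ.compLeft G)) (fun w => by
    rw [LinearMap.comp_apply, shq_eq_zero]
    exact ⟨φ w, fun g => rfl⟩)

@[simp] lemma Sh.lmap_shq [Finite G] {W W' : FRep K G} (φ : W.V →ₗ[K] W'.V) (F : G → W.V) :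
    Sh.lmap φ (shq W F) = shq W' (fun g => φ (F g)) := rfl

lemma Sh.lmap_add [Finite G] {W W' : FRep K G} (φ ψ : W.V →ₗ[K] W'.V) :
    Sh.lmap (φ + ψ) = Sh.lmap φ + Sh.lmap ψ := by
  apply Sh_hom_ext; intro F
  rw [LinearMap.add_apply, Sh.lmap_shq, Sh.lmap_shq, Sh.lmap_shq, ← map_add]; rfl

lemma Sh.lmap_smul [Finite G] {W W' : FRep K G} (c : K) (φ : W.V →ₗ[K] W'.V) :
    Sh.lmap (c • φ) = c • Sh.lmap φ := by
  apply Sh_hom_ext; intro F
  rw [LinearMap.smul_apply, Sh.lmap_shq, Sh.lmap_shq, ← map_smul]; rfl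

lemma Sh.lmap_comp [Finite G] {W W' W'' : FRep K G} (ψ : W'.V →ₗ[K] W''.V) (φ : W.V →ₗ[K] W'.V) :
    Sh.lmap (W := W) (W' := W'') (ψ ∘ₗ φ) = Sh.lmap ψ ∘ₗ Sh.lmap φ := by
  apply Sh_hom_ext; intro F; rfl

lemma Sh.lmap_id [Finite G] (W : FRep K G) :
    Sh.lmap (W := W) (W' := W) LinearMap.id = LinearMap.id := by
  apply Sh_hom_ext; intro F; rfl

/-- `Sh` on equivariant maps -/
def Sh.map [Finite G] {W W' : FRep K G} : EHom W W' →ₗ[K] EHom (FRep.Sh W) (FRep.Sh W') where
  toFun f := ⟨Sh.lmap f.1, fun g x => by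
    obtain ⟨F, rfl⟩ := shq_surjective W x
    rw [shq_ρ, Sh.lmap_shq, Sh.lmap_shq, shq_ρ]
    congr 1
    funext x
    exact f.2 g _⟩
  map_add' f f' := Subtype.ext (Sh.lmap_add _ _)
  map_smul' c f := Subtype.ext (Sh.lmap_smul _ _)

@[simp] lemma Sh.map_val [Finite G] {W W' : FRep K G} (f : EHom W W') :
    (Sh.map f).1 = Sh.lmap f.1 := rfl

lemma Sh.map_comp [Finite G] {W W' W'' : FRep K G} (f : EHom W' W'') (e : EHom W W') :
    Sh.map ((ecomp f e)) = (ecomp (Sh.map f) (Sh.map e)) := Subtype.ext (Sh.lmap_comp _ _)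

lemma Sh.map_id [Finite G] (W : FRep K G) : Sh.map (EHom.id W) = EHom.id _ :=
  Subtype.ext (Sh.lmap_id _)

section Null

variable [Fintype G]

/-- the norm `x ↦ ∑ g, g x` -/
def nrm (W : FRep K G) : W.V →ₗ[K] W.V := ∑ g : G, W.ρ g

lemma nrm_apply (W : FRep K G) (x : W.V) : nrm W x = ∑ g : G, W.ρ g x := by
  simp [nrm, LinearMap.sum_apply]

/-- the trace `φ ↦ ∑ g, g φ g⁻¹` -/
def Tr (U W : FRep K G) : (U.V →ₗ[K] W.V) →ₗ[K] (U.V →ₗ[K] W.V) := nrm (FRep.L U W)

lemma Tr_apply (U W : FRep K G) (φ : U.V →ₗ[K] W.V) (x : U.V) :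
    Tr U W φ x = ∑ g : G, W.ρ g (φ (U.ρ g⁻¹ x)) := by
  rw [Tr, nrm]
  show (∑ g : G, (FRep.L U W).ρ g) φ x = _
  rw [LinearMap.sum_apply, LinearMap.sum_apply]
  rfl

lemma Tr_mem (U W : FRep K G) (φ : U.V →ₗ[K] W.V) : Tr U W φ ∈ EHom U W := by
  intro g x
  rw [Tr_apply, Tr_apply, map_sum]
  rw [← Equiv.sum_comp (Equiv.mulLeft g)]
  refine Finset.sum_congr rfl fun h _ => ?_
  simp only [Equiv.coe_mulLeft, mul_inv_rev]
  rw [FRep.mul_apply, FRep.mul_apply, FRep.inv_self]

/-- null maps: traces of linear maps -/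
def Null (U W : FRep K G) : Submodule K (EHom U W) :=
  (LinearMap.range (Tr U W)).comap (EHom U W).subtype

lemma mem_Null {U W : FRep K G} {f : EHom U W} : f ∈ Null U W ↔ ∃ φ, Tr U W φ = f.1 := Iff.rfl

lemma Tr_comp_left {U W Z : FRep K G} (f : EHom W Z) (φ : U.V →ₗ[K] W.V) :
    Tr U Z (f.1 ∘ₗ φ) = f.1 ∘ₗ Tr U W φ := by
  ext x
  simp only [Tr_apply, LinearMap.comp_apply, map_sum, EHom.map]

lemma Tr_comp_right {U W Z : FRep K G} (φ : W.V →ₗ[K] Z.V) (e : EHom U W) :
    Tr U Z (φ ∘ₗ e.1) = Tr W Z φ ∘ₗ e.1 := by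
  ext x
  simp only [Tr_apply, LinearMap.comp_apply, EHom.map]

lemma Null.comp_left {U W Z : FRep K G} (f : EHom W Z) {e : EHom U W} (he : e ∈ Null U W) :
    (ecomp f e) ∈ Null U Z := by
  obtain ⟨φ, hφ⟩ := he
  exact ⟨f.1 ∘ₗ φ, by rw [Tr_comp_left, hφ]; rfl⟩

lemma Null.comp_right {U W Z : FRep K G} {f : EHom W Z} (hf : f ∈ Null W Z) (e : EHom U W) :
    (ecomp f e) ∈ Null U Z := by
  obtain ⟨φ, hφ⟩ := hf
  exact ⟨φ ∘ₗ e.1, by rw [Tr_comp_right, hφ]; rfl⟩

/-- stable Hom space -/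
def Hs (U W : FRep K G) : Type := (EHom U W) ⧸ (Null U W)

instance Hs.instAddCommGroup (U W : FRep K G) : AddCommGroup (Hs U W) :=
  inferInstanceAs (AddCommGroup ((EHom U W) ⧸ (Null U W)))

instance Hs.instModule (U W : FRep K G) : Module K (Hs U W) :=
  inferInstanceAs (Module K ((EHom U W) ⧸ (Null U W)))

instance Hs.instFD (U W : FRep K G) : FiniteDimensional K (Hs U W) :=
  inferInstanceAs (FiniteDimensional K ((EHom U W) ⧸ (Null U W)))

/-- class of an equivariant map -/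
def cl {U W : FRep K G} : EHom U W →ₗ[K] Hs U W := (Null U W).mkQ

lemma cl_surjective {U W : FRep K G} : Function.Surjective (cl (U := U) (W := W)) :=
  Submodule.mkQ_surjective _

lemma cl_eq_zero {U W : FRep K G} {f : EHom U W} : cl f = 0 ↔ f ∈ Null U W :=
  Submodule.Quotient.mk_eq_zero (Null U W)

lemma cl_eq {U W : FRep K G} {f f' : EHom U W} : cl f = cl f' ↔ f - f' ∈ Null U W := by
  rw [← sub_eq_zero, ← map_sub, cl_eq_zero]

/-- post-composition on stable Hom spaces -/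
def Hs.mapR (U : FRep K G) {W W' : FRep K G} (f : EHom W W') : Hs U W →ₗ[K] Hs U W' :=
  (Null U W).mapQ (Null U W')
    { toFun := fun e => (ecomp f e)
      map_add' := fun e e' => EHom.comp_add f e e'
      map_smul' := fun c e => EHom.comp_smul c f e }
    (fun _ he => Null.comp_left f he)

@[simp] lemma Hs.mapR_cl (U : FRep K G) {W W' : FRep K G} (f : EHom W W') (e : EHom U W) :
    Hs.mapR U f (cl e) = cl ((ecomp f e)) := rfl

/-- pre-composition on stable Hom spaces -/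
def Hs.mapL {U' U : FRep K G} (e : EHom U' U) (W : FRep K G) : Hs U W →ₗ[K] Hs U' W :=
  (Null U W).mapQ (Null U' W)
    { toFun := fun f => (ecomp f e)
      map_add' := fun f f' => EHom.add_comp f f' e
      map_smul' := fun c f => EHom.smul_comp c f e }
    (fun _ hf => Null.comp_right hf e)

@[simp] lemma Hs.mapL_cl {U' U : FRep K G} (e : EHom U' U) (W : FRep K G) (f : EHom U W) :
    Hs.mapL e W (cl f) = cl ((ecomp f e)) := rfl

lemma Hs.ind {U W : FRep K G} {p : Hs U W → Prop} (x : Hs U W) (h : ∀ f : EHom U W, p (cl f)) :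
    p x := by
  obtain ⟨f, rfl⟩ := cl_surjective x
  exact h f

lemma Hs.mapR_congr (U : FRep K G) {W W' : FRep K G} {f f' : EHom W W'} (h : cl f = cl f') :
    Hs.mapR U f = Hs.mapR U f' := by
  refine LinearMap.ext fun x => ?_
  obtain ⟨e, rfl⟩ := cl_surjective x
  rw [Hs.mapR_cl, Hs.mapR_cl, cl_eq]
  rw [cl_eq] at h
  exact Null.comp_right h e

lemma Hs.mapL_congr {U' U : FRep K G} {e e' : EHom U' U} (h : cl e = cl e') (W : FRep K G) :
    Hs.mapL e W = Hs.mapL e' W := by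
  refine LinearMap.ext fun x => ?_
  obtain ⟨f, rfl⟩ := cl_surjective x
  rw [Hs.mapL_cl, Hs.mapL_cl, cl_eq]
  rw [cl_eq] at h
  have := Null.comp_left f h
  convert this using 1
  apply Subtype.ext; ext x; simp

lemma Hs.mapR_comp (U : FRep K G) {W W' W'' : FRep K G} (f : EHom W' W'') (e : EHom W W') :
    Hs.mapR U ((ecomp f e)) = Hs.mapR U f ∘ₗ Hs.mapR U e := by
  refine LinearMap.ext fun x => ?_
  obtain ⟨f, rfl⟩ := cl_surjective x
  rfl

lemma Hs.mapL_mapR {U' U : FRep K G} (e : EHom U' U) {W W' : FRep K G} (f : EHom W W')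
    (x : Hs U W) : Hs.mapL e W' (Hs.mapR U f x) = Hs.mapR U' f (Hs.mapL e W x) := by
  obtain ⟨f, rfl⟩ := cl_surjective x
  rfl

/-- traces commute with `Sh` -/
lemma Sh.lmap_Tr {U W : FRep K G} (φ : U.V →ₗ[K] W.V) :
    Sh.lmap (Tr U W φ) = Tr (FRep.Sh U) (FRep.Sh W) (Sh.lmap φ) := by
  apply Sh_hom_ext; intro F
  rw [Tr_apply, Sh.lmap_shq]
  have : ∀ g : G, (FRep.Sh W).ρ g (Sh.lmap φ ((FRep.Sh U).ρ g⁻¹ (shq U F))) =
      shq W (fun x => W.ρ g (φ (U.ρ g⁻¹ (F x)))) := by
    intro g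
    rw [shq_ρ, Sh.lmap_shq, shq_ρ]
    congr 1; funext x
    simp
  rw [Finset.sum_congr rfl fun g _ => this g, ← map_sum]
  congr 1
  funext x
  rw [Tr_apply, Finset.sum_apply]

lemma Sh.map_null {U W : FRep K G} {f : EHom U W} (hf : f ∈ Null U W) :
    Sh.map f ∈ Null (FRep.Sh U) (FRep.Sh W) := by
  obtain ⟨φ, hφ⟩ := hf
  exact ⟨Sh.lmap φ, by rw [← Sh.lmap_Tr, hφ]; rfl⟩

lemma Sh.map_cl {U W : FRep K G} {f f' : EHom U W} (h : cl f = cl f') :
    cl (Sh.map f) = cl (Sh.map f') := by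
  rw [cl_eq] at h ⊢
  rw [← map_sub]
  exact Sh.map_null h

/-- A map which factors through functions is null. -/
lemma null_of_factor {U W Z : FRep K G} (F : EHom U (FRep.Fn W)) (q : EHom (FRep.Fn W) Z) :
    (ecomp q F) ∈ Null U Z := by
  classical
  apply Null.comp_left
  refine ⟨(LinearMap.single K (fun _ : G => W.V) 1) ∘ₗ (LinearMap.proj 1) ∘ₗ F.1, ?_⟩
  refine LinearMap.ext fun x => funext fun y => ?_
  rw [Tr_apply]
  show (∑ g : G, (FRep.Fn W).ρ g _ : G → W.V) y = (F.1 x : G → W.V) y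
  rw [Finset.sum_apply, Finset.sum_eq_single y]
  · rw [FRep.Fn_apply]
    simp only [LinearMap.comp_apply, LinearMap.proj_apply, LinearMap.coe_single,
      inv_mul_cancel, Pi.single_eq_same]
    have h := congrFun (F.2 y⁻¹ x) 1
    rw [FRep.Fn_apply] at h
    rw [h, FRep.self_inv]
    simp
  · intro g _ hg
    rw [FRep.Fn_apply]
    simp only [LinearMap.comp_apply, LinearMap.proj_apply, LinearMap.coe_single]
    rw [Pi.single_eq_of_ne, map_zero]
    intro h
    apply hg
    exact (inv_mul_eq_one.mp h)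
  · intro h; exact absurd (Finset.mem_univ _) h

end Null

end Pool.Agent.H34.Gam

end
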