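import Pool.Agent.H34.Gam.Bop

/-!
Definitions for the elementary abelian part, and the dimension functions.
-/

set_option autoImplicit false
set_option linter.unusedSectionVars false

noncomputable section

namespace Pool.Agent.H34.Gam

/-- `cc W = dim W - |G| * rank(norm)`: the dimension of the non-free part for `p`-groups. -/
def cc {K G : Type} [Field K] [Group G] [Fintype G] (W : FRep K G) : ℕ :=
  Module.finrank K W.V - Fintype.card G * Module.finrank K (LinearMap.range (nrm W))

/-- restriction to a subgroup -/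
abbrev FRep.res {K G : Type} [Field K] [Group G] (H : Subgroup G) (W : FRep K G) : FRep K H where
  V := W.V
  ρ := W.ρ.comp H.subtype

/-- isomorphism of representations -/
def Iso {K G : Type} [Field K] [Group G] (U W : FRep K G) : Prop :=
  ∃ f : EHom U W, Function.Bijective f.1

/-- elementary abelian group of rank `r` -/
abbrev Er (p r : ℕ) : Type := Multiplicative (Fin r → ZMod p)

section
variable {K : Type} [Field K] {p r : ℕ} [Fact p.Prime]

/-- basis element -/
def eg (p : ℕ) {r : ℕ} (j : Fin r) : Er p r := Multiplicative.ofAdd (Pi.single j 1)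

/-- `j`-th coordinate in `{0..p-1}` -/
def nj (g : Er p r) (j : Fin r) : ℕ := (Multiplicative.toAdd g j).val

lemma eg_gen (g : Er p r) : g = ∏ j, (eg p j) ^ (nj g j) := by
  apply Multiplicative.toAdd.injective
  rw [toAdd_prod]
  funext i
  rw [Finset.sum_apply, Finset.sum_eq_single i]
  · rw [toAdd_pow]
    simp [eg, nj]
  · intro j _ hj
    rw [toAdd_pow]
    simp [eg, Pi.single_eq_of_ne hj.symm]
  · intro h; exact absurd (Finset.mem_univ _) h

/-- equivariance can be checked on the basis -/
lemma EHom_of_gen {U W : FRep K (Er p r)} (f : U.V →ₗ[K] W.V)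
    (hf : ∀ j x, f (U.ρ (eg p j) x) = W.ρ (eg p j) (f x)) : f ∈ EHom U W := by
  let S : Submonoid (Er p r) :=
    { carrier := {g | ∀ x, f (U.ρ g x) = W.ρ g (f x)}
      mul_mem' := by
        intro g h hg hh x
        rw [FRep.mul_apply, FRep.mul_apply, hg, hh]
      one_mem' := by intro x; simp }
  intro g
  have : g ∈ S := by
    rw [eg_gen g]
    exact Submonoid.prod_mem S fun j _ => Submonoid.pow_mem S (hf j) _
  exact this

/-- the homomorphism `ℤ/p → End` given by an operator with `A ^ p = 1` -/
def zhom {V : Type} [AddCommGroup V] [Module K V] (A : Module.End K V) (hA : A ^ p = 1) :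
    Multiplicative (ZMod p) →* Module.End K V where
  toFun a := A ^ (Multiplicative.toAdd a).val
  map_one' := by simp
  map_mul' a b := by
    rw [← pow_add, toAdd_mul, ZMod.val_add]
    exact (pow_eq_pow_mod _ hA).symm

lemma zhom_comm {V : Type} [AddCommGroup V] [Module K V] (A : Fin r → Module.End K V)
    (hc : ∀ i j, Commute (A i) (A j)) (hp : ∀ j, A j ^ p = 1) :
    Pairwise fun i j => ∀ x y : Multiplicative (ZMod p),
      Commute (zhom (A i) (hp i) x) (zhom (A j) (hp j) y) :=
  fun i j _ _ _ => ((hc i j).pow_left _).pow_right _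

/-- the representation of `Er p r` given by commuting operators `A j` with `A j ^ p = 1` -/
def ofOps {V : Type} [AddCommGroup V] [Module K V] (A : Fin r → Module.End K V)
    (hc : ∀ i j, Commute (A i) (A j)) (hp : ∀ j, A j ^ p = 1) :
    Representation K (Er p r) V :=
  (MonoidHom.noncommPiCoprod (fun j => zhom (A j) (hp j)) (zhom_comm A hc hp)).comp
    { toFun := fun g j => Multiplicative.ofAdd (Multiplicative.toAdd g j)
      map_one' := rfl
      map_mul' := fun _ _ => rfl }

lemma ofOps_eg {V : Type} [AddCommGroup V] [Module K V] (A : Fin r → Module.End K V)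
    (hc : ∀ i j, Commute (A i) (A j)) (hp : ∀ j, A j ^ p = 1) (j : Fin r) :
    (ofOps A hc hp : Representation K (Er p r) V) (eg p j) = A j := by
  have h1 : (fun i => Multiplicative.ofAdd (Multiplicative.toAdd (eg p j) i)) =
      Pi.mulSingle (M := fun _ : Fin r => Multiplicative (ZMod p)) j
        (Multiplicative.ofAdd (1 : ZMod p)) := by
    funext i
    by_cases h : i = j
    · subst h; simp [eg]
    · simp [eg, h]
  have h2 : (ofOps A hc hp : Representation K (Er p r) V) (eg p j) =
      (MonoidHom.noncommPiCoprod (fun j => zhom (A j) (hp j)) (zhom_comm A hc hp))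
        (fun i => Multiplicative.ofAdd (Multiplicative.toAdd (eg p j) i)) := rfl
  have h3 := MonoidHom.noncommPiCoprod_mulSingle (ϕ := fun j => zhom (A j) (hp j))
    (hcomm := zhom_comm A hc hp) j (Multiplicative.ofAdd (1 : ZMod p))
  rw [h2, h1]
  refine h3.trans ?_
  show A j ^ (1 : ZMod p).val = A j
  have : Fact (1 < p) := ⟨(Fact.out : p.Prime).one_lt⟩
  rw [ZMod.val_one]
  exact pow_one _

/-- truncated multiplication by `t` on `Z[t]/(t^m) = (Fin m → Z)` -/
def tmul (m : ℕ) (V : Type) [AddCommGroup V] [Module K V] : Module.End K (Fin m → V) where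
  toFun y n := if h : n.1 = 0 then 0 else y ⟨n.1 - 1, by omega⟩
  map_add' y y' := by
    funext n
    by_cases h : n.1 = 0 <;> simp [h]
  map_smul' c y := by
    funext n
    by_cases h : n.1 = 0 <;> simp [h]

lemma tmul_apply (m : ℕ) (V : Type) [AddCommGroup V] [Module K V] (y : Fin m → V) (n : Fin m) :
    tmul (K := K) m V y n = if h : n.1 = 0 then 0 else y ⟨n.1 - 1, by omega⟩ := rfl

lemma tmul_pow_apply (m : ℕ) (V : Type) [AddCommGroup V] [Module K V] (k : ℕ) (y : Fin m → V)
    (n : Fin m) : (tmul (K := K) m V ^ k) y n =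
      if h : n.1 < k then 0 else y ⟨n.1 - k, by omega⟩ := by
  induction k generalizing n with
  | zero => simp
  | succ k ih =>
    rw [pow_succ', Module.End.mul_apply, tmul_apply]
    by_cases h0 : n.1 = 0
    · rw [dif_pos h0, dif_pos (by omega)]
    · rw [dif_neg h0, ih]
      by_cases h1 : n.1 < k + 1
      · rw [dif_pos (show (⟨n.1 - 1, by omega⟩ : Fin m).1 < k by simp only; omega), dif_pos h1]
      · rw [dif_neg (show ¬ (⟨n.1 - 1, by omega⟩ : Fin m).1 < k by simp only; omega), dif_neg h1]
        congr 1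
        apply Fin.ext
        simp only
        omega

lemma tmul_pow_eq_zero (m k : ℕ) (hk : m ≤ k) (V : Type) [AddCommGroup V] [Module K V] :
    (tmul (K := K) m V) ^ k = 0 := by
  refine LinearMap.ext fun y => funext fun n => ?_
  rw [tmul_pow_apply, dif_pos (by have := n.2; omega)]; rfl

/-- coefficientwise extension of an operator to `Z[t]/(t^m)` -/
def cw (m : ℕ) {V V' : Type} [AddCommGroup V] [Module K V] [AddCommGroup V'] [Module K V']
    (f : V →ₗ[K] V') : (Fin m → V) →ₗ[K] (Fin m → V') := f.compLeft (Fin m)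

@[simp] lemma cw_apply (m : ℕ) {V V' : Type} [AddCommGroup V] [Module K V] [AddCommGroup V']
    [Module K V'] (f : V →ₗ[K] V') (y : Fin m → V) (n : Fin m) : cw m f y n = f (y n) := rfl

lemma cw_tmul (m : ℕ) {V : Type} [AddCommGroup V] [Module K V] (f : V →ₗ[K] V)
    (y : Fin m → V) : cw m f (tmul (K := K) m V y) = tmul (K := K) m V (cw m f y) := by
  funext n
  rw [cw_apply, tmul_apply, tmul_apply]
  by_cases h : n.1 = 0
  · rw [dif_pos h, dif_pos h, map_zero]
  · rw [dif_neg h, dif_neg h]; rfl

variable [CharP K p]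

/-- the operators of `I_w^(m) Z`: `g_j ↦ g_j + w_j t` on `Z[t]/(t^m)` -/
def iwOp (m : ℕ) (w : Fin r → K) (Z : FRep K (Er p r)) (j : Fin r) :
    Module.End K (Fin m → Z.V) :=
  cw m (Z.ρ (eg p j)) + w j • tmul m Z.V

lemma eg_pow (j : Fin r) : (eg p j) ^ p = 1 := by
  apply Multiplicative.toAdd.injective
  rw [toAdd_pow]
  funext i
  simp [eg]

omit [CharP K p] in
lemma rho_comm (Z : FRep K (Er p r)) (g h : Er p r) : Commute (Z.ρ g) (Z.ρ h) := by
  show Z.ρ g * Z.ρ h = Z.ρ h * Z.ρ g
  rw [← map_mul, ← map_mul, mul_comm]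

lemma cw_mul (m : ℕ) {V : Type} [AddCommGroup V] [Module K V] (f g : Module.End K V) :
    (cw m f : Module.End K (Fin m → V)) * cw m g = cw m (f * g) := rfl

lemma iwOp_comm (m : ℕ) (w : Fin r → K) (Z : FRep K (Er p r)) (i j : Fin r) :
    Commute (iwOp m w Z i) (iwOp m w Z j) := by
  have h1 : ∀ f : Module.End K Z.V, Commute (cw m f : Module.End K (Fin m → Z.V))
      (tmul (K := K) m Z.V) := fun f => LinearMap.ext fun y => cw_tmul m f y
  have h2 : Commute (cw m (Z.ρ (eg p i)) : Module.End K (Fin m → Z.V))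
      (cw m (Z.ρ (eg p j))) := by
    show cw m _ * cw m _ = cw m _ * cw m _
    rw [cw_mul, cw_mul, (rho_comm Z _ _).eq]
  unfold iwOp
  refine Commute.add_left ?_ ?_
  · exact h2.add_right ((h1 _).smul_right _)
  · refine Commute.add_right ?_ ?_
    · exact ((h1 _).symm).smul_left _
    · exact ((Commute.refl _).smul_right _).smul_left _

lemma iwOp_pow (m : ℕ) (hm : m ≤ p) (w : Fin r → K) (Z : FRep K (Er p r)) (j : Fin r) :
    iwOp m w Z j ^ p = 1 := by
  have h1 : Commute (cw m (Z.ρ (eg p j)) : Module.End K (Fin m → Z.V))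
      (w j • tmul (K := K) m Z.V) :=
    Commute.smul_right (LinearMap.ext fun y => cw_tmul m _ y) _
  rcases subsingleton_or_nontrivial (Module.End K (Fin m → Z.V)) with hs | hs
  · exact Subsingleton.elim _ _
  · have : CharP (Module.End K (Fin m → Z.V)) p :=
      charP_of_injective_algebraMap (algebraMap K _).injective p
    have h2 : (cw m (Z.ρ (eg p j)) : Module.End K (Fin m → Z.V)) ^ p = 1 := by
      have h3 : ∀ k : ℕ, (cw m (Z.ρ (eg p j)) : Module.End K (Fin m → Z.V)) ^ k =
          cw m (Z.ρ (eg p j ^ k)) := by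
        intro k
        induction k with
        | zero =>
          rw [pow_zero, pow_zero, map_one]; rfl
        | succ k ih => rw [pow_succ, ih, pow_succ, map_mul]; rfl
      rw [h3, eg_pow, map_one]; rfl
    have h4 : (w j • tmul (K := K) m Z.V) ^ p = 0 := by
      rw [smul_pow, tmul_pow_eq_zero m p hm, smul_zero]
    show (cw m (Z.ρ (eg p j)) + w j • tmul m Z.V) ^ p = 1
    rw [add_pow_char_of_commute _ h1, h2, h4, add_zero]

/-- `I_w^(m) Z = Z[t]/(t^m)` with `g_j` acting as `g_j + w_j t` (for `m ≤ p`) -/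
def Iw (m : ℕ) (hm : m ≤ p) (w : Fin r → K) (Z : FRep K (Er p r)) : FRep K (Er p r) where
  V := Fin m → Z.V
  ρ := ofOps (iwOp m w Z) (iwOp_comm m w Z) (iwOp_pow m hm w Z)

lemma Iw_eg (m : ℕ) (hm : m ≤ p) (w : Fin r → K) (Z : FRep K (Er p r)) (j : Fin r) :
    (Iw m hm w Z).ρ (eg p j) = iwOp m w Z j :=
  ofOps_eg (iwOp m w Z) (iwOp_comm m w Z) (iwOp_pow m hm w Z) j

end

end Pool.Agent.H34.Gam

end
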