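import Mathlib

/-!
Commutative algebra (job GAM-POLY).
`bl p v = ∑ j, v_j^p X_j` is the linear form attached to a vector `v`.
-/

set_option autoImplicit false
set_option linter.unusedSectionVars false
noncomputable section
namespace Pool.Agent.H34.Gam
open MvPolynomial
variable {K : Type} [Field K] (p : ℕ) [Fact p.Prime] [CharP K p] {r : ℕ}

/-- the linear form of a vector (Frobenius twisted) -/
def bl (v : Fin r → K) : MvPolynomial (Fin r) K := ∑ j, C (v j ^ p) * X j

/-- substitution `X i ↦ bl (w i)` -/
def lin {n : ℕ} (w : Fin n → Fin r → K) : MvPolynomial (Fin n) K →ₐ[K] MvPolynomial (Fin r) K :=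
  aeval (fun i => bl p (w i))

/-- `S / I` is integral over `K[bl (w 0), …]` -/
def IntMod (I : Ideal (MvPolynomial (Fin r) K)) {n : ℕ} (w : Fin n → Fin r → K) : Prop :=
  ((Ideal.Quotient.mk I).comp (lin p w).toRingHom).IsIntegral

/-- homogeneous ideals -/
def HomIdeal (I : Ideal (MvPolynomial (Fin r) K)) : Prop :=
  ∀ q ∈ I, ∀ d, homogeneousComponent d q ∈ I

lemma bl_add (v w : Fin r → K) : bl p (v + w) = bl p v + bl p w := by
  unfold bl
  rw [← Finset.sum_add_distrib]
  refine Finset.sum_congr rfl fun j _ => ?_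
  rw [Pi.add_apply, add_pow_char, C_add, add_mul]

lemma bl_smul (a : K) (v : Fin r → K) : bl p (a • v) = C (a ^ p) * bl p v := by
  unfold bl
  rw [Finset.mul_sum]
  refine Finset.sum_congr rfl fun j _ => ?_
  rw [Pi.smul_apply, smul_eq_mul, mul_pow, C_mul, mul_assoc]

lemma bl_sub (v w : Fin r → K) : bl p (v - w) = bl p v - bl p w := by
  have h := bl_add p (v - w) w
  rw [sub_add_cancel] at h
  rw [h]; ring

omit [Fact p.Prime] [CharP K p] in
lemma bl_homogeneous' (v : Fin r → K) : (bl p v).IsHomogeneous 1 := by
  unfold bl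
  exact IsHomogeneous.sum _ _ _ fun j _ => isHomogeneous_C_mul_X _ _

lemma bl_homogeneous (v : Fin r → K) : (bl p v).IsHomogeneous 1 := bl_homogeneous' p v

lemma lin_homogeneous {n : ℕ} (w : Fin n → Fin r → K) {d : ℕ} {q : MvPolynomial (Fin n) K}
    (hq : q.IsHomogeneous d) : (lin p w q).IsHomogeneous d := by
  have := hq.aeval (fun i => bl p (w i)) (n := 1) (fun i => bl_homogeneous p (w i))
  simpa [lin] using this

/-- everything is integral over the full ring -/
theorem intMod_top (I : Ideal (MvPolynomial (Fin r) K)) :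
    IntMod p I (fun i : Fin r => (Pi.single i 1 : Fin r → K)) := by
  have h : lin p (fun i : Fin r => (Pi.single i 1 : Fin r → K)) = AlgHom.id K _ := by
    ext i
    simp only [lin, aeval_X, AlgHom.id_apply]
    congr 1
    unfold bl
    rw [Finset.sum_eq_single i]
    · simp
    · intro j _ hj
      simp [Pi.single_eq_of_ne hj, (Fact.out : p.Prime).ne_zero]
    · simp
  unfold IntMod
  rw [h]
  exact RingHom.isIntegral_of_surjective _ (by
    intro x
    obtain ⟨y, rfl⟩ := Ideal.Quotient.mk_surjective x
    exact ⟨y, rfl⟩)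

lemma hc_lin_mul {n : ℕ} (w : Fin n → Fin r → K) (a : MvPolynomial (Fin n) K)
    (y : MvPolynomial (Fin r) K) {i N : ℕ} (hy : y.IsHomogeneous i) (hi : i ≤ N) :
    homogeneousComponent N (lin p w a * y) = lin p w (homogeneousComponent (N - i) a) * y := by
  have h1 : lin p w a * y = ∑ e ∈ Finset.range (a.totalDegree + 1),
      lin p w (homogeneousComponent e a) * y := by
    conv_lhs => rw [← sum_homogeneousComponent a]
    rw [map_sum, Finset.sum_mul]
  rw [h1, map_sum]
  have h2 : ∀ e ∈ Finset.range (a.totalDegree + 1),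
      homogeneousComponent N (lin p w (homogeneousComponent e a) * y) =
        if e = N - i then lin p w (homogeneousComponent e a) * y else 0 := by
    intro e _
    have h3 : lin p w (homogeneousComponent e a) * y ∈ homogeneousSubmodule (Fin r) K (e + i) :=
      (lin_homogeneous p w (homogeneousComponent_isHomogeneous e a)).mul hy
    rw [homogeneousComponent_of_mem h3]
    by_cases h : N = e + i
    · rw [if_pos h, if_pos (by omega)]
    · rw [if_neg h, if_neg (by omega)]
  rw [Finset.sum_congr rfl h2, Finset.sum_ite_eq']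
  split_ifs with h
  · rfl
  · rw [homogeneousComponent_eq_zero, map_zero, zero_mul]
    rw [Finset.mem_range] at h
    omega

/-- integrality of `bl v` gives a relation, homogeneous of degree `n` -/
lemma exists_hom_rel (I : Ideal (MvPolynomial (Fin r) K)) (hI : HomIdeal I) {m : ℕ}
    (w : Fin m → Fin r → K) (h : IntMod p I w) (v : Fin r → K) :
    ∃ (n : ℕ) (c : ℕ → MvPolynomial (Fin m) K), (∀ i, (c i).IsHomogeneous (n - i)) ∧ c n = 1 ∧
      ∑ i ∈ Finset.range (n + 1), lin p w (c i) * bl p v ^ i ∈ I := by
  obtain ⟨f, hf, h0⟩ := h (Ideal.Quotient.mk I (bl p v))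
  have h1 : ∑ i ∈ Finset.range (f.natDegree + 1), lin p w (f.coeff i) * bl p v ^ i ∈ I := by
    rw [← Ideal.Quotient.eq_zero_iff_mem, ← h0, Polynomial.eval₂_eq_sum_range, map_sum]
    refine Finset.sum_congr rfl fun i _ => ?_
    rw [map_mul, map_pow]
    rfl
  refine ⟨f.natDegree, fun i => homogeneousComponent (f.natDegree - i) (f.coeff i),
    fun i => homogeneousComponent_isHomogeneous _ _, ?_, ?_⟩
  · have : f.coeff f.natDegree = 1 := hf
    simp [this, homogeneousComponent_zero]
  · have h2 := hI _ h1 f.natDegree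
    rw [map_sum] at h2
    convert h2 using 2 with i hi
    rw [hc_lin_mul p w _ _ (i := i) ?_ (by
      rw [Finset.mem_range] at *; omega)]
    simpa using (bl_homogeneous p v).pow i

/-- no variables: all linear forms are nilpotent mod `I` -/
theorem intMod_zero (I : Ideal (MvPolynomial (Fin r) K)) (hI : HomIdeal I)
    (w : Fin 0 → Fin r → K) (h : IntMod p I w) (v : Fin r → K) : ∃ m : ℕ, bl p v ^ m ∈ I := by
  obtain ⟨n, c, hc, hn, hs⟩ := exists_hom_rel p I hI w h v
  refine ⟨n, ?_⟩
  rw [Finset.sum_range_succ, Finset.sum_eq_zero, hn, map_one, one_mul, zero_add] at hs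
  · exact hs
  · intro i hi
    rw [Finset.mem_range] at hi
    have h1 : (c i) = 0 := by
      by_contra h0
      have h3 : (c i).IsHomogeneous 0 := by
        rw [eq_C_of_isEmpty (c i)]
        exact isHomogeneous_C _ _
      have h2 := (hc i).inj_right h3 h0
      omega
    rw [h1, map_zero, zero_mul]

open Polynomial in
lemma coeff_linsub {ι A : Type} [Fintype ι] [CommRing A] [Algebra K A] (a b : ι → A)
    (h : MvPolynomial ι K) (d : ℕ) (hd : h.IsHomogeneous d) :
    (MvPolynomial.aeval (fun i => (Polynomial.C (a i) + Polynomial.C (b i) * Polynomial.X : A[X])) h).natDegree ≤ d ∧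
    (MvPolynomial.aeval (fun i => (Polynomial.C (a i) + Polynomial.C (b i) * Polynomial.X : A[X])) h).coeff d =
      MvPolynomial.aeval b h := by
  classical
  have key : ∀ m : ι →₀ ℕ, m.degree = d →
      (∏ i, (Polynomial.C (a i) + Polynomial.C (b i) * Polynomial.X : A[X]) ^ m i).natDegree ≤ d ∧
      (∏ i, (Polynomial.C (a i) + Polynomial.C (b i) * Polynomial.X : A[X]) ^ m i).coeff d = ∏ i, b i ^ m i := by
    intro m hm
    have hl : ∀ i, (Polynomial.C (a i) + Polynomial.C (b i) * Polynomial.X : A[X]).natDegree ≤ 1 := by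
      intro i
      rw [add_comm]
      exact Polynomial.natDegree_linear_le
    have hc : ∀ i, (Polynomial.C (a i) + Polynomial.C (b i) * Polynomial.X : A[X]).coeff 1 = b i := by
      intro i
      simp
    have gen : ∀ s : Finset ι,
        (∏ i ∈ s, (Polynomial.C (a i) + Polynomial.C (b i) * Polynomial.X : A[X]) ^ m i).natDegree ≤ ∑ i ∈ s, m i ∧
        (∏ i ∈ s, (Polynomial.C (a i) + Polynomial.C (b i) * Polynomial.X : A[X]) ^ m i).coeff (∑ i ∈ s, m i) = ∏ i ∈ s, b i ^ m i := by
      intro s
      induction s using Finset.induction_on with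
      | empty => simp
      | insert i s hi ih =>
        rw [Finset.prod_insert hi, Finset.sum_insert hi, Finset.prod_insert hi]
        have h1 : ((Polynomial.C (a i) + Polynomial.C (b i) * Polynomial.X : A[X]) ^ m i).natDegree ≤ m i := by
          refine (Polynomial.natDegree_pow_le).trans ?_
          calc m i * _ ≤ m i * 1 := Nat.mul_le_mul_left _ (hl i)
            _ = m i := mul_one _
        refine ⟨Polynomial.natDegree_mul_le.trans (add_le_add h1 ih.1), ?_⟩
        rw [Polynomial.coeff_mul_add_eq_of_natDegree_le h1 ih.1, ih.2]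
        congr 1
        have := Polynomial.coeff_pow_of_natDegree_le (m := m i) (hl i)
        rw [mul_one, hc] at this
        exact this
    have h2 := gen Finset.univ
    have h3 : ∑ i, m i = d := by
      rw [← hm, Finsupp.degree_eq_sum]
    rw [h3] at h2
    exact h2
  rw [MvPolynomial.aeval_def, MvPolynomial.eval₂_eq', MvPolynomial.aeval_def, MvPolynomial.eval₂_eq']
  constructor
  · refine Polynomial.natDegree_sum_le_of_forall_le _ _ fun m hm => ?_
    have hdm : m.degree = d := by
      by_contra hne
      exact (MvPolynomial.mem_support_iff.1 hm) (hd.coeff_eq_zero hne)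
    refine (Polynomial.natDegree_mul_le).trans ?_
    have h4 : ((algebraMap K A[X]) (MvPolynomial.coeff m h)).natDegree = 0 := by
      rw [Polynomial.algebraMap_apply, Polynomial.natDegree_C]
    rw [h4, zero_add]
    exact (key m hdm).1
  · rw [Polynomial.finsetSum_coeff]
    refine Finset.sum_congr rfl fun m hm => ?_
    have hdm : m.degree = d := by
      by_contra hne
      exact (MvPolynomial.mem_support_iff.1 hm) (hd.coeff_eq_zero hne)
    rw [Polynomial.algebraMap_apply, Polynomial.coeff_C_mul, (key m hdm).2]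

lemma eval_smul_hom {ι : Type} [Fintype ι] (h : MvPolynomial ι K) (d : ℕ) (hd : h.IsHomogeneous d)
    (c : K) (P : ι → K) : eval (fun i => c * P i) h = c ^ d * eval P h := by
  rw [eval_eq', eval_eq', Finset.mul_sum]
  refine Finset.sum_congr rfl fun m hm => ?_
  have hdm : m.degree = d := by
    by_contra hne
    exact (MvPolynomial.mem_support_iff.1 hm) (hd.coeff_eq_zero hne)
  have h1 : ∏ i, (c * P i) ^ m i = c ^ d * ∏ i, P i ^ m i := by
    simp only [mul_pow]
    rw [Finset.prod_mul_distrib, Finset.prod_pow_eq_pow_sum, ← hdm, Finsupp.degree_eq_sum]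
  rw [h1]; ring

/-- the transitivity argument -/
lemma integral_of_two {A B S : Type} [CommRing A] [CommRing B] [CommRing S]
    (φ : A →+* S) (ψ : B →+* S) (hψ : ψ.IsIntegral) (Y : S) (hY : φ.IsIntegralElem Y)
    (κ : B →+* Polynomial A) (hκ : (Polynomial.eval₂RingHom φ Y).comp κ = ψ) : φ.IsIntegral := by
  let _ : Algebra A S := φ.toAlgebra
  intro s
  have hY' : IsIntegral A Y := hY
  obtain ⟨f, hf, h0⟩ := hψ s
  have hmem : ∀ g : Polynomial A, Polynomial.eval₂RingHom φ Y g ∈ integralClosure A S := by
    intro g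
    rw [Polynomial.coe_eval₂RingHom, Polynomial.eval₂_eq_sum_range]
    refine Subalgebra.sum_mem _ fun i _ => ?_
    refine Subalgebra.mul_mem _ ?_ (Subalgebra.pow_mem _ hY' _)
    exact isIntegral_algebraMap (R := A) (A := S) (x := g.coeff i)
  let θ : Polynomial A →+* integralClosure A S :=
    (Polynomial.eval₂RingHom φ Y).codRestrict (integralClosure A S).toSubring hmem
  have hs : IsIntegral (integralClosure A S) s := by
    refine ⟨f.map (θ.comp κ), hf.map _, ?_⟩
    rw [Polynomial.eval₂_map, ← h0]
    congr 1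
  exact isIntegral_trans (R := A) (A := integralClosure A S) s hs

/-- dropping one variable after killing a nonzero form -/
theorem intMod_step [IsAlgClosed K] {z : ℕ} (I J : Ideal (MvPolynomial (Fin r) K))
    (w : Fin (z + 1) → Fin r → K) (hw : LinearIndependent K w) (hI : IntMod p I w)
    (h : MvPolynomial (Fin (z + 1)) K) (h0 : h ≠ 0) (d : ℕ) (hd : h.IsHomogeneous d)
    (hJ1 : (lin p w h) ^ 2 ∈ J) (hJ2 : I * I ≤ J) :
    ∃ w' : Fin z → Fin r → K, LinearIndependent K w' ∧ IntMod p J w' := by
  classical
  have : Infinite K := IsAlgClosed.instInfinite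
  have hp : 0 < p := (Fact.out : p.Prime).pos
  -- a point
  obtain ⟨P, hP⟩ : ∃ P : Fin (z + 1) → K, eval P (h * X (Fin.last z)) ≠ 0 := by
    by_contra hcon
    push Not at hcon
    have : h * X (Fin.last z) = 0 := MvPolynomial.funext (by simpa using hcon)
    rcases mul_eq_zero.1 this with h1 | h1
    · exact h0 h1
    · exact X_ne_zero _ h1
  rw [map_mul, eval_X] at hP
  have hPh : eval P h ≠ 0 := left_ne_zero_of_mul hP
  have hPz : P (Fin.last z) ≠ 0 := right_ne_zero_of_mul hP
  let τ : Fin (z + 1) → K := fun i => (P (Fin.last z))⁻¹ * P i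
  have hτz : τ (Fin.last z) = 1 := by simp [τ, hPz]
  have hτh : eval τ h ≠ 0 := by
    have h1 : eval τ h = (P (Fin.last z))⁻¹ ^ d * eval P h := eval_smul_hom h d hd _ _
    rw [h1]
    exact mul_ne_zero (pow_ne_zero _ (inv_ne_zero hPz)) hPh
  choose σ hσ using fun i : Fin z => IsAlgClosed.exists_pow_nat_eq (τ i.castSucc) hp
  let w' : Fin z → Fin r → K := fun i => w i.castSucc - σ i • w (Fin.last z)
  refine ⟨w', ?_, ?_⟩
  · rw [Fintype.linearIndependent_iff] at hw ⊢
    intro g hg
    have h1 := hw (Fin.lastCases (- ∑ i, g i * σ i) g) (by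
      rw [Fin.sum_univ_castSucc]
      simp only [Fin.lastCases_castSucc, Fin.lastCases_last]
      rw [← hg]
      simp only [w', smul_sub, Finset.sum_sub_distrib, neg_smul, Finset.sum_smul, smul_smul]
      abel)
    intro i
    have := h1 i.castSucc
    simpa using this
  · have hψ : ((Ideal.Quotient.mk J).comp (lin p w).toRingHom).IsIntegral := by
      intro s
      obtain ⟨s, rfl⟩ := Ideal.Quotient.mk_surjective s
      obtain ⟨f, hf, h0⟩ := hI (Ideal.Quotient.mk I s)
      refine ⟨f * f, hf.mul hf, ?_⟩
      rw [← Polynomial.hom_eval₂] at h0 ⊢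
      rw [Ideal.Quotient.eq_zero_iff_mem] at h0 ⊢
      rw [Polynomial.eval₂_mul]
      exact hJ2 (Ideal.mul_mem_mul h0 h0)
    let κ : MvPolynomial (Fin (z + 1)) K →ₐ[K] Polynomial (MvPolynomial (Fin z) K) :=
      aeval (fun i => (Polynomial.C (Fin.lastCases 0 (fun j => X j) i : MvPolynomial (Fin z) K)
        + Polynomial.C (C (τ i)) * Polynomial.X))
    have hκ0 : ∀ q, Polynomial.eval₂ (lin p w').toRingHom (bl p (w (Fin.last z))) (κ q) = lin p w q := by
      intro q
      have : ((Polynomial.eval₂RingHom (lin p w').toRingHom (bl p (w (Fin.last z)))).comp κ.toRingHom)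
          = (lin p w).toRingHom := by
        refine MvPolynomial.ringHom_ext ?_ ?_
        · intro c
          simp [κ]
        · intro i
          refine Fin.lastCases ?_ (fun j => ?_) i
          · simp [κ, lin, hτz]
          · simp [κ, lin, w', bl_sub, bl_smul, hσ]
      exact RingHom.congr_fun this q
    refine integral_of_two ((Ideal.Quotient.mk J).comp (lin p w').toRingHom)
      ((Ideal.Quotient.mk J).comp (lin p w).toRingHom) hψ (Ideal.Quotient.mk J (bl p (w (Fin.last z))))
      ?_ κ.toRingHom ?_
    · have hk := coeff_linsub (K := K) (A := MvPolynomial (Fin z) K)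
        (fun i => (Fin.lastCases 0 (fun j => X j) i : MvPolynomial (Fin z) K)) (fun i => C (τ i)) h d hd
      have hk1 : (κ h).natDegree ≤ d := hk.1
      have hk2 : (κ h).coeff d = C (eval τ h) := by
        have := hk.2
        rw [show (κ h).coeff d = _ from this]
        have h5 : (aeval (fun i => (C (τ i) : MvPolynomial (Fin z) K)) : MvPolynomial (Fin (z + 1)) K →ₐ[K] MvPolynomial (Fin z) K)
            = (Algebra.ofId K (MvPolynomial (Fin z) K)).comp (aeval τ) := by
          ext i
          simp [Algebra.ofId_apply, algebraMap_eq]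
        rw [h5]
        simp [Algebra.ofId_apply, algebraMap_eq]
      let g : Polynomial (MvPolynomial (Fin z) K) := Polynomial.C (C (eval τ h)⁻¹) * κ h
      have hg : g.Monic := by
        refine Polynomial.monic_of_natDegree_le_of_coeff_eq_one d ?_ ?_
        · refine (Polynomial.natDegree_C_mul_le _ _).trans hk1
        · rw [Polynomial.coeff_C_mul, hk2, ← C_mul, inv_mul_cancel₀ hτh, C_1]
      refine ⟨g ^ 2, hg.pow 2, ?_⟩
      rw [← Polynomial.hom_eval₂, Ideal.Quotient.eq_zero_iff_mem]
      rw [Polynomial.eval₂_pow, Polynomial.eval₂_mul, hκ0, mul_pow]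
      exact Ideal.mul_mem_left _ _ hJ1
    · refine RingHom.ext fun q => ?_
      have h6 := congrArg (Ideal.Quotient.mk J) (hκ0 q)
      rw [Polynomial.hom_eval₂] at h6
      exact h6

lemma scaleRoots_prod {R : Type} [CommRing R] [IsDomain R] (s : Multiset R) (b : R) :
    ((s.map (fun a => (Polynomial.X - Polynomial.C a : Polynomial R))).prod).scaleRoots b =
      (s.map (fun a => (Polynomial.X - Polynomial.C (a * b) : Polynomial R))).prod := by
  induction s using Multiset.induction with
  | empty =>
    simp only [Multiset.map_zero, Multiset.prod_zero]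
    ext i
    rw [Polynomial.coeff_scaleRoots]
    by_cases hi : i = 0
    · subst hi; simp
    · simp [Polynomial.coeff_one, hi]
  | cons a s ih =>
    rw [Multiset.map_cons, Multiset.prod_cons, Multiset.map_cons, Multiset.prod_cons,
      Polynomial.mul_scaleRoots_of_noZeroDivisors, ih]
    congr 1
    ext i
    rw [Polynomial.coeff_scaleRoots, Polynomial.natDegree_X_sub_C]
    match i with
    | 0 => simp
    | 1 => simp
    | (i + 2) => simp [Polynomial.coeff_X]

lemma aeval_smul_hom {ι A : Type} [Fintype ι] [CommRing A] [Algebra K A] (h : MvPolynomial ι K) (d : ℕ)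
    (hd : h.IsHomogeneous d) (b : A) (P : ι → K) :
    aeval (fun i => algebraMap K A (P i) * b) h = algebraMap K A (eval P h) * b ^ d := by
  rw [aeval_def, eval₂_eq', eval_eq', map_sum, Finset.sum_mul]
  refine Finset.sum_congr rfl fun m hm => ?_
  have hdm : m.degree = d := by
    by_contra hne
    exact (MvPolynomial.mem_support_iff.1 hm) (hd.coeff_eq_zero hne)
  have h1 : ∏ i, (algebraMap K A (P i) * b) ^ m i = (∏ i, algebraMap K A (P i) ^ m i) * b ^ d := by
    simp only [mul_pow]
    rw [Finset.prod_mul_distrib, Finset.prod_pow_eq_pow_sum, ← hdm, Finsupp.degree_eq_sum]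
  rw [h1, map_mul, map_prod]
  simp only [map_pow]
  ring

/-- split relations: modulo `I + (bl (w 1), …, bl (w z))` every linear form `bl v` satisfies a
split homogeneous relation over `K[bl (w 0)]`. -/
theorem intMod_forms [IsAlgClosed K] {z : ℕ} (I : Ideal (MvPolynomial (Fin r) K))
    (hhom : HomIdeal I) (w : Fin (z + 1) → Fin r → K) (hI : IntMod p I w) (v : Fin r → K) :
    ∃ (n : ℕ) (a : Fin n → K), ∏ k, bl p (v - a k • w 0) ∈
      I ⊔ Ideal.span (Set.range (fun i : Fin z => bl p (w i.succ))) := by
  classical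
  have hp : 0 < p := (Fact.out : p.Prime).pos
  obtain ⟨n, c, hc, hn, hs⟩ := exists_hom_rel p I hhom w hI v
  set I' := I ⊔ Ideal.span (Set.range (fun i : Fin z => bl p (w i.succ))) with hI'
  let P : Fin (z + 1) → K := Fin.cons 1 0
  let g : Polynomial K := ∑ i ∈ Finset.range (n + 1), Polynomial.C (eval P (c i)) * Polynomial.X ^ i
  have hgc : ∀ i, i ≤ n → g.coeff i = eval P (c i) := by
    intro i hi
    simp only [g, Polynomial.finsetSum_coeff, Polynomial.coeff_C_mul, Polynomial.coeff_X_pow]
    rw [Finset.sum_eq_single i]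
    · simp
    · intro j _ hj
      simp [Ne.symm hj]
    · intro h
      exact absurd (Finset.mem_range.2 (by omega)) h
  have hgd : g.natDegree ≤ n := by
    refine Polynomial.natDegree_sum_le_of_forall_le _ _ fun i hi => ?_
    refine (Polynomial.natDegree_C_mul_X_pow_le _ _).trans ?_
    rw [Finset.mem_range] at hi
    omega
  have hgm : g.Monic := Polynomial.monic_of_natDegree_le_of_coeff_eq_one n hgd (by
    rw [hgc n le_rfl, hn, map_one])
  have hgn : g.natDegree = n := by
    refine le_antisymm hgd ?_
    refine Polynomial.le_natDegree_of_ne_zero ?_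
    rw [hgc n le_rfl, hn, map_one]
    exact one_ne_zero
  -- the relation with constant coefficients
  have hrel : ∑ i ∈ Finset.range (n + 1), C (eval P (c i)) * bl p (w 0) ^ (n - i) * bl p v ^ i ∈ I' := by
    have hs' : Ideal.Quotient.mk I' (∑ i ∈ Finset.range (n + 1), lin p w (c i) * bl p v ^ i) = 0 :=
      Ideal.Quotient.eq_zero_iff_mem.2 (Ideal.mem_sup_left hs)
    rw [← Ideal.Quotient.eq_zero_iff_mem, ← hs', map_sum, map_sum]
    refine Finset.sum_congr rfl fun i _ => ?_
    rw [map_mul, map_mul _ (lin p w (c i))]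
    congr 1
    have h1 : Ideal.Quotient.mk I' (lin p w (c i)) =
        aeval (fun j => algebraMap K (MvPolynomial (Fin r) K ⧸ I') (P j) * Ideal.Quotient.mk I' (bl p (w 0))) (c i) := by
      have h2 : ((Ideal.Quotient.mkₐ K I').comp (lin p w)) =
          aeval (fun j => algebraMap K (MvPolynomial (Fin r) K ⧸ I') (P j) * Ideal.Quotient.mk I' (bl p (w 0))) := by
        ext j
        refine Fin.cases ?_ (fun k => ?_) j
        · simp [P, lin]
        · have h3 : Ideal.Quotient.mk I' (bl p (w k.succ)) = 0 :=
            Ideal.Quotient.eq_zero_iff_mem.2 (Ideal.mem_sup_right (Ideal.subset_span ⟨k, rfl⟩))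
          simp [P, lin, h3]
      exact DFunLike.congr_fun h2 (c i)
    rw [h1, aeval_smul_hom (c i) (n - i) (hc i), map_mul, map_pow]
    rfl
  -- splitting
  have hroots : (g.roots.map (fun a => (Polynomial.X - Polynomial.C a : Polynomial K))).prod = g :=
    ((IsAlgClosed.splits g).eq_prod_roots_of_monic hgm).symm
  let f : K → K := fun α => Classical.choose (IsAlgClosed.exists_pow_nat_eq α hp)
  have hf : ∀ α, f α ^ p = α := fun α => Classical.choose_spec (IsAlgClosed.exists_pow_nat_eq α hp)
  have hprod : (g.roots.map (fun α => bl p (v - f α • w 0))).prod ∈ I' := by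
    have h1 : (g.roots.map (fun α => bl p (v - f α • w 0))).prod =
        ∑ i ∈ Finset.range (n + 1), C (eval P (c i)) * bl p (w 0) ^ (n - i) * bl p v ^ i := by
      have h2 : ((g.map (C : K →+* MvPolynomial (Fin r) K)).scaleRoots (bl p (w 0))).eval (bl p v) =
          (g.roots.map (fun α => bl p (v - f α • w 0))).prod := by
        rw [← hroots, Polynomial.map_multiset_prod, Multiset.map_map]
        have h3 : (g.roots.map (Polynomial.map (C : K →+* MvPolynomial (Fin r) K) ∘ fun a => (Polynomial.X - Polynomial.C a : Polynomial K))) =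
            ((g.roots.map (C : K →+* MvPolynomial (Fin r) K)).map (fun a => (Polynomial.X - Polynomial.C a : Polynomial (MvPolynomial (Fin r) K)))) := by
          rw [Multiset.map_map]
          refine Multiset.map_congr rfl fun a _ => ?_
          simp
        rw [h3, scaleRoots_prod, Multiset.map_map, Polynomial.eval_multiset_prod, Multiset.map_map]
        rw [hroots]
        congr 1
        refine Multiset.map_congr rfl fun a _ => ?_
        simp [bl_sub, bl_smul, hf]
      rw [← h2, Polynomial.eval_eq_sum_range, Polynomial.natDegree_scaleRoots,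
        Polynomial.natDegree_map_eq_of_injective (C_injective _ _), hgn]
      refine Finset.sum_congr rfl fun i hi => ?_
      rw [Polynomial.coeff_scaleRoots, Polynomial.natDegree_map_eq_of_injective (C_injective _ _), hgn,
        Polynomial.coeff_map, hgc i (by rw [Finset.mem_range] at hi; omega)]
    rw [h1]
    exact hrel
  refine ⟨g.roots.toList.length, fun k => f (g.roots.toList.get k), ?_⟩
  convert hprod using 1
  conv_rhs => rw [← Multiset.coe_toList g.roots]
  rw [Multiset.map_coe, Multiset.prod_coe, ← List.prod_ofFn]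
  congr 1
  refine List.ext_getElem ?_ ?_
  · simp
  · intro i h1 h2
    simp

end Pool.Agent.H34.Gam

end
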