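import Pool.Agent.H34.Gam.EDefs
import Pool.Agent.H34.Gam.Poly

/-!
Further definitions for the elementary abelian part: operators `uop`, `kap`, iterated `Iws`,
the classes `bE`, `bw`, annihilators.
-/

set_option autoImplicit false
set_option linter.unusedSectionVars false

noncomputable section

namespace Pool.Agent.H34.Gam

open Module

variable {K : Type} [Field K] {p r : ℕ} [Fact p.Prime]

/-- the operator `∑ j, c j (g_j - 1)` on `Z` -/
def uop (c : Fin r → K) (Z : FRep K (Er p r)) : Module.End K Z.V :=
  ∑ j, c j • (Z.ρ (eg p j) - 1)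

/-- dimension of the non-free part with respect to `uop c` -/
def kap (c : Fin r → K) (Z : FRep K (Er p r)) : ℕ :=
  finrank K Z.V - p * finrank K (LinearMap.range (uop c Z ^ (p - 1)))

/-- the carry cochain of the `j`-th coordinate -/
def bE (j : Fin r) : BF K (Er p r) :=
  ⟨fun g h => if nj g j < nj h j then 1 else 0, by
    intro k
    refine ⟨fun g => - (if nj g j < nj k j then 1 else 0), fun h => if nj h j < nj k j then 1 else 0,
      fun g h => ?_⟩
    have hp : 0 < p := (Fact.out : p.Prime).pos
    have key : ∀ x : Er p r, nj (k⁻¹ * x) j + nj k j =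
        nj x j + (if nj x j < nj k j then p else 0) := by
      intro x
      have hx : nj x j < p := ZMod.val_lt _
      have hk : nj k j < p := ZMod.val_lt _
      have hy : nj (k⁻¹ * x) j < p := ZMod.val_lt _
      have h1 : (nj (k⁻¹ * x) j + nj k j) % p = nj x j := by
        have : (Multiplicative.toAdd x j) =
            Multiplicative.toAdd (k⁻¹ * x) j + Multiplicative.toAdd k j := by
          simp
        unfold nj
        conv_rhs => rw [this]
        rw [ZMod.val_add]
      by_cases hlt : nj x j < nj k j
      · rw [if_pos hlt]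
        have : ¬ nj (k⁻¹ * x) j + nj k j < p := by
          intro h2
          rw [Nat.mod_eq_of_lt h2] at h1
          omega
        have h3 : nj (k⁻¹ * x) j + nj k j - p < p := by omega
        have h4 : (nj (k⁻¹ * x) j + nj k j) % p = nj (k⁻¹ * x) j + nj k j - p := by
          rw [Nat.mod_eq_sub_mod (by omega), Nat.mod_eq_of_lt h3]
        omega
      · rw [if_neg hlt]
        by_cases h2 : nj (k⁻¹ * x) j + nj k j < p
        · rw [Nat.mod_eq_of_lt h2] at h1; omega
        · have h3 : nj (k⁻¹ * x) j + nj k j - p < p := by omega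
          have h4 : (nj (k⁻¹ * x) j + nj k j) % p = nj (k⁻¹ * x) j + nj k j - p := by
            rw [Nat.mod_eq_sub_mod (by omega), Nat.mod_eq_of_lt h3]
          omega
    have kg := key g
    have kh := key h
    have hg : nj g j < p := ZMod.val_lt _
    have hh : nj h j < p := ZMod.val_lt _
    by_cases a1 : nj g j < nj k j <;> by_cases a2 : nj h j < nj k j <;>
      by_cases a3 : nj g j < nj h j <;>
      by_cases a4 : nj (k⁻¹ * g) j < nj (k⁻¹ * h) j <;>
      simp only [a1, a2, a3, a4, if_true, if_false] at kg kh ⊢ <;>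
      first
        | (exfalso; omega)
        | simp⟩

/-- the class attached to a vector `w` -/
def bw (w : Fin r → K) : BF K (Er p r) := ∑ j, (w j) ^ p • bE j

/-- action of `K[b_1, …, b_r]` -/
def actE (U W : FRep K (Er p r)) : MvPolynomial (Fin r) K →ₐ[K] Module.End K (HH U W) :=
  act (bE (K := K) (p := p)) U W

lemma bop_sum {G : Type} [Group G] [Fintype G] {ι : Type} (s : Finset ι) (f : ι → BF K G)
    (U W : FRep K G) : bop (∑ j ∈ s, f j) U W = ∑ j ∈ s, bop (f j) U W := by
  classical
  induction s using Finset.induction_on with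
  | empty =>
    rw [Finset.sum_empty, Finset.sum_empty]
    have := bop_smul (0 : K) (0 : BF K G) U W
    rwa [zero_smul K (0 : BF K G), zero_smul] at this
  | insert a s ha ih => rw [Finset.sum_insert ha, Finset.sum_insert ha, bop_add, ih]

lemma bop_bw (w : Fin r → K) (U W : FRep K (Er p r)) :
    bop (bw w) U W = actE U W (bl p w) := by
  rw [bw, bop_sum, bl, map_sum]
  refine Finset.sum_congr rfl fun j _ => ?_
  have hC : actE U W (MvPolynomial.C (w j ^ p)) = (w j ^ p) • 1 :=
    cact_C (fun i => bop (bE i) U W) (bop_comm' bE U W) (w j ^ p)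
  have hX : actE U W (MvPolynomial.X j) = bop (bE j) U W := act_X _ _ _ _
  rw [bop_smul, map_mul, hC, hX, smul_mul_assoc, one_mul]

lemma act_bw {n : ℕ} (w : Fin n → Fin r → K) (U W : FRep K (Er p r))
    (q : MvPolynomial (Fin n) K) :
    act (fun i => bw (w i)) U W q = actE U W (lin p w q) := by
  have h := cact_unique (fun i => bop (bw (w i)) U W) (bop_comm' (fun i => bw (w i)) U W)
    ((actE U W).comp (lin p w)) (fun i => by
      rw [AlgHom.comp_apply, bop_bw, lin, MvPolynomial.aeval_X])
  exact (DFunLike.congr_fun h q).symm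

/-- the annihilator of all `HH U A` -/
def Ann (A : FRep K (Er p r)) : Ideal (MvPolynomial (Fin r) K) where
  carrier := {q | ∀ (U : FRep K (Er p r)) (x : HH U A), actE U A q x = 0}
  add_mem' := by
    intro a b ha hb U x
    rw [map_add, LinearMap.add_apply, ha U x, hb U x, add_zero]
  zero_mem' := by intro U x; rw [map_zero]; rfl
  smul_mem' := by
    intro c q hq U x
    rw [smul_eq_mul, map_mul]
    show actE U A c (actE U A q x) = 0
    rw [hq U x, map_zero]

lemma mem_Ann {A : FRep K (Er p r)} {q : MvPolynomial (Fin r) K} :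
    q ∈ Ann A ↔ ∀ (U : FRep K (Er p r)) (x : HH U A), actE U A q x = 0 := Iff.rfl

/-- only homogeneous elements have to be tested -/
lemma mem_Ann_of_deg {A : FRep K (Er p r)} {q : MvPolynomial (Fin r) K} {d : ℕ}
    (hd : q.IsHomogeneous d)
    (h : ∀ (U : FRep K (Er p r)) (n : ℕ), ∀ x ∈ deg n U A, actE U A q x = 0) : q ∈ Ann A := by
  intro U x
  obtain ⟨η, hη⟩ := act_repr (bE (K := K) (p := p) (r := r)) hd (2 * d) rfl A
  have h0 : push U η x = 0 := by
    funext a
    have h1 := h U a (sgl a U A (x a)) (sgl_mem a U A (x a))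
    rw [actE, hη] at h1
    have h2 : push U η (sgl a U A (x a)) = 0 := sgN_injective _ _ _ (by rw [h1, map_zero])
    have h3 := congrFun h2 a
    rw [push_apply, sgl_same] at h3
    rw [push_apply, h3]
  rw [actE, hη, h0, map_zero]

lemma Ann_hom (A : FRep K (Er p r)) : HomIdeal (Ann A) := by
  intro q hq d
  refine mem_Ann_of_deg (MvPolynomial.homogeneousComponent_isHomogeneous d q) fun U n x hx => ?_
  have hdeg : ∀ e, actE U A (MvPolynomial.homogeneousComponent e q) x ∈ deg (n + 2 * e) U A :=
    fun e => act_deg _ U A (MvPolynomial.homogeneousComponent_isHomogeneous e q) hx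
  by_cases hd : d ∈ Finset.range (q.totalDegree + 1)
  · have h1 : ∑ e ∈ Finset.range (q.totalDegree + 1),
        actE U A (MvPolynomial.homogeneousComponent e q) x = 0 := by
      have h2 := hq U x
      rw [← MvPolynomial.sum_homogeneousComponent q, map_sum, LinearMap.sum_apply] at h2
      exact h2
    funext m
    by_cases hm : m = n + 2 * d
    · have h3 := congrFun h1 m
      rw [Finset.sum_apply, Finset.sum_eq_single d] at h3
      · exact h3
      · intro e _ he
        exact hdeg e m (by omega)
      · intro h; exact absurd hd h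
    · exact hdeg d m hm
  · rw [MvPolynomial.homogeneousComponent_eq_zero d q (by
      rw [Finset.mem_range] at hd; omega), map_zero]
    rfl

lemma Ann_Sh (A : FRep K (Er p r)) : Ann A ≤ Ann (FRep.Sh A) := by
  intro q hq U x
  apply sg_injective U A
  rw [actE, act_sg, map_zero]
  exact hq U _

lemma Ann_ShN (t : ℕ) (A : FRep K (Er p r)) : Ann A ≤ Ann (FRep.ShN t A) := by
  induction t generalizing A with
  | zero => exact le_rfl
  | succ t ih => exact (Ann_Sh A).trans (ih (FRep.Sh A))

lemma Ann_ses {A B C : FRep K (Er p r)} (S : SES A B C) : Ann A * Ann C ≤ Ann B := by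
  rw [Ideal.mul_le]
  intro q hq q' hq'
  rw [← MvPolynomial.sum_homogeneousComponent q, ← MvPolynomial.sum_homogeneousComponent q',
    Finset.sum_mul_sum]
  refine Ideal.sum_mem _ fun a _ => Ideal.sum_mem _ fun b _ => ?_
  refine mem_Ann_of_deg ((MvPolynomial.homogeneousComponent_isHomogeneous a q).mul
    (MvPolynomial.homogeneousComponent_isHomogeneous b q')) fun U n x hx => ?_
  have h1 := Ann_hom A q hq a
  have h2 := Ann_hom C q' hq' b
  have hy := act_deg (bE (K := K) (p := p) (r := r)) U B
    (MvPolynomial.homogeneousComponent_isHomogeneous b q') hx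
  have hz : push U S.p (act (bE (K := K) (p := p) (r := r)) U B
      (MvPolynomial.homogeneousComponent b q') x) = 0 := by
    rw [act_push]; exact h2 U _
  obtain ⟨z, _, hz2⟩ := S.push_exact_mid U hy hz
  rw [actE, act_mul, ← hz2, ← act_push]
  have h3 : act (bE (K := K) (p := p) (r := r)) U A
      (MvPolynomial.homogeneousComponent a q) z = 0 := h1 U z
  rw [h3, map_zero]

lemma Ann_iso {A B : FRep K (Er p r)} (h : Iso A B) : Ann A ≤ Ann B := by
  obtain ⟨f, hf⟩ := h
  let E : A.V ≃ₗ[K] B.V := LinearEquiv.ofBijective f.1 hf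
  have hE : ∀ x, f.1 (E.symm x) = x := fun x => E.apply_symm_apply x
  let e : EHom B A := ⟨E.symm.toLinearMap, by
    intro g x
    apply hf.1
    rw [EHom.map]
    show f.1 (E.symm (B.ρ g x)) = B.ρ g (f.1 (E.symm x))
    rw [hE, hE]⟩
  have hfe : (ecomp f e) = EHom.id B := by
    apply Subtype.ext
    refine LinearMap.ext fun x => ?_
    exact hE x
  intro q hq U x
  have h1 : x = push U f (push U e x) := by
    rw [← push_comp, hfe, push_id]
  rw [h1, actE, ← act_push]
  have h2 : act (bE (K := K) (p := p) (r := r)) U A q (push U e x) = 0 := hq U _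
  rw [h2, map_zero]

variable [CharP K p]

/-- iterated `I_w` -/
def Iws : List (Fin r → K) → FRep K (Er p r) → FRep K (Er p r)
  | [], Z => Z
  | w :: l, Z => Iw p le_rfl w (Iws l Z)

end Pool.Agent.H34.Gam

end
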