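import Pool.Agent.H34.Gam.IwSeq

/-!
The star inequality `kap c X ^ 2 ≤ C dim \underline{End}(X)` (job GAM-STAR).
-/

set_option autoImplicit false
set_option linter.unusedSectionVars false

noncomputable section

namespace Pool.Agent.H34.Gam

open Module

/-! ### Linear algebra of a nilpotent operator -/

section nilp

variable {K : Type} [Field K]

lemma star_finrank_map {V W : Type} [AddCommGroup V] [Module K V] [FiniteDimensional K V]
    [AddCommGroup W] [Module K W] (f : V →ₗ[K] W) (S : Submodule K V) :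
    finrank K (S.map f) + finrank K (S ⊓ LinearMap.ker f : Submodule K V) = finrank K S := by
  have h := LinearMap.finrank_range_add_finrank_ker (f.domRestrict S)
  rw [LinearMap.range_domRestrict, LinearMap.ker_domRestrict] at h
  rw [← h, ← Submodule.map_comap_subtype, Submodule.finrank_map_subtype_eq]

variable {V : Type} [AddCommGroup V] [Module K V] [FiniteDimensional K V]

/-- `dim (ker u ∩ u^k V)` -/
def star_nu (u : Module.End K V) (k : ℕ) : ℕ :=
  finrank K (LinearMap.ker u ⊓ LinearMap.range (u ^ k) : Submodule K V)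

lemma star_range_succ (u : Module.End K V) (k : ℕ) :
    LinearMap.range (u ^ (k + 1)) = (LinearMap.range (u ^ k)).map u := by
  rw [pow_succ', Module.End.mul_eq_comp, LinearMap.range_comp]

lemma star_rank_step (u : Module.End K V) (k : ℕ) :
    finrank K (LinearMap.range (u ^ k)) = finrank K (LinearMap.range (u ^ (k + 1))) +
      star_nu u k := by
  rw [star_range_succ, star_nu, inf_comm, star_finrank_map]

lemma star_rank_sum (u : Module.End K V) (m : ℕ) :
    finrank K V = (∑ k ∈ Finset.range m, star_nu u k) + finrank K (LinearMap.range (u ^ m)) := by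
  induction m with
  | zero =>
    rw [Finset.sum_range_zero, zero_add, pow_zero, Module.End.one_eq_id, LinearMap.range_id,
      finrank_top]
  | succ m ih =>
    rw [ih, Finset.sum_range_succ, star_rank_step]
    ring

lemma star_range_le (u : Module.End K V) (k : ℕ) :
    LinearMap.range (u ^ (k + 1)) ≤ LinearMap.range (u ^ k) := by
  rw [pow_succ, Module.End.mul_eq_comp]
  exact LinearMap.range_comp_le_range _ _

lemma star_nu_succ_le (u : Module.End K V) (k : ℕ) : star_nu u (k + 1) ≤ star_nu u k :=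
  Submodule.finrank_mono (inf_le_inf_left _ (star_range_le u k))

lemma star_nu_le_zero (u : Module.End K V) (k : ℕ) : star_nu u k ≤ star_nu u 0 := by
  induction k with
  | zero => exact le_rfl
  | succ k ih => exact (star_nu_succ_le u k).trans ih

lemma star_nu_zero_le (u : Module.End K V) (m : ℕ) :
    star_nu u 0 ≤ (∑ k ∈ Finset.range m, (star_nu u k - star_nu u (k + 1))) + star_nu u m := by
  induction m with
  | zero => simp
  | succ m ih =>
    rw [Finset.sum_range_succ]
    have := star_nu_succ_le u m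
    omega

/-- A family of Jordan blocks of one length. -/
lemma star_jordan (u : Module.End K V) (p : ℕ) (hp : 2 ≤ p) (hu : u ^ p = 0) :
    ∃ (i n : ℕ) (e : Fin n → V) (lam : Fin n → (V →ₗ[K] K)), i + 2 ≤ p ∧
      (∀ k, (u ^ (i + 1)) (e k) = 0) ∧ (∀ k x, lam k ((u ^ (i + 1)) x) = 0) ∧
      (∀ k m, lam k ((u ^ i) (e m)) = if k = m then 1 else 0) ∧
      finrank K V - p * finrank K (LinearMap.range (u ^ (p - 1))) ≤ p ^ 2 * n := by
  obtain ⟨i, hi, hmax⟩ := Finset.exists_max_image (Finset.range (p - 1))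
    (fun k => star_nu u k - star_nu u (k + 1)) ⟨0, by rw [Finset.mem_range]; omega⟩
  rw [Finset.mem_range] at hi
  set M : ℕ := star_nu u i - star_nu u (i + 1) with hM
  -- the numerical estimate
  have hnum : finrank K V - p * finrank K (LinearMap.range (u ^ (p - 1))) ≤ p ^ 2 * M := by
    have h1 : star_nu u (p - 1) = finrank K (LinearMap.range (u ^ (p - 1))) := by
      have : LinearMap.range (u ^ (p - 1)) ≤ LinearMap.ker u := by
        rintro _ ⟨x, rfl⟩
        rw [LinearMap.mem_ker, ← Module.End.mul_apply, ← pow_succ', Nat.sub_add_cancel (by omega),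
          hu]
        rfl
      rw [star_nu, inf_eq_right.2 this]
    have h2 := star_rank_sum u p
    rw [hu] at h2
    have h3 : LinearMap.range (0 : Module.End K V) = ⊥ := LinearMap.range_zero
    rw [h3, finrank_bot, add_zero] at h2
    have h4 : ∑ k ∈ Finset.range p, star_nu u k ≤ p * star_nu u 0 := by
      have := Finset.sum_le_card_nsmul (Finset.range p) (fun k => star_nu u k) (star_nu u 0)
        (fun k _ => star_nu_le_zero u k)
      rwa [Finset.card_range, smul_eq_mul] at this
    have h5 := star_nu_zero_le u (p - 1)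
    have h6 : ∑ k ∈ Finset.range (p - 1), (star_nu u k - star_nu u (k + 1)) ≤ (p - 1) * M := by
      have := Finset.sum_le_card_nsmul (Finset.range (p - 1))
        (fun k => star_nu u k - star_nu u (k + 1)) M (fun k hk => hmax k hk)
      rwa [Finset.card_range, smul_eq_mul] at this
    rw [h1] at h5
    have h7 : star_nu u 0 ≤ p * M + finrank K (LinearMap.range (u ^ (p - 1))) := by
      have : (p - 1) * M ≤ p * M := Nat.mul_le_mul_right _ (by omega)
      omega
    have h8 : p * star_nu u 0 ≤ p * (p * M + finrank K (LinearMap.range (u ^ (p - 1)))) :=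
      Nat.mul_le_mul_left _ h7
    have h9 : p * (p * M + finrank K (LinearMap.range (u ^ (p - 1)))) =
        p ^ 2 * M + p * finrank K (LinearMap.range (u ^ (p - 1))) := by ring
    omega
  -- the family
  let R : Submodule K V := LinearMap.range (u ^ (i + 1))
  let N : Submodule K V := LinearMap.ker u ⊓ LinearMap.range (u ^ i)
  let W : Submodule K (V ⧸ R) := N.map R.mkQ
  have hW : finrank K W = M := by
    have h1 := star_finrank_map R.mkQ N
    rw [Submodule.ker_mkQ] at h1
    have h2 : N ⊓ R = LinearMap.ker u ⊓ LinearMap.range (u ^ (i + 1)) := by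
      show LinearMap.ker u ⊓ LinearMap.range (u ^ i) ⊓ LinearMap.range (u ^ (i + 1)) = _
      rw [inf_assoc, inf_eq_right.2 (star_range_le u i)]
    rw [h2] at h1
    have h3 : finrank K W + star_nu u (i + 1) = star_nu u i := h1
    omega
  let b := Module.finBasis K W
  have hb : ∀ k, ∃ x : V, (u ^ (i + 1)) x = 0 ∧ R.mkQ ((u ^ i) x) = (b k : V ⧸ R) := by
    intro k
    obtain ⟨s, ⟨hs1, ⟨x, hx⟩⟩, hs2⟩ := (b k).2
    refine ⟨x, ?_, ?_⟩
    · rw [pow_succ', Module.End.mul_apply, hx]
      exact hs1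
    · rw [hx]; exact hs2
  choose e he1 he2 using hb
  obtain ⟨g, hg⟩ := LinearMap.exists_leftInverse_of_injective W.subtype (Submodule.ker_subtype W)
  refine ⟨i, finrank K W, e, fun k => (b.coord k) ∘ₗ g ∘ₗ R.mkQ, by omega, he1, ?_, ?_, ?_⟩
  · intro k x
    have : R.mkQ ((u ^ (i + 1)) x) = 0 := by
      rw [Submodule.mkQ_apply, Submodule.Quotient.mk_eq_zero]
      exact ⟨x, rfl⟩
    rw [LinearMap.comp_apply, LinearMap.comp_apply, this, map_zero, map_zero]
  · intro k m
    rw [LinearMap.comp_apply, LinearMap.comp_apply, he2]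
    have : g (b m : V ⧸ R) = b m := LinearMap.congr_fun hg (b m)
    rw [this, Basis.coord_apply, Basis.repr_self, Finsupp.single_apply]
    by_cases h : m = k
    · rw [if_pos h, if_pos h.symm]
    · rw [if_neg h, if_neg (fun h' => h h'.symm)]
  · rw [hW]; exact hnum

/-- elementary maps -/
def star_B (u : Module.End K V) (i : ℕ) {n : ℕ} (e : Fin n → V) (lam : Fin n → (V →ₗ[K] K))
    (k l : Fin n) : Module.End K V :=
  ∑ j ∈ Finset.range (i + 1), (lam k ∘ₗ (u ^ (i - j))).smulRight ((u ^ j) (e l))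

lemma star_B_apply (u : Module.End K V) (i : ℕ) {n : ℕ} (e : Fin n → V)
    (lam : Fin n → (V →ₗ[K] K)) (k l : Fin n) (x : V) :
    star_B u i e lam k l x = ∑ j ∈ Finset.range (i + 1), lam k ((u ^ (i - j)) x) • (u ^ j) (e l) := by
  rw [star_B, LinearMap.sum_apply]
  rfl

lemma star_B_comm (u : Module.End K V) (i : ℕ) {n : ℕ} (e : Fin n → V)
    (lam : Fin n → (V →ₗ[K] K)) (h1 : ∀ k, (u ^ (i + 1)) (e k) = 0)
    (h2 : ∀ k x, lam k ((u ^ (i + 1)) x) = 0) (k l : Fin n) (x : V) :
    star_B u i e lam k l (u x) = u (star_B u i e lam k l x) := by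
  rw [star_B_apply, star_B_apply, map_sum, Finset.sum_range_succ', Finset.sum_range_succ]
  have a1 : lam k ((u ^ (i - 0)) (u x)) • (u ^ 0) (e l) = 0 := by
    rw [Nat.sub_zero, ← Module.End.mul_apply, ← pow_succ, h2, zero_smul]
  have a2 : u (lam k ((u ^ (i - i)) x) • (u ^ i) (e l)) = 0 := by
    rw [map_smul, ← Module.End.mul_apply, ← pow_succ', h1, smul_zero]
  rw [a1, a2, add_zero, add_zero]
  refine Finset.sum_congr rfl fun j hj => ?_
  rw [Finset.mem_range] at hj
  rw [map_smul, ← Module.End.mul_apply, ← pow_succ, ← Module.End.mul_apply u, ← pow_succ']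
  congr 3
  congr 1
  congr 1
  omega

lemma star_B_eval (u : Module.End K V) (i : ℕ) {n : ℕ} (e : Fin n → V)
    (lam : Fin n → (V →ₗ[K] K)) (h1 : ∀ k, (u ^ (i + 1)) (e k) = 0)
    (h3 : ∀ k m, lam k ((u ^ i) (e m)) = if k = m then 1 else 0) (k l m : Fin n) :
    star_B u i e lam k l ((u ^ i) (e m)) = if k = m then (u ^ i) (e l) else 0 := by
  rw [star_B_apply, Finset.sum_range_succ, Finset.sum_eq_zero, zero_add]
  · rw [Nat.sub_self, pow_zero, Module.End.one_apply, h3]
    by_cases h : k = m
    · rw [if_pos h, if_pos h, one_smul]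
    · rw [if_neg h, if_neg h, zero_smul]
  · intro j hj
    rw [Finset.mem_range] at hj
    have : (u ^ (i - j)) ((u ^ i) (e m)) = 0 := by
      rw [← Module.End.mul_apply, ← pow_add, show i - j + i = (i - j - 1) + (i + 1) by omega,
        pow_add, Module.End.mul_apply, h1, map_zero]
    rw [this, map_zero, zero_smul]

/-- the linear family of commuting maps -/
def star_Phi (u : Module.End K V) (i : ℕ) {n : ℕ} (e : Fin n → V) (lam : Fin n → (V →ₗ[K] K)) :
    (Fin n → Fin n → K) →ₗ[K] (V →ₗ[K] V) where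
  toFun A := ∑ k, ∑ l, A k l • star_B u i e lam k l
  map_add' A A' := by
    simp only [Pi.add_apply, add_smul, Finset.sum_add_distrib]
  map_smul' c A := by
    simp only [Pi.smul_apply, smul_eq_mul, mul_smul, Finset.smul_sum, RingHom.id_apply]

lemma star_Phi_apply (u : Module.End K V) (i : ℕ) {n : ℕ} (e : Fin n → V)
    (lam : Fin n → (V →ₗ[K] K)) (A : Fin n → Fin n → K) (x : V) :
    star_Phi u i e lam A x = ∑ k, ∑ l, A k l • star_B u i e lam k l x := by
  show (∑ k, ∑ l, A k l • star_B u i e lam k l) x = _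
  simp only [LinearMap.sum_apply, LinearMap.smul_apply]

lemma star_Phi_comm (u : Module.End K V) (i : ℕ) {n : ℕ} (e : Fin n → V)
    (lam : Fin n → (V →ₗ[K] K)) (h1 : ∀ k, (u ^ (i + 1)) (e k) = 0)
    (h2 : ∀ k x, lam k ((u ^ (i + 1)) x) = 0) (A : Fin n → Fin n → K) (x : V) :
    star_Phi u i e lam A (u x) = u (star_Phi u i e lam A x) := by
  rw [star_Phi_apply, star_Phi_apply, map_sum]
  refine Finset.sum_congr rfl fun k _ => ?_
  rw [map_sum]
  refine Finset.sum_congr rfl fun l _ => ?_
  rw [map_smul, star_B_comm u i e lam h1 h2]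

lemma star_Phi_eval (u : Module.End K V) (i : ℕ) {n : ℕ} (e : Fin n → V)
    (lam : Fin n → (V →ₗ[K] K)) (h1 : ∀ k, (u ^ (i + 1)) (e k) = 0)
    (h3 : ∀ k m, lam k ((u ^ i) (e m)) = if k = m then 1 else 0)
    (A : Fin n → Fin n → K) (m l : Fin n) :
    lam l (star_Phi u i e lam A ((u ^ i) (e m))) = A m l := by
  rw [star_Phi_apply, map_sum, Finset.sum_eq_single m]
  · rw [map_sum, Finset.sum_eq_single l]
    · rw [map_smul, star_B_eval u i e lam h1 h3, if_pos rfl, h3, if_pos rfl, smul_eq_mul, mul_one]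
    · intro l' _ hl
      rw [map_smul, star_B_eval u i e lam h1 h3, if_pos rfl, h3, if_neg (Ne.symm hl), smul_zero]
    · intro h; exact absurd (Finset.mem_univ _) h
  · intro k _ hk
    rw [map_sum]
    refine Finset.sum_eq_zero fun l' _ => ?_
    rw [map_smul, star_B_eval u i e lam h1 h3, if_neg hk, map_zero, smul_zero]
  · intro h; exact absurd (Finset.mem_univ _) h

end nilp

/-! ### Extension of commuting maps -/

section extn

variable {K : Type} [Field K] {X Z : Type} [AddCommGroup X] [Module K X] [AddCommGroup Z]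
  [Module K Z]

/-- `ψ ↦ a ψ - ψ b` -/
def star_ad (a : Module.End K X) (b : Module.End K Z) : Module.End K (Z →ₗ[K] X) where
  toFun ψ := a ∘ₗ ψ - ψ ∘ₗ b
  map_add' ψ ψ' := by
    refine LinearMap.ext fun z => ?_
    simp only [LinearMap.sub_apply, LinearMap.comp_apply, LinearMap.add_apply, map_add]
    abel
  map_smul' c ψ := by
    refine LinearMap.ext fun z => ?_
    simp only [LinearMap.sub_apply, LinearMap.comp_apply, LinearMap.smul_apply, map_smul,
      RingHom.id_apply, smul_sub]

lemma star_ad_apply (a : Module.End K X) (b : Module.End K Z) (ψ : Z →ₗ[K] X) (z : Z) :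
    star_ad a b ψ z = a (ψ z) - ψ (b z) := rfl

lemma star_ad_comm (a : Module.End K X) (b : Module.End K Z) (a' : Module.End K X)
    (b' : Module.End K Z) (ha : Commute a a') (hb : Commute b b') (ψ : Z →ₗ[K] X)
    (h : ∀ z, ψ (b' z) = a' (ψ z)) (n : ℕ) (z : Z) :
    ((star_ad a b ^ n) ψ) (b' z) = a' (((star_ad a b ^ n) ψ) z) := by
  induction n generalizing z with
  | zero => rw [pow_zero, Module.End.one_apply]; exact h z
  | succ n ih =>
    rw [pow_succ', Module.End.mul_apply, star_ad_apply, star_ad_apply, ih, map_sub, ← ih (b z)]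
    have h1 : a (a' (((star_ad a b ^ n) ψ) z)) = a' (a (((star_ad a b ^ n) ψ) z)) := by
      rw [← Module.End.mul_apply, ha.eq, Module.End.mul_apply]
    have h2 : b (b' z) = b' (b z) := by
      rw [← Module.End.mul_apply, hb.eq, Module.End.mul_apply]
    rw [h1, h2]

lemma star_ad_pow (p : ℕ) [Fact p.Prime] [CharP K p] (a : Module.End K X) (b : Module.End K Z)
    (ha : a ^ p = 0) (hb : b ^ p = 0) : star_ad a b ^ p = 0 := by
  rcases subsingleton_or_nontrivial (Module.End K (Z →ₗ[K] X)) with hs | hs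
  · exact Subsingleton.elim _ _
  have : CharP (Module.End K (Z →ₗ[K] X)) p :=
    charP_of_injective_algebraMap (algebraMap K _).injective p
  let La : Module.End K (Z →ₗ[K] X) :=
    { toFun := fun ψ => a ∘ₗ ψ
      map_add' := fun ψ ψ' => LinearMap.comp_add _ _ _
      map_smul' := fun c ψ => LinearMap.comp_smul _ _ _ }
  let Rb : Module.End K (Z →ₗ[K] X) :=
    { toFun := fun ψ => ψ ∘ₗ b
      map_add' := fun ψ ψ' => LinearMap.add_comp _ _ _
      map_smul' := fun c ψ => LinearMap.smul_comp _ _ _ }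
  have hcomm : Commute La Rb := LinearMap.ext fun ψ => rfl
  have h1 : star_ad a b = La - Rb := rfl
  have h2 : ∀ (n : ℕ) (ψ : Z →ₗ[K] X), (La ^ n) ψ = (a ^ n) ∘ₗ ψ := by
    intro n
    induction n with
    | zero => intro ψ; rfl
    | succ n ih =>
      intro ψ
      rw [pow_succ', Module.End.mul_apply, ih, pow_succ']
      rfl
  have h3 : ∀ (n : ℕ) (ψ : Z →ₗ[K] X), (Rb ^ n) ψ = ψ ∘ₗ (b ^ n) := by
    intro n
    induction n with
    | zero => intro ψ; rfl
    | succ n ih =>
      intro ψ
      rw [pow_succ', Module.End.mul_apply, ih, pow_succ]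
      rfl
  rw [h1, sub_pow_char_of_commute _ hcomm]
  refine LinearMap.ext fun ψ => ?_
  rw [LinearMap.sub_apply, h2, h3, ha, hb, LinearMap.zero_comp, LinearMap.comp_zero, sub_zero]
  rfl

/-- one step of the extension -/
def star_ext (m : ℕ) (a : Module.End K X) (b : Module.End K Z) :
    (Z →ₗ[K] X) →ₗ[K] ((Fin m → Z) →ₗ[K] X) where
  toFun ψ := ∑ n : Fin m, ((star_ad a b ^ (n : ℕ)) ψ) ∘ₗ LinearMap.proj n
  map_add' ψ ψ' := by
    simp only [map_add, LinearMap.add_comp, Finset.sum_add_distrib]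
  map_smul' c ψ := by
    simp only [map_smul, LinearMap.smul_comp, Finset.smul_sum, RingHom.id_apply]

lemma star_ext_apply (m : ℕ) (a : Module.End K X) (b : Module.End K Z) (ψ : Z →ₗ[K] X)
    (y : Fin m → Z) :
    star_ext m a b ψ y = ∑ n : Fin m, ((star_ad a b ^ (n : ℕ)) ψ) (y n) := by
  show (∑ n : Fin m, ((star_ad a b ^ (n : ℕ)) ψ) ∘ₗ LinearMap.proj n) y = _
  rw [LinearMap.sum_apply]
  rfl

lemma star_ext_comm (m : ℕ) (a : Module.End K X) (b : Module.End K Z) (a' : Module.End K X)
    (b' : Module.End K Z) (ha : Commute a a') (hb : Commute b b') (ψ : Z →ₗ[K] X)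
    (h : ∀ z, ψ (b' z) = a' (ψ z)) (y : Fin m → Z) :
    star_ext m a b ψ (cw m b' y) = a' (star_ext m a b ψ y) := by
  rw [star_ext_apply, star_ext_apply, map_sum]
  refine Finset.sum_congr rfl fun n _ => ?_
  rw [cw_apply, star_ad_comm a b a' b' ha hb ψ h]

lemma star_ext_tmul (m : ℕ) (a : Module.End K X) (b : Module.End K Z) (ψ : Z →ₗ[K] X)
    (h : (star_ad a b ^ m) ψ = 0) (y : Fin m → Z) :
    star_ext m a b ψ (cw m b y + tmul (K := K) m Z y) = a (star_ext m a b ψ y) := by
  cases m with
  | zero => 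
    rw [star_ext_apply, star_ext_apply]
    simp
  | succ m =>
    rw [map_add, star_ext_apply, star_ext_apply, star_ext_apply, map_sum]
    have h1 : ∑ n : Fin (m + 1), ((star_ad a b ^ (n : ℕ)) ψ) (tmul (K := K) (m + 1) Z y n) =
        ∑ n : Fin (m + 1), ((star_ad a b ^ ((n : ℕ) + 1)) ψ) (y n) := by
      rw [Fin.sum_univ_succ, Fin.sum_univ_castSucc]
      have e0 : tmul (K := K) (m + 1) Z y 0 = 0 := by
        rw [tmul_apply]; rfl
      have e1 : ((star_ad a b ^ (((Fin.last m : Fin (m + 1)) : ℕ) + 1)) ψ) (y (Fin.last m)) = 0 := by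
        rw [Fin.val_last, h]; rfl
      rw [e0, map_zero, zero_add, e1, add_zero]
      refine Finset.sum_congr rfl fun n _ => ?_
      rw [tmul_apply, dif_neg (by simp)]
      simp only [Fin.val_succ, Fin.val_castSucc]
      rfl
    rw [h1, ← Finset.sum_add_distrib]
    refine Finset.sum_congr rfl fun n _ => ?_
    rw [cw_apply, pow_succ', Module.End.mul_apply, star_ad_apply]
    abel

end extn

/-! ### The inequality -/

variable {K : Type} [Field K] {p r : ℕ} [Fact p.Prime] [CharP K p]

/-- the coordinate operators `g_j - 1` -/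
abbrev xop (j : Fin r) (Z : FRep K (Er p r)) : Module.End K Z.V := uop (Pi.single j 1) Z

omit [CharP K p] in
lemma xop_eq (j : Fin r) (Z : FRep K (Er p r)) : xop j Z = Z.ρ (eg p j) - 1 := by
  unfold xop uop
  rw [Finset.sum_eq_single j]
  · rw [Pi.single_eq_same, one_smul]
  · intro i _ hi
    rw [Pi.single_eq_of_ne hi, zero_smul]
  · intro h; exact absurd (Finset.mem_univ _) h

omit [CharP K p] in
lemma uop_eq_xop (c : Fin r → K) (Z : FRep K (Er p r)) : uop c Z = ∑ j, c j • xop j Z := by
  rw [uop]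
  refine Finset.sum_congr rfl fun j _ => ?_
  rw [xop_eq]

/-- the dual vectors -/
def star_v (c : Fin r → K) (j0 : Fin r) (j : Fin r) : Fin r → K :=
  Pi.single j 1 - Pi.single j0 (c j / c j0)

omit [Fact p.Prime] [CharP K p] in
lemma star_v_c (c : Fin r → K) (j0 : Fin r) (h0 : c j0 ≠ 0) (j : Fin r) :
    ∑ i, c i * star_v c j0 j i = 0 := by
  unfold star_v
  simp only [Pi.sub_apply, mul_sub, Finset.sum_sub_distrib]
  have h1 : ∀ (k : Fin r) (a : K), ∑ i, c i * (Pi.single k a : Fin r → K) i = c k * a := by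
    intro k a
    rw [Finset.sum_eq_single k]
    · rw [Pi.single_eq_same]
    · intro i _ hi
      rw [Pi.single_eq_of_ne hi, mul_zero]
    · intro h; exact absurd (Finset.mem_univ _) h
  rw [h1, h1]
  field_simp
  ring

omit [Fact p.Prime] [CharP K p] in
lemma star_v_x (c : Fin r → K) (j0 : Fin r) (j i : Fin r) (hi : i ≠ j0) :
    ∑ k, (Pi.single i 1 : Fin r → K) k * star_v c j0 j k = if i = j then 1 else 0 := by
  rw [Finset.sum_eq_single i]
  · rw [Pi.single_eq_same, one_mul]
    unfold star_v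
    rw [Pi.sub_apply, Pi.single_eq_of_ne hi, sub_zero, Pi.single_apply]
  · intro k _ hk
    rw [Pi.single_eq_of_ne hk, zero_mul]
  · intro h; exact absurd (Finset.mem_univ _) h

lemma star_uop_Iw (c w : Fin r → K) (Z : FRep K (Er p r)) (y : Fin p → Z.V) (a : K)
    (h : ∑ j, c j * w j = a) :
    (uop c (Iw p le_rfl w Z)) y = cw p (uop c Z) y + a • tmul (K := K) p Z.V y := by
  subst h
  exact LinearMap.congr_fun (uop_Iw (p := p) p le_rfl c w Z) y

/-- the extension `φ ↦ φ♯` -/
def star_EX (c : Fin r → K) (j0 : Fin r) (X : FRep K (Er p r)) : (l : List (Fin r)) →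
    (X.V →ₗ[K] X.V) →ₗ[K] ((Iws (l.map (star_v c j0)) X).V →ₗ[K] X.V)
  | [] => LinearMap.id
  | j :: l => (star_ext p (xop j X) (xop j (Iws (l.map (star_v c j0)) X))) ∘ₗ star_EX c j0 X l

/-- the inclusion `x ↦ x t^0` -/
def star_iot (c : Fin r → K) (j0 : Fin r) (X : FRep K (Er p r)) : (l : List (Fin r)) →
    X.V →ₗ[K] (Iws (l.map (star_v c j0)) X).V
  | [] => LinearMap.id
  | j :: l => (LinearMap.single K (fun _ : Fin p => (Iws (l.map (star_v c j0)) X).V)
      ⟨0, (Fact.out : p.Prime).pos⟩) ∘ₗ star_iot c j0 X l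

lemma star_EX_cons (c : Fin r → K) (j0 : Fin r) (X : FRep K (Er p r)) (j : Fin r)
    (l : List (Fin r)) (φ : X.V →ₗ[K] X.V) (y : Fin p → (Iws (l.map (star_v c j0)) X).V) :
    star_EX c j0 X (j :: l) φ y =
      star_ext p (xop j X) (xop j (Iws (l.map (star_v c j0)) X)) (star_EX c j0 X l φ) y := rfl

lemma star_EX_u (c : Fin r → K) (j0 : Fin r) (h0 : c j0 ≠ 0) (X : FRep K (Er p r))
    (φ : X.V →ₗ[K] X.V) (hφ : ∀ x, φ (uop c X x) = uop c X (φ x)) (l : List (Fin r))
    (y : (Iws (l.map (star_v c j0)) X).V) :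
    star_EX c j0 X l φ (uop c _ y) = uop c X (star_EX c j0 X l φ y) := by
  induction l with
  | nil => exact hφ y
  | cons j l ih =>
    have h1 := star_uop_Iw c (star_v c j0 j) (Iws (l.map (star_v c j0)) X) y 0
      (star_v_c c j0 h0 j)
    rw [zero_smul, add_zero] at h1
    refine (congrArg (star_EX c j0 X (j :: l) φ) h1).trans ?_
    exact star_ext_comm p _ _ _ _ (uop_comm _ _ _) (uop_comm _ _ _) _ ih y

lemma star_EX_x (c : Fin r → K) (j0 : Fin r) (X : FRep K (Er p r))
    (φ : X.V →ₗ[K] X.V) (l : List (Fin r)) (hl : l.Nodup) (hj0 : j0 ∉ l) (i : Fin r) (hi : i ∈ l)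
    (y : (Iws (l.map (star_v c j0)) X).V) :
    star_EX c j0 X l φ (xop i _ y) = xop i X (star_EX c j0 X l φ y) := by
  induction l with
  | nil => exact absurd hi List.not_mem_nil
  | cons j l ih =>
    rw [List.nodup_cons] at hl
    rw [List.mem_cons, not_or] at hj0
    have hij0 : i ≠ j0 := by
      rintro rfl
      rcases List.mem_cons.1 hi with h | h
      · exact hj0.1 h
      · exact hj0.2 h
    have h1 := star_uop_Iw (Pi.single i 1) (star_v c j0 j) (Iws (l.map (star_v c j0)) X) y _
      (star_v_x c j0 j i hij0)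
    refine (congrArg (star_EX c j0 X (j :: l) φ) h1).trans ?_
    by_cases h : i = j
    · subst h
      rw [if_pos rfl, one_smul]
      refine star_ext_tmul p _ _ _ ?_ y
      rw [star_ad_pow p _ _ (uop_pow _ _) (uop_pow _ _)]
      rfl
    · rw [if_neg h, zero_smul, add_zero]
      have hi' : i ∈ l := by
        rcases List.mem_cons.1 hi with h' | h'
        · exact absurd h' h
        · exact h'
      exact star_ext_comm p _ _ _ _ (uop_comm _ _ _) (uop_comm _ _ _) _
        (ih hl.2 hj0.2 hi') y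

lemma star_iot_cons (c : Fin r → K) (j0 : Fin r) (X : FRep K (Er p r)) (j : Fin r)
    (l : List (Fin r)) (x : X.V) (n : Fin p) :
    (star_iot c j0 X (j :: l) x : Fin p → (Iws (l.map (star_v c j0)) X).V) n =
      if n = ⟨0, (Fact.out : p.Prime).pos⟩ then star_iot c j0 X l x else 0 :=
  Pi.single_apply _ _ _

lemma star_EX_iot (c : Fin r → K) (j0 : Fin r) (X : FRep K (Er p r))
    (φ : X.V →ₗ[K] X.V) (l : List (Fin r)) (x : X.V) :
    star_EX c j0 X l φ (star_iot c j0 X l x) = φ x := by
  induction l with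
  | nil => rfl
  | cons j l ih =>
    refine (star_ext_apply _ _ _ _ _).trans ?_
    rw [Finset.sum_eq_single ⟨0, (Fact.out : p.Prime).pos⟩]
    · have : (star_iot c j0 X (j :: l) x : Fin p → (Iws (l.map (star_v c j0)) X).V)
          ⟨0, (Fact.out : p.Prime).pos⟩ = star_iot c j0 X l x := by
        rw [star_iot_cons, if_pos rfl]
      exact (congrArg _ this).trans ih
    · intro n _ hn
      have : (star_iot c j0 X (j :: l) x : Fin p → (Iws (l.map (star_v c j0)) X).V) n = 0 := by
        rw [star_iot_cons, if_neg hn]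
      exact (congrArg _ this).trans (map_zero _)
    · intro h; exact absurd (Finset.mem_univ _) h

lemma star_iot_u (c : Fin r → K) (j0 : Fin r) (h0 : c j0 ≠ 0) (X : FRep K (Er p r))
    (l : List (Fin r)) (x : X.V) :
    uop c _ (star_iot c j0 X l x) = star_iot c j0 X l (uop c X x) := by
  induction l with
  | nil => rfl
  | cons j l ih =>
    have h1 := star_uop_Iw c (star_v c j0 j) (Iws (l.map (star_v c j0)) X)
      (star_iot c j0 X (j :: l) x) 0 (star_v_c c j0 h0 j)
    rw [zero_smul, add_zero] at h1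
    refine h1.trans (funext fun n => ?_)
    refine (cw_apply p _ _ n).trans ?_
    rw [star_iot_cons, star_iot_cons]
    by_cases hn : n = ⟨0, (Fact.out : p.Prime).pos⟩
    · rw [if_pos hn, if_pos hn]; exact ih
    · rw [if_neg hn, if_neg hn, map_zero]

lemma star_iot_upow (c : Fin r → K) (j0 : Fin r) (h0 : c j0 ≠ 0) (X : FRep K (Er p r))
    (l : List (Fin r)) (n : ℕ) (x : X.V) :
    (uop c _ ^ n) (star_iot c j0 X l x) = star_iot c j0 X l ((uop c X ^ n) x) := by
  induction n generalizing x with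
  | zero => rfl
  | succ n ih =>
    rw [pow_succ, Module.End.mul_apply, star_iot_u c j0 h0, ih, pow_succ, Module.End.mul_apply]

/-- the extended map is equivariant -/
lemma star_EX_mem (c : Fin r → K) (j0 : Fin r) (h0 : c j0 ≠ 0) (X : FRep K (Er p r))
    (φ : X.V →ₗ[K] X.V) (hφ : ∀ x, φ (uop c X x) = uop c X (φ x)) (l : List (Fin r))
    (hl : l.Nodup) (hj0 : j0 ∉ l) (hall : ∀ j, j ≠ j0 → j ∈ l) :
    star_EX c j0 X l φ ∈ EHom (Iws (l.map (star_v c j0)) X) X := by
  have hx : ∀ j, ∀ y, star_EX c j0 X l φ (xop j _ y) = xop j X (star_EX c j0 X l φ y) := by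
    intro j y
    by_cases hj : j = j0
    · subst hj
      have h1 := star_EX_u c j h0 X φ hφ l y
      rw [uop_eq_xop c, uop_eq_xop c X, ← Finset.add_sum_erase _ _ (Finset.mem_univ j),
        ← Finset.add_sum_erase Finset.univ (fun i => c i • xop i X) (Finset.mem_univ j),
        LinearMap.add_apply, LinearMap.add_apply, map_add] at h1
      have h2 : star_EX c j X l φ ((∑ i ∈ Finset.univ.erase j,
          c i • xop i (Iws (l.map (star_v c j)) X)) y) =
          (∑ i ∈ Finset.univ.erase j, c i • xop i X) (star_EX c j X l φ y) := by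
        rw [LinearMap.sum_apply, LinearMap.sum_apply, map_sum]
        refine Finset.sum_congr rfl fun i hi => ?_
        rw [LinearMap.smul_apply, LinearMap.smul_apply, map_smul,
          star_EX_x c j X φ l hl hj0 i (hall i (Finset.ne_of_mem_erase hi))]
      rw [h2, add_left_inj, LinearMap.smul_apply, LinearMap.smul_apply, map_smul] at h1
      exact smul_right_injective _ h0 h1
    · exact star_EX_x c j0 X φ l hl hj0 j (hall j hj) y
  refine EHom_of_gen _ fun j y => ?_
  have h1 := hx j y
  rw [xop_eq, xop_eq, LinearMap.sub_apply, LinearMap.sub_apply, Module.End.one_apply,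
    Module.End.one_apply, map_sub, sub_left_inj] at h1
  exact h1

theorem star : ∃ C : ℕ, ∀ c : Fin r → K, c ≠ 0 → ∀ X : FRep K (Er p r),
    (kap c X) ^ 2 ≤ C * hh 0 X X := by
  refine ⟨p ^ 4 * p ^ (r - 1), fun c hc X => ?_⟩
  have hp2 : 2 ≤ p := (Fact.out : p.Prime).two_le
  obtain ⟨j0, h0⟩ : ∃ j0, c j0 ≠ 0 := by
    by_contra h
    push Not at h
    exact hc (funext h)
  obtain ⟨i, n, e, lam, hi, h1, h2, h3, h4⟩ := star_jordan (uop c X) p hp2 (uop_pow c X)
  let l : List (Fin r) := (Finset.univ.erase j0).toList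
  have hl : l.Nodup := Finset.nodup_toList _
  have hj0 : j0 ∉ l := by
    rw [Finset.mem_toList]
    exact Finset.notMem_erase _ _
  have hall : ∀ j, j ≠ j0 → j ∈ l := by
    intro j hj
    rw [Finset.mem_toList]
    exact Finset.mem_erase.2 ⟨hj, Finset.mem_univ _⟩
  have hlen : (l.map (star_v c j0)).length = r - 1 := by
    rw [List.length_map, Finset.length_toList, Finset.card_erase_of_mem (Finset.mem_univ _),
      Finset.card_univ, Fintype.card_fin]
  have hmem : ∀ A : Fin n → Fin n → K,
      star_EX c j0 X l (star_Phi (uop c X) i e lam A) ∈ EHom (Iws (l.map (star_v c j0)) X) X :=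
    fun A => star_EX_mem c j0 h0 X _ (star_Phi_comm (uop c X) i e lam h1 h2 A) l hl hj0 hall
  let Λ : (Fin n → Fin n → K) →ₗ[K] Hs (Iws (l.map (star_v c j0)) X) X :=
    cl ∘ₗ LinearMap.codRestrict (EHom (Iws (l.map (star_v c j0)) X) X)
      (star_EX c j0 X l ∘ₗ star_Phi (uop c X) i e lam) hmem
  have hinj : Function.Injective Λ := by
    rw [← LinearMap.ker_eq_bot, LinearMap.ker_eq_bot']
    intro A hA
    have hN : (⟨star_EX c j0 X l (star_Phi (uop c X) i e lam A), hmem A⟩ :
        EHom (Iws (l.map (star_v c j0)) X) X) ∈ Null (Iws (l.map (star_v c j0)) X) X :=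
      cl_eq_zero.1 hA
    obtain ⟨ψ, hψ⟩ := mem_Null.1 hN
    obtain ⟨ψ', hψ'⟩ := Tr_eq_uop c hc (Iws (l.map (star_v c j0)) X) X ψ
    have hφ : star_EX c j0 X l (star_Phi (uop c X) i e lam A) =
        ∑ k ∈ Finset.range p, (uop c X ^ k) ∘ₗ ψ' ∘ₗ
          (uop c (Iws (l.map (star_v c j0)) X) ^ (p - 1 - k)) := by
      rw [← hψ', hψ]
    funext m l'
    have h5 := star_Phi_eval (uop c X) i e lam h1 h3 A m l'
    rw [← star_EX_iot c j0 X (star_Phi (uop c X) i e lam A) l, hφ, LinearMap.sum_apply,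
      Finset.sum_eq_single (p - 1)] at h5
    · rw [← h5]
      show lam l' ((uop c X ^ (p - 1)) _) = 0
      rw [show p - 1 = (i + 1) + (p - 2 - i) by omega, pow_add, Module.End.mul_apply]
      exact h2 _ _
    · intro k hk hkp
      rw [Finset.mem_range] at hk
      rw [LinearMap.comp_apply, LinearMap.comp_apply, star_iot_upow c j0 h0]
      have : (uop c X ^ (p - 1 - k)) ((uop c X ^ i) (e m)) = 0 := by
        rw [← Module.End.mul_apply, ← pow_add,
          show p - 1 - k + i = (p - 2 - k) + (i + 1) by omega, pow_add, Module.End.mul_apply, h1,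
          map_zero]
      rw [this, map_zero, map_zero, map_zero]
    · intro h
      exact absurd (Finset.mem_range.2 (by omega)) h
  have hdim := LinearMap.finrank_le_finrank_of_injective hinj
  rw [Module.finrank_pi_fintype] at hdim
  simp only [Module.finrank_fintype_fun_eq_card, Fintype.card_fin, Finset.sum_const,
    Finset.card_univ, smul_eq_mul] at hdim
  have hdim2 : n * n ≤ hh 0 (Iws (l.map (star_v c j0)) X) X := hdim
  have hle := hh_Iws_left_le (l.map (star_v c j0)) 0 X X
  rw [hlen] at hle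
  have h6 : kap c X ≤ p ^ 2 * n := h4
  calc (kap c X) ^ 2 ≤ (p ^ 2 * n) ^ 2 := Nat.pow_le_pow_left h6 2
    _ = p ^ 4 * (n * n) := by ring
    _ ≤ p ^ 4 * (p ^ (r - 1) * hh 0 X X) := Nat.mul_le_mul_left _ (hdim2.trans hle)
    _ = p ^ 4 * p ^ (r - 1) * hh 0 X X := by ring

end Pool.Agent.H34.Gam

end
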