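import Pool.Agent.H34.Gam.Cell
import Pool.Agent.H34.Gam.Star

/-!
Main theorem for elementary abelian groups over algebraically closed fields (job GAM-EMAIN).
-/

set_option autoImplicit false
set_option linter.unusedSectionVars false

noncomputable section

namespace Pool.Agent.H34.Gam

open Module

variable {K : Type} [Field K] {p r : ℕ} [Fact p.Prime] [CharP K p]

lemma emain_pgroup (p r : ℕ) [Fact p.Prime] : IsPGroup p (Er p r) := by
  intro g
  refine ⟨1, ?_⟩
  rw [pow_one]
  apply Multiplicative.toAdd.injective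
  rw [toAdd_pow]
  funext i
  simp

theorem kap_L_le (c : Fin r → K) (Y A : FRep K (Er p r)) :
    kap c (FRep.L Y A) ≤ finrank K A.V * kap c (FRep.L Y (FRep.triv K (Er p r))) := by
  have key : ∀ n : ℕ, ∀ A : FRep K (Er p r), finrank K A.V = n →
      kap c (FRep.L Y A) ≤ n * kap c (FRep.L Y (FRep.triv K (Er p r))) := by
    intro n
    induction n with
    | zero =>
      intro A hA
      have hs : Subsingleton A.V := Module.finrank_zero_iff.1 hA
      have h2 : finrank K (FRep.L Y A).V = 0 :=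
        Module.finrank_zero_of_subsingleton (R := K) (M := Y.V →ₗ[K] A.V)
      unfold kap
      omega
    | succ n ih =>
      intro A hA
      have hnt : Nontrivial A.V := Module.nontrivial_of_finrank_pos (R := K) (by omega)
      obtain ⟨x, hx, hx2⟩ := exists_invariant (emain_pgroup p r) A
      have hN : ∀ g, ∀ y ∈ Submodule.span K {x}, A.ρ g y ∈ Submodule.span K {x} := by
        intro g y hy
        obtain ⟨a, rfl⟩ := Submodule.mem_span_singleton.1 hy
        rw [map_smul, hx2]
        exact hy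
      let S : SES (FRep.triv K (Er p r)) A (FRep.quot A (Submodule.span K {x}) hN) :=
        SES.mk' ⟨LinearMap.toSpanSingleton K A.V x, fun g a => by
            show a • x = A.ρ g (a • x)
            rw [map_smul, hx2]⟩
          ⟨(Submodule.span K {x}).mkQ, fun g a => rfl⟩
          (fun a b hab => by
            have h1 : a • x = b • x := hab
            exact smul_left_injective K hx h1)
          (Submodule.mkQ_surjective _)
          (fun b => by
            show Submodule.Quotient.mk b = 0 ↔ _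
            rw [Submodule.Quotient.mk_eq_zero, Submodule.mem_span_singleton]
            rfl)
      have h1 := kap_ses c (SES.L Y S)
      have h2 : finrank K (FRep.quot A (Submodule.span K {x}) hN).V = n := by
        have h3 := S.finrank_eq
        have h4 : finrank K (FRep.triv K (Er p r)).V = 1 := Module.finrank_self K
        omega
      have h3 := ih _ h2
      calc kap c (FRep.L Y A) ≤ _ := h1
        _ ≤ kap c (FRep.L Y (FRep.triv K (Er p r))) +
            n * kap c (FRep.L Y (FRep.triv K (Er p r))) := Nat.add_le_add_left h3 _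
        _ = (n + 1) * kap c (FRep.L Y (FRep.triv K (Er p r))) := by ring
  exact key _ A rfl

theorem growth_rate [IsAlgClosed K] (M : FRep K (Er p r)) (g C0 : ℝ) (hg : 0 ≤ g)
    (h : ∀ n : ℕ, (hh 0 (FRep.L (FRep.pow M n) (FRep.triv K (Er p r)))
      (FRep.L (FRep.pow M n) (FRep.triv K (Er p r))) : ℝ) ≤ C0 * g ^ (2 * n))
    (z : ℕ) (A : FRep K (Er p r)) (w : Fin z → Fin r → K) (hw : LinearIndependent K w)
    (hA : IntMod p (Ann A) w) :
    ∀ ε : ℝ, 0 < ε → ∃ C : ℝ, ∀ k a : ℕ,
      (hh a (FRep.pow M k) A : ℝ) ≤ C * (g + ε) ^ k * (1 + ε) ^ a := by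
  obtain ⟨Cs, hCs⟩ := star (K := K) (p := p) (r := r)
  have hC0 : 0 ≤ C0 := by
    have h1 := h 0
    have h2 : (0 : ℝ) ≤ (hh 0 (FRep.L (FRep.pow M 0) (FRep.triv K (Er p r)))
      (FRep.L (FRep.pow M 0) (FRep.triv K (Er p r))) : ℝ) := Nat.cast_nonneg _
    have h3 : C0 * g ^ (2 * 0) = C0 := by simp
    rw [h3] at h1
    exact h2.trans h1
  obtain ⟨D, hD, kb, hkap, hkb⟩ : ∃ D : ℝ, 0 ≤ D ∧ ∃ kb : ℕ → ℕ,
      (∀ c : Fin r → K, c ≠ 0 → ∀ m, kap c (FRep.L (FRep.pow M m) (FRep.triv K (Er p r))) ≤ kb m) ∧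
      ∀ m, (kb m : ℝ) ≤ D * g ^ m := by
    refine ⟨Real.sqrt (Cs * C0), Real.sqrt_nonneg _, fun m => Nat.sqrt (Cs * hh 0
      (FRep.L (FRep.pow M m) (FRep.triv K (Er p r)))
      (FRep.L (FRep.pow M m) (FRep.triv K (Er p r)))), fun c hc m => ?_, fun m => ?_⟩
    · exact Nat.le_sqrt'.2 (hCs c hc _)
    · have h1 : ((Nat.sqrt (Cs * hh 0 (FRep.L (FRep.pow M m) (FRep.triv K (Er p r)))
          (FRep.L (FRep.pow M m) (FRep.triv K (Er p r)))) : ℕ) : ℝ) ^ 2 ≤
          (Real.sqrt (Cs * C0) * g ^ m) ^ 2 := by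
        have h2 := Nat.sqrt_le' (Cs * hh 0 (FRep.L (FRep.pow M m) (FRep.triv K (Er p r)))
          (FRep.L (FRep.pow M m) (FRep.triv K (Er p r))))
        have h3 : ((Nat.sqrt (Cs * hh 0 (FRep.L (FRep.pow M m) (FRep.triv K (Er p r)))
          (FRep.L (FRep.pow M m) (FRep.triv K (Er p r)))) : ℕ) : ℝ) ^ 2 ≤
          (Cs : ℝ) * (hh 0 (FRep.L (FRep.pow M m) (FRep.triv K (Er p r)))
          (FRep.L (FRep.pow M m) (FRep.triv K (Er p r))) : ℝ) := by exact_mod_cast h2
        have h4 : (Real.sqrt (Cs * C0) * g ^ m) ^ 2 = Cs * (C0 * g ^ (2 * m)) := by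
          rw [mul_pow, Real.sq_sqrt (by positivity), ← pow_mul, mul_comm m 2, mul_assoc]
        rw [h4]
        exact h3.trans (mul_le_mul_of_nonneg_left (h m) (Nat.cast_nonneg _))
      exact (pow_le_pow_iff_left₀ (Nat.cast_nonneg _) (by positivity) (by norm_num)).1 h1
  induction z generalizing A with
  | zero =>
    intro ε hε
    exact ⟨0, fun k a => by rw [proj_of_int0 A w hA]; simp⟩
  | succ z ih =>
    obtain ⟨C, hC, hcell⟩ := cell A w hw hA
    refine recursion (fun k a => hh a (FRep.pow M k) A) g (C * (finrank K A.V * D)) hg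
      (by positivity) (fun k => poly_growth (FRep.pow M k) A) ?_
    intro m hm
    obtain ⟨T, w', hw', hT, N, e, hN, hrec⟩ := hcell (FRep.pow M m) (finrank K A.V * kb m)
      (fun c hc => (kap_L_le c _ A).trans (Nat.mul_le_mul_left _ (hkap c hc m)))
    refine ⟨N, e, fun k a => hh a (FRep.pow M k) T, ?_, ih T w' hw' hT, ?_⟩
    · calc (N : ℝ) ≤ C * ((finrank K A.V * kb m : ℕ) : ℝ) := hN
        _ = C * ((finrank K A.V : ℝ) * (kb m : ℝ)) := by push_cast; ring
        _ ≤ C * ((finrank K A.V : ℝ) * (D * g ^ m)) := by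
          have := hkb m
          gcongr
        _ = C * ((finrank K A.V : ℝ) * D) * g ^ m := by ring
    · intro k a
      have h1 := hrec (FRep.pow M k) a
      rwa [hh_iso_left (Iso_pow_add M k m)] at h1

theorem emain [IsAlgClosed K] (M : FRep K (Er p r)) (g C0 : ℝ) (hg : 0 ≤ g)
    (h : ∀ n : ℕ, (hh 0 (FRep.L (FRep.pow M n) (FRep.triv K (Er p r)))
      (FRep.L (FRep.pow M n) (FRep.triv K (Er p r))) : ℝ) ≤ C0 * g ^ (2 * n)) :
    ∀ ε : ℝ, 0 < ε → ∃ C : ℝ, ∀ n : ℕ, (cc (FRep.pow M n) : ℝ) ≤ C * (g + ε) ^ n := by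
  intro ε hε
  have hw : LinearIndependent K (fun i : Fin r => (Pi.single i 1 : Fin r → K)) := by
    have h1 := (Pi.basisFun K (Fin r)).linearIndependent
    have h2 : (fun i : Fin r => (Pi.single i 1 : Fin r → K)) = ⇑(Pi.basisFun K (Fin r)) := by
      funext i
      rw [Pi.basisFun_apply]
    rw [h2]
    exact h1
  obtain ⟨C, hC⟩ := growth_rate M g C0 hg h r (FRep.triv K (Er p r)) _ hw (intMod_top p _) ε hε
  refine ⟨Fintype.card (Er p r) * C, fun n => ?_⟩
  have h1 : cc (FRep.pow M n) ≤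
      Fintype.card (Er p r) * hh 0 (FRep.pow M n) (FRep.triv K (Er p r)) := by
    rw [← cc_dual (emain_pgroup p r) (FRep.pow M n)]
    exact cc_le_hh0 (emain_pgroup p r) _ _
  have h2 := hC n 0
  rw [pow_zero, mul_one] at h2
  calc (cc (FRep.pow M n) : ℝ) ≤
      ((Fintype.card (Er p r) * hh 0 (FRep.pow M n) (FRep.triv K (Er p r)) : ℕ) : ℝ) := by
        exact_mod_cast h1
    _ = (Fintype.card (Er p r) : ℝ) * (hh 0 (FRep.pow M n) (FRep.triv K (Er p r)) : ℝ) := by
        push_cast; ring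
    _ ≤ (Fintype.card (Er p r) : ℝ) * (C * (g + ε) ^ n) := by gcongr
    _ = Fintype.card (Er p r) * C * (g + ε) ^ n := by ring

end Pool.Agent.H34.Gam

end
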