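import Pool.Agent.H34.Gam.Core

/-!
Short exact sequences (with chosen linear splittings), connecting maps `δ : C → Sh A`,
the long exact sequence for stable Hom spaces, the swap on `Sh (Sh W)`.
-/

set_option autoImplicit false
set_option linter.unusedSectionVars false

noncomputable section

namespace Pool.Agent.H34.Gam

variable {K G : Type} [Field K] [Group G] [Fintype G]

/-- Short exact sequence of representations, together with a linear splitting. -/
structure SES (A B C : FRep K G) where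
  i : EHom A B
  p : EHom B C
  s : C.V →ₗ[K] B.V
  r : B.V →ₗ[K] A.V
  ri : ∀ a, r (i.1 a) = a
  ps : ∀ c, p.1 (s c) = c
  pi : ∀ a, p.1 (i.1 a) = 0
  sum : ∀ b, i.1 (r b) + s (p.1 b) = b

namespace SES

variable {A B C : FRep K G}

lemma rs (S : SES A B C) (c : C.V) : S.r (S.s c) = 0 := by
  have h := S.sum (S.s c)
  rw [S.ps] at h
  have h2 : S.i.1 (S.r (S.s c)) = 0 := by simpa using h
  have h3 := congrArg S.r h2
  rwa [S.ri, map_zero] at h3

lemma exact_mem (S : SES A B C) {b : B.V} (hb : S.p.1 b = 0) : S.i.1 (S.r b) = b := by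
  have h := S.sum b
  rwa [hb, map_zero, add_zero] at h

/-- constructor from an exact sequence without splitting -/
def mk' (i : EHom A B) (p : EHom B C) (hi : Function.Injective i.1)
    (hp : Function.Surjective p.1) (he : ∀ b, p.1 b = 0 ↔ ∃ a, i.1 a = b) : SES A B C :=
  have hs := p.1.exists_rightInverse_of_surjective (LinearMap.range_eq_top.mpr hp)
  have hr := i.1.exists_leftInverse_of_injective (LinearMap.ker_eq_bot.mpr hi)
  { i := i
    p := p
    s := Classical.choose hs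
    r := Classical.choose hr ∘ₗ (LinearMap.id - Classical.choose hs ∘ₗ p.1)
    ri := by
      intro a
      have h1 := LinearMap.congr_fun (Classical.choose_spec hr) a
      have h2 : p.1 (i.1 a) = 0 := (he _).2 ⟨a, rfl⟩
      simp only [LinearMap.comp_apply, LinearMap.sub_apply, LinearMap.id_apply, h2, map_zero,
        sub_zero] at h1 ⊢
      exact h1
    ps := by
      intro c
      exact LinearMap.congr_fun (Classical.choose_spec hs) c
    pi := fun a => (he _).2 ⟨a, rfl⟩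
    sum := by
      intro b
      have h1 := LinearMap.congr_fun (Classical.choose_spec hs) (p.1 b)
      simp only [LinearMap.comp_apply, LinearMap.id_apply] at h1
      have h2 : p.1 (b - Classical.choose hs (p.1 b)) = 0 := by
        rw [map_sub, h1, sub_self]
      obtain ⟨a, ha⟩ := (he _).1 h2
      have h3 := LinearMap.congr_fun (Classical.choose_spec hr) a
      simp only [LinearMap.comp_apply, LinearMap.id_apply] at h3
      simp only [LinearMap.comp_apply, LinearMap.sub_apply, LinearMap.id_apply]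
      rw [← ha, h3, ha]
      abel }

/-- the function `g ↦ r (g s (g⁻¹ c))` -/
def dfun (S : SES A B C) : C.V →ₗ[K] (G → A.V) :=
  LinearMap.pi fun g => S.r ∘ₗ (B.ρ g) ∘ₗ S.s ∘ₗ (C.ρ g⁻¹)

lemma dfun_apply (S : SES A B C) (c : C.V) (g : G) :
    S.dfun c g = S.r (B.ρ g (S.s (C.ρ g⁻¹ c))) := rfl

lemma i_dfun (S : SES A B C) (c : C.V) (g : G) :
    S.i.1 (S.dfun c g) = B.ρ g (S.s (C.ρ g⁻¹ c)) - S.s c := by
  have h := S.sum (B.ρ g (S.s (C.ρ g⁻¹ c)))
  rw [EHom.map, S.ps, FRep.self_inv] at h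
  rw [dfun_apply, eq_sub_iff_add_eq]
  exact h

lemma i_injective (S : SES A B C) : Function.Injective S.i.1 := by
  intro a a' h
  rw [← S.ri a, h, S.ri]

lemma p_surjective (S : SES A B C) : Function.Surjective S.p.1 := fun c => ⟨S.s c, S.ps c⟩

/-- connecting map `C → Sh A` -/
def δ (S : SES A B C) : EHom C (FRep.Sh A) :=
  ⟨shq A ∘ₗ S.dfun, by
    intro h c
    rw [LinearMap.comp_apply, LinearMap.comp_apply, shq_ρ, shq_eq]
    refine ⟨S.r (B.ρ h (S.s c)), fun g => ?_⟩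
    apply S.i_injective
    rw [map_add, i_dfun, EHom.map, i_dfun, map_sub]
    have e1 : C.ρ g⁻¹ (C.ρ h c) = C.ρ (h⁻¹ * g)⁻¹ c := by
      rw [← FRep.mul_apply]; congr 1; group
    have e2 : B.ρ h (B.ρ (h⁻¹ * g) (S.s (C.ρ (h⁻¹ * g)⁻¹ c)))
        = B.ρ g (S.s (C.ρ (h⁻¹ * g)⁻¹ c)) := by
      rw [← FRep.mul_apply]; congr 2; group
    have e3 := S.sum (B.ρ h (S.s c))
    rw [EHom.map, S.ps] at e3
    rw [e1, e2, eq_sub_of_add_eq e3]
    abel⟩

lemma δ_apply (S : SES A B C) (c : C.V) : S.δ.1 c = shq A (S.dfun c) := rfl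

/-- exactness at the middle term -/
theorem exact_mid (S : SES A B C) (U : FRep K G) (x : Hs U B) (hx : Hs.mapR U S.p x = 0) :
    ∃ y : Hs U A, Hs.mapR U S.i y = x := by
  obtain ⟨f, rfl⟩ := cl_surjective x
  rw [Hs.mapR_cl, cl_eq_zero, mem_Null] at hx
  obtain ⟨φ, hφ⟩ := hx
  -- f - Tr (s ∘ φ) has image in A
  have h0 : ∀ u, S.p.1 (f.1 u - Tr U B (S.s ∘ₗ φ) u) = 0 := by
    intro u
    have h1 : S.p.1 ∘ₗ Tr U B (S.s ∘ₗ φ) = Tr U C φ := by
      rw [← Tr_comp_left]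
      congr 1
      ext u; exact S.ps _
    have h2 := LinearMap.congr_fun h1 u
    have h3 := LinearMap.congr_fun hφ u
    rw [ecomp_val, LinearMap.comp_apply] at h3
    rw [LinearMap.comp_apply] at h2
    rw [map_sub, h2, h3, sub_self]
  let y : EHom U A := ⟨S.r ∘ₗ (f.1 - Tr U B (S.s ∘ₗ φ)), by
    intro g u
    apply S.i_injective
    rw [EHom.map]
    simp only [LinearMap.comp_apply, LinearMap.sub_apply]
    rw [S.exact_mem (h0 _), S.exact_mem (h0 _), map_sub, EHom.map]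
    rw [Tr_mem U B (S.s ∘ₗ φ) g u]⟩
  refine ⟨cl y, ?_⟩
  rw [Hs.mapR_cl, eq_comm, cl_eq]
  refine ⟨S.s ∘ₗ φ, ?_⟩
  ext u
  show _ = f.1 u - S.i.1 (S.r (f.1 u - Tr U B (S.s ∘ₗ φ) u))
  rw [S.exact_mem (h0 _)]
  abel

lemma p_i_zero (S : SES A B C) (U : FRep K G) (x : Hs U A) :
    Hs.mapR U S.p (Hs.mapR U S.i x) = 0 := by
  obtain ⟨f, rfl⟩ := cl_surjective x
  rw [Hs.mapR_cl, Hs.mapR_cl]
  have : (ecomp S.p ((ecomp S.i f))) = 0 := by
    apply Subtype.ext; ext u; exact S.pi _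
  rw [this, map_zero]

end SES

/-- maps into functions are null, in the form: maps which lift to functions are null -/
lemma null_of_lift {U W : FRep K G} (f : EHom U (FRep.Sh W)) (F : EHom U (FRep.Fn W))
    (hF : ∀ u, f.1 u = shq W (F.1 u)) : f ∈ Null U (FRep.Sh W) := by
  let q : EHom (FRep.Fn W) (FRep.Sh W) := ⟨shq W, fun g x => rfl⟩
  have : f = (ecomp q F) := by
    apply Subtype.ext; ext u; exact hF u
  rw [this]
  exact null_of_factor F q

/-- null maps to `Sh W` lift to functions -/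
lemma lift_of_null {U W : FRep K G} {f : EHom U (FRep.Sh W)} (hf : f ∈ Null U (FRep.Sh W)) :
    ∃ F : EHom U (FRep.Fn W), ∀ u, f.1 u = shq W (F.1 u) := by
  obtain ⟨φ, hφ⟩ := mem_Null.1 hf
  obtain ⟨s, hs⟩ := (shq W).exists_rightInverse_of_surjective
    (LinearMap.range_eq_top.mpr (shq_surjective W))
  let q : EHom (FRep.Fn W) (FRep.Sh W) := ⟨shq W, fun g x => rfl⟩
  refine ⟨⟨Tr U (FRep.Fn W) (s ∘ₗ φ), Tr_mem _ _ _⟩, fun u => ?_⟩
  rw [← hφ]
  have h := Tr_comp_left q (s ∘ₗ φ)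
  have h2 : q.1 ∘ₗ (s ∘ₗ φ) = φ := by
    rw [← LinearMap.comp_assoc]
    show ((shq W) ∘ₗ s) ∘ₗ φ = φ
    rw [hs, LinearMap.id_comp]
  rw [h2] at h
  exact LinearMap.congr_fun h u

namespace SES

variable {A B C : FRep K G}

lemma δ_p_zero (S : SES A B C) (U : FRep K G) (x : Hs U B) :
    Hs.mapR U S.δ (Hs.mapR U S.p x) = 0 := by
  obtain ⟨f, rfl⟩ := cl_surjective x
  rw [Hs.mapR_cl, Hs.mapR_cl, cl_eq_zero]
  -- lift: u ↦ (g ↦ - g r (g⁻¹ f u))
  refine null_of_lift _ ⟨LinearMap.pi fun g => - (A.ρ g ∘ₗ S.r ∘ₗ B.ρ g⁻¹ ∘ₗ f.1), ?_⟩ ?_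
  · intro h u
    funext g
    rw [FRep.Fn_apply]
    simp only [LinearMap.pi_apply, LinearMap.neg_apply, LinearMap.comp_apply, map_neg, EHom.map]
    rw [← FRep.mul_apply, ← FRep.mul_apply]
    have e1 : h * (h⁻¹ * g) = g := by group
    have e2 : (h⁻¹ * g)⁻¹ = g⁻¹ * h := by group
    rw [e1, e2]
  · intro u
    show shq A (S.dfun (S.p.1 (f.1 u))) = _
    rw [shq_eq]
    refine ⟨S.r (f.1 u), fun g => ?_⟩
    apply S.i_injective
    rw [i_dfun, map_add]
    simp only [LinearMap.pi_apply, LinearMap.neg_apply, LinearMap.comp_apply, map_neg, EHom.map]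
    have e1 := S.sum (f.1 u)
    have e2 := S.sum (B.ρ g⁻¹ (f.1 u))
    have e3 := congrArg (B.ρ g) e2
    rw [map_add, FRep.self_inv, EHom.map, ← EHom.map] at e3
    rw [EHom.map] at e3
    rw [eq_sub_of_add_eq e1]
    rw [eq_sub_of_add_eq e3]
    abel

/-- exactness at `C` -/
theorem exact_right (S : SES A B C) (U : FRep K G) (x : Hs U C) (hx : Hs.mapR U S.δ x = 0) :
    ∃ y : Hs U B, Hs.mapR U S.p y = x := by
  obtain ⟨f, rfl⟩ := cl_surjective x
  rw [Hs.mapR_cl, cl_eq_zero] at hx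
  obtain ⟨F, hF⟩ := lift_of_null hx
  -- F u g = dfun (f u) g - c u
  have h1 : ∀ u, ∃ w, ∀ g, S.dfun (f.1 u) g = F.1 u g + w := fun u => by
    have := hF u
    exact (shq_eq A _ _).1 this
  -- define y u = s (f u) + i(dfun (f u) 1) - i (F u 1)
  have key : ∀ u g, B.ρ g (S.s (C.ρ g⁻¹ (f.1 u))) - S.i.1 (F.1 u g)
      = S.s (f.1 u) - S.i.1 (F.1 u 1) := by
    intro u g
    obtain ⟨w, hw⟩ := h1 u
    have a1 := S.i_dfun (f.1 u) g
    have a2 := S.i_dfun (f.1 u) 1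
    rw [hw g, map_add] at a1
    rw [hw 1, map_add, inv_one, FRep.one_apply, FRep.one_apply, sub_self] at a2
    have a3 : S.i.1 w = - S.i.1 (F.1 u 1) := by
      rw [eq_neg_iff_add_eq_zero, add_comm]; exact a2
    rw [a3] at a1
    have a4 : B.ρ g (S.s (C.ρ g⁻¹ (f.1 u))) = S.i.1 (F.1 u g) + -S.i.1 (F.1 u 1) + S.s (f.1 u) := by
      rw [a1]; abel
    rw [a4]; abel
  let y : EHom U B := ⟨S.s ∘ₗ f.1 - S.i.1 ∘ₗ (LinearMap.proj 1) ∘ₗ F.1, by
    intro h u
    simp only [LinearMap.sub_apply, LinearMap.comp_apply, LinearMap.proj_apply]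
    rw [← key (U.ρ h u) h, EHom.map f, FRep.inv_self, map_sub]
    congr 1
    rw [← EHom.map]
    congr 1
    have := congrFun (F.2 h u) h
    rw [this, FRep.Fn_apply, inv_mul_cancel]⟩
  refine ⟨cl y, ?_⟩
  rw [Hs.mapR_cl]
  congr 1
  apply Subtype.ext; ext u
  show S.p.1 (S.s (f.1 u) - S.i.1 (F.1 u 1)) = f.1 u
  rw [map_sub, S.ps, S.pi, sub_zero]

lemma shi_δ_zero (S : SES A B C) (U : FRep K G) (x : Hs U C) :
    Hs.mapR U (Sh.map S.i) (Hs.mapR U S.δ x) = 0 := by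
  obtain ⟨f, rfl⟩ := cl_surjective x
  rw [Hs.mapR_cl, Hs.mapR_cl, cl_eq_zero]
  refine null_of_lift _ ⟨LinearMap.pi fun g => (B.ρ g ∘ₗ S.s ∘ₗ C.ρ g⁻¹ ∘ₗ f.1), ?_⟩ ?_
  · intro h u
    funext g
    rw [FRep.Fn_apply]
    simp only [LinearMap.pi_apply, LinearMap.comp_apply, EHom.map]
    rw [← FRep.mul_apply, ← FRep.mul_apply]
    have e1 : h * (h⁻¹ * g) = g := by group
    have e2 : (h⁻¹ * g)⁻¹ = g⁻¹ * h := by group
    rw [e1, e2]
  · intro u
    show Sh.lmap S.i.1 (shq A (S.dfun (f.1 u))) = _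
    rw [Sh.lmap_shq, shq_eq]
    refine ⟨- S.s (f.1 u), fun g => ?_⟩
    rw [i_dfun]
    simp only [LinearMap.pi_apply, LinearMap.comp_apply]
    abel

/-- exactness at `Sh A` -/
theorem exact_left (S : SES A B C) (U : FRep K G) (x : Hs U (FRep.Sh A))
    (hx : Hs.mapR U (Sh.map S.i) x = 0) : ∃ y : Hs U C, Hs.mapR U S.δ y = x := by
  obtain ⟨f, rfl⟩ := cl_surjective x
  rw [Hs.mapR_cl, cl_eq_zero] at hx
  obtain ⟨F, hF⟩ := lift_of_null hx
  -- p (F u g) is independent of g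
  have h1 : ∀ u, ∃ φ : G → A.V, f.1 u = shq A φ ∧ ∃ w, ∀ g, S.i.1 (φ g) = F.1 u g + w := by
    intro u
    obtain ⟨φ, hφ⟩ := shq_surjective A (f.1 u)
    refine ⟨φ, hφ.symm, ?_⟩
    have h := hF u
    have h2 : ((ecomp (Sh.map S.i) f)).1 u = Sh.lmap S.i.1 (f.1 u) := rfl
    rw [h2, ← hφ, Sh.lmap_shq, shq_eq] at h
    exact h
  have h2 : ∀ u g, S.p.1 (F.1 u g) = S.p.1 (F.1 u 1) := by
    intro u g
    obtain ⟨φ, _, w, hw⟩ := h1 u
    have a1 := congrArg S.p.1 (hw g)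
    have a2 := congrArg S.p.1 (hw 1)
    rw [S.pi, map_add] at a1 a2
    exact add_right_cancel (a1.symm.trans a2)
  have hFe : ∀ h u g, F.1 (U.ρ h u) g = B.ρ h (F.1 u (h⁻¹ * g)) := by
    intro h u g
    have := congrFun (F.2 h u) g
    rw [this, FRep.Fn_apply]
  let y : EHom U C := ⟨S.p.1 ∘ₗ (LinearMap.proj 1) ∘ₗ F.1, by
    intro h u
    simp only [LinearMap.comp_apply, LinearMap.proj_apply]
    rw [hFe, EHom.map, h2]⟩
  refine ⟨cl y, ?_⟩
  rw [Hs.mapR_cl, eq_comm, cl_eq]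
  -- f - δ y lifts
  refine null_of_lift _ ⟨LinearMap.pi fun g =>
    (A.ρ g ∘ₗ S.r ∘ₗ (LinearMap.proj 1) ∘ₗ F.1 ∘ₗ U.ρ g⁻¹), ?_⟩ ?_
  · intro h u
    funext g
    rw [FRep.Fn_apply]
    simp only [LinearMap.pi_apply, LinearMap.comp_apply]
    rw [← FRep.mul_apply, ← FRep.mul_apply]
    have e1 : h * (h⁻¹ * g) = g := by group
    have e2 : (h⁻¹ * g)⁻¹ = g⁻¹ * h := by group
    rw [e1, e2]
  · intro u
    obtain ⟨φ, hφ, w, hw⟩ := h1 u
    show f.1 u - shq A (S.dfun (y.1 u)) = _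
    rw [hφ, ← map_sub, shq_eq]
    -- i (φ g - dfun (y u) g) = F u g + w - g s g⁻¹ (y u) + s (y u)
    have hy : ∀ g, C.ρ g⁻¹ (y.1 u) = S.p.1 (F.1 (U.ρ g⁻¹ u) 1) := by
      intro g
      show C.ρ g⁻¹ (S.p.1 (F.1 u 1)) = _
      rw [hFe, EHom.map, inv_inv, mul_one, h2 u g]
    have hp : S.p.1 (w + S.s (y.1 u)) = 0 := by
      have a1 := congrArg S.p.1 (hw 1)
      rw [S.pi, map_add] at a1
      rw [map_add, S.ps]
      show S.p.1 w + S.p.1 (F.1 u 1) = 0
      rw [add_comm]; exact a1.symm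
    refine ⟨S.r (w + S.s (y.1 u)), fun g => ?_⟩
    apply S.i_injective
    rw [map_add, S.exact_mem hp]
    simp only [Pi.sub_apply, map_sub, LinearMap.pi_apply, LinearMap.comp_apply,
      LinearMap.proj_apply, EHom.map]
    rw [hw g, i_dfun, hy g]
    have e1 := S.sum (F.1 (U.ρ g⁻¹ u) 1)
    have e2 := congrArg (B.ρ g) e1
    rw [map_add] at e2
    have e3 : B.ρ g (F.1 (U.ρ g⁻¹ u) 1) = F.1 u g := by
      rw [hFe, inv_inv, mul_one, FRep.self_inv]
    rw [e3] at e2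
    rw [eq_sub_of_add_eq e2]
    abel

end SES

end Pool.Agent.H34.Gam

end
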