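import Pool.Agent.H34.Gam.Cact
import Pool.Agent.H34.Gam.Num

/-!
The rank lemma (job GAM-RANK): a graded module over a polynomial ring in `z+1` variables whose
components grow at most like `β a^z` contains at most `C β` independent homogeneous elements;
modulo a maximal independent family (of a common degree `D ≥ 1`) everything is torsion.
-/

set_option autoImplicit false

noncomputable section

namespace Pool.Agent.H34.Gam

section rank

open MvPolynomial

variable {z : ℕ} {K M : Type} [Field K] [AddCommGroup M] [Module K M]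
  (B : Fin (z + 1) → Module.End K M) (hB : ∀ i j, B i * B j = B j * B i)
  (𝒢 : ℕ → Submodule K M)

lemma cact_mul_apply (p q : MvPolynomial (Fin (z + 1)) K) (x : M) :
    cact B hB (p * q) x = cact B hB p (cact B hB q x) := by
  rw [map_mul]; rfl

lemma cact_monomial_mem (hdeg : ∀ (i : Fin (z + 1)) (d : ℕ) (x : M), x ∈ 𝒢 d → B i x ∈ 𝒢 (d + 1))
    (s : Fin (z + 1) →₀ ℕ) : ∀ (d : ℕ) (x : M), x ∈ 𝒢 d →
      cact B hB (monomial s (1 : K)) x ∈ 𝒢 (d + s.degree) := by
  induction s using Finsupp.induction_linear with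
  | zero =>
    intro d x hx
    rw [← C_apply, C_1, map_one]
    simpa using hx
  | add s t hs ht =>
    intro d x hx
    have h1 : monomial (s + t) (1 : K) = monomial s (1 : K) * monomial t (1 : K) := by
      rw [monomial_mul, mul_one]
    rw [h1, cact_mul_apply]
    have h2 := hs _ _ (ht d x hx)
    have h3 : d + t.degree + s.degree = d + (s + t).degree := by rw [map_add]; ring
    rwa [h3] at h2
  | single i k =>
    intro d x hx
    have h1 : monomial (Finsupp.single i k) (1 : K) = (X i : MvPolynomial (Fin (z + 1)) K) ^ k := by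
      rw [X_pow_eq_monomial]
    rw [h1, Finsupp.degree_single]
    induction k with
    | zero => simpa using hx
    | succ k ih =>
      rw [pow_succ', cact_mul_apply, cact_X]
      exact hdeg i _ _ (ih (by rw [X_pow_eq_monomial]))

lemma cact_X_pow_mem (hdeg : ∀ (i : Fin (z + 1)) (d : ℕ) (x : M), x ∈ 𝒢 d → B i x ∈ 𝒢 (d + 1))
    (j d : ℕ) (x : M) (hx : x ∈ 𝒢 d) :
    cact B hB ((X 0 : MvPolynomial (Fin (z + 1)) K) ^ j) x ∈ 𝒢 (d + j) := by
  have := cact_monomial_mem B hB 𝒢 hdeg (Finsupp.single 0 j) d x hx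
  rwa [← X_pow_eq_monomial, Finsupp.degree_single] at this

/-- independent families of homogeneous elements of degree `D` -/
def IndepFam (D N : ℕ) (x : Fin N → M) : Prop :=
  (∀ t, x t ∈ 𝒢 D) ∧ ∀ (e : ℕ) (q : Fin N → MvPolynomial (Fin (z + 1)) K),
    (∀ t, (q t).IsHomogeneous e) → ∑ t, cact B hB (q t) (x t) = 0 → ∀ t, q t = 0

/-- exponent vectors -/
def expo (m : ℕ) (a : Fin z → Fin (m + 1)) : Fin (z + 1) →₀ ℕ :=
  Finsupp.equivFunOnFinite.symm
    (Fin.snoc (α := fun _ => ℕ) (fun i => (a i : ℕ)) ((z + 1) * m - ∑ i, (a i : ℕ)))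

lemma expo_degree (m : ℕ) (a : Fin z → Fin (m + 1)) : (expo m a).degree = (z + 1) * m := by
  have h1 : ∑ i, (a i : ℕ) ≤ z * m := by
    calc ∑ i, (a i : ℕ) ≤ ∑ _i : Fin z, m := Finset.sum_le_sum fun i _ => by
          have := (a i).2
          omega
      _ = z * m := by simp
  rw [Finsupp.degree_eq_sum, Fin.sum_univ_castSucc]
  have h2 : ∀ i : Fin z, expo m a i.castSucc = (a i : ℕ) := fun i => by
    simp [expo]
  have h3 : expo m a (Fin.last z) = (z + 1) * m - ∑ i, (a i : ℕ) := by simp [expo]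
  simp only [h2, h3]
  have : z * m ≤ (z + 1) * m := by nlinarith
  omega

lemma expo_injective (m : ℕ) : Function.Injective (expo (z := z) m) := by
  intro a b hab
  funext i
  have h1 := DFunLike.congr_fun hab i.castSucc
  have h2 : ∀ (a : Fin z → Fin (m + 1)) (i : Fin z), expo m a i.castSucc = (a i : ℕ) :=
    fun a i => by simp [expo]
  rw [h2, h2] at h1
  exact Fin.ext h1

lemma IndepFam.card_le [∀ d, FiniteDimensional K (𝒢 d)]
    (hdeg : ∀ (i : Fin (z + 1)) (d : ℕ) (x : M), x ∈ 𝒢 d → B i x ∈ 𝒢 (d + 1))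
    {D N : ℕ} {x : Fin N → M} (h : IndepFam B hB 𝒢 D N x) (m : ℕ) :
    N * (m + 1) ^ z ≤ Module.finrank K (𝒢 (D + (z + 1) * m)) := by
  let v : Fin N × (Fin z → Fin (m + 1)) → 𝒢 (D + (z + 1) * m) := fun ta =>
    ⟨cact B hB (monomial (expo m ta.2) (1 : K)) (x ta.1), by
      have := cact_monomial_mem B hB 𝒢 hdeg (expo m ta.2) D (x ta.1) (h.1 _)
      rwa [expo_degree] at this⟩
  have hli : LinearIndependent K v := by
    rw [Fintype.linearIndependent_iff]
    intro g hg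
    have hq := h.2 ((z + 1) * m) (fun t => ∑ a, monomial (expo m a) (g (t, a))) (fun t => by
      apply IsHomogeneous.sum
      intro a _
      exact isHomogeneous_monomial _ (expo_degree m a)) (by
      have h1 := congrArg (fun w : 𝒢 (D + (z + 1) * m) => (w : M)) hg
      simp only [Submodule.coe_sum, Submodule.coe_smul, Submodule.coe_zero] at h1
      rw [Fintype.sum_prod_type] at h1
      rw [← h1]
      refine Finset.sum_congr rfl fun t _ => ?_
      rw [map_sum, LinearMap.sum_apply]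
      refine Finset.sum_congr rfl fun a _ => ?_
      have h2 : monomial (expo m a) (g (t, a)) = C (g (t, a)) * monomial (expo m a) (1 : K) := by
        rw [C_mul_monomial, mul_one]
      rw [h2, cact_mul_apply, cact_C]
      rfl)
    rintro ⟨t, a⟩
    have h3 := congrArg (coeff (expo m a)) (hq t)
    rw [coeff_sum, coeff_zero, Finset.sum_eq_single a] at h3
    · simpa using h3
    · intro b _ hba
      rw [coeff_monomial, if_neg]
      exact fun hE => hba (expo_injective m hE)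
    · intro ha
      exact absurd (Finset.mem_univ a) ha
  have := hli.fintype_card_le_finrank
  simpa using this

lemma IndepFam.shift (hdeg : ∀ (i : Fin (z + 1)) (d : ℕ) (x : M), x ∈ 𝒢 d → B i x ∈ 𝒢 (d + 1))
    {D N : ℕ} {x : Fin N → M} (h : IndepFam B hB 𝒢 D N x) (j : ℕ) :
    IndepFam B hB 𝒢 (D + j) N
      (fun t => cact B hB ((X 0 : MvPolynomial (Fin (z + 1)) K) ^ j) (x t)) := by
  refine ⟨fun t => cact_X_pow_mem B hB 𝒢 hdeg j D _ (h.1 t), fun e q hq hs t => ?_⟩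
  have h1 := h.2 (e + j) (fun t => q t * X 0 ^ j) (fun t => (hq t).mul (isHomogeneous_X_pow _ _))
    (by simpa only [cact_mul_apply] using hs) t
  exact (mul_eq_zero.1 h1).resolve_right (pow_ne_zero _ (X_ne_zero _))

open Filter Topology in
lemma real_bound (z D N : ℕ) (f : ℕ → ℕ) (β : ℝ) (hβ : 0 ≤ β) (hf : GrowthLE f β z)
    (h : ∀ m : ℕ, N * (m + 1) ^ z ≤ f (2 * (D + (z + 1) * m))) :
    (N : ℝ) ≤ (2 * ((z : ℝ) + 1)) ^ z * β := by
  have key : ∀ ε : ℝ, 0 < ε → (N : ℝ) ≤ (β + ε) * (2 * ((z : ℝ) + 1)) ^ z := by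
    intro ε hε
    obtain ⟨a₀, ha₀⟩ := hf ε hε
    have hlim : Tendsto (fun m : ℕ => (β + ε) *
        ((2 * (D + ((z : ℝ) + 1) * m) + 1) / ((m : ℝ) + 1)) ^ z) atTop
        (𝓝 ((β + ε) * (2 * ((z : ℝ) + 1)) ^ z)) := by
      refine Tendsto.const_mul _ (Tendsto.pow ?_ z)
      have h1 : (fun m : ℕ => (2 * (D + ((z : ℝ) + 1) * m) + 1) / ((m : ℝ) + 1))
          = fun m : ℕ => 2 * ((z : ℝ) + 1) + (2 * D + 1 - 2 * ((z : ℝ) + 1)) * (1 / ((m : ℝ) + 1)) := by
        funext m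
        have : (m : ℝ) + 1 ≠ 0 := by positivity
        field_simp
        ring
      rw [h1]
      have h2 := (tendsto_one_div_add_atTop_nhds_zero_nat (𝕜 := ℝ)).const_mul
        (2 * (D : ℝ) + 1 - 2 * ((z : ℝ) + 1))
      simpa using h2.const_add (2 * ((z : ℝ) + 1))
    refine ge_of_tendsto hlim ?_
    filter_upwards [eventually_ge_atTop a₀] with m hm
    have h1 : a₀ ≤ 2 * (D + (z + 1) * m) := by nlinarith
    have h2 := ha₀ _ h1
    have h3 : ((N * (m + 1) ^ z : ℕ) : ℝ) ≤ (f (2 * (D + (z + 1) * m)) : ℝ) := by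
      exact_mod_cast h m
    have h4 := h3.trans h2
    push_cast at h4
    rw [div_pow, mul_div_assoc']
    rw [le_div_iff₀ (by positivity)]
    exact h4
  have h5 : Tendsto (fun ε : ℝ => (β + ε) * (2 * ((z : ℝ) + 1)) ^ z) (𝓝[>] 0)
      (𝓝 ((β + 0) * (2 * ((z : ℝ) + 1)) ^ z)) := by
    have : Continuous fun ε : ℝ => (β + ε) * (2 * ((z : ℝ) + 1)) ^ z := by fun_prop
    exact (this.tendsto 0).mono_left nhdsWithin_le_nhds
  have h6 := ge_of_tendsto h5 (by
    filter_upwards [self_mem_nhdsWithin] with ε hε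
    exact key ε hε)
  rw [add_zero, mul_comm] at h6
  exact h6

end rank

theorem rank_lemma (z : ℕ) : ∃ C : ℝ, 0 ≤ C ∧
    ∀ (K M : Type) [Field K] [AddCommGroup M] [Module K M] (B : Fin (z + 1) → Module.End K M)
      (hB : ∀ i j, B i * B j = B j * B i) (𝒢 : ℕ → Submodule K M)
      (_ : ∀ d, FiniteDimensional K (𝒢 d))
      (_ : ∀ (i : Fin (z + 1)) (d : ℕ) (x : M), x ∈ 𝒢 d → B i x ∈ 𝒢 (d + 1))
      (f : ℕ → ℕ) (β : ℝ) (_ : 0 ≤ β) (_ : ∀ d, Module.finrank K (𝒢 d) ≤ f (2 * d))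
      (_ : GrowthLE f β z),
    ∃ (D N : ℕ) (x : Fin N → M), 1 ≤ D ∧ (N : ℝ) ≤ C * β ∧ (∀ t, x t ∈ 𝒢 D) ∧
      ∀ (d : ℕ) (y : M), y ∈ 𝒢 d → ∃ (e : ℕ) (h : MvPolynomial (Fin (z + 1)) K),
        h ≠ 0 ∧ h.IsHomogeneous e ∧ D ≤ d + e ∧
        ∃ q : Fin N → MvPolynomial (Fin (z + 1)) K, (∀ t, (q t).IsHomogeneous (d + e - D)) ∧
          cact B hB h y = ∑ t, cact B hB (q t) (x t) := by
  classical
  refine ⟨(2 * ((z : ℝ) + 1)) ^ z, by positivity, ?_⟩
  intro K M _ _ _ B hB 𝒢 hfin hdeg f β hβ hdim hf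
  have hbound : ∀ D N (x : Fin N → M), IndepFam B hB 𝒢 D N x →
      (N : ℝ) ≤ (2 * ((z : ℝ) + 1)) ^ z * β := by
    intro D N x h
    exact real_bound z D N f β hβ hf fun m => (h.card_le B hB 𝒢 hdeg m).trans (hdim _)
  let P : ℕ → Prop := fun N => ∃ D, ∃ x : Fin N → M, IndepFam B hB 𝒢 D N x
  have hP0 : P 0 := ⟨0, Fin.elim0, fun t => t.elim0, fun e q _ _ t => t.elim0⟩
  set b : ℕ := ⌊(2 * ((z : ℝ) + 1)) ^ z * β⌋₊ with hb
  have hPb : ∀ N, P N → N ≤ b := by
    rintro N ⟨D, x, h⟩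
    exact Nat.le_floor (hbound D N x h)
  obtain ⟨N, ⟨D₀, x₀, h₀⟩, hmax⟩ : ∃ N, P N ∧ ∀ N', P N' → N' ≤ N :=
    ⟨Nat.findGreatest P b, Nat.findGreatest_spec (Nat.zero_le b) hP0,
      fun N' h' => Nat.le_findGreatest (hPb N' h') h'⟩
  have h := h₀.shift B hB 𝒢 hdeg 1
  set D := D₀ + 1 with hD
  set x : Fin N → M := fun t => cact B hB ((MvPolynomial.X 0 : MvPolynomial (Fin (z + 1)) K) ^ 1)
    (x₀ t) with hx
  refine ⟨D, N, x, by omega, hbound D N x h, h.1, ?_⟩
  intro d y hy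
  set E := max d D with hE
  obtain ⟨j, hj⟩ : ∃ j, E = d + j := Nat.exists_eq_add_of_le (le_max_left _ _)
  obtain ⟨l, hl⟩ : ∃ l, E = D + l := Nat.exists_eq_add_of_le (le_max_right _ _)
  have hx' := h.shift B hB 𝒢 hdeg l
  rw [← hl] at hx'
  have hy' := cact_X_pow_mem B hB 𝒢 hdeg j d y hy
  rw [← hj] at hy'
  set y' := cact B hB ((MvPolynomial.X 0 : MvPolynomial (Fin (z + 1)) K) ^ j) y with hy'def
  set x' : Fin N → M := fun t => cact B hB ((MvPolynomial.X 0 : MvPolynomial (Fin (z + 1)) K) ^ l)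
    (x t) with hx'def
  have hdep : ¬ IndepFam B hB 𝒢 E (N + 1) (Fin.cons y' x') := by
    intro hI
    have := hmax (N + 1) ⟨E, _, hI⟩
    omega
  have hmem : ∀ t, (Fin.cons y' x' : Fin (N + 1) → M) t ∈ 𝒢 E := by
    intro t
    refine Fin.cases ?_ (fun t => ?_) t
    · simpa using hy'
    · exact hx'.1 t
  have : ∃ (e : ℕ) (q : Fin (N + 1) → MvPolynomial (Fin (z + 1)) K),
      (∀ t, (q t).IsHomogeneous e) ∧
      ∑ t, cact B hB (q t) ((Fin.cons y' x' : Fin (N + 1) → M) t) = 0 ∧ ∃ t, q t ≠ 0 := by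
    by_contra hcon
    push Not at hcon
    exact hdep ⟨hmem, fun e q hq hs t => hcon e q hq hs t⟩
  obtain ⟨e, q, hq, hs, t₀, ht₀⟩ := this
  rw [Fin.sum_univ_succ] at hs
  simp only [Fin.cons_zero, Fin.cons_succ] at hs
  have hq0 : q 0 ≠ 0 := by
    intro h0
    rw [h0, map_zero, LinearMap.zero_apply, zero_add] at hs
    have h1 := hx'.2 e (fun t => q t.succ) (fun t => hq _) hs
    apply ht₀
    refine Fin.cases h0 (fun t => h1 t) t₀
  refine ⟨e + j, q 0 * MvPolynomial.X 0 ^ j, mul_ne_zero hq0 (pow_ne_zero _ (MvPolynomial.X_ne_zero _)),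
    (hq 0).mul (MvPolynomial.isHomogeneous_X_pow _ _), by omega,
    fun t => -(q t.succ * MvPolynomial.X 0 ^ l), fun t => ?_, ?_⟩
  · have h1 : d + (e + j) - D = e + l := by omega
    rw [h1]
    exact ((hq _).mul (MvPolynomial.isHomogeneous_X_pow _ _)).neg
  · rw [cact_mul_apply]
    have h2 : ∀ t, cact B hB (-(q t.succ * MvPolynomial.X 0 ^ l)) (x t)
        = - cact B hB (q t.succ) (x' t) := by
      intro t
      rw [map_neg, LinearMap.neg_apply, cact_mul_apply]
    simp only [h2, Finset.sum_neg_distrib]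
    exact eq_neg_of_add_eq_zero_left hs

end Pool.Agent.H34.Gam

end
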