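import Pool.Agent.H34.Gam.Bop
import Pool.Agent.H34.Gam.RankL

/-!
The ghost argument (job GAM-GHOST).
-/

set_option autoImplicit false
set_option linter.unusedSectionVars false

noncomputable section

namespace Pool.Agent.H34.Gam

open Module

variable {K G : Type} [Field K] [Group G] [Fintype G]

/-- direct power -/
def FRep.dp (s : ℕ) (A : FRep K G) : FRep K G where
  V := Fin s → A.V
  ρ :=
    { toFun := fun g => (A.ρ g).compLeft (Fin s)
      map_one' := by ext; simp
      map_mul' := by intro g h; ext; simp }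

/-- `Lay A l Q`: `Q` has a filtration with `l` layers which are direct powers of `A`
(sub first). -/
inductive Lay (A : FRep K G) : ℕ → FRep K G → Prop
  | zero (Q : FRep K G) (h : Subsingleton Q.V) : Lay A 0 Q
  | succ (l s : ℕ) (Q Q' : FRep K G) (S : SES (FRep.dp s A) Q Q') (h : Lay A l Q') :
      Lay A (l + 1) Q

/-- inclusion of a factor -/
def dpi (s : ℕ) (A : FRep K G) (j : Fin s) : EHom A (FRep.dp s A) :=
  ⟨LinearMap.single K (fun _ : Fin s => A.V) j, by
    intro g x
    funext i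
    show (Pi.single j (A.ρ g x) : Fin s → A.V) i = A.ρ g ((Pi.single j x : Fin s → A.V) i)
    by_cases h : i = j
    · subst h; rw [Pi.single_eq_same, Pi.single_eq_same]
    · rw [Pi.single_eq_of_ne h, Pi.single_eq_of_ne h, map_zero]⟩

/-- projection to a factor -/
def dpp (s : ℕ) (A : FRep K G) (j : Fin s) : EHom (FRep.dp s A) A :=
  ⟨LinearMap.proj (φ := fun _ : Fin s => A.V) j, fun _ _ => rfl⟩

lemma dp_id (s : ℕ) (A : FRep K G) :
    ∑ j, (ecomp (dpi s A j) (dpp s A j)) = EHom.id (FRep.dp s A) := by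
  apply Subtype.ext
  refine LinearMap.ext fun x => ?_
  rw [Submodule.coe_sum, LinearMap.sum_apply]
  show (∑ j, (Pi.single j ((x : Fin s → A.V) j) : Fin s → A.V)) = (x : Fin s → A.V)
  exact Finset.univ_sum_single (x : Fin s → A.V)

/-- a family of maps out of `A` gives a map out of the direct power -/
def dplift (s : ℕ) (A Y : FRep K G) (f : Fin s → EHom A Y) : EHom (FRep.dp s A) Y :=
  ∑ j, (ecomp (f j) (dpp s A j))

lemma dplift_dpi (s : ℕ) (A Y : FRep K G) (f : Fin s → EHom A Y) (j : Fin s) :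
    (ecomp (dplift s A Y f) (dpi s A j)) = f j := by
  apply Subtype.ext
  refine LinearMap.ext fun x => ?_
  rw [ecomp_val, LinearMap.comp_apply, dplift, Submodule.coe_sum, LinearMap.sum_apply]
  show (∑ i, (f i).1 ((Pi.single j x : Fin s → A.V) i)) = (f j).1 x
  rw [Finset.sum_eq_single j]
  · rw [Pi.single_eq_same]
  · intro i _ hi
    rw [Pi.single_eq_of_ne hi, map_zero]
  · intro h; exact absurd (Finset.mem_univ _) h

lemma ecomp_sum {ι : Type} (t : Finset ι) {U W Z : FRep K G} (f : EHom W Z) (e : ι → EHom U W) :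
    (ecomp f (∑ j ∈ t, e j)) = ∑ j ∈ t, (ecomp f (e j)) := by
  classical
  induction t using Finset.induction_on with
  | empty =>
    rw [Finset.sum_empty, Finset.sum_empty]
    apply Subtype.ext; ext x
    exact map_zero f.1
  | insert a t ha ih => rw [Finset.sum_insert ha, Finset.sum_insert ha, EHom.comp_add, ih]

lemma dp_null {s : ℕ} {A Y : FRep K G} (g : EHom (FRep.dp s A) Y)
    (h : ∀ j, (ecomp g (dpi s A j)) ∈ Null A Y) : g ∈ Null (FRep.dp s A) Y := by
  have h1 : g = ∑ j, (ecomp ((ecomp g (dpi s A j))) (dpp s A j)) := by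
    conv_lhs => rw [← EHom.comp_id g, ← dp_id, ecomp_sum]
    rfl
  rw [h1]
  exact Submodule.sum_mem _ fun j _ => Null.comp_right (h j) _

lemma hh_dp_le (n s : ℕ) (U A : FRep K G) : hh n U (FRep.dp s A) ≤ s * hh n U A := by
  let Φ : Hs U (FRep.ShN n (FRep.dp s A)) →ₗ[K] (Fin s → Hs U (FRep.ShN n A)) :=
    LinearMap.pi fun j => Hs.mapR U (ShNm n (dpp s A j))
  have hΦ : Function.Injective Φ := by
    rw [injective_iff_map_eq_zero]
    intro x hx
    obtain ⟨e, rfl⟩ := cl_surjective x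
    have h1 : e = ∑ j, (ecomp (ShNm n (dpi s A j)) ((ecomp (ShNm n (dpp s A j)) e))) := by
      have h2 : EHom.id (FRep.ShN n (FRep.dp s A)) =
          ∑ j, (ecomp (ShNm n (dpi s A j)) (ShNm n (dpp s A j))) := by
        rw [← ShNm_id, ← dp_id, map_sum]
        exact Finset.sum_congr rfl fun j _ => ShNm_comp _ _ _
      conv_lhs => rw [← EHom.id_comp e, h2]
      apply Subtype.ext; ext x
      simp only [ecomp_val, LinearMap.comp_apply, Submodule.coe_sum, LinearMap.sum_apply]
    have h3 : ∀ j, cl ((ecomp (ShNm n (dpp s A j)) e)) = 0 := fun j => congrFun hx j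
    rw [h1, map_sum]
    refine Finset.sum_eq_zero fun j _ => ?_
    rw [← Hs.mapR_cl, h3 j, map_zero]
  have h := LinearMap.finrank_le_finrank_of_injective hΦ
  rw [Module.finrank_pi_fintype] at h
  simpa [hh] using h

/-- the class of a map, as an element of degree 0 -/
def em {U W : FRep K G} (e : EHom U W) : HH U W := sgl 0 U W (cl e : Hs U W)

lemma em_mem {U W : FRep K G} (e : EHom U W) : em e ∈ deg 0 U W := sgl_mem 0 U W _

lemma em_zero {U W : FRep K G} (e : EHom U W) : em e 0 = (cl e : Hs U W) := sgl_same 0 U W _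

lemma em_eq_zero {U W : FRep K G} {e : EHom U W} (h : em e = 0) : e ∈ Null U W := by
  rw [← cl_eq_zero, ← em_zero, h]; rfl

lemma push_em (U : FRep K G) {W W' : FRep K G} (f : EHom W W') (e : EHom U W) :
    push U f (em e) = em ((ecomp f e)) := by
  have h1 := push_deg U f (em_mem e)
  rw [deg_eq h1, push_apply, em_zero]
  rfl

lemma sg_em (U W : FRep K G) (e : EHom U (FRep.Sh W)) :
    sg U W (em e) = sgl 1 U W (cl e : Hs U (FRep.Sh W)) := by
  have h1 := sg_deg U W (em_mem e)
  rw [deg_eq h1, sg_succ, em_zero]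

/-- extension killing finitely many classes of degree one -/
lemma exists_kill (N : ℕ) (A V : FRep K G) (ξ : Fin N → HH A V) (hξ : ∀ t, ξ t ∈ deg 1 A V) :
    ∃ (E : FRep K G) (S : SES V E (FRep.dp N A)), ∀ t, push A S.i (ξ t) = 0 := by
  choose ζ hζ using fun t => cl_surjective (U := A) (W := FRep.Sh V) (ξ t 1)
  obtain ⟨E, S, hS⟩ := exists_ext (dplift N A (FRep.Sh V) ζ)
  refine ⟨E, S, fun t => ?_⟩
  have h1 : ξ t = sg A V (push A S.δ (em (dpi N A t))) := by
    rw [push_em, hS, dplift_dpi, sg_em, hζ]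
    exact deg_eq (hξ t)
  rw [h1, push_sg, S.push_i_δ, map_zero]

/-- the rank estimate in the induction step -/
lemma ghost_rank {ι : Type} (b : ι → BF K G) {A V1 E Q Q' : FRep K G} {N : ℕ}
    (S : SES V1 E (FRep.dp N A)) (s' : ℕ) (hs' : 1 ≤ s') (y : EHom Q (FRep.ShN s' V1))
    (p : EHom Q Q') (g₂ : EHom Q' (FRep.ShN s' E))
    (hg : cl ((ecomp (ShNm s' S.i) y)) = cl ((ecomp g₂ p))) (d₂ : ℕ) (h₂ : MvPolynomial ι K)
    (hh₂ : h₂.IsHomogeneous d₂) (U : FRep K G) (a : ℕ) :
    finrank K ((deg a U Q).map (sgN s' U V1 ∘ₗ act b U (FRep.ShN s' V1) h₂ ∘ₗ push U y)) ≤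
      finrank K ((deg a U Q').map (act b U (FRep.ShN s' E) h₂ ∘ₗ push U g₂)) +
      N * hh (a + (s' + 2 * d₂ - 1)) U A := by
  set Λ : HH U Q →ₗ[K] HH U V1 := sgN s' U V1 ∘ₗ act b U (FRep.ShN s' V1) h₂ ∘ₗ push U y with hΛ
  have hΛdeg : ∀ x ∈ deg a U Q, Λ x ∈ deg (a + (s' + 2 * d₂ - 1) + 1) U V1 := by
    intro x hx
    have h1 := sgN_deg s' U V1 (act_deg b U (FRep.ShN s' V1) hh₂ (push_deg U y hx))
    have h2 : a + 2 * d₂ + s' = a + (s' + 2 * d₂ - 1) + 1 := by omega
    rwa [h2] at h1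
  have hpush : ∀ x, push U S.i (Λ x) =
      sgN s' U E ((act b U (FRep.ShN s' E) h₂ ∘ₗ push U g₂) (push U p x)) := by
    intro x
    show push U S.i (sgN s' U V1 (act b U (FRep.ShN s' V1) h₂ (push U y x))) = _
    rw [push_sgN, act_push, ← push_comp, push_congr U hg, push_comp]
    rfl
  have hfd : FiniteDimensional K ((deg a U Q).map Λ) := inferInstance
  have h1 := LinearMap.finrank_range_add_finrank_ker ((push U S.i).domRestrict ((deg a U Q).map Λ))
  -- the range
  have h2 : finrank K (LinearMap.range ((push U S.i).domRestrict ((deg a U Q).map Λ))) ≤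
      finrank K ((deg a U Q').map (act b U (FRep.ShN s' E) h₂ ∘ₗ push U g₂)) := by
    have h3 : LinearMap.range ((push U S.i).domRestrict ((deg a U Q).map Λ)) ≤
        ((deg a U Q').map (act b U (FRep.ShN s' E) h₂ ∘ₗ push U g₂)).map (sgN s' U E) := by
      rintro _ ⟨⟨_, x, hx, rfl⟩, rfl⟩
      refine ⟨_, ⟨push U p x, push_deg U p hx, rfl⟩, ?_⟩
      exact (hpush x).symm
    exact (Submodule.finrank_mono h3).trans (Submodule.finrank_map_le _ _)
  have h4 : finrank K (LinearMap.ker ((push U S.i).domRestrict ((deg a U Q).map Λ))) ≤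
      N * hh (a + (s' + 2 * d₂ - 1)) U A := by
    have h5 : (LinearMap.ker ((push U S.i).domRestrict ((deg a U Q).map Λ))).map
        ((deg a U Q).map Λ).subtype ≤
        (deg (a + (s' + 2 * d₂ - 1)) U (FRep.dp N A)).map (sg U V1 ∘ₗ push U S.δ) := by
      rintro _ ⟨⟨_, x, hx, rfl⟩, hk, rfl⟩
      obtain ⟨w, hw, hw2⟩ := S.push_exact_sg U (hΛdeg x hx) hk
      exact ⟨w, hw, hw2⟩
    have h6 := Submodule.finrank_mono h5
    rw [Submodule.finrank_map_subtype_eq] at h6
    refine h6.trans ((Submodule.finrank_map_le _ _).trans ?_)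
    rw [finrank_deg]
    exact hh_dp_le _ _ _ _
  omega

theorem ghost {z : ℕ} (b : Fin (z + 1) → BF K G) (A : FRep K G) (βA : ℝ) (hβA : 0 ≤ βA)
    (hA : GrowthLE (fun a => hh a A A) βA z) (l : ℕ) :
    ∃ C : ℝ, 0 ≤ C ∧ ∀ Q : FRep K G, Lay A l Q → ∀ (V : FRep K G) (β : ℝ), 0 ≤ β →
      GrowthLE (fun a => hh a A V) β z → ∀ f : EHom Q V,
      ∃ (d : ℕ) (h : MvPolynomial (Fin (z + 1)) K), h ≠ 0 ∧ h.IsHomogeneous d ∧
      ∃ (N : ℕ) (e : Fin N → ℕ), (N : ℝ) ≤ C * β ∧ ∀ (U : FRep K G) (a : ℕ),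
        finrank K ((deg a U Q).map ((act b U V h) ∘ₗ push U f)) ≤ ∑ i, hh (a + e i) U A := by
  classical
  induction l with
  | zero =>
    refine ⟨0, le_rfl, ?_⟩
    intro Q hQ V β hβ hV f
    cases hQ with
    | zero Q hsub =>
      refine ⟨0, 1, one_ne_zero, MvPolynomial.isHomogeneous_one _ _, 0, Fin.elim0, by simp, ?_⟩
      intro U a
      have hf : f = 0 := by
        apply Subtype.ext
        refine LinearMap.ext fun x => ?_
        have hx : x = 0 := Subsingleton.elim _ _
        rw [hx, map_zero, map_zero]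
      have h0 : (act b U V 1) ∘ₗ push U f = 0 := by
        refine LinearMap.ext fun x => ?_
        show act b U V 1 (push U f x) = 0
        rw [hf, push_null U (Submodule.zero_mem _) x, map_zero]
      rw [h0, Submodule.map_zero, finrank_bot]
      exact Nat.zero_le _
  | succ l ih =>
    obtain ⟨Cl, hCl, ih⟩ := ih
    obtain ⟨Cz, hCz, hrank⟩ := rank_lemma z
    refine ⟨Cz + Cl * (1 + Cz * βA), by positivity, ?_⟩
    intro Q hQ V β hβ hV f
    cases hQ with
    | succ l s Q Q' S hQ' =>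
    -- the rank lemma
    obtain ⟨D, N, x, hD, hN, hx, htors⟩ := hrank K (HH A V) (fun i => bop (b i) A V)
      (bop_comm' b A V) (fun d => deg (2 * d) A V) (fun d => inferInstance)
      (fun i d x hx => by
        have := bop_deg (b i) A V hx
        have h2 : 2 * (d + 1) = 2 * d + 2 := by ring
        rw [h2]; exact this)
      (fun a => hh a A V) β hβ (fun d => (finrank_deg _ _ _).le) hV
    obtain ⟨t, ht⟩ : ∃ t, 2 * D = 1 + t := ⟨2 * D - 1, by omega⟩
    have hx1 : ∀ i, ∃ ξ ∈ deg 1 A (FRep.ShN t V), sgN t A V ξ = x i := fun i =>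
      sgN_deg_surj t A V (n := 1) (by have := hx i; rwa [ht] at this)
    choose ξ hξ hξx using hx1
    obtain ⟨E, SE, hSE⟩ := exists_kill N A (FRep.ShN t V) ξ hξ
    -- the components of `f` on the first layer
    let u : Fin s → EHom A Q := fun j => (ecomp S.i (dpi s A j))
    have hcomp : ∀ j, ∃ (e : ℕ) (h : MvPolynomial (Fin (z + 1)) K), h ≠ 0 ∧ h.IsHomogeneous e ∧
        ∃ q : Fin N → MvPolynomial (Fin (z + 1)) K,
          act b A V h (em ((ecomp f (u j)))) = ∑ i, act b A V (q i) (x i) := by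
      intro j
      obtain ⟨e, h, h0, hh, _, q, _, hq⟩ := htors 0 (em ((ecomp f (u j)))) (em_mem _)
      exact ⟨e, h, h0, hh, q, hq⟩
    choose e h h0 hhom q hq using hcomp
    let h₁ : MvPolynomial (Fin (z + 1)) K := (∏ j, h j) * MvPolynomial.X 0 ^ D
    let d₁ : ℕ := (∑ j, e j) + D
    have hh₁0 : h₁ ≠ 0 := mul_ne_zero (Finset.prod_ne_zero_iff.2 fun j _ => h0 j)
      (pow_ne_zero _ (MvPolynomial.X_ne_zero _))
    have hh₁ : h₁.IsHomogeneous d₁ :=
      (MvPolynomial.IsHomogeneous.prod _ _ _ fun j _ => hhom j).mul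
        (MvPolynomial.isHomogeneous_X_pow _ _)
    have hq₁ : ∀ j, ∃ q : Fin N → MvPolynomial (Fin (z + 1)) K,
        act b A V h₁ (em ((ecomp f (u j)))) = sgN t A V (∑ i, act b A (FRep.ShN t V) (q i) (ξ i)) := by
      intro j
      have h1 : h₁ = ((∏ i ∈ Finset.univ.erase j, h i) * MvPolynomial.X 0 ^ D) * h j := by
        have h2 := Finset.prod_erase_mul Finset.univ h (Finset.mem_univ j)
        show (∏ j, h j) * _ = _
        rw [← h2]; ring
      refine ⟨fun i => ((∏ i ∈ Finset.univ.erase j, h i) * MvPolynomial.X 0 ^ D) * q j i, ?_⟩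
      rw [h1, act_mul, hq j, map_sum, map_sum]
      refine Finset.sum_congr rfl fun i _ => ?_
      rw [act_sgN, hξx]
      exact (act_mul b A V _ _ _).symm
    obtain ⟨s', hs'⟩ : ∃ s', 2 * d₁ = s' + t := ⟨2 * d₁ - t, by
      have : D ≤ d₁ := Nat.le_add_left _ _
      omega⟩
    have hs'1 : 1 ≤ s' := by
      have : D ≤ d₁ := Nat.le_add_left _ _
      omega
    obtain ⟨η, hη⟩ := act_repr b hh₁ (s' + t) hs'.symm V
    let y : EHom Q (FRep.ShN s' (FRep.ShN t V)) := (ecomp (spl s' t V) ((ecomp η f)))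
    have hy : ∀ (U : FRep K G) (x : HH U Q), act b U V h₁ (push U f x) =
        sgN t U V (sgN s' U (FRep.ShN t V) (push U y x)) := by
      intro U x
      rw [hη, push_comp, push_comp, sgN_spl]
    -- killing the first layer
    let g₁ : EHom Q (FRep.ShN s' E) := (ecomp (ShNm s' SE.i) y)
    have hnull : ∀ j, (ecomp ((ecomp g₁ S.i)) (dpi s A j)) ∈ Null A (FRep.ShN s' E) := by
      intro j
      apply em_eq_zero
      apply sgN_injective s' A E
      rw [map_zero]
      have h1 : em ((ecomp ((ecomp g₁ S.i)) (dpi s A j))) = push A (ShNm s' SE.i) (push A y (em (u j))) := by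
        rw [push_em, push_em]; rfl
      rw [h1, ← push_sgN]
      obtain ⟨q', hq'⟩ := hq₁ j
      have h2 : sgN s' A (FRep.ShN t V) (push A y (em (u j))) =
          ∑ i, act b A (FRep.ShN t V) (q' i) (ξ i) := by
        apply sgN_injective t A V
        rw [← hy, push_em, hq']
      rw [h2, map_sum]
      refine Finset.sum_eq_zero fun i _ => ?_
      rw [act_push, hSE, map_zero]
    have hnull' : Hs.mapL S.i (FRep.ShN s' E) (cl g₁) = 0 := by
      rw [Hs.mapL_cl, cl_eq_zero]
      exact dp_null _ hnull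
    obtain ⟨c, hc⟩ := S.exact_pull (FRep.ShN s' E) (cl g₁) hnull'
    obtain ⟨g₂, rfl⟩ := cl_surjective c
    rw [Hs.mapL_cl] at hc
    -- growth of the new target
    have hgr : GrowthLE (fun a => hh a A (FRep.ShN s' E)) (β + N * βA) z := by
      have h1 := ((hV.shift hβ (s' + t)).add ((hA.shift hβA s').nsmul N))
      refine h1.mono le_rfl fun a => ?_
      rw [hh_ShN]
      refine (hh_mid_le SE (a + s') A).trans ?_
      rw [hh_ShN]
      have h2 := hh_dp_le (a + s') N A A
      have h3 : a + s' + t = a + (s' + t) := by ring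
      rw [h3]
      exact Nat.add_le_add_left h2 _
    obtain ⟨d₂, h₂, hh₂0, hh₂, N₂, e₂, hN₂, hfin⟩ := ih Q' hQ' (FRep.ShN s' E) (β + N * βA)
      (by positivity) hgr g₂
    refine ⟨d₂ + d₁, h₂ * h₁, mul_ne_zero hh₂0 hh₁0, hh₂.mul hh₁, N₂ + N,
      Fin.append e₂ (fun _ => s' + 2 * d₂ - 1), ?_, ?_⟩
    · push_cast
      have h1 : Cl * (β + N * βA) ≤ Cl * (β + Cz * β * βA) := by gcongr
      nlinarith
    · intro U a
      have h1 := ghost_rank b SE s' hs'1 y S.p g₂ hc.symm d₂ h₂ hh₂ U a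
      have h2 := hfin U a
      have h3 : (deg a U Q).map (act b U V (h₂ * h₁) ∘ₗ push U f) =
          ((deg a U Q).map (sgN s' U (FRep.ShN t V) ∘ₗ
            act b U (FRep.ShN s' (FRep.ShN t V)) h₂ ∘ₗ push U y)).map (sgN t U V) := by
        rw [← Submodule.map_comp]
        congr 1
        refine LinearMap.ext fun x => ?_
        show act b U V (h₂ * h₁) (push U f x) = sgN t U V (sgN s' U (FRep.ShN t V)
          (act b U (FRep.ShN s' (FRep.ShN t V)) h₂ (push U y x)))
        rw [act_mul, hy, act_sgN, act_sgN]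
      rw [h3]
      refine (Submodule.finrank_map_le _ _).trans (h1.trans ?_)
      rw [Fin.sum_univ_add]
      simp only [Fin.append_left, Fin.append_right, Finset.sum_const, Finset.card_univ,
        Fintype.card_fin, smul_eq_mul]
      exact Nat.add_le_add_right h2 _

end Pool.Agent.H34.Gam

end
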