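import Pool.Agent.H34.Gam.Adj

/-!
Isomorphisms of representations (job GAM-ISOL).
-/

set_option autoImplicit false
set_option linter.unusedSectionVars false

noncomputable section

namespace Pool.Agent.H34.Gam

open Module

open scoped TensorProduct

variable {K G : Type} [Field K] [Group G]

theorem Iso.ofEquiv {U W : FRep K G} (e : U.V ≃ₗ[K] W.V)
    (h : ∀ g x, e (U.ρ g x) = W.ρ g (e x)) : Iso U W :=
  ⟨⟨e.toLinearMap, h⟩, e.bijective⟩

theorem Iso.exists_equiv {U W : FRep K G} (h : Iso U W) : ∃ e : U.V ≃ₗ[K] W.V,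
    (∀ g x, e (U.ρ g x) = W.ρ g (e x)) ∧ ∀ g x, e.symm (W.ρ g x) = U.ρ g (e.symm x) := by
  obtain ⟨f, hf⟩ := h
  have h1 : ∀ g x, LinearEquiv.ofBijective f.1 hf (U.ρ g x) =
      W.ρ g (LinearEquiv.ofBijective f.1 hf x) := fun g x => f.2 g x
  refine ⟨LinearEquiv.ofBijective f.1 hf, h1, fun g x => ?_⟩
  rw [LinearEquiv.symm_apply_eq, h1, LinearEquiv.apply_symm_apply]

theorem Iso.rfl' (U : FRep K G) : Iso U U :=
  Iso.ofEquiv (LinearEquiv.refl K U.V) fun _ _ => rfl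

theorem Iso.symm' {A B : FRep K G} (h : Iso A B) : Iso B A := by
  obtain ⟨e, _, h2⟩ := h.exists_equiv
  exact Iso.ofEquiv e.symm h2

theorem Iso.trans' {A B C : FRep K G} (h : Iso A B) (h' : Iso B C) : Iso A C := by
  obtain ⟨f, hf⟩ := h
  obtain ⟨g, hg⟩ := h'
  exact ⟨(ecomp g f), hg.comp hf⟩

theorem Iso_T {A A' B B' : FRep K G} (h : Iso A A') (h' : Iso B B') :
    Iso (FRep.T A B) (FRep.T A' B') := by
  obtain ⟨e, he, _⟩ := h.exists_equiv
  obtain ⟨e', he', _⟩ := h'.exists_equiv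
  refine Iso.ofEquiv (TensorProduct.congr e e') ?_
  intro g x
  have h : (TensorProduct.congr e e').toLinearMap ∘ₗ (FRep.T A B).ρ g =
      (FRep.T A' B').ρ g ∘ₗ (TensorProduct.congr e e').toLinearMap := by
    apply TensorProduct.ext'
    intro u y
    show (e (A.ρ g u)) ⊗ₜ[K] (e' (B.ρ g y)) = (A'.ρ g (e u)) ⊗ₜ[K] (B'.ρ g (e' y))
    rw [he, he']
  exact LinearMap.congr_fun h x

theorem Iso_L {A A' B B' : FRep K G} (h : Iso A A') (h' : Iso B B') :
    Iso (FRep.L A B) (FRep.L A' B') := by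
  obtain ⟨e, he, he2⟩ := h.exists_equiv
  obtain ⟨e', he', _⟩ := h'.exists_equiv
  refine Iso.ofEquiv (LinearEquiv.arrowCongr e e') ?_
  intro g φ
  refine LinearMap.ext fun x => ?_
  show e' (B.ρ g (φ (A.ρ g⁻¹ (e.symm x)))) = B'.ρ g (e' (φ (e.symm (A'.ρ g⁻¹ x))))
  rw [he', he2]

theorem Iso_pow {A B : FRep K G} (h : Iso A B) (n : ℕ) : Iso (FRep.pow A n) (FRep.pow B n) := by
  induction n with
  | zero => exact Iso.rfl' _
  | succ n ih => exact Iso_T ih h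

/-- transpose as a linear map -/
def trp (V : Type) [AddCommGroup V] [Module K V] :
    (V →ₗ[K] V) →ₗ[K] ((V →ₗ[K] K) →ₗ[K] (V →ₗ[K] K)) where
  toFun φ :=
    { toFun := fun l => l ∘ₗ φ
      map_add' := fun _ _ => rfl
      map_smul' := fun _ _ => rfl }
  map_add' _ _ := LinearMap.ext fun l => LinearMap.ext fun _ => map_add l _ _
  map_smul' _ _ := LinearMap.ext fun l => LinearMap.ext fun _ => map_smul l _ _

lemma trp_apply (V : Type) [AddCommGroup V] [Module K V] (φ : V →ₗ[K] V) (l : V →ₗ[K] K)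
    (x : V) : trp V φ l x = l (φ x) := rfl

lemma trp_injective (V : Type) [AddCommGroup V] [Module K V] :
    Function.Injective (trp (K := K) V) := by
  intro φ ψ h
  refine LinearMap.ext fun x => ?_
  rw [← sub_eq_zero, ← Module.forall_dual_apply_eq_zero_iff K]
  intro l
  rw [map_sub, ← trp_apply, ← trp_apply, h, sub_self]

lemma trp_surjective (V : Type) [AddCommGroup V] [Module K V] [FiniteDimensional K V] :
    Function.Surjective (trp (K := K) V) := by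
  have hd : finrank K (V →ₗ[K] K) = finrank K V := by
    rw [Module.finrank_linearMap, Module.finrank_self, mul_one]
  have hdim : finrank K (V →ₗ[K] V) = finrank K ((V →ₗ[K] K) →ₗ[K] (V →ₗ[K] K)) := by
    rw [Module.finrank_linearMap K K V V, Module.finrank_linearMap K K (V →ₗ[K] K) (V →ₗ[K] K),
      hd]
  exact (LinearMap.injective_iff_surjective_of_finrank_eq_finrank (V := V →ₗ[K] V)
    (V₂ := ((V →ₗ[K] K) →ₗ[K] (V →ₗ[K] K))) (f := trp (K := K) V) hdim).1 (trp_injective V)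

/-- transpose -/
theorem Iso_transpose (Y : FRep K G) : Iso (FRep.L Y Y)
    (FRep.L (FRep.L Y (FRep.triv K G)) (FRep.L Y (FRep.triv K G))) := by
  refine ⟨⟨trp Y.V, ?_⟩, trp_injective Y.V, trp_surjective Y.V⟩
  intro g φ
  refine LinearMap.ext fun l => LinearMap.ext fun x => ?_
  show l (Y.ρ g (φ (Y.ρ g⁻¹ x))) = l (Y.ρ g⁻¹⁻¹ (φ (Y.ρ g⁻¹ x)))
  rw [inv_inv]

theorem Iso_T_dual (Y : FRep K G) : Iso (FRep.T Y (FRep.L Y (FRep.triv K G))) (FRep.L Y Y) := by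
  let E : Y.V ⊗[K] Module.Dual K Y.V ≃ₗ[K] (Y.V →ₗ[K] Y.V) :=
    (TensorProduct.comm K Y.V (Module.Dual K Y.V)).trans
      (dualTensorHomEquivOfBasis (N := Y.V) (Module.finBasis K Y.V))
  have hE : ∀ (y : Y.V) (l : Module.Dual K Y.V) (x : Y.V), E (y ⊗ₜ[K] l) x = l x • y := by
    intro y l x
    show dualTensorHomEquivOfBasis (N := Y.V) (Module.finBasis K Y.V) (l ⊗ₜ[K] y) x = _
    rw [dualTensorHomEquivOfBasis_apply, dualTensorHom_apply]
  refine Iso.ofEquiv E ?_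
  intro g x
  have h : E.toLinearMap ∘ₗ (FRep.T Y (FRep.L Y (FRep.triv K G))).ρ g =
      (FRep.L Y Y).ρ g ∘ₗ E.toLinearMap := by
    apply TensorProduct.ext'
    intro y l
    refine LinearMap.ext fun x => ?_
    have h1 : (E.toLinearMap ∘ₗ (FRep.T Y (FRep.L Y (FRep.triv K G))).ρ g) (y ⊗ₜ[K] l) x =
        E ((Y.ρ g y) ⊗ₜ[K] (l ∘ₗ Y.ρ g⁻¹ : Module.Dual K Y.V)) x := rfl
    have h2 : ((FRep.L Y Y).ρ g ∘ₗ E.toLinearMap) (y ⊗ₜ[K] l) x =
        Y.ρ g (E (y ⊗ₜ[K] l) (Y.ρ g⁻¹ x)) := rfl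
    rw [h1, h2, hE, hE, map_smul]
    rfl
  exact LinearMap.congr_fun h x

/-- dual of a tensor product -/
theorem Iso_dual_T (A B : FRep K G) :
    Iso (FRep.T (FRep.L A (FRep.triv K G)) (FRep.L B (FRep.triv K G)))
      (FRep.L (FRep.T A B) (FRep.triv K G)) := by
  let E : Module.Dual K A.V ⊗[K] Module.Dual K B.V ≃ₗ[K] Module.Dual K (A.V ⊗[K] B.V) :=
    TensorProduct.dualDistribEquiv K A.V B.V
  have hE : ∀ (l : Module.Dual K A.V) (m : Module.Dual K B.V) (x : A.V) (y : B.V),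
      E (l ⊗ₜ[K] m) (x ⊗ₜ[K] y) = l x * m y := by
    intro l m x y
    exact TensorProduct.dualDistrib_apply l m x y
  refine Iso.ofEquiv E ?_
  intro g x
  have h : E.toLinearMap ∘ₗ (FRep.T (FRep.L A (FRep.triv K G)) (FRep.L B (FRep.triv K G))).ρ g =
      (FRep.L (FRep.T A B) (FRep.triv K G)).ρ g ∘ₗ E.toLinearMap := by
    apply TensorProduct.ext'
    intro l m
    apply TensorProduct.ext'
    intro x y
    have h1 : (E.toLinearMap ∘ₗ (FRep.T (FRep.L A (FRep.triv K G))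
        (FRep.L B (FRep.triv K G))).ρ g) (l ⊗ₜ[K] m) (x ⊗ₜ[K] y) =
        E ((l ∘ₗ A.ρ g⁻¹ : Module.Dual K A.V) ⊗ₜ[K] (m ∘ₗ B.ρ g⁻¹ : Module.Dual K B.V))
          (x ⊗ₜ[K] y) := rfl
    have h2 : ((FRep.L (FRep.T A B) (FRep.triv K G)).ρ g ∘ₗ E.toLinearMap) (l ⊗ₜ[K] m)
        (x ⊗ₜ[K] y) = E (l ⊗ₜ[K] m) ((A.ρ g⁻¹ x) ⊗ₜ[K] (B.ρ g⁻¹ y)) := rfl
    rw [h1, h2, hE, hE]
    rfl
  exact LinearMap.congr_fun h x

/-- interchange -/
theorem Iso_TTTT (A B C D : FRep K G) :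
    Iso (FRep.T (FRep.T A B) (FRep.T C D)) (FRep.T (FRep.T A C) (FRep.T B D)) := by
  let E := TensorProduct.tensorTensorTensorComm K A.V B.V C.V D.V
  refine Iso.ofEquiv E ?_
  intro g x
  have h : E.toLinearMap ∘ₗ (FRep.T (FRep.T A B) (FRep.T C D)).ρ g =
      (FRep.T (FRep.T A C) (FRep.T B D)).ρ g ∘ₗ E.toLinearMap := by
    apply TensorProduct.ext_fourfold'
    intro a b c d
    rfl
  exact LinearMap.congr_fun h x

theorem Iso_L_triv_triv : Iso (FRep.L (FRep.triv K G) (FRep.triv K G)) (FRep.triv K G) := by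
  refine Iso.ofEquiv (LinearMap.ringLmapEquivSelf K K K) ?_
  intro g φ
  rfl

theorem Iso_powD (M : FRep K G) (n : ℕ) :
    Iso (FRep.T (FRep.pow M n) (FRep.L (FRep.pow M n) (FRep.triv K G)))
      (FRep.pow (FRep.T M (FRep.L M (FRep.triv K G))) n) := by
  induction n with
  | zero => exact (Iso_T_dual (FRep.triv K G)).trans' Iso_L_triv_triv
  | succ n ih =>
    have h1 : Iso (FRep.T (FRep.T (FRep.pow M n) M) (FRep.L (FRep.T (FRep.pow M n) M)
        (FRep.triv K G))) (FRep.T (FRep.T (FRep.pow M n) M)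
        (FRep.T (FRep.L (FRep.pow M n) (FRep.triv K G)) (FRep.L M (FRep.triv K G)))) :=
      Iso_T (Iso.rfl' _) (Iso_dual_T _ _).symm'
    exact h1.trans' ((Iso_TTTT _ _ _ _).trans' (Iso_T ih (Iso.rfl' _)))

theorem Iso_LLpow (M : FRep K G) (n : ℕ) :
    Iso (FRep.L (FRep.L (FRep.pow M n) (FRep.triv K G)) (FRep.L (FRep.pow M n) (FRep.triv K G)))
      (FRep.pow (FRep.T M (FRep.L M (FRep.triv K G))) n) :=
  (Iso_transpose _).symm'.trans' ((Iso_T_dual _).symm'.trans' (Iso_powD M n))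

end Pool.Agent.H34.Gam

end
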