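import Pool.Agent.H34.Gam.EDefs2

/-!
The class of `0 → Z → I_w Z → I_w Z → Z → 0` (job GAM-IWb).
-/

set_option autoImplicit false
set_option linter.unusedSectionVars false

noncomputable section

namespace Pool.Agent.H34.Gam

open Module Polynomial

namespace IwC

variable {K : Type} [Field K] {p r : ℕ} [Fact p.Prime] [CharP K p]

/-! ### the group algebra polynomials -/

/-- the group algebra -/
abbrev GA (K : Type) [Field K] (p r : ℕ) : Type := MonoidAlgebra K (Er p r)

instance GA.charP : CharP (GA K p r) p :=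
  charP_of_injective_algebraMap (algebraMap K (GA K p r)).injective p

/-- `w_j g_j⁻¹` -/
def wel (w : Fin r → K) (j : Fin r) : GA K p r := MonoidAlgebra.single ((eg p j)⁻¹) (w j)

lemma wel_pow (w : Fin r → K) (j : Fin r) :
    (wel w j : GA K p r) ^ p = algebraMap K (GA K p r) (w j ^ p) := by
  rw [wel, MonoidAlgebra.single_pow, inv_pow, eg_pow, inv_one]
  rfl

/-- `P_g = ∏ j, (1 + w_j g_j⁻¹ X)^{n_j(g)}` -/
def Pg (w : Fin r → K) (g : Er p r) : (GA K p r)[X] :=
  ∏ j, (1 + C (wel w j) * X) ^ nj g j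

/-- the carry -/
def kj (g h : Er p r) (j : Fin r) : ℕ := if p ≤ nj g j + nj h j then 1 else 0

omit [CharP K p] in
lemma nj_mul (g h : Er p r) (j : Fin r) : nj g j + nj h j = nj (g * h) j + p * kj g h j := by
  have hg : nj g j < p := ZMod.val_lt _
  have hh : nj h j < p := ZMod.val_lt _
  have h1 : nj (g * h) j = (nj g j + nj h j) % p := by
    unfold nj
    rw [toAdd_mul, Pi.add_apply, ZMod.val_add]
  unfold kj
  split_ifs with h2
  · rw [h1, Nat.mod_eq_sub_mod h2, Nat.mod_eq_of_lt (by omega)]; omega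
  · rw [h1, Nat.mod_eq_of_lt (by omega)]; omega

lemma one_add_pow (w : Fin r → K) (j : Fin r) :
    ((1 : (GA K p r)[X]) + C (wel w j) * X) ^ p =
      1 + C (algebraMap K (GA K p r) (w j ^ p)) * X ^ p := by
  rw [add_pow_char, one_pow, mul_pow, ← C_pow, wel_pow]

lemma Pg_mul (w : Fin r → K) (g h : Er p r) :
    Pg w g * Pg w h = Pg w (g * h) *
      ∏ j, (1 + C (algebraMap K (GA K p r) (w j ^ p)) * X ^ p) ^ kj g h j := by
  unfold Pg
  rw [← Finset.prod_mul_distrib, ← Finset.prod_mul_distrib]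
  refine Finset.prod_congr rfl fun j _ => ?_
  rw [← pow_add, nj_mul, pow_add, pow_mul, one_add_pow]

/-- a product of factors `(1 + a_j X^p)^{k_j}`, `k_j ≤ 1`, modulo `X^(p+1)` -/
lemma prod_expand (w : Fin r → K) (g h : Er p r) :
    ∃ Q : (GA K p r)[X],
      ∏ j, (1 + C (algebraMap K (GA K p r) (w j ^ p)) * X ^ p) ^ kj g h j =
      1 + C (algebraMap K (GA K p r) (∑ j, (kj g h j : K) * w j ^ p)) * X ^ p + X ^ (2 * p) * Q := by
  have key : ∀ s : Finset (Fin r), ∃ Q : (GA K p r)[X],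
      ∏ j ∈ s, (1 + C (algebraMap K (GA K p r) (w j ^ p)) * X ^ p) ^ kj g h j =
      1 + C (algebraMap K (GA K p r) (∑ j ∈ s, (kj g h j : K) * w j ^ p)) * X ^ p +
        X ^ (2 * p) * Q := by
    intro s
    induction s using Finset.induction_on with
    | empty => exact ⟨0, by simp⟩
    | insert a s ha ih =>
      obtain ⟨Q, hQ⟩ := ih
      rw [Finset.prod_insert ha, Finset.sum_insert ha, hQ]
      rcases Nat.eq_zero_or_pos (kj g h a) with h0 | h0
      · rw [h0]
        exact ⟨Q, by simp⟩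
      · have h1 : kj g h a = 1 := by
          unfold kj at h0 ⊢
          split_ifs at h0 ⊢
          · rfl
          · omega
        rw [h1]
        refine ⟨Q + C (algebraMap K (GA K p r) (w a ^ p)) * X ^ p * Q +
          C (algebraMap K (GA K p r) (w a ^ p)) *
          C (algebraMap K (GA K p r) (∑ j ∈ s, (kj g h j : K) * w j ^ p)), ?_⟩
        rw [Nat.cast_one, one_mul, map_add, C_add]
        ring
  exact key Finset.univ

lemma Pg_coeff_zero (w : Fin r → K) (g : Er p r) : (Pg w g).coeff 0 = 1 := by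
  unfold Pg
  rw [coeff_zero_eq_eval_zero, eval_prod]
  refine Finset.prod_eq_one fun j _ => ?_
  simp

/-- the coefficient identity -/
lemma Pg_coeff (w : Fin r → K) (g h : Er p r) :
    ∑ i ∈ Finset.range (p + 1), (Pg w g).coeff i * (Pg w h).coeff (p - i) =
      (Pg w (g * h)).coeff p +
        algebraMap K (GA K p r) (∑ j, (kj g h j : K) * w j ^ p) := by
  have hp : 0 < p := (Fact.out : p.Prime).pos
  have h1 := congrArg (fun q => q.coeff p) (Pg_mul w g h)
  obtain ⟨Q, hQ⟩ := prod_expand w g h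
  rw [coeff_mul, Finset.Nat.sum_antidiagonal_eq_sum_range_succ
    (fun i j => (Pg w g).coeff i * (Pg w h).coeff j)] at h1
  rw [h1, hQ, mul_add, mul_add, mul_one, coeff_add, coeff_add]
  have h2 : (Pg w (g * h) * (C (algebraMap K (GA K p r) (∑ j, (kj g h j : K) * w j ^ p)) *
      X ^ p)).coeff p = algebraMap K (GA K p r) (∑ j, (kj g h j : K) * w j ^ p) := by
    rw [← mul_assoc, coeff_mul_X_pow', if_pos le_rfl, Nat.sub_self, mul_coeff_zero,
      Pg_coeff_zero, coeff_C_zero, one_mul]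
  have h3 : (Pg w (g * h) * (X ^ (2 * p) * Q)).coeff p = 0 := by
    rw [mul_left_comm, coeff_X_pow_mul', if_neg (by omega)]
  rw [h2, h3, add_zero]

/-! ### the action of `𝒜[X]` on `Z[t]/(t^m)` -/

/-- the group algebra acts coefficientwise -/
def cwA (m : ℕ) (Z : FRep K (Er p r)) : GA K p r →+* Module.End K (Fin m → Z.V) where
  toFun a := cw m (Z.ρ.asAlgebraHom a)
  map_one' := by rw [map_one]; rfl
  map_mul' a b := by rw [map_mul]; rfl
  map_zero' := by rw [map_zero]; rfl
  map_add' a b := by rw [map_add]; rfl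

lemma cwA_apply (m : ℕ) (Z : FRep K (Er p r)) (a : GA K p r) (y : Fin m → Z.V) (n : Fin m) :
    cwA m Z a y n = Z.ρ.asAlgebraHom a (y n) := rfl

/-- `𝒜[X]` acts on `Z[t]/(t^m)`, `X` acting as `t` -/
def evI (m : ℕ) (Z : FRep K (Er p r)) : (GA K p r)[X] →+* Module.End K (Fin m → Z.V) :=
  eval₂RingHom' (cwA m Z) (tmul m Z.V) (fun _ => LinearMap.ext fun y => cw_tmul m _ y)

lemma evI_C (m : ℕ) (Z : FRep K (Er p r)) (a : GA K p r) : evI m Z (C a) = cwA m Z a :=
  eval₂_C _ _

lemma evI_X (m : ℕ) (Z : FRep K (Er p r)) : evI m Z X = tmul m Z.V :=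
  eval₂_X _ _

/-- extension of `y` by zero (indexed by natural numbers) -/
def yx {m : ℕ} {V : Type} [AddCommGroup V] (y : Fin m → V) (n : ℕ) : V :=
  if h : n < m then y ⟨n, h⟩ else 0

lemma evI_apply (m : ℕ) (Z : FRep K (Er p r)) (Q : (GA K p r)[X]) (y : Fin m → Z.V)
    (n : Fin m) : evI m Z Q y n =
      ∑ i ∈ Finset.range (n.1 + 1), Z.ρ.asAlgebraHom (Q.coeff i) (yx y (n.1 - i)) := by
  induction Q using Polynomial.induction_on' with
  | add P Q hP hQ =>
    rw [map_add, LinearMap.add_apply, Pi.add_apply, hP, hQ, ← Finset.sum_add_distrib]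
    refine Finset.sum_congr rfl fun i _ => ?_
    rw [coeff_add, map_add, LinearMap.add_apply]
  | monomial k a =>
    rw [← C_mul_X_pow_eq_monomial, map_mul, map_pow, evI_C, evI_X, Module.End.mul_apply,
      cwA_apply, tmul_pow_apply]
    by_cases h : n.1 < k
    · rw [dif_pos h, map_zero, Finset.sum_eq_zero]
      intro i hi
      rw [Finset.mem_range] at hi
      rw [coeff_C_mul_X_pow, if_neg (by omega), map_zero, LinearMap.zero_apply]
    · rw [dif_neg h, Finset.sum_eq_single k]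
      · rw [coeff_C_mul_X_pow, if_pos rfl, yx, dif_pos (by omega)]
      · intro i _ hi
        rw [coeff_C_mul_X_pow, if_neg hi, map_zero, LinearMap.zero_apply]
      · intro hk
        rw [Finset.mem_range] at hk
        omega

lemma evI_X_pow (m : ℕ) (Z : FRep K (Er p r)) (k : ℕ) (hk : m ≤ k) : evI m Z (X ^ k) = 0 := by
  rw [map_pow, evI_X, tmul_pow_eq_zero m k hk]

/-- the candidate operator of `g` on `Z[t]/(t^m)` -/
def Phi (m : ℕ) (w : Fin r → K) (Z : FRep K (Er p r)) (g : Er p r) :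
    Module.End K (Fin m → Z.V) := evI m Z (Pg w g * C (MonoidAlgebra.single g 1))

lemma Phi_mul (m : ℕ) (hm : m ≤ p) (w : Fin r → K) (Z : FRep K (Er p r)) (g h : Er p r) :
    Phi m w Z (g * h) = Phi m w Z g * Phi m w Z h := by
  unfold Phi
  rw [← map_mul]
  have h1 : Pg w g * C (MonoidAlgebra.single g 1) * (Pg w h * C (MonoidAlgebra.single h 1)) =
      (Pg w g * Pg w h) * C (MonoidAlgebra.single (g * h) (1 : K)) := by
    have : (MonoidAlgebra.single (g * h) (1 : K) : GA K p r) =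
        MonoidAlgebra.single g 1 * MonoidAlgebra.single h 1 := by
      rw [MonoidAlgebra.single_mul_single, one_mul]
    rw [this, C_mul]
    ring
  rw [h1, Pg_mul]
  obtain ⟨Q, hQ⟩ := prod_expand w g h
  rw [hQ]
  have h2 : Pg w (g * h) * (1 + C (algebraMap K (GA K p r) (∑ j, (kj g h j : K) * w j ^ p)) *
      X ^ p + X ^ (2 * p) * Q) * C (MonoidAlgebra.single (g * h) (1 : K)) =
      Pg w (g * h) * C (MonoidAlgebra.single (g * h) (1 : K)) + X ^ p *
      ((C (algebraMap K (GA K p r) (∑ j, (kj g h j : K) * w j ^ p)) + X ^ p * Q) *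
      (Pg w (g * h) * C (MonoidAlgebra.single (g * h) (1 : K)))) := by
    ring
  rw [h2, map_add, map_mul (evI m Z) (X ^ p), evI_X_pow m Z p hm, zero_mul, add_zero]

lemma Pg_eg (w : Fin r → K) (j : Fin r) : Pg w (eg p j) = 1 + C (wel w j) * X := by
  unfold Pg
  rw [Finset.prod_eq_single j]
  · have h1 : nj (eg p j) j = 1 := by
      have : Fact (1 < p) := ⟨(Fact.out : p.Prime).one_lt⟩
      unfold nj eg
      rw [toAdd_ofAdd, Pi.single_eq_same, ZMod.val_one]
    rw [h1, pow_one]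
  · intro i _ hi
    have h1 : nj (eg p j) i = 0 := by
      unfold nj eg
      rw [toAdd_ofAdd, Pi.single_eq_of_ne hi, ZMod.val_zero]
    rw [h1, pow_zero]
  · intro h; exact absurd (Finset.mem_univ _) h

lemma Phi_eg (m : ℕ) (w : Fin r → K) (Z : FRep K (Er p r)) (j : Fin r) :
    Phi m w Z (eg p j) = iwOp m w Z j := by
  unfold Phi
  rw [Pg_eg, add_mul, one_mul]
  have h1 : C (wel w j) * X * C (MonoidAlgebra.single (eg p j) (1 : K)) =
      C (algebraMap K (GA K p r) (w j)) * X := by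
    have : (wel w j : GA K p r) * MonoidAlgebra.single (eg p j) (1 : K) =
        algebraMap K (GA K p r) (w j) := by
      rw [wel, MonoidAlgebra.single_mul_single, inv_mul_cancel, mul_one]; rfl
    rw [← this, C_mul]; ring
  rw [h1, map_add, map_mul, evI_C, evI_C, evI_X]
  unfold iwOp
  refine LinearMap.ext fun y => funext fun n => ?_
  rw [LinearMap.add_apply, LinearMap.add_apply, Pi.add_apply, Pi.add_apply, cwA_apply,
    Module.End.mul_apply, cwA_apply, LinearMap.smul_apply, Pi.smul_apply, cw_apply]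
  congr 1
  · rw [Representation.asAlgebraHom_single, one_smul]
  · rw [AlgHom.commutes]; rfl

/-- the action on `I_w^(m) Z` -/
lemma Iw_rho (m : ℕ) (hm : m ≤ p) (w : Fin r → K) (Z : FRep K (Er p r)) (g : Er p r) :
    (Iw m hm w Z).ρ g = Phi m w Z g := by
  let S : Submonoid (Er p r) :=
    { carrier := {g | (Iw m hm w Z).ρ g = Phi m w Z g}
      mul_mem' := by
        intro g h hg hh
        show (Iw m hm w Z).ρ (g * h) = _
        rw [map_mul, Phi_mul m hm]
        exact congrArg₂ _ hg hh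
      one_mem' := by
        show (Iw m hm w Z).ρ 1 = _
        rw [map_one]
        unfold Phi
        have h1 : Pg w (1 : Er p r) = 1 := by
          unfold Pg
          refine Finset.prod_eq_one fun j _ => ?_
          have h1 : nj (1 : Er p r) j = 0 := by
            unfold nj
            rw [toAdd_one, Pi.zero_apply, ZMod.val_zero]
          rw [h1, pow_zero]
        rw [h1, one_mul]
        have h2 : (MonoidAlgebra.single (1 : Er p r) (1 : K)) = 1 := rfl
        rw [h2, map_one, map_one]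
        rfl }
  have : g ∈ S := by
    rw [eg_gen g]
    refine Submonoid.prod_mem S fun j _ => Submonoid.pow_mem S ?_ _
    show (Iw m hm w Z).ρ (eg p j) = _
    rw [Iw_eg, Phi_eg]
  exact this

/-- the operators `c_i(g)` on `Z` -/
def cc' (w : Fin r → K) (Z : FRep K (Er p r)) (i : ℕ) (g : Er p r) : Module.End K Z.V :=
  Z.ρ.asAlgebraHom ((Pg w g).coeff i)

lemma cc'_zero (w : Fin r → K) (Z : FRep K (Er p r)) (g : Er p r) : cc' w Z 0 g = 1 := by
  rw [cc', Pg_coeff_zero, map_one]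

lemma cc'_zero_right (w : Fin r → K) (Z : FRep K (Er p r)) (i : ℕ) (g h : Er p r) (z : Z.V) :
    cc' w Z i g (cc' w Z (i - i) h z) = cc' w Z i g z := by
  rw [Nat.sub_self, cc'_zero]; rfl

lemma cc'_comm (w : Fin r → K) (Z : FRep K (Er p r)) (i : ℕ) (g k : Er p r) (z : Z.V) :
    cc' w Z i g (Z.ρ k z) = Z.ρ k (cc' w Z i g z) := by
  have h1 : Z.ρ k = Z.ρ.asAlgebraHom (MonoidAlgebra.single k 1) := by
    rw [Representation.asAlgebraHom_single, one_smul]
  have h2 : cc' w Z i g * Z.ρ k = Z.ρ k * cc' w Z i g := by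
    rw [cc', h1, ← map_mul, ← map_mul, mul_comm]
  exact LinearMap.congr_fun h2 z

lemma cc'_rel (w : Fin r → K) (Z : FRep K (Er p r)) (g h : Er p r) (z : Z.V) :
    ∑ i ∈ Finset.range (p + 1), cc' w Z i g (cc' w Z (p - i) h z) =
      cc' w Z p (g * h) z + (∑ j, (kj g h j : K) * w j ^ p) • z := by
  have h1 := congrArg (fun a => Z.ρ.asAlgebraHom a z) (Pg_coeff w g h)
  generalize (∑ j, (kj g h j : K) * w j ^ p) = S at h1 ⊢
  simp only [map_sum, map_add, map_mul, LinearMap.sum_apply, Module.End.mul_apply,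
    LinearMap.add_apply] at h1
  unfold cc'
  rw [h1]
  congr 1
  rw [AlgHom.commutes]
  rfl

lemma Iw_rho_apply (m : ℕ) (hm : m ≤ p) (w : Fin r → K) (Z : FRep K (Er p r)) (g : Er p r)
    (y : Fin m → Z.V) (n : Fin m) : (Iw m hm w Z).ρ g y n =
      ∑ i ∈ Finset.range (n.1 + 1), cc' w Z i g (Z.ρ g (yx y (n.1 - i))) := by
  refine (congrFun (LinearMap.congr_fun (Iw_rho m hm w Z g) y) n).trans ?_
  refine (evI_apply m Z _ y n).trans ?_
  refine Finset.sum_congr rfl fun i _ => ?_
  rw [coeff_mul_C, map_mul, Module.End.mul_apply, Representation.asAlgebraHom_single, one_smul]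
  rfl

/-! ### the two short exact sequences -/

section seq

variable (w : Fin r → K) (Z : FRep K (Er p r))

/-- index `0` -/
def i0 (p : ℕ) [Fact p.Prime] : Fin p := ⟨0, (Fact.out : p.Prime).pos⟩

/-- index `p - 1` -/
def il (p : ℕ) [Fact p.Prime] : Fin p := ⟨p - 1, Nat.sub_lt (Fact.out : p.Prime).pos one_pos⟩

lemma Iw_rho_zero (g : Er p r) (y : Fin p → Z.V) :
    (Iw p le_rfl w Z).ρ g y (i0 p) = Z.ρ g (y (i0 p)) := by
  have h0 : (0 : ℕ) < p := (Fact.out : p.Prime).pos
  rw [Iw_rho_apply]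
  show ∑ i ∈ Finset.range (0 + 1), _ = _
  rw [zero_add, Finset.sum_range_one, cc'_zero]
  show Z.ρ g (yx y (0 - 0)) = _
  rw [Nat.sub_self, yx, dif_pos h0]
  rfl

/-- the elements with vanishing constant coefficient -/
def RN : Submodule K (Iw p le_rfl w Z).V where
  carrier := {y | y (i0 p) = 0}
  add_mem' := by
    intro a b ha hb
    show a (i0 p) + b (i0 p) = 0
    rw [show a (i0 p) = 0 from ha, show b (i0 p) = 0 from hb, add_zero]
  zero_mem' := rfl
  smul_mem' := by
    intro c a ha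
    show c • a (i0 p) = 0
    rw [show a (i0 p) = 0 from ha, smul_zero]

lemma RN_stable (g : Er p r) (y : (Iw p le_rfl w Z).V) (hy : y ∈ RN w Z) :
    (Iw p le_rfl w Z).ρ g y ∈ RN w Z := by
  show (Iw p le_rfl w Z).ρ g y (i0 p) = 0
  rw [Iw_rho_zero, show y (i0 p) = 0 from hy, map_zero]

/-- the representation `R = t I` -/
def RR : FRep K (Er p r) := FRep.sub (Iw p le_rfl w Z) (RN w Z) (RN_stable w Z)

/-- `0 → R → I → Z → 0` -/
def S1 : SES (RR w Z) (Iw p le_rfl w Z) Z where
  i := ⟨(RN w Z).subtype, fun g x => rfl⟩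
  p := ⟨LinearMap.proj (i0 p), fun g y => Iw_rho_zero w Z g y⟩
  s := LinearMap.single K (fun _ : Fin p => Z.V) (i0 p)
  r := LinearMap.codRestrict (RN w Z) (LinearMap.id -
      (LinearMap.single K (fun _ : Fin p => Z.V) (i0 p)) ∘ₗ LinearMap.proj (i0 p)) (by
    intro y
    show y (i0 p) - Pi.single (M := fun _ : Fin p => Z.V) (i0 p) (y (i0 p)) (i0 p) = 0
    rw [Pi.single_eq_same, sub_self])
  ri := by
    intro a
    apply Subtype.ext
    funext n
    show a.1 n - Pi.single (M := fun _ : Fin p => Z.V) (i0 p) (a.1 (i0 p)) n = a.1 n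
    rw [show a.1 (i0 p) = 0 from a.2, Pi.single_zero, Pi.zero_apply, sub_zero]
  ps := by
    intro c
    show Pi.single (M := fun _ : Fin p => Z.V) (i0 p) c (i0 p) = c
    rw [Pi.single_eq_same]
  pi := fun a => a.2
  sum := by
    intro b
    funext n
    show b n - Pi.single (M := fun _ : Fin p => Z.V) (i0 p) (b (i0 p)) n +
      Pi.single (M := fun _ : Fin p => Z.V) (i0 p) (b (i0 p)) n = b n
    rw [sub_add_cancel]

lemma tmul_rho (g : Er p r) (y : (Iw p le_rfl w Z).V) :
    tmul (K := K) p Z.V ((Iw p le_rfl w Z).ρ g y) = (Iw p le_rfl w Z).ρ g (tmul (K := K) p Z.V y) := by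
  rw [Iw_rho]
  unfold Phi
  rw [← evI_X]
  have h1 : evI p Z X * evI p Z (Pg w g * C (MonoidAlgebra.single g 1)) =
      evI p Z (Pg w g * C (MonoidAlgebra.single g 1)) * evI p Z X := by
    rw [← map_mul, ← map_mul, mul_comm]
  exact LinearMap.congr_fun h1 y

omit [CharP K p] in
lemma yx_add {m : ℕ} {V : Type} [AddCommGroup V] (y y' : Fin m → V) (n : ℕ) :
    yx (y + y') n = yx y n + yx y' n := by
  unfold yx
  by_cases h : n < m <;> simp [h]

lemma yx_smul {m : ℕ} {V : Type} [AddCommGroup V] [Module K V] (c : K) (y : Fin m → V) (n : ℕ) :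
    yx (c • y) n = c • yx y n := by
  unfold yx
  by_cases h : n < m <;> simp [h]

lemma yx_of_lt {m : ℕ} {V : Type} [AddCommGroup V] (y : Fin m → V) (n : ℕ) (h : n < m) :
    yx y n = y ⟨n, h⟩ := dif_pos h

lemma yx_of_ge {m : ℕ} {V : Type} [AddCommGroup V] (y : Fin m → V) (n : ℕ) (h : m ≤ n) :
    yx y n = 0 := dif_neg (by omega)

lemma yx_single (z : Z.V) (n : ℕ) :
    yx (Pi.single (M := fun _ : Fin p => Z.V) (il p) z) n = if n = p - 1 then z else 0 := by
  have h0 : (0 : ℕ) < p := (Fact.out : p.Prime).pos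
  by_cases h : n = p - 1
  · rw [if_pos h, yx_of_lt _ _ (by omega)]
    have : (⟨n, by omega⟩ : Fin p) = il p := Fin.ext h
    rw [this, Pi.single_eq_same]
  · rw [if_neg h]
    by_cases h1 : n < p
    · rw [yx_of_lt _ _ h1, Pi.single_eq_of_ne]
      intro h2
      exact h (congrArg Fin.val h2)
    · rw [yx_of_ge _ _ (by omega)]

lemma Iw_rho_last (g : Er p r) (z : Z.V) :
    (Iw p le_rfl w Z).ρ g (Pi.single (M := fun _ : Fin p => Z.V) (il p) z) =
      Pi.single (M := fun _ : Fin p => Z.V) (il p) (Z.ρ g z) := by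
  have h0 : (0 : ℕ) < p := (Fact.out : p.Prime).pos
  funext n
  rw [Iw_rho_apply, Finset.sum_eq_single 0]
  · rw [cc'_zero, Nat.sub_zero, yx_single]
    have h2 := yx_single (p := p) Z (Z.ρ g z) n.1
    rw [yx_of_lt _ _ n.2] at h2
    rw [show Pi.single (M := fun _ : Fin p => Z.V) (il p) (Z.ρ g z) n = _ from h2]
    by_cases h : n.1 = p - 1
    · rw [if_pos h, if_pos h]; rfl
    · rw [if_neg h, if_neg h, map_zero]; rfl
  · intro i hi hi0
    rw [Finset.mem_range] at hi
    have := n.2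
    rw [yx_single, if_neg (by omega), map_zero, map_zero]
  · intro h
    exact absurd (Finset.mem_range.2 (by omega)) h

/-- `0 → Z → I → R → 0` -/
def S0 : SES Z (Iw p le_rfl w Z) (RR w Z) where
  i := ⟨LinearMap.single K (fun _ : Fin p => Z.V) (il p), fun g z => (Iw_rho_last w Z g z).symm⟩
  p := ⟨LinearMap.codRestrict (RN w Z) (tmul p Z.V) (by
      intro y
      show tmul (K := K) p Z.V y (i0 p) = 0
      rw [tmul_apply]
      exact dif_pos rfl), by
    intro g y
    apply Subtype.ext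
    exact tmul_rho w Z g y⟩
  s :=
    { toFun := fun x n => yx x.1 (n.1 + 1)
      map_add' := by
        intro x y
        funext n
        exact yx_add _ _ _
      map_smul' := by
        intro c x
        funext n
        exact yx_smul _ _ _ }
  r := LinearMap.proj (il p)
  ri := by
    intro a
    show Pi.single (M := fun _ : Fin p => Z.V) (il p) a (il p) = a
    rw [Pi.single_eq_same]
  ps := by
    intro c
    apply Subtype.ext
    show tmul (K := K) p Z.V (fun n => yx c.1 (n.1 + 1)) = c.1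
    funext n
    rw [tmul_apply]
    by_cases h : n.1 = 0
    · rw [dif_pos h]
      have h1 : n = i0 p := Fin.ext h
      rw [h1]
      exact c.2.symm
    · rw [dif_neg h]
      have h1 : n.1 - 1 + 1 = n.1 := by omega
      show yx c.1 (n.1 - 1 + 1) = c.1 n
      rw [h1, yx_of_lt _ _ n.2]
  pi := by
    intro a
    apply Subtype.ext
    show tmul (K := K) p Z.V (Pi.single (M := fun _ : Fin p => Z.V) (il p) a) = 0
    funext n
    rw [tmul_apply]
    by_cases h : n.1 = 0
    · rw [dif_pos h]; rfl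
    · rw [dif_neg h, Pi.single_eq_of_ne]
      · rfl
      · intro h2
        have := congrArg Fin.val h2
        have h3 := n.2
        simp only [il] at this
        omega
  sum := by
    intro b
    show (Pi.single (M := fun _ : Fin p => Z.V) (il p) (b (il p)) : Fin p → Z.V) +
      (fun n : Fin p => yx (tmul (K := K) p Z.V b) (n.1 + 1)) = b
    funext n
    rw [Pi.add_apply]
    have h0 : (0 : ℕ) < p := (Fact.out : p.Prime).pos
    by_cases h : n = il p
    · rw [h, Pi.single_eq_same, yx_of_ge _ _ (by simp only [il]; omega), add_zero]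
    · rw [Pi.single_eq_of_ne h, zero_add]
      have h1 : n.1 + 1 < p := by
        have h2 : n.1 ≠ p - 1 := fun h2 => h (Fin.ext h2)
        have := n.2
        omega
      rw [yx_of_lt _ _ h1, tmul_apply, dif_neg (by simp only; omega)]
      congr 1

lemma dfun_p {K G : Type} [Field K] [Group G] [Fintype G] {A B C : FRep K G} (S : SES A B C)
    (b : B.V) (g : G) : S.dfun (S.p.1 b) g = S.r b - A.ρ g (S.r (B.ρ g⁻¹ b)) := by
  apply S.i_injective
  rw [S.i_dfun, map_sub, EHom.map]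
  have e1 := S.sum b
  have e2 := S.sum (B.ρ g⁻¹ b)
  have e3 := congrArg (B.ρ g) e2
  rw [map_add, FRep.self_inv, EHom.map] at e3
  rw [eq_sub_of_add_eq' e1, eq_sub_of_add_eq' e3]
  abel

lemma S1_dfun (z : Z.V) (g : Er p r) (n : ℕ) (h0 : 0 < n) (hn : n < p) :
    yx ((S1 w Z).dfun z g).1 n = cc' w Z n g z := by
  have h1 := congrFun ((S1 w Z).i_dfun z g) ⟨n, hn⟩
  rw [yx_of_lt _ _ hn]
  refine Eq.trans h1 ?_
  show (Iw p le_rfl w Z).ρ g (Pi.single (M := fun _ : Fin p => Z.V) (i0 p) (Z.ρ g⁻¹ z)) ⟨n, hn⟩ -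
    Pi.single (M := fun _ : Fin p => Z.V) (i0 p) z ⟨n, hn⟩ = _
  rw [Pi.single_eq_of_ne (by intro h; have := congrArg Fin.val h; simp only [i0] at this; omega),
    sub_zero, Iw_rho_apply, Finset.sum_eq_single n]
  · have h2 : yx (Pi.single (M := fun _ : Fin p => Z.V) (i0 p) (Z.ρ g⁻¹ z)) (n - n) =
        Z.ρ g⁻¹ z := by
      rw [Nat.sub_self, yx_of_lt _ _ (by omega)]
      exact Pi.single_eq_same _ _
    show cc' w Z n g (Z.ρ g (yx (Pi.single (M := fun _ : Fin p => Z.V) (i0 p) (Z.ρ g⁻¹ z))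
      (n - n))) = _
    rw [h2, FRep.self_inv]
  · intro i hi hin
    rw [Finset.mem_range] at hi
    have hi' : i < n + 1 := hi
    have h2 : yx (Pi.single (M := fun _ : Fin p => Z.V) (i0 p) (Z.ρ g⁻¹ z)) (n - i) = 0 := by
      rw [yx_of_lt _ _ (by omega), Pi.single_eq_of_ne]
      intro h
      have := congrArg Fin.val h
      simp only [i0] at this
      omega
    show cc' w Z i g (Z.ρ g (yx (Pi.single (M := fun _ : Fin p => Z.V) (i0 p) (Z.ρ g⁻¹ z))
      (n - i))) = _
    rw [h2, map_zero, map_zero]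
  · intro h
    exact absurd (Finset.mem_range.2 (Nat.lt_succ_self n)) h

lemma S0_dfun (x : (RR w Z).V) (h : Er p r) :
    (S0 w Z).dfun x h = - ∑ i ∈ Finset.range p, cc' w Z i h⁻¹ (yx x.1 (p - i)) := by
  have hp : 0 < p := (Fact.out : p.Prime).pos
  have h1 := dfun_p (S0 w Z) ((S0 w Z).s x) h
  rw [(S0 w Z).ps, (S0 w Z).rs, zero_sub] at h1
  rw [h1]
  congr 1
  have h2 : (S0 w Z).r ((Iw p le_rfl w Z).ρ h⁻¹ ((S0 w Z).s x)) =
      (Iw p le_rfl w Z).ρ h⁻¹ ((S0 w Z).s x) (il p) := rfl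
  rw [h2, Iw_rho_apply, map_sum]
  have h3 : (il p).1 + 1 = p := by
    simp only [il]; omega
  rw [h3]
  refine Finset.sum_congr rfl fun i hi => ?_
  rw [Finset.mem_range] at hi
  rw [cc'_comm, FRep.self_inv]
  have h4 : yx (m := p) ((S0 w Z).s x) ((il p).1 - i) = yx x.1 (p - i) := by
    rw [yx_of_lt _ _ (by simp only [il]; omega)]
    show yx x.1 ((il p).1 - i + 1) = _
    congr 1
    simp only [il]
    omega
  rw [h4]

lemma kj_inv (g h : Er p r) (j : Fin r) :
    (kj h⁻¹ g j : K) + (if nj g j < nj h j then 1 else 0) = 1 - (if nj h j = 0 then 1 else 0) := by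
  have hg : nj g j < p := ZMod.val_lt _
  have hh : nj h j < p := ZMod.val_lt _
  have h1 : nj h⁻¹ j = if nj h j = 0 then 0 else p - nj h j := by
    unfold nj
    rw [toAdd_inv, Pi.neg_apply, ZMod.neg_val]
    simp only [ZMod.val_eq_zero]
  unfold kj
  rw [h1]
  by_cases h2 : nj h j = 0
  · rw [if_pos h2, if_pos h2, if_neg (by omega), if_neg (by omega)]
    simp
  · rw [if_neg h2, if_neg h2]
    by_cases h3 : nj g j < nj h j
    · rw [if_neg (by omega), if_pos h3]; simp
    · rw [if_pos (by omega), if_neg h3]; simp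

lemma bw_val (g h : Er p r) : (bw w : BF K (Er p r)).1 g h =
    ∑ j, w j ^ p * (if nj g j < nj h j then 1 else 0) := by
  unfold bw
  rw [AddSubmonoidClass.coe_finsetSum, Finset.sum_apply, Finset.sum_apply]
  rfl

lemma comp_val (z : Z.V) : ((ecomp (Sh.map (S0 w Z).δ) ((S1 w Z).δ))).1 z =
    q2 Z (fun g h => - cc' w Z p (h⁻¹ * g) z + cc' w Z p g z + cc' w Z p h⁻¹ z
      - (∑ j, (kj h⁻¹ g j : K) * w j ^ p) • z) := by
  have hp : 0 < p := (Fact.out : p.Prime).pos
  have h1 : ((ecomp (Sh.map (S0 w Z).δ) ((S1 w Z).δ))).1 z =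
    q2 Z (fun g h => (S0 w Z).dfun ((S1 w Z).dfun z g) h) := rfl
  rw [h1]
  congr 1
  funext g h
  rw [S0_dfun]
  have h2 := cc'_rel w Z h⁻¹ g z
  rw [Finset.sum_range_succ, cc'_zero_right] at h2
  have h3 : ∑ i ∈ Finset.range p, (cc' w Z i h⁻¹ (cc' w Z (p - i) g z) -
      cc' w Z i h⁻¹ (yx ((S1 w Z).dfun z g).1 (p - i))) = cc' w Z p g z := by
    rw [Finset.sum_eq_single 0]
    · rw [cc'_zero, Nat.sub_zero, yx_of_ge _ _ le_rfl, map_zero, sub_zero]
      rfl
    · intro i hi hi0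
      rw [Finset.mem_range] at hi
      rw [S1_dfun w Z z g (p - i) (by omega) (by omega), sub_self]
    · intro h
      exact absurd (Finset.mem_range.2 hp) h
  rw [Finset.sum_sub_distrib] at h3
  rw [eq_sub_of_add_eq h2] at h3
  rw [← sub_eq_zero] at h3
  rw [← sub_eq_zero, ← h3]
  abel

/-- The class of `0 → Z → I_w Z → I_w Z → Z → 0` is `bw w`, explicit version. -/
theorem Iw_class' : cl ((ecomp (Sh.map (S0 w Z).δ) ((S1 w Z).δ))) = cl (bmap Z (bw w)) := by
  rw [cl_eq]
  refine null_of_lift _ ⟨(LinearMap.pi fun g => shq Z ∘ₗ (LinearMap.pi fun h =>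
    - cc' w Z p (h⁻¹ * g))), ?_⟩ ?_
  · intro k z
    funext g
    rw [FRep.Fn_apply]
    show shq Z (fun h => - cc' w Z p (h⁻¹ * g) (Z.ρ k z)) =
      (FRep.Sh Z).ρ k (shq Z (fun h => - cc' w Z p (h⁻¹ * (k⁻¹ * g)) z))
    rw [shq_ρ]
    congr 1
    funext h
    rw [map_neg, cc'_comm]
    congr 4
    group
  · intro z
    show ((ecomp (Sh.map (S0 w Z).δ) ((S1 w Z).δ))).1 z - (bmap Z (bw w)).1 z =
      q2 Z (fun g h => - cc' w Z p (h⁻¹ * g) z)
    rw [comp_val, bmap_apply, ← sub_eq_zero, ← map_sub, ← map_sub, q2_eq_zero]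
    refine ⟨fun g => cc' w Z p g z, fun h => cc' w Z p h⁻¹ z -
      (∑ j, (1 - (if nj h j = 0 then 1 else 0)) * w j ^ p) • z, fun g h => ?_⟩
    show (- cc' w Z p (h⁻¹ * g) z + cc' w Z p g z + cc' w Z p h⁻¹ z
      - (∑ j, (kj h⁻¹ g j : K) * w j ^ p) • z) - (bw w : BF K (Er p r)).1 g h • z -
      - cc' w Z p (h⁻¹ * g) z = cc' w Z p g z + (cc' w Z p h⁻¹ z -
      (∑ j, (1 - (if nj h j = 0 then 1 else 0)) * w j ^ p) • z)
    have h1 : (∑ j, (1 - (if nj h j = 0 then 1 else 0)) * w j ^ p : K) =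
        ∑ j, (kj h⁻¹ g j : K) * w j ^ p + (bw w : BF K (Er p r)).1 g h := by
      rw [bw_val, ← Finset.sum_add_distrib]
      refine Finset.sum_congr rfl fun j _ => ?_
      rw [← kj_inv]
      ring
    rw [h1, add_smul]
    abel

end seq

/-! ### `bw w` kills `I_w Z` -/

/-- the section `z t^i ↦ z (t+s)^i` -/
def sec (Z : FRep K (Er p r)) : (Fin p → Z.V) →ₗ[K] (Fin p → Fin p → Z.V) where
  toFun y a b := (((a.1 + b.1).choose a.1 : ℕ) : K) • yx y (a.1 + b.1)
  map_add' y y' := by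
    funext a b
    rw [yx_add, smul_add]
    rfl
  map_smul' c y := by
    funext a b
    rw [yx_smul, smul_comm]
    rfl

lemma sec_apply (Z : FRep K (Er p r)) (y : Fin p → Z.V) (a b : Fin p) :
    sec Z y a b = (((a.1 + b.1).choose a.1 : ℕ) : K) • yx y (a.1 + b.1) := rfl

lemma yx_tmul (Z : FRep K (Er p r)) (y : Fin p → Z.V) (n : ℕ) (hn : 0 < n) (hn2 : n < p) :
    yx (tmul (K := K) p Z.V y) n = yx y (n - 1) := by
  rw [yx_of_lt _ _ hn2, tmul_apply, dif_neg (by simp only; omega), yx_of_lt _ _ (by omega)]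

lemma sec_tmul (Z : FRep K (Er p r)) (y : Fin p → Z.V) (a b : Fin p) :
    sec Z (tmul (K := K) p Z.V y) a b =
      tmul (K := K) p Z.V (sec Z y a) b + tmul (K := K) p (Fin p → Z.V) (sec Z y) a b := by
  have hp : p.Prime := Fact.out
  have h0 : 0 < p := hp.pos
  obtain ⟨a, ha⟩ := a
  obtain ⟨b, hb⟩ := b
  have ht : yx (tmul (K := K) p Z.V y) 0 = 0 := by
    rw [yx_of_lt _ _ h0, tmul_apply, dif_pos rfl]
  rw [sec_apply, tmul_apply, tmul_apply]
  simp only
  rcases a with _ | a
  · rcases b with _ | b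
    · simp [ht]
    · simp only [dif_pos, Nat.zero_add, Nat.choose_zero_right, Pi.zero_apply, add_zero]
      rw [dif_neg (by omega), sec_apply, yx_tmul Z y _ (by omega) hb]
      simp
  · rcases b with _ | b
    · simp only [dif_pos, zero_add, Nat.add_zero, Nat.choose_self]
      rw [dif_neg (by omega), sec_apply, yx_tmul Z y _ (by omega) ha]
      simp
    · rw [dif_neg (by omega), dif_neg (by omega), sec_apply, sec_apply]
      simp only [Nat.add_sub_cancel]
      have e1 : a + 1 + b = a + b + 1 := by omega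
      have e2 : a + (b + 1) = a + b + 1 := by omega
      have e3 : a + 1 + (b + 1) = (a + b + 1) + 1 := by omega
      rw [e1, e2, e3, Nat.choose_succ_succ (a + b + 1) a, ← add_smul, ← Nat.cast_add,
        Nat.add_comm ((a + b + 1).choose (a + 1))]
      by_cases h1 : a + b + 1 + 1 < p
      · rw [yx_tmul Z y _ (by omega) h1, Nat.add_sub_cancel]
      · rw [yx_of_ge (tmul (K := K) p Z.V y) _ (by omega), smul_zero]
        by_cases h2 : p ≤ a + b + 1
        · rw [yx_of_ge _ _ h2, smul_zero]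
        · have h3 : a + b + 1 + 1 = p := by omega
          have h4 : (((a + b + 1).choose a + (a + b + 1).choose (a + 1) : ℕ) : K) = 0 := by
            rw [← Nat.choose_succ_succ, Nat.succ_eq_add_one, h3, CharP.cast_eq_zero_iff K p]
            exact hp.dvd_choose_self (by omega) ha
          rw [h4, zero_smul]

lemma sec_mem (w : Fin r → K) (Z : FRep K (Er p r)) :
    (sec Z : (Iw p le_rfl w Z).V →ₗ[K] (Iw p le_rfl w (Iw p le_rfl w Z)).V) ∈
      EHom (Iw p le_rfl w Z) (Iw p le_rfl w (Iw p le_rfl w Z)) := by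
  apply EHom_of_gen
  intro j x
  have hR : (Iw p le_rfl w Z).ρ (eg p j) = iwOp p w Z j := Iw_eg p le_rfl w Z j
  have hS : (Iw p le_rfl w (Iw p le_rfl w Z)).ρ (eg p j) = iwOp p w (Iw p le_rfl w Z) j :=
    Iw_eg p le_rfl w _ j
  rw [hR, hS]
  have hyx : ∀ (f : Module.End K Z.V) (n : ℕ), yx (cw p f x) n = f (yx x n) := by
    intro f n
    by_cases hn : n < p
    · rw [yx_of_lt _ _ hn, yx_of_lt _ _ hn]; rfl
    · rw [yx_of_ge _ _ (by omega), yx_of_ge _ _ (by omega), map_zero]
  funext a b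
  have e1 : sec Z (iwOp p w Z j x) a b =
      sec Z (cw p (Z.ρ (eg p j)) x) a b + w j • sec Z (tmul (K := K) p Z.V x) a b := by
    have : iwOp p w Z j x = cw p (Z.ρ (eg p j)) x + w j • tmul (K := K) p Z.V x := rfl
    rw [this, map_add, map_smul]
    rfl
  have e2 : iwOp p w (Iw p le_rfl w Z) j (sec Z x) a b =
      (Iw p le_rfl w Z).ρ (eg p j) (sec Z x a) b +
        w j • tmul (K := K) p (Fin p → Z.V) (sec Z x) a b := rfl
  have e3 : (Iw p le_rfl w Z).ρ (eg p j) (sec Z x a) b =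
      Z.ρ (eg p j) (sec Z x a b) + w j • tmul (K := K) p Z.V (sec Z x a) b := by
    rw [hR]; rfl
  refine e1.trans (Eq.trans ?_ e2.symm)
  rw [e3, sec_tmul, smul_add, ← add_assoc]
  congr 2
  rw [sec_apply, sec_apply, hyx, map_smul]

/-- the section as an equivariant map -/
def secE (w : Fin r → K) (Z : FRep K (Er p r)) :
    EHom (Iw p le_rfl w Z) (Iw p le_rfl w (Iw p le_rfl w Z)) := ⟨_, sec_mem w Z⟩

lemma p_secE (w : Fin r → K) (Z : FRep K (Er p r)) :
    (ecomp ((S1 w (Iw p le_rfl w Z)).p) (secE w Z)) = EHom.id _ := by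
  apply Subtype.ext
  refine LinearMap.ext fun y => ?_
  funext b
  show sec Z y (i0 p) b = y b
  rw [sec_apply]
  simp only [i0, Nat.zero_add, Nat.choose_zero_right, Nat.cast_one, one_smul]
  rw [yx_of_lt _ _ b.2]

lemma null_bw_Iw (w : Fin r → K) (Z : FRep K (Er p r)) :
    bmap (Iw p le_rfl w Z) (bw w) ∈ Null _ _ := by
  rw [← cl_eq_zero, ← Iw_class']
  have h1 := (S1 w (Iw p le_rfl w Z)).δ_p_zero (Iw p le_rfl w Z) (cl (secE w Z))
  rw [Hs.mapR_cl, p_secE, Hs.mapR_cl, EHom.comp_id, cl_eq_zero] at h1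
  rw [cl_eq_zero]
  exact Null.comp_left _ h1

end IwC

open IwC

variable {K : Type} [Field K] {p r : ℕ} [Fact p.Prime] [CharP K p]

/-- The class of `0 → Z → I_w Z → I_w Z → Z → 0` is `bw w`. -/
theorem Iw_class (w : Fin r → K) (Z : FRep K (Er p r)) :
    ∃ (R : FRep K (Er p r)) (S1 : SES R (Iw p le_rfl w Z) Z) (S0 : SES Z (Iw p le_rfl w Z) R),
      cl ((ecomp (Sh.map S0.δ) S1.δ)) = cl (bmap Z (bw w)) :=
  ⟨RR w Z, IwC.S1 w Z, IwC.S0 w Z, Iw_class' w Z⟩

/-- `bw w` kills `I_w Z` -/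
theorem bl_mem_Ann_Iw (w : Fin r → K) (Z : FRep K (Er p r)) :
    bl p w ∈ Ann (Iw p le_rfl w Z) := by
  rw [mem_Ann]
  intro U x
  rw [← bop_bw, bop_apply, push_null U (null_bw_Iw w Z) x, map_zero, map_zero]

end Pool.Agent.H34.Gam

end
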