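import Pool.Agent.H34.Gam.CB
import Pool.Agent.H34.Gam.IwClass

/-!
The exact sequences of `I_w Z`, the class of `0 → Z → I_w Z → I_w Z → Z → 0`, and the resulting
dimension inequalities (job GAM-IW).
-/

set_option autoImplicit false
set_option linter.unusedSectionVars false

noncomputable section

namespace Pool.Agent.H34.Gam

open Module

section general
variable {K G : Type} [Field K] [Group G] [Fintype G]

/-- half exactness in the first variable, as an inequality -/
theorem hh_left_le {A B C : FRep K G} (S : SES A B C) (a : ℕ) (Y : FRep K G) :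
    hh a B Y ≤ hh a A Y + hh a C Y := by
  have h := S.exact_pull (FRep.ShN a Y)
  have h2 := LinearMap.finrank_range_add_finrank_ker (Hs.mapL S.i (FRep.ShN a Y))
  have h3 : LinearMap.ker (Hs.mapL S.i (FRep.ShN a Y)) ≤
      LinearMap.range (Hs.mapL S.p (FRep.ShN a Y)) :=
    fun x hx => h x hx
  have h4 := Submodule.finrank_mono h3
  have h5 := LinearMap.finrank_range_le (Hs.mapL S.p (FRep.ShN a Y))
  have h6 := Submodule.finrank_le (LinearMap.range (Hs.mapL S.i (FRep.ShN a Y)))
  unfold hh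
  omega

lemma subsingleton_Sh (W : FRep K G) [Subsingleton W.V] : Subsingleton (FRep.Sh W).V := by
  refine ⟨fun x y => ?_⟩
  obtain ⟨f, rfl⟩ := shq_surjective W x
  obtain ⟨f', rfl⟩ := shq_surjective W y
  rw [Subsingleton.elim f f']

lemma subsingleton_ShN (a : ℕ) (W : FRep K G) [h : Subsingleton W.V] :
    Subsingleton (FRep.ShN a W).V := by
  induction a generalizing W with
  | zero => exact h
  | succ a ih =>
    have := subsingleton_Sh W
    exact ih (FRep.Sh W)

lemma finrank_Hs_zero (U W : FRep K G) (h : ∀ f : EHom U W, f = 0) :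
    finrank K (Hs U W) = 0 := by
  have : Subsingleton (Hs U W) := by
    refine ⟨fun x y => ?_⟩
    obtain ⟨f, rfl⟩ := cl_surjective x
    obtain ⟨f', rfl⟩ := cl_surjective y
    rw [h f, h f']
  exact finrank_zero_of_subsingleton

theorem hh_of_subsingleton_right (U W : FRep K G) [Subsingleton W.V] (a : ℕ) : hh a U W = 0 := by
  have := subsingleton_ShN a W
  exact finrank_Hs_zero _ _ fun f => EHom.ext' fun x => Subsingleton.elim _ _

theorem hh_of_subsingleton_left (U W : FRep K G) [Subsingleton U.V] (a : ℕ) : hh a U W = 0 := by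
  refine finrank_Hs_zero _ _ fun f => EHom.ext' fun x => ?_
  rw [Subsingleton.elim x 0, map_zero, map_zero]

end general

variable {K : Type} [Field K] {p r : ℕ} [Fact p.Prime] [CharP K p]

/-- `0 → Z → I^(m+1) Z → I^(m) Z → 0` (`z ↦ z t^m`) -/
theorem Iw_ses (m : ℕ) (hm : m + 1 ≤ p) (w : Fin r → K) (Z : FRep K (Er p r)) :
    Nonempty (SES Z (Iw (m + 1) hm w Z) (Iw m (by omega) w Z)) := by
  let iL : Z.V →ₗ[K] (Fin (m + 1) → Z.V) := LinearMap.single K (fun _ : Fin (m + 1) => Z.V) (Fin.last m)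
  let pL : (Fin (m + 1) → Z.V) →ₗ[K] (Fin m → Z.V) :=
    LinearMap.pi fun n => LinearMap.proj n.castSucc
  let sL : (Fin m → Z.V) →ₗ[K] (Fin (m + 1) → Z.V) :=
    LinearMap.pi fun n => if h : n.1 < m then LinearMap.proj ⟨n.1, h⟩ else 0
  have hi_last : ∀ z, iL z (Fin.last m) = z := fun z => Pi.single_eq_same _ _
  have hi_ne : ∀ z (n : Fin (m + 1)), n ≠ Fin.last m → iL z n = 0 :=
    fun z n hn => Pi.single_eq_of_ne hn _
  have hs_lt : ∀ (y : Fin m → Z.V) (n : Fin (m + 1)) (h : n.1 < m), sL y n = y ⟨n.1, h⟩ := by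
    intro y n h
    show (if h : n.1 < m then LinearMap.proj ⟨n.1, h⟩ else 0 : (Fin m → Z.V) →ₗ[K] Z.V) y = _
    rw [dif_pos h]; rfl
  have hs_last : ∀ (y : Fin m → Z.V), sL y (Fin.last m) = 0 := by
    intro y
    show (if h : (Fin.last m).1 < m then LinearMap.proj ⟨(Fin.last m).1, h⟩ else 0 :
      (Fin m → Z.V) →ₗ[K] Z.V) y = _
    rw [dif_neg (by simp)]; rfl
  let i : EHom Z (Iw (m + 1) hm w Z) := ⟨iL, by
    apply EHom_of_gen
    intro j z
    rw [Iw_eg]
    funext n
    show iL (Z.ρ (eg p j) z) n = Z.ρ (eg p j) (iL z n) + w j • tmul (K := K) (m + 1) Z.V (iL z) n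
    have ht : tmul (K := K) (m + 1) Z.V (iL z) n = 0 := by
      rw [tmul_apply]
      by_cases h : n.1 = 0
      · rw [dif_pos h]
      · rw [dif_neg h, hi_ne]
        intro h2
        have := congrArg Fin.val h2
        have h3 := n.2
        simp only [Fin.val_last] at this
        omega
    rw [ht, smul_zero, add_zero]
    by_cases hn : n = Fin.last m
    · subst hn; rw [hi_last, hi_last]
    · rw [hi_ne _ _ hn, hi_ne _ _ hn, map_zero]⟩
  let q : EHom (Iw (m + 1) hm w Z) (Iw m (by omega) w Z) := ⟨pL, by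
    apply EHom_of_gen
    intro j y
    rw [Iw_eg, Iw_eg]
    funext n
    show Z.ρ (eg p j) (y n.castSucc) + w j • tmul (K := K) (m + 1) Z.V y n.castSucc =
      Z.ρ (eg p j) (y n.castSucc) + w j • tmul (K := K) m Z.V (pL y) n
    rfl⟩
  exact ⟨
    { i := i
      p := q
      s := sL
      r := LinearMap.proj (Fin.last m)
      ri := fun z => hi_last z
      ps := fun y => by
        funext n
        exact hs_lt y n.castSucc n.2
      pi := fun z => by
        funext n
        exact hi_ne z n.castSucc (Fin.castSucc_lt_last n).ne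
      sum := fun y => by
        funext n
        show iL (y (Fin.last m)) n + sL (pL y) n = y n
        by_cases hn : n = Fin.last m
        · subst hn
          rw [hi_last, hs_last, add_zero]
        · have h1 : n.1 < m := by
            have h2 := n.2
            have h3 : n.1 ≠ m := fun h => hn (Fin.ext h)
            omega
          rw [hi_ne _ _ hn, zero_add, hs_lt _ _ h1]
          rfl }⟩

instance subsingleton_Iw_zero (hm : 0 ≤ p) (w : Fin r → K) (Z : FRep K (Er p r)) :
    Subsingleton (Iw 0 hm w Z).V :=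
  inferInstanceAs (Subsingleton (Fin 0 → Z.V))

lemma hh_Iw_le' (m : ℕ) (hm : m ≤ p) (w : Fin r → K) (a : ℕ) (U Z : FRep K (Er p r)) :
    hh a U (Iw m hm w Z) ≤ m * hh a U Z := by
  induction m with
  | zero => rw [hh_of_subsingleton_right]; omega
  | succ m ih =>
    obtain ⟨S⟩ := Iw_ses m hm w Z
    have h1 := hh_mid_le S a U
    have h2 := ih (by omega)
    rw [Nat.succ_mul]
    omega

lemma hh_Iw_left_le' (m : ℕ) (hm : m ≤ p) (w : Fin r → K) (a : ℕ) (Z W : FRep K (Er p r)) :
    hh a (Iw m hm w Z) W ≤ m * hh a Z W := by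
  induction m with
  | zero => rw [hh_of_subsingleton_left]; omega
  | succ m ih =>
    obtain ⟨S⟩ := Iw_ses m hm w Z
    have h1 := hh_left_le S a W
    have h2 := ih (by omega)
    rw [Nat.succ_mul]
    omega

lemma kap_Iw_le' (c : Fin r → K) (m : ℕ) (hm : m ≤ p) (w : Fin r → K) (Z : FRep K (Er p r)) :
    kap c (Iw m hm w Z) ≤ m * kap c Z := by
  induction m with
  | zero =>
    have : finrank K (Iw 0 hm w Z).V = 0 := finrank_zero_of_subsingleton
    unfold kap
    omega
  | succ m ih =>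
    obtain ⟨S⟩ := Iw_ses m hm w Z
    have h1 := kap_ses c S
    have h2 := ih (by omega)
    rw [Nat.succ_mul]
    omega

lemma Ann_Iw' (m : ℕ) (hm : m ≤ p) (w : Fin r → K) (Z : FRep K (Er p r)) :
    Ann Z ^ m ≤ Ann (Iw m hm w Z) := by
  induction m with
  | zero =>
    intro q _
    refine mem_Ann.2 fun U x => ?_
    have : ∀ a, Subsingleton (Hs U (FRep.ShN a (Iw 0 hm w Z))) := by
      intro a
      have := subsingleton_ShN a (Iw 0 hm w Z)
      refine ⟨fun x y => ?_⟩
      obtain ⟨f, rfl⟩ := cl_surjective x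
      obtain ⟨f', rfl⟩ := cl_surjective y
      rw [show f = f' from EHom.ext' fun x => Subsingleton.elim _ _]
    exact Subsingleton.elim _ _
  | succ m ih =>
    obtain ⟨S⟩ := Iw_ses m hm w Z
    rw [pow_succ']
    exact (Ideal.mul_mono_right (ih (by omega))).trans (Ann_ses S)

theorem hh_Iw_le (w : Fin r → K) (a : ℕ) (U Z : FRep K (Er p r)) :
    hh a U (Iw p le_rfl w Z) ≤ p * hh a U Z := hh_Iw_le' p le_rfl w a U Z

theorem hh_Iws_le (l : List (Fin r → K)) (a : ℕ) (U Z : FRep K (Er p r)) :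
    hh a U (Iws l Z) ≤ p ^ l.length * hh a U Z := by
  induction l with
  | nil => simp [Iws]
  | cons w l ih =>
    refine (hh_Iw_le w a U (Iws l Z)).trans ?_
    rw [List.length_cons, pow_succ', mul_assoc]
    exact Nat.mul_le_mul_left p ih

theorem hh_Iws_left_le (l : List (Fin r → K)) (a : ℕ) (Z W : FRep K (Er p r)) :
    hh a (Iws l Z) W ≤ p ^ l.length * hh a Z W := by
  induction l with
  | nil => simp [Iws]
  | cons w l ih =>
    refine (hh_Iw_left_le' p le_rfl w a (Iws l Z) W).trans ?_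
    rw [List.length_cons, pow_succ', mul_assoc]
    exact Nat.mul_le_mul_left p ih

theorem kap_Iws_le (c : Fin r → K) (l : List (Fin r → K)) (Z : FRep K (Er p r)) :
    kap c (Iws l Z) ≤ p ^ l.length * kap c Z := by
  induction l with
  | nil => simp [Iws]
  | cons w l ih =>
    refine (kap_Iw_le' c p le_rfl w (Iws l Z)).trans ?_
    rw [List.length_cons, pow_succ', mul_assoc]
    exact Nat.mul_le_mul_left p ih

theorem Ann_Iw (w : Fin r → K) (Z : FRep K (Er p r)) :
    Ann Z ^ p ≤ Ann (Iw p le_rfl w Z) := Ann_Iw' p le_rfl w Z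

/-! `Iw_class` and `bl_mem_Ann_Iw` are proved in `IwClass.lean`. -/

lemma finrank_ker_comp_le {X Y T : Type} [AddCommGroup X] [Module K X] [AddCommGroup Y]
    [Module K Y] [AddCommGroup T] [Module K T] [FiniteDimensional K X] [FiniteDimensional K Y]
    (f : X →ₗ[K] Y) (g : Y →ₗ[K] T) :
    finrank K (LinearMap.ker (g ∘ₗ f)) ≤
      finrank K (LinearMap.ker f) + finrank K (LinearMap.ker g) := by
  let f' : LinearMap.ker (g ∘ₗ f) →ₗ[K] LinearMap.ker g :=
    (f.comp (Submodule.subtype _)).codRestrict _ (fun x => x.2)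
  have h1 := LinearMap.finrank_range_add_finrank_ker f'
  have h2 := Submodule.finrank_le (LinearMap.range f')
  have h3 : finrank K (LinearMap.ker f') ≤ finrank K (LinearMap.ker f) := by
    let g' : LinearMap.ker f' →ₗ[K] LinearMap.ker f :=
      ((Submodule.subtype _).comp (Submodule.subtype _)).codRestrict _ (fun x => by
        have := x.2
        rw [LinearMap.mem_ker] at this ⊢
        exact congrArg Subtype.val this)
    apply LinearMap.finrank_le_finrank_of_injective (f := g')
    intro x y h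
    have := congrArg Subtype.val h
    exact Subtype.ext (Subtype.ext this)
  omega

lemma exists_class (w : Fin r → K) (a : ℕ) (U Z : FRep K (Er p r)) :
    ∃ (R : FRep K (Er p r)) (S1 : SES R (Iw p le_rfl w Z) Z) (S0 : SES Z (Iw p le_rfl w Z) R),
      Hs.mapR U (ShNm a (bmap Z (bw w))) =
        Hs.mapR U (ShNm (a + 1) S0.δ) ∘ₗ Hs.mapR U (ShNm a S1.δ) := by
  obtain ⟨R, S1, S0, h⟩ := Iw_class w Z
  refine ⟨R, S1, S0, ?_⟩
  rw [Hs.mapR_congr U (ShNm_cl a h.symm), ShNm_comp, Hs.mapR_comp]
  rfl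

/-- kernel of multiplication by `bw w` -/
theorem G1_ker (w : Fin r → K) (a : ℕ) (U Z : FRep K (Er p r)) :
    finrank K (LinearMap.ker (Hs.mapR U (ShNm a (bmap Z (bw w))))) ≤
      hh a U (Iw p le_rfl w Z) + hh (a + 1) U (Iw p le_rfl w Z) := by
  obtain ⟨R, S1, S0, h⟩ := exists_class w a U Z
  rw [h]
  refine (finrank_ker_comp_le _ _).trans (Nat.add_le_add ?_ ?_)
  · have h1 : LinearMap.ker (Hs.mapR U (ShNm a S1.δ)) ≤
        LinearMap.range (Hs.mapR U (ShNm a S1.p)) := fun x hx => (exact_N a S1 U).2.1 x hx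
    exact (Submodule.finrank_mono h1).trans (LinearMap.finrank_range_le _)
  · have h1 : LinearMap.ker (Hs.mapR U (ShNm (a + 1) S0.δ)) ≤
        LinearMap.range (Hs.mapR U (ShNm (a + 1) S0.p)) :=
      fun x hx => (exact_N (a + 1) S0 U).2.1 x hx
    exact (Submodule.finrank_mono h1).trans (LinearMap.finrank_range_le _)

lemma hh_coker_le {A B C : FRep K (Er p r)} (S : SES A B C) (a : ℕ) (U : FRep K (Er p r)) :
    hh (a + 1) U A ≤ finrank K (LinearMap.range (Hs.mapR U (ShNm a S.δ))) + hh (a + 1) U B := by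
  have h := (exact_N a S U).2.2
  have h2 := LinearMap.finrank_range_add_finrank_ker (Hs.mapR U (ShNm a (Sh.map S.i)))
  have h3 : LinearMap.ker (Hs.mapR U (ShNm a (Sh.map S.i))) ≤
      LinearMap.range (Hs.mapR U (ShNm a S.δ)) := fun x hx => h x hx
  have h4 := Submodule.finrank_mono h3
  have h5 := Submodule.finrank_le (LinearMap.range (Hs.mapR U (ShNm a (Sh.map S.i))))
  show finrank K (Hs U (FRep.ShN a (FRep.Sh A))) ≤ _ + finrank K (Hs U (FRep.ShN a (FRep.Sh B)))
  omega

/-- cokernel of multiplication by `bw w` -/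
theorem G1_coker (w : Fin r → K) (a : ℕ) (U Z : FRep K (Er p r)) :
    hh (a + 2) U Z ≤
      hh a U Z + hh (a + 1) U (Iw p le_rfl w Z) + hh (a + 2) U (Iw p le_rfl w Z) := by
  obtain ⟨R, S1, S0, _⟩ := exists_class w a U Z
  have h1 := hh_coker_le S1 a U
  have h2 := hh_coker_le S0 (a + 1) U
  have h3 := LinearMap.finrank_range_le (Hs.mapR U (ShNm a S1.δ))
  have h4 := LinearMap.finrank_range_le (Hs.mapR U (ShNm (a + 1) S0.δ))
  have h5 : finrank K (Hs U (FRep.ShN a Z)) = hh a U Z := rfl
  have h6 : finrank K (Hs U (FRep.ShN (a + 1) R)) = hh (a + 1) U R := rfl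
  have h7 : hh (a + 1 + 1) U Z = hh (a + 2) U Z := rfl
  have h8 : hh (a + 1 + 1) U (Iw p le_rfl w Z) = hh (a + 2) U (Iw p le_rfl w Z) := rfl
  rw [h5] at h3
  rw [h6] at h4
  rw [h7, h8] at h2
  omega

end Pool.Agent.H34.Gam

end
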