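import Mathlib

/-!
The limsup computation at the end (job GAM-LIM); pure analysis.
-/

set_option autoImplicit false

noncomputable section

namespace Pool.Agent.H34.Gam

open Filter Topology

theorem lim_root_le {x q : ℝ} (hx : 0 ≤ x) (hq : 0 ≤ q) (n : ℕ) :
    x ^ ((1 : ℝ) / ((n : ℝ) + 1)) ≤ q ↔ x ≤ q ^ (n + 1) := by
  have e : (1 : ℝ) / ((n : ℝ) + 1) = (((n + 1 : ℕ) : ℝ))⁻¹ := by
    push_cast
    rw [one_div]
  rw [e]
  constructor
  · intro h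
    calc x = (x ^ (((n + 1 : ℕ) : ℝ))⁻¹) ^ (n + 1) :=
          (Real.rpow_inv_natCast_pow hx (Nat.succ_ne_zero n)).symm
      _ ≤ q ^ (n + 1) := pow_le_pow_left₀ (Real.rpow_nonneg hx _) h _
  · intro h
    calc x ^ (((n + 1 : ℕ) : ℝ))⁻¹ ≤ (q ^ (n + 1)) ^ (((n + 1 : ℕ) : ℝ))⁻¹ :=
          Real.rpow_le_rpow hx h (by positivity)
      _ = q := Real.pow_rpow_inv_natCast hq (Nat.succ_ne_zero n)

theorem lim_absorb (C : ℝ) {q r : ℝ} (hq : 0 ≤ q) (hqr : q < r) :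
    ∀ᶠ n : ℕ in atTop, C * q ^ (n + 1) ≤ r ^ (n + 1) := by
  have hr : 0 < r := lt_of_le_of_lt hq hqr
  have h1 : Tendsto (fun n : ℕ => C * (q / r) ^ (n + 1)) atTop (𝓝 (C * 0)) :=
    ((tendsto_pow_atTop_nhds_zero_of_lt_one (div_nonneg hq hr.le)
      ((div_lt_one hr).2 hqr)).comp (tendsto_add_atTop_nat 1)).const_mul C
  rw [mul_zero] at h1
  filter_upwards [h1.eventually (gt_mem_nhds one_pos)] with n hn
  have hp : 0 < r ^ (n + 1) := by positivity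
  rw [div_pow, ← mul_div_assoc, div_lt_one hp] at hn
  exact hn.le

theorem lim_final (a d s t : ℕ → ℕ) (B C1 : ℕ)
    (ha : ∀ n, a n ≤ B ^ n)
    (hd : ∀ n, d n ≤ a n ^ 2)
    (hmain : ∀ g C0 : ℝ, 0 ≤ g → (∀ n : ℕ, (d n : ℝ) ≤ C0 * g ^ (2 * n)) →
      ∀ ε : ℝ, 0 < ε → ∃ C : ℝ, ∀ n : ℕ, (a n : ℝ) ≤ C * (g + ε) ^ n)
    (hs : ∀ n, a (n + 1) ≤ s n ∧ s n ≤ C1 * a (n + 1))
    (ht : ∀ n, d (n + 1) ≤ t n ∧ t n ≤ C1 * d (n + 1)) :
    Filter.limsup (fun n : ℕ => ((t n : ℕ) : ℝ) ^ ((1 : ℝ) / ((n : ℝ) + 1))) Filter.atTop =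
      (Filter.limsup (fun n : ℕ => ((s n : ℕ) : ℝ) ^ ((1 : ℝ) / ((n : ℝ) + 1))) Filter.atTop) ^ 2 := by
  set u : ℕ → ℝ := fun n => ((t n : ℕ) : ℝ) ^ ((1 : ℝ) / ((n : ℝ) + 1)) with hu
  set v : ℕ → ℝ := fun n => ((s n : ℕ) : ℝ) ^ ((1 : ℝ) / ((n : ℝ) + 1)) with hv
  have hu0 : ∀ n, 0 ≤ u n := fun n => Real.rpow_nonneg (Nat.cast_nonneg _) _
  have hv0 : ∀ n, 0 ≤ v n := fun n => Real.rpow_nonneg (Nat.cast_nonneg _) _
  have hule : ∀ (n : ℕ) (q : ℝ), 0 ≤ q → (u n ≤ q ↔ (t n : ℝ) ≤ q ^ (n + 1)) :=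
    fun n q hq => lim_root_le (Nat.cast_nonneg _) hq n
  have hvle : ∀ (n : ℕ) (q : ℝ), 0 ≤ q → (v n ≤ q ↔ (s n : ℝ) ≤ q ^ (n + 1)) :=
    fun n q hq => lim_root_le (Nat.cast_nonneg _) hq n
  -- real versions of the hypotheses
  have rs1 : ∀ n, (a (n + 1) : ℝ) ≤ s n := fun n => by exact_mod_cast (hs n).1
  have rs2 : ∀ n, (s n : ℝ) ≤ C1 * a (n + 1) := fun n => by exact_mod_cast (hs n).2
  have rt1 : ∀ n, (d (n + 1) : ℝ) ≤ t n := fun n => by exact_mod_cast (ht n).1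
  have rt2 : ∀ n, (t n : ℝ) ≤ C1 * d (n + 1) := fun n => by exact_mod_cast (ht n).2
  have rd : ∀ n, (d n : ℝ) ≤ (a n : ℝ) ^ 2 := fun n => by exact_mod_cast hd n
  have ra : ∀ n, (a n : ℝ) ≤ (B : ℝ) ^ n := fun n => by exact_mod_cast ha n
  have hC1 : (0 : ℝ) ≤ C1 := Nat.cast_nonneg _
  have hB : (0 : ℝ) ≤ B := Nat.cast_nonneg _
  -- boundedness
  have bv : IsBoundedUnder (· ≤ ·) atTop v := by
    refine ⟨(B : ℝ) + 1, ?_⟩
    rw [eventually_map]
    filter_upwards [lim_absorb (C1 : ℝ) hB (show (B : ℝ) < B + 1 by linarith)] with n hn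
    rw [hvle n _ (by positivity)]
    calc (s n : ℝ) ≤ C1 * a (n + 1) := rs2 n
      _ ≤ C1 * (B : ℝ) ^ (n + 1) := by gcongr; exact ra (n + 1)
      _ ≤ _ := hn
  have bu : IsBoundedUnder (· ≤ ·) atTop u := by
    refine ⟨(B : ℝ) ^ 2 + 1, ?_⟩
    rw [eventually_map]
    filter_upwards [lim_absorb (C1 : ℝ) (sq_nonneg (B : ℝ))
      (show (B : ℝ) ^ 2 < (B : ℝ) ^ 2 + 1 by linarith)] with n hn
    rw [hule n _ (by positivity)]
    calc (t n : ℝ) ≤ C1 * d (n + 1) := rt2 n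
      _ ≤ C1 * ((a (n + 1) : ℝ) ^ 2) := by gcongr; exact rd (n + 1)
      _ ≤ C1 * (((B : ℝ) ^ (n + 1)) ^ 2) := by gcongr; exact ra (n + 1)
      _ = C1 * ((B : ℝ) ^ 2) ^ (n + 1) := by rw [← pow_mul, ← pow_mul, mul_comm (n + 1) 2]
      _ ≤ _ := hn
  have cv : IsCoboundedUnder (· ≤ ·) atTop v :=
    IsBoundedUnder.isCoboundedUnder_le ⟨0, by
      rw [eventually_map]; exact Eventually.of_forall hv0⟩
  have cu : IsCoboundedUnder (· ≤ ·) atTop u :=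
    IsBoundedUnder.isCoboundedUnder_le ⟨0, by
      rw [eventually_map]; exact Eventually.of_forall hu0⟩
  set γ : ℝ := limsup v atTop with hγ
  set h : ℝ := limsup u atTop with hh
  have hγ0 : 0 ≤ γ := le_limsup_of_frequently_le (Eventually.of_forall hv0).frequently bv
  have hh0 : 0 ≤ h := le_limsup_of_frequently_le (Eventually.of_forall hu0).frequently bu
  apply le_antisymm
  · -- `h ≤ γ ^ 2`
    by_contra hcon
    push Not at hcon
    have h1 : γ < Real.sqrt h := by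
      rw [Real.lt_sqrt hγ0]
      exact hcon
    obtain ⟨r, hr1, hr2⟩ := exists_between h1
    obtain ⟨g, hg1, hg2⟩ := exists_between hr1
    have hg0 : 0 ≤ g := hγ0.trans hg1.le
    have hr0 : 0 ≤ r := hg0.trans hg2.le
    have hrh : r ^ 2 < h := (Real.lt_sqrt hr0).1 hr2
    have hev := eventually_lt_of_limsup_lt hg1 bv
    have hgr : g ^ 2 < r ^ 2 := by
      apply pow_lt_pow_left₀ hg2 hg0
      norm_num
    have hle : h ≤ r ^ 2 := by
      refine limsup_le_of_le cu ?_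
      filter_upwards [hev, lim_absorb (C1 : ℝ) (sq_nonneg g) hgr] with n hn hn2
      rw [hule n _ (sq_nonneg r)]
      have hsn := (hvle n g hg0).1 hn.le
      calc (t n : ℝ) ≤ C1 * d (n + 1) := rt2 n
        _ ≤ C1 * ((a (n + 1) : ℝ) ^ 2) := by gcongr; exact rd (n + 1)
        _ ≤ C1 * ((g ^ (n + 1)) ^ 2) := by
          gcongr
          exact (rs1 n).trans hsn
        _ = C1 * (g ^ 2) ^ (n + 1) := by rw [← pow_mul, ← pow_mul, mul_comm (n + 1) 2]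
        _ ≤ _ := hn2
    linarith
  · -- `γ ^ 2 ≤ h`
    by_contra hcon
    push Not at hcon
    have h1 : Real.sqrt h < γ := by
      rw [Real.sqrt_lt' (lt_of_le_of_ne hγ0 (by
        intro h0
        rw [← h0] at hcon
        norm_num at hcon
        linarith))]
      exact hcon
    obtain ⟨g, hg1, hg2⟩ := exists_between h1
    have hg0 : 0 < g := lt_of_le_of_lt (Real.sqrt_nonneg h) hg1
    have hhg : h < g ^ 2 := (Real.sqrt_lt' hg0).1 hg1
    have hev := eventually_lt_of_limsup_lt hhg bu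
    obtain ⟨n0, hn0⟩ := eventually_atTop.1 hev
    have hd1 : ∀ n, n0 ≤ n → (d (n + 1) : ℝ) ≤ g ^ (2 * (n + 1)) := by
      intro n hn
      have h2 := (hule n (g ^ 2) (sq_nonneg g)).1 (hn0 n hn).le
      calc (d (n + 1) : ℝ) ≤ t n := rt1 n
        _ ≤ (g ^ 2) ^ (n + 1) := h2
        _ = g ^ (2 * (n + 1)) := by rw [← pow_mul]
    set C0 : ℝ := 1 + ∑ i ∈ Finset.range (n0 + 1), (d i : ℝ) / g ^ (2 * i) with hC0
    have hS0 : 0 ≤ ∑ i ∈ Finset.range (n0 + 1), (d i : ℝ) / g ^ (2 * i) :=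
      Finset.sum_nonneg fun i _ => by positivity
    have hd2 : ∀ n, (d n : ℝ) ≤ C0 * g ^ (2 * n) := by
      intro n
      rcases Nat.lt_or_ge n (n0 + 1) with hlt | hge
      · have h2 : (d n : ℝ) / g ^ (2 * n) ≤ ∑ i ∈ Finset.range (n0 + 1), (d i : ℝ) / g ^ (2 * i) :=
          Finset.single_le_sum (f := fun i => (d i : ℝ) / g ^ (2 * i))
            (fun i _ => by positivity) (Finset.mem_range.2 hlt)
        have h3 : (d n : ℝ) / g ^ (2 * n) ≤ C0 := by rw [hC0]; linarith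
        rwa [div_le_iff₀ (by positivity)] at h3
      · obtain ⟨m, rfl⟩ : ∃ m, n = m + 1 := ⟨n - 1, by omega⟩
        have h2 := hd1 m (by omega)
        have h3 : (1 : ℝ) ≤ C0 := by rw [hC0]; linarith
        calc (d (m + 1) : ℝ) ≤ 1 * g ^ (2 * (m + 1)) := by rw [one_mul]; exact h2
          _ ≤ C0 * g ^ (2 * (m + 1)) := by gcongr
    set ε : ℝ := (γ - g) / 3 with hε
    have hε0 : 0 < ε := by
      rw [hε]
      linarith
    obtain ⟨C, hC⟩ := hmain g C0 hg0.le hd2 ε hε0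
    have hle : γ ≤ g + 2 * ε := by
      refine limsup_le_of_le cv ?_
      filter_upwards [lim_absorb ((C1 : ℝ) * C) (show 0 ≤ g + ε by positivity)
        (show g + ε < g + 2 * ε by linarith)] with n hn
      rw [hvle n _ (by positivity)]
      calc (s n : ℝ) ≤ C1 * a (n + 1) := rs2 n
        _ ≤ C1 * (C * (g + ε) ^ (n + 1)) := by gcongr; exact hC (n + 1)
        _ = C1 * C * (g + ε) ^ (n + 1) := by ring
        _ ≤ _ := hn
    have : g + 2 * ε < γ := by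
      rw [hε]
      linarith
    linarith

end Pool.Agent.H34.Gam

end
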