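import Pool.Agent.H34.Gam.IsoL
import Pool.Agent.H34.Gam.PG

/-!
Splitting off the free part, submultiplicativity of `cc` (job GAM-MUL).
-/

set_option autoImplicit false
set_option linter.unusedSectionVars false

noncomputable section

namespace Pool.Agent.H34.Gam

open Module

open scoped TensorProduct

variable {K G : Type} [Field K] [Group G] [Fintype G] {p : ℕ} [Fact p.Prime] [CharP K p]

theorem null_idem_aux (hG : IsPGroup p G) (W : FRep K G) {m : ℕ} (v : Fin m → W.V)
    (hv : LinearIndependent K (fun i => nrm W (v i))) :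
    ∃ e : EHom W W, e ∈ Null W W ∧ (ecomp e e) = e ∧
      finrank K (LinearMap.range e.1) = Fintype.card G * m := by
  classical
  choose l hl1 hl2 using fun i => exists_functional hv i
  let T : FRep K G := ⟨(Fin m → K), Representation.trivial K G (Fin m → K)⟩
  let Φ : EHom W (FRep.Fn T) := ⟨LinearMap.pi fun g : G => (LinearMap.pi fun i => l i ∘ₗ W.ρ g⁻¹ :
      W.V →ₗ[K] (Fin m → K)), by
    intro h x
    funext g
    rw [FRep.Fn_apply]
    funext i
    show l i (W.ρ g⁻¹ (W.ρ h x)) = l i (W.ρ (h⁻¹ * g)⁻¹ x)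
    rw [← FRep.mul_apply, mul_inv_rev, inv_inv]⟩
  let Ψ0 : (FRep.Fn T).V →ₗ[K] W.V :=
    ∑ g : G, ∑ i : Fin m, ((LinearMap.toSpanSingleton K W.V (W.ρ g (v i))) ∘ₗ
      (LinearMap.proj i : (Fin m → K) →ₗ[K] K) ∘ₗ
      (LinearMap.proj g : (G → (Fin m → K)) →ₗ[K] (Fin m → K)))
  have hΨ0 : ∀ a : G → Fin m → K, Ψ0 a = ∑ g : G, ∑ i : Fin m, a g i • W.ρ g (v i) := by
    intro a
    simp only [Ψ0, LinearMap.sum_apply]
    rfl
  let Ψ : EHom (FRep.Fn T) W := ⟨Ψ0, by
    intro h a
    rw [hΨ0, hΨ0, map_sum, ← Equiv.sum_comp (Equiv.mulLeft h)]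
    refine Finset.sum_congr rfl fun g _ => ?_
    rw [map_sum]
    refine Finset.sum_congr rfl fun i _ => ?_
    rw [map_smul, ← FRep.mul_apply]
    show a (h⁻¹ * (h * g)) i • W.ρ (h * g) (v i) = _
    rw [inv_mul_cancel_left]⟩
  have hker : LinearMap.ker ((ecomp Φ Ψ)).1 = ⊥ := by
    apply eq_bot_of_no_invariant hG
    · intro g x hx
      rw [LinearMap.mem_ker] at hx ⊢
      rw [EHom.map, hx, map_zero]
    · intro a ha hinv
      have ha' : ∀ g : G, a g = a 1 := by
        intro g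
        have := congrFun (hinv g) g
        rw [FRep.Fn_apply, inv_mul_cancel] at this
        exact this.symm
      have h1 : Ψ.1 a = ∑ i : Fin m, a 1 i • nrm W (v i) := by
        show Ψ0 a = _
        rw [hΨ0, Finset.sum_comm]
        refine Finset.sum_congr rfl fun i _ => ?_
        rw [nrm_apply, Finset.smul_sum]
        exact Finset.sum_congr rfl fun g _ => by rw [ha' g]
      have h2 : ∀ i, a 1 i = 0 := by
        intro i
        have h3 : Φ.1 (Ψ.1 a) = 0 := ha
        have h4 : l i (W.ρ (1 : G)⁻¹ (Ψ.1 a)) = 0 := congrFun (congrFun h3 1) i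
        rw [inv_one, FRep.one_apply, h1, map_sum, Finset.sum_eq_single i] at h4
        · rw [map_smul, hl1, smul_eq_mul, mul_one] at h4
          exact h4
        · intro j _ hj
          rw [map_smul, hl2 i j hj, smul_zero]
        · intro h; exact absurd (Finset.mem_univ _) h
      funext g i
      rw [ha' g, h2 i]; rfl
  have hinj : Function.Injective ((ecomp Φ Ψ)).1 := LinearMap.ker_eq_bot.1 hker
  let E : (FRep.Fn T).V ≃ₗ[K] (FRep.Fn T).V := LinearEquiv.ofInjectiveEndo ((ecomp Φ Ψ)).1 hinj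
  have hE : ∀ x, Φ.1 (Ψ.1 (E.symm x)) = x := fun x => E.apply_symm_apply x
  have hE' : ∀ x, E.symm (Φ.1 (Ψ.1 x)) = x := fun x => E.symm_apply_apply x
  let J : EHom (FRep.Fn T) (FRep.Fn T) := ⟨E.symm.toLinearMap, by
    intro g x
    apply hinj
    have h1 : ((ecomp Φ Ψ)).1 (E.symm x) = x := hE x
    have h2 : ((ecomp Φ Ψ)).1 (E.symm ((FRep.Fn T).ρ g x)) = (FRep.Fn T).ρ g x := hE _
    have h3 := EHom.map ((ecomp Φ Ψ)) g (E.symm x)
    rw [h1] at h3
    exact h2.trans h3.symm⟩
  let e : EHom W W := (ecomp Ψ ((ecomp J Φ)))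
  have hidem : (ecomp e e) = e := by
    apply Subtype.ext
    refine LinearMap.ext fun x => ?_
    show Ψ.1 (E.symm (Φ.1 (Ψ.1 (E.symm (Φ.1 x))))) = Ψ.1 (E.symm (Φ.1 x))
    rw [hE]
  have hΨinj : Function.Injective Ψ.1 := by
    intro x y hxy
    apply hinj
    show Φ.1 (Ψ.1 x) = Φ.1 (Ψ.1 y)
    rw [hxy]
  have hrange : LinearMap.range e.1 = LinearMap.range Ψ.1 := by
    apply le_antisymm
    · rintro _ ⟨x, rfl⟩
      exact ⟨E.symm (Φ.1 x), rfl⟩
    · rintro _ ⟨x, rfl⟩
      refine ⟨Ψ.1 x, ?_⟩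
      show Ψ.1 (E.symm (Φ.1 (Ψ.1 x))) = Ψ.1 x
      rw [hE']
  have hrank : finrank K (LinearMap.range e.1) = Fintype.card G * m := by
    rw [hrange, LinearMap.finrank_range_of_inj hΨinj]
    show finrank K (G → Fin m → K) = _
    rw [Module.finrank_pi_fintype, Finset.sum_const, Finset.card_univ, smul_eq_mul]
    congr 1
    exact Module.finrank_fin_fun K
  exact ⟨e, null_of_factor ((ecomp J Φ)) Ψ, hidem, hrank⟩

/-- the idempotent projecting onto the free part -/
theorem exists_null_idem (hG : IsPGroup p G) (W : FRep K G) :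
    ∃ e : EHom W W, e ∈ Null W W ∧ (ecomp e e) = e ∧
      finrank K (LinearMap.ker e.1) = cc W ∧
      finrank K (LinearMap.range (LinearMap.id - e.1)) = cc W := by
  obtain ⟨v, hv⟩ := exists_lifts W
  obtain ⟨e, he1, hidem, hrank⟩ := null_idem_aux hG W v hv
  have hnull : finrank K (LinearMap.ker e.1) = cc W := by
    have h1 := LinearMap.finrank_range_add_finrank_ker e.1
    unfold cc
    omega
  refine ⟨e, he1, hidem, hnull, ?_⟩
  have h2 : LinearMap.range (LinearMap.id - e.1) = LinearMap.ker e.1 := by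
    ext x
    constructor
    · rintro ⟨y, rfl⟩
      have h3 : e.1 (e.1 y) = e.1 y := LinearMap.congr_fun (congrArg Subtype.val hidem) y
      rw [LinearMap.mem_ker, LinearMap.sub_apply, LinearMap.id_apply, map_sub, h3, sub_self]
    · intro hx
      refine ⟨x, ?_⟩
      rw [LinearMap.sub_apply, LinearMap.id_apply, LinearMap.mem_ker.1 hx, sub_zero]
  rw [h2, hnull]

theorem invs_le_of_null (F : FRep K G) (h : EHom.id F ∈ Null F F) :
    invs F = LinearMap.range (nrm F) := by
  apply le_antisymm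
  · intro x hx
    obtain ⟨φ, hφ⟩ := mem_Null.1 h
    refine ⟨φ x, ?_⟩
    have h1 := LinearMap.congr_fun hφ x
    rw [Tr_apply] at h1
    rw [nrm_apply]
    refine Eq.trans ?_ h1
    exact Finset.sum_congr rfl fun g _ => by rw [hx g⁻¹]
  · exact range_nrm_le_invs F

theorem cc_zero_of_null (hG : IsPGroup p G) (F : FRep K G) (h : EHom.id F ∈ Null F F) :
    cc F = 0 := by
  have h1 := finrank_le_card_mul_invs hG F
  rw [invs_le_of_null F h] at h1
  exact Nat.sub_eq_zero_of_le h1

theorem exists_split (hG : IsPGroup p G) (W : FRep K G) :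
    ∃ (A F : FRep K G), Nonempty (SES A W F) ∧ finrank K A.V = cc W ∧ cc F = 0 := by
  obtain ⟨e, hnull, hidem, hker, -⟩ := exists_null_idem hG W
  have hee : ∀ x, e.1 (e.1 x) = e.1 x := fun x =>
    LinearMap.congr_fun (congrArg Subtype.val hidem) x
  have hN : ∀ g, ∀ x ∈ LinearMap.ker e.1, W.ρ g x ∈ LinearMap.ker e.1 := by
    intro g x hx
    rw [LinearMap.mem_ker] at hx ⊢
    rw [EHom.map, hx, map_zero]
  have hR : ∀ g, ∀ x ∈ LinearMap.range e.1, W.ρ g x ∈ LinearMap.range e.1 := by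
    rintro g _ ⟨x, rfl⟩
    exact ⟨W.ρ g x, EHom.map e g x⟩
  let A := FRep.sub W (LinearMap.ker e.1) hN
  let F := FRep.sub W (LinearMap.range e.1) hR
  let i : EHom A W := ⟨(LinearMap.ker e.1).subtype, fun g x => rfl⟩
  let q : EHom W F := ⟨e.1.rangeRestrict, fun g x => Subtype.ext (EHom.map e g x)⟩
  let ι : EHom F W := ⟨(LinearMap.range e.1).subtype, fun g x => rfl⟩
  let S : SES A W F :=
    { i := i
      p := q
      s := ι.1
      r := LinearMap.codRestrict (LinearMap.ker e.1) (LinearMap.id - e.1) (fun x => by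
        rw [LinearMap.mem_ker, LinearMap.sub_apply, LinearMap.id_apply, map_sub, hee, sub_self])
      ri := fun a => Subtype.ext (by
        show a.1 - e.1 a.1 = a.1
        rw [LinearMap.mem_ker.1 a.2, sub_zero])
      ps := fun c => Subtype.ext (by
        show e.1 c.1 = c.1
        obtain ⟨x, hx⟩ := c.2
        rw [← hx, hee])
      pi := fun a => Subtype.ext (LinearMap.mem_ker.1 a.2)
      sum := fun b => by
        show b - e.1 b + e.1 b = b
        rw [sub_add_cancel] }
  refine ⟨A, F, ⟨S⟩, hker, cc_zero_of_null hG F ?_⟩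
  have h1 : EHom.id F = (ecomp q ((ecomp e ι))) := by
    apply Subtype.ext
    refine LinearMap.ext fun x => Subtype.ext ?_
    show x.1 = e.1 (e.1 x.1)
    obtain ⟨y, hy⟩ := x.2
    rw [hee, ← hy, hee]
  rw [h1]
  exact Null.comp_left q (Null.comp_right hnull ι)

/-- tensoring an exact sequence on the right -/
def SES.rT {A B C : FRep K G} (S : SES A B C) (W : FRep K G) :
    SES (FRep.T A W) (FRep.T B W) (FRep.T C W) where
  i := ⟨S.i.1.rTensor W.V, fun g x => by
    induction x using TensorProduct.induction_on with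
    | zero => rw [map_zero, map_zero, map_zero]
    | tmul a w =>
      show S.i.1 (A.ρ g a) ⊗ₜ[K] W.ρ g w = B.ρ g (S.i.1 a) ⊗ₜ[K] W.ρ g w
      rw [EHom.map]
    | add x y hx hy => rw [map_add, map_add, map_add, map_add, hx, hy]⟩
  p := ⟨S.p.1.rTensor W.V, fun g x => by
    induction x using TensorProduct.induction_on with
    | zero => rw [map_zero, map_zero, map_zero]
    | tmul a w =>
      show S.p.1 (B.ρ g a) ⊗ₜ[K] W.ρ g w = C.ρ g (S.p.1 a) ⊗ₜ[K] W.ρ g w
      rw [EHom.map]
    | add x y hx hy => rw [map_add, map_add, map_add, map_add, hx, hy]⟩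
  s := S.s.rTensor W.V
  r := S.r.rTensor W.V
  ri a := by
    have h : (S.r.rTensor W.V) ∘ₗ (S.i.1.rTensor W.V) = LinearMap.id := by
      rw [← LinearMap.rTensor_comp]
      have : S.r ∘ₗ S.i.1 = LinearMap.id := LinearMap.ext S.ri
      rw [this, LinearMap.rTensor_id]
    exact LinearMap.congr_fun h a
  ps c := by
    have h : (S.p.1.rTensor W.V) ∘ₗ (S.s.rTensor W.V) = LinearMap.id := by
      rw [← LinearMap.rTensor_comp]
      have : S.p.1 ∘ₗ S.s = LinearMap.id := LinearMap.ext S.ps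
      rw [this, LinearMap.rTensor_id]
    exact LinearMap.congr_fun h c
  pi a := by
    have h : (S.p.1.rTensor W.V) ∘ₗ (S.i.1.rTensor W.V) = 0 := by
      rw [← LinearMap.rTensor_comp]
      have : S.p.1 ∘ₗ S.i.1 = 0 := LinearMap.ext S.pi
      rw [this, LinearMap.rTensor_zero]
    exact LinearMap.congr_fun h a
  sum b := by
    have h : (S.i.1.rTensor W.V) ∘ₗ (S.r.rTensor W.V) + (S.s.rTensor W.V) ∘ₗ
        (S.p.1.rTensor W.V) = LinearMap.id := by
      rw [← LinearMap.rTensor_comp, ← LinearMap.rTensor_comp, ← LinearMap.rTensor_add]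
      have : S.i.1 ∘ₗ S.r + S.s ∘ₗ S.p.1 = LinearMap.id := LinearMap.ext S.sum
      rw [this, LinearMap.rTensor_id]
    exact LinearMap.congr_fun h b

theorem cc_T_mul (hG : IsPGroup p G) (U W : FRep K G) :
    cc (FRep.T U W) ≤ cc U * cc W := by
  obtain ⟨A, F, ⟨S⟩, hA, hF⟩ := exists_split hG U
  have h1 := cc_ses hG (S.rT W)
  have h2 := cc_T_le hG A W
  have h3 := cc_T_le' hG F W
  rw [hA] at h2
  rw [hF, mul_zero] at h3
  omega

theorem cc_powD_le (hG : IsPGroup p G) (M : FRep K G) (n : ℕ) :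
    cc (FRep.pow (FRep.T M (FRep.L M (FRep.triv K G))) n) ≤ cc (FRep.pow M n) ^ 2 := by
  rw [← cc_iso (Iso_powD M n), sq]
  have h1 := cc_T_mul hG (FRep.pow M n) (FRep.L (FRep.pow M n) (FRep.triv K G))
  rwa [cc_dual hG] at h1

end Pool.Agent.H34.Gam

end
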