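import Pool.Agent.H34.Gam.BC
import Pool.Agent.H34.Gam.Mul
import Pool.Agent.H34.Gam.EMain
import Pool.Agent.H34.Gam.Chou

/-!
Main growth theorem for `p`-groups over arbitrary fields of characteristic `p` (job GAM-PMAIN).
-/

set_option autoImplicit false
set_option linter.unusedSectionVars false

noncomputable section

namespace Pool.Agent.H34.Gam

open Module

/-- elementary abelian groups are isomorphic to `Er p r` -/
theorem exists_Er {p : ℕ} [Fact p.Prime] {H : Type} [Group H] [Finite H]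
    (h1 : ∀ x : H, x ^ p = 1) (h2 : ∀ x y : H, x * y = y * x) :
    ∃ r : ℕ, Nonempty (Er p r ≃* H) := by
  let _ : CommGroup H := { ‹Group H› with mul_comm := h2 }
  let _ : Module (ZMod p) (Additive H) :=
    AddCommGroup.zmodModule (n := p) (fun x => h1 (Additive.toMul x))
  have : Module.Finite (ZMod p) (Additive H) := Module.Finite.of_finite
  let b := Module.finBasis (ZMod p) (Additive H)
  refine ⟨finrank (ZMod p) (Additive H), ⟨?_⟩⟩
  exact
    { toFun := fun x => Additive.toMul (b.equivFun.symm (Multiplicative.toAdd x))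
      invFun := fun y => Multiplicative.ofAdd (b.equivFun (Additive.ofMul y))
      left_inv := fun x => by
        show Multiplicative.ofAdd (b.equivFun (b.equivFun.symm (Multiplicative.toAdd x))) = x
        rw [LinearEquiv.apply_symm_apply]; rfl
      right_inv := fun y => by
        show Additive.toMul (b.equivFun.symm (b.equivFun (Additive.ofMul y))) = y
        rw [LinearEquiv.symm_apply_apply]; rfl
      map_mul' := fun x y => by
        show Additive.toMul (b.equivFun.symm (Multiplicative.toAdd x + Multiplicative.toAdd y)) = _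
        rw [map_add]; rfl }

/-- pull-back along a homomorphism -/
abbrev FRep.pull {K G H : Type} [Field K] [Group G] [Group H] (φ : H →* G) (W : FRep K G) :
    FRep K H where
  V := W.V
  ρ := W.ρ.comp φ

theorem pull_pow {K G H : Type} [Field K] [Group G] [Group H] (φ : H →* G) (M : FRep K G) (n : ℕ) :
    FRep.pow (FRep.pull φ M) n = FRep.pull φ (FRep.pow M n) := by
  induction n with
  | zero => rfl
  | succ n ih =>
    show FRep.T (FRep.pow (FRep.pull φ M) n) (FRep.pull φ M) =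
      FRep.pull φ (FRep.T (FRep.pow M n) M)
    rw [ih]
    rfl

theorem pull_dual {K G H : Type} [Field K] [Group G] [Group H] (φ : H →* G) (M : FRep K G) :
    FRep.L (FRep.pull φ M) (FRep.triv K H) = FRep.pull φ (FRep.L M (FRep.triv K G)) := by
  have h : Representation.linHom (M.ρ.comp φ) (FRep.triv K H).ρ =
      (Representation.linHom M.ρ (FRep.triv K G).ρ).comp φ := by
    refine MonoidHom.ext fun g => LinearMap.ext fun f => LinearMap.ext fun x => ?_
    show f (M.ρ (φ g⁻¹) x) = f (M.ρ (φ g)⁻¹ x)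
    rw [map_inv]
  exact congrArg (fun ρ : Representation K H (M.V →ₗ[K] K) => (⟨M.V →ₗ[K] K, ρ⟩ : FRep K H)) h

theorem cc_pull {K P H : Type} [Field K] [Group P] [Fintype P] [Group H] [Fintype H]
    (E : Subgroup P) (e : H ≃* E) (W : FRep K P) :
    cc (FRep.pull (E.subtype.comp e.toMonoidHom) W) = ccS E W := by
  let _ : Fintype E := Fintype.ofFinite E
  exact cc_pullback e (FRep.res E W)

theorem emain_sub {K P : Type} [Field K] [IsAlgClosed K] [Group P] [Fintype P] {p : ℕ}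
    [Fact p.Prime] [CharP K p] (M : FRep K P) (E : Subgroup P) (hE : IsElem p E)
    (g C0 : ℝ) (hg : 0 ≤ g)
    (h : ∀ n : ℕ, (ccS E (FRep.pow (FRep.T M (FRep.L M (FRep.triv K P))) n) : ℝ) ≤
      C0 * g ^ (2 * n)) :
    ∀ ε : ℝ, 0 < ε → ∃ C : ℝ, ∀ n : ℕ, (ccS E (FRep.pow M n) : ℝ) ≤ C * (g + ε) ^ n := by
  obtain ⟨r, ⟨e⟩⟩ := exists_Er (H := E) (p := p)
    (fun x => Subtype.ext (by simpa using hE.1 x.1 x.2))
    (fun x y => Subtype.ext (by simpa using hE.2 x.1 x.2 y.1 y.2))
  let φ : Er p r →* P := E.subtype.comp e.toMonoidHom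
  have key : ∀ n : ℕ, (hh 0 (FRep.L (FRep.pow (FRep.pull φ M) n) (FRep.triv K (Er p r)))
      (FRep.L (FRep.pow (FRep.pull φ M) n) (FRep.triv K (Er p r))) : ℝ) ≤ C0 * g ^ (2 * n) := by
    intro n
    have h1 := hh0_le_cc (emain_pgroup p r)
      (FRep.L (FRep.pow (FRep.pull φ M) n) (FRep.triv K (Er p r)))
      (FRep.L (FRep.pow (FRep.pull φ M) n) (FRep.triv K (Er p r)))
    have h2 : FRep.T (FRep.pull φ M) (FRep.pull φ (FRep.L M (FRep.triv K P))) =
      FRep.pull φ (FRep.T M (FRep.L M (FRep.triv K P))) := rfl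
    have h3 := cc_iso (Iso_LLpow (FRep.pull φ M) n)
    rw [pull_dual φ M, h2, pull_pow φ (FRep.T M (FRep.L M (FRep.triv K P))), cc_pull] at h3
    rw [h3] at h1
    exact (Nat.cast_le.2 h1).trans (h n)
  intro ε hε
  obtain ⟨C, hC⟩ := emain (FRep.pull φ M) g C0 hg key ε hε
  refine ⟨C, fun n => ?_⟩
  have h3 := hC n
  rw [pull_pow, cc_pull] at h3
  exact h3

theorem pmain_alg {K P : Type} [Field K] [IsAlgClosed K] [Group P] [Fintype P] {p : ℕ}
    [Fact p.Prime] [CharP K p] (hP : IsPGroup p P) (M : FRep K P) (g C0 : ℝ) (hg : 0 ≤ g)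
    (h : ∀ n : ℕ, (cc (FRep.pow (FRep.T M (FRep.L M (FRep.triv K P))) n) : ℝ) ≤
      C0 * g ^ (2 * n)) :
    ∀ ε : ℝ, 0 < ε → ∃ C : ℝ, ∀ n : ℕ, (cc (FRep.pow M n) : ℝ) ≤ C * (g + ε) ^ n := by
  intro ε hε
  have hE : ∀ E : Subgroup P, ∃ C : ℝ, IsElem p E →
      ∀ n : ℕ, (ccS E (FRep.pow M n) : ℝ) ≤ C * (g + ε) ^ n := by
    intro E
    by_cases hel : IsElem p E
    · obtain ⟨C, hC⟩ := emain_sub M E hel g C0 hg (fun n => by
        refine le_trans (Nat.cast_le.2 ?_) (h n)
        let _ : Fintype E := Fintype.ofFinite E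
        exact cc_res_le hP E _) ε hε
      exact ⟨C, fun _ => hC⟩
    · exact ⟨0, fun h => absurd h hel⟩
  choose C hC using hE
  obtain ⟨D, hD⟩ := chouinard (K := K) hP
  refine ⟨D * ∑ E ∈ (Set.toFinite {E : Subgroup P | IsElem p E}).toFinset, C E, fun n => ?_⟩
  calc (cc (FRep.pow M n) : ℝ) ≤
      ((D * ∑ E ∈ (Set.toFinite {E : Subgroup P | IsElem p E}).toFinset,
        ccS E (FRep.pow M n) : ℕ) : ℝ) := Nat.cast_le.2 (hD _)
    _ = D * ∑ E ∈ (Set.toFinite {E : Subgroup P | IsElem p E}).toFinset,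
        (ccS E (FRep.pow M n) : ℝ) := by push_cast; rfl
    _ ≤ D * ∑ E ∈ (Set.toFinite {E : Subgroup P | IsElem p E}).toFinset,
        C E * (g + ε) ^ n := by
      refine mul_le_mul_of_nonneg_left ?_ (Nat.cast_nonneg _)
      refine Finset.sum_le_sum fun E hmem => ?_
      exact hC E ((Set.Finite.mem_toFinset (Set.toFinite {E : Subgroup P | IsElem p E})).1 hmem) n
    _ = _ := by rw [← Finset.sum_mul, mul_assoc]

theorem pmain {k P : Type} [Field k] [Group P] [Fintype P] {p : ℕ}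
    [Fact p.Prime] [CharP k p] (hP : IsPGroup p P) (M : FRep k P) (g C0 : ℝ) (hg : 0 ≤ g)
    (h : ∀ n : ℕ, (cc (FRep.pow (FRep.T M (FRep.L M (FRep.triv k P))) n) : ℝ) ≤
      C0 * g ^ (2 * n)) :
    ∀ ε : ℝ, 0 < ε → ∃ C : ℝ, ∀ n : ℕ, (cc (FRep.pow M n) : ℝ) ≤ C * (g + ε) ^ n := by
  have : CharP (AlgebraicClosure k) p :=
    charP_of_injective_algebraMap (algebraMap k (AlgebraicClosure k)).injective p
  have h1 : ∀ n : ℕ, cc (FRep.pow (FRep.bc (AlgebraicClosure k) M) n) = cc (FRep.pow M n) := by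
    intro n
    rw [← cc_iso (bc_pow (AlgebraicClosure k) M n), cc_bc]
  have h2 : ∀ n : ℕ, cc (FRep.pow (FRep.T (FRep.bc (AlgebraicClosure k) M)
      (FRep.L (FRep.bc (AlgebraicClosure k) M) (FRep.triv (AlgebraicClosure k) P))) n) =
      cc (FRep.pow (FRep.T M (FRep.L M (FRep.triv k P))) n) := by
    intro n
    rw [← cc_iso (bc_powD (AlgebraicClosure k) M n), cc_bc]
  intro ε hε
  obtain ⟨C, hC⟩ := pmain_alg hP (FRep.bc (AlgebraicClosure k) M) g C0 hg
    (fun n => by rw [h2]; exact h n) ε hε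
  exact ⟨C, fun n => by rw [← h1]; exact hC n⟩

end Pool.Agent.H34.Gam

end
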