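import Pool.Agent.H34.Gam.Exact

/-!
Extensions with prescribed connecting map; half exactness in the first variable;
the swap on `Sh (Sh W)` is `-1` in the stable category.
-/

set_option autoImplicit false
set_option linter.unusedSectionVars false

noncomputable section

namespace Pool.Agent.H34.Gam

variable {K G : Type} [Field K] [Group G] [Fintype G]

/-- half exactness in the first variable -/
theorem SES.exact_pull {A B C : FRep K G} (S : SES A B C) (Y : FRep K G) (x : Hs B Y)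
    (hx : Hs.mapL S.i Y x = 0) : ∃ y : Hs C Y, Hs.mapL S.p Y y = x := by
  obtain ⟨f, rfl⟩ := cl_surjective x
  rw [Hs.mapL_cl, cl_eq_zero, mem_Null] at hx
  obtain ⟨φ, hφ⟩ := hx
  set t : B.V →ₗ[K] Y.V := Tr B Y (φ ∘ₗ S.r) with ht
  have ht2 : ∀ a, t (S.i.1 a) = f.1 (S.i.1 a) := by
    intro a
    have h1 := Tr_comp_right (Z := Y) (φ ∘ₗ S.r) S.i
    have h2 : (φ ∘ₗ S.r) ∘ₗ S.i.1 = φ := by
      ext a; simp [S.ri]
    rw [h2, hφ] at h1
    exact (LinearMap.congr_fun h1 a).symm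
  have hte : ∀ g b, t (B.ρ g b) = Y.ρ g (t b) := Tr_mem B Y _
  have key : ∀ b, (f.1 - t) (S.s (S.p.1 b)) = (f.1 - t) b := by
    intro b
    have h := S.sum b
    have h1 : S.s (S.p.1 b) = b - S.i.1 (S.r b) := by
      rw [eq_sub_iff_add_eq, add_comm]; exact h
    rw [h1, map_sub, LinearMap.sub_apply, LinearMap.sub_apply, ht2, sub_self, sub_zero]
  let y : EHom C Y := ⟨(f.1 - t) ∘ₗ S.s, by
    intro g c
    rw [LinearMap.comp_apply, LinearMap.comp_apply]
    have h1 : C.ρ g c = S.p.1 (B.ρ g (S.s c)) := by rw [EHom.map, S.ps]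
    rw [h1, key, LinearMap.sub_apply, LinearMap.sub_apply, EHom.map, hte, map_sub]⟩
  refine ⟨cl y, ?_⟩
  rw [Hs.mapL_cl, eq_comm, cl_eq]
  refine mem_Null.2 ⟨φ ∘ₗ S.r, ?_⟩
  ext b
  show t b = f.1 b - (f.1 - t) (S.s (S.p.1 b))
  rw [key, LinearMap.sub_apply]; abel

/-- Extension of `Q` by `V` with prescribed connecting map. -/
theorem exists_ext {Q V : FRep K G} (ξ : EHom Q (FRep.Sh V)) :
    ∃ (E : FRep K G) (S : SES V E Q), S.δ = ξ := by
  classical
  obtain ⟨σ, hσ⟩ := (shq V).exists_rightInverse_of_surjective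
    (LinearMap.range_eq_top.mpr (shq_surjective V))
  let t : Q.V →ₗ[K] (G → V.V) := σ ∘ₗ ξ.1 - (cst G V) ∘ₗ (LinearMap.proj 1) ∘ₗ σ ∘ₗ ξ.1
  have ht1 : ∀ q, shq V (t q) = ξ.1 q := by
    intro q
    have h1 : shq V (σ (ξ.1 q)) = ξ.1 q := LinearMap.congr_fun hσ (ξ.1 q)
    have h2 : shq V (cst G V (σ (ξ.1 q) 1)) = 0 := (shq_eq_zero V _).2 ⟨_, fun g => rfl⟩
    show shq V (σ (ξ.1 q) - cst G V (σ (ξ.1 q) 1)) = _
    rw [map_sub, h1, h2, sub_zero]
  have ht2 : ∀ q, t q 1 = 0 := by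
    intro q
    show σ (ξ.1 q) 1 - σ (ξ.1 q) 1 = 0
    exact sub_self _
  -- cocycle-type identity
  have ht3 : ∀ g q x, t (Q.ρ g q) x = V.ρ g (t q (g⁻¹ * x)) - V.ρ g (t q g⁻¹) := by
    intro g q x
    have h1 : shq V (t (Q.ρ g q)) = shq V (fun x => V.ρ g (t q (g⁻¹ * x))) := by
      rw [ht1, EHom.map, ← ht1, shq_ρ]
    obtain ⟨w, hw⟩ := (shq_eq V _ _).1 h1
    have h2 := hw 1
    rw [ht2, mul_one] at h2
    rw [hw x]
    have : w = - V.ρ g (t q g⁻¹) := by
      rw [eq_neg_iff_add_eq_zero, add_comm]; exact h2.symm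
    rw [this]; abel
  let E : FRep K G :=
    { V := V.V × Q.V
      ρ :=
        { toFun := fun g =>
            (V.ρ g ∘ₗ LinearMap.fst K V.V Q.V +
              (LinearMap.proj g) ∘ₗ t ∘ₗ Q.ρ g ∘ₗ LinearMap.snd K V.V Q.V).prod
              (Q.ρ g ∘ₗ LinearMap.snd K V.V Q.V)
          map_one' := by
            refine LinearMap.ext fun x => ?_
            refine Prod.ext ?_ ?_
            · show V.ρ 1 x.1 + t (Q.ρ 1 x.2) 1 = x.1
              rw [ht2, FRep.one_apply, add_zero]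
            · show Q.ρ 1 x.2 = x.2
              simp
          map_mul' := by
            intro g h
            refine LinearMap.ext fun x => ?_
            refine Prod.ext ?_ ?_
            · show V.ρ (g * h) x.1 + t (Q.ρ (g * h) x.2) (g * h) =
                V.ρ g (V.ρ h x.1 + t (Q.ρ h x.2) h) + t (Q.ρ g (Q.ρ h x.2)) g
              rw [FRep.mul_apply, FRep.mul_apply, map_add, ht3 g, ht3 g (Q.ρ h x.2) g]
              rw [inv_mul_cancel_left, inv_mul_cancel, ht2, map_zero]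
              abel
            · show Q.ρ (g * h) x.2 = Q.ρ g (Q.ρ h x.2)
              rw [FRep.mul_apply] } }
  have hE : ∀ g (x : V.V × Q.V), E.ρ g x = (V.ρ g x.1 + t (Q.ρ g x.2) g, Q.ρ g x.2) :=
    fun g x => rfl
  let S : SES V E Q :=
    { i := ⟨LinearMap.inl K V.V Q.V, by
        intro g v
        rw [hE]
        refine Prod.ext ?_ ?_
        · show V.ρ g v = V.ρ g v + t (Q.ρ g 0) g
          rw [map_zero, map_zero]; simp
        · show (0 : Q.V) = Q.ρ g 0
          rw [map_zero]⟩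
      p := ⟨LinearMap.snd K V.V Q.V, by intro g x; rfl⟩
      s := LinearMap.inr K V.V Q.V
      r := LinearMap.fst K V.V Q.V
      ri := fun a => rfl
      ps := fun c => rfl
      pi := fun a => rfl
      sum := by
        intro b
        refine Prod.ext ?_ ?_
        · show b.1 + 0 = b.1
          rw [add_zero]
        · show 0 + b.2 = b.2
          rw [zero_add] }
  refine ⟨E, S, ?_⟩
  apply Subtype.ext
  refine LinearMap.ext fun q => ?_
  rw [SES.δ_apply, ← ht1]
  congr 1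
  funext g
  rw [SES.dfun_apply]
  show V.ρ g 0 + t (Q.ρ g (Q.ρ g⁻¹ q)) g = t q g
  rw [map_zero, zero_add, FRep.self_inv]

/-! ### double cosyzygy -/

/-- class in `Sh (Sh W)` of a function of two variables (outer variable first) -/
def q2 (W : FRep K G) : (G → G → W.V) →ₗ[K] (FRep.Sh (FRep.Sh W)).V :=
  shq (FRep.Sh W) ∘ₗ (LinearMap.compLeft (shq W) G)

lemma q2_apply (W : FRep K G) (F : G → G → W.V) :
    q2 W F = shq (FRep.Sh W) (fun g => shq W (F g)) := rfl

lemma q2_surjective (W : FRep K G) : Function.Surjective (q2 W) := by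
  intro x
  obtain ⟨F, rfl⟩ := shq_surjective (FRep.Sh W) x
  choose F' hF' using fun g => shq_surjective W (F g)
  exact ⟨F', by rw [q2_apply]; congr 1; funext g; exact hF' g⟩

lemma q2_eq_zero (W : FRep K G) (F : G → G → W.V) :
    q2 W F = 0 ↔ ∃ α γ : G → W.V, ∀ g h, F g h = α g + γ h := by
  rw [q2_apply, shq_eq_zero]
  constructor
  · rintro ⟨w, hw⟩
    obtain ⟨γ, rfl⟩ := shq_surjective W w
    have h1 : ∀ g, ∃ a, ∀ h, F g h = γ h + a := fun g => (shq_eq W _ _).1 (hw g)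
    choose α hα using h1
    exact ⟨α, γ, fun g h => by rw [hα g h, add_comm]⟩
  · rintro ⟨α, γ, h⟩
    refine ⟨shq W γ, fun g => ?_⟩
    rw [shq_eq]
    exact ⟨α g, fun x => by rw [h g x, add_comm]⟩

lemma q2_ρ (W : FRep K G) (k : G) (F : G → G → W.V) :
    (FRep.Sh (FRep.Sh W)).ρ k (q2 W F) =
      q2 W (fun g h => W.ρ k (F (k⁻¹ * g) (k⁻¹ * h))) := by
  rw [q2_apply, shq_ρ, q2_apply]
  congr 1

lemma q2_ker_le (W : FRep K G) {Z : Type} [AddCommGroup Z] [Module K Z]
    (T : (G → G → W.V) →ₗ[K] Z) (h1 : ∀ α : G → W.V, T (fun g _ => α g) = 0)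
    (h2 : ∀ γ : G → W.V, T (fun _ h => γ h) = 0) : LinearMap.ker (q2 W) ≤ LinearMap.ker T := by
  intro F hF
  obtain ⟨α, γ, h⟩ := (q2_eq_zero W F).1 hF
  have : F = (fun g _ => α g) + (fun _ h => γ h) := by
    funext g x; exact h g x
  rw [LinearMap.mem_ker, this, map_add, h1, h2, add_zero]

/-- descend a map of two-variable functions -/
def q2lift (W : FRep K G) {Z : Type} [AddCommGroup Z] [Module K Z]
    (T : (G → G → W.V) →ₗ[K] Z) (h1 : ∀ α : G → W.V, T (fun g _ => α g) = 0)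
    (h2 : ∀ γ : G → W.V, T (fun _ h => γ h) = 0) : (FRep.Sh (FRep.Sh W)).V →ₗ[K] Z :=
  ((LinearMap.ker (q2 W)).liftQ T (q2_ker_le W T h1 h2)) ∘ₗ
  ((q2 W).quotKerEquivOfSurjective (q2_surjective W)).symm.toLinearMap

lemma q2lift_q2 (W : FRep K G) {Z : Type} [AddCommGroup Z] [Module K Z]
    (T : (G → G → W.V) →ₗ[K] Z) (h1 : ∀ α : G → W.V, T (fun g _ => α g) = 0)
    (h2 : ∀ γ : G → W.V, T (fun _ h => γ h) = 0) (F : G → G → W.V) :
    q2lift W T h1 h2 (q2 W F) = T F := by
  have h : ((q2 W).quotKerEquivOfSurjective (q2_surjective W)).symm (q2 W F)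
      = (LinearMap.ker (q2 W)).mkQ F := by
    rw [LinearEquiv.symm_apply_eq]; rfl
  show ((LinearMap.ker (q2 W)).liftQ T (q2_ker_le W T h1 h2))
    (((q2 W).quotKerEquivOfSurjective (q2_surjective W)).symm (q2 W F)) = _
  rw [h]; rfl

lemma q2_hom_ext {W : FRep K G} {Z : Type} [AddCommGroup Z] [Module K Z]
    {f f' : (FRep.Sh (FRep.Sh W)).V →ₗ[K] Z} (h : ∀ F, f (q2 W F) = f' (q2 W F)) : f = f' := by
  refine LinearMap.ext fun x => ?_
  obtain ⟨F, rfl⟩ := q2_surjective W x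
  exact h F

/-- linear map exchanging the two variables of functions -/
def flipL (W : FRep K G) : (G → G → W.V) →ₗ[K] (G → G → W.V) where
  toFun F := fun g h => F h g
  map_add' _ _ := rfl
  map_smul' _ _ := rfl

lemma swp_aux1 (W : FRep K G) (α : G → W.V) : (q2 W ∘ₗ flipL W) (fun g _ => α g) = 0 :=
  (q2_eq_zero W _).2 ⟨0, α, fun g h => by
      show α h = 0 + α h
      rw [zero_add]⟩

lemma swp_aux2 (W : FRep K G) (γ : G → W.V) : (q2 W ∘ₗ flipL W) (fun _ h => γ h) = 0 :=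
  (q2_eq_zero W _).2 ⟨γ, 0, fun g h => by
      show γ g = γ g + 0
      rw [add_zero]⟩

/-- the swap -/
def swp (W : FRep K G) : EHom (FRep.Sh (FRep.Sh W)) (FRep.Sh (FRep.Sh W)) :=
  ⟨q2lift W (q2 W ∘ₗ flipL W) (swp_aux1 W) (swp_aux2 W), by
    intro k x
    obtain ⟨F, rfl⟩ := q2_surjective W x
    rw [q2_ρ, q2lift_q2, q2lift_q2, LinearMap.comp_apply, LinearMap.comp_apply, q2_ρ]
    rfl⟩

lemma swp_q2 (W : FRep K G) (F : G → G → W.V) :
    (swp W).1 (q2 W F) = q2 W (fun g h => F h g) :=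
  q2lift_q2 W (q2 W ∘ₗ flipL W) (swp_aux1 W) (swp_aux2 W) F

/-- the swap is `-1` stably -/
theorem swp_add_one_null (W : FRep K G) :
    swp W + EHom.id (FRep.Sh (FRep.Sh W)) ∈ Null _ _ := by
  -- lift to functions `G → Sh W`
  let T : (G → G → W.V) →ₗ[K] (G → (FRep.Sh W).V) :=
    { toFun := fun f g => shq W (fun a => f g a + f a g - f a a - f g g)
      map_add' := by
        intro f f'
        funext g
        show _ = shq W _ + shq W _
        rw [← map_add]; congr 1; funext a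
        show (f g a + f' g a) + (f a g + f' a g) - (f a a + f' a a) - (f g g + f' g g) =
          (f g a + f a g - f a a - f g g) + (f' g a + f' a g - f' a a - f' g g)
        abel
      map_smul' := by
        intro c f
        funext g
        show _ = c • shq W _
        rw [← map_smul]; congr 1; funext a
        show c • f g a + c • f a g - c • f a a - c • f g g = c • (f g a + f a g - f a a - f g g)
        rw [smul_sub, smul_sub, smul_add] }
  have hT1 : ∀ α : G → W.V, T (fun g _ => α g) = 0 := by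
    intro α; funext g
    show shq W (fun a => α g + α a - α a - α g) = 0
    rw [shq_eq_zero]
    exact ⟨0, fun a => by abel⟩
  have hT2 : ∀ γ : G → W.V, T (fun _ h => γ h) = 0 := by
    intro γ; funext g
    show shq W (fun a => γ a + γ g - γ a - γ g) = 0
    rw [shq_eq_zero]
    exact ⟨0, fun a => by abel⟩
  refine null_of_lift _ ⟨q2lift W T hT1 hT2, ?_⟩ ?_
  · intro k x
    obtain ⟨F, rfl⟩ := q2_surjective W x
    rw [q2_ρ, q2lift_q2, q2lift_q2]
    funext g
    rw [FRep.Fn_apply]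
    show shq W _ = (FRep.Sh W).ρ k (shq W _)
    rw [shq_ρ]
    congr 1; funext a
    simp only [map_add, map_sub]
  · intro x
    obtain ⟨F, rfl⟩ := q2_surjective W x
    show (swp W).1 (q2 W F) + q2 W F = shq _ (q2lift W T hT1 hT2 (q2 W F))
    rw [swp_q2, ← map_add, q2lift_q2, q2_apply, shq_eq]
    refine ⟨shq W (fun a => F a a), fun g => ?_⟩
    show shq W _ = shq W _ + shq W _
    rw [← map_add, shq_eq]
    refine ⟨F g g, fun a => ?_⟩
    show F a g + F g a = F g a + F a g - F a a - F g g + F a a + F g g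
    abel

lemma cl_swp (W : FRep K G) : cl (swp W) = - cl (EHom.id (FRep.Sh (FRep.Sh W))) := by
  have h := swp_add_one_null W
  rw [← cl_eq_zero, map_add] at h
  exact eq_neg_of_add_eq_zero_left h

/-- `δ` of the shifted sequence -/
def SES.sh {A B C : FRep K G} (S : SES A B C) : SES (FRep.Sh A) (FRep.Sh B) (FRep.Sh C) where
  i := Sh.map S.i
  p := Sh.map S.p
  s := Sh.lmap S.s
  r := Sh.lmap S.r
  ri := by
    intro a
    obtain ⟨F, rfl⟩ := shq_surjective A a
    simp [S.ri]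
  ps := by
    intro c
    obtain ⟨F, rfl⟩ := shq_surjective C c
    simp [S.ps]
  pi := by
    intro a
    obtain ⟨F, rfl⟩ := shq_surjective A a
    rw [Sh.map_val, Sh.map_val, Sh.lmap_shq, Sh.lmap_shq, shq_eq_zero]
    exact ⟨0, fun g => S.pi _⟩
  sum := by
    intro b
    obtain ⟨F, rfl⟩ := shq_surjective B b
    rw [Sh.map_val, Sh.map_val, Sh.lmap_shq, Sh.lmap_shq, Sh.lmap_shq, Sh.lmap_shq, ← map_add]
    congr 1
    funext g
    exact S.sum _

lemma SES.δ_sh {A B C : FRep K G} (S : SES A B C) : S.sh.δ = (ecomp (swp A) (Sh.map S.δ)) := by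
  apply Subtype.ext
  apply Sh_hom_ext
  intro F
  rw [SES.δ_apply, ecomp_val, LinearMap.comp_apply, Sh.map_val, Sh.lmap_shq]
  have h1 : shq (FRep.Sh A) (fun x => S.δ.1 (F x)) = q2 A (fun x => S.dfun (F x)) := rfl
  rw [h1, swp_q2, q2_apply]
  congr 1
  funext g
  show Sh.lmap S.r ((FRep.Sh B).ρ g (Sh.lmap S.s ((FRep.Sh C).ρ g⁻¹ (shq C F)))) = _
  rw [shq_ρ, Sh.lmap_shq, shq_ρ, Sh.lmap_shq]
  congr 1
  funext h
  rw [SES.dfun_apply, inv_inv, mul_inv_cancel_left]

lemma swp_swp (W : FRep K G) : (ecomp (swp W) (swp W)) = EHom.id _ := by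
  apply Subtype.ext
  apply q2_hom_ext
  intro F
  rw [ecomp_val, LinearMap.comp_apply, swp_q2, swp_q2]
  rfl

end Pool.Agent.H34.Gam

end
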