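import Pool.Agent.H34.Gam.Mul
import Pool.Agent.H34.Gam.ChDefs

/-!
Reduction to a Sylow subgroup (job GAM-SYLA).
-/

set_option autoImplicit false
set_option linter.unusedSectionVars false

noncomputable section

namespace Pool.Agent.H34.Gam

open Module

variable {k G : Type} [Field k] [Group G] [Fintype G] {p : ℕ} [Fact p.Prime] [CharP k p]

/-- sums over a group via left cosets -/
lemma sum_coset_left (P : Subgroup G) [Fintype P] [Fintype (G ⧸ P)] {M : Type} [AddCommMonoid M]
    (F : G → M) : ∑ g, F g = ∑ c : G ⧸ P, ∑ h : P, F (Quotient.out c * h.1) := by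
  have hb : Function.Bijective (fun ch : (G ⧸ P) × P => Quotient.out ch.1 * ch.2.1) := by
    constructor
    · rintro ⟨c, h⟩ ⟨c', h'⟩ heq
      have heq' : Quotient.out c * h.1 = Quotient.out c' * h'.1 := heq
      have h1 : ∀ (d : G ⧸ P) (x : P), (QuotientGroup.mk (Quotient.out d * x.1) : G ⧸ P) = d := by
        intro d x
        rw [QuotientGroup.mk_mul_of_mem _ x.2]
        exact Quotient.out_eq' d
      have h2 : c = c' := by
        rw [← h1 c h, ← h1 c' h', heq']
      subst h2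
      have h3 : h.1 = h'.1 := mul_left_cancel heq'
      rw [Subtype.ext h3]
    · intro g
      have h1 : (QuotientGroup.mk (Quotient.out (QuotientGroup.mk g : G ⧸ P)) : G ⧸ P) =
          QuotientGroup.mk g := Quotient.out_eq' _
      rw [QuotientGroup.eq] at h1
      exact ⟨(QuotientGroup.mk g, ⟨_, h1⟩), mul_inv_cancel_left _ _⟩
  rw [← Fintype.sum_prod_type' (f := fun (c : G ⧸ P) (h : P) => F (Quotient.out c * h.1))]
  exact (hb.sum_comp F).symm

/-- sums over a group via right cosets -/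
lemma sum_coset_right (P : Subgroup G) [Fintype P] [Fintype (G ⧸ P)] {M : Type} [AddCommMonoid M]
    (F : G → M) : ∑ g, F g = ∑ h : P, ∑ c : G ⧸ P, F (h.1 * (Quotient.out c)⁻¹) := by
  rw [← Equiv.sum_comp (Equiv.inv G), sum_coset_left P, Finset.sum_comm,
    ← Equiv.sum_comp (Equiv.inv P)]
  refine Finset.sum_congr rfl fun h _ => Finset.sum_congr rfl fun c _ => ?_
  congr 1
  simp

theorem syl_split (P : Subgroup G) (hP : IsPGroup p P) (hi : ((P.index : ℕ) : k) ≠ 0)
    (X : FRep k G) :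
    ∃ (Q : FRep k G) (i : EHom Q X) (r : EHom X Q), (ecomp r i) = EHom.id Q ∧
      EHom.id Q ∈ Null Q Q ∧ finrank k X.V ≤ finrank k Q.V + P.index * ccS P X := by
  letI : Fintype P := Fintype.ofFinite P
  letI : Fintype (G ⧸ P) := Fintype.ofFinite _
  obtain ⟨e, ⟨ψ, hψ⟩, hee, _, hrk⟩ := exists_null_idem hP (FRep.res P X)
  have hcard : Fintype.card (G ⧸ P) = P.index := by
    rw [← Nat.card_eq_fintype_card]; rfl
  -- the average
  let T : EHom X X := ⟨Tr X X ψ, Tr_mem X X ψ⟩
  let a : EHom X X := ((P.index : k)⁻¹) • T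
  have ha : a ∈ Null X X := (Null X X).smul_mem _ ⟨ψ, rfl⟩
  have hT : ∀ x, T.1 x = ∑ c : G ⧸ P, X.ρ (Quotient.out c) (e.1 (X.ρ (Quotient.out c)⁻¹ x)) := by
    intro x
    show Tr X X ψ x = _
    rw [Tr_apply, sum_coset_left P]
    refine Finset.sum_congr rfl fun c _ => ?_
    have h1 : ∀ y : X.V, e.1 y = ∑ h : P, X.ρ h.1 (ψ (X.ρ (h.1)⁻¹ y)) := by
      intro y
      have h2 := LinearMap.congr_fun hψ y
      rw [Tr_apply] at h2
      exact h2.symm
    rw [h1, map_sum]
    refine Finset.sum_congr rfl fun h _ => ?_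
    rw [FRep.mul_apply, mul_inv_rev, FRep.mul_apply]
  let e1 : X.V →ₗ[k] X.V := LinearMap.id - e.1
  let D : X.V →ₗ[k] (G ⧸ P → LinearMap.range e1) :=
    LinearMap.pi fun c => e1.rangeRestrict ∘ₗ X.ρ (Quotient.out c)⁻¹
  let E : (G ⧸ P → LinearMap.range e1) →ₗ[k] X.V :=
    ((P.index : k)⁻¹) • ∑ c : G ⧸ P, X.ρ (Quotient.out c) ∘ₗ (LinearMap.range e1).subtype ∘ₗ
      (LinearMap.proj c : (G ⧸ P → LinearMap.range e1) →ₗ[k] LinearMap.range e1)
  have hDE : LinearMap.id - a.1 = E ∘ₗ D := by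
    refine LinearMap.ext fun x => ?_
    have h1 : E (D x) = ((P.index : k)⁻¹) •
        ∑ c : G ⧸ P, X.ρ (Quotient.out c) (e1 (X.ρ (Quotient.out c)⁻¹ x)) := by
      show (((P.index : k)⁻¹) • ∑ c : G ⧸ P, X.ρ (Quotient.out c) ∘ₗ
        (LinearMap.range e1).subtype ∘ₗ
        (LinearMap.proj c : (G ⧸ P → LinearMap.range e1) →ₗ[k] LinearMap.range e1)) (D x) = _
      rw [LinearMap.smul_apply, LinearMap.sum_apply]
      rfl
    have h2 : ∀ c : G ⧸ P, X.ρ (Quotient.out c) (e1 (X.ρ (Quotient.out c)⁻¹ x)) =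
        x - X.ρ (Quotient.out c) (e.1 (X.ρ (Quotient.out c)⁻¹ x)) := by
      intro c
      show X.ρ (Quotient.out c) (X.ρ (Quotient.out c)⁻¹ x - e.1 (X.ρ (Quotient.out c)⁻¹ x)) = _
      rw [map_sub, FRep.self_inv]
    rw [LinearMap.comp_apply, h1, Finset.sum_congr rfl fun c _ => h2 c, Finset.sum_sub_distrib,
      Finset.sum_const, Finset.card_univ, hcard, ← hT, smul_sub]
    show x - ((P.index : k)⁻¹) • T.1 x = _
    congr 1
    rw [← Nat.cast_smul_eq_nsmul k, smul_smul, inv_mul_cancel₀ hi, one_smul]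
  have hrk1 : finrank k (LinearMap.range (LinearMap.id - a.1)) ≤ P.index * ccS P X := by
    rw [hDE]
    calc finrank k (LinearMap.range (E ∘ₗ D)) ≤ finrank k (LinearMap.range E) :=
          Submodule.finrank_mono (LinearMap.range_comp_le_range D E)
      _ ≤ finrank k (G ⧸ P → LinearMap.range e1) := LinearMap.finrank_range_le E
      _ = P.index * finrank k (LinearMap.range e1) := by
          rw [Module.finrank_pi_fintype, Finset.sum_const, Finset.card_univ, hcard, smul_eq_mul]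
      _ = P.index * ccS P X := by
          congr 1
  -- Fitting
  obtain ⟨N, hN, hcompl⟩ : ∃ N : ℕ, 1 ≤ N ∧
      IsCompl (LinearMap.ker ((a.1 : X.V →ₗ[k] X.V) ^ N)) (LinearMap.range (a.1 ^ N)) := by
    have h1 := LinearMap.eventually_isCompl_ker_pow_range_pow (a.1 : Module.End k X.V)
    obtain ⟨N, hN1, hN2⟩ := (h1.and (Filter.eventually_ge_atTop 1)).exists
    exact ⟨N, hN2, hN1⟩
  have hbE : ∀ n : ℕ, ((a.1 : Module.End k X.V) ^ n) ∈ EHom X X := by
    intro n
    induction n with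
    | zero => intro g x; rfl
    | succ n ih =>
      intro g x
      rw [pow_succ, Module.End.mul_apply, Module.End.mul_apply, EHom.map, ih g]
  let b : EHom X X := ⟨a.1 ^ N, hbE N⟩
  have hb : b ∈ Null X X := by
    obtain ⟨n, rfl⟩ : ∃ n, N = n + 1 := ⟨N - 1, by omega⟩
    have h1 : b = (ecomp (⟨a.1 ^ n, hbE n⟩ : EHom X X) a) := by
      apply Subtype.ext
      show a.1 ^ (n + 1) = _
      rw [pow_succ]
      rfl
    rw [h1]
    exact Null.comp_left _ ha
  let Q : FRep k G := FRep.sub X (LinearMap.range b.1) (by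
    rintro g _ ⟨x, rfl⟩
    exact ⟨X.ρ g x, EHom.map b g x⟩)
  let i : EHom Q X := ⟨(LinearMap.range b.1).subtype, fun g x => rfl⟩
  let q : EHom X Q := ⟨b.1.rangeRestrict, fun g x => Subtype.ext (EHom.map b g x)⟩
  have hqi : Function.Injective ((ecomp q i)).1 := by
    rw [← LinearMap.ker_eq_bot, LinearMap.ker_eq_bot']
    intro x hx
    have h1 : b.1 x.1 = 0 := congrArg Subtype.val hx
    have h2 : x.1 ∈ LinearMap.ker (a.1 ^ N) ⊓ LinearMap.range (a.1 ^ N) := ⟨h1, x.2⟩
    rw [hcompl.inf_eq_bot, Submodule.mem_bot] at h2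
    exact Subtype.ext h2
  let bq : Q.V ≃ₗ[k] Q.V := LinearEquiv.ofInjectiveEndo ((ecomp q i)).1 hqi
  have hbq : ∀ x, bq x = ((ecomp q i)).1 x := fun x => rfl
  let c : EHom Q Q := ⟨bq.symm.toLinearMap, fun g x => by
    show bq.symm (Q.ρ g x) = Q.ρ g (bq.symm x)
    rw [LinearEquiv.symm_apply_eq, hbq, EHom.map]
    congr 1
    exact (bq.apply_symm_apply x).symm⟩
  have hc : (ecomp c ((ecomp q i))) = EHom.id Q := by
    apply Subtype.ext
    refine LinearMap.ext fun x => ?_
    exact bq.symm_apply_apply x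
  refine ⟨Q, i, (ecomp c q), hc, ?_, ?_⟩
  · have h1 : EHom.id Q = (ecomp c ((ecomp ((ecomp c q)) ((ecomp b i))))) := by
      have h2 : b = (ecomp i q) := rfl
      have h3 : (ecomp ((ecomp c q)) ((ecomp b i))) = (ecomp ((ecomp c ((ecomp q i)))) ((ecomp q i))) := rfl
      rw [h3, hc]
      exact hc.symm
    rw [h1]
    exact Null.comp_left _ (Null.comp_left _ (Null.comp_right hb _))
  · have h1 := LinearMap.finrank_range_add_finrank_ker b.1
    have h2 : finrank k (LinearMap.ker b.1) ≤ finrank k (LinearMap.range (LinearMap.id - a.1)) := by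
      let Θ : LinearMap.ker b.1 →ₗ[k] LinearMap.range (LinearMap.id - a.1) :=
        (LinearMap.id - a.1).rangeRestrict ∘ₗ (LinearMap.ker b.1).subtype
      apply LinearMap.finrank_le_finrank_of_injective (f := Θ)
      rw [← LinearMap.ker_eq_bot, LinearMap.ker_eq_bot']
      intro y hy
      have h3 : y.1 - a.1 y.1 = 0 := congrArg Subtype.val hy
      have h4 : a.1 y.1 = y.1 := (sub_eq_zero.1 h3).symm
      have h5 : ∀ n : ℕ, ((a.1 : Module.End k X.V) ^ n) y.1 = y.1 := by
        intro n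
        induction n with
        | zero => rfl
        | succ n ih => rw [pow_succ, Module.End.mul_apply, h4, ih]
      have h6 : b.1 y.1 = 0 := y.2
      have h7 : b.1 y.1 = y.1 := h5 N
      exact Subtype.ext (h7.symm.trans h6)
    have h3 : finrank k Q.V = finrank k (LinearMap.range b.1) := rfl
    omega

theorem syl_lower (P : Subgroup G) (hP : IsPGroup p P) (X Q : FRep k G) (i : EHom Q X)
    (r : EHom X Q) (h : (ecomp r i) = EHom.id Q) (hQ : EHom.id Q ∈ Null Q Q) :
    ccS P X + finrank k Q.V ≤ finrank k X.V := by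
  letI : Fintype P := Fintype.ofFinite P
  letI : Fintype (G ⧸ P) := Fintype.ofFinite _
  obtain ⟨φ, hφ⟩ := hQ
  have h0 : cc (FRep.res P Q) = 0 := by
    refine cc_zero_of_null hP (FRep.res P Q)
      ⟨∑ c : G ⧸ P, Q.ρ (Quotient.out c)⁻¹ ∘ₗ φ ∘ₗ Q.ρ (Quotient.out c), ?_⟩
    refine LinearMap.ext fun x => ?_
    have h1 := LinearMap.congr_fun hφ x
    rw [Tr_apply, sum_coset_right P] at h1
    rw [Tr_apply]
    refine Eq.trans ?_ h1
    refine Finset.sum_congr rfl fun h _ => ?_
    show Q.ρ h.1 ((∑ c : G ⧸ P, Q.ρ (Quotient.out c)⁻¹ ∘ₗ φ ∘ₗ Q.ρ (Quotient.out c))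
      (Q.ρ (h.1)⁻¹ x)) = _
    rw [LinearMap.sum_apply, map_sum]
    refine Finset.sum_congr rfl fun c _ => ?_
    rw [FRep.mul_apply, mul_inv_rev, inv_inv, FRep.mul_apply]
    rfl
  have hi : Function.Injective i.1 := by
    intro x y hxy
    have h1 : ∀ z, r.1 (i.1 z) = z := fun z => LinearMap.congr_fun (congrArg Subtype.val h) z
    rw [← h1 x, ← h1 y, hxy]
  let i' : EHom (FRep.res P Q) (FRep.res P X) := ⟨i.1, fun g x => EHom.map i g.1 x⟩
  have hrk : finrank k (LinearMap.range (nrm (FRep.res P Q))) ≤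
      finrank k (LinearMap.range (nrm (FRep.res P X))) := by
    have h4 : (LinearMap.range (nrm (FRep.res P Q))).map i'.1 ≤
        LinearMap.range (nrm (FRep.res P X)) := by
      rintro _ ⟨_, ⟨a, rfl⟩, rfl⟩
      exact ⟨i'.1 a, (EHom_nrm i' a).symm⟩
    have h5 := Submodule.finrank_mono h4
    rwa [← (Submodule.equivMapOfInjective i'.1 hi _).finrank_eq] at h5
  have hX := cc_add hP (FRep.res P X)
  have hQ := cc_add hP (FRep.res P Q)
  have h6 := Nat.mul_le_mul_left (Fintype.card P) hrk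
  have h7 : ccS P X = cc (FRep.res P X) := rfl
  have h8 : finrank k (FRep.res P Q).V = finrank k Q.V := rfl
  have h9 : finrank k (FRep.res P X).V = finrank k X.V := rfl
  omega

end Pool.Agent.H34.Gam

end
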