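import Pool.Agent.H34.Gam.SylA

/-!
Comparison with the category `Rep k G` (job GAM-SYLB).
-/

set_option autoImplicit false
set_option linter.unusedSectionVars false

noncomputable section

open CategoryTheory MonoidalCategory

namespace Pool.Agent.H34.Gam

open Module

variable {k G : Type} [Field k] [Group G] [Fintype G]

/-- an object of `Rep k G` is represented by the bundled representation `Y` -/
def RI (X : Rep.{0} k G) (Y : FRep k G) : Prop :=
  ∃ e : X.V ≃ₗ[k] Y.V, ∀ g x, e (X.ρ g x) = Y.ρ g (e x)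

theorem RI_of {V : Type} [AddCommGroup V] [Module k V] [FiniteDimensional k V]
    (ρ : Representation k G V) : RI (Rep.of ρ) ⟨V, ρ⟩ :=
  ⟨LinearEquiv.refl k V, fun _ _ => rfl⟩

theorem RI_dual {V : Type} [AddCommGroup V] [Module k V] [FiniteDimensional k V]
    (ρ : Representation k G V) :
    RI (Rep.of (Representation.dual ρ)) (FRep.L (⟨V, ρ⟩ : FRep k G) (FRep.triv k G)) :=
  ⟨LinearEquiv.refl k (V →ₗ[k] k), fun _ _ => rfl⟩

theorem RI_tensor {X X' : Rep.{0} k G} {Y Y' : FRep k G} (h : RI X Y) (h' : RI X' Y') :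
    RI (X ⊗ X') (FRep.T Y Y') := by
  obtain ⟨e, he⟩ := h
  obtain ⟨e', he'⟩ := h'
  refine ⟨TensorProduct.congr e e', fun g x => ?_⟩
  have h : (TensorProduct.congr e e').toLinearMap ∘ₗ (X.ρ.tprod X'.ρ g) =
      ((FRep.T Y Y').ρ g) ∘ₗ (TensorProduct.congr e e').toLinearMap := by
    refine TensorProduct.ext' fun a b => ?_
    show (TensorProduct.congr e e') ((X.ρ g a) ⊗ₜ[k] (X'.ρ g b)) = _
    rw [TensorProduct.congr_tmul, he, he']
    rfl
  exact LinearMap.congr_fun h x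

theorem RI_iso {X : Rep.{0} k G} {Y Y' : FRep k G} (h : RI X Y) (h' : Iso Y Y') : RI X Y' := by
  obtain ⟨e, he⟩ := h
  obtain ⟨f, hf⟩ := h'
  refine ⟨e.trans (LinearEquiv.ofBijective f.1 hf), fun g x => ?_⟩
  rw [LinearEquiv.trans_apply, LinearEquiv.trans_apply, he, LinearEquiv.ofBijective_apply,
    LinearEquiv.ofBijective_apply, EHom.map]

theorem RI_pow (pow : Rep.{0} k G → ℕ → Rep.{0} k G) (h0 : ∀ X : Rep.{0} k G, pow X 0 = X)
    (h1 : ∀ (X : Rep.{0} k G) (n : ℕ), pow X (n + 1) = pow X n ⊗ X) {X : Rep.{0} k G}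
    {Y : FRep k G} (h : RI X Y) (n : ℕ) : RI (pow X n) (FRep.pow Y (n + 1)) := by
  induction n with
  | zero =>
    rw [h0]
    obtain ⟨e, he⟩ := h
    refine ⟨(e.trans (TensorProduct.lid k Y.V).symm : X.V ≃ₗ[k] TensorProduct k k Y.V),
      fun g x => ?_⟩
    show (1 : k) ⊗ₜ[k] (e (X.ρ g x)) = (FRep.T (FRep.triv k G) Y).ρ g ((1 : k) ⊗ₜ[k] (e x))
    rw [he, FRep.T_apply]
    rfl
  | succ n ih =>
    rw [h1]
    exact RI_tensor ih h

/-- null identity implies projective -/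
theorem proj_of_null (X : Rep.{0} k G) (Q : FRep k G) (h : RI X Q)
    (h2 : EHom.id Q ∈ Null Q Q) : Projective X := by
  obtain ⟨e, he⟩ := h
  obtain ⟨φ, hφ⟩ := mem_Null.1 h2
  have hφ' : ∀ y : Q.V, ∑ g : G, Q.ρ g (φ (Q.ρ g⁻¹ y)) = y := by
    intro y
    rw [← Tr_apply, hφ]; rfl
  have hes : ∀ g y, e.symm (Q.ρ g y) = X.ρ g (e.symm y) := by
    intro g y
    apply e.injective
    rw [he, e.apply_symm_apply, e.apply_symm_apply]
  -- the linear endomorphism of `X.V`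
  let ψ : X.V →ₗ[k] X.V := e.symm.toLinearMap ∘ₗ φ ∘ₗ e.toLinearMap
  have hψ : ∀ x : X.V, ∑ g : G, X.ρ g (ψ (X.ρ g⁻¹ x)) = x := by
    intro x
    have h3 := congrArg e.symm (hφ' (e x))
    rw [map_sum, e.symm_apply_apply] at h3
    refine Eq.trans (Finset.sum_congr rfl fun g _ => ?_) h3
    show X.ρ g (e.symm (φ (e (X.ρ g⁻¹ x)))) = _
    rw [he, hes]
  refine ⟨fun {A B} f q hq => ?_⟩
  have hq' : Function.Surjective q.hom := (Rep.epi_iff_surjective q).1 hq
  obtain ⟨σ, hσ⟩ := q.hom.toLinearMap.exists_rightInverse_of_surjective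
    (LinearMap.range_eq_top.mpr hq')
  have hσ' : ∀ b, q.hom (σ b) = b := fun b => LinearMap.congr_fun hσ b
  let L : X.V →ₗ[k] A.V := ∑ g : G, (A.ρ g) ∘ₗ σ ∘ₗ f.hom.toLinearMap ∘ₗ ψ ∘ₗ (X.ρ g⁻¹)
  have hL : ∀ x, L x = ∑ g : G, A.ρ g (σ (f.hom (ψ (X.ρ g⁻¹ x)))) := by
    intro x
    show (∑ g : G, (A.ρ g) ∘ₗ σ ∘ₗ f.hom.toLinearMap ∘ₗ ψ ∘ₗ (X.ρ g⁻¹)) x = _
    rw [LinearMap.sum_apply]
    rfl
  have hLeq : ∀ (g : G) (x : X.V), L (X.ρ g x) = A.ρ g (L x) := by
    intro g x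
    rw [hL, hL, map_sum, ← Equiv.sum_comp (Equiv.mulLeft g)]
    refine Finset.sum_congr rfl fun h _ => ?_
    rw [Equiv.coe_mulLeft, mul_inv_rev, map_mul, map_mul]
    show A.ρ g (A.ρ h (σ (f.hom (ψ (X.ρ h⁻¹ (X.ρ g⁻¹ (X.ρ g x))))))) = _
    rw [Representation.inv_self_apply]
  let l : X.ρ.IntertwiningMap A.ρ := ⟨L, fun g => LinearMap.ext fun x => hLeq g x⟩
  refine ⟨Rep.ofHom l, ?_⟩
  apply Rep.hom_ext
  apply Representation.IntertwiningMap.ext
  refine LinearMap.ext fun x => ?_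
  show q.hom (L x) = f.hom x
  rw [hL, map_sum]
  have h4 : ∀ g : G, q.hom (A.ρ g (σ (f.hom (ψ (X.ρ g⁻¹ x))))) =
      f.hom (X.ρ g (ψ (X.ρ g⁻¹ x))) := by
    intro g
    rw [Rep.hom_comm_apply, hσ', Rep.hom_comm_apply]
  rw [Finset.sum_congr rfl fun g _ => h4 g, ← map_sum, hψ]

/-- projective implies null identity -/
theorem null_of_proj (X : Rep.{0} k G) (Q : FRep k G) (h : RI X Q) (h2 : Projective X) :
    EHom.id Q ∈ Null Q Q := by
  classical
  obtain ⟨e, he⟩ := h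
  have hes : ∀ g y, e.symm (Q.ρ g y) = X.ρ g (e.symm y) := by
    intro g y
    apply e.injective
    rw [he, e.apply_symm_apply, e.apply_symm_apply]
  -- the sum map
  let q0 : (FRep.Fn Q).V →ₗ[k] Q.V := ∑ g : G, LinearMap.proj g
  have hq0 : ∀ F : G → Q.V, q0 F = ∑ g : G, F g := by
    intro F
    show (∑ g : G, (LinearMap.proj g : (G → Q.V) →ₗ[k] Q.V)) F = _
    rw [LinearMap.sum_apply]
    rfl
  have hq0e : ∀ (g : G) (F : G → Q.V), q0 ((FRep.Fn Q).ρ g F) = Q.ρ g (q0 F) := by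
    intro g F
    rw [hq0, hq0 F, map_sum, ← Equiv.sum_comp (Equiv.mulLeft g)]
    refine Finset.sum_congr rfl fun h _ => ?_
    rw [FRep.Fn_apply, Equiv.coe_mulLeft, inv_mul_cancel_left]
  let q : EHom (FRep.Fn Q) Q := ⟨q0, hq0e⟩
  let q1 : (FRep.Fn Q).ρ.IntertwiningMap X.ρ :=
    ⟨e.symm.toLinearMap ∘ₗ q0, fun g => LinearMap.ext fun F => by
      show e.symm (q0 ((FRep.Fn Q).ρ g F)) = X.ρ g (e.symm (q0 F))
      rw [hq0e, hes]⟩
  have hsurj : Function.Surjective q1 := by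
    intro x
    refine ⟨Pi.single 1 (e x), ?_⟩
    show e.symm (q0 (Pi.single 1 (e x))) = x
    rw [hq0, Finset.sum_pi_single', if_pos (Finset.mem_univ _), e.symm_apply_apply]
  let qq : Rep.of (FRep.Fn Q).ρ ⟶ X := ConcreteCategory.ofHom (C := Rep.{0} k G) q1
  have hqq : Epi qq := (Rep.epi_iff_surjective qq).2 hsurj
  obtain ⟨s, hs⟩ := h2.factors (𝟙 X) qq
  let s1 : X.ρ.IntertwiningMap (FRep.Fn Q).ρ := s.hom
  have hs1 : ∀ x, q1 (s1 x) = x := by
    intro x
    have h3 := congrArg (fun t : X ⟶ X => t.hom x) hs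
    exact h3
  let F : EHom Q (FRep.Fn Q) := ⟨s1.toLinearMap ∘ₗ e.symm.toLinearMap, fun g x => by
    show s1 (e.symm (Q.ρ g x)) = (FRep.Fn Q).ρ g (s1 (e.symm x))
    rw [hes]
    exact Representation.IntertwiningMap.isIntertwining _ _ s1 g (e.symm x)⟩
  have h5 : EHom.id Q = (ecomp q F) := by
    apply EHom.ext'
    intro x
    show x = q0 (s1 (e.symm x))
    have h6 := congrArg e (hs1 (e.symm x))
    rw [e.apply_symm_apply] at h6
    refine h6.symm.trans ?_
    show e (e.symm (q0 _)) = _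
    rw [e.apply_symm_apply]
  rw [h5]
  exact null_of_factor F q

/-- the invariant of the problem -/
def cRep (X : Rep.{0} k G) : ℕ := sInf {d : ℕ | ∃ (P : Rep.{0} k G), Projective P ∧
          ∃ (i : P ⟶ X) (r : X ⟶ P), i ≫ r = 𝟙 P ∧
            d + Module.finrank k P.V = Module.finrank k X.V}

theorem cRep_bounds {p : ℕ} [Fact p.Prime] [CharP k p] (P : Subgroup G) (hP : IsPGroup p P)
    (hi : ((P.index : ℕ) : k) ≠ 0) (X : Rep.{0} k G) (Y : FRep k G) (h : RI X Y) :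
    ccS P Y ≤ cRep X ∧ cRep X ≤ P.index * ccS P Y := by
  obtain ⟨e, he⟩ := h
  have hes : ∀ g y, e.symm (Y.ρ g y) = X.ρ g (e.symm y) := by
    intro g y
    apply e.injective
    rw [he, e.apply_symm_apply, e.apply_symm_apply]
  have hdim : finrank k X.V = finrank k Y.V := e.finrank_eq
  have hfd : FiniteDimensional k X.V := Module.Finite.equiv e.symm
  -- upper bound
  have hup : ∃ d ∈ {d : ℕ | ∃ (P : Rep.{0} k G), Projective P ∧
          ∃ (i : P ⟶ X) (r : X ⟶ P), i ≫ r = 𝟙 P ∧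
            d + Module.finrank k P.V = Module.finrank k X.V}, d ≤ P.index * ccS P Y := by
    obtain ⟨Q, i, r, hri, hnull, hle⟩ := syl_split P hP hi Y
    have hinj : Function.Injective i.1 := by
      intro a b hab
      have h1 : ∀ x, r.1 (i.1 x) = x := fun x => LinearMap.congr_fun (congrArg Subtype.val hri) x
      rw [← h1 a, hab, h1 b]
    have hQ : finrank k Q.V ≤ finrank k Y.V := LinearMap.finrank_le_finrank_of_injective hinj
    let i1 : Q.ρ.IntertwiningMap X.ρ := ⟨e.symm.toLinearMap ∘ₗ i.1, fun g =>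
      LinearMap.ext fun x => by
        show e.symm (i.1 (Q.ρ g x)) = X.ρ g (e.symm (i.1 x))
        rw [EHom.map, hes]⟩
    let r1 : X.ρ.IntertwiningMap Q.ρ := ⟨r.1 ∘ₗ e.toLinearMap, fun g =>
      LinearMap.ext fun x => by
        show r.1 (e (X.ρ g x)) = Q.ρ g (r.1 (e x))
        rw [he, EHom.map]⟩
    let i2 : Rep.of Q.ρ ⟶ X := ConcreteCategory.ofHom (C := Rep.{0} k G) i1
    let r2 : X ⟶ Rep.of Q.ρ := ConcreteCategory.ofHom (C := Rep.{0} k G) r1
    refine ⟨finrank k Y.V - finrank k Q.V, ⟨Rep.of Q.ρ,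
      proj_of_null _ Q (RI_of Q.ρ) hnull, i2, r2, ?_, ?_⟩, by omega⟩
    · apply Rep.hom_ext
      apply Representation.IntertwiningMap.ext
      refine LinearMap.ext fun x => ?_
      show r.1 (e (e.symm (i.1 x))) = x
      rw [e.apply_symm_apply]
      exact LinearMap.congr_fun (congrArg Subtype.val hri) x
    · rw [hdim]
      show finrank k Y.V - finrank k Q.V + finrank k Q.V = finrank k Y.V
      omega
  obtain ⟨d, hd, hdle⟩ := hup
  refine ⟨?_, (Nat.sInf_le hd).trans hdle⟩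
  have hmem := Nat.sInf_mem (⟨d, hd⟩ : Set.Nonempty _)
  obtain ⟨Z, hZ, i, r, hir, hfin⟩ := hmem
  have h1 : ∀ x, r.hom (i.hom x) = x := by
    intro x
    exact congrArg (fun t : Z ⟶ Z => t.hom x) hir
  have hinj : Function.Injective i.hom.toLinearMap := by
    intro a b hab
    have hab' : i.hom a = i.hom b := hab
    rw [← h1 a, hab', h1 b]
  have hfdZ : FiniteDimensional k Z.V := Module.Finite.of_injective i.hom.toLinearMap hinj
  let Q : FRep k G := ⟨Z.V, Z.ρ⟩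
  have hRI : RI Z Q := ⟨LinearEquiv.refl k Z.V, fun _ _ => rfl⟩
  let i' : EHom Q Y := ⟨e.toLinearMap ∘ₗ i.hom.toLinearMap, fun g x => by
    show e (i.hom (Z.ρ g x)) = Y.ρ g (e (i.hom x))
    rw [Rep.hom_comm_apply, he]⟩
  let r' : EHom Y Q := ⟨r.hom.toLinearMap ∘ₗ e.symm.toLinearMap, fun g x => by
    show r.hom (e.symm (Y.ρ g x)) = Z.ρ g (r.hom (e.symm x))
    rw [hes, Rep.hom_comm_apply]⟩
  have h3 : (ecomp r' i') = EHom.id Q := by
    apply EHom.ext'
    intro x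
    show r.hom (e.symm (e (i.hom x))) = x
    rw [e.symm_apply_apply, h1]
  have h4 := syl_lower P hP Y Q i' r' h3 (null_of_proj Z Q hRI hZ)
  have h5 : cRep X + finrank k Z.V = finrank k X.V := hfin
  have h6 : finrank k Q.V = finrank k Z.V := rfl
  omega

end Pool.Agent.H34.Gam

end
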