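import Pool.Agent.H34.Gam.Swap
import Pool.Agent.H34.Gam.Cact

/-!
Iterated cosyzygies, total graded stable Hom `HH U W = ∏ₐ [U, Shᵃ W]`, push-forward, pull-back,
shift, the operators attached to 2-cochains `b : G → G → K`, polynomial action.
-/

set_option autoImplicit false
set_option linter.unusedSectionVars false

noncomputable section

namespace Pool.Agent.H34.Gam

variable {K G : Type} [Field K] [Group G] [Fintype G]

/-- iterated cosyzygy (inner recursion): `ShN (a+1) W = ShN a (Sh W)` -/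
def FRep.ShN : ℕ → FRep K G → FRep K G
  | 0, W => W
  | a + 1, W => FRep.ShN a (FRep.Sh W)

/-- `ShN a` on equivariant maps -/
def ShNm : (a : ℕ) → {W W' : FRep K G} → EHom W W' →ₗ[K] EHom (FRep.ShN a W) (FRep.ShN a W')
  | 0, _, _ => LinearMap.id
  | a + 1, _, _ => ShNm a ∘ₗ Sh.map

@[simp] lemma ShNm_zero {W W' : FRep K G} (f : EHom W W') : ShNm 0 f = f := rfl

lemma ShNm_succ (a : ℕ) {W W' : FRep K G} (f : EHom W W') :
    ShNm (a + 1) f = ShNm a (Sh.map f) := rfl

lemma ShNm_comp (a : ℕ) {W W' W'' : FRep K G} (f : EHom W' W'') (e : EHom W W') :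
    ShNm a ((ecomp f e)) = (ecomp (ShNm a f) (ShNm a e)) := by
  induction a generalizing W W' W'' with
  | zero => rfl
  | succ a ih => rw [ShNm_succ, ShNm_succ, ShNm_succ, Sh.map_comp, ih]; rfl

lemma ShNm_id (a : ℕ) (W : FRep K G) : ShNm a (EHom.id W) = EHom.id _ := by
  induction a generalizing W with
  | zero => rfl
  | succ a ih => rw [ShNm_succ, Sh.map_id, ih]; rfl

lemma ShNm_cl (a : ℕ) {W W' : FRep K G} {f f' : EHom W W'} (h : cl f = cl f') :
    cl (ShNm a f) = cl (ShNm a f') := by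
  induction a generalizing W W' with
  | zero => exact h
  | succ a ih => exact ih (Sh.map_cl h)

/-- total graded stable Hom space -/
abbrev HH (U W : FRep K G) : Type := ∀ a : ℕ, Hs U (FRep.ShN a W)

/-- `h a U W = dim [U, Shᵃ W]` -/
def hh (a : ℕ) (U W : FRep K G) : ℕ := Module.finrank K (Hs U (FRep.ShN a W))

lemma hh_succ (a : ℕ) (U W : FRep K G) : hh (a + 1) U W = hh a U (FRep.Sh W) := rfl

/-- elements concentrated in degree `n` -/
def deg (n : ℕ) (U W : FRep K G) : Submodule K (HH U W) where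
  carrier := {x | ∀ m, m ≠ n → x m = 0}
  add_mem' := by intro x y hx hy m hm; simp [hx m hm, hy m hm]
  zero_mem' := by intro m _; rfl
  smul_mem' := by intro c x hx m hm; simp [hx m hm]

lemma mem_deg {n : ℕ} {U W : FRep K G} {x : HH U W} : x ∈ deg n U W ↔ ∀ m, m ≠ n → x m = 0 :=
  Iff.rfl

/-- a homogeneous element from its component -/
def sgl (n : ℕ) (U W : FRep K G) : Hs U (FRep.ShN n W) →ₗ[K] HH U W :=
  LinearMap.single K (fun a : ℕ => Hs U (FRep.ShN a W)) n

lemma sgl_mem (n : ℕ) (U W : FRep K G) (x : Hs U (FRep.ShN n W)) : sgl n U W x ∈ deg n U W := by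
  intro m hm
  exact Pi.single_eq_of_ne (M := fun a : ℕ => Hs U (FRep.ShN a W)) hm x

@[simp] lemma sgl_same (n : ℕ) (U W : FRep K G) (x : Hs U (FRep.ShN n W)) :
    sgl n U W x n = x := Pi.single_eq_same (M := fun a : ℕ => Hs U (FRep.ShN a W)) n x

lemma deg_eq {n : ℕ} {U W : FRep K G} {x : HH U W} (hx : x ∈ deg n U W) :
    x = sgl n U W (x n) := by
  funext m
  by_cases hm : m = n
  · subst hm; rw [sgl_same]
  · rw [hx m hm, sgl_mem n U W (x n) m hm]

/-- `deg n ≃ [U, Shⁿ W]` -/
def degEquiv (n : ℕ) (U W : FRep K G) : Hs U (FRep.ShN n W) ≃ₗ[K] deg n U W :=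
  LinearEquiv.ofBijective ((sgl n U W).codRestrict (deg n U W) (sgl_mem n U W)) (by
    constructor
    · intro x y h
      have h2 := congrArg (fun z : deg n U W => z.1 n) h
      simpa using h2
    · intro ⟨x, hx⟩
      exact ⟨x n, Subtype.ext (deg_eq hx).symm⟩)

lemma finrank_deg (n : ℕ) (U W : FRep K G) : Module.finrank K (deg n U W) = hh n U W :=
  (degEquiv n U W).symm.finrank_eq

instance (n : ℕ) (U W : FRep K G) : FiniteDimensional K (deg n U W) :=
  (degEquiv n U W).finiteDimensional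

/-- post-composition -/
def push (U : FRep K G) {W W' : FRep K G} (f : EHom W W') : HH U W →ₗ[K] HH U W' :=
  LinearMap.pi fun a => Hs.mapR U (ShNm a f) ∘ₗ LinearMap.proj a

lemma push_apply (U : FRep K G) {W W' : FRep K G} (f : EHom W W') (x : HH U W) (a : ℕ) :
    push U f x a = Hs.mapR U (ShNm a f) (x a) := rfl

/-- pre-composition -/
def pull {U' U : FRep K G} (e : EHom U' U) (W : FRep K G) : HH U W →ₗ[K] HH U' W :=
  LinearMap.pi fun a => Hs.mapL e (FRep.ShN a W) ∘ₗ LinearMap.proj a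

lemma pull_apply {U' U : FRep K G} (e : EHom U' U) (W : FRep K G) (x : HH U W) (a : ℕ) :
    pull e W x a = Hs.mapL e (FRep.ShN a W) (x a) := rfl

/-- shift -/
def sg (U W : FRep K G) : HH U (FRep.Sh W) →ₗ[K] HH U W where
  toFun x := fun a => match a with
    | 0 => 0
    | a + 1 => x a
  map_add' x y := by
    funext a
    cases a with
    | zero => exact (add_zero _).symm
    | succ a => rfl
  map_smul' c x := by
    funext a
    cases a with
    | zero => exact (smul_zero (A := Hs U (FRep.ShN 0 W)) c).symm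
    | succ a => rfl

@[simp] lemma sg_zero (U W : FRep K G) (x : HH U (FRep.Sh W)) : sg U W x 0 = 0 := rfl

@[simp] lemma sg_succ (U W : FRep K G) (x : HH U (FRep.Sh W)) (a : ℕ) :
    sg U W x (a + 1) = x a := rfl

lemma sg_injective (U W : FRep K G) : Function.Injective (sg U W) := by
  intro x y h
  funext a
  exact congrFun h (a + 1)

/-- iterated shift -/
def sgN : (t : ℕ) → (U W : FRep K G) → (HH U (FRep.ShN t W) →ₗ[K] HH U W)
  | 0, _, _ => LinearMap.id
  | t + 1, U, W => sg U W ∘ₗ sgN t U (FRep.Sh W)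

lemma sgN_zero (U W : FRep K G) : sgN 0 U W = LinearMap.id := rfl

lemma sgN_succ (t : ℕ) (U W : FRep K G) (x : HH U (FRep.ShN (t + 1) W)) :
    sgN (t + 1) U W x = sg U W (sgN t U (FRep.Sh W) x) := rfl

lemma sgN_injective (t : ℕ) (U W : FRep K G) : Function.Injective (sgN t U W) := by
  induction t generalizing W with
  | zero => exact fun _ _ h => h
  | succ t ih => exact (sg_injective U W).comp (ih (FRep.Sh W))

lemma push_congr (U : FRep K G) {W W' : FRep K G} {f f' : EHom W W'} (h : cl f = cl f') :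
    push U f = push U f' := by
  refine LinearMap.ext fun x => funext fun a => ?_
  rw [push_apply, push_apply, Hs.mapR_congr U (ShNm_cl a h)]

lemma push_comp (U : FRep K G) {W W' W'' : FRep K G} (f : EHom W' W'') (e : EHom W W')
    (x : HH U W) : push U ((ecomp f e)) x = push U f (push U e x) := by
  funext a
  rw [push_apply, push_apply, push_apply, ShNm_comp, Hs.mapR_comp]; rfl

lemma push_id (U W : FRep K G) (x : HH U W) : push U (EHom.id W) x = x := by
  funext a
  rw [push_apply, ShNm_id]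
  obtain ⟨f, hf⟩ := cl_surjective (x a)
  rw [← hf, Hs.mapR_cl]; rfl

lemma push_add (U : FRep K G) {W W' : FRep K G} (f f' : EHom W W') (x : HH U W) :
    push U (f + f') x = push U f x + push U f' x := by
  funext a
  have h : ShNm a (f + f') = ShNm a f + ShNm a f' := map_add _ _ _
  rw [Pi.add_apply, push_apply, push_apply, push_apply, h]
  obtain ⟨e, he⟩ := cl_surjective (x a)
  rw [← he, Hs.mapR_cl, Hs.mapR_cl, Hs.mapR_cl, EHom.add_comp, map_add]

lemma push_smul (U : FRep K G) {W W' : FRep K G} (c : K) (f : EHom W W') (x : HH U W) :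
    push U (c • f) x = c • push U f x := by
  funext a
  have h : ShNm a (c • f) = c • ShNm a f := map_smul _ _ _
  rw [Pi.smul_apply, push_apply, push_apply, h]
  obtain ⟨e, he⟩ := cl_surjective (x a)
  rw [← he, Hs.mapR_cl, Hs.mapR_cl, EHom.smul_comp, map_smul]

lemma push_null (U : FRep K G) {W W' : FRep K G} {f : EHom W W'} (h : f ∈ Null W W') (x : HH U W) :
    push U f x = 0 := by
  have h1 : cl f = cl (0 : EHom W W') := by rw [cl_eq]; simpa using h
  rw [push_congr U h1]
  have := push_smul U (0 : K) (0 : EHom W W') x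
  rwa [zero_smul K (0 : EHom W W'), zero_smul] at this

lemma pull_push {U' U : FRep K G} (e : EHom U' U) {W W' : FRep K G} (f : EHom W W') (x : HH U W) :
    pull e W' (push U f x) = push U' f (pull e W x) := by
  funext a
  rw [pull_apply, push_apply, push_apply, pull_apply, Hs.mapL_mapR]

lemma push_sg (U : FRep K G) {W W' : FRep K G} (f : EHom W W') (x : HH U (FRep.Sh W)) :
    push U f (sg U W x) = sg U W' (push U (Sh.map f) x) := by
  funext a
  cases a with
  | zero => rw [push_apply, sg_zero, sg_zero, map_zero]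
  | succ a => rfl

lemma pull_sg {U' U : FRep K G} (e : EHom U' U) (W : FRep K G) (x : HH U (FRep.Sh W)) :
    pull e W (sg U W x) = sg U' W (pull e (FRep.Sh W) x) := by
  funext a
  cases a with
  | zero => rw [pull_apply, sg_zero, sg_zero, map_zero]
  | succ a => rfl

lemma push_sgN (t : ℕ) (U : FRep K G) {W W' : FRep K G} (f : EHom W W')
    (x : HH U (FRep.ShN t W)) : push U f (sgN t U W x) = sgN t U W' (push U (ShNm t f) x) := by
  induction t generalizing W W' with
  | zero => rfl
  | succ t ih =>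
    exact (push_sg U f _).trans (congrArg (sg U W') (ih (Sh.map f) x))

lemma pull_sgN (t : ℕ) {U' U : FRep K G} (e : EHom U' U) (W : FRep K G)
    (x : HH U (FRep.ShN t W)) :
    pull e W (sgN t U W x) = sgN t U' W (pull e (FRep.ShN t W) x) := by
  induction t generalizing W with
  | zero => rfl
  | succ t ih => exact (pull_sg e W _).trans (congrArg (sg U' W) (ih (FRep.Sh W) x))

lemma push_deg (U : FRep K G) {W W' : FRep K G} (f : EHom W W') {n : ℕ} {x : HH U W}
    (hx : x ∈ deg n U W) : push U f x ∈ deg n U W' := by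
  intro m hm
  rw [push_apply, hx m hm, map_zero]

lemma pull_deg {U' U : FRep K G} (e : EHom U' U) (W : FRep K G) {n : ℕ} {x : HH U W}
    (hx : x ∈ deg n U W) : pull e W x ∈ deg n U' W := by
  intro m hm
  rw [pull_apply, hx m hm, map_zero]

lemma sg_deg (U W : FRep K G) {n : ℕ} {x : HH U (FRep.Sh W)} (hx : x ∈ deg n U (FRep.Sh W)) :
    sg U W x ∈ deg (n + 1) U W := by
  intro m hm
  cases m with
  | zero => rfl
  | succ m => exact hx m (by omega)

lemma sg_deg_surj (U W : FRep K G) {n : ℕ} {x : HH U W} (hx : x ∈ deg (n + 1) U W) :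
    ∃ y ∈ deg n U (FRep.Sh W), sg U W y = x := by
  refine ⟨fun a => x (a + 1), ?_, ?_⟩
  · intro m hm
    exact hx (m + 1) (by omega)
  · funext a
    cases a with
    | zero => exact (hx 0 (by omega)).symm
    | succ a => rfl

lemma sgN_deg (t : ℕ) (U W : FRep K G) {n : ℕ} {x : HH U (FRep.ShN t W)}
    (hx : x ∈ deg n U (FRep.ShN t W)) : sgN t U W x ∈ deg (n + t) U W := by
  induction t generalizing W with
  | zero => exact hx
  | succ t ih => exact sg_deg U W (ih (FRep.Sh W) hx)

lemma sgN_deg_surj (t : ℕ) (U W : FRep K G) {n : ℕ} {x : HH U W} (hx : x ∈ deg (n + t) U W) :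
    ∃ y ∈ deg n U (FRep.ShN t W), sgN t U W y = x := by
  induction t generalizing W with
  | zero => exact ⟨x, hx, rfl⟩
  | succ t ih =>
    obtain ⟨y, hy, rfl⟩ := sg_deg_surj U W (n := n + t) hx
    obtain ⟨z, hz, rfl⟩ := ih (FRep.Sh W) hy
    exact ⟨z, hz, rfl⟩

/-- dimension shifting -/
lemma hh_ShN (a t : ℕ) (U W : FRep K G) : hh a U (FRep.ShN t W) = hh (a + t) U W := by
  induction t generalizing W with
  | zero => rfl
  | succ t ih => exact ih (FRep.Sh W)

/-! ### exactness -/

lemma exact_N (a : ℕ) {A B C : FRep K G} (S : SES A B C) (U : FRep K G) :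
    (∀ x : Hs U (FRep.ShN a B), Hs.mapR U (ShNm a S.p) x = 0 →
      ∃ y, Hs.mapR U (ShNm a S.i) y = x) ∧
    (∀ x : Hs U (FRep.ShN a C), Hs.mapR U (ShNm a S.δ) x = 0 →
      ∃ y, Hs.mapR U (ShNm a S.p) y = x) ∧
    (∀ x : Hs U (FRep.ShN a (FRep.Sh A)), Hs.mapR U (ShNm a (Sh.map S.i)) x = 0 →
      ∃ y, Hs.mapR U (ShNm a S.δ) y = x) := by
  induction a generalizing A B C with
  | zero => exact ⟨S.exact_mid U, S.exact_right U, S.exact_left U⟩
  | succ a ih =>
    obtain ⟨h1, h2, h3⟩ := ih S.sh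
    have hd : Sh.map S.δ = (ecomp (swp A) S.sh.δ) := by
      rw [SES.δ_sh, ← EHom.comp_assoc, swp_swp, EHom.id_comp]
    have hs : ∀ y : Hs U (FRep.ShN a (FRep.Sh (FRep.Sh A))),
        Hs.mapR U (ShNm a (swp A)) (Hs.mapR U (ShNm a (swp A)) y) = y := by
      intro y
      rw [← LinearMap.comp_apply, ← Hs.mapR_comp, ← ShNm_comp, swp_swp, ShNm_id]
      obtain ⟨f, rfl⟩ := cl_surjective y
      rfl
    refine ⟨h1, ?_, ?_⟩
    · show ∀ x : Hs U (FRep.ShN a (FRep.Sh C)), Hs.mapR U (ShNm a (Sh.map S.δ)) x = 0 →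
        ∃ y : Hs U (FRep.ShN a (FRep.Sh B)), Hs.mapR U (ShNm a (Sh.map S.p)) y = x
      intro x hx
      apply h2 x
      rw [SES.δ_sh, ShNm_comp, Hs.mapR_comp, LinearMap.comp_apply, hx, map_zero]
    · show ∀ x : Hs U (FRep.ShN a (FRep.Sh (FRep.Sh A))),
        Hs.mapR U (ShNm a (Sh.map (Sh.map S.i))) x = 0 →
        ∃ y : Hs U (FRep.ShN a (FRep.Sh C)), Hs.mapR U (ShNm a (Sh.map S.δ)) y = x
      intro x hx
      -- move the swap through
      have hsw : (ecomp (Sh.map (Sh.map S.i)) (swp A)) = (ecomp (swp B) (Sh.map (Sh.map S.i))) := by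
        apply Subtype.ext
        apply q2_hom_ext
        intro F
        rw [ecomp_val, ecomp_val, LinearMap.comp_apply, LinearMap.comp_apply, swp_q2]
        have e1 : ∀ F' : G → G → A.V, (Sh.map (Sh.map S.i)).1 (q2 A F') =
          q2 B (fun g h => S.i.1 (F' g h)) := fun F' => rfl
        rw [e1, e1, swp_q2]
      have hx2 : Hs.mapR U (ShNm a (Sh.map (Sh.map S.i))) (Hs.mapR U (ShNm a (swp A)) x) = 0 := by
        rw [← LinearMap.comp_apply, ← Hs.mapR_comp, ← ShNm_comp, hsw, ShNm_comp,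
          Hs.mapR_comp, LinearMap.comp_apply, hx, map_zero]
      obtain ⟨y, hy⟩ := h3 _ hx2
      refine ⟨y, ?_⟩
      rw [hd, ShNm_comp, Hs.mapR_comp, LinearMap.comp_apply]
      exact (congrArg (Hs.mapR U (ShNm a (swp A))) hy).trans (hs x)

/-- exactness at the middle term -/
lemma SES.push_exact_mid {A B C : FRep K G} (S : SES A B C) (U : FRep K G) {n : ℕ} {x : HH U B}
    (hx : x ∈ deg n U B) (h : push U S.p x = 0) : ∃ y ∈ deg n U A, push U S.i y = x := by
  obtain ⟨y, hy⟩ := (exact_N n S U).1 (x n) (congrFun h n)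
  refine ⟨sgl n U A y, sgl_mem _ _ _ _, ?_⟩
  have h1 := push_deg U S.i (sgl_mem n U A y)
  rw [deg_eq h1, push_apply, sgl_same, hy, ← deg_eq hx]

lemma SES.push_exact_right {A B C : FRep K G} (S : SES A B C) (U : FRep K G) {n : ℕ} {x : HH U C}
    (hx : x ∈ deg n U C) (h : push U S.δ x = 0) : ∃ y ∈ deg n U B, push U S.p y = x := by
  obtain ⟨y, hy⟩ := (exact_N n S U).2.1 (x n) (congrFun h n)
  refine ⟨sgl n U B y, sgl_mem _ _ _ _, ?_⟩
  have h1 := push_deg U S.p (sgl_mem n U B y)
  rw [deg_eq h1, push_apply, sgl_same, hy, ← deg_eq hx]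

lemma SES.push_exact_left {A B C : FRep K G} (S : SES A B C) (U : FRep K G) {n : ℕ}
    {x : HH U (FRep.Sh A)} (hx : x ∈ deg n U (FRep.Sh A)) (h : push U (Sh.map S.i) x = 0) :
    ∃ y ∈ deg n U C, push U S.δ y = x := by
  obtain ⟨y, hy⟩ := (exact_N n S U).2.2 (x n) (congrFun h n)
  refine ⟨sgl n U C y, sgl_mem _ _ _ _, ?_⟩
  have h1 := push_deg U S.δ (sgl_mem n U C y)
  rw [deg_eq h1, push_apply, sgl_same, hy, ← deg_eq hx]

/-- exactness at `A` in positive degree, via the shift -/
lemma SES.push_exact_sg {A B C : FRep K G} (S : SES A B C) (U : FRep K G) {n : ℕ} {x : HH U A}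
    (hx : x ∈ deg (n + 1) U A) (h : push U S.i x = 0) :
    ∃ y ∈ deg n U C, sg U A (push U S.δ y) = x := by
  obtain ⟨z, hz, rfl⟩ := sg_deg_surj U A hx
  rw [push_sg] at h
  obtain ⟨y, hy, rfl⟩ := S.push_exact_left U hz (sg_injective U B (by rw [h, map_zero]))
  exact ⟨y, hy, rfl⟩

lemma SES.push_δ_p {A B C : FRep K G} (S : SES A B C) (U : FRep K G) (x : HH U B) :
    push U S.δ (push U S.p x) = 0 := by
  rw [← push_comp]
  apply push_null
  have := S.δ_p_zero B (cl (EHom.id B))
  rw [Hs.mapR_cl, Hs.mapR_cl, cl_eq_zero] at this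
  exact this

lemma SES.push_i_δ {A B C : FRep K G} (S : SES A B C) (U : FRep K G) (x : HH U C) :
    push U (Sh.map S.i) (push U S.δ x) = 0 := by
  rw [← push_comp]
  apply push_null
  have := S.shi_δ_zero C (cl (EHom.id C))
  rw [Hs.mapR_cl, Hs.mapR_cl, cl_eq_zero] at this
  exact this

/-- dimension bound in an exact sequence -/
lemma hh_mid_le {A B C : FRep K G} (S : SES A B C) (n : ℕ) (U : FRep K G) :
    hh n U B ≤ hh n U A + hh n U C := by
  have h := (exact_N n S U).1
  have h2 := LinearMap.finrank_range_add_finrank_ker (Hs.mapR U (ShNm n S.p))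
  have h3 : LinearMap.ker (Hs.mapR U (ShNm n S.p)) ≤ LinearMap.range (Hs.mapR U (ShNm n S.i)) :=
    fun x hx => h x hx
  have h4 := Submodule.finrank_mono h3
  have h5 := LinearMap.finrank_range_le (Hs.mapR U (ShNm n S.i))
  have h6 := Submodule.finrank_le (LinearMap.range (Hs.mapR U (ShNm n S.p)))
  unfold hh
  omega

end Pool.Agent.H34.Gam

end
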